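import Pool.Agent.W_448win_h16.FactA

/-! The matching at a good level. -/

namespace Pool.Agent.GaussPoset.Win

set_option linter.unusedSectionVars false

open Finset

universe u

variable {P : Type u} [Fintype P] [PartialOrder P] [DecidableEq P] {r : ℕ}

/-- double lower near elements with the set `T` of upper covers -/
noncomputable def CoreC_L (i : ℕ) (T : Finset P) : Finset P := (dbL P i).filter (fun w => uc w = T)

/-- double upper near elements with the set `T` of lower covers -/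
noncomputable def CoreC_U (i : ℕ) (T : Finset P) : Finset P := (dbU P i).filter (fun u => dc u = T)

lemma mem_CoreC_L {i : ℕ} {T : Finset P} {w : P} :
    w ∈ CoreC_L i T ↔ w ∈ dbL P i ∧ uc w = T := by
  unfold CoreC_L
  rw [Finset.mem_filter]

lemma mem_CoreC_U {i : ℕ} {T : Finset P} {w : P} :
    w ∈ CoreC_U i T ↔ w ∈ dbU P i ∧ dc w = T := by
  unfold CoreC_U
  rw [Finset.mem_filter]

lemma CoreC_L_pair (H : Gr P r) {i : ℕ} {v v' : P} (hv : lev v = i) (hne : v ≠ v') :
    (CoreC_L i {v, v'}).card = dcv v v' := by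
  classical
  unfold dcv
  congr 1
  ext w
  simp only [mem_CoreC_L, Finset.mem_filter, Finset.mem_univ, true_and]
  constructor
  · rintro ⟨_, h2⟩
    constructor
    · rw [← mem_uc, h2]
      simp
    · rw [← mem_uc, h2]
      simp
  · rintro ⟨h1, h2⟩
    have hsub : ({v, v'} : Finset P) ⊆ uc w := by
      intro x hx
      rw [Finset.mem_insert, Finset.mem_singleton] at hx
      rcases hx with rfl | rfl
      · exact mem_uc.2 h1
      · exact mem_uc.2 h2
    have hcard := uc_card_le H w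
    have heq : ({v, v'} : Finset P) = uc w :=
      Finset.eq_of_subset_of_card_le hsub (by rw [Finset.card_pair hne]; exact hcard)
    refine ⟨mem_dbL.2 ⟨?_, ?_⟩, heq.symm⟩
    · have := (H.covBy_iff.mp h1).2
      omega
    · rw [← heq, Finset.card_pair hne]

lemma CoreC_U_pair (H : Gr P r) {i : ℕ} {v v' : P} (hv : lev v = i) (hne : v ≠ v') :
    (CoreC_U i {v, v'}).card = ucv v v' := by
  classical
  unfold ucv
  congr 1
  ext w
  simp only [mem_CoreC_U, Finset.mem_filter, Finset.mem_univ, true_and]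
  constructor
  · rintro ⟨_, h2⟩
    constructor
    · rw [← mem_dc, h2]
      simp
    · rw [← mem_dc, h2]
      simp
  · rintro ⟨h1, h2⟩
    have hsub : ({v, v'} : Finset P) ⊆ dc w := by
      intro x hx
      rw [Finset.mem_insert, Finset.mem_singleton] at hx
      rcases hx with rfl | rfl
      · exact mem_dc.2 h1
      · exact mem_dc.2 h2
    have hcard := dc_card_le H w
    have heq : ({v, v'} : Finset P) = dc w :=
      Finset.eq_of_subset_of_card_le hsub (by rw [Finset.card_pair hne]; exact hcard)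
    refine ⟨mem_dbU.2 ⟨?_, ?_⟩, heq.symm⟩
    · have := (H.covBy_iff.mp h1).2
      omega
    · rw [← heq, Finset.card_pair hne]

lemma CoreC_card (H : Gr P r) {i : ℕ} (hg : Good P i) (T : Finset P) :
    (CoreC_L i T).card = (CoreC_U i T).card := by
  by_cases hT : T.card = 2 ∧ ∀ v ∈ T, lev v = i
  · obtain ⟨v, v', hne, rfl⟩ := Finset.card_eq_two.1 hT.1
    have hv : lev v = i := hT.2 v (by simp)
    have hv' : lev v' = i := hT.2 v' (by simp)
    rw [CoreC_L_pair H hv hne, CoreC_U_pair H hv hne, hg v v' hv hv' hne]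
  · have h1 : CoreC_L i T = ∅ := by
      rw [Finset.eq_empty_iff_forall_notMem]
      intro w hw
      rw [mem_CoreC_L, mem_dbL] at hw
      refine hT ⟨hw.2 ▸ hw.1.2, fun v hv => ?_⟩
      rw [← hw.2] at hv
      have := lev_uc H hv
      omega
    have h2 : CoreC_U i T = ∅ := by
      rw [Finset.eq_empty_iff_forall_notMem]
      intro w hw
      rw [mem_CoreC_U, mem_dbU] at hw
      refine hT ⟨hw.2 ▸ hw.1.2, fun v hv => ?_⟩
      rw [← hw.2] at hv
      have := lev_dc H hv
      omega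
    rw [h1, h2]

/-- The matching at a good level. For a two-element set `{v, v'}` of sites the elements `w` of
`dbL P i` with `uc w = {v, v'}` are the common lower covers of `v, v'` (`uc_card_le`: two given upper
covers are all), `dcv v v'` many, and the elements `u` of `dbU P i` with `dc u = {v, v'}` are the
common upper covers, `ucv v v'` many. Choose bijections for every pair, and let `psi` be the bijection
on `dbL`, its inverse on `dbU` (these sets are disjoint: levels). -/
theorem good_mat (H : Gr P r) {i : ℕ} (hg : Good P i) :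
    ∃ psi : P → P, Mat P i ∅ psi := by
  classical
  let E : ∀ T : Finset P, CoreC_L i T ≃ CoreC_U i T := fun T =>
    Finset.equivOfCardEq (CoreC_card H hg T)
  let psi : P → P := fun x =>
    if h : x ∈ CoreC_L i (uc x) then ((E (uc x) ⟨x, h⟩ : CoreC_U i (uc x)) : P)
    else if h : x ∈ CoreC_U i (dc x) then (((E (dc x)).symm ⟨x, h⟩ : CoreC_L i (dc x)) : P)
    else x
  have hlow : ∀ x ∈ dbL P i, ∀ (h : x ∈ CoreC_L i (uc x)),
      psi x = ((E (uc x) ⟨x, h⟩ : CoreC_U i (uc x)) : P) := by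
    intro x _ h
    exact dif_pos h
  have hnot : ∀ x, x ∈ dbU P i → x ∉ CoreC_L i (uc x) := by
    intro x hx h
    rw [mem_CoreC_L, mem_dbL] at h
    rw [mem_dbU] at hx
    omega
  have hupp : ∀ x ∈ dbU P i, ∀ (h : x ∈ CoreC_U i (dc x)),
      psi x = (((E (dc x)).symm ⟨x, h⟩ : CoreC_L i (dc x)) : P) := by
    intro x hx h
    change (if h : x ∈ CoreC_L i (uc x) then ((E (uc x) ⟨x, h⟩ : CoreC_U i (uc x)) : P)
      else if h : x ∈ CoreC_U i (dc x) then (((E (dc x)).symm ⟨x, h⟩ : CoreC_L i (dc x)) : P)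
      else x) = _
    rw [dif_neg (hnot x hx), dif_pos h]
  have hL : ∀ x ∈ dbL P i, x ∈ CoreC_L i (uc x) := fun x hx => mem_CoreC_L.2 ⟨hx, rfl⟩
  have hU : ∀ x ∈ dbU P i, x ∈ CoreC_U i (dc x) := fun x hx => mem_CoreC_U.2 ⟨hx, rfl⟩
  have low : ∀ x, x ∈ dbL P i → psi x ∈ dbU P i ∧ dc (psi x) = uc x := by
    intro x hx
    rw [hlow x hx (hL x hx)]
    exact mem_CoreC_U.1 (E (uc x) ⟨x, hL x hx⟩).2
  have upp : ∀ x, x ∈ dbU P i → psi x ∈ dbL P i ∧ uc (psi x) = dc x := by
    intro x hx
    rw [hupp x hx (hU x hx)]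
    exact mem_CoreC_L.1 ((E (dc x)).symm ⟨x, hU x hx⟩).2
  have key1 : ∀ (T : Finset P) (u : P) (hT : dc u = T) (h : u ∈ CoreC_U i (dc u))
      (h' : u ∈ CoreC_U i T), (((E (dc u)).symm ⟨u, h⟩ : CoreC_L i (dc u)) : P) =
        (((E T).symm ⟨u, h'⟩ : CoreC_L i T) : P) := by
    rintro T u rfl h h'
    rfl
  have key2 : ∀ (T : Finset P) (w : P) (hT : uc w = T) (h : w ∈ CoreC_L i (uc w))
      (h' : w ∈ CoreC_L i T), ((E (uc w) ⟨w, h⟩ : CoreC_U i (uc w)) : P) =
        ((E T ⟨w, h'⟩ : CoreC_U i T) : P) := by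
    rintro T w rfl h h'
    rfl
  refine ⟨psi, ⟨fun x hx _ => ⟨?_, Finset.notMem_empty _⟩, fun x hx _ => low x hx,
    fun x hx _ => upp x hx⟩⟩
  rw [Finset.mem_union] at hx
  rcases hx with hx | hx
  · have h1 := low x hx
    rw [hupp (psi x) h1.1 (hU _ h1.1)]
    have h2 : psi x ∈ CoreC_U i (uc x) := mem_CoreC_U.2 h1
    rw [key1 (uc x) (psi x) h1.2 (hU _ h1.1) h2]
    have h3 : (⟨psi x, h2⟩ : CoreC_U i (uc x)) = E (uc x) ⟨x, hL x hx⟩ :=
      Subtype.ext (hlow x hx (hL x hx))
    rw [h3, Equiv.symm_apply_apply]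
  · have h1 := upp x hx
    rw [hlow (psi x) h1.1 (hL _ h1.1)]
    have h2 : psi x ∈ CoreC_L i (dc x) := mem_CoreC_L.2 h1
    rw [key2 (dc x) (psi x) h1.2 (hL _ h1.1) h2]
    have h3 : (⟨psi x, h2⟩ : CoreC_L i (dc x)) = (E (dc x)).symm ⟨x, hU x hx⟩ :=
      Subtype.ext (hupp x hx (hU x hx))
    rw [h3, Equiv.apply_symm_apply]

end Pool.Agent.GaussPoset.Win
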