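import Pool.Agent.W_448win_h16.FactA

/-! Parts with at most one positive near label. -/

namespace Pool.Agent.GaussPoset.Win

set_option linter.unusedSectionVars false

open Finset

universe u

variable {P : Type u} [Fintype P] [PartialOrder P] [DecidableEq P] {r : ℕ}

/-- If all lower labels are zero the lower part is trivial (every lower element has `GU`,
no lower cover has positive label). -/
theorem low_none (H : Gr P r) {i : ℕ} {e : P → ℕ} (h : ∀ z, i < lev z → e z = 0) :
    AdmL i e ∧ AL i e = ∅ ∧ aL i e = 0 ∧ pL i e = 0 := by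
  classical
  have hFD : ∀ z : P, i ≤ lev z → ¬ FD e z := by
    rintro z hz ⟨z', h1, h2⟩
    have h3 := (H.covBy_iff.1 h1).2
    rw [h z' (by omega)] at h2
    omega
  have hGU : ∀ z : P, i < lev z → GU e z := by
    intro z hz
    obtain ⟨y, hy⟩ := uc_nonempty H (x := z) (by omega)
    refine ⟨y, mem_uc.1 hy, ?_⟩
    rw [h z hz]
    exact Nat.zero_le _
  refine ⟨fun z hz h1 => hFD z hz.le h1.1, ?_, ?_, ?_⟩
  · unfold AL
    rw [Finset.filter_eq_empty_iff]
    intro v hv
    rw [mem_lv] at hv
    exact hFD v (by omega)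
  · unfold aL
    rw [Finset.card_eq_zero, Finset.filter_eq_empty_iff]
    rintro z _ ⟨h1, h2⟩
    exact hFD z h1.le h2
  · unfold pL
    rw [Finset.card_eq_zero, Finset.filter_eq_empty_iff]
    rintro z _ ⟨h1, h2, h3⟩
    exact h3 (hGU z h1)

/-- mirror image of `low_none` -/
theorem upp_none (H : Gr P r) {i : ℕ} (hi : i ≤ r) {e : P → ℕ} (h : ∀ z, lev z < i → e z = 0) :
    AdmU i e ∧ AU i e = ∅ ∧ aU i e = 0 ∧ pU i e = 0 := by
  classical
  have hFU : ∀ z : P, lev z ≤ i → ¬ FU e z := by
    rintro z hz ⟨y, h1, h2⟩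
    have h3 := (H.covBy_iff.1 h1).2
    rw [h y (by omega)] at h2
    omega
  have hGD : ∀ z : P, lev z < i → GD e z := by
    intro z hz
    obtain ⟨y, hy⟩ := dc_nonempty H (x := z) (by omega)
    refine ⟨y, mem_dc.1 hy, ?_⟩
    rw [h z hz]
    exact Nat.zero_le _
  refine ⟨fun z hz h1 => hFU z hz.le h1.1, ?_, ?_, ?_⟩
  · unfold AU
    rw [Finset.filter_eq_empty_iff]
    intro v hv
    rw [mem_lv] at hv
    exact hFU v (by omega)
  · unfold aU
    rw [Finset.card_eq_zero, Finset.filter_eq_empty_iff]
    rintro z _ ⟨h1, h2⟩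
    exact hFU z h1.le h2
  · unfold pU
    rw [Finset.card_eq_zero, Finset.filter_eq_empty_iff]
    rintro z _ ⟨h1, h2, h3⟩
    exact h3 (hGD z h1)

/-- Only the near element `w` has a positive label on level `i + 1`. The sites with `FD` are the
sites `v` above `w` with `e v < e w` (lower covers of sites have level `i + 1`). If all sites above
`w` have a smaller label then there is a free lower element: take a lower element `y` with `e y`
maximal and, among these, `lev y` minimal. `e y ≥ e w > 0`. `FD e y` fails by maximality. If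
`GU e y`, say `y ⋖ t` with `e y ≤ e t`: if `t` is a lower element then `e t` is maximal as well and
`lev t < lev y`, contradiction; if `t` is a site then `lev y = i + 1`, so `y = w` (positive label),
and `e w ≤ e t` contradicts the hypothesis. -/
theorem low_one (H : Gr P r) {i : ℕ} {e : P → ℕ} {w : P} (hw : lev w = i + 1)
    (h1 : ∀ w', lev w' = i + 1 → w' ≠ w → e w' = 0) :
    AL i e = (uc w).filter (fun v => e v < e w) ∧
      ((∀ v ∈ uc w, e v < e w) → 1 ≤ pL i e) := by
  classical
  constructor
  · ext v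
    unfold AL
    rw [Finset.mem_filter, Finset.mem_filter, mem_lv, mem_uc]
    constructor
    · rintro ⟨hv, z', hz', he⟩
      have h2 := (H.covBy_iff.1 hz').2
      have h3 : z' = w := by
        by_contra hne
        rw [h1 z' (by omega) hne] at he
        omega
      rw [← h3]
      exact ⟨hz', he⟩
    · rintro ⟨hv, he⟩
      have h2 := (H.covBy_iff.1 hv).2
      exact ⟨by omega, w, hv, he⟩
  · intro hall
    obtain ⟨v0, hv0⟩ := uc_nonempty H (x := w) (by omega)
    have hew : 0 < e w := lt_of_le_of_lt (Nat.zero_le _) (hall v0 hv0)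
    obtain ⟨y0, hy0, hmax⟩ := Finset.exists_max_image (univ.filter (fun y : P => i < lev y)) e
      ⟨w, by rw [Finset.mem_filter]; exact ⟨mem_univ _, by omega⟩⟩
    obtain ⟨y1, hy1, hmin⟩ := Finset.exists_min_image
      (univ.filter (fun y : P => i < lev y ∧ e y = e y0)) (fun y => lev y)
      ⟨y0, by rw [Finset.mem_filter] at hy0 ⊢; exact ⟨mem_univ _, hy0.2, rfl⟩⟩
    rw [Finset.mem_filter] at hy1 hy0
    have hmax' : ∀ t : P, i < lev t → e t ≤ e y0 := fun t ht => hmax t (by
      rw [Finset.mem_filter]; exact ⟨mem_univ _, ht⟩)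
    have hmin' : ∀ t : P, i < lev t → e t = e y0 → lev y1 ≤ lev t := fun t ht h => hmin t (by
      rw [Finset.mem_filter]; exact ⟨mem_univ _, ht, h⟩)
    unfold pL
    rw [Nat.one_le_iff_ne_zero, ← Nat.pos_iff_ne_zero, Finset.card_pos]
    refine ⟨y1, ?_⟩
    rw [Finset.mem_filter]
    refine ⟨mem_univ _, hy1.2.1, ?_, ?_⟩
    · rintro ⟨z', hz', he⟩
      have h2 := (H.covBy_iff.1 hz').2
      have h3 := hmax' z' (by omega)
      have h4 := hy1.2.2
      omega
    · rintro ⟨t, ht, he⟩
      have h2 := (H.covBy_iff.1 ht).2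
      have h4 := hy1.2.2
      have h5 := hy1.2.1
      by_cases h6 : i < lev t
      · have h7 := hmax' t h6
        have h8 := hmin' t h6 (by omega)
        omega
      · have h9 := hmax' w (by omega)
        have h7 : y1 = w := by
          by_contra hne
          have h8 := h1 y1 (by omega) hne
          omega
        rw [h7] at ht he
        have h8 := hall t (mem_uc.2 ht)
        omega

/-- mirror image of `low_one` -/
theorem upp_one (H : Gr P r) {i : ℕ} (hi : i ≤ r) {e : P → ℕ} {u : P} (hu : lev u + 1 = i)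
    (h1 : ∀ u', lev u' + 1 = i → u' ≠ u → e u' = 0) :
    AU i e = (dc u).filter (fun v => e v < e u) ∧
      ((∀ v ∈ dc u, e v < e u) → 1 ≤ pU i e) := by
  classical
  constructor
  · ext v
    unfold AU
    rw [Finset.mem_filter, Finset.mem_filter, mem_lv, mem_dc]
    constructor
    · rintro ⟨hv, z', hz', he⟩
      have h2 := (H.covBy_iff.1 hz').2
      have h3 : z' = u := by
        by_contra hne
        rw [h1 z' (by omega) hne] at he
        omega
      rw [← h3]
      exact ⟨hz', he⟩
    · rintro ⟨hv, he⟩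
      have h2 := (H.covBy_iff.1 hv).2
      exact ⟨by omega, u, hv, he⟩
  · intro hall
    obtain ⟨v0, hv0⟩ := dc_nonempty H (x := u) (by omega)
    have heu : 0 < e u := lt_of_le_of_lt (Nat.zero_le _) (hall v0 hv0)
    obtain ⟨y0, hy0, hmax⟩ := Finset.exists_max_image (univ.filter (fun y : P => lev y < i)) e
      ⟨u, by rw [Finset.mem_filter]; exact ⟨mem_univ _, by omega⟩⟩
    obtain ⟨y1, hy1, hmin⟩ := Finset.exists_max_image
      (univ.filter (fun y : P => lev y < i ∧ e y = e y0)) (fun y => lev y)
      ⟨y0, by rw [Finset.mem_filter] at hy0 ⊢; exact ⟨mem_univ _, hy0.2, rfl⟩⟩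
    rw [Finset.mem_filter] at hy1 hy0
    have hmax' : ∀ t : P, lev t < i → e t ≤ e y0 := fun t ht => hmax t (by
      rw [Finset.mem_filter]; exact ⟨mem_univ _, ht⟩)
    have hmin' : ∀ t : P, lev t < i → e t = e y0 → lev t ≤ lev y1 := fun t ht h => hmin t (by
      rw [Finset.mem_filter]; exact ⟨mem_univ _, ht, h⟩)
    unfold pU
    rw [Nat.one_le_iff_ne_zero, ← Nat.pos_iff_ne_zero, Finset.card_pos]
    refine ⟨y1, ?_⟩
    rw [Finset.mem_filter]
    refine ⟨mem_univ _, hy1.2.1, ?_, ?_⟩
    · rintro ⟨t, ht, he⟩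
      have h2 := (H.covBy_iff.1 ht).2
      have h5 := hy1.2.1
      have h3 := hmax' t (by omega)
      have h4 := hy1.2.2
      omega
    · rintro ⟨t, ht, he⟩
      have h2 := (H.covBy_iff.1 ht).2
      have h4 := hy1.2.2
      have h5 := hy1.2.1
      by_cases h6 : lev t < i
      · have h7 := hmax' t h6
        have h8 := hmin' t h6 (by omega)
        omega
      · have h9 := hmax' u (by omega)
        have h7 : y1 = u := by
          by_contra hne
          have h8 := h1 y1 (by omega) hne
          omega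
        rw [h7] at ht he
        have h8 := hall t (mem_dc.2 ht)
        omega

end Pool.Agent.GaussPoset.Win
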