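import Pool.Agent.W_448win_h16.NormC

/-! Admissibility and counting. -/

namespace Pool.Agent.GaussPoset.Win

set_option linter.unusedSectionVars false

open Finset

universe u

variable {P : Type u} [Fintype P] [PartialOrder P] [DecidableEq P] {r : ℕ}

theorem NormD_mem_AL (i : ℕ) (e : P → ℕ) (x : P) : x ∈ AL i e ↔ lev x = i ∧ FD e x := by
  classical
  unfold AL
  rw [Finset.mem_filter, mem_lv]

theorem NormD_mem_AU (i : ℕ) (e : P → ℕ) (x : P) : x ∈ AU i e ↔ lev x = i ∧ FU e x := by
  classical
  unfold AU
  rw [Finset.mem_filter, mem_lv]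

theorem NormD_AL (i : ℕ) (e : P → ℕ) [DecidablePred fun z : P => lev z = i ∧ FD e z] :
    (AL i e).card = (univ.filter (fun z : P => lev z = i ∧ FD e z)).card := by
  congr 1
  ext x
  rw [NormD_mem_AL, Finset.mem_filter]
  simp

theorem NormD_AU (i : ℕ) (e : P → ℕ) [DecidablePred fun z : P => lev z = i ∧ FU e z] :
    (AU i e).card = (univ.filter (fun z : P => lev z = i ∧ FU e z)).card := by
  congr 1
  ext x
  rw [NormD_mem_AU, Finset.mem_filter]
  simp

theorem NormD_FIc_up (H : Gr P r) {i : ℕ} (hi : i ≤ r) {e : P → ℕ} (hA : AdmU i e) {x : P}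
    (hx : lev x < i) : FIc i e x ↔ GD e x := by
  rw [FIc_up H hx]
  constructor
  · rintro (h | h)
    · by_contra hG
      have := big_of_not_GD H hi hA hx hG
      omega
    · exact h
  · exact fun h => Or.inr h

/-- Admissibility splits. Sites: `FIc` is `FD`, `FAc` is `FU` (`FIc_low`, `FAc_up`); lower elements:
`FIc_low`, `FAc_low`; upper elements: `FAc_up`, `FIc_up`, `big_of_not_GD`. -/
theorem adm_split (H : Gr P r) {i : ℕ} (hi : i ≤ r) (e : P → ℕ) :
    (∀ x, ¬ (FIc i e x ∧ FAc i e x)) ↔ AdmL i e ∧ AdmU i e ∧ Disjoint (AL i e) (AU i e) := by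
  constructor
  · intro h
    refine ⟨?_, ?_, ?_⟩
    · rintro z hz ⟨h1, h2⟩
      exact h z ⟨(FIc_low H hz.le).2 h1, (FAc_low H hz).2 h2⟩
    · rintro u hu ⟨h1, h2⟩
      exact h u ⟨(FIc_up H hu).2 (Or.inr h2), (FAc_up H hu.le).2 h1⟩
    · rw [Finset.disjoint_left]
      intro v hv hv'
      rw [NormD_mem_AL] at hv
      rw [NormD_mem_AU] at hv'
      exact h v ⟨(FIc_low H hv.1.ge).2 hv.2, (FAc_up H hv.1.le).2 hv'.2⟩
  · rintro ⟨hL, hU, hd⟩ x ⟨h1, h2⟩
    rcases Nat.lt_trichotomy (lev x) i with hx | hx | hx
    · have h3 := (FAc_up H hx.le).1 h2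
      have h4 : ¬ GD e x := fun h => hU x hx ⟨h3, h⟩
      rcases (FIc_up H hx).1 h1 with h5 | h5
      · have := big_of_not_GD H hi hU hx h4
        omega
      · exact h4 h5
    · have h3 := (FAc_up H hx.le).1 h2
      have h4 := (FIc_low H hx.ge).1 h1
      rw [Finset.disjoint_left] at hd
      refine hd (a := x) ?_ ?_
      · rw [NormD_mem_AL]
        exact ⟨hx, h4⟩
      · rw [NormD_mem_AU]
        exact ⟨hx, h3⟩
    · exact hL x hx ⟨(FIc_low H hx.le).1 h1, (FAc_low H hx).1 h2⟩

open Classical in
/-- The number of `FIc` elements: lower `FD` elements (`aL`), sites in `AL`, and upper elements with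
`GD` (under admissibility `FIc` is `GD` there, by `big_of_not_GD`); the upper elements split into
`FU`, `GD`, and neither. -/
theorem card_FIc (H : Gr P r) {i : ℕ} (hi : i ≤ r) {e : P → ℕ}
    (h : AdmL i e ∧ AdmU i e ∧ Disjoint (AL i e) (AU i e)) :
    (univ.filter (fun x => FIc i e x)).card + aU i e + pU i e =
      aL i e + (AL i e).card + below P i := by
  obtain ⟨hL, hU, hd⟩ := h
  have hAL := NormD_AL (P := P) i e
  have hmain : (univ.filter (fun x => FIc i e x)).card +
      (univ.filter (fun z : P => lev z < i ∧ FU e z)).card +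
      (univ.filter (fun z : P => lev z < i ∧ ¬ FU e z ∧ ¬ GD e z)).card =
      (univ.filter (fun z : P => i < lev z ∧ FD e z)).card +
      (univ.filter (fun z : P => lev z = i ∧ FD e z)).card +
      (univ.filter (fun z : P => lev z < i)).card := by
    rw [Finset.card_filter, Finset.card_filter, Finset.card_filter, Finset.card_filter,
      Finset.card_filter, Finset.card_filter, ← Finset.sum_add_distrib,
      ← Finset.sum_add_distrib, ← Finset.sum_add_distrib, ← Finset.sum_add_distrib]
    refine Finset.sum_congr rfl fun x _ => ?_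
    rcases Nat.lt_trichotomy (lev x) i with hx | hx | hx
    · have hF : FIc i e x ↔ GD e x := NormD_FIc_up H hi hU hx
      have h1 : ¬ (i < lev x) := by omega
      have h2 : ¬ (lev x = i) := by omega
      have h3 := hU x hx
      by_cases hG : GD e x
      · have h4 : ¬ FU e x := fun h => h3 ⟨h, hG⟩
        simp [hF, hx, h1, h2, hG, h4]
      · by_cases hU' : FU e x
        · simp [hF, hx, h1, h2, hG, hU']
        · simp [hF, hx, h1, h2, hG, hU']
    · have hF : FIc i e x ↔ FD e x := FIc_low H hx.ge
      have h1 : ¬ (i < lev x) := by omega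
      have h2 : ¬ (lev x < i) := by omega
      simp [hF, hx]
    · have hF : FIc i e x ↔ FD e x := FIc_low H hx.le
      have h1 : ¬ (lev x = i) := by omega
      have h2 : ¬ (lev x < i) := by omega
      simp [hF, hx, h1, h2]
  have e1 : aU i e = (univ.filter (fun z : P => lev z < i ∧ FU e z)).card := by
    unfold aU
    congr
  have e2 : pU i e = (univ.filter (fun z : P => lev z < i ∧ ¬ FU e z ∧ ¬ GD e z)).card := by
    unfold pU
    congr
  have e3 : aL i e = (univ.filter (fun z : P => i < lev z ∧ FD e z)).card := by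
    unfold aL
    congr
  have e4 : below P i = (univ.filter (fun z : P => lev z < i)).card := by
    unfold below
    congr
  rw [e1, e2, e3, e4, hAL]
  exact hmain

open Classical in
/-- The number of free elements: `pL` lower ones, `pU` upper ones, and the sites outside
`AL ∪ AU`. -/
theorem card_free (H : Gr P r) {i : ℕ} (hi : i ≤ r) {e : P → ℕ}
    (h : AdmL i e ∧ AdmU i e ∧ Disjoint (AL i e) (AU i e)) :
    (univ.filter (fun x => ¬ FIc i e x ∧ ¬ FAc i e x)).card =
      pL i e + pU i e + ((lv P i).card - (AL i e).card - (AU i e).card) := by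
  obtain ⟨hL, hU, hd⟩ := h
  have hAL := NormD_AL (P := P) i e
  have hAU := NormD_AU (P := P) i e
  have hmain : (univ.filter (fun x => ¬ FIc i e x ∧ ¬ FAc i e x)).card +
      (univ.filter (fun z : P => lev z = i ∧ FD e z)).card +
      (univ.filter (fun z : P => lev z = i ∧ FU e z)).card =
      (univ.filter (fun z : P => i < lev z ∧ ¬ FD e z ∧ ¬ GU e z)).card +
      (univ.filter (fun z : P => lev z < i ∧ ¬ FU e z ∧ ¬ GD e z)).card +
      (univ.filter (fun z : P => lev z = i)).card := by
    rw [Finset.card_filter, Finset.card_filter, Finset.card_filter, Finset.card_filter,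
      Finset.card_filter, Finset.card_filter, ← Finset.sum_add_distrib,
      ← Finset.sum_add_distrib, ← Finset.sum_add_distrib, ← Finset.sum_add_distrib]
    refine Finset.sum_congr rfl fun x _ => ?_
    rcases Nat.lt_trichotomy (lev x) i with hx | hx | hx
    · have hF : FIc i e x ↔ GD e x := NormD_FIc_up H hi hU hx
      have hF2 : FAc i e x ↔ FU e x := FAc_up H hx.le
      have h1 : ¬ (i < lev x) := by omega
      have h2 : ¬ (lev x = i) := by omega
      by_cases hG : GD e x
      · by_cases hU' : FU e x
        · simp [hF, hF2, hx, h1, h2, hG, hU']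
        · simp [hF, hF2, hx, h1, h2, hG, hU']
      · by_cases hU' : FU e x
        · simp [hF, hF2, hx, h1, h2, hG, hU']
        · simp [hF, hF2, hx, h1, h2, hG, hU']
    · have hF : FIc i e x ↔ FD e x := FIc_low H hx.ge
      have hF2 : FAc i e x ↔ FU e x := FAc_up H hx.le
      by_cases hG : FD e x
      · by_cases hU' : FU e x
        · exfalso
          rw [Finset.disjoint_left] at hd
          refine hd (a := x) ?_ ?_
          · rw [NormD_mem_AL]
            exact ⟨hx, hG⟩
          · rw [NormD_mem_AU]
            exact ⟨hx, hU'⟩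
        · simp [hF, hF2, hx, hG, hU']
      · by_cases hU' : FU e x
        · simp [hF, hF2, hx, hG, hU']
        · simp [hF, hF2, hx, hG, hU']
    · have hF : FIc i e x ↔ FD e x := FIc_low H hx.le
      have hF2 : FAc i e x ↔ GU e x := FAc_low H hx
      have h1 : ¬ (lev x = i) := by omega
      have h2 : ¬ (lev x < i) := by omega
      by_cases hG : FD e x
      · by_cases hU' : GU e x
        · simp [hF, hF2, hx, h1, h2, hG, hU']
        · simp [hF, hF2, hx, h1, h2, hG, hU']
      · by_cases hU' : GU e x
        · simp [hF, hF2, hx, h1, h2, hG, hU']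
        · simp [hF, hF2, hx, h1, h2, hG, hU']
  have e1 : pL i e = (univ.filter (fun z : P => i < lev z ∧ ¬ FD e z ∧ ¬ GU e z)).card := by
    unfold pL
    congr
  have e2 : pU i e = (univ.filter (fun z : P => lev z < i ∧ ¬ FU e z ∧ ¬ GD e z)).card := by
    unfold pU
    congr
  have e3 : (lv P i).card = (univ.filter (fun z : P => lev z = i)).card := by
    unfold lv
    congr
  have hle : (AL i e).card + (AU i e).card ≤ (lv P i).card := by
    rw [← Finset.card_union_of_disjoint hd]
    refine Finset.card_le_card (Finset.union_subset ?_ ?_)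
    · unfold AL
      exact Finset.filter_subset _ _
    · unfold AU
      exact Finset.filter_subset _ _
  rw [← e1, ← e2, ← e3, ← hAL, ← hAU] at hmain
  omega

end Pool.Agent.GaussPoset.Win
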