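import Pool.Agent.W_448win_h16.NormA
import Pool.Agent.W_448win_h16.NormD

/-! Normal form of the window polynomial. -/

namespace Pool.Agent.GaussPoset.Win

set_option linter.unusedSectionVars false

open Finset

universe u

variable {P : Type u} [Fintype P] [PartialOrder P] [DecidableEq P] {r : ℕ}

open Classical in
/-- Normal form of one configuration: combine `sum_vd`, `sum_vd_cov`, `adm_split`, `card_FIc`,
`card_free`, `ev_X`, `ev_one_add` and `xx * xi = 1` (multiply by `xi ^ below`: the number of
`FIc` elements is `aL + |AL| + below - aU - pU`). -/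
theorem ev_term (H : Gr P r) {i : ℕ} (hi : i ≤ r) (e : P → ℕ) :
    ev (if Adm i e then Polynomial.X ^ (nf i e) * (1 + Polynomial.X) ^ (Pk i e).card else 0) *
      xi ^ (below P i) = trm i e := by
  rw [← sum_vd, sum_vd_cov]
  by_cases h : ∀ x, ¬ (FIc i e x ∧ FAc i e x)
  · have h' := (adm_split H hi e).1 h
    have h1 := card_FIc H hi h'
    have h2 := card_free H hi h'
    rw [if_pos h, h2, map_mul, map_pow, map_pow, ev_X, ev_one_add]
    unfold trm
    rw [if_pos h'.2.2]
    unfold cw
    rw [if_pos ⟨h'.1, h'.2.1⟩]
    set N := (univ.filter (fun x => FIc i e x)).card with hN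
    have h3 : xx ^ N * xi ^ (below P i) =
        xx ^ (aL i e + (AL i e).card) * xi ^ (aU i e + pU i e) := by
      have h4 : ∀ m : ℕ, xx ^ m * xi ^ m = 1 := fun m => by
        rw [← mul_pow, xx_mul_xi, one_pow]
      calc xx ^ N * xi ^ (below P i)
          = xx ^ N * xi ^ (below P i) * (xx ^ (aU i e + pU i e) * xi ^ (aU i e + pU i e)) := by
            rw [h4, mul_one]
        _ = xx ^ (N + aU i e + pU i e) * xi ^ (below P i) * xi ^ (aU i e + pU i e) := by
            ring
        _ = xx ^ (aL i e + (AL i e).card) * xi ^ (aU i e + pU i e) *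
              (xx ^ (below P i) * xi ^ (below P i)) := by
            rw [h1]
            ring
        _ = _ := by rw [h4, mul_one]
    calc xx ^ N * dd ^ (pL i e + pU i e + ((lv P i).card - (AL i e).card - (AU i e).card)) *
          xi ^ (below P i)
        = (xx ^ N * xi ^ (below P i)) * dd ^ (pL i e + pU i e) *
            dd ^ ((lv P i).card - (AL i e).card - (AU i e).card) := by
          rw [pow_add dd (pL i e + pU i e)]
          ring
      _ = _ := by
          rw [h3, pow_add xx]
          ring
  · rw [if_neg h, map_zero, zero_mul]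
    unfold trm
    by_cases hd : Disjoint (AL i e) (AU i e)
    · rw [if_pos hd]
      unfold cw
      rw [if_neg, zero_mul]
      rintro ⟨h1, h2⟩
      exact h ((adm_split H hi e).2 ⟨h1, h2, hd⟩)
    · rw [if_neg hd]

/-- The window divisibility in normal form: `dvd_Z`, mapped by `ev`, multiplied by
`xi ^ below`, and `ev_term` for every summand. -/
theorem dvd_sum_trm (H : Gr P r) {i : ℕ} (hi : i ≤ r) (n : ℕ) :
    dd ^ (lv P i).card ∣ ∑ e ∈ (univ : Finset P).piAntidiag n, trm i e := by
  have h1 := map_dvd ev (dvd_Z H.gauss i n)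
  rw [map_pow, ev_one_add] at h1
  have h2 := Dvd.dvd.mul_right h1 (xi ^ below P i)
  unfold Z at h2
  rw [map_sum, Finset.sum_mul] at h2
  rwa [Finset.sum_congr rfl fun e _ => ev_term H hi e] at h2

/-- Weighted sum of `chi B C` over the subsets of the window. If `B` and `C` meet both sides are
`0`. Otherwise the sets `S` are `B ∪ S'` with `S'` a subset of the rest of the window:
`xx ^ |B| * (1 + xx) ^ (|V| - |B| - |C|)` (`Finset.sum_pow_mul_eq_add_pow`). -/
theorem II_chi {i : ℕ} {B C : Finset P} (hB : B ⊆ lv P i) (hC : C ⊆ lv P i) :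
    II i (chi B C) = if Disjoint B C then xx ^ B.card * dd ^ ((lv P i).card - B.card - C.card)
      else 0 := by
  unfold II chi
  split_ifs with hd
  · have h1 : ∑ S ∈ (lv P i).powerset, xx ^ S.card * (if B ⊆ S ∧ Disjoint C S then (1 : A) else 0) =
        ∑ S ∈ (lv P i).powerset.filter (fun S => B ⊆ S ∧ Disjoint C S), xx ^ S.card := by
      rw [Finset.sum_filter]
      refine Finset.sum_congr rfl fun S _ => ?_
      split_ifs <;> simp
    have h2 : ∑ S ∈ (lv P i).powerset.filter (fun S => B ⊆ S ∧ Disjoint C S), xx ^ S.card =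
        ∑ T ∈ ((lv P i \ B) \ C).powerset, xx ^ (B ∪ T).card := by
      symm
      refine Finset.sum_nbij' (fun T => B ∪ T) (fun S => S \ B) ?_ ?_ ?_ ?_ ?_
      · intro T hT
        rw [mem_powerset] at hT
        rw [mem_filter, mem_powerset]
        refine ⟨union_subset hB (hT.trans (sdiff_subset.trans sdiff_subset)),
          subset_union_left, ?_⟩
        rw [disjoint_union_right]
        refine ⟨hd.symm, ?_⟩
        exact (disjoint_of_subset_left hT sdiff_disjoint).symm
      · intro S hS
        rw [mem_filter, mem_powerset] at hS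
        rw [mem_powerset]
        intro x hx
        rw [mem_sdiff] at hx
        rw [mem_sdiff, mem_sdiff]
        exact ⟨⟨hS.1 hx.1, hx.2⟩, fun h => (disjoint_left.1 hS.2.2 h) hx.1⟩
      · intro T hT
        rw [mem_powerset] at hT
        have h3 : Disjoint B T := by
          rw [disjoint_left]
          intro x hx hxT
          have := hT hxT
          rw [mem_sdiff, mem_sdiff] at this
          exact this.1.2 hx
        exact h3.sup_sdiff_cancel_left
      · intro S hS
        rw [mem_filter, mem_powerset] at hS
        exact union_sdiff_of_subset hS.2.1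
      · intro T _
        rfl
    have h3 : ∀ T ∈ ((lv P i \ B) \ C).powerset, xx ^ (B ∪ T).card = xx ^ B.card * xx ^ T.card := by
      intro T hT
      rw [mem_powerset] at hT
      rw [card_union_of_disjoint, pow_add]
      rw [disjoint_left]
      intro x hx hxT
      have := hT hxT
      rw [mem_sdiff, mem_sdiff] at this
      exact this.1.2 hx
    have h4 : ((lv P i \ B) \ C).card = (lv P i).card - B.card - C.card := by
      rw [card_sdiff_of_subset, card_sdiff_of_subset hB]
      intro x hx
      rw [mem_sdiff]
      exact ⟨hC hx, fun h => (disjoint_left.1 hd h) hx⟩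
    rw [h1, h2, Finset.sum_congr rfl h3, ← Finset.mul_sum, ← h4, ← one_add_xx, add_comm 1 xx,
      ← Finset.sum_pow_mul_eq_add_pow]
    simp
  · refine Finset.sum_eq_zero fun S _ => ?_
    rw [if_neg, mul_zero]
    rintro ⟨h1, h2⟩
    exact hd (disjoint_of_subset_left h1 h2.symm)

/-- `II_chi` with the constant factor `cw`. -/
theorem II_Fe (i : ℕ) (e : P → ℕ) : II i (Fe i e) = trm i e := by
  have h1 : II i (Fe i e) = cw i e * II i (chi (AL i e) (AU i e)) := by
    unfold II Fe
    rw [Finset.mul_sum]
    refine Finset.sum_congr rfl fun S _ => ?_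
    ring
  classical
  have h2 : AL i e ⊆ lv P i := fun x hx => by
    unfold AL at hx
    exact (mem_filter.1 hx).1
  have h3 : AU i e ⊆ lv P i := fun x hx => by
    unfold AU at hx
    exact (mem_filter.1 hx).1
  rw [h1, II_chi h2 h3]
  unfold trm
  split_ifs
  · rfl
  · rw [mul_zero]

end Pool.Agent.GaussPoset.Win
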