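import Pool.Agent.W_448win_h16.RkA
import Pool.Agent.W_448win_h16.NormE

/-! Monomials and cheap configurations. -/

namespace Pool.Agent.GaussPoset.Win

set_option linter.unusedSectionVars false

open Finset

universe u

variable {P : Type u} [Fintype P] [PartialOrder P] [DecidableEq P] {r : ℕ}

lemma RkC_chi_zero {B C : Finset P} (h : ¬ Disjoint B C) (S : Finset P) : chi B C S = 0 := by
  classical
  unfold chi
  rw [if_neg]
  rintro ⟨h1, h2⟩
  exact h (disjoint_comm.1 (Disjoint.mono_right h1 h2))

lemma RkC_alt (s : Finset P) :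
    ∑ t ∈ s.powerset, ((-1 : A)) ^ t.card = if s = ∅ then 1 else 0 := by
  have h := Finset.sum_pow_mul_eq_add_pow (-1 : A) 1 s
  simp only [one_pow, mul_one, neg_add_cancel] at h
  rw [h]
  by_cases hs : s = ∅
  · simp [hs]
  · rw [if_neg hs, zero_pow]
    exact fun h0 => hs (Finset.card_eq_zero.1 h0)

lemma RkC_sum {B C : Finset P} (hBC : Disjoint B C) (S : Finset P) (a : A) :
    ∑ T ∈ S.powerset, (if B ⊆ T ∧ T ⊆ B ∪ C then a * (-1) ^ (T.card - B.card) else 0) =
      a * chi B C S := by
  classical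
  by_cases hBS : B ⊆ S
  · have h1 : ∑ T ∈ S.powerset,
        (if B ⊆ T ∧ T ⊆ B ∪ C then a * (-1) ^ (T.card - B.card) else 0) =
        ∑ T ∈ (C ∩ S).powerset.image (fun T' => B ∪ T'),
          (if B ⊆ T ∧ T ⊆ B ∪ C then a * (-1) ^ (T.card - B.card) else 0) := by
      symm
      apply Finset.sum_subset
      · intro T hT
        obtain ⟨T', hT', rfl⟩ := Finset.mem_image.1 hT
        rw [Finset.mem_powerset] at hT' ⊢
        exact Finset.union_subset hBS (hT'.trans Finset.inter_subset_right)
      · intro T hT hT2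
        rw [if_neg]
        rintro ⟨h2, h3⟩
        apply hT2
        rw [Finset.mem_image]
        refine ⟨T \ B, ?_, Finset.union_sdiff_of_subset h2⟩
        rw [Finset.mem_powerset] at hT ⊢
        intro x hx
        rw [Finset.mem_sdiff] at hx
        have h4 := h3 hx.1
        rw [Finset.mem_union] at h4
        rw [Finset.mem_inter]
        exact ⟨h4.resolve_left hx.2, hT hx.1⟩
    have hd : ∀ T' ∈ (C ∩ S).powerset, Disjoint B T' := by
      intro T' hT'
      exact Disjoint.mono_right ((Finset.mem_powerset.1 hT').trans Finset.inter_subset_left) hBC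
    rw [h1, Finset.sum_image]
    · have h2 : ∀ T' ∈ (C ∩ S).powerset,
          (if B ⊆ B ∪ T' ∧ B ∪ T' ⊆ B ∪ C then a * (-1) ^ ((B ∪ T').card - B.card) else 0) =
            a * (-1 : A) ^ T'.card := by
        intro T' hT'
        rw [if_pos, Finset.card_union_of_disjoint (hd T' hT'), Nat.add_sub_cancel_left]
        refine ⟨Finset.subset_union_left, Finset.union_subset_union_right ?_⟩
        exact (Finset.mem_powerset.1 hT').trans Finset.inter_subset_left
      rw [Finset.sum_congr rfl h2, ← Finset.mul_sum, RkC_alt]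
      congr 1
      unfold chi
      by_cases h5 : C ∩ S = ∅
      · rw [if_pos h5, if_pos ⟨hBS, Finset.disjoint_iff_inter_eq_empty.2 h5⟩]
      · rw [if_neg h5, if_neg]
        rintro ⟨-, h6⟩
        exact h5 (Finset.disjoint_iff_inter_eq_empty.1 h6)
    · intro T1 h1 T2 h2 h12
      have e1 := hd T1 h1
      have e2 := hd T2 h2
      have h12' : B ∪ T1 = B ∪ T2 := h12
      have := congrArg (fun Z => Z \ B) h12'
      simp only [Finset.union_sdiff_left] at this
      rwa [Finset.sdiff_eq_self_of_disjoint e1.symm, Finset.sdiff_eq_self_of_disjoint e2.symm]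
        at this
  · have h1 : ∀ T ∈ S.powerset,
        (if B ⊆ T ∧ T ⊆ B ∪ C then a * (-1) ^ (T.card - B.card) else 0) = (0 : A) := by
      intro T hT
      rw [if_neg]
      rintro ⟨h2, -⟩
      exact hBS (h2.trans (Finset.mem_powerset.1 hT))
    rw [Finset.sum_eq_zero h1]
    unfold chi
    rw [if_neg (fun h => hBS h.1), mul_zero]

/-- A monomial. If `B` and `C` meet, `chi B C S = 0` for all `S`. Otherwise take
`c T = a * (-1) ^ (|T| - |B|)` for `B ⊆ T ⊆ B ∪ C` and `0` otherwise:
`∑ T ⊆ S, c T = a * [B ⊆ S] * ∑ T' ⊆ C ∩ S, (-1) ^ |T'| = a * [B ⊆ S] * [C ∩ S = ∅]`. All these `T`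
have `|T| - k ≤ |B| + |C| - k ≤ p`. -/
lemma Rk_chi {V B C : Finset P} {k p : ℕ} (hB : B ⊆ V) (hC : C ⊆ V)
    (hp : B.card + C.card ≤ p + k) {a : A} (ha : dd ^ p ∣ a) :
    Rk V k (fun S => a * chi B C S) := by
  classical
  by_cases hBC : Disjoint B C
  · refine ⟨fun T => if B ⊆ T ∧ T ⊆ B ∪ C then a * (-1) ^ (T.card - B.card) else 0, ?_, ?_⟩
    · intro T _
      by_cases h : B ⊆ T ∧ T ⊆ B ∪ C
      · have h1 : T.card ≤ B.card + C.card :=
          (Finset.card_le_card h.2).trans (Finset.card_union_le _ _)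
        have h2 : dd ^ (T.card - k) ∣ dd ^ p := pow_dvd_pow _ (by omega)
        simp only [if_pos h]
        exact Dvd.dvd.mul_right (h2.trans ha) _
      · simp only [if_neg h]
        exact dvd_zero _
    · intro S _
      exact (RkC_sum hBC S a).symm
  · refine Rk_congr (f := fun _ => 0) ?_ (Rk_zero V k)
    intro S _
    simp only [RkC_chi_zero hBC S, mul_zero]

/-- `∑ S ⊆ V, xx ^ |S| * f S = ∑ T ⊆ V, c T * xx ^ |T| * dd ^ (|V| - |T|)` (exchange the sums, the
inner sum over `T ⊆ S ⊆ V` is `xx ^ |T| * (1 + xx) ^ (|V| - |T|)`, or use `II_chi` with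
`C = ∅`), and `(|T| - k) + (|V| - |T|) ≥ |V| - k`. -/
theorem Rk_II {i k : ℕ} {f : Finset P → A} (hf : Rk (lv P i) k f) :
    dd ^ ((lv P i).card - k) ∣ II i f := by
  classical
  obtain ⟨c, hc, hf⟩ := hf
  have h1 : II i f = ∑ T ∈ (lv P i).powerset, c T * II i (chi T ∅) := by
    unfold II
    simp only [Finset.mul_sum]
    rw [Finset.sum_comm]
    apply Finset.sum_congr rfl
    intro S hS
    rw [hf S (Finset.mem_powerset.1 hS), Finset.mul_sum]
    have h2 : ∑ T ∈ S.powerset, xx ^ S.card * c T =
        ∑ T ∈ S.powerset, c T * (xx ^ S.card * chi T ∅ S) := by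
      apply Finset.sum_congr rfl
      intro T hT
      unfold chi
      rw [if_pos ⟨Finset.mem_powerset.1 hT, Finset.disjoint_empty_left S⟩]
      ring
    rw [h2]
    apply Finset.sum_subset
    · exact Finset.powerset_mono.2 (Finset.mem_powerset.1 hS)
    · intro T _ hT
      unfold chi
      rw [if_neg (fun h => hT (Finset.mem_powerset.2 h.1))]
      ring
  rw [h1]
  apply Finset.dvd_sum
  intro T hT
  have hT' := Finset.mem_powerset.1 hT
  rw [II_chi hT' (Finset.empty_subset _), if_pos (Finset.disjoint_empty_right T),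
    Finset.card_empty, Nat.sub_zero]
  have h3 : dd ^ ((lv P i).card - k) ∣ dd ^ (T.card - k) * dd ^ ((lv P i).card - T.card) := by
    rw [← pow_add]
    apply pow_dvd_pow
    have := Finset.card_le_card hT'
    omega
  have h4 : dd ^ (T.card - k) * dd ^ ((lv P i).card - T.card) ∣
      c T * dd ^ ((lv P i).card - T.card) := mul_dvd_mul_right (hc T hT') _
  have h5 : c T * (xx ^ T.card * dd ^ ((lv P i).card - T.card)) =
      (c T * dd ^ ((lv P i).card - T.card)) * xx ^ T.card := by ring
  rw [h5]
  exact Dvd.dvd.mul_right (h3.trans h4) _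

/-- Cheap configurations: if admissible and disjoint use `Rk_chi` with `p = pL + pU` (`cw` is
divisible by `dd ^ (pL + pU)`), otherwise the function vanishes (`chi` is `0` if `AL` and `AU`
meet). -/
theorem Rk_of_cheap {k i : ℕ} {e : P → ℕ} (h : Cheap k i e) : Rk (lv P i) k (Fe i e) := by
  classical
  by_cases hA : AdmL i e ∧ AdmU i e
  · by_cases hD : Disjoint (AL i e) (AU i e)
    · have h1 : (AL i e).card + (AU i e).card ≤ pL i e + pU i e + k := by
        rcases h with h1 | h1 | h1 | h1
        · exact absurd hA.1 h1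
        · exact absurd hA.2 h1
        · exact absurd hD h1
        · exact h1
      refine Rk_chi (p := pL i e + pU i e) ?_ ?_ h1 ?_
      · unfold AL
        exact Finset.filter_subset _ _
      · unfold AU
        exact Finset.filter_subset _ _
      · unfold cw
        rw [if_pos hA]
        exact Dvd.intro_left _ rfl
    · refine Rk_congr (f := fun _ => 0) ?_ (Rk_zero _ k)
      intro S _
      unfold Fe
      rw [RkC_chi_zero hD S, mul_zero]
  · refine Rk_congr (f := fun _ => 0) ?_ (Rk_zero _ k)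
    intro S _
    unfold Fe cw
    rw [if_neg hA, zero_mul]

/-- the term of a cheap configuration (`II_Fe`, `Rk_of_cheap`, `Rk_II`) -/
theorem dvd_trm_of_cheap {k i : ℕ} {e : P → ℕ} (h : Cheap k i e) :
    dd ^ ((lv P i).card - k) ∣ trm i e := by
  rw [← II_Fe]
  exact Rk_II (Rk_of_cheap h)

lemma Cheap.mono {k l i : ℕ} {e : P → ℕ} (h : k ≤ l) (hc : Cheap k i e) : Cheap l i e := by
  unfold Cheap at hc ⊢
  rcases hc with h1 | h1 | h1 | h1
  · exact Or.inl h1
  · exact Or.inr (Or.inl h1)
  · exact Or.inr (Or.inr (Or.inl h1))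
  · exact Or.inr (Or.inr (Or.inr (by omega)))

end Pool.Agent.GaussPoset.Win
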