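import Pool.Agent.W_448win_h16.DualA
import Pool.Agent.W_448win_h16.RkC

/-! Transfer to the dual poset: numbers. -/

namespace Pool.Agent.GaussPoset.Win

set_option linter.unusedSectionVars false

open Finset OrderDual

universe u

variable {P : Type u} [Fintype P] [PartialOrder P] [DecidableEq P] {r : ℕ}

lemma dualb_card (p : Pᵒᵈ → Prop) (q : P → Prop) [DecidablePred p] [DecidablePred q]
    (h : ∀ x : P, p (toDual x) ↔ q x) :
    (univ.filter p).card = (univ.filter q).card := by
  refine Finset.card_bij (fun y _ => ofDual y) ?_ ?_ ?_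
  · intro y hy
    rw [mem_filter] at hy ⊢
    refine ⟨mem_univ _, ?_⟩
    rw [← h, toDual_ofDual]
    exact hy.2
  · intro a _ b _ hab
    exact ofDual.injective hab
  · intro x hx
    rw [mem_filter] at hx
    refine ⟨toDual x, ?_, rfl⟩
    rw [mem_filter]
    exact ⟨mem_univ _, (h x).mpr hx.2⟩

/-- cardinalities: `Finset.card_bij` with `ofDual` -/
lemma nums_od (H : Gr P r) {i : ℕ} (hi : i ≤ r) (e : P → ℕ) :
    aL (r - i) (eo e) = aU i e ∧ aU (r - i) (eo e) = aL i e ∧ pL (r - i) (eo e) = pU i e ∧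
      pU (r - i) (eo e) = pL i e ∧ (AL (r - i) (eo e)).card = (AU i e).card ∧
      (AU (r - i) (eo e)).card = (AL i e).card ∧ (lv Pᵒᵈ (r - i)).card = (lv P i).card := by
  classical
  have hl : ∀ x : P, lev (toDual x) = r - lev x := lev_od H
  have hr : ∀ x : P, lev x ≤ r := fun x => by have := H.hr x; omega
  have c1 : ∀ x : P, r - i < lev (toDual x) ↔ lev x < i := fun x => by
    have := hl x; have := hr x; omega
  have c2 : ∀ x : P, lev (toDual x) < r - i ↔ i < lev x := fun x => by
    have := hl x; have := hr x; omega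
  have c3 : ∀ x : P, lev (toDual x) = r - i ↔ lev x = i := fun x => by
    have := hl x; have := hr x; omega
  refine ⟨?_, ?_, ?_, ?_, ?_, ?_, ?_⟩
  · unfold aL aU
    refine dualb_card _ _ fun x => ?_
    rw [c1, FD_od]
  · unfold aL aU
    refine dualb_card _ _ fun x => ?_
    rw [c2, FU_od]
  · unfold pL pU
    refine dualb_card _ _ fun x => ?_
    rw [c1, FD_od, GU_od]
  · unfold pL pU
    refine dualb_card _ _ fun x => ?_
    rw [c2, FU_od, GD_od]
  · refine Finset.card_bij (fun y _ => ofDual y) ?_ ?_ ?_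
    · intro y hy
      exact (mem_AL_od H hi e (ofDual y)).mp hy
    · intro a _ b _ hab
      exact ofDual.injective hab
    · intro x hx
      exact ⟨toDual x, (mem_AL_od H hi e x).mpr hx, rfl⟩
  · refine Finset.card_bij (fun y _ => ofDual y) ?_ ?_ ?_
    · intro y hy
      exact (mem_AU_od H hi e (ofDual y)).mp hy
    · intro a _ b _ hab
      exact ofDual.injective hab
    · intro x hx
      exact ⟨toDual x, (mem_AU_od H hi e x).mpr hx, rfl⟩
  · unfold lv
    exact dualb_card _ _ c3

lemma disj_od (H : Gr P r) {i : ℕ} (hi : i ≤ r) (e : P → ℕ) :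
    Disjoint (AL (r - i) (eo e)) (AU (r - i) (eo e)) ↔ Disjoint (AL i e) (AU i e) := by
  rw [Finset.disjoint_left, Finset.disjoint_left]
  constructor
  · intro h x hx hx2
    exact h ((mem_AL_od H hi e x).mpr hx2) ((mem_AU_od H hi e x).mpr hx)
  · intro h y hy hy2
    exact h ((mem_AU_od H hi e (ofDual y)).mp hy2) ((mem_AL_od H hi e (ofDual y)).mp hy)

/-- uniqueness of the coefficients -/
lemma dualb_unique {V : Finset P} {c c' : Finset P → A}
    (h : ∀ S, S ⊆ V → ∑ T ∈ S.powerset, c T = ∑ T ∈ S.powerset, c' T) :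
    ∀ S, S ⊆ V → c S = c' S := by
  classical
  intro S
  induction S using Finset.strongInduction with
  | H S ih =>
    intro hS
    have h1 := h S hS
    rw [← Finset.add_sum_erase _ _ (Finset.mem_powerset_self S),
      ← Finset.add_sum_erase _ _ (Finset.mem_powerset_self S)] at h1
    have h2 : ∑ T ∈ S.powerset.erase S, c T = ∑ T ∈ S.powerset.erase S, c' T := by
      refine Finset.sum_congr rfl fun T hT => ?_
      rw [Finset.mem_erase, Finset.mem_powerset] at hT
      exact ih T (Finset.ssubset_iff_subset_ne.mpr ⟨hT.2, hT.1⟩) (hT.2.trans hS)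
    rw [h2] at h1
    exact add_right_cancel h1

/-- the function of `eo e` on the dual: sets are complemented in the window and `xx`, `xi dd`
exchanged. We only need: membership in `Rk` is the same. For a configuration the function is
`cw * chi AL AU`; it is in `Rk _ k` iff it is zero or `|AL| + |AU| ≤ pL + pU + k`. -/
theorem Rk_Fe_iff {k i : ℕ} (e : P → ℕ) : Rk (lv P i) k (Fe i e) ↔ Cheap k i e := by
  classical
  refine ⟨fun h => ?_, Rk_of_cheap⟩
  by_contra hc
  unfold Cheap at hc
  push Not at hc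
  obtain ⟨hL, hU, hD, hlt⟩ := hc
  obtain ⟨c, hc1, hc2⟩ := h
  set a : A := cw i e with ha
  have hALs : AL i e ⊆ lv P i := by
    unfold AL
    exact Finset.filter_subset _ _
  have hAUs : AU i e ⊆ lv P i := by
    unfold AU
    exact Finset.filter_subset _ _
  have hun := dualb_unique (V := lv P i) (c := c)
    (c' := fun T => if AL i e ⊆ T ∧ T ⊆ AL i e ∪ AU i e then a * (-1) ^ (T.card - (AL i e).card)
      else 0) (by
      intro S hS
      rw [← hc2 S hS, RkC_sum hD S a]
      rfl)
  have hT : AL i e ∪ AU i e ⊆ lv P i := Finset.union_subset hALs hAUs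
  have h1 := hun _ hT
  rw [if_pos ⟨Finset.subset_union_left, Finset.Subset.refl _⟩,
    Finset.card_union_of_disjoint hD, Nat.add_sub_cancel_left] at h1
  have h2 := hc1 _ hT
  rw [h1, Finset.card_union_of_disjoint hD, ha] at h2
  unfold cw at h2
  rw [if_pos ⟨hL, hU⟩] at h2
  have h3 : dd ^ (pL i e + pU i e + 1) ∣ dd ^ (pL i e + pU i e) *
      (xx ^ aL i e * xi ^ (aU i e + pU i e) * (-1) ^ (AU i e).card) := by
    refine (pow_dvd_pow _ (show pL i e + pU i e + 1 ≤ (AL i e).card + (AU i e).card - k by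
      omega)).trans (h2.trans (dvd_of_eq ?_))
    ring
  have h4 := cc_of_dvd h3
  rw [map_mul, map_mul, map_pow, map_pow, map_pow, map_neg, map_one, cc_xx, cc_xi] at h4
  have h5 : ((-1 : ℤ) ^ aL i e * (-1) ^ (aU i e + pU i e) * (-1) ^ (AU i e).card) ≠ 0 := by
    rw [← pow_add, ← pow_add]
    exact pow_ne_zero _ (by norm_num)
  exact h5 h4

/-- from `Rk_Fe_iff`, `AdmL_od`, `AdmU_od`, `disj_od`, `nums_od` -/
theorem Rk_od (H : Gr P r) {i : ℕ} (hi : i ≤ r) (k : ℕ) (e : P → ℕ) :
    Rk (lv Pᵒᵈ (r - i)) k (Fe (r - i) (eo e)) ↔ Rk (lv P i) k (Fe i e) := by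
  rw [Rk_Fe_iff, Rk_Fe_iff]
  unfold Cheap
  obtain ⟨-, -, h3, h4, h5, h6, -⟩ := nums_od H hi e
  rw [AdmL_od H hi, AdmU_od H hi, disj_od H hi, h3, h4, h5, h6, add_comm (AU i e).card,
    add_comm (pU i e)]
  tauto

end Pool.Agent.GaussPoset.Win
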