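import Pool.Agent.W_448win_h16.FactA

/-! Grouping by cores. -/

namespace Pool.Agent.GaussPoset.Win

set_option linter.unusedSectionVars false

open Finset

universe u

variable {P : Type u} [Fintype P] [PartialOrder P] [DecidableEq P] {r : ℕ}

lemma mem_Rst {i : ℕ} {K : Finset P} {psi : P → P} {e : P → ℕ} {x : P} :
    x ∈ Rst i K psi e ↔ x ∈ near P i ∧ x ∉ K ∧ x ∉ Tch i e ∧
      ¬ (x ∈ dbL P i ∪ dbU P i ∧ psi x ∈ Tch i e) := by
  classical
  unfold Rst; simp

lemma CoreA_Tch (H : Gr P r) {i : ℕ} {e l : P → ℕ} (hl : ∀ x, x ∉ near P i → l x = 0) {x : P} :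
    x ∈ Tch i (e + l) ↔ x ∈ Tch i e := by
  have key : ∀ z, lev z = i + 2 ∨ lev z + 2 = i → (e + l) z = e z := by
    intro z hz
    rw [Pi.add_apply, hl z (fun h => ?_), add_zero]
    rw [mem_near] at h
    omega
  rw [mem_Tch, mem_Tch]
  constructor
  · rintro (⟨h, z, hz, h0⟩ | ⟨h, z, hz, h0⟩)
    · have h1 := (H.covBy_iff.mp hz).2
      rw [key z (by omega)] at h0
      exact Or.inl ⟨h, z, hz, h0⟩
    · have h1 := (H.covBy_iff.mp hz).2
      rw [key z (by omega)] at h0
      exact Or.inr ⟨h, z, hz, h0⟩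
  · rintro (⟨h, z, hz, h0⟩ | ⟨h, z, hz, h0⟩)
    · have h1 := (H.covBy_iff.mp hz).2
      rw [← key z (by omega)] at h0
      exact Or.inl ⟨h, z, hz, h0⟩
    · have h1 := (H.covBy_iff.mp hz).2
      rw [← key z (by omega)] at h0
      exact Or.inr ⟨h, z, hz, h0⟩

/-- `Tch` depends on the labels at levels `i+2` and `i-2` only (`H.covBy_iff`), so adding labels on
near elements does not change it, nor `Rst`. -/
theorem Rst_add (H : Gr P r) {i : ℕ} (K : Finset P) (psi : P → P) (e l : P → ℕ)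
    (hl : ∀ x, x ∉ near P i → l x = 0) : Tch i (e + l) = Tch i e ∧
      Rst i K psi (e + l) = Rst i K psi e := by
  have h1 : Tch i (e + l) = Tch i e := Finset.ext fun x => CoreA_Tch H hl
  refine ⟨h1, ?_⟩
  unfold Rst
  rw [h1]

/-- the core of a configuration -/
noncomputable def CoreA_cr (i : ℕ) (K : Finset P) (psi : P → P) (e : P → ℕ) : P → ℕ :=
  fun x => if x ∈ Rst i K psi e then 0 else e x

/-- the rest of a configuration -/
noncomputable def CoreA_rl (i : ℕ) (K : Finset P) (psi : P → P) (e : P → ℕ) : P → ℕ :=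
  fun x => if x ∈ Rst i K psi e then e x else 0

lemma CoreA_add (i : ℕ) (K : Finset P) (psi : P → P) (e : P → ℕ) :
    CoreA_cr i K psi e + CoreA_rl i K psi e = e := by
  funext x
  unfold CoreA_cr CoreA_rl
  rw [Pi.add_apply]
  by_cases h : x ∈ Rst i K psi e
  · simp [h]
  · simp [h]

lemma CoreA_rl_zero {i : ℕ} {K : Finset P} {psi : P → P} {e : P → ℕ} {x : P}
    (hx : x ∉ Rst i K psi e) : CoreA_rl i K psi e x = 0 := by
  unfold CoreA_rl
  rw [if_neg hx]

lemma CoreA_cr_zero {i : ℕ} {K : Finset P} {psi : P → P} {e : P → ℕ} {x : P}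
    (hx : x ∈ Rst i K psi e) : CoreA_cr i K psi e x = 0 := by
  unfold CoreA_cr
  rw [if_pos hx]

lemma CoreA_Rst (H : Gr P r) (i : ℕ) (K : Finset P) (psi : P → P) (e : P → ℕ) :
    Rst i K psi (CoreA_cr i K psi e) = Rst i K psi e := by
  have h := (Rst_add H (i := i) K psi (CoreA_cr i K psi e) (CoreA_rl i K psi e)
    (fun x hx => CoreA_rl_zero (fun h => hx (mem_Rst.mp h).1))).2
  rw [CoreA_add] at h
  exact h.symm

open Classical in
/-- Grouping by cores. Every `e` is uniquely `e0 + l` with `l` the restriction of `e` to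
`Rst i K psi e` and `e0` zero there; `Rst i K psi e0 = Rst i K psi e` by `Rst_add`, so `e0` is a
core. Use `Finset.sum_sigma'` and `Finset.sum_bij'` (from triples `(q, e0, l)` to `e0 + l`). -/
theorem core_group {M : Type*} [AddCommMonoid M] (H : Gr P r) (F : (P → ℕ) → M) (i : ℕ)
    (K : Finset P) (psi : P → P) (n : ℕ) :
    ∑ e ∈ (univ : Finset P).piAntidiag n, F e =
      ∑ q ∈ range (n + 1), ∑ e0 ∈ ((univ : Finset P).piAntidiag q).filter (IsCore i K psi),
        ∑ l ∈ (Rst i K psi e0).piAntidiag (n - q), F (e0 + l) := by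
  have h1 : ∀ q ∈ range (n + 1), ∑ e0 ∈ ((univ : Finset P).piAntidiag q).filter (IsCore i K psi),
      ∑ l ∈ (Rst i K psi e0).piAntidiag (n - q), F (e0 + l) =
      ∑ p ∈ (((univ : Finset P).piAntidiag q).filter (IsCore i K psi)).sigma
        (fun e0 => (Rst i K psi e0).piAntidiag (n - q)), F (p.1 + p.2) :=
    fun q _ => Finset.sum_sigma' _ _ _
  rw [Finset.sum_congr rfl h1, Finset.sum_sigma']
  symm
  have hRst : ∀ (e0 l : P → ℕ), (∀ x, l x ≠ 0 → x ∈ Rst i K psi e0) →
      Rst i K psi (e0 + l) = Rst i K psi e0 := by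
    intro e0 l hl
    refine (Rst_add H K psi e0 l (fun x hx => ?_)).2
    by_contra hne
    exact hx (mem_Rst.mp (hl x hne)).1
  have hsum : ∀ (R : Finset P) (l : P → ℕ), (∀ x, l x ≠ 0 → x ∈ R) →
      ∑ x, l x = ∑ x ∈ R, l x := by
    intro R l hl
    symm
    refine Finset.sum_subset (Finset.subset_univ R) (fun x _ hx => ?_)
    by_contra hne
    exact hx (hl x hne)
  refine Finset.sum_bij' (fun p _ => p.2.1 + p.2.2)
    (fun e _ => ⟨∑ x, CoreA_cr i K psi e x, ⟨CoreA_cr i K psi e, CoreA_rl i K psi e⟩⟩)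
    ?_ ?_ ?_ ?_ ?_
  · rintro ⟨q, e0, l⟩ hp
    simp only [Finset.mem_sigma, Finset.mem_range, Finset.mem_filter,
      Finset.mem_piAntidiag] at hp
    obtain ⟨hq, ⟨⟨he, -⟩, hc⟩, hl, hl2⟩ := hp
    rw [Finset.mem_piAntidiag]
    refine ⟨?_, fun x _ => Finset.mem_univ x⟩
    show ∑ x, (e0 x + l x) = n
    rw [Finset.sum_add_distrib, hsum _ l hl2]
    have e1 : ∑ x, e0 x = q := he
    have e2 : ∑ x ∈ Rst i K psi e0, l x = n - q := hl
    omega
  · intro e he
    rw [Finset.mem_piAntidiag] at he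
    have e1 : ∑ x, e x = n := he.1
    have e2 : ∑ x, (CoreA_cr i K psi e x + CoreA_rl i K psi e x) = n := by
      rw [← e1]
      refine Finset.sum_congr rfl fun x _ => ?_
      have h2 := congrFun (CoreA_add i K psi e) x
      exact h2
    rw [Finset.sum_add_distrib] at e2
    simp only [Finset.mem_sigma, Finset.mem_range, Finset.mem_filter,
      Finset.mem_piAntidiag]
    have e3 : ∀ x, CoreA_rl i K psi e x ≠ 0 → x ∈ Rst i K psi e := by
      intro x hx
      by_contra hne
      exact hx (CoreA_rl_zero hne)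
    refine ⟨by omega, ⟨⟨trivial, fun x _ => Finset.mem_univ x⟩, ?_⟩, ?_, ?_⟩
    · intro x hx
      rw [CoreA_Rst H] at hx
      exact CoreA_cr_zero hx
    · rw [CoreA_Rst H, ← hsum _ _ e3]
      omega
    · rw [CoreA_Rst H]
      exact e3
  · rintro ⟨q, e0, l⟩ hp
    simp only [Finset.mem_sigma, Finset.mem_range, Finset.mem_filter,
      Finset.mem_piAntidiag] at hp
    obtain ⟨hq, ⟨⟨he, -⟩, hc⟩, hl, hl2⟩ := hp
    have e1 : Rst i K psi (e0 + l) = Rst i K psi e0 := hRst e0 l hl2
    have e2 : CoreA_cr i K psi (e0 + l) = e0 := by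
      funext x
      unfold CoreA_cr
      rw [e1]
      by_cases h : x ∈ Rst i K psi e0
      · rw [if_pos h]
        exact (hc x h).symm
      · rw [if_neg h, Pi.add_apply]
        have h3 : l x = 0 := by
          by_contra hne
          exact h (hl2 x hne)
        rw [h3, add_zero]
    have e3 : CoreA_rl i K psi (e0 + l) = l := by
      funext x
      unfold CoreA_rl
      rw [e1]
      by_cases h : x ∈ Rst i K psi e0
      · rw [if_pos h, Pi.add_apply, hc x h, zero_add]
      · rw [if_neg h]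
        by_contra hne
        exact h (hl2 x (fun h4 => hne h4.symm))
    have e4 : ∑ x, e0 x = q := he
    simp only [e2, e3, e4]
  · intro e he
    exact CoreA_add i K psi e
  · intro p _
    rfl

end Pool.Agent.GaussPoset.Win
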