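import Pool.Agent.W_448win_h16.FactA

/-! Sites of far elements, propagation of positive labels. -/

namespace Pool.Agent.GaussPoset.Win

set_option linter.unusedSectionVars false

open Finset

universe u

variable {P : Type u} [Fintype P] [PartialOrder P] [DecidableEq P] {r : ℕ}

/-- the sites above a far lower element -/
noncomputable def sts (i : ℕ) (z : P) : Finset P := by
  classical exact (lv P i).filter (fun v => z < v)

/-- the sites below a far upper element -/
noncomputable def stD (i : ℕ) (x : P) : Finset P := by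
  classical exact (lv P i).filter (fun v => v < x)

lemma mem_sts {i : ℕ} {z v : P} : v ∈ sts i z ↔ lev v = i ∧ z < v := by
  classical
  unfold sts; rw [mem_filter, mem_lv]

lemma mem_stD {i : ℕ} {x v : P} : v ∈ stD i x ↔ lev v = i ∧ v < x := by
  classical
  unfold stD; rw [mem_filter, mem_lv]

lemma card_sts (i : ℕ) (z : P) : (sts i z).card = up i z := rfl

lemma card_stD (i : ℕ) (z : P) : (stD i z).card = dn i z := rfl

/-- for `z` at level `i + 2`: a site is above `z` iff it is an upper cover of an upper cover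
(`exists_covBy_le_of_lt`, levels) -/
lemma mem_sts_iff (H : Gr P r) {i : ℕ} {z v : P} (hz : lev z = i + 2) :
    v ∈ sts i z ↔ ∃ w ∈ uc z, v ∈ uc w := by
  rw [mem_sts]
  constructor
  · rintro ⟨hv, hzv⟩
    obtain ⟨w, h1, h2⟩ := exists_covBy_le_of_lt hzv
    have h3 := (H.covBy_iff.1 h1).2
    have h4 : w ≠ v := by
      rintro rfl
      omega
    exact ⟨w, mem_uc.2 h1, mem_uc.2 (H.covBy_iff.2 ⟨lt_of_le_of_ne h2 h4, by omega⟩)⟩
  · rintro ⟨w, h1, h2⟩
    have h3 := H.covBy_iff.1 (mem_uc.1 h1)
    have h4 := H.covBy_iff.1 (mem_uc.1 h2)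
    exact ⟨by omega, h3.1.trans h4.1⟩

/-- mirror image of `mem_sts_iff` -/
lemma mem_stD_iff (H : Gr P r) {i : ℕ} {x v : P} (hx : lev x + 2 = i) :
    v ∈ stD i x ↔ ∃ u ∈ dc x, v ∈ dc u := by
  rw [mem_stD]
  constructor
  · rintro ⟨hv, hvx⟩
    obtain ⟨u, h1, h2⟩ := exists_covBy_le_of_lt hvx
    have h3 := (H.covBy_iff.1 h1).2
    have h4 : u ≠ x := by
      rintro rfl
      omega
    exact ⟨u, mem_dc.2 (H.covBy_iff.2 ⟨lt_of_le_of_ne h2 h4, by omega⟩), mem_dc.2 h1⟩
  · rintro ⟨w, h1, h2⟩
    have h3 := H.covBy_iff.1 (mem_dc.1 h1)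
    have h4 := H.covBy_iff.1 (mem_dc.1 h2)
    exact ⟨by omega, h4.1.trans h3.1⟩

/-- If `e z > 0` and the upper cover `y` of `z` has label `0` then `y` has `FD` (by `z`) and `GU` (it has
an upper cover, `uc_nonempty`), against admissibility (`lev y = lev z - 1 > i`). -/
theorem pos_up (H : Gr P r) {i : ℕ} {e : P → ℕ} (hA : AdmL i e) {z y : P} (hz : i + 2 ≤ lev z)
    (he : 0 < e z) (hzy : z ⋖ y) : 0 < e y := by
  by_contra hcon
  have h0 : e y = 0 := by omega
  have h1 := (H.covBy_iff.1 hzy).2
  obtain ⟨t, ht⟩ := uc_nonempty H (x := y) (by omega)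
  exact hA y (by omega) ⟨⟨z, hzy, by omega⟩, ⟨t, mem_uc.1 ht, by omega⟩⟩

/-- mirror image of `pos_up` (`dc_nonempty`, `lev y < i ≤ r`) -/
theorem pos_dn (H : Gr P r) {i : ℕ} (hi : i ≤ r) {e : P → ℕ} (hA : AdmU i e) {x y : P}
    (hx : lev x + 2 ≤ i) (he : 0 < e x) (hyx : y ⋖ x) : 0 < e y := by
  by_contra hcon
  have h0 : e y = 0 := by omega
  have h1 := (H.covBy_iff.1 hyx).2
  obtain ⟨t, ht⟩ := dc_nonempty H (x := y) (by omega)
  exact hA y (by omega) ⟨⟨x, hyx, by omega⟩, ⟨t, mem_dc.1 ht, by omega⟩⟩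

/-- If no lower near element is touched then all far lower labels are zero: a far lower element with
positive label and `pos_up` (go up by covers to level `i + 2`) give a touched near element. -/
theorem far_zero_of_TL (H : Gr P r) {i : ℕ} {e : P → ℕ} (hA : AdmL i e) (hT : TL i e = ∅)
    {z : P} (hz : i + 2 ≤ lev z) : e z = 0 := by
  classical
  have key : ∀ n : ℕ, ∀ z : P, lev z = i + 2 + n → 0 < e z → False := by
    intro n
    induction n with
    | zero =>
      intro z h1 h2
      obtain ⟨w, hw⟩ := uc_nonempty H (x := z) (by omega)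
      have h3 := lev_uc H hw
      have h4 : w ∈ TL i e := by
        unfold TL
        rw [Finset.mem_filter]
        exact ⟨mem_univ _, by omega, z, mem_uc.1 hw, h2⟩
      rw [hT] at h4
      exact absurd h4 (Finset.notMem_empty _)
    | succ n ih =>
      intro z h1 h2
      obtain ⟨w, hw⟩ := uc_nonempty H (x := z) (by omega)
      have h3 := lev_uc H hw
      exact ih w (by omega) (pos_up H hA (by omega) h2 (mem_uc.1 hw))
  by_contra hne
  exact key (lev z - (i + 2)) z (by omega) (Nat.pos_of_ne_zero hne)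

/-- mirror image of `far_zero_of_TL` -/
theorem far_zero_of_TU (H : Gr P r) {i : ℕ} (hi : i ≤ r) {e : P → ℕ} (hA : AdmU i e)
    (hT : TU i e = ∅) {z : P} (hz : lev z + 2 ≤ i) : e z = 0 := by
  classical
  have key : ∀ n : ℕ, ∀ z : P, lev z + 2 + n = i → 0 < e z → False := by
    intro n
    induction n with
    | zero =>
      intro z h1 h2
      obtain ⟨w, hw⟩ := dc_nonempty H (x := z) (by omega)
      have h3 := lev_dc H hw
      have h4 : w ∈ TU i e := by
        unfold TU
        rw [Finset.mem_filter]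
        exact ⟨mem_univ _, by omega, z, mem_dc.1 hw, h2⟩
      rw [hT] at h4
      exact absurd h4 (Finset.notMem_empty _)
    | succ n ih =>
      intro z h1 h2
      obtain ⟨w, hw⟩ := dc_nonempty H (x := z) (by omega)
      have h3 := lev_dc H hw
      exact ih w (by omega) (pos_dn H hi hA (by omega) h2 (mem_dc.1 hw))
  by_contra hne
  exact key (i - (lev z + 2)) z (by omega) (Nat.pos_of_ne_zero hne)

end Pool.Agent.GaussPoset.Win
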