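import Pool.Agent.W_448win_h16.DualA
import Pool.Agent.W_448win_h16.CoreA
import Pool.Agent.W_448win_h16.LowA

/-! Transfer to the dual poset: structure. -/

namespace Pool.Agent.GaussPoset.Win

set_option linter.unusedSectionVars false

open Finset OrderDual

universe u

variable {P : Type u} [Fintype P] [PartialOrder P] [DecidableEq P] {r : ℕ}

lemma DualC_mem_map (s : Finset P) (y : Pᵒᵈ) : y ∈ s.map toDual.toEmbedding ↔ ofDual y ∈ s := by
  rw [Finset.mem_map]
  constructor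
  · rintro ⟨x, hx, rfl⟩
    exact hx
  · intro h
    exact ⟨ofDual y, h, rfl⟩

lemma DualC_cov (x y : Pᵒᵈ) : x ⋖ y ↔ ofDual y ⋖ ofDual x :=
  ⟨fun h => ofDual_covBy_ofDual_iff.mpr h, fun h => ofDual_covBy_ofDual_iff.mp h⟩

lemma DualC_lev (H : Gr P r) (x : Pᵒᵈ) : lev x + lev (ofDual x) = r := by
  have h1 := H.hr (ofDual x)
  unfold colev at h1
  rw [toDual_ofDual] at h1
  omega

/-- covers on the dual -/
lemma uc_od (x : P) : uc (toDual x) = (dc x).map toDual.toEmbedding := by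
  ext y
  rw [DualC_mem_map, mem_uc, mem_dc, DualC_cov]
  rfl

lemma dc_od (x : P) : dc (toDual x) = (uc x).map toDual.toEmbedding := by
  ext y
  rw [DualC_mem_map, mem_dc, mem_uc, DualC_cov]
  rfl

lemma cu_od (x : P) : eo (cu x) = cl (toDual x) := by
  classical
  funext y
  have hm : (y = toDual x ∨ y ∈ uc (toDual x)) ↔ (ofDual y = x ∨ ofDual y ∈ dc x) := by
    rw [uc_od, DualC_mem_map]
    exact Iff.rfl
  by_cases h : y = toDual x ∨ y ∈ uc (toDual x)
  · have e1 : cl (toDual x) y = 1 := by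
      unfold cl
      exact if_pos h
    have e2 : cu x (ofDual y) = 1 := by
      unfold cu
      exact if_pos (hm.mp h)
    rw [e1, ← e2]
    rfl
  · have e1 : cl (toDual x) y = 0 := by
      unfold cl
      exact if_neg h
    have e2 : cu x (ofDual y) = 0 := by
      unfold cu
      exact if_neg (fun h2 => h (hm.mpr h2))
    rw [e1, ← e2]
    rfl

lemma cl_od (x : P) : eo (cl x) = cu (toDual x) := by
  classical
  funext y
  have hm : (y = toDual x ∨ y ∈ dc (toDual x)) ↔ (ofDual y = x ∨ ofDual y ∈ uc x) := by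
    rw [dc_od, DualC_mem_map]
    exact Iff.rfl
  by_cases h : y = toDual x ∨ y ∈ dc (toDual x)
  · have e1 : cu (toDual x) y = 1 := by
      unfold cu
      exact if_pos h
    have e2 : cl x (ofDual y) = 1 := by
      unfold cl
      exact if_pos (hm.mp h)
    rw [e1, ← e2]
    rfl
  · have e1 : cu (toDual x) y = 0 := by
      unfold cu
      exact if_neg h
    have e2 : cl x (ofDual y) = 0 := by
      unfold cl
      exact if_neg (fun h2 => h (hm.mpr h2))
    rw [e1, ← e2]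
    rfl

lemma sg_od (x : P) : eo (sg x) = sg (toDual x) := by
  funext y
  unfold eo sg
  by_cases h : y = toDual x
  · rw [h]
    change (Pi.single x 1 : P → ℕ) x = (Pi.single (toDual x) 1 : Pᵒᵈ → ℕ) (toDual x)
    rw [Pi.single_eq_same, Pi.single_eq_same]
  · rw [Pi.single_eq_of_ne h, Pi.single_eq_of_ne]
    intro h1
    exact h (by rw [← h1]; rfl)

lemma up_od (H : Gr P r) {i : ℕ} (hi : i ≤ r) (x : P) : up (r - i) (toDual x) = dn i x := by
  classical
  unfold up dn
  rw [← Finset.card_map (s := (lv P i).filter (fun v => v < x)) toDual.toEmbedding]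
  congr 1
  ext y
  have h1 := DualC_lev H y
  rw [DualC_mem_map, Finset.mem_filter, Finset.mem_filter, mem_lv, mem_lv]
  constructor
  · rintro ⟨h3, h4⟩
    exact ⟨by omega, h4⟩
  · rintro ⟨h3, h4⟩
    exact ⟨by omega, h4⟩

lemma dn_od (H : Gr P r) {i : ℕ} (hi : i ≤ r) (x : P) : dn (r - i) (toDual x) = up i x := by
  classical
  unfold up dn
  rw [← Finset.card_map (s := (lv P i).filter (fun v => x < v)) toDual.toEmbedding]
  congr 1
  ext y
  have h1 := DualC_lev H y
  rw [DualC_mem_map, Finset.mem_filter, Finset.mem_filter, mem_lv, mem_lv]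
  constructor
  · rintro ⟨h3, h4⟩
    exact ⟨by omega, h4⟩
  · rintro ⟨h3, h4⟩
    exact ⟨by omega, h4⟩

lemma DualC_dbL (H : Gr P r) {i : ℕ} (hi : i ≤ r) (y : Pᵒᵈ) :
    y ∈ dbL Pᵒᵈ (r - i) ↔ ofDual y ∈ dbU P i := by
  have h1 := DualC_lev H y
  have h2 : (uc y).card = (dc (ofDual y)).card := by
    have := uc_od (ofDual y)
    rw [toDual_ofDual] at this
    rw [this, Finset.card_map]
  rw [mem_dbL, mem_dbU, h2]
  constructor
  · rintro ⟨h3, h4⟩
    exact ⟨by omega, h4⟩
  · rintro ⟨h3, h4⟩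
    exact ⟨by omega, h4⟩

lemma DualC_dbU (H : Gr P r) {i : ℕ} (hi : i ≤ r) (y : Pᵒᵈ) :
    y ∈ dbU Pᵒᵈ (r - i) ↔ ofDual y ∈ dbL P i := by
  have h1 := DualC_lev H y
  have h2 : (dc y).card = (uc (ofDual y)).card := by
    have := dc_od (ofDual y)
    rw [toDual_ofDual] at this
    rw [this, Finset.card_map]
  rw [mem_dbL, mem_dbU, h2]
  constructor
  · rintro ⟨h3, h4⟩
    exact ⟨by omega, h4⟩
  · rintro ⟨h3, h4⟩
    exact ⟨by omega, h4⟩

lemma DualC_near (H : Gr P r) {i : ℕ} (hi : i ≤ r) (y : Pᵒᵈ) :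
    y ∈ near Pᵒᵈ (r - i) ↔ ofDual y ∈ near P i := by
  have h1 := DualC_lev H y
  rw [mem_near, mem_near]
  omega

lemma DualC_Tch (H : Gr P r) {i : ℕ} (hi : i ≤ r) (e : P → ℕ) (y : Pᵒᵈ) :
    y ∈ Tch (r - i) (eo e) ↔ ofDual y ∈ Tch i e := by
  have h1 := DualC_lev H y
  have h2 : (∃ z : Pᵒᵈ, z ⋖ y ∧ 0 < eo e z) ↔ ∃ z : P, ofDual y ⋖ z ∧ 0 < e z := by
    constructor
    · rintro ⟨z, hz, h⟩
      exact ⟨ofDual z, (DualC_cov _ _).mp hz, h⟩
    · rintro ⟨z, hz, h⟩
      exact ⟨toDual z, (DualC_cov _ _).mpr hz, h⟩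
  have h3 : (∃ z : Pᵒᵈ, y ⋖ z ∧ 0 < eo e z) ↔ ∃ z : P, z ⋖ ofDual y ∧ 0 < e z := by
    constructor
    · rintro ⟨z, hz, h⟩
      exact ⟨ofDual z, (DualC_cov _ _).mp hz, h⟩
    · rintro ⟨z, hz, h⟩
      exact ⟨toDual z, (DualC_cov _ _).mpr hz, h⟩
  rw [mem_Tch, mem_Tch, h2, h3]
  constructor
  · rintro (⟨h4, h5⟩ | ⟨h4, h5⟩)
    · exact Or.inr ⟨by omega, h5⟩
    · exact Or.inl ⟨by omega, h5⟩
  · rintro (⟨h4, h5⟩ | ⟨h4, h5⟩)
    · exact Or.inr ⟨by omega, h5⟩
    · exact Or.inl ⟨by omega, h5⟩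

/-- the matching on the dual -/
theorem Mat_od (H : Gr P r) {i : ℕ} (hi : i ≤ r) {K : Finset P} {psi : P → P}
    (hM : Mat P i K psi) :
    Mat Pᵒᵈ (r - i) (K.map toDual.toEmbedding) (fun y => toDual (psi (ofDual y))) := by
  refine ⟨?_, ?_, ?_⟩
  · intro x hx hK
    rw [Finset.mem_union, DualC_dbL H hi, DualC_dbU H hi] at hx
    rw [DualC_mem_map] at hK
    have h := hM.invol (ofDual x) (Finset.mem_union.mpr hx.symm) hK
    refine ⟨?_, ?_⟩
    · change toDual (psi (psi (ofDual x))) = x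
      rw [h.1]
      rfl
    · rw [DualC_mem_map]
      exact h.2
  · intro x hx hK
    rw [DualC_dbL H hi] at hx
    rw [DualC_mem_map] at hK
    have h := hM.upp (ofDual x) hx hK
    refine ⟨(DualC_dbU H hi _).mpr h.1, ?_⟩
    rw [dc_od, h.2]
    exact (uc_od (ofDual x)).symm
  · intro x hx hK
    rw [DualC_dbU H hi] at hx
    rw [DualC_mem_map] at hK
    have h := hM.low (ofDual x) hx hK
    refine ⟨(DualC_dbL H hi _).mpr h.1, ?_⟩
    rw [uc_od, h.2]
    exact (dc_od (ofDual x)).symm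

lemma IsCore_od (H : Gr P r) {i : ℕ} (hi : i ≤ r) {K : Finset P} {psi : P → P} (e : P → ℕ) :
    IsCore (r - i) (K.map toDual.toEmbedding) (fun y => toDual (psi (ofDual y))) (eo e) ↔
      IsCore i K psi e := by
  classical
  have key : ∀ y : Pᵒᵈ, y ∈ Rst (r - i) (K.map toDual.toEmbedding)
      (fun y => toDual (psi (ofDual y))) (eo e) ↔ ofDual y ∈ Rst i K psi e := by
    intro y
    unfold Rst
    rw [Finset.mem_filter, Finset.mem_filter, DualC_near H hi, DualC_mem_map, DualC_Tch H hi,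
      DualC_Tch H hi, Finset.mem_union, Finset.mem_union, DualC_dbL H hi, DualC_dbU H hi,
      ofDual_toDual, or_comm (a := ofDual y ∈ dbU P i)]
  constructor
  · intro h x hx
    exact h (toDual x) ((key (toDual x)).mpr hx)
  · intro h y hy
    exact h (ofDual y) ((key y).mp hy)

lemma TL_od (H : Gr P r) {i : ℕ} (hi : i ≤ r) (e : P → ℕ) :
    TL (r - i) (eo e) = (TU i e).map toDual.toEmbedding ∧
      TU (r - i) (eo e) = (TL i e).map toDual.toEmbedding := by
  classical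
  constructor
  · ext y
    have h1 := DualC_lev H y
    have h2 : (∃ z : Pᵒᵈ, z ⋖ y ∧ 0 < eo e z) ↔ ∃ z : P, ofDual y ⋖ z ∧ 0 < e z := by
      constructor
      · rintro ⟨z, hz, h⟩
        exact ⟨ofDual z, (DualC_cov _ _).mp hz, h⟩
      · rintro ⟨z, hz, h⟩
        exact ⟨toDual z, (DualC_cov _ _).mpr hz, h⟩
    rw [DualC_mem_map]
    unfold TL TU
    rw [Finset.mem_filter, Finset.mem_filter, h2]
    constructor
    · rintro ⟨-, h3, h4⟩
      exact ⟨Finset.mem_univ _, by omega, h4⟩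
    · rintro ⟨-, h3, h4⟩
      exact ⟨Finset.mem_univ _, by omega, h4⟩
  · ext y
    have h1 := DualC_lev H y
    have h3 : (∃ z : Pᵒᵈ, y ⋖ z ∧ 0 < eo e z) ↔ ∃ z : P, z ⋖ ofDual y ∧ 0 < e z := by
      constructor
      · rintro ⟨z, hz, h⟩
        exact ⟨ofDual z, (DualC_cov _ _).mp hz, h⟩
      · rintro ⟨z, hz, h⟩
        exact ⟨toDual z, (DualC_cov _ _).mpr hz, h⟩
    rw [DualC_mem_map]
    unfold TL TU
    rw [Finset.mem_filter, Finset.mem_filter, h3]
    constructor
    · rintro ⟨-, h3, h4⟩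
      exact ⟨Finset.mem_univ _, by omega, h4⟩
    · rintro ⟨-, h3, h4⟩
      exact ⟨Finset.mem_univ _, by omega, h4⟩

lemma PD_od (H : Gr P r) {i : ℕ} (hi : i ≤ r) :
    PD Pᵒᵈ (r - i) = (PU P i).map toDual.toEmbedding ∧
      PU Pᵒᵈ (r - i) = (PD P i).map toDual.toEmbedding := by
  classical
  have cu' : ∀ y : Pᵒᵈ, (uc y).card = (dc (ofDual y)).card := by
    intro y
    have := uc_od (ofDual y)
    rw [toDual_ofDual] at this
    rw [this, Finset.card_map]
  have cd' : ∀ y : Pᵒᵈ, (dc y).card = (uc (ofDual y)).card := by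
    intro y
    have := dc_od (ofDual y)
    rw [toDual_ofDual] at this
    rw [this, Finset.card_map]
  constructor
  · ext y
    have h1 := DualC_lev H y
    have h2 : (∃ w : Pᵒᵈ, y ⋖ w ∧ (uc w).card = 2) ↔ ∃ w : P, w ⋖ ofDual y ∧ (dc w).card = 2 := by
      constructor
      · rintro ⟨z, hz, h⟩
        exact ⟨ofDual z, (DualC_cov _ _).mp hz, by rw [← cu']; exact h⟩
      · rintro ⟨z, hz, h⟩
        exact ⟨toDual z, (DualC_cov _ _).mpr hz, by rw [cu']; exact h⟩
    rw [DualC_mem_map]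
    unfold PD PU
    rw [Finset.mem_filter, Finset.mem_filter, h2, cu']
    constructor
    · rintro ⟨-, h3, h4⟩
      exact ⟨Finset.mem_univ _, by omega, h4⟩
    · rintro ⟨-, h3, h4⟩
      exact ⟨Finset.mem_univ _, by omega, h4⟩
  · ext y
    have h1 := DualC_lev H y
    have h2 : (∃ w : Pᵒᵈ, w ⋖ y ∧ (dc w).card = 2) ↔ ∃ w : P, ofDual y ⋖ w ∧ (uc w).card = 2 := by
      constructor
      · rintro ⟨z, hz, h⟩
        exact ⟨ofDual z, (DualC_cov _ _).mp hz, by rw [← cd']; exact h⟩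
      · rintro ⟨z, hz, h⟩
        exact ⟨toDual z, (DualC_cov _ _).mpr hz, by rw [cd']; exact h⟩
    rw [DualC_mem_map]
    unfold PD PU
    rw [Finset.mem_filter, Finset.mem_filter, h2, cd']
    constructor
    · rintro ⟨-, h3, h4⟩
      exact ⟨Finset.mem_univ _, by omega, h4⟩
    · rintro ⟨-, h3, h4⟩
      exact ⟨Finset.mem_univ _, by omega, h4⟩

lemma Good_od (H : Gr P r) {i : ℕ} (hi : i ≤ r) : Good Pᵒᵈ (r - i) ↔ Good P i := by
  classical
  have hu : ∀ v v' : Pᵒᵈ, ucv v v' = dcv (ofDual v) (ofDual v') := by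
    intro v v'
    unfold ucv dcv
    rw [← Finset.card_map (s := univ.filter (fun y : P => y ⋖ ofDual v ∧ y ⋖ ofDual v'))
      toDual.toEmbedding]
    congr 1
    ext y
    rw [DualC_mem_map, Finset.mem_filter, Finset.mem_filter, DualC_cov, DualC_cov]
    simp
  have hd : ∀ v v' : Pᵒᵈ, dcv v v' = ucv (ofDual v) (ofDual v') := by
    intro v v'
    unfold ucv dcv
    rw [← Finset.card_map (s := univ.filter (fun y : P => ofDual v ⋖ y ∧ ofDual v' ⋖ y))
      toDual.toEmbedding]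
    congr 1
    ext y
    rw [DualC_mem_map, Finset.mem_filter, Finset.mem_filter, DualC_cov, DualC_cov]
    simp
  constructor
  · intro h v v' h1 h2 h3
    have l1 := DualC_lev H (toDual v)
    have l2 := DualC_lev H (toDual v')
    rw [ofDual_toDual] at l1 l2
    have := h (toDual v) (toDual v') (by omega) (by omega) (fun h4 => h3 (toDual.injective h4))
    rw [hu, hd] at this
    exact this.symm
  · intro h v v' h1 h2 h3
    have l1 := DualC_lev H v
    have l2 := DualC_lev H v'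
    have := h (ofDual v) (ofDual v') (by omega) (by omega) (fun h4 => h3 (ofDual.injective h4))
    rw [hu, hd]
    exact this.symm

end Pool.Agent.GaussPoset.Win
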