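import Pool.Agent.W_448win_h16.ClC
import Pool.Agent.W_448win_h16.DualB
import Pool.Agent.W_448win_h16.DualC

/-! Mirror images. -/

namespace Pool.Agent.GaussPoset.Win

set_option linter.unusedSectionVars false

open Finset OrderDual

universe u

variable {P : Type u} [Fintype P] [PartialOrder P] [DecidableEq P] {r : ℕ}

lemma ClD_inj {e f : P → ℕ} (h : eo e = eo f) : e = f := by
  funext x
  exact congrFun h (toDual x)

lemma ClD_sum (e : P → ℕ) : ∑ x, eo e x = ∑ x, e x :=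
  Equiv.sum_comp (OrderDual.ofDual (α := P)) e

lemma ClD_lev (H : Gr P r) {i : ℕ} (hi : i ≤ r) {x : P}
    (h : lev (toDual x) = r - i + 2) : lev x + 2 = i := by
  rw [lev_od H] at h
  have h1 := H.hr x
  omega

lemma ClD_mat (H : Gr P r) {i : ℕ} (hi : i ≤ r) {psi : P → P} (hM : Mat P i ∅ psi) :
    Mat Pᵒᵈ (r - i) ∅ (fun y => toDual (psi (ofDual y))) := by
  have h := Mat_od H hi hM
  rwa [Finset.map_empty] at h

lemma ClD_core (H : Gr P r) {i : ℕ} (hi : i ≤ r) {psi : P → P} {e : P → ℕ}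
    (hc : IsCore i ∅ psi e) :
    IsCore (r - i) ∅ (fun y : Pᵒᵈ => toDual (psi (ofDual y))) (eo e) := by
  have h := (IsCore_od H hi (K := ∅) (psi := psi) e).2 hc
  rwa [Finset.map_empty] at h

lemma ClD_TU (H : Gr P r) {i : ℕ} (hi : i ≤ r) {e : P → ℕ} (h2 : TL i e = ∅) :
    TU (r - i) (eo e) = ∅ := by
  rw [(TL_od H hi e).2, h2, Finset.map_empty]

lemma ClD_up (H : Gr P r) {i : ℕ} (hi : i ≤ r) (h3 : ∀ x : P, lev x + 2 = i → dn i x ≤ 3) :
    ∀ z : Pᵒᵈ, lev z = r - i + 2 → up (r - i) z ≤ 3 := by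
  intro z hz
  have h1 : lev (ofDual z) + 2 = i := ClD_lev H hi (x := ofDual z) hz
  have h4 := up_od H hi (ofDual z)
  rw [toDual_ofDual] at h4
  rw [h4]
  exact h3 _ h1

/-- mirror image of `cls3_low` (`DualW`) -/
theorem cls3_upp (H : Gr P r) {i : ℕ} (hi : 1 ≤ i) (hi2 : i + 1 ≤ r) {psi : P → P}
    (hM : Mat P i ∅ psi) {e : P → ℕ} (hc : IsCore i ∅ psi e) (hn : ∑ x, e x ≤ 3)
    (h2 : TL i e = ∅) :
    Rk (lv P i) 1 (Fe i e) ∨ (∃ x, lev x + 2 = i ∧ dn i x = 4 ∧ e = cu x) := by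
  have hir : i ≤ r := by omega
  have hn' : ∑ x, eo e x ≤ 3 := by rw [ClD_sum]; exact hn
  rcases cls3_low H.dual (i := r - i) (by omega) (by omega) (ClD_mat H hir hM)
    (ClD_core H hir hc) hn' (ClD_TU H hir h2) with h | ⟨z, hz, hz2, hz3⟩
  · exact Or.inl ((Rk_od H hir 1 e).1 h)
  · refine Or.inr ⟨ofDual z, ClD_lev H hir (x := ofDual z) hz, ?_, ?_⟩
    · rw [← up_od H hir]
      exact hz2
    · apply ClD_inj
      rw [cu_od]
      exact hz3

/-- mirror image of `cls3_low'` (`DualW`) -/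
theorem cls3_upp' (H : Gr P r) {i : ℕ} (hi : 1 ≤ i) (hi2 : i + 1 ≤ r) {psi : P → P}
    (hM : Mat P i ∅ psi) (hPU : PU P i = ∅) (h3 : ∀ x : P, lev x + 2 = i → dn i x ≤ 3)
    {e : P → ℕ} (hc : IsCore i ∅ psi e) (hn : ∑ x, e x ≤ 3) (h2 : TL i e = ∅) :
    Rk (lv P i) 0 (Fe i e) ∨ (∃ x, lev x + 2 = i ∧ dn i x = 3 ∧ e = cu x) := by
  have hir : i ≤ r := by omega
  have hn' : ∑ x, eo e x ≤ 3 := by rw [ClD_sum]; exact hn
  have hPD : PD Pᵒᵈ (r - i) = ∅ := by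
    rw [(PD_od H hir).1, hPU, Finset.map_empty]
  rcases cls3_low' H.dual (i := r - i) (by omega) (by omega) (ClD_mat H hir hM) hPD
    (ClD_up H hir h3) (ClD_core H hir hc) hn' (ClD_TU H hir h2) with h | ⟨z, hz, hz2, hz3⟩
  · exact Or.inl ((Rk_od H hir 0 e).1 h)
  · refine Or.inr ⟨ofDual z, ClD_lev H hir (x := ofDual z) hz, ?_, ?_⟩
    · rw [← up_od H hir]
      exact hz2
    · apply ClD_inj
      rw [cu_od]
      exact hz3

/-- mirror image of `cls4_low` (`DualW`) -/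
theorem cls4_upp (H : Gr P r) {i : ℕ} (hi : 1 ≤ i) (hi2 : i + 1 ≤ r) {psi : P → P}
    (hM : Mat P i ∅ psi) (hPU : (PU P i).card ≤ 1)
    (h3 : ∀ x : P, lev x + 2 = i → dn i x ≤ 3) {e : P → ℕ} (hc : IsCore i ∅ psi e)
    (hn : ∑ x, e x ≤ 4) (h2 : TL i e = ∅) :
    Rk (lv P i) 1 (Fe i e) ∨ (∃ x, lev x + 2 = i ∧ dn i x = 3 ∧ e = cu x + sg x) ∨
      (∃ x v, lev x + 2 = i ∧ dn i x = 3 ∧ v ∈ stD i x ∧ (∀ u ∈ dc x, v ∈ dc u) ∧
        e = cu x + sg v) := by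
  have hir : i ≤ r := by omega
  have hn' : ∑ x, eo e x ≤ 4 := by rw [ClD_sum]; exact hn
  have hPD : (PD Pᵒᵈ (r - i)).card ≤ 1 := by
    rw [(PD_od H hir).1, Finset.card_map]
    exact hPU
  rcases cls4_low H.dual (i := r - i) (by omega) (by omega) (ClD_mat H hir hM) hPD
    (ClD_up H hir h3) (ClD_core H hir hc) hn' (ClD_TU H hir h2) with
    h | ⟨z, hz, hz2, hz3⟩ | ⟨z, v, hz, hz2, hv, huv, hz3⟩
  · exact Or.inl ((Rk_od H hir 1 e).1 h)
  · refine Or.inr (Or.inl ⟨ofDual z, ClD_lev H hir (x := ofDual z) hz, ?_, ?_⟩)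
    · rw [← up_od H hir]
      exact hz2
    · apply ClD_inj
      have h5 : eo (cu (ofDual z) + sg (ofDual z)) = eo (cu (ofDual z)) + eo (sg (ofDual z)) := rfl
      rw [h5, cu_od, sg_od]
      exact hz3
  · refine Or.inr (Or.inr ⟨ofDual z, ofDual v, ClD_lev H hir (x := ofDual z) hz, ?_, ?_, ?_, ?_⟩)
    · rw [← up_od H hir]
      exact hz2
    · have h6 := mem_sts.1 hv
      refine mem_stD.2 ⟨?_, ?_⟩
      · have h7 : lev (toDual (ofDual v)) = r - i := h6.1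
        rw [lev_od H] at h7
        have h8 := H.hr (ofDual v)
        omega
      · exact h6.2
    · intro u hu
      have h9 : toDual u ∈ uc z := by
        have h10 : toDual u ∈ uc (toDual (ofDual z)) := by
          rw [uc_od]
          exact Finset.mem_map.2 ⟨u, hu, rfl⟩
        exact h10
      have h11 := mem_uc.1 (huv _ h9)
      refine mem_dc.2 ?_
      exact toDual_covBy_toDual_iff.1 (by simpa using h11)
    · apply ClD_inj
      have h5 : eo (cu (ofDual z) + sg (ofDual v)) = eo (cu (ofDual z)) + eo (sg (ofDual v)) := rfl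
      rw [h5, cu_od, sg_od]
      exact hz3

end Pool.Agent.GaussPoset.Win
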