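import Pool.Agent.W_448win_h16.FactC

/-! Several near elements. -/

namespace Pool.Agent.GaussPoset.Win

set_option linter.unusedSectionVars false

open Finset

universe u

variable {P : Type u} [Fintype P] [PartialOrder P] [DecidableEq P] {r : ℕ}

lemma FactD_Tch (H : Gr P r) {i : ℕ} {e l : P → ℕ} (hl : ∀ x, x ∉ near P i → l x = 0) {x : P} :
    x ∈ Tch i (e + l) ↔ x ∈ Tch i e := by
  have key : ∀ z, lev z = i + 2 ∨ lev z + 2 = i → (e + l) z = e z := by
    intro z hz
    rw [Pi.add_apply, hl z (fun h => ?_), add_zero]
    rw [mem_near] at h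
    omega
  rw [mem_Tch, mem_Tch]
  constructor
  · rintro (⟨h, z, hz, h0⟩ | ⟨h, z, hz, h0⟩)
    · have h1 := (H.covBy_iff.mp hz).2
      rw [key z (by omega)] at h0
      exact Or.inl ⟨h, z, hz, h0⟩
    · have h1 := (H.covBy_iff.mp hz).2
      rw [key z (by omega)] at h0
      exact Or.inr ⟨h, z, hz, h0⟩
  · rintro (⟨h, z, hz, h0⟩ | ⟨h, z, hz, h0⟩)
    · have h1 := (H.covBy_iff.mp hz).2
      rw [← key z (by omega)] at h0
      exact Or.inl ⟨h, z, hz, h0⟩
    · have h1 := (H.covBy_iff.mp hz).2
      rw [← key z (by omega)] at h0
      exact Or.inr ⟨h, z, hz, h0⟩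

lemma FactD_wt (H : Gr P r) {i : ℕ} {e l : P → ℕ} (hl : ∀ x, x ∉ near P i → l x = 0) {x : P}
    (hx : x ∈ near P i) (a : ℕ) (S : Finset P) : wt i (e + l) x a S = wt i e x a S := by
  have key : ∀ z, lev z = i → (e + l) z = e z := by
    intro z hz
    rw [Pi.add_apply, hl z (fun h => ?_), add_zero]
    rw [mem_near] at h
    omega
  rw [mem_near] at hx
  unfold wt
  by_cases h : lev x = i + 1
  · rw [if_pos h, if_pos h]
    unfold wtL
    have e1 : ∀ v ∈ uc x, (e + l) v = e v := fun v hv => key v (by
      have := lev_uc H hv
      omega)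
    have e2 : (∀ v ∈ uc x, (e + l) v < a) ↔ (∀ v ∈ uc x, e v < a) := by
      constructor
      · intro h1 v hv
        rw [← e1 v hv]
        exact h1 v hv
      · intro h1 v hv
        rw [e1 v hv]
        exact h1 v hv
    have e3 : (∀ v ∈ uc x, (e + l) v < a → v ∈ S) ↔ (∀ v ∈ uc x, e v < a → v ∈ S) := by
      constructor
      · intro h1 v hv
        rw [← e1 v hv]
        exact h1 v hv
      · intro h1 v hv
        rw [e1 v hv]
        exact h1 v hv
    simp only [e2, e3]
  · rw [if_neg h, if_neg h]
    unfold wtU
    have e1 : ∀ v ∈ dc x, (e + l) v = e v := fun v hv => key v (by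
      have := lev_dc H hv
      omega)
    have e2 : (∀ v ∈ dc x, (e + l) v < a) ↔ (∀ v ∈ dc x, e v < a) := by
      constructor
      · intro h1 v hv
        rw [← e1 v hv]
        exact h1 v hv
      · intro h1 v hv
        rw [e1 v hv]
        exact h1 v hv
    have e3 : (∀ v ∈ dc x, (e + l) v < a → v ∉ S) ↔ (∀ v ∈ dc x, e v < a → v ∉ S) := by
      constructor
      · intro h1 v hv
        rw [← e1 v hv]
        exact h1 v hv
      · intro h1 v hv
        rw [e1 v hv]
        exact h1 v hv
    simp only [e2, e3]

/-- Several near elements at once: induction on `R`. Adding labels on near elements changes neither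
`Tch` (it depends on labels at levels `i+2` and `i-2`) nor `wt i e x` (it depends on labels of
sites). In the step for `insert x R'` write
`l = l' + Pi.single x (l x)` with `l'` zero at `x`, apply the induction hypothesis to `l'` and
`fact` to `e + l'`. -/
theorem fact_many (H : Gr P r) {i : ℕ} (hi : i ≤ r) {e : P → ℕ} (R : Finset P)
    (hR : R ⊆ near P i) (hT : ∀ x ∈ R, x ∉ Tch i e) (h0 : ∀ x ∈ R, e x = 0) (l : P → ℕ)
    (hl : ∀ x, x ∉ R → l x = 0) (S : Finset P) :
    Fe i (e + l) S = Fe i e S * ∏ x ∈ R, wt i e x (l x) S := by
  induction R using Finset.induction_on generalizing l with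
  | empty =>
    have h1 : l = 0 := funext fun x => hl x (Finset.notMem_empty x)
    rw [h1, add_zero, Finset.prod_empty, mul_one]
  | insert x R hx ih =>
    have hne : ∀ y, y ∉ near P i → Function.update l x 0 y = 0 := by
      intro y hy
      by_cases h : y = x
      · rw [h, Function.update_self]
      · rw [Function.update_of_ne h]
        exact hl y (fun h2 => hy (hR h2))
    have hl' : ∀ y, y ∉ R → Function.update l x 0 y = 0 := by
      intro y hy
      by_cases h : y = x
      · rw [h, Function.update_self]
      · rw [Function.update_of_ne h]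
        refine hl y (fun h2 => ?_)
        rcases Finset.mem_insert.mp h2 with h3 | h3
        · exact h h3
        · exact hy h3
    have h1 := ih (fun y hy => hR (Finset.mem_insert_of_mem hy))
      (fun y hy => hT y (Finset.mem_insert_of_mem hy))
      (fun y hy => h0 y (Finset.mem_insert_of_mem hy)) (Function.update l x 0) hl'
    have hxn : x ∈ near P i := hR (Finset.mem_insert_self x R)
    have h2 := fact H hi (e := e + Function.update l x 0) hxn
      (fun h => hT x (Finset.mem_insert_self x R) ((FactD_Tch H hne).mp h))
      (by rw [Pi.add_apply, Function.update_self, add_zero]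
          exact h0 x (Finset.mem_insert_self x R)) (l x) S
    have h3 : e + l = e + Function.update l x 0 + Pi.single x (l x) := by
      funext y
      by_cases h : y = x
      · subst h
        simp
      · simp [Function.update_of_ne h, Pi.single_eq_of_ne h]
    rw [h3, h2, h1, FactD_wt H hne hxn, Finset.prod_insert hx]
    have h4 : ∏ y ∈ R, wt i e y (Function.update l x 0 y) S = ∏ y ∈ R, wt i e y (l y) S := by
      refine Finset.prod_congr rfl fun y hy => ?_
      have h5 : y ≠ x := by
        rintro rfl
        exact hx hy
      rw [Function.update_of_ne h5]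
    rw [h4]
    ring

end Pool.Agent.GaussPoset.Win
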