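import Pool.Agent.W_448win_h16.RkA

/-! Products of functions with few deficits. -/

namespace Pool.Agent.GaussPoset.Win

set_option linter.unusedSectionVars false

open Finset

universe u

variable {P : Type u} [Fintype P] [PartialOrder P] [DecidableEq P] {r : ℕ}

/-- Products. If `f S = ∑ T ⊆ S, c T` and `g S = ∑ T' ⊆ S, c' T'` then
`f S * g S = ∑ U ⊆ S, ∑ (T, T') with T ∪ T' = U, c T * c' T'`, and
`|T ∪ T'| - (k + l) ≤ (|T| - k) + (|T'| - l)` in natural subtraction. -/
lemma Rk_mul {V : Finset P} {k l : ℕ} {f g : Finset P → A} (hf : Rk V k f) (hg : Rk V l g) :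
    Rk V (k + l) (fun S => f S * g S) := by
  obtain ⟨c, hc1, hc2⟩ := hf
  obtain ⟨c', hc1', hc2'⟩ := hg
  refine ⟨fun U => ∑ p ∈ (U.powerset ×ˢ U.powerset).filter (fun p => p.1 ∪ p.2 = U),
    c p.1 * c' p.2, ?_, ?_⟩
  · intro U hU
    refine Finset.dvd_sum fun p hp => ?_
    rw [Finset.mem_filter, Finset.mem_product, Finset.mem_powerset, Finset.mem_powerset] at hp
    obtain ⟨⟨h1, h2⟩, h3⟩ := hp
    have h4 : U.card ≤ p.1.card + p.2.card := by
      rw [← h3]
      exact Finset.card_union_le _ _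
    have h5 : dd ^ ((p.1.card - k) + (p.2.card - l)) ∣ c p.1 * c' p.2 := by
      rw [pow_add]
      exact mul_dvd_mul (hc1 _ (h1.trans hU)) (hc1' _ (h2.trans hU))
    exact (pow_dvd_pow _ (by omega)).trans h5
  · intro S hS
    show f S * g S = _
    rw [hc2 S hS, hc2' S hS, Finset.sum_mul_sum, ← Finset.sum_product']
    have hmaps : ∀ p ∈ S.powerset ×ˢ S.powerset, p.1 ∪ p.2 ∈ S.powerset := by
      intro p hp
      rw [Finset.mem_product, Finset.mem_powerset, Finset.mem_powerset] at hp
      rw [Finset.mem_powerset]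
      exact Finset.union_subset hp.1 hp.2
    rw [← Finset.sum_fiberwise_of_maps_to hmaps]
    refine Finset.sum_congr rfl fun U hU => ?_
    rw [Finset.mem_powerset] at hU
    refine Finset.sum_congr ?_ fun _ _ => rfl
    ext p
    simp only [Finset.mem_filter, Finset.mem_product, Finset.mem_powerset]
    constructor
    · rintro ⟨-, h3⟩
      refine ⟨⟨?_, ?_⟩, h3⟩
      · rw [← h3]
        exact Finset.subset_union_left
      · rw [← h3]
        exact Finset.subset_union_right
    · rintro ⟨⟨h1, h2⟩, h3⟩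
      exact ⟨⟨h1.trans hU, h2.trans hU⟩, h3⟩

end Pool.Agent.GaussPoset.Win
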