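import Pool.Agent.W_448win_h16.FactA
import Pool.Agent.W_448win_h16.RkB
import Pool.Agent.W_448win_h16.RkC

/-! The pair lemma. -/

namespace Pool.Agent.GaussPoset.Win

set_option linter.unusedSectionVars false

open Finset

universe u

variable {P : Type u} [Fintype P] [PartialOrder P] [DecidableEq P] {r : ℕ}

lemma FactF_one_add : (1 : A) + xi = xi * dd := one_add_xi

/-- the function of a pair with large labels -/
lemma FactF_big {V : Finset P} {p q : P} (hp : p ∈ V) (hq : q ∈ V) (hpq : p ≠ q) :
    Rk V 0 (fun S => dd * (if p ∈ S ∧ q ∈ S then 1 else 0) +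
      xi * dd * (if p ∉ S ∧ q ∉ S then 1 else 0)) := by
  have h1 := Rk_const V 0 (xi * dd)
  have h2 := Rk_chi (V := V) (B := {p}) (C := ∅) (k := 0) (p := 1) (a := -(xi * dd))
    (Finset.singleton_subset_iff.2 hp) (Finset.empty_subset _) (by simp)
    (by rw [pow_one]; exact (Dvd.intro_left xi rfl).neg_right)
  have h3 := Rk_chi (V := V) (B := {q}) (C := ∅) (k := 0) (p := 1) (a := -(xi * dd))
    (Finset.singleton_subset_iff.2 hq) (Finset.empty_subset _) (by simp)
    (by rw [pow_one]; exact (Dvd.intro_left xi rfl).neg_right)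
  have h4 := Rk_chi (V := V) (B := {p, q}) (C := ∅) (k := 0) (p := 2) (a := xi * dd ^ 2)
    (by
      intro x hx
      rw [Finset.mem_insert, Finset.mem_singleton] at hx
      rcases hx with rfl | rfl
      · exact hp
      · exact hq) (Finset.empty_subset _)
    (by rw [Finset.card_pair hpq]; simp) (Dvd.intro_left xi rfl)
  refine Rk_congr (fun S _ => ?_) (Rk_add h1 (Rk_add h2 (Rk_add h3 h4)))
  have e1 : (chi {p} ∅ S : A) = if p ∈ S then 1 else 0 := by
    unfold chi
    simp
  have e2 : (chi {q} ∅ S : A) = if q ∈ S then 1 else 0 := by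
    unfold chi
    simp
  have e3 : (chi {p, q} ∅ S : A) = if p ∈ S ∧ q ∈ S then 1 else 0 := by
    unfold chi
    simp [Finset.insert_subset_iff]
  have hx : xi * dd * dd = dd + xi * dd := by
    linear_combination (-dd) * FactF_one_add
  simp only [e1, e2, e3]
  by_cases hpS : p ∈ S <;> by_cases hqS : q ∈ S
  · simp only [hpS, hqS, and_self, if_true, not_true, if_false]
    linear_combination hx
  · simp only [hpS, hqS, and_true, and_false, true_and, if_true, not_true, if_false,
      not_false_iff, false_and]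
    ring
  · simp only [hpS, hqS, and_true, and_false, true_and, if_true, not_true, if_false,
      not_false_iff, false_and]
    ring
  · simp only [hpS, hqS, and_self, if_true, if_false, not_false_iff]
    ring

/-- The pair lemma. Let `{p, q}` be the two sites, `m = min (e p) (e q)`, `M = max`, `t` the site with
the smaller label (if `m < M`). `wtL e w a` is `1` for `a ≤ m`, `[t ∈ S]` for `m < a ≤ M`,
`dd [p ∈ S][q ∈ S]` for `M < a`; `wtU e u b` is `1` for `b ≤ m`, `[t ∉ S]` for `m < b ≤ M` and
`xi dd [p ∉ S][q ∉ S]` for `M < b`. Products with both `a > m`, `b > m` vanish. So the sum over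
`a + b = k` is `N1 + N2 ([t ∈ S] + [t ∉ S]) + N3 dd ([p ∈ S][q ∈ S] + xi [p ∉ S][q ∉ S])` with
`N2 = #{a + b = k, m < a ≤ M, b ≤ m}` (the same number with `a`, `b` exchanged) and
`N3 = #{a + b = k, M < a, b ≤ m}`. Finally
`dd ([p ∈ S][q ∈ S] + xi [p ∉ S][q ∉ S]) = xi dd (1 - [p ∈ S] - [q ∈ S]) + xi dd^2 [p, q ∈ S]`
because `1 + xi = xi dd`, so it is in `Rk _ 0` (coefficients `xi dd` at `∅`, `- xi dd` at the
singletons, `xi dd^2` at `{p, q}`). -/
theorem pair_Rk (H : Gr P r) {i : ℕ} {e : P → ℕ} {w u : P} (hw : lev w = i + 1)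
    (hu : lev u + 1 = i) (h2 : (uc w).card = 2) (heq : dc u = uc w) (k : ℕ) :
    Rk (lv P i) 0 (fun S => ∑ p ∈ antidiagonal k, wtL e w p.1 S * wtU e u p.2 S) := by
  have _ := hu
  obtain ⟨p, q, hpq, huc⟩ := Finset.card_eq_two.1 h2
  have hp : p ∈ uc w := by rw [huc]; simp
  have hq : q ∈ uc w := by rw [huc]; simp
  have hpV : p ∈ lv P i := by
    rw [mem_lv]
    have := lev_uc H hp
    omega
  have hqV : q ∈ lv P i := by
    rw [mem_lv]
    have := lev_uc H hq
    omega
  have hdc : dc u = {p, q} := heq.trans huc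
  have hL : ∀ a S, wtL e w a S = (if e p < a ∧ e q < a then dd else 1) *
      (if (e p < a → p ∈ S) ∧ (e q < a → q ∈ S) then 1 else 0) := by
    intro a S
    unfold wtL
    rw [huc]
    simp only [Finset.mem_insert, Finset.mem_singleton, forall_eq_or_imp, forall_eq]
  have hU : ∀ b S, wtU e u b S = (if e p < b ∧ e q < b then xi * dd else 1) *
      (if (e p < b → p ∉ S) ∧ (e q < b → q ∉ S) then 1 else 0) := by
    intro a S
    unfold wtU
    rw [hdc]
    simp only [Finset.mem_insert, Finset.mem_singleton, forall_eq_or_imp, forall_eq]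
  -- splitting of the product
  have hsplit : ∀ a b S, wtL e w a S * wtU e u b S =
      (if e p < b ∨ e q < b then 0 else wtL e w a S) +
      (if (e p < a ∨ e q < a) ∨ ¬ (e p < b ∨ e q < b) then 0 else wtU e u b S) := by
    intro a b S
    by_cases hb : e p < b ∨ e q < b
    · by_cases ha : e p < a ∨ e q < a
      · rw [if_pos hb, if_pos (Or.inl ha), add_zero, hL, hU]
        rcases le_total (e p) (e q) with hle | hle
        · have h1 : e p < a := by omega
          have h3 : e p < b := by omega
          by_cases hpS : p ∈ S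
          · rw [if_neg (c := (e p < b → p ∉ S) ∧ (e q < b → q ∉ S))]
            · ring
            · rintro ⟨h5, _⟩
              exact h5 h3 hpS
          · rw [if_neg (c := (e p < a → p ∈ S) ∧ (e q < a → q ∈ S))]
            · ring
            · rintro ⟨h5, _⟩
              exact hpS (h5 h1)
        · have h1 : e q < a := by omega
          have h3 : e q < b := by omega
          by_cases hqS : q ∈ S
          · rw [if_neg (c := (e p < b → p ∉ S) ∧ (e q < b → q ∉ S))]
            · ring
            · rintro ⟨_, h5⟩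
              exact h5 h3 hqS
          · rw [if_neg (c := (e p < a → p ∈ S) ∧ (e q < a → q ∈ S))]
            · ring
            · rintro ⟨_, h5⟩
              exact hqS (h5 h1)
      · rw [if_pos hb, if_neg (by tauto), zero_add]
        have h1 : ¬ e p < a := fun h => ha (Or.inl h)
        have h3 : ¬ e q < a := fun h => ha (Or.inr h)
        rw [hL]
        simp [h1, h3]
    · rw [if_neg hb, if_pos (Or.inr hb), add_zero]
      have h1 : ¬ e p < b := fun h => hb (Or.inl h)
      have h3 : ¬ e q < b := fun h => hb (Or.inr h)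
      rw [hU]
      simp [h1, h3]
  -- the sum, after an exchange in the second part
  have hsum : ∀ S : Finset P, ∑ x ∈ antidiagonal k, wtL e w x.1 S * wtU e u x.2 S =
      ∑ x ∈ antidiagonal k, (if e p < x.2 ∨ e q < x.2 then 0 else
        (wtL e w x.1 S + if e p < x.1 ∨ e q < x.1 then wtU e u x.1 S else 0)) := by
    intro S
    have e1 : ∑ x ∈ antidiagonal k, wtL e w x.1 S * wtU e u x.2 S =
        ∑ x ∈ antidiagonal k, (if e p < x.2 ∨ e q < x.2 then 0 else wtL e w x.1 S) +
        ∑ x ∈ antidiagonal k, (if (e p < x.1 ∨ e q < x.1) ∨ ¬ (e p < x.2 ∨ e q < x.2) then 0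
          else wtU e u x.2 S) := by
      rw [← Finset.sum_add_distrib]
      exact Finset.sum_congr rfl fun x _ => hsplit x.1 x.2 S
    have e2 : ∑ x ∈ antidiagonal k, (if (e p < x.1 ∨ e q < x.1) ∨ ¬ (e p < x.2 ∨ e q < x.2) then 0
          else wtU e u x.2 S) =
        ∑ x ∈ antidiagonal k, (if (e p < x.2 ∨ e q < x.2) ∨ ¬ (e p < x.1 ∨ e q < x.1) then 0
          else wtU e u x.1 S) :=
      (Finset.Nat.sum_antidiagonal_swap (n := k)
        (f := fun x : ℕ × ℕ => (if (e p < x.1 ∨ e q < x.1) ∨ ¬ (e p < x.2 ∨ e q < x.2) then 0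
          else wtU e u x.2 S : A))).symm
    rw [e1, e2, ← Finset.sum_add_distrib]
    refine Finset.sum_congr rfl fun x _ => ?_
    by_cases hb : e p < x.2 ∨ e q < x.2
    · rw [if_pos hb, if_pos (Or.inl hb), if_pos hb, add_zero]
    · by_cases ha : e p < x.1 ∨ e q < x.1
      · rw [if_neg hb, if_neg (by tauto), if_neg hb, if_pos ha]
      · rw [if_neg hb, if_pos (Or.inr ha), if_neg hb, if_neg ha]
  refine Rk_congr (fun S _ => (hsum S).symm) (Rk_sum _ fun x _ => ?_)
  obtain ⟨a, b⟩ := x
  simp only
  by_cases hb : e p < b ∨ e q < b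
  · simp only [if_pos hb]
    exact Rk_zero _ _
  · simp only [if_neg hb]
    by_cases h1 : e p < a <;> by_cases h3 : e q < a
    · refine Rk_congr (fun S _ => ?_) (FactF_big hpV hqV hpq)
      rw [hL, hU]
      simp [h1, h3]
    · refine Rk_congr (fun S _ => ?_) (Rk_const _ 0 1)
      rw [hL, hU]
      by_cases hS : p ∈ S <;> simp [h1, h3, hS]
    · refine Rk_congr (fun S _ => ?_) (Rk_const _ 0 1)
      rw [hL, hU]
      by_cases hS : q ∈ S <;> simp [h1, h3, hS]
    · refine Rk_congr (fun S _ => ?_) (Rk_const _ 0 1)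
      rw [hL]
      simp [h1, h3]

end Pool.Agent.GaussPoset.Win
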