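import Pool.Agent.W_448win_h16.FactE
import Pool.Agent.W_448win_h16.FactF

/-! Sum over all labellings of a closed set of near elements. -/

namespace Pool.Agent.GaussPoset.Win

set_option linter.unusedSectionVars false

open Finset

universe u

variable {P : Type u} [Fintype P] [PartialOrder P] [DecidableEq P] {r : ℕ}

lemma FactG_sum (R : Finset P) (m : ℕ) (c : P → ℕ → A) :
    ∑ l ∈ R.piAntidiag m, ∏ x ∈ R, c x (l x) =
      PowerSeries.coeff m (∏ x ∈ R, PowerSeries.mk (c x)) := by
  rw [PowerSeries.coeff_prod]
  simp only [PowerSeries.coeff_mk]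
  refine Finset.sum_nbij' (fun l => Finsupp.equivFunOnFinite.symm l) (fun f => ⇑f) ?_ ?_ ?_ ?_ ?_
  · intro l hl
    rw [Finset.mem_piAntidiag] at hl
    rw [Finset.mem_finsuppAntidiag]
    refine ⟨hl.1, fun x hx => hl.2 x ?_⟩
    rw [Finsupp.mem_support_iff] at hx
    exact hx
  · intro f hf
    rw [Finset.mem_finsuppAntidiag] at hf
    rw [Finset.mem_piAntidiag]
    exact ⟨hf.1, fun x hx => hf.2 (Finsupp.mem_support_iff.2 hx)⟩
  · intro l _
    rfl
  · intro f _
    exact Finsupp.ext fun _ => rfl
  · intro l _
    rfl

/-- products of power series whose coefficients have no deficits -/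
lemma FactG_mul {V : Finset P} {f g : Finset P → PowerSeries A}
    (hf : ∀ k, Rk V 0 (fun S => PowerSeries.coeff k (f S)))
    (hg : ∀ k, Rk V 0 (fun S => PowerSeries.coeff k (g S))) (m : ℕ) :
    Rk V 0 (fun S => PowerSeries.coeff m (f S * g S)) := by
  refine Rk_congr (fun S _ => (PowerSeries.coeff_mul m (f S) (g S)).symm) ?_
  exact Rk_sum _ fun x _ => Rk_mul (hf x.1) (hg x.2)

lemma FactG_aux (H : Gr P r) {i : ℕ} (hi : 1 ≤ i) (hi2 : i + 1 ≤ r) {K : Finset P}
    {psi : P → P} (hM : Mat P i K psi) (e : P → ℕ) (n : ℕ) : ∀ R : Finset P, R.card = n →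
    R ⊆ near P i → (∀ x ∈ R, x ∉ K) → (∀ x ∈ R, x ∈ dbL P i ∪ dbU P i → psi x ∈ R) →
    ∀ m, Rk (lv P i) 0 (fun S => PowerSeries.coeff m
      (∏ x ∈ R, PowerSeries.mk (fun a => wt i e x a S))) := by
  induction n using Nat.strong_induction_on with
  | _ n ih =>
    intro R hn hR hK hb m
    by_cases hd : ∃ w ∈ R, w ∈ dbL P i
    · obtain ⟨w, hwR, hwL⟩ := hd
      have hlow := hM.low w hwL (hK w hwR)
      have huR := hb w hwR (Finset.mem_union_left _ hwL)
      have hinv := hM.invol w (Finset.mem_union_left _ hwL) (hK w hwR)
      set u := psi w with hu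
      have hwl := (mem_dbL.1 hwL).1
      have hul := (mem_dbU.1 hlow.1).1
      have hne : u ≠ w := by
        intro h
        rw [h] at hul
        omega
      have huR' : u ∈ R.erase w := Finset.mem_erase.2 ⟨hne, huR⟩
      set R' := (R.erase w).erase u with hR'
      have hsub : R' ⊆ R := (Finset.erase_subset _ _).trans (Finset.erase_subset _ _)
      have hcard : R'.card < n := by
        have h1 := Finset.card_erase_lt_of_mem huR'
        have h2 := Finset.card_erase_lt_of_mem hwR
        rw [← hn]
        exact h1.trans h2
      have hclosed : ∀ x ∈ R', x ∈ dbL P i ∪ dbU P i → psi x ∈ R' := by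
        intro x hx hxd
        rw [hR', Finset.mem_erase, Finset.mem_erase] at hx ⊢
        obtain ⟨hxu, hxw, hxR⟩ := hx
        have h1 := (hM.invol x hxd (hK x hxR)).1
        refine ⟨?_, ?_, hb x hxR hxd⟩
        · intro h2
          rw [h2, hinv.1] at h1
          exact hxw h1.symm
        · intro h2
          rw [h2] at h1
          exact hxu h1.symm
      have hrec := ih R'.card hcard R' rfl (hsub.trans hR) (fun x hx => hK x (hsub hx)) hclosed
      have hprod : ∀ S, ∏ x ∈ R, PowerSeries.mk (fun a => wt i e x a S) =
          (PowerSeries.mk (fun a => wt i e w a S) * PowerSeries.mk (fun a => wt i e u a S)) *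
            ∏ x ∈ R', PowerSeries.mk (fun a => wt i e x a S) := by
        intro S
        rw [← Finset.mul_prod_erase R _ hwR, ← Finset.mul_prod_erase (R.erase w) _ huR',
          mul_assoc]
      refine Rk_congr (fun S _ => by rw [hprod S]) (FactG_mul (fun k => ?_) hrec m)
      refine Rk_congr (fun S _ => ?_)
        (pair_Rk (e := e) H hwl hul (mem_dbL.1 hwL).2 hlow.2 k)
      rw [PowerSeries.coeff_mul]
      refine Finset.sum_congr rfl fun p _ => ?_
      rw [PowerSeries.coeff_mk, PowerSeries.coeff_mk]
      unfold wt
      rw [if_pos hwl, if_neg (by omega)]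
    · by_cases hd' : ∃ u ∈ R, u ∈ dbU P i
      · obtain ⟨u, huR, huU⟩ := hd'
        exact absurd ⟨psi u, hb u huR (Finset.mem_union_right _ huU),
          (hM.upp u huU (hK u huR)).1⟩ hd
      · rcases R.eq_empty_or_nonempty with rfl | ⟨x, hx⟩
        · simp only [Finset.prod_empty]
          exact Rk_const _ 0 _
        · have hcard : (R.erase x).card < n := by
            rw [← hn]
            exact Finset.card_erase_lt_of_mem hx
          have hsub : R.erase x ⊆ R := Finset.erase_subset _ _
          have hrec := ih (R.erase x).card hcard (R.erase x) rfl (hsub.trans hR)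
            (fun y hy => hK y (hsub hy)) (by
              intro y hy hyd
              rw [Finset.mem_union] at hyd
              rcases hyd with h1 | h1
              · exact absurd ⟨y, hsub hy, h1⟩ hd
              · exact absurd ⟨y, hsub hy, h1⟩ hd')
          have hprod : ∀ S, (PowerSeries.mk (fun a => wt i e x a S)) *
              ∏ y ∈ R.erase x, PowerSeries.mk (fun a => wt i e y a S) =
              ∏ y ∈ R, PowerSeries.mk (fun a => wt i e y a S) := fun S =>
            Finset.mul_prod_erase R (fun y => PowerSeries.mk (fun a => wt i e y a S)) hx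
          refine Rk_congr (fun S _ => congrArg (PowerSeries.coeff m) (hprod S))
            (FactG_mul (f := fun S => PowerSeries.mk (fun a => wt i e x a S)) (fun k => ?_)
              hrec m)
          simp only [PowerSeries.coeff_mk]
          have hnear := mem_near.1 (hR hx)
          rcases hnear with h1 | h1
          · have h2 : (uc x).card = 1 := by
              have h3 := uc_card_le H x
              have h4 := Finset.card_pos.2 (uc_nonempty H (x := x) (by omega))
              have h5 : (uc x).card ≠ 2 := fun h6 => hd ⟨x, hx, mem_dbL.2 ⟨h1, h6⟩⟩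
              omega
            have h7 := single_L H (e := e) h1 h2 k
            refine Rk_congr (fun S _ => ?_) h7
            unfold wt
            rw [if_pos h1]
          · have h2 : (dc x).card = 1 := by
              have h3 := dc_card_le H x
              have h4 := Finset.card_pos.2 (dc_nonempty H (x := x) (by omega))
              have h5 : (dc x).card ≠ 2 := fun h6 => hd' ⟨x, hx, mem_dbU.2 ⟨h1, h6⟩⟩
              omega
            have h7 := single_U H (e := e) h1 h2 k
            refine Rk_congr (fun S _ => ?_) h7
            unfold wt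
            rw [if_neg (by omega)]

/-- Sum over all labellings of total `m` of a set `R` of near elements outside `K` which with every
double element contains its partner: in `Rk _ 0`. Induction on the cardinality of `R`. If `R` contains
a double element it contains a double lower element `w` (the partner of a double upper element is a
double lower element) and its partner `u = psi w`; `R' = R \ {w, u}` is again closed (`psi` is an
involution outside `K`), and the sum over `piAntidiag R m` is
`∑ (k, m') ∈ antidiagonal m, (∑ (a,b) ∈ antidiagonal k, wt w a * wt u b) * (sum for R', m')`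
(`Finset.piAntidiag_cons` / `Finset.piAntidiag_insert` twice); use `pair_Rk`, `Rk_mul`, `Rk_sum`. If all elements of
`R` are single, split off one element and use `single_L`, `single_U` (near elements have one or two
sites: `uc_nonempty`, `uc_card_le`, `dc_nonempty`, `dc_card_le`, with `1 ≤ i`, `i + 1 ≤ r`). `R = ∅`: the sum
is `1` for `m = 0` and `0` otherwise. -/
theorem rest_prod (H : Gr P r) {i : ℕ} (hi : 1 ≤ i) (hi2 : i + 1 ≤ r) {K : Finset P}
    {psi : P → P} (hM : Mat P i K psi) (e : P → ℕ) (R : Finset P) (hR : R ⊆ near P i)
    (hK : ∀ x ∈ R, x ∉ K) (hb : ∀ x ∈ R, x ∈ dbL P i ∪ dbU P i → psi x ∈ R) (m : ℕ) :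
    Rk (lv P i) 0 (fun S => ∑ l ∈ R.piAntidiag m, ∏ x ∈ R, wt i e x (l x) S) := by
  refine Rk_congr (fun S _ => (FactG_sum R m fun x a => wt i e x a S).symm) ?_
  exact FactG_aux H hi hi2 hM e R.card R rfl hR hK hb m

end Pool.Agent.GaussPoset.Win
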