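import Pool.Agent.W_448win_h16.CoreA
import Pool.Agent.W_448win_h16.FactD
import Pool.Agent.W_448win_h16.FactG

/-! The core theorem. -/

namespace Pool.Agent.GaussPoset.Win

set_option linter.unusedSectionVars false

open Finset

universe u

variable {P : Type u} [Fintype P] [PartialOrder P] [DecidableEq P] {r : ℕ}

/-- One group with a core in `Rk _ k`: `fact_many` gives
`Fe (e0 + l) S = Fe e0 S * ∏ x ∈ R, wt i e0 x (l x) S` with `R = Rst i K psi e0`; `rest_prod` and
`Rk_mul`. The set `R` is closed under `psi`: for `x ∈ R` double, `psi x` is double, near,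
not in `K` (`hM`), `psi x ∉ Tch` by the definition of `Rst`, and `psi (psi x) = x ∉ Tch`. -/
theorem core_cheap (H : Gr P r) {i : ℕ} (hi : 1 ≤ i) (hi2 : i + 1 ≤ r) {K : Finset P}
    {psi : P → P} (hM : Mat P i K psi) {e0 : P → ℕ} (hc : IsCore i K psi e0) {k : ℕ}
    (hk : Rk (lv P i) k (Fe i e0)) (m : ℕ) :
    Rk (lv P i) k (fun S => ∑ l ∈ (Rst i K psi e0).piAntidiag m, Fe i (e0 + l) S) := by
  have hR : Rst i K psi e0 ⊆ near P i := fun x hx => (mem_Rst.mp hx).1
  have hK : ∀ x ∈ Rst i K psi e0, x ∉ K := fun x hx => (mem_Rst.mp hx).2.1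
  have hT : ∀ x ∈ Rst i K psi e0, x ∉ Tch i e0 := fun x hx => (mem_Rst.mp hx).2.2.1
  have hb : ∀ x ∈ Rst i K psi e0, x ∈ dbL P i ∪ dbU P i → psi x ∈ Rst i K psi e0 := by
    intro x hx hd
    obtain ⟨h1, h2, h3, h4⟩ := mem_Rst.mp hx
    have h5 := hM.invol x hd h2
    refine mem_Rst.mpr ⟨?_, h5.2, fun h6 => h4 ⟨hd, h6⟩, ?_⟩
    · rcases Finset.mem_union.mp hd with h6 | h6
      · have h7 := (mem_dbU.mp (hM.low x h6 h2).1).1
        exact mem_near.mpr (Or.inr h7)
      · have h7 := (mem_dbL.mp (hM.upp x h6 h2).1).1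
        exact mem_near.mpr (Or.inl h7)
    · rintro ⟨-, h6⟩
      rw [h5.1] at h6
      exact h3 h6
  have h1 := Rk_mul hk (rest_prod H hi hi2 hM e0 (Rst i K psi e0) hR hK hb m)
  rw [add_zero] at h1
  refine Rk_congr (fun S _ => ?_) h1
  show Fe i e0 S * ∑ l ∈ (Rst i K psi e0).piAntidiag m,
    ∏ x ∈ Rst i K psi e0, wt i e0 x (l x) S = _
  rw [Finset.mul_sum]
  refine Finset.sum_congr rfl fun l hl => ?_
  rw [Finset.mem_piAntidiag] at hl
  refine (fact_many H (by omega) (Rst i K psi e0) hR hT hc l (fun x hx => ?_) S).symm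
  by_contra hne
  exact hx (hl.2 x hne)

open Classical in
/-- CORE THEOREM. If all cores of energy `< n` have at most `k` deficits, then the sum of the terms of
the cores of energy `n` is divisible by `dd ^ (b_i - k)`. Proof: `dvd_sum_trm`; write
`trm i e = II i (Fe i e)` (`II_Fe`), group with `core_group` applied to `F e = II i (Fe i e)`; for `q < n`
the inner double sums are `II` of functions in `Rk _ k` by `core_cheap` (`II` commutes with finite sums),
hence divisible by `dd ^ (b_i - k)` (`Rk_II`); for `q = n` the inner sum is over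
`piAntidiag _ 0 = {0}`. -/
theorem core_sum (H : Gr P r) {i : ℕ} (hi : 1 ≤ i) (hi2 : i + 1 ≤ r) {K : Finset P}
    {psi : P → P} (hM : Mat P i K psi) (n k : ℕ)
    (hk : ∀ e : P → ℕ, IsCore i K psi e → ∑ x, e x < n → Rk (lv P i) k (Fe i e)) :
    dd ^ ((lv P i).card - k) ∣
      ∑ e ∈ ((univ : Finset P).piAntidiag n).filter (IsCore i K psi), trm i e := by
  have h := dvd_sum_trm H (i := i) (by omega) n
  have h0 : dd ^ ((lv P i).card - k) ∣ ∑ e ∈ (univ : Finset P).piAntidiag n, trm i e :=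
    (pow_dvd_pow dd (Nat.sub_le _ _)).trans h
  rw [core_group H (fun e => trm i e) i K psi n, Finset.sum_range_succ, Nat.sub_self] at h0
  have h1 : dd ^ ((lv P i).card - k) ∣ ∑ q ∈ range n,
      ∑ e0 ∈ ((univ : Finset P).piAntidiag q).filter (IsCore i K psi),
        ∑ l ∈ (Rst i K psi e0).piAntidiag (n - q), trm i (e0 + l) := by
    refine Finset.dvd_sum fun q hq => Finset.dvd_sum fun e0 he => ?_
    rw [Finset.mem_range] at hq
    rw [Finset.mem_filter, Finset.mem_piAntidiag] at he
    have h2 : ∑ x, e0 x = q := he.1.1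
    have h3 := Rk_II (core_cheap H hi hi2 hM he.2 (hk e0 he.2 (by omega)) (n - q))
    have h4 : II i (fun S => ∑ l ∈ (Rst i K psi e0).piAntidiag (n - q), Fe i (e0 + l) S) =
        ∑ l ∈ (Rst i K psi e0).piAntidiag (n - q), trm i (e0 + l) := by
      unfold II
      simp only [Finset.mul_sum]
      rw [Finset.sum_comm]
      refine Finset.sum_congr rfl fun l _ => ?_
      rw [← II_Fe]
      rfl
    rw [h4] at h3
    exact h3
  have h2 := (dvd_add_right h1).mp h0
  have h3 : ∑ e0 ∈ ((univ : Finset P).piAntidiag n).filter (IsCore i K psi),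
      ∑ l ∈ (Rst i K psi e0).piAntidiag 0, trm i (e0 + l) =
      ∑ e ∈ ((univ : Finset P).piAntidiag n).filter (IsCore i K psi), trm i e := by
    refine Finset.sum_congr rfl fun e _ => ?_
    rw [Finset.piAntidiag_zero, Finset.sum_singleton, add_zero]
  rw [h3] at h2
  exact h2

open Classical in
/-- The cores of energy `n` in `Rk _ k` can be dropped (`II_Fe`, `Rk_II`). -/
theorem core_sum' (H : Gr P r) {i : ℕ} (hi : 1 ≤ i) (hi2 : i + 1 ≤ r) {K : Finset P}
    {psi : P → P} (hM : Mat P i K psi) (n k : ℕ)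
    (hk : ∀ e : P → ℕ, IsCore i K psi e → ∑ x, e x < n → Rk (lv P i) k (Fe i e)) :
    dd ^ ((lv P i).card - k) ∣
      ∑ e ∈ ((univ : Finset P).piAntidiag n).filter
        (fun e => IsCore i K psi e ∧ ¬ Rk (lv P i) k (Fe i e)), trm i e := by
  have h := core_sum H hi hi2 hM n k hk
  have h1 : ∑ e ∈ ((univ : Finset P).piAntidiag n).filter (IsCore i K psi), trm i e =
      ∑ e ∈ ((univ : Finset P).piAntidiag n).filter
        (fun e => IsCore i K psi e ∧ ¬ Rk (lv P i) k (Fe i e)), trm i e +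
      ∑ e ∈ ((univ : Finset P).piAntidiag n).filter
        (fun e => IsCore i K psi e ∧ Rk (lv P i) k (Fe i e)), trm i e := by
    rw [← Finset.sum_filter_add_sum_filter_not
      (((univ : Finset P).piAntidiag n).filter (IsCore i K psi)) (fun e => ¬ Rk (lv P i) k (Fe i e)),
      Finset.filter_filter, Finset.filter_filter]
    simp only [not_not]
  rw [h1] at h
  refine (dvd_add_left (Finset.dvd_sum fun e he => ?_)).mp h
  rw [mem_filter] at he
  rw [← II_Fe]
  exact Rk_II he.2.2

end Pool.Agent.GaussPoset.Win
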