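import Pool.Agent.W_448win_h16.ExpC
import Pool.Agent.W_448win_h16.LowC

/-! Explicit terms. -/

namespace Pool.Agent.GaussPoset.Win

set_option linter.unusedSectionVars false

open Finset

universe u

variable {P : Type u} [Fintype P] [PartialOrder P] [DecidableEq P] {r : ℕ}

lemma ExpD_II_mul (i : ℕ) (a : A) (f : Finset P → A) :
    II i (fun S => a * f S) = a * II i f := by
  unfold II
  rw [Finset.mul_sum]
  exact Finset.sum_congr rfl fun S _ => by ring

lemma ExpD_low {i : ℕ} {e : P → ℕ} {a : A} {B : Finset P} (hB : B ⊆ lv P i)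
    (h : ∀ S, Fe i e S = a * chi B ∅ S) :
    trm i e = a * (xx ^ B.card * dd ^ ((lv P i).card - B.card)) := by
  have e1 : Fe i e = fun S => a * chi B ∅ S := funext h
  rw [← II_Fe, e1, ExpD_II_mul, II_chi hB (Finset.empty_subset _),
    if_pos (Finset.disjoint_empty_right B), Finset.card_empty, Nat.sub_zero]

lemma ExpD_sts_sub (i : ℕ) (z : P) : sts i z ⊆ lv P i := fun _ hv => mem_lv.2 (mem_sts.1 hv).1

/-- the term of a configuration without lower part, from its upper data -/
lemma ExpD_upp (H : Gr P r) {i : ℕ} {e : P → ℕ} (h0 : ∀ z, i < lev z → e z = 0)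
    {B C D : Finset P} (hB : ∀ u ∈ B, lev u < i) (hC : ∀ u ∈ C, lev u < i)
    (hD : ∀ u ∈ D, lev u = i) (hBC : B ⊆ C)
    (hFU : ∀ u, lev u < i → (FU e u ↔ u ∈ B)) (hGD : ∀ u, lev u < i → (GD e u ↔ u ∉ C))
    (hS : ∀ w, lev w = i → (FU e w ↔ w ∈ D)) :
    trm i e = xi ^ (B.card + (C \ B).card) * dd ^ ((C \ B).card + ((lv P i).card - D.card)) := by
  classical
  obtain ⟨hAdmL, hAL, haL, hpL⟩ := low_none H h0
  have hAdmU : AdmU i e := by
    intro u hu h1
    exact (hGD u hu).1 h1.2 (hBC ((hFU u hu).1 h1.1))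
  have hAU : AU i e = D := by
    ext w
    unfold AU
    rw [Finset.mem_filter, mem_lv]
    constructor
    · rintro ⟨h1, h2⟩
      exact (hS w h1).1 h2
    · intro h1
      exact ⟨hD w h1, (hS w (hD w h1)).2 h1⟩
  have haU : aU i e = B.card := by
    unfold aU
    congr 1
    ext u
    rw [Finset.mem_filter]
    constructor
    · rintro ⟨-, h1, h2⟩
      exact (hFU u h1).1 h2
    · intro h1
      exact ⟨mem_univ _, hB u h1, (hFU u (hB u h1)).2 h1⟩
  have hpU : pU i e = (C \ B).card := by
    unfold pU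
    congr 1
    ext u
    rw [Finset.mem_filter, Finset.mem_sdiff]
    constructor
    · rintro ⟨-, h1, h2, h3⟩
      rw [hFU u h1] at h2
      rw [hGD u h1, not_not] at h3
      exact ⟨h3, h2⟩
    · rintro ⟨h1, h2⟩
      have h3 := hC u h1
      exact ⟨mem_univ _, h3, fun h => h2 ((hFU u h3).1 h), fun h => (hGD u h3).1 h h1⟩
  unfold trm cw
  rw [hAL, hAU, if_pos (Finset.disjoint_empty_left D), if_pos ⟨hAdmL, hAdmU⟩, haL, haU, hpL, hpU,
    Finset.card_empty, Nat.sub_zero, pow_zero, zero_add, one_mul, one_mul, mul_assoc, ← pow_add]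

lemma ExpD_cu_x (x : P) : cu x x = 1 := by
  unfold cu
  rw [if_pos (Or.inl rfl)]

lemma ExpD_cu_dc {x y : P} (h : y ∈ dc x) : cu x y = 1 := by
  unfold cu
  rw [if_pos (Or.inr h)]

lemma ExpD_cu_zero {x y : P} (h1 : y ≠ x) (h2 : y ∉ dc x) : cu x y = 0 := by
  unfold cu
  rw [if_neg (not_or.2 ⟨h1, h2⟩)]

lemma ExpD_sg_self (x : P) : sg x x = 1 := by
  unfold sg
  rw [Pi.single_eq_same]

lemma ExpD_sg_ne {x y : P} (h : y ≠ x) : sg x y = 0 := by
  unfold sg
  rw [Pi.single_eq_of_ne h]

/-- The terms. From `Fe_cl` and `II_chi`, `II_Fe`. -/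
theorem trm_cl (H : Gr P r) {i : ℕ} (hi : i ≤ r) {z : P} (hz : lev z = i + 2) :
    trm i (cl z) = xx ^ (up i z) * dd ^ ((uc z).card + ((lv P i).card - up i z)) := by
  rw [ExpD_low (ExpD_sts_sub i z) (Fe_cl H hi hz), card_sts, pow_add]
  ring

/-- mirror image: `AU` has `dn i x` elements, `pU = (dc x).card`, `aU = 0` -/
theorem trm_cu (H : Gr P r) {i : ℕ} (hi : i ≤ r) {x : P} (hx : lev x + 2 = i) :
    trm i (cu x) = xi ^ (dc x).card * dd ^ ((dc x).card + ((lv P i).card - dn i x)) := by
  classical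
  have hxx := ExpD_cu_x x
  have hxd : ∀ y ∈ dc x, cu x y = 1 := fun y hy => ExpD_cu_dc hy
  have hx0 : ∀ y, y ≠ x → y ∉ dc x → cu x y = 0 := fun y h1 h2 => ExpD_cu_zero h1 h2
  have hlev : ∀ y ∈ dc x, lev y + 1 = i := by
    intro y hy
    have := lev_dc H hy
    omega
  have hfar : ∀ y, i ≤ lev y → cu x y = 0 := by
    intro y hy
    refine hx0 y ?_ ?_
    · rintro rfl
      omega
    · intro h
      have := hlev y h
      omega
  have hpos : ∀ y, 0 < cu x y → y = x ∨ y ∈ dc x := by
    intro y hy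
    by_contra hcon
    push Not at hcon
    rw [hx0 y hcon.1 hcon.2] at hy
    omega
  have key := ExpD_upp H (i := i) (e := cu x) (B := ∅) (C := dc x) (D := stD i x)
    (fun z hz => hfar z hz.le) (fun u hu => absurd hu (Finset.notMem_empty u))
    (fun u hu => by
      have := hlev u hu
      omega) (fun u hu => (mem_stD.1 hu).1) (Finset.empty_subset _) ?_ ?_ ?_
  · rw [key, Finset.card_empty, zero_add, Finset.sdiff_empty, card_stD]
  · intro u hu
    constructor
    · rintro ⟨y, huy, hlt⟩
      exfalso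
      have h1 := (H.covBy_iff.1 huy).2
      rcases hpos y (by omega) with rfl | h
      · rw [hxx, hxd u (mem_dc.2 huy)] at hlt
        omega
      · have := hlev y h
        omega
    · intro h
      exact absurd h (Finset.notMem_empty u)
  · intro u hu
    constructor
    · rintro ⟨z, hz, hle⟩ hud
      have h1 := (H.covBy_iff.1 hz).2
      have h2 := hlev u hud
      rw [hxd u hud, hfar z (by omega)] at hle
      omega
    · intro hud
      obtain ⟨z, hz⟩ := dc_nonempty H (x := u) (by omega)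
      refine ⟨z, mem_dc.1 hz, ?_⟩
      by_cases hux : u = x
      · subst hux
        rw [hxx, hxd z hz]
      · rw [hx0 u hux hud]
        exact Nat.zero_le _
  · intro w hw
    rw [mem_stD_iff H hx]
    constructor
    · rintro ⟨y, hwy, hlt⟩
      have h1 := (H.covBy_iff.1 hwy).2
      rcases hpos y (by omega) with rfl | h
      · omega
      · exact ⟨y, h, mem_dc.2 hwy⟩
    · rintro ⟨u, hu, hwu⟩
      refine ⟨u, mem_dc.1 hwu, ?_⟩
      rw [hxd u hu, hfar w (by omega)]
      omega

/-- from `Fe_cl_z` -/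
theorem trm_cl_z (H : Gr P r) {i : ℕ} (hi : i ≤ r) {z : P} (hz : lev z = i + 2) :
    trm i (cl z + sg z) =
      xx ^ ((uc z).card + up i z) * dd ^ (1 + ((lv P i).card - up i z)) := by
  rw [ExpD_low (ExpD_sts_sub i z) (Fe_cl_z H hi hz), card_sts, pow_add, pow_add]
  ring

/-- mirror image of `trm_cl_z`: `aU = (dc x).card`, `pU = 1` -/
theorem trm_cu_x (H : Gr P r) {i : ℕ} (hi : i ≤ r) {x : P} (hx : lev x + 2 = i) :
    trm i (cu x + sg x) = xi ^ ((dc x).card + 1) * dd ^ (1 + ((lv P i).card - dn i x)) := by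
  classical
  obtain ⟨e, he⟩ : ∃ e : P → ℕ, e = cu x + sg x := ⟨_, rfl⟩
  rw [← he]
  have hlev : ∀ y ∈ dc x, lev y + 1 = i := by
    intro y hy
    have := lev_dc H hy
    omega
  have hxn : x ∉ dc x := by
    intro h
    have := hlev x h
    omega
  have hxx : e x = 2 := by
    rw [he, Pi.add_apply, ExpD_cu_x, ExpD_sg_self]
  have hxd : ∀ y ∈ dc x, e y = 1 := by
    intro y hy
    rw [he, Pi.add_apply, ExpD_cu_dc hy, ExpD_sg_ne]
    rintro rfl
    exact hxn hy
  have hx0 : ∀ y, y ≠ x → y ∉ dc x → e y = 0 := by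
    intro y h1 h2
    rw [he, Pi.add_apply, ExpD_cu_zero h1 h2, ExpD_sg_ne h1]
  have hfar : ∀ y, i ≤ lev y → e y = 0 := by
    intro y hy
    refine hx0 y ?_ ?_
    · rintro rfl
      omega
    · intro h
      have := hlev y h
      omega
  have hpos : ∀ y, 0 < e y → y = x ∨ y ∈ dc x := by
    intro y hy
    by_contra hcon
    push Not at hcon
    rw [hx0 y hcon.1 hcon.2] at hy
    omega
  have hsd : (insert x (dc x)) \ dc x = {x} := by
    ext y
    rw [Finset.mem_sdiff, Finset.mem_insert, Finset.mem_singleton]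
    constructor
    · rintro ⟨h1 | h1, h2⟩
      · exact h1
      · exact absurd h1 h2
    · rintro rfl
      exact ⟨Or.inl rfl, hxn⟩
  have key := ExpD_upp H (i := i) (e := e) (B := dc x) (C := insert x (dc x)) (D := stD i x)
    (fun z hz => hfar z hz.le) (fun u hu => by
      have := hlev u hu
      omega)
    (fun u hu => by
      rcases Finset.mem_insert.1 hu with rfl | h
      · omega
      · have := hlev u h
        omega) (fun u hu => (mem_stD.1 hu).1) (Finset.subset_insert _ _) ?_ ?_ ?_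
  · rw [key, hsd, Finset.card_singleton, card_stD]
  · intro u hu
    constructor
    · rintro ⟨y, huy, hlt⟩
      have h1 := (H.covBy_iff.1 huy).2
      rcases hpos y (by omega) with rfl | h
      · exact mem_dc.2 huy
      · have := hlev y h
        omega
    · intro h
      refine ⟨x, mem_dc.1 h, ?_⟩
      rw [hxx, hxd u h]
      omega
  · intro u hu
    constructor
    · rintro ⟨z, hz, hle⟩ hud
      have h1 := (H.covBy_iff.1 hz).2
      rcases Finset.mem_insert.1 hud with rfl | h
      · rw [hxx, hxd z (mem_dc.2 hz)] at hle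
        omega
      · have h2 := hlev u h
        rw [hxd u h, hfar z (by omega)] at hle
        omega
    · intro hud
      rw [Finset.mem_insert, not_or] at hud
      obtain ⟨z, hz⟩ := dc_nonempty H (x := u) (by omega)
      refine ⟨z, mem_dc.1 hz, ?_⟩
      rw [hx0 u hud.1 hud.2]
      exact Nat.zero_le _
  · intro w hw
    rw [mem_stD_iff H hx]
    constructor
    · rintro ⟨y, hwy, hlt⟩
      have h1 := (H.covBy_iff.1 hwy).2
      rcases hpos y (by omega) with rfl | h
      · omega
      · exact ⟨y, h, mem_dc.2 hwy⟩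
    · rintro ⟨u, hu, hwu⟩
      refine ⟨u, mem_dc.1 hwu, ?_⟩
      rw [hxd u hu, hfar w (by omega)]
      omega

/-- from `Fe_cl_v` -/
theorem trm_cl_v (H : Gr P r) {i : ℕ} (hi : i ≤ r) {z v : P} (hz : lev z = i + 2)
    (hv : lev v = i) (hzv : z < v) (hc : ∀ w ∈ uc z, v ∈ uc w) :
    trm i (cl z + sg v) = xx ^ (up i z - 1) * dd ^ ((lv P i).card - (up i z - 1)) := by
  classical
  have h1 : ∀ S, Fe i (cl z + sg v) S = 1 * chi ((sts i z).erase v) ∅ S := by
    intro S
    rw [Fe_cl_v H hi hz hv hc S, one_mul]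
  rw [ExpD_low ((Finset.erase_subset _ _).trans (ExpD_sts_sub i z)) h1,
    Finset.card_erase_of_mem (mem_sts.2 ⟨hv, hzv⟩), card_sts, one_mul]

/-- mirror image of `trm_cl_v` -/
theorem trm_cu_v (H : Gr P r) {i : ℕ} (hi : i ≤ r) {x v : P} (hx : lev x + 2 = i)
    (hv : lev v = i) (hvx : v < x) (hc : ∀ u ∈ dc x, v ∈ dc u) :
    trm i (cu x + sg v) = dd ^ ((lv P i).card - (dn i x - 1)) := by
  classical
  obtain ⟨e, he⟩ : ∃ e : P → ℕ, e = cu x + sg v := ⟨_, rfl⟩
  rw [← he]
  have hlev : ∀ y ∈ dc x, lev y + 1 = i := by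
    intro y hy
    have := lev_dc H hy
    omega
  have hxv : x ≠ v := by
    rintro rfl
    omega
  have hvn : v ∉ dc x := by
    intro h
    have := hlev v h
    omega
  have hxx : e x = 1 := by
    rw [he, Pi.add_apply, ExpD_cu_x, ExpD_sg_ne hxv]
  have hvv : e v = 1 := by
    rw [he, Pi.add_apply, ExpD_cu_zero hxv.symm hvn, ExpD_sg_self]
  have hxd : ∀ y ∈ dc x, e y = 1 := by
    intro y hy
    rw [he, Pi.add_apply, ExpD_cu_dc hy, ExpD_sg_ne]
    rintro rfl
    exact hvn hy
  have hx0 : ∀ y, y ≠ x → y ∉ dc x → y ≠ v → e y = 0 := by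
    intro y h1 h2 h3
    rw [he, Pi.add_apply, ExpD_cu_zero h1 h2, ExpD_sg_ne h3]
  have hfar : ∀ y, i ≤ lev y → y ≠ v → e y = 0 := by
    intro y hy h3
    refine hx0 y ?_ ?_ h3
    · rintro rfl
      omega
    · intro h
      have := hlev y h
      omega
  have hpos : ∀ y, 0 < e y → y = x ∨ y ∈ dc x ∨ y = v := by
    intro y hy
    by_contra hcon
    push Not at hcon
    rw [hx0 y hcon.1 hcon.2.1 hcon.2.2] at hy
    omega
  have hle1 : ∀ y, e y ≤ 1 := by
    intro y
    rcases Nat.eq_zero_or_pos (e y) with h | h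
    · omega
    · rcases hpos y h with h1 | h1 | h1
      · rw [h1, hxx]
      · rw [hxd y h1]
      · rw [h1, hvv]
  have key := ExpD_upp H (i := i) (e := e) (B := ∅) (C := ∅) (D := (stD i x).erase v)
    (fun z hz => hfar z hz.le (by rintro rfl; omega)) (fun u hu => absurd hu (Finset.notMem_empty u))
    (fun u hu => absurd hu (Finset.notMem_empty u))
    (fun u hu => (mem_stD.1 (Finset.mem_of_mem_erase hu)).1) (Finset.empty_subset _) ?_ ?_ ?_
  · rw [key, Finset.sdiff_empty, Finset.card_empty, zero_add, zero_add, pow_zero, one_mul,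
      Finset.card_erase_of_mem (mem_stD.2 ⟨hv, hvx⟩), card_stD]
  · intro u hu
    constructor
    · rintro ⟨y, huy, hlt⟩
      exfalso
      have h1 := (H.covBy_iff.1 huy).2
      rcases hpos y (by omega) with rfl | h | rfl
      · rw [hxx, hxd u (mem_dc.2 huy)] at hlt
        omega
      · have := hlev y h
        omega
      · omega
    · intro h
      exact absurd h (Finset.notMem_empty u)
  · intro u hu
    constructor
    · intro _ hud
      exact absurd hud (Finset.notMem_empty u)
    · intro _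
      by_cases hux : u ∈ dc x
      · refine ⟨v, mem_dc.1 (hc u hux), ?_⟩
        rw [hvv]
        exact hle1 u
      · obtain ⟨z, hz⟩ := dc_nonempty H (x := u) (by omega)
        refine ⟨z, mem_dc.1 hz, ?_⟩
        by_cases hux2 : u = x
        · subst hux2
          rw [hxx, hxd z hz]
        · rw [hx0 u hux2 hux (by rintro rfl; omega)]
          exact Nat.zero_le _
  · intro w hw
    rw [Finset.mem_erase, mem_stD_iff H hx]
    constructor
    · rintro ⟨y, hwy, hlt⟩
      have h1 := (H.covBy_iff.1 hwy).2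
      have h2 := hle1 y
      refine ⟨?_, ?_⟩
      · rintro rfl
        rw [hvv] at hlt
        omega
      · rcases hpos y (by omega) with rfl | h | rfl
        · omega
        · exact ⟨y, h, mem_dc.2 hwy⟩
        · omega
    · rintro ⟨hwv, u, hu, hwu⟩
      refine ⟨u, mem_dc.1 hwu, ?_⟩
      rw [hxd u hu, hfar w (by omega) hwv]
      omega

end Pool.Agent.GaussPoset.Win
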