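import Pool.Agent.W_448win_h16.LowA

/-! Both sides at once. -/

namespace Pool.Agent.GaussPoset.Win

set_option linter.unusedSectionVars false

open Finset

universe u

variable {P : Type u} [Fintype P] [PartialOrder P] [DecidableEq P] {r : ℕ}

/-- both sides at once: `z` with one upper cover `w`, `x` with one lower cover `u`. The lower data are those of
`cl z`, the upper data those of `cu x`. -/
theorem Fe_cl_cu (H : Gr P r) {i : ℕ} (hi : i ≤ r) {z x : P} (hz : lev z = i + 2)
    (hx : lev x + 2 = i) (S : Finset P) :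
    Fe i (cl z + cu x) S =
      xi ^ (dc x).card * dd ^ ((uc z).card + (dc x).card) * chi (sts i z) (stD i x) S := by
  classical
  obtain ⟨e, he⟩ : ∃ e : P → ℕ, e = cl z + cu x := ⟨_, rfl⟩
  rw [← he]
  -- the labels
  have hez : e z = 1 := by
    rw [he, Pi.add_apply]
    unfold cl cu
    have h1 : ¬ (z = x ∨ z ∈ dc x) := by
      rintro (h | h)
      · rw [h] at hz; omega
      · have := lev_dc H h; omega
    rw [if_pos (Or.inl rfl), if_neg h1]
  have heu : ∀ y ∈ uc z, e y = 1 := by
    intro y hy
    have h2 := lev_uc H hy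
    rw [he, Pi.add_apply]
    unfold cl cu
    have h1 : ¬ (y = x ∨ y ∈ dc x) := by
      rintro (h | h)
      · rw [h] at h2; omega
      · have := lev_dc H h; omega
    rw [if_pos (Or.inr hy), if_neg h1]
  have hex : e x = 1 := by
    rw [he, Pi.add_apply]
    unfold cl cu
    have h1 : ¬ (x = z ∨ x ∈ uc z) := by
      rintro (h | h)
      · rw [h] at hx; omega
      · have := lev_uc H h; omega
    rw [if_neg h1, if_pos (Or.inl rfl)]
  have hed : ∀ y ∈ dc x, e y = 1 := by
    intro y hy
    have h2 := lev_dc H hy
    rw [he, Pi.add_apply]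
    unfold cl cu
    have h1 : ¬ (y = z ∨ y ∈ uc z) := by
      rintro (h | h)
      · rw [h] at h2; omega
      · have := lev_uc H h; omega
    rw [if_neg h1, if_pos (Or.inr hy)]
  have hle : ∀ y, e y ≤ 1 := by
    intro y
    by_cases h1 : y = z ∨ y ∈ uc z
    · rcases h1 with h1 | h1
      · rw [h1, hez]
      · rw [heu y h1]
    · rw [he, Pi.add_apply]
      unfold cl cu
      rw [if_neg h1]
      split_ifs <;> norm_num
  have hcl : ∀ y, 0 < e y → i < lev y → y = z ∨ y ∈ uc z := by
    intro y h1 h2
    by_contra hcon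
    rw [he, Pi.add_apply] at h1
    unfold cl cu at h1
    rw [if_neg hcon, zero_add] at h1
    split_ifs at h1 with h3
    · rcases h3 with h3 | h3
      · rw [h3] at h2; omega
      · have := lev_dc H h3; omega
    · omega
  have hcu : ∀ y, 0 < e y → lev y < i → y = x ∨ y ∈ dc x := by
    intro y h1 h2
    by_contra hcon
    rw [he, Pi.add_apply] at h1
    unfold cl cu at h1
    rw [if_neg hcon, add_zero] at h1
    split_ifs at h1 with h3
    · rcases h3 with h3 | h3
      · rw [h3] at h2; omega
      · have := lev_uc H h3; omega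
    · omega
  have hsite : ∀ y, lev y = i → e y = 0 := by
    intro y hy
    rw [he, Pi.add_apply]
    unfold cl cu
    have h1 : ¬ (y = z ∨ y ∈ uc z) := by
      rintro (h | h)
      · rw [h] at hy; omega
      · have := lev_uc H h; omega
    have h2 : ¬ (y = x ∨ y ∈ dc x) := by
      rintro (h | h)
      · rw [h] at hy; omega
      · have := lev_dc H h; omega
    rw [if_neg h1, if_neg h2]
  -- lower part
  have hFD : ∀ y : P, i < lev y → ¬ FD e y := by
    rintro y hy ⟨z', h1, h2⟩
    have h3 := (H.covBy_iff.1 h1).2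
    have h4 := hle z'
    rcases hcl z' (by omega) (by omega) with h5 | h5
    · rw [h5] at h1
      have h6 := heu y (mem_uc.2 h1)
      omega
    · have h6 := lev_uc H h5
      omega
  have hFU : ∀ y : P, lev y < i → ¬ FU e y := by
    rintro y hy ⟨t, h1, h2⟩
    have h3 := (H.covBy_iff.1 h1).2
    have h4 := hle t
    rcases hcu t (by omega) (by omega) with h5 | h5
    · rw [h5] at h1
      have h6 := hed y (mem_dc.2 h1)
      omega
    · have h6 := lev_dc H h5
      omega
  have hAL : AL i e = sts i z := by
    ext v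
    rw [mem_sts_iff H hz]
    unfold AL
    rw [Finset.mem_filter, mem_lv]
    constructor
    · rintro ⟨hv, z', h1, h2⟩
      have h3 := (H.covBy_iff.1 h1).2
      rcases hcl z' (by omega) (by omega) with h5 | h5
      · rw [h5] at h3; omega
      · exact ⟨z', h5, mem_uc.2 h1⟩
    · rintro ⟨w, hw, hv⟩
      have h2 := lev_uc H hw
      have h3 := lev_uc H hv
      refine ⟨by omega, w, mem_uc.1 hv, ?_⟩
      rw [hsite v (by omega), heu w hw]
      norm_num
  have hAU : AU i e = stD i x := by
    ext v
    rw [mem_stD_iff H hx]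
    unfold AU
    rw [Finset.mem_filter, mem_lv]
    constructor
    · rintro ⟨hv, t, h1, h2⟩
      have h3 := (H.covBy_iff.1 h1).2
      rcases hcu t (by omega) (by omega) with h5 | h5
      · rw [h5] at h3; omega
      · exact ⟨t, h5, mem_dc.2 h1⟩
    · rintro ⟨w, hw, hv⟩
      have h2 := lev_dc H hw
      have h3 := lev_dc H hv
      refine ⟨by omega, w, mem_dc.1 hv, ?_⟩
      rw [hsite v (by omega), hed w hw]
      norm_num
  have haL : aL i e = 0 := by
    unfold aL
    rw [Finset.card_eq_zero, Finset.filter_eq_empty_iff]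
    rintro y _ ⟨h1, h2⟩
    exact hFD y h1 h2
  have haU : aU i e = 0 := by
    unfold aU
    rw [Finset.card_eq_zero, Finset.filter_eq_empty_iff]
    rintro y _ ⟨h1, h2⟩
    exact hFU y h1 h2
  have hpL : pL i e = (uc z).card := by
    unfold pL
    congr 1
    ext y
    rw [Finset.mem_filter]
    constructor
    · rintro ⟨_, h1, _, h3⟩
      obtain ⟨t, ht⟩ := uc_nonempty H (x := y) (by omega)
      have h4 : 0 < e y := by
        by_contra hcon
        exact h3 ⟨t, mem_uc.1 ht, by omega⟩
      rcases hcl y h4 h1 with h5 | h5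
      · exfalso
        apply h3
        refine ⟨t, mem_uc.1 ht, ?_⟩
        rw [h5] at ht ⊢
        rw [hez, heu t ht]
      · exact h5
    · intro hy
      have h2 := lev_uc H hy
      refine ⟨mem_univ _, by omega, hFD y (by omega), ?_⟩
      rintro ⟨t, ht, h3⟩
      have h4 := (H.covBy_iff.1 ht).2
      rw [hsite t (by omega), heu y hy] at h3
      omega
  have hpU : pU i e = (dc x).card := by
    unfold pU
    congr 1
    ext y
    rw [Finset.mem_filter]
    constructor
    · rintro ⟨_, h1, _, h3⟩
      obtain ⟨t, ht⟩ := dc_nonempty H (x := y) (by omega)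
      have h4 : 0 < e y := by
        by_contra hcon
        exact h3 ⟨t, mem_dc.1 ht, by omega⟩
      rcases hcu y h4 h1 with h5 | h5
      · exfalso
        apply h3
        refine ⟨t, mem_dc.1 ht, ?_⟩
        rw [h5] at ht ⊢
        rw [hex, hed t ht]
      · exact h5
    · intro hy
      have h2 := lev_dc H hy
      refine ⟨mem_univ _, by omega, hFU y (by omega), ?_⟩
      rintro ⟨t, ht, h3⟩
      have h4 := (H.covBy_iff.1 ht).2
      rw [hsite t (by omega), hed y hy] at h3
      omega
  have hadm : AdmL i e ∧ AdmU i e :=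
    ⟨fun y hy h => hFD y hy h.1, fun y hy h => hFU y hy h.1⟩
  unfold Fe cw
  rw [if_pos hadm, hAL, hAU, haL, haU, hpL, hpU, pow_zero, one_mul, zero_add]

end Pool.Agent.GaussPoset.Win
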