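import Pool.Agent.W_448win_h16.LowB

/-! One touched element on each side. -/

namespace Pool.Agent.GaussPoset.Win

set_option linter.unusedSectionVars false

open Finset

universe u

variable {P : Type u} [Fintype P] [PartialOrder P] [DecidableEq P] {r : ℕ}

lemma LowE_sum_cl (H : Gr P r) {z : P} (h : (uc z).card = 1) : ∑ y, cl z y = 2 := by
  classical
  have h1 : z ∉ uc z := by
    intro hz
    have := lev_uc H hz
    omega
  have h2 : ∑ y, cl z y = ((insert z (uc z) : Finset P)).card := by
    unfold cl
    rw [Finset.card_eq_sum_ones, ← Finset.sum_filter]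
    apply Finset.sum_congr _ (fun _ _ => rfl)
    ext y
    simp
  rw [h2, Finset.card_insert_of_notMem h1, h]

lemma LowE_sum_cu (H : Gr P r) {x : P} (h : (dc x).card = 1) : ∑ y, cu x y = 2 := by
  classical
  have h1 : x ∉ dc x := by
    intro hz
    have := lev_dc H hz
    omega
  have h2 : ∑ y, cu x y = ((insert x (dc x) : Finset P)).card := by
    unfold cu
    rw [Finset.card_eq_sum_ones, ← Finset.sum_filter]
    apply Finset.sum_congr _ (fun _ _ => rfl)
    ext y
    simp
  rw [h2, Finset.card_insert_of_notMem h1, h]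

/-- One touched lower near element, one touched upper near element, energy four: then `e` is one
on `z`, its only upper cover `w`, `x` and its only lower cover `u`. (`energy_bound`, `pos_up`, `pos_dn`: the far
elements are at level `i + 2`, `i - 2`.) -/
theorem one_one (H : Gr P r) {i : ℕ} (hi : i ≤ r) {e : P → ℕ} (hA : AdmL i e) (hB : AdmU i e)
    (hT : (TL i e).Nonempty) (hU : (TU i e).Nonempty) (hn : ∑ x, e x ≤ 4) :
    ∃ z x, lev z = i + 2 ∧ lev x + 2 = i ∧ (uc z).card = 1 ∧ (dc x).card = 1 ∧
      e = cl z + cu x := by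
  have hE := energy_bound H hi hA hB
  have b1 := card_TL_le H (i := i) e
  have b2 := card_TU_le H (i := i) e
  have p1 := Finset.card_pos.2 hT
  have p2 := Finset.card_pos.2 hU
  have c1 : (TL i e).card = 1 := by omega
  have c2 : (TU i e).card = 1 := by omega
  have c3 : (LF i e).card = 1 := by omega
  have c4 : (UF i e).card = 1 := by omega
  obtain ⟨w, hw⟩ := Finset.card_eq_one.1 c1
  obtain ⟨u, hu⟩ := Finset.card_eq_one.1 c2
  obtain ⟨z, hz⟩ := Finset.card_eq_one.1 c3
  obtain ⟨x, hx⟩ := Finset.card_eq_one.1 c4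
  have hwT : w ∈ TL i e := by rw [hw]; exact mem_singleton_self w
  have huT : u ∈ TU i e := by rw [hu]; exact mem_singleton_self u
  have hzL : z ∈ LF i e := by rw [hz]; exact mem_singleton_self z
  have hxU : x ∈ UF i e := by rw [hx]; exact mem_singleton_self x
  have ez := (LowB_LF.1 hzL).2
  have ex := (LowB_UF.1 hxU).2
  have hwz : z ⋖ w := by
    obtain ⟨h1, z', hz', he'⟩ := LowB_TL.1 hwT
    have h2 := (H.covBy_iff.1 hz').2
    have h3 : z' ∈ LF i e := LowB_LF.2 ⟨by omega, he'⟩
    rw [hz, mem_singleton] at h3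
    rw [← h3]; exact hz'
  have hux : u ⋖ x := by
    obtain ⟨h1, x', hx', he'⟩ := LowB_TU.1 huT
    have h2 := (H.covBy_iff.1 hx').2
    have h3 : x' ∈ UF i e := LowB_UF.2 ⟨by omega, he'⟩
    rw [hx, mem_singleton] at h3
    rw [← h3]; exact hx'
  have lw := (LowB_TL.1 hwT).1
  have lu := (LowB_TU.1 huT).1
  have lz := (H.covBy_iff.1 hwz).2
  have lx := (H.covBy_iff.1 hux).2
  have huc : uc z = {w} := by
    ext y
    rw [mem_uc, mem_singleton]
    constructor
    · intro hy
      have h2 := (H.covBy_iff.1 hy).2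
      have h3 : y ∈ TL i e := LowB_TL.2 ⟨by omega, z, hy, ez⟩
      rw [hw, mem_singleton] at h3
      exact h3
    · rintro rfl
      exact hwz
  have hdc : dc x = {u} := by
    ext y
    rw [mem_dc, mem_singleton]
    constructor
    · intro hy
      have h2 := (H.covBy_iff.1 hy).2
      have h3 : y ∈ TU i e := LowB_TU.2 ⟨by omega, x, hy, ex⟩
      rw [hu, mem_singleton] at h3
      exact h3
    · rintro rfl
      exact hux
  have k1 : (uc z).card = 1 := by rw [huc]; simp
  have k2 : (dc x).card = 1 := by rw [hdc]; simp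
  refine ⟨z, x, by omega, by omega, k1, k2, ?_⟩
  have hle : ∀ y ∈ (univ : Finset P), (cl z + cu x) y ≤ e y := by
    intro y _
    rw [Pi.add_apply]
    unfold cl cu
    simp only [huc, hdc, mem_singleton]
    by_cases h1 : y = z ∨ y = w
    · have h2 : ¬ (y = x ∨ y = u) := by
        rcases h1 with rfl | rfl <;> rintro (rfl | rfl) <;> omega
      rw [if_pos h1, if_neg h2, add_zero]
      rcases h1 with rfl | rfl
      · exact ez
      · exact LowB_TL_pos H hA hwT
    · rw [if_neg h1, zero_add]
      by_cases h2 : y = x ∨ y = u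
      · rw [if_pos h2]
        rcases h2 with rfl | rfl
        · exact ex
        · exact LowB_TU_pos H hi hB huT
      · rw [if_neg h2]; exact Nat.zero_le _
  have hsum : ∑ y, (cl z + cu x) y = 4 := by
    simp only [Pi.add_apply]
    rw [Finset.sum_add_distrib, LowE_sum_cl H k1, LowE_sum_cu H k2]
  have hge : ∑ y, (cl z + cu x) y = ∑ y, e y :=
    le_antisymm (Finset.sum_le_sum hle) (by omega)
  have := (Finset.sum_eq_sum_iff_of_le hle).1 hge
  funext y
  exact (this y (mem_univ y)).symm

end Pool.Agent.GaussPoset.Win
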