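import Pool.Agent.W_448win_h16.ClA
import Pool.Agent.W_448win_h16.ExpE
import Pool.Agent.W_448win_h16.LowE

/-! Both sides touched. -/

namespace Pool.Agent.GaussPoset.Win

set_option linter.unusedSectionVars false

open Finset

universe u

variable {P : Type u} [Fintype P] [PartialOrder P] [DecidableEq P] {r : ℕ}

lemma ClE_sts (H : Gr P r) {i : ℕ} {z w : P} (hz : lev z = i + 2) (hw : uc z = {w}) :
    sts i z = uc w := by
  ext v
  rw [mem_sts_iff H hz, hw]
  constructor
  · rintro ⟨w', h1, h2⟩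
    rw [mem_singleton] at h1
    rw [← h1]; exact h2
  · intro h
    exact ⟨w, mem_singleton_self w, h⟩

lemma ClE_stD (H : Gr P r) {i : ℕ} {x u : P} (hx : lev x + 2 = i) (hu : dc x = {u}) :
    stD i x = dc u := by
  ext v
  rw [mem_stD_iff H hx, hu]
  constructor
  · rintro ⟨w', h1, h2⟩
    rw [mem_singleton] at h1
    rw [← h1]; exact h2
  · intro h
    exact ⟨u, mem_singleton_self u, h⟩

lemma ClE_chi_zero {B C : Finset P} (h : ¬ Disjoint B C) (S : Finset P) : chi B C S = 0 := by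
  unfold chi
  rw [if_neg]
  rintro ⟨h1, h2⟩
  apply h
  rw [Finset.disjoint_left] at h2 ⊢
  intro v hv hv2
  exact h2 hv2 (h1 hv)

/-- Both sides touched, energy at most four: `one_one` gives `e = cl z + cu x`; `Fe_cl_cu`:
`dd ^ 2` times `chi (sts i z) (stD i x)` (`(uc z).card = (dc x).card = 1`), which is cheap unless
both have two elements and are disjoint. -/
theorem cls4_both (H : Gr P r) {i : ℕ} (hi : 1 ≤ i) (hi2 : i + 1 ≤ r) {e : P → ℕ}
    (hn : ∑ x, e x ≤ 4) (h1 : TL i e ≠ ∅) (h2 : TU i e ≠ ∅) :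
    Rk (lv P i) 1 (Fe i e) ∨ (∃ z ∈ PD P i, ∃ x ∈ PU P i, e = cl z + cu x ∧
      Disjoint (sts i z) (stD i x)) := by
  classical
  by_cases hadm : AdmL i e ∧ AdmU i e
  swap
  · exact Or.inl (Rk_of_not_adm hadm 1)
  obtain ⟨z, x, hz, hx, huz, hdx, he⟩ := one_one H (by omega) hadm.1 hadm.2
    (Finset.nonempty_iff_ne_empty.2 h1) (Finset.nonempty_iff_ne_empty.2 h2) hn
  have hF : ∀ S : Finset P, Fe i e S = (xi ^ 1 * dd ^ 2) * chi (sts i z) (stD i x) S := by
    intro S
    rw [he, Fe_cl_cu H (by omega) hz hx S, huz, hdx]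
  by_cases hd : Disjoint (sts i z) (stD i x)
  swap
  · left
    refine Rk_congr (f := fun _ => 0) ?_ (Rk_zero _ _)
    intro S _
    rw [hF S, ClE_chi_zero hd, mul_zero]
  obtain ⟨w, hw⟩ := Finset.card_eq_one.1 huz
  obtain ⟨u, hu⟩ := Finset.card_eq_one.1 hdx
  have hs := ClE_sts H hz hw
  have ht := ClE_stD H hx hu
  have hwz : z ⋖ w := mem_uc.1 (by rw [hw]; exact mem_singleton_self w)
  have hux : u ⋖ x := mem_dc.1 (by rw [hu]; exact mem_singleton_self u)
  have c1 : (sts i z).card ≤ 2 := by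
    rw [hs]; exact uc_card_le H w
  have c2 : (stD i x).card ≤ 2 := by
    rw [ht]; exact dc_card_le H u
  by_cases hc : (sts i z).card = 2 ∧ (stD i x).card = 2
  · right
    refine ⟨z, ?_, x, ?_, he, hd⟩
    · unfold PD
      rw [Finset.mem_filter]
      exact ⟨mem_univ _, hz, huz, w, hwz, by rw [← hs]; exact hc.1⟩
    · unfold PU
      rw [Finset.mem_filter]
      exact ⟨mem_univ _, hx, hdx, u, hux, by rw [← ht]; exact hc.2⟩
  · left
    refine Rk_congr (f := fun S => (xi ^ 1 * dd ^ 2) * chi (sts i z) (stD i x) S) ?_ ?_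
    · intro S _
      exact (hF S).symm
    · refine Rk_chi (p := 2) ?_ ?_ ?_ (Dvd.intro_left _ rfl)
      · intro v hv
        exact mem_lv.2 (mem_sts.1 hv).1
      · intro v hv
        exact mem_lv.2 (mem_stD.1 hv).1
      · omega

end Pool.Agent.GaussPoset.Win
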