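import Pool.Agent.W_448win_h16.LowA

/-! Counting positive labels. -/

namespace Pool.Agent.GaussPoset.Win

set_option linter.unusedSectionVars false

open Finset

universe u

variable {P : Type u} [Fintype P] [PartialOrder P] [DecidableEq P] {r : ℕ}

lemma LowB_TL {i : ℕ} {e : P → ℕ} {x : P} :
    x ∈ TL i e ↔ lev x = i + 1 ∧ ∃ z, z ⋖ x ∧ 0 < e z := by
  classical
  unfold TL; simp

lemma LowB_TU {i : ℕ} {e : P → ℕ} {x : P} :
    x ∈ TU i e ↔ lev x + 1 = i ∧ ∃ y, x ⋖ y ∧ 0 < e y := by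
  classical
  unfold TU; simp

lemma LowB_LF {i : ℕ} {e : P → ℕ} {x : P} : x ∈ LF i e ↔ i + 2 ≤ lev x ∧ 0 < e x := by
  classical
  unfold LF; simp

lemma LowB_UF {i : ℕ} {e : P → ℕ} {x : P} : x ∈ UF i e ↔ lev x + 2 ≤ i ∧ 0 < e x := by
  classical
  unfold UF; simp

lemma LowB_TL_pos (H : Gr P r) {i : ℕ} {e : P → ℕ} (hA : AdmL i e) {x : P} (hx : x ∈ TL i e) :
    0 < e x := by
  obtain ⟨h1, z, hz, he⟩ := LowB_TL.1 hx
  have h2 := (H.covBy_iff.1 hz).2
  exact pos_up H hA (by omega) he hz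

lemma LowB_TU_pos (H : Gr P r) {i : ℕ} (hi : i ≤ r) {e : P → ℕ} (hB : AdmU i e) {x : P}
    (hx : x ∈ TU i e) : 0 < e x := by
  obtain ⟨h1, y, hy, he⟩ := LowB_TU.1 hx
  have h2 := (H.covBy_iff.1 hy).2
  exact pos_dn H hi hB (by omega) he hy

/-- The four sets are disjoint (levels; `TL` has level `i+1`, `TU` level `i-1`) and consist of elements with positive
label (`pos_up`, `pos_dn` for `TL`, `TU`). -/
theorem energy_bound (H : Gr P r) {i : ℕ} (hi : i ≤ r) {e : P → ℕ} (hA : AdmL i e)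
    (hB : AdmU i e) :
    (TL i e).card + (TU i e).card + (LF i e).card + (UF i e).card ≤ ∑ x, e x := by
  have d1 : Disjoint (TL i e) (TU i e) := by
    rw [Finset.disjoint_left]
    intro x h1 h2
    rw [LowB_TL] at h1
    rw [LowB_TU] at h2
    omega
  have d2 : Disjoint (TL i e ∪ TU i e) (LF i e) := by
    rw [Finset.disjoint_left]
    intro x h1 h2
    rw [Finset.mem_union, LowB_TL, LowB_TU] at h1
    rw [LowB_LF] at h2
    omega
  have d3 : Disjoint (TL i e ∪ TU i e ∪ LF i e) (UF i e) := by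
    rw [Finset.disjoint_left]
    intro x h1 h2
    rw [Finset.mem_union, Finset.mem_union, LowB_TL, LowB_TU, LowB_LF] at h1
    rw [LowB_UF] at h2
    omega
  rw [← Finset.card_union_of_disjoint d1, ← Finset.card_union_of_disjoint d2,
    ← Finset.card_union_of_disjoint d3]
  calc (TL i e ∪ TU i e ∪ LF i e ∪ UF i e).card
      = ∑ x ∈ (TL i e ∪ TU i e ∪ LF i e ∪ UF i e), 1 := by simp
    _ ≤ ∑ x ∈ (TL i e ∪ TU i e ∪ LF i e ∪ UF i e), e x := by
        apply Finset.sum_le_sum
        intro x hx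
        rw [Finset.mem_union, Finset.mem_union, Finset.mem_union] at hx
        rcases hx with ((hx | hx) | hx) | hx
        · exact LowB_TL_pos H hA hx
        · exact LowB_TU_pos H hi hB hx
        · exact (LowB_LF.1 hx).2
        · exact (LowB_UF.1 hx).2
    _ ≤ ∑ x, e x := Finset.sum_le_sum_of_subset (Finset.subset_univ _)

/-- every element of `TL` is an upper cover of an element of `LF` (of level `i + 2`), and these have
at most two upper covers (`uc_card_le`): `Finset.card_biUnion_le` -/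
theorem card_TL_le (H : Gr P r) {i : ℕ} (e : P → ℕ) : (TL i e).card ≤ 2 * (LF i e).card := by
  have h1 : TL i e ⊆ (LF i e).biUnion uc := by
    intro x hx
    obtain ⟨h1, z, hz, he⟩ := LowB_TL.1 hx
    have h2 := (H.covBy_iff.1 hz).2
    rw [Finset.mem_biUnion]
    exact ⟨z, LowB_LF.2 ⟨by omega, he⟩, mem_uc.2 hz⟩
  calc (TL i e).card ≤ ((LF i e).biUnion uc).card := Finset.card_le_card h1
    _ ≤ (LF i e).card * 2 := Finset.card_biUnion_le_card_mul _ _ _ (fun z _ => uc_card_le H z)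
    _ = 2 * (LF i e).card := mul_comm _ _

/-- mirror image of `card_TL_le` -/
theorem card_TU_le (H : Gr P r) {i : ℕ} (e : P → ℕ) : (TU i e).card ≤ 2 * (UF i e).card := by
  have h1 : TU i e ⊆ (UF i e).biUnion dc := by
    intro x hx
    obtain ⟨h1, y, hy, he⟩ := LowB_TU.1 hx
    have h2 := (H.covBy_iff.1 hy).2
    rw [Finset.mem_biUnion]
    exact ⟨y, LowB_UF.2 ⟨by omega, he⟩, mem_dc.2 hy⟩
  calc (TU i e).card ≤ ((UF i e).biUnion dc).card := Finset.card_le_card h1
    _ ≤ (UF i e).card * 2 := Finset.card_biUnion_le_card_mul _ _ _ (fun z _ => dc_card_le H z)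
    _ = 2 * (UF i e).card := mul_comm _ _

end Pool.Agent.GaussPoset.Win
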