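import Pool.Agent.W_448win_h16.Defs

/-! Cover version of the sum over valid filters. -/

namespace Pool.Agent.GaussPoset.Win

set_option linter.unusedSectionVars false

open Finset

universe u

variable {P : Type u} [Fintype P] [PartialOrder P] [DecidableEq P] {r : ℕ}

/-- cover version of `FI` -/
def FIc (i : ℕ) (e : P → ℕ) (x : P) : Prop := rho i e x < 0 ∨ ∃ z, z ⋖ x ∧ rho i e x < rho i e z

/-- cover version of `FA` -/
def FAc (i : ℕ) (e : P → ℕ) (x : P) : Prop := ∃ y, x ⋖ y ∧ rho i e x ≤ rho i e y

lemma normb_exists_cov {x y : P} (h : x < y) : ∃ z, x ⋖ z ∧ z ≤ y := by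
  classical
  have hne : (univ.filter (fun z : P => x < z ∧ z ≤ y)).Nonempty :=
    ⟨y, by simp [h]⟩
  obtain ⟨z, hz⟩ := Finset.exists_minimal hne
  have hz1 : x < z ∧ z ≤ y := (mem_filter.mp hz.1).2
  refine ⟨z, ⟨hz1.1, fun c hc1 hc2 => ?_⟩, hz1.2⟩
  have h2 := hz.2 (y := c) (mem_filter.mpr ⟨mem_univ c, hc1, hc2.le.trans hz1.2⟩) hc2.le
  exact absurd h2 (not_le_of_gt hc2)

/-- induction along covers from above -/
lemma normb_induct {y : P} {C : P → Prop} (h0 : C y)
    (h1 : ∀ x z, x ⋖ z → z ≤ y → C z → C x) : ∀ x, x ≤ y → C x := by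
  classical
  have key : ∀ n : ℕ, ∀ x, x ≤ y → (univ.filter (fun z : P => x < z ∧ z ≤ y)).card = n → C x := by
    intro n
    induction n using Nat.strong_induction_on with
    | _ n ih =>
      intro x hx hn
      rcases eq_or_lt_of_le hx with h | h
      · rw [h]; exact h0
      · obtain ⟨z, hz, hzy⟩ := normb_exists_cov h
        refine h1 x z hz hzy (ih _ ?_ z hzy rfl)
        rw [← hn]
        apply Finset.card_lt_card
        rw [Finset.ssubset_iff_of_subset]
        · exact ⟨z, by simp [hz.lt, hzy], by simp⟩
        · intro c hc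
          simp only [mem_filter, mem_univ, true_and] at hc ⊢
          exact ⟨hz.lt.trans hc.1, hc.2⟩
  exact fun x hx => key _ x hx rfl

/-- the sum over the finsets containing `I` and avoiding `A` -/
lemma normb_sum (I A : P → Prop) [DecidablePred I] [DecidablePred A]
    [∀ F : Finset P, Decidable ((∀ x, I x → x ∈ F) ∧ (∀ x, A x → x ∉ F))]
    [Decidable (∀ x, ¬ (I x ∧ A x))] :
    ∑ F : Finset P, (if (∀ x, I x → x ∈ F) ∧ (∀ x, A x → x ∉ F) then
        (Polynomial.X : Polynomial ℤ) ^ F.card else 0) =
      if (∀ x, ¬ (I x ∧ A x)) then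
        Polynomial.X ^ (univ.filter (fun x => I x)).card *
          (1 + Polynomial.X) ^ (univ.filter (fun x => ¬ I x ∧ ¬ A x)).card
      else 0 := by
  set Q : Finset P := univ.filter (fun x => ¬ I x ∧ ¬ A x) with hQ
  by_cases hA : ∀ x, ¬ (I x ∧ A x)
  · rw [if_pos hA, ← Finset.sum_filter]
    have h1 : ((1 : Polynomial ℤ) + Polynomial.X) ^ Q.card =
        ∑ S ∈ Q.powerset, Polynomial.X ^ S.card := by
      rw [add_comm, ← Finset.sum_pow_mul_eq_add_pow]
      simp
    rw [h1, Finset.mul_sum]
    symm
    refine Finset.sum_bij (fun S _ => (univ.filter (fun x => I x)) ∪ S) ?_ ?_ ?_ ?_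
    · intro S hS
      rw [mem_powerset] at hS
      rw [mem_filter]
      refine ⟨mem_univ _, ?_, ?_⟩
      · intro x hx
        simp [hx]
      · intro x hx hmem
        rw [mem_union] at hmem
        rcases hmem with hmem | hmem
        · simp only [mem_filter, mem_univ, true_and] at hmem
          exact hA x ⟨hmem, hx⟩
        · have := hS hmem
          simp only [hQ, mem_filter, mem_univ, true_and] at this
          exact this.2 hx
    · intro S hS T hT hST
      rw [mem_powerset] at hS hT
      have aux : ∀ S ⊆ Q, S = ((univ.filter (fun x => I x)) ∪ S) ∩ Q := by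
        intro S hS
        ext x
        rw [mem_inter, mem_union]
        constructor
        · intro hx; exact ⟨Or.inr hx, hS hx⟩
        · rintro ⟨h | h, hp⟩
          · simp only [mem_filter, mem_univ, true_and] at h
            simp only [hQ, mem_filter, mem_univ, true_and] at hp
            exact absurd h hp.1
          · exact h
      rw [aux S hS, aux T hT, hST]
    · intro F hF
      rw [mem_filter] at hF
      obtain ⟨-, h1, h2⟩ := hF
      refine ⟨F ∩ Q, ?_, ?_⟩
      · rw [mem_powerset]; exact inter_subset_right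
      · ext x
        rw [mem_union, mem_inter]
        simp only [mem_filter, mem_univ, true_and, hQ]
        constructor
        · rintro (h | h)
          · exact h1 x h
          · exact h.1
        · intro hx
          by_cases hfi : I x
          · exact Or.inl hfi
          · exact Or.inr ⟨hx, hfi, fun hfa => h2 x hfa hx⟩
    · intro S hS
      rw [mem_powerset] at hS
      rw [card_union_of_disjoint, pow_add]
      rw [Finset.disjoint_left]
      intro x hx hxS
      have := hS hxS
      simp only [hQ, mem_filter, mem_univ, true_and] at this hx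
      exact this.1 hx
  · rw [if_neg hA]
    apply Finset.sum_eq_zero
    intro F _
    rw [if_neg]
    intro hV
    push Not at hA
    obtain ⟨x, hx1, hx2⟩ := hA
    exact hV.2 x hx2 (hV.1 x hx1)

/-- Valid filters in terms of covers. `→`: direct from `Vd` (a cover is a strict inequality).
`←`: if `FIc` elements are in `F` and `FAc` elements are not, then for `x ⋖ y`, `x ∈ F`:
`x` is not `FAc` so `rho y < rho x`, so `y` is `FIc`, so `y ∈ F`; for `x ⋖ y`, `y ∉ F`: `y` is not
`FIc`, so `rho x ≤ rho y`. Extend along chains of covers (finite poset, induction on the number of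
elements between). -/
theorem vd_iff_cov (i : ℕ) (e : P → ℕ) (F : Finset P) :
    Vd i e F ↔ (∀ x, FIc i e x → x ∈ F) ∧ (∀ x, FAc i e x → x ∉ F) := by
  constructor
  · rintro ⟨h1, h2, h3, h4⟩
    constructor
    · rintro x (hx | ⟨z, hz, hzx⟩)
      · by_contra hF
        exact absurd (h2 x hF) (not_le.mpr hx)
      · by_contra hF
        have hzF : z ∉ F := fun h => hF (h1 z x hz.lt.le h)
        exact absurd (h3 z x hz.lt.le hzF hF) (not_le.mpr hzx)
    · rintro x ⟨y, hy, hxy⟩ hF
      have hyF := h1 x y hy.lt.le hF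
      exact absurd (h4 x y hy.lt hF hyF) (not_lt.mpr hxy)
  · rintro ⟨h1, h2⟩
    have hdown : ∀ x y, x ⋖ y → x ∈ F → rho i e y < rho i e x := by
      intro x y hxy hx
      by_contra hcon
      exact h2 x ⟨y, hxy, not_lt.mp hcon⟩ hx
    have hup : ∀ x y, x ⋖ y → x ∈ F → y ∈ F := fun x y hxy hx =>
      h1 y (Or.inr ⟨x, hxy, hdown x y hxy hx⟩)
    have hfil : ∀ x y, x ≤ y → x ∈ F → y ∈ F := by
      intro x y hxy
      refine normb_induct (C := fun x => x ∈ F → y ∈ F) id ?_ x hxy
      intro a z haz _ hz ha
      exact hz (hup a z haz ha)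
    refine ⟨hfil, ?_, ?_, ?_⟩
    · intro x hx
      by_contra hcon
      exact hx (h1 x (Or.inl (not_le.mp hcon)))
    · intro x y hxy hx hy
      refine normb_induct (C := fun x => rho i e x ≤ rho i e y) le_rfl ?_ x hxy
      intro a z haz hzy hz
      refine le_trans ?_ hz
      by_contra hcon
      exact hy (hfil z y hzy (h1 z (Or.inr ⟨a, haz, not_le.mp hcon⟩)))
    · have hle : ∀ x y, x ≤ y → x ∈ F → rho i e y ≤ rho i e x := by
        intro x y hxy
        refine normb_induct (C := fun x => x ∈ F → rho i e y ≤ rho i e x) (fun _ => le_rfl) ?_ x hxy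
        intro a z haz _ hz ha
        exact (hz (hup a z haz ha)).trans (hdown a z haz ha).le
      intro x y hxy hx _
      obtain ⟨z, hz, hzy⟩ := normb_exists_cov hxy
      exact lt_of_le_of_lt (hle z y hzy (hup x z hz hx)) (hdown x z hz hx)

open Classical in
/-- The sum over valid filters, cover version; same proof as `sum_vd` (Excess.lean) with
`vd_iff_cov` in place of `vd_iff`. -/
theorem sum_vd_cov (i : ℕ) (e : P → ℕ) :
    ∑ F : Finset P, (if Vd i e F then (Polynomial.X : Polynomial ℤ) ^ F.card else 0) =
      if (∀ x, ¬ (FIc i e x ∧ FAc i e x)) then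
        Polynomial.X ^ (univ.filter (fun x => FIc i e x)).card *
          (1 + Polynomial.X) ^ (univ.filter (fun x => ¬ FIc i e x ∧ ¬ FAc i e x)).card
      else 0 := by
  rw [← normb_sum (FIc i e) (FAc i e)]
  refine Finset.sum_congr rfl fun F _ => ?_
  simp only [vd_iff_cov]

end Pool.Agent.GaussPoset.Win
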