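import Pool.Agent.W_448win_h16.EtH

/-! The identities (22) and (21). -/

namespace Pool.Agent.GaussPoset.Win

set_option linter.unusedSectionVars false

open Finset

universe u

variable {P : Type u} [Fintype P] [PartialOrder P] [DecidableEq P] {r : ℕ}

/-- if the level has at most one element nothing is double -/
theorem small_level (H : Gr P r) {i : ℕ} (hb : (lv P i).card ≤ 1) :
    PD P i = ∅ ∧ PU P i = ∅ := by
  classical
  have key : ∀ s : Finset P, (∀ v ∈ s, lev v = i) → s.card ≠ 2 := by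
    intro s hs h2
    have : s.card ≤ (lv P i).card := Finset.card_le_card fun v hv => mem_lv.mpr (hs v hv)
    omega
  constructor
  · ext z
    simp only [Finset.notMem_empty, iff_false]
    intro hz
    unfold PD at hz
    rw [mem_filter] at hz
    obtain ⟨-, h1, h2, w, h3, h4⟩ := hz
    refine key (uc w) (fun v hv => ?_) h4
    have h5 := lev_uc H hv
    have h6 := lev_uc H (mem_uc.mpr h3)
    omega
  · ext x
    simp only [Finset.notMem_empty, iff_false]
    intro hx
    unfold PU at hx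
    rw [mem_filter] at hx
    obtain ⟨-, h1, h2, w, h3, h4⟩ := hx
    refine key (dc w) (fun v hv => ?_) h4
    have h5 := lev_dc H hv
    have h6 := lev_dc H (mem_dc.mpr h3)
    omega

/-- identity (22) -/
theorem E22 (H : Gr P r) {i : ℕ} (hi : 1 ≤ i) (hi2 : i + 1 ≤ r) :
    ∑ v ∈ lv P i, ∑ v' ∈ (lv P i).erase v, ((dcv v v' : ℤ) - (ucv v v' : ℤ)) ^ 2 =
      2 * ∑ v ∈ lv P i, (dgD i v - dgT i v) ^ 2 := by
  rcases Nat.lt_or_ge (lv P i).card 2 with hb | hb
  · have key : ∀ v ∈ lv P i, (lv P i).erase v = ∅ := by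
      intro v hv
      rw [← Finset.card_eq_zero, Finset.card_erase_of_mem hv]
      omega
    have s1 : ∑ v ∈ lv P i, ∑ v' ∈ (lv P i).erase v,
        ((dcv v v' : ℤ) - (ucv v v' : ℤ)) ^ 2 = 0 :=
      Finset.sum_eq_zero fun v hv => by rw [key v hv, Finset.sum_empty]
    have s2 : ∑ v ∈ lv P i, (dgD i v - dgT i v) ^ 2 = 0 :=
      Finset.sum_eq_zero fun v hv => by
        unfold dgD dgT
        rw [key v hv, Finset.sum_empty, Finset.sum_empty]
        norm_num
    rw [s1, s2, mul_zero]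
  · exact E22' H hi hi2 hb

/-- identity (21) -/
theorem E21 (H : Gr P r) {i : ℕ} (hi : 1 ≤ i) (hi2 : i + 1 ≤ r) (hb : 2 ≤ (lv P i).card) :
    4 * ((PD P i).card : ℤ) - 4 * ((PU P i).card : ℤ) +
      4 * ∑ v ∈ lv P i, (dgD i v - dgT i v) * sing v +
      4 * ∑ v ∈ lv P i, (dgD i v ^ 2 - dgT i v ^ 2) -
      ∑ v ∈ lv P i, ∑ v' ∈ (lv P i).erase v, ((dcv v v' : ℤ) ^ 2 - (ucv v v' : ℤ) ^ 2) = 0 :=
  E21' H hi hi2 hb

/-- Corollary for good levels. If the level has at most one element then nothing is double and both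
sets are empty. Otherwise (21) with dgD = dgT. -/
theorem good_card (H : Gr P r) {i : ℕ} (hi : 1 ≤ i) (hi2 : i + 1 ≤ r) (hg : Good P i) :
    (PD P i).card = (PU P i).card := by
  rcases Nat.lt_or_ge (lv P i).card 2 with hb | hb
  · obtain ⟨h1, h2⟩ := small_level H (i := i) (by omega)
    rw [h1, h2]
  · have h := E21' H hi hi2 hb
    have e1 : ∀ v ∈ lv P i, ∀ v' ∈ (lv P i).erase v, (dcv v v' : ℤ) = (ucv v v' : ℤ) := by
      intro v hv v' hv'
      rw [Finset.mem_erase] at hv'
      rw [hg v v' (mem_lv.mp hv) (mem_lv.mp hv'.2) hv'.1.symm]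
    have e2 : ∀ v ∈ lv P i, dgD i v = dgT i v := by
      intro v hv
      unfold dgD dgT
      exact Finset.sum_congr rfl fun v' hv' => e1 v hv v' hv'
    have s1 : ∑ v ∈ lv P i, (dgD i v - dgT i v) * sing v = 0 :=
      Finset.sum_eq_zero fun v hv => by rw [e2 v hv]; ring
    have s2 : ∑ v ∈ lv P i, (dgD i v ^ 2 - dgT i v ^ 2) = 0 :=
      Finset.sum_eq_zero fun v hv => by rw [e2 v hv]; ring
    have s3 : ∑ v ∈ lv P i, ∑ v' ∈ (lv P i).erase v,
        ((dcv v v' : ℤ) ^ 2 - (ucv v v' : ℤ) ^ 2) = 0 :=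
      Finset.sum_eq_zero fun v hv => Finset.sum_eq_zero fun v' hv' => by
        rw [e1 v hv v' hv']; ring
    rw [s1, s2, s3] at h
    omega

end Pool.Agent.GaussPoset.Win
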