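import Pool.Agent.W_448win_h16.BaL

/-! Straight rotation. -/

namespace Pool.Agent.GaussPoset.Win

set_option linter.unusedSectionVars false

open Finset

universe u

variable {P : Type u} [Fintype P] [PartialOrder P] [DecidableEq P] {r : ℕ}

/-- Straight rotation. `nat`, `new`: `Ty_pair`. `only`: `Ty_exists`; a pair type `{a, b}` with `dcv > 0` is
one of the listed (hypotheses); a single type `{a}` with `2 ≤ a < m` is excluded by `Ty_single` with
`b = a - 1`, `c = a + 1`, `a = m` by `b = m - 1`, `c = 0`. `uniq`: by `Ty_exists`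
`w` has a type `T0` with one or two elements and `T`, `T0` have the same elements `≤ m`, so `w'` has type
`T0` too; `Ty_pair` or `Ty_single` (`a = 0`: `b = 1`, `c = m`; `a = 1`: `b = 2`, `c = 0`). -/
theorem straight_types (H : Gr P r) {l m : ℕ} {e : ℕ → ℕ → P} (hm : 3 ≤ m) (hR : Row l m e)
    (h01 : dcv (e 0 (l - 0)) (e 1 (l - 1)) = 0)
    (hk : ∀ k, 2 ≤ k → k ≤ m → dcv (e (k - 1) (l - (k - 1))) (e k (l - k)) = 1)
    (h0m : dcv (e 0 (l - 0)) (e m (l - m)) = 1)
    (hz : ∀ a b, a < b → b ≤ m → b ≠ a + 1 → ¬ (a = 0 ∧ b = m) →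
      dcv (e a (l - a)) (e b (l - b)) = 0) :
    (∀ i, 2 ≤ i → i ≤ m → ∃ w, Ty l m e w {i - 1, i}) ∧ (∃ w, Ty l m e w {0, m}) ∧
    (∀ w, lev w = l + 1 → Ty l m e w {0} ∨ Ty l m e w {1} ∨ Ty l m e w {0, m} ∨
      ∃ i, 2 ≤ i ∧ i ≤ m ∧ Ty l m e w {i - 1, i}) ∧
    (∀ w w' T, Ty l m e w T → Ty l m e w' T → w = w') := by
  have hk' : ∀ k, 1 ≤ k → k + 1 ≤ m → dcv (e k (l - k)) (e (k + 1) (l - (k + 1))) = 1 := by
    intro k h1 h2
    have h3 := hk (k + 1) (by omega) h2
    rwa [Nat.add_sub_cancel] at h3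
  have c3 : ∀ w, lev w = l + 1 → Ty l m e w {0} ∨ Ty l m e w {1} ∨ Ty l m e w {0, m} ∨
      ∃ i, 2 ≤ i ∧ i ≤ m ∧ Ty l m e w {i - 1, i} := by
    intro w hw
    rcases Ty_exists H hR hw with ⟨a, ha, hT⟩ | ⟨a, b, hab, hb, hT, hD⟩
    · by_cases h0 : a = 0
      · rw [h0] at hT
        exact Or.inl hT
      by_cases h1 : a = 1
      · rw [h1] at hT
        exact Or.inr (Or.inl hT)
      exfalso
      obtain ⟨k, rfl⟩ : ∃ k, a = k + 1 := ⟨a - 1, by omega⟩
      have h2 := hk' k (by omega) ha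
      rw [dcv_comm] at h2
      by_cases hm' : k + 1 = m
      · have h3 : dcv (e (k + 1) (l - (k + 1))) (e 0 (l - 0)) = 1 := by
          rw [dcv_comm, hm']
          exact h0m
        refine (Ty_single H hR ha (b := k) (c := 0) (by omega) (by omega) (by omega) (by omega)
          (by omega)).1 ?_ w hT
        rw [h2, h3]
      · have h3 := hk' (k + 1) (by omega) (by omega)
        refine (Ty_single H hR ha (b := k) (c := k + 1 + 1) (by omega) (by omega) (by omega)
          (by omega) (by omega)).1 ?_ w hT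
        rw [h2, h3]
    · by_cases h1 : b = a + 1
      · subst h1
        have h2 : a ≠ 0 := by
          rintro rfl
          rw [h01] at hD
          exact lt_irrefl 0 hD
        refine Or.inr (Or.inr (Or.inr ⟨a + 1, by omega, hb, ?_⟩))
        rw [Nat.add_sub_cancel]
        exact hT
      · by_cases h2 : a = 0 ∧ b = m
        · rw [h2.1, h2.2] at hT
          exact Or.inr (Or.inr (Or.inl hT))
        · rw [hz a b hab hb h1 h2] at hD
          exact absurd hD (lt_irrefl 0)
  refine ⟨fun i h1 h2 => ?_, ?_, c3, ?_⟩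
  · exact (Ty_pair H hR (a := i - 1) (b := i) (by omega) h2).1 (by rw [hk i h1 h2]; omega)
  · exact (Ty_pair H hR (a := 0) (b := m) (by omega) le_rfl).1 (by rw [h0m]; omega)
  · intro w w' T hT hT'
    have key : ∀ T0 : Finset ℕ, Ty l m e w T0 → Ty l m e w' T0 := by
      intro T0 h0
      refine ⟨hT'.1, fun i hi => ?_⟩
      rw [hT'.2 i hi, ← hT.2 i hi, h0.2 i hi]
    rcases c3 w hT.1 with h1 | h1 | h1 | ⟨i, hi2, him, h1⟩
    · refine (Ty_single H hR (a := 0) (b := 1) (c := m) (by omega) (by omega) le_rfl (by omega)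
        (by omega) (by omega)).2 ?_ w w' h1 (key _ h1)
      rw [h01, h0m]
    · refine (Ty_single H hR (a := 1) (b := 2) (c := 0) (by omega) (by omega) (by omega) (by omega)
        (by omega) (by omega)).2 ?_ w w' h1 (key _ h1)
      have h2 := hk' 1 le_rfl (by omega)
      rw [show (1 + 1 : ℕ) = 2 from rfl] at h2
      rw [h2]
      omega
    · exact (Ty_pair H hR (a := 0) (b := m) (by omega) le_rfl).2 (by rw [h0m]) w w' h1 (key _ h1)
    · exact (Ty_pair H hR (a := i - 1) (b := i) (by omega) him).2 (by rw [hk i hi2 him]) w w' h1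
        (key _ h1)

end Pool.Agent.GaussPoset.Win
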