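import Pool.Agent.W_448win_h16.BaA

/-! Two levels down in coordinates; PU in the closed cases. -/

namespace Pool.Agent.GaussPoset.Win

set_option linter.unusedSectionVars false

open Finset

universe u

variable {P : Type u} [Fintype P] [PartialOrder P] [DecidableEq P] {r : ℕ}

lemma BaO_Rg {t : Option ℕ} {i c : ℕ} (h1 : Rg t i c) : Rg t i (c + 2) := by
  cases t with
  | none =>
    have h2 : i ≤ c := h1
    show i ≤ c + 2
    omega
  | some n =>
    have h2 : i < n := h1
    show i < n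
    omega

lemma BaO_mem {t : Option ℕ} {l : ℕ} {e : ℕ → ℕ → P} (hT : Crd t l e) {i c : ℕ}
    (h1 : Rg t i c) (h2 : i + c + 2 ≤ l) (z : P) : (lev z = i + c + 2 ∧ z < e i c) ↔
      (z = e i (c + 2) ∨ (Rg t (i + 1) (c + 1) ∧ z = e (i + 1) (c + 1)) ∨
        (Rg t (i + 2) c ∧ z = e (i + 2) c)) := by
  have key : ∀ i' c', Rg t i' c' → i' + c' = i + c + 2 → i ≤ i' → c ≤ c' →
      lev (e i' c') = i + c + 2 ∧ e i' c' < e i c := by
    intro i' c' a b h3 h4
    refine ⟨by rw [hT.lev_e i' c' a (by omega)]; exact b, ?_⟩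
    rw [lt_iff_le_not_ge, hT.le_iff i' c' i c a (by omega) h1 (by omega),
      hT.le_iff i c i' c' h1 (by omega) a (by omega)]
    omega
  constructor
  · rintro ⟨hz, hlt⟩
    obtain ⟨i', c', a, b, rfl⟩ := hT.surj z (by omega)
    rw [hT.lev_e i' c' a b] at hz
    have h3 := (hT.le_iff i' c' i c a b h1 (by omega)).1 hlt.le
    have h4 : (i' = i ∧ c' = c + 2) ∨ (i' = i + 1 ∧ c' = c + 1) ∨ (i' = i + 2 ∧ c' = c) := by
      omega
    rcases h4 with ⟨rfl, rfl⟩ | ⟨rfl, rfl⟩ | ⟨rfl, rfl⟩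
    · exact Or.inl rfl
    · exact Or.inr (Or.inl ⟨a, rfl⟩)
    · exact Or.inr (Or.inr ⟨a, rfl⟩)
  · rintro (rfl | ⟨a, rfl⟩ | ⟨a, rfl⟩)
    · exact key i (c + 2) (BaO_Rg h1) (by omega) (by omega) (by omega)
    · exact key (i + 1) (c + 1) a (by omega) (by omega) (by omega)
    · exact key (i + 2) c a (by omega) (by omega) (by omega)

/-- Two levels down: for valid `(i, c)` with `i + c + 2 ≤ l` the elements of level `i + c + 2` below
`e i c` are the valid ones among `e i (c+2)`, `e (i+1) (c+1)`, `e (i+2) c` (`surj`, `le_iff`,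
`lev_e`, `Crd.inj`); the first is always valid. -/
theorem Crd.dn_two {t : Option ℕ} {l : ℕ} {e : ℕ → ℕ → P} (hT : Crd t l e) {i c : ℕ}
    (h1 : Rg t i c) (h2 : i + c + 2 ≤ l) : (dn (i + c + 2) (e i c) = 3 ↔
      Rg t (i + 1) (c + 1) ∧ Rg t (i + 2) c) ∧ dn (i + c + 2) (e i c) ≤ 3 := by
  classical
  have hmem := BaO_mem hT h1 h2
  unfold dn
  by_cases ha : Rg t (i + 1) (c + 1)
  · by_cases hb : Rg t (i + 2) c
    · have h3 : ((lv P (i + c + 2)).filter (fun v => v < e i c)) =
          {e i (c + 2), e (i + 1) (c + 1), e (i + 2) c} := by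
        ext z
        rw [mem_filter, mem_lv, hmem z, mem_insert, mem_insert, mem_singleton]
        tauto
      have h4 : ((lv P (i + c + 2)).filter (fun v => v < e i c)).card = 3 := by
        rw [h3, Finset.card_eq_three]
        refine ⟨_, _, _, ?_, ?_, ?_, rfl⟩
        · intro h
          have := (hT.inj (BaO_Rg h1) (by omega) ha (by omega) h).1
          omega
        · intro h
          have := (hT.inj (BaO_Rg h1) (by omega) hb (by omega) h).1
          omega
        · intro h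
          have := (hT.inj ha (by omega) hb (by omega) h).1
          omega
      exact ⟨⟨fun _ => ⟨ha, hb⟩, fun _ => h4⟩, h4.le⟩
    · have h3 : ((lv P (i + c + 2)).filter (fun v => v < e i c)) ⊆
          {e i (c + 2), e (i + 1) (c + 1)} := by
        intro z hz
        rw [mem_filter, mem_lv, hmem z] at hz
        rw [mem_insert, mem_singleton]
        tauto
      have h4 : ((lv P (i + c + 2)).filter (fun v => v < e i c)).card ≤ 2 :=
        (card_le_card h3).trans card_le_two
      exact ⟨⟨fun h => absurd (h4.trans_eq' h) (by omega), fun h => absurd h.2 hb⟩,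
        h4.trans (by omega)⟩
  · have h3 : ((lv P (i + c + 2)).filter (fun v => v < e i c)) ⊆
        {e i (c + 2), e (i + 2) c} := by
      intro z hz
      rw [mem_filter, mem_lv, hmem z] at hz
      rw [mem_insert, mem_singleton]
      tauto
    have h4 : ((lv P (i + c + 2)).filter (fun v => v < e i c)).card ≤ 2 :=
      (card_le_card h3).trans card_le_two
    exact ⟨⟨fun h => absurd (h4.trans_eq' h) (by omega), fun h => absurd h.1 ha⟩,
      h4.trans (by omega)⟩

lemma BaO_two (H : Gr P r) {t : Option ℕ} {l : ℕ} {e : ℕ → ℕ → P} (hT : Crd t l e) {i c : ℕ}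
    (h1 : Rg t i c) (h2 : i + c < l) (ha : Rg t (i + 1) c) (hb : Rg t i (c + 1)) :
    (dc (e i c)).card ≠ 1 := by
  intro h
  rw [Finset.card_eq_one] at h
  obtain ⟨y, hy⟩ := h
  have h3 : e (i + 1) c ∈ dc (e i c) :=
    mem_dc.2 ((hT.dc_iff H h1 h2 _).2 (Or.inl ⟨ha, rfl⟩))
  have h4 : e i (c + 1) ∈ dc (e i c) :=
    mem_dc.2 ((hT.dc_iff H h1 h2 _).2 (Or.inr ⟨hb, rfl⟩))
  rw [hy, mem_singleton] at h3 h4
  have := (hT.inj ha (by omega) hb (by omega) (h3.trans h4.symm)).1
  omega

/-- quadrant: all elements above level `m` have two lower covers (`Crd.dc_iff`) -/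
theorem PU_R1 (H : Gr P r) {m : ℕ} {e : ℕ → ℕ → P} (hm : 3 ≤ m)
    (hT : Crd (some (m + 1)) m e) : PU P (m - 1) = ∅ := by
  classical
  unfold PU
  rw [Finset.filter_eq_empty_iff]
  rintro x - ⟨hx, hc, -⟩
  obtain ⟨i, c, a, b, rfl⟩ := hT.surj x (by omega)
  rw [hT.lev_e i c a b] at hx
  refine BaO_two H hT a (by omega) ?_ ?_ hc
  · show i + 1 < m + 1
    omega
  · show i < m + 1
    omega

/-- shifted quadrant, level `2m - 3`: all elements `(i, c)` have `i < c` (odd sum), so two lower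
covers (`Crd.dc_iff`) -/
theorem PU_S1 (H : Gr P r) {m : ℕ} {e : ℕ → ℕ → P} (hm : 3 ≤ m)
    (hT : Crd none (2 * m) e) : PU P (2 * m - 1) = ∅ := by
  classical
  unfold PU
  rw [Finset.filter_eq_empty_iff]
  rintro x - ⟨hx, hc, -⟩
  obtain ⟨i, c, a, b, rfl⟩ := hT.surj x (by omega)
  rw [hT.lev_e i c a b] at hx
  have a' : i ≤ c := a
  refine BaO_two H hT a (by omega) ?_ ?_ hc
  · show i + 1 ≤ c
    omega
  · show i ≤ c + 1
    omega

end Pool.Agent.GaussPoset.Win
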