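import Pool.Agent.W_448win_h16.BaO

/-! The numbers for (31). -/

namespace Pool.Agent.GaussPoset.Win

set_option linter.unusedSectionVars false

open Finset

universe u

variable {P : Type u} [Fintype P] [PartialOrder P] [DecidableEq P] {r : ℕ}

open Classical in
lemma BaQ_card {t : Option ℕ} {l : ℕ} {e : ℕ → ℕ → P} (hT : Crd t l e) (s w N : ℕ)
    (hw : w = s + 2) (hs : s + 2 ≤ l) (hN : N ≤ s + 1)
    (hR : ∀ i, i < N → Rg t i (s - i) ∧ Rg t (i + 1) (s - i + 1) ∧ Rg t (i + 2) (s - i))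
    (hR' : ∀ i c, i + c = s → Rg t i c → Rg t (i + 2) c → i < N) :
    (univ.filter (fun x : P => lev x + 2 = w ∧ dn w x = 3)).card = N := by
  subst hw
  have h1 : univ.filter (fun x : P => lev x + 2 = s + 2 ∧ dn (s + 2) x = 3) =
      (range N).image (fun i => e i (s - i)) := by
    ext x
    rw [mem_filter, mem_image]
    constructor
    · rintro ⟨_, h2, h3⟩
      obtain ⟨i, c, h4, h5, rfl⟩ := hT.surj x (by omega)
      rw [hT.lev_e i c h4 h5] at h2
      have h6 : i + c = s := by omega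
      have h7 := hT.dn_two h4 (by omega)
      rw [h6] at h7
      refine ⟨i, mem_range.2 (hR' i c h6 h4 (h7.1.1 h3).2), ?_⟩
      rw [← h6, Nat.add_sub_cancel_left]
    · rintro ⟨i, hi, rfl⟩
      have hi' := mem_range.1 hi
      obtain ⟨h2, h3, h4⟩ := hR i hi'
      have h5 : i + (s - i) = s := by omega
      have h6 := hT.lev_e i (s - i) h2 (by omega)
      have h7 := hT.dn_two h2 (by omega)
      rw [h5] at h6 h7
      exact ⟨mem_univ _, by rw [h6], h7.1.2 ⟨h3, h4⟩⟩
  rw [h1, card_image_of_injOn, card_range]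
  intro i hi i' hi' h
  rw [mem_coe, mem_range] at hi hi'
  have h2 := (hT.le_iff i (s - i) i' (s - i') (hR i hi).1 (by omega) (hR i' hi').1
    (by omega)).1 (le_of_eq h)
  have h3 := (hT.le_iff i' (s - i') i (s - i) (hR i' hi').1 (by omega) (hR i hi).1
    (by omega)).1 (le_of_eq h.symm)
  omega

open Classical in
/-- `Crd.dn_two`: level `m - 3`, all `(i, c)` with `i + c = m - 3` -/
theorem cnt_R1 {m : ℕ} {e : ℕ → ℕ → P} (hm : 3 ≤ m) (hT : Crd (some (m + 1)) m e) :
    (univ.filter (fun x : P => lev x + 2 = m - 1 ∧ dn (m - 1) x = 3)).card = m - 2 := by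
  refine BaQ_card hT (m - 3) (m - 1) (m - 2) (by omega) (by omega) (by omega) ?_ ?_
  · intro i hi
    exact ⟨show i < m + 1 by omega, show i + 1 < m + 1 by omega, show i + 2 < m + 1 by omega⟩
  · intro i c h _ _
    omega

open Classical in
/-- `Crd.dn_two`: level `2m - 3`, `(i, c)` with `i + 2 ≤ c`, i.e. `i ≤ m - 3` -/
theorem cnt_S1 {m : ℕ} {e : ℕ → ℕ → P} (hm : 3 ≤ m) (hT : Crd none (2 * m) e) :
    (univ.filter (fun x : P => lev x + 2 = 2 * m - 1 ∧ dn (2 * m - 1) x = 3)).card = m - 2 := by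
  refine BaQ_card hT (2 * m - 3) (2 * m - 1) (m - 2) (by omega) (by omega) (by omega) ?_ ?_
  · intro i hi
    exact ⟨show i ≤ 2 * m - 3 - i by omega, show i + 1 ≤ 2 * m - 3 - i + 1 by omega,
      show i + 2 ≤ 2 * m - 3 - i by omega⟩
  · intro i c h _ h2
    have h3 : i + 2 ≤ c := h2
    omega

open Classical in
/-- `Crd.dn_two`: level `j - 3`, `(i, c)` with `i + 2 ≤ m` (then `i ≤ j - 3`) -/
theorem cnt_R2 {j m : ℕ} {e : ℕ → ℕ → P} (hm : 2 ≤ m) (hj : m + 1 ≤ j)
    (hT : Crd (some (m + 1)) j e) :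
    (univ.filter (fun x : P => lev x + 2 = j - 1 ∧ dn (j - 1) x = 3)).card = m - 1 := by
  refine BaQ_card hT (j - 3) (j - 1) (m - 1) (by omega) (by omega) (by omega) ?_ ?_
  · intro i hi
    exact ⟨show i < m + 1 by omega, show i + 1 < m + 1 by omega, show i + 2 < m + 1 by omega⟩
  · intro i c h _ h2
    have h3 : i + 2 < m + 1 := h2
    omega

end Pool.Agent.GaussPoset.Win
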