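import Pool.Agent.W_448win_h16.BaR
import Pool.Agent.W_448win_h16.BaM
import Pool.Agent.W_448win_h16.BaO
import Pool.Agent.W_448win_h16.BaQ
import Pool.Agent.W_448rot_h96.StraightFinal

/-! Case R1. -/

namespace Pool.Agent.GaussPoset.Win

set_option linter.unusedSectionVars false

open Finset

universe u

variable {P : Type u} [Fintype P] [PartialOrder P] [DecidableEq P] {r : ℕ}

/-- From `straight_types` and `Ty.typ_false` (the definitions `Ty m m` and `Typ false m` agree after
`jj_false`): a straight rotation in the quadrant case, excluded by `GaussRot.no_straight`. -/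
theorem no_R1 (H : Gr P r) {m : ℕ} {e : ℕ → ℕ → P} (hm : 3 ≤ m)
    (hT : Crd (some (m + 1)) m e) (hR : Row m m e)
    (h01 : dcv (e 0 (m - 0)) (e 1 (m - 1)) = 0)
    (hk : ∀ k, 2 ≤ k → k ≤ m → dcv (e (k - 1) (m - (k - 1))) (e k (m - k)) = 1)
    (h0m : dcv (e 0 (m - 0)) (e m (m - m)) = 1)
    (hz : ∀ a b, a < b → b ≤ m → b ≠ a + 1 → ¬ (a = 0 ∧ b = m) →
      dcv (e a (m - a)) (e b (m - b)) = 0) : False := by
  obtain ⟨h1, h2, h3, h4⟩ := straight_types H hm hR h01 hk h0m hz
  have hj : GaussRot.jj false m = m := GaussRot.jj_false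
  have hback : ∀ {w : P} {T : Finset ℕ}, GaussRot.Typ false m e w T → Ty m m e w T := by
    intro w T h
    unfold GaussRot.Typ at h
    rw [hj] at h
    exact h
  refine GaussRot.no_straight H.gauss hm hT.top_false ⟨?_, ?_, ?_, ?_⟩
  · intro i hi hi'
    obtain ⟨w, hw⟩ := h1 i hi hi'
    exact ⟨w, hw.typ_false⟩
  · obtain ⟨w, hw⟩ := h2
    exact ⟨w, hw.typ_false⟩
  · intro w hw
    rw [hj] at hw
    rcases h3 w hw with h | h | h | ⟨i, hi, hi', h⟩
    · exact Or.inl h.typ_false
    · exact Or.inr (Or.inl h.typ_false)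
    · exact Or.inr (Or.inr (Or.inl h.typ_false))
    · exact Or.inr (Or.inr (Or.inr ⟨i, hi, hi', h.typ_false⟩))
  · intro w w' T hw hw'
    exact h4 w w' T (hback hw) (hback hw')

/-- Case R1. `cap_R1`, `closed_case` with `j = m` (`PU_R1`, `cnt_R1`); the two rotations: the first is excluded by
`no_R1`, the second too, after exchanging the coordinates (`Crd.flip`, `cap_R1` for the row of
`fun i c => e c i`, whose `x_i` is `x_(m-i)`; `dcv_comm`). -/
theorem bad_R1 (H : Gr P r) (h0 : (lv P 0).card = 1) {m : ℕ} {e : ℕ → ℕ → P} (hm : 3 ≤ m)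
    (hr : 2 * m ≤ r) (hT : Crd (some (m + 1)) m e) (hg : Good P (m - 1)) : Good P m := by
  have hC : Cap m m (m - 1) e := cap_R1 H (by omega) hT
  have hcnt : (univ.filter (fun x : P => lev x + 2 = m - 1 ∧ dn (m - 1) x = 3)).card = m - 2 := by
    have h := cnt_R1 hm hT
    convert h using 2
  rcases closed_case H h0 hm (by omega) (by omega) hC hg (PU_R1 H hm hT) hcnt with
    h | ⟨h0m, hz, ⟨h01, hk⟩ | ⟨h01, hk⟩⟩
  · exact h
  · exact (no_R1 H hm hT hC.row h01 hk h0m hz).elim
  · exfalso
    have hT' := hT.flip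
    have hC' := cap_R1 H (by omega : 1 ≤ m) hT'
    have hx : ∀ i ≤ m, e (m - i) i = e (m - i) (m - (m - i)) := by
      intro i hi
      congr 1
      omega
    refine no_R1 H hm hT' hC'.row ?_ ?_ ?_ ?_
    · rw [hx 0 (by omega), hx 1 (by omega), dcv_comm]
      have e1 : m - 0 = m := by omega
      rw [e1]
      exact h01
    · intro k hk1 hk2
      rw [hx (k - 1) (by omega), hx k hk2, dcv_comm]
      have h := hk (m - (k - 1)) (by omega) (by omega)
      have e1 : m - (k - 1) - 1 = m - k := by omega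
      rw [e1] at h
      exact h
    · rw [hx 0 (by omega), hx m le_rfl, dcv_comm]
      have e1 : m - 0 = m := by omega
      have e2 : m - m = 0 := by omega
      rw [e1, e2]
      rw [e2] at h0m
      exact h0m
    · intro a b hab hb hne hn
      rw [hx a (by omega), hx b hb, dcv_comm]
      refine hz (m - b) (m - a) (by omega) (by omega) (by omega) ?_
      rintro ⟨h5, h6⟩
      exact hn ⟨by omega, by omega⟩

end Pool.Agent.GaussPoset.Win
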