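import Pool.Agent.W_448win_h16.BaL

/-! Fold rotation. -/

namespace Pool.Agent.GaussPoset.Win

set_option linter.unusedSectionVars false

open Finset

universe u

variable {P : Type u} [Fintype P] [PartialOrder P] [DecidableEq P] {r : ℕ}

/-- Fold rotation, mirror image of `straight_types` (indices `i ↦ m - i`). -/
theorem fold_types (H : Gr P r) {l m : ℕ} {e : ℕ → ℕ → P} (hm : 3 ≤ m) (hR : Row l m e)
    (hmm : dcv (e (m - 1) (l - (m - 1))) (e m (l - m)) = 0)
    (hk : ∀ k, 1 ≤ k → k + 1 ≤ m → dcv (e (k - 1) (l - (k - 1))) (e k (l - k)) = 1)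
    (h0m : dcv (e 0 (l - 0)) (e m (l - m)) = 1)
    (hz : ∀ a b, a < b → b ≤ m → b ≠ a + 1 → ¬ (a = 0 ∧ b = m) →
      dcv (e a (l - a)) (e b (l - b)) = 0) :
    (∀ i, 1 ≤ i → i + 1 ≤ m → ∃ w, Ty l m e w {i - 1, i}) ∧ (∃ w, Ty l m e w {0, m}) ∧
    (∀ w, lev w = l + 1 → Ty l m e w {m} ∨ Ty l m e w {m - 1} ∨ Ty l m e w {0, m} ∨
      ∃ i, 1 ≤ i ∧ i + 1 ≤ m ∧ Ty l m e w {i - 1, i}) ∧
    (∀ w w' T, Ty l m e w T → Ty l m e w' T → w = w') := by
  classical
  have hcomm : ∀ v v' : P, dcv v v' = dcv v' v := by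
    intro v v'
    unfold dcv
    congr 1
    ext y
    simp only [mem_filter, mem_univ, true_and]
    exact and_comm
  have hk' : ∀ a, a + 2 ≤ m → dcv (e a (l - a)) (e (a + 1) (l - (a + 1))) = 1 := by
    intro a ha
    have h1 := hk (a + 1) (by omega) (by omega)
    rwa [Nat.add_sub_cancel] at h1
  have h0m' : dcv (e 0 (l - 0)) (e m (l - m)) = 1 := h0m
  have hcase : ∀ a b, a < b → b ≤ m → (b = a + 1 ∧ b + 1 ≤ m) ∨ (a = 0 ∧ b = m) ∨
      dcv (e a (l - a)) (e b (l - b)) = 0 := by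
    intro a b hab hb
    by_cases h1 : b = a + 1
    · by_cases h2 : b + 1 ≤ m
      · exact Or.inl ⟨h1, h2⟩
      · have h3 : b = m := by omega
        have h4 : a = m - 1 := by omega
        rw [h3, h4]
        exact Or.inr (Or.inr hmm)
    · by_cases h2 : a = 0 ∧ b = m
      · exact Or.inr (Or.inl h2)
      · exact Or.inr (Or.inr (hz a b hab hb h1 h2))
  have hle : ∀ a b, a < b → b ≤ m → dcv (e a (l - a)) (e b (l - b)) ≤ 1 := by
    intro a b hab hb
    rcases hcase a b hab hb with ⟨h1, h2⟩ | ⟨h1, h2⟩ | h1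
    · subst h1
      rw [hk' a (by omega)]
    · subst h1 h2
      rw [h0m']
    · omega
  have hpend : ∀ w a, a ≤ m → Ty l m e w {a} → a = m ∨ a = m - 1 := by
    intro w a ha hw
    by_contra hcon
    push Not at hcon
    rcases Nat.eq_zero_or_pos a with h1 | h1
    · subst h1
      refine (Ty_single H hR (a := 0) (b := 1) (c := m) (by omega) (by omega) le_rfl (by omega)
        (by omega) (by omega)).1 ?_ w hw
      have h2 := hk' 0 (by omega)
      rw [zero_add] at h2
      rw [h2, h0m']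
    · obtain ⟨b, rfl⟩ : ∃ b, a = b + 1 := ⟨a - 1, by omega⟩
      refine (Ty_single H hR (a := b + 1) (b := b) (c := b + 1 + 1) (by omega) (by omega)
        (by omega) (by omega) (by omega) (by omega)).1 ?_ w hw
      have h2 := hk' b (by omega)
      have h3 := hk' (b + 1) (by omega)
      rw [hcomm (e (b + 1) (l - (b + 1))) (e b (l - b)), h2, h3]
  have hu1 : ∀ w w' a, a ≤ m → Ty l m e w {a} → Ty l m e w' {a} → w = w' := by
    intro w w' a ha hw hw'
    rcases hpend w a ha hw with h1 | h1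
    · subst h1
      refine (Ty_single H hR (a := a) (b := 0) (c := 1) le_rfl (by omega) (by omega) (by omega)
        (by omega) (by omega)).2 ?_ w w' hw hw'
      rw [hcomm (e a (l - a)) (e 0 (l - 0)), h0m']
      omega
    · obtain ⟨b, hb⟩ : ∃ b, a = b + 1 := ⟨a - 1, by omega⟩
      subst hb
      refine (Ty_single H hR (a := b + 1) (b := b) (c := b + 1 + 1) (by omega) (by omega)
        (by omega) (by omega) (by omega) (by omega)).2 ?_ w w' hw hw'
      have h2 := hk' b (by omega)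
      rw [hcomm (e (b + 1) (l - (b + 1))) (e b (l - b)), h2]
      omega
  have htr : ∀ w w' T T', Ty l m e w T → Ty l m e w' T → Ty l m e w T' → Ty l m e w' T' := by
    intro w w' T T' h1 h2 h3
    exact ⟨h2.1, fun i hi => (h2.2 i hi).trans ((h1.2 i hi).symm.trans (h3.2 i hi))⟩
  refine ⟨?_, ?_, ?_, ?_⟩
  · intro i h1 h2
    refine (Ty_pair H hR (a := i - 1) (b := i) (by omega) (by omega)).1 ?_
    rw [hk i h1 h2]
    omega
  · refine (Ty_pair H hR (a := 0) (b := m) (by omega) le_rfl).1 ?_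
    rw [h0m']
    omega
  · intro w hw
    rcases Ty_exists H hR hw with ⟨a, ha, h1⟩ | ⟨a, b, hab, hb, h1, h2⟩
    · rcases hpend w a ha h1 with h3 | h3
      · subst h3
        exact Or.inl h1
      · subst h3
        exact Or.inr (Or.inl h1)
    · rcases hcase a b hab hb with ⟨h3, h4⟩ | ⟨h3, h4⟩ | h3
      · refine Or.inr (Or.inr (Or.inr ⟨b, by omega, h4, ?_⟩))
        have h5 : b - 1 = a := by omega
        rw [h5]
        exact h1
      · subst h3 h4
        exact Or.inr (Or.inr (Or.inl h1))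
      · omega
  · intro w w' T hw hw'
    rcases Ty_exists H hR hw.1 with ⟨a, ha, h1⟩ | ⟨a, b, hab, hb, h1, h2⟩
    · exact hu1 w w' a ha h1 (htr w w' T _ hw hw' h1)
    · exact (Ty_pair H hR hab hb).2 (hle a b hab hb) w w' h1 (htr w w' T _ hw hw' h1)

end Pool.Agent.GaussPoset.Win
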