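import Pool.Agent.W_448win_h16.BaR
import Pool.Agent.W_448win_h16.BaM
import Pool.Agent.W_448win_h16.BaN
import Pool.Agent.W_448win_h16.BaO
import Pool.Agent.W_448win_h16.BaQ
import Pool.Agent.W_448rot_h96.StraightFinal
import Pool.Agent.W_448rot_h96.FoldFin

/-! Case S1. -/

namespace Pool.Agent.GaussPoset.Win

set_option linter.unusedSectionVars false

open Finset

universe u

variable {P : Type u} [Fintype P] [PartialOrder P] [DecidableEq P] {r : ℕ}

lemma BaT_ty {m : ℕ} {e : ℕ → ℕ → P} {w : P} {T : Finset ℕ} (h : GaussRot.Typ true m e w T) :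
    Ty (2 * m) m e w T := by
  unfold GaussRot.Typ at h
  rw [GaussRot.jj_true] at h
  exact h

/-- Case S1. `cap_S1`, `closed_case` with `j = 2m` (`PU_S1`, `cnt_S1`). First rotation:
`straight_types`, `Ty.typ_true` give `Straight true m e`, excluded by `GaussRot.no_straight`
(`Crd.top_true`). Second rotation: `fold_types` gives `Fold m e`, excluded by
`GaussRot.no_fold` (with `f`, `Crd.top_true`). -/
theorem bad_S1 (H : Gr P r) (h0 : (lv P 0).card = 1) {m : ℕ} {e : ℕ → ℕ → P}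
    {f : ℕ → ℕ → Pᵒᵈ} (hm : 3 ≤ m) (hr : 4 * m ≤ r) (hT : Crd none (2 * m) e)
    (hf : Crd none (2 * m) f) (hg : Good P (2 * m - 1)) : Good P (2 * m) := by
  have hC := cap_S1 H (by omega) hT
  rcases closed_case H h0 hm (by omega) (by omega) hC hg (PU_S1 H hm hT) (cnt_S1 hm hT) with
    h | ⟨h0m, hz, ⟨h01, hk⟩ | ⟨hmm, hk⟩⟩
  · exact h
  · exfalso
    obtain ⟨a1, a2, a3, a4⟩ := straight_types H hm hC.row h01 hk h0m hz
    refine GaussRot.no_straight (k := true) (m := m) (e := e) H.1 hm hT.top_true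
      ⟨?_, ?_, ?_, ?_⟩
    · intro i h1 h2
      obtain ⟨w, hw⟩ := a1 i h1 h2
      exact ⟨w, hw.typ_true⟩
    · obtain ⟨w, hw⟩ := a2
      exact ⟨w, hw.typ_true⟩
    · intro w hw
      rw [GaussRot.jj_true] at hw
      rcases a3 w hw with h | h | h | ⟨i, h1, h2, h⟩
      · exact Or.inl h.typ_true
      · exact Or.inr (Or.inl h.typ_true)
      · exact Or.inr (Or.inr (Or.inl h.typ_true))
      · exact Or.inr (Or.inr (Or.inr ⟨i, h1, h2, h.typ_true⟩))
    · intro w w' T h1 h2
      exact a4 w w' T (BaT_ty h1) (BaT_ty h2)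
  · exfalso
    obtain ⟨a1, a2, a3, a4⟩ := fold_types H hm hC.row hmm hk h0m hz
    refine GaussRot.no_fold (m := m) (e := e) (f := f) H hm hr hT.top_true
      ⟨?_, ?_, ?_, ?_⟩ hf.top_true
    · intro i h1 h2
      obtain ⟨w, hw⟩ := a1 i h1 h2
      exact ⟨w, hw.typ_true⟩
    · obtain ⟨w, hw⟩ := a2
      exact ⟨w, hw.typ_true⟩
    · intro w hw
      rcases a3 w hw with h | h | h | ⟨i, h1, h2, h⟩
      · exact Or.inl h.typ_true
      · exact Or.inr (Or.inl h.typ_true)
      · exact Or.inr (Or.inr (Or.inl h.typ_true))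
      · exact Or.inr (Or.inr (Or.inr ⟨i, h1, h2, h.typ_true⟩))
    · intro w w' T h1 h2
      exact a4 w w' T (BaT_ty h1) (BaT_ty h2)

end Pool.Agent.GaussPoset.Win
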