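import Pool.Agent.W_448win_h16.BwG

/-! The bad window. -/

namespace Pool.Agent.GaussPoset.Win

set_option linter.unusedSectionVars false

open Finset

universe u

variable {P : Type u} [Fintype P] [PartialOrder P] [DecidableEq P] {r : ℕ}

/-- BAD WINDOW: one lower double element and one upper double element are not matched -/
theorem BW (H : Gr P r) {j : ℕ} (hj : 1 ≤ j) (hj2 : j + 1 ≤ r) {w0 u0 p q s : P} {psi : P → P}
    (hw : lev w0 = j + 1) (hu : lev u0 + 1 = j) (hpq : p ≠ q) (hqs : q ≠ s) (hps : p ≠ s)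
    (hw2 : uc w0 = {p, q}) (hu2 : dc u0 = {q, s}) (hM : Mat P j {w0, u0} psi)
    (hD : PD P j = ∅) (hU : PU P j = ∅) (h3 : ∀ x : P, lev x + 2 = j → dn j x ≤ 3) :
    ∃ z : P, lev z = j + 2 ∧ up j z = 4 ∧ z < p ∧ ¬ z < q ∧ ¬ z < s := by
  classical
  have B : BadW P j w0 u0 p q s psi := ⟨hw, hu, hpq, hqs, hps, hw2, hu2, hM, hD, hU⟩
  obtain ⟨z, hz⟩ := Finset.card_eq_one.mp (BW32 H hj hj2 B h3)
  obtain ⟨h1, h2⟩ := BW43 H hj hj2 B h3 hz
  have hmem : z ∈ univ.filter (fun z : P => lev z = j + 2 ∧ up j z = 4) := by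
    rw [hz]; exact mem_singleton_self z
  rw [mem_filter] at hmem
  have lp : lev p = j := by
    have := lev_uc H (show p ∈ uc w0 by rw [hw2]; simp)
    omega
  have lq : lev q = j := by
    have := lev_uc H (show q ∈ uc w0 by rw [hw2]; simp)
    omega
  have ls : lev s = j := by
    have := lev_dc H (show s ∈ dc u0 by rw [hu2]; simp)
    omega
  have hq : ¬ z < q := fun h => Finset.disjoint_left.mp h2 (mem_sts.mpr ⟨lq, h⟩) (by simp)
  have hs : ¬ z < s := fun h => Finset.disjoint_left.mp h2 (mem_sts.mpr ⟨ls, h⟩) (by simp)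
  refine ⟨z, hmem.2.1, hmem.2.2, ?_, hq, hs⟩
  by_contra hp
  refine h1 (Finset.disjoint_left.mpr fun v hv hv2 => ?_)
  rw [mem_insert, mem_singleton] at hv2
  rcases hv2 with rfl | rfl
  · exact hp (mem_sts.mp hv).2
  · exact hq (mem_sts.mp hv).2

end Pool.Agent.GaussPoset.Win
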