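import Pool.Agent.W_448win_h16.Defs

/-! Covers. -/

namespace Pool.Agent.GaussPoset.Win

set_option linter.unusedSectionVars false

open Finset

universe u

variable {P : Type u} [Fintype P] [PartialOrder P] [DecidableEq P] {r : ℕ}

lemma mem_near {i : ℕ} {x : P} : x ∈ near P i ↔ lev x = i + 1 ∨ lev x + 1 = i := by
  classical
  unfold near; simp

lemma mem_dbL {i : ℕ} {x : P} : x ∈ dbL P i ↔ lev x = i + 1 ∧ (uc x).card = 2 := by
  classical
  unfold dbL; simp

lemma mem_dbU {i : ℕ} {x : P} : x ∈ dbU P i ↔ lev x + 1 = i ∧ (dc x).card = 2 := by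
  classical
  unfold dbU; simp

lemma mem_Tch {i : ℕ} {e : P → ℕ} {x : P} : x ∈ Tch i e ↔
    (lev x = i + 1 ∧ ∃ z, z ⋖ x ∧ 0 < e z) ∨ (lev x + 1 = i ∧ ∃ y, x ⋖ y ∧ 0 < e y) := by
  classical
  unfold Tch; simp

lemma lev_uc (H : Gr P r) {x v : P} (h : v ∈ uc x) : lev x = lev v + 1 :=
  (H.covBy_iff.mp (mem_uc.mp h)).2

lemma lev_dc (H : Gr P r) {x v : P} (h : v ∈ dc x) : lev v = lev x + 1 :=
  (H.covBy_iff.mp (mem_dc.mp h)).2

/-- from `exists_lev_succ` and `H.covBy_iff` -/
lemma uc_nonempty (H : Gr P r) {x : P} (h : 1 ≤ lev x) : (uc x).Nonempty := by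
  obtain ⟨y, hy, hy2⟩ := exists_lev_succ (x := x) (k := lev x - 1) (by omega)
  exact ⟨y, mem_uc.mpr (H.covBy_iff.mpr ⟨hy, by omega⟩)⟩

/-- from `H.exists_below` and `H.covBy_iff` -/
lemma dc_nonempty (H : Gr P r) {x : P} (h : lev x < r) : (dc x).Nonempty := by
  obtain ⟨z, hz, hz2⟩ := H.exists_below (x := x) (j := lev x + 1) (by omega) (by omega)
  have hne : z ≠ x := by
    intro h1
    subst h1
    omega
  exact ⟨z, mem_dc.mpr (H.covBy_iff.mpr ⟨lt_of_le_of_ne hz hne, hz2⟩)⟩

/-- at most two upper covers: `two_up`, or `energy_one` and `up` -/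
lemma uc_card_le (H : Gr P r) (x : P) : (uc x).card ≤ 2 := by
  classical
  rcases (uc x).eq_empty_or_nonempty with h0 | ⟨a, ha⟩
  · rw [h0, Finset.card_empty]
    omega
  · have hla := lev_uc H ha
    have h1 := (energy_one H (j := lev a) (H.lev_le a)).2.1 x hla
    refine le_trans (Finset.card_le_card ?_) h1
    intro y hy
    rw [mem_filter, mem_lv]
    have hly := lev_uc H hy
    exact ⟨by omega, (mem_uc.mp hy).lt⟩

/-- at most two lower covers: `two_low`, or `energy_one` and `dn` -/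
lemma dc_card_le (H : Gr P r) (x : P) : (dc x).card ≤ 2 := by
  classical
  rcases (dc x).eq_empty_or_nonempty with h0 | ⟨a, ha⟩
  · rw [h0, Finset.card_empty]
    omega
  · have hla := lev_dc H ha
    have h1 := (energy_one H (j := lev x + 1) (by have := H.lev_le a; omega)).1 x rfl
    refine le_trans (Finset.card_le_card ?_) h1
    intro y hy
    rw [mem_filter, mem_lv]
    exact ⟨lev_dc H hy, (mem_dc.mp hy).lt⟩

end Pool.Agent.GaussPoset.Win
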