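import Pool.Agent.W_448win_h16.BaB
import Pool.Agent.W_448win_h16.E2Final
import Pool.Agent.W_448win_h16.FactA

/-! The numbers of the row. -/

namespace Pool.Agent.GaussPoset.Win

set_option linter.unusedSectionVars false

open Finset

universe u

variable {P : Type u} [Fintype P] [PartialOrder P] [DecidableEq P] {r : ℕ}

/-- arithmetic data of a row: `α k` for `1 ≤ k ≤ m` and `β` -/
structure RowSeq (m : ℕ) (α : ℕ → ℤ) (β : ℤ) : Prop where
  lo : ∀ k, 1 ≤ k → k ≤ m → -1 ≤ α k
  hb : 0 ≤ β
  s_le : ∀ k, 1 ≤ k → k + 1 ≤ m → α k + α (k + 1) ≤ 0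
  end0 : α 1 + β ≤ 1
  endm : α m + β ≤ 1
  du : ∑ k ∈ Icc 1 m, α k + β = 0
  sq : ∑ k ∈ Icc 1 m, α k ^ 2 + β ^ 2 = (α 1 + β) ^ 2 + (α m + β) ^ 2 +
    ∑ k ∈ Icc 1 (m - 1), (α k + α (k + 1)) ^ 2

lemma dcv_comm (v v' : P) : dcv v v' = dcv v' v := by
  classical
  unfold dcv
  congr 1
  ext y
  simp only [mem_filter, mem_univ, true_and]
  exact and_comm

lemma ucv_comm (v v' : P) : ucv v v' = ucv v' v := by
  classical
  unfold ucv
  congr 1
  ext y
  simp only [mem_filter, mem_univ, true_and]
  exact and_comm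

/-- levels of upper covers -/
private lemma uc_card_eq_up (H : Gr P r) {j : ℕ} {y : P} (hy : lev y = j + 1) :
    (uc y).card = up j y := by
  classical
  unfold up
  congr 1
  ext v
  rw [mem_uc, mem_filter, mem_lv, H.covBy_iff]
  constructor
  · rintro ⟨h1, h2⟩
    exact ⟨by omega, h1⟩
  · rintro ⟨h1, h2⟩
    exact ⟨h2, by omega⟩

open Classical in
/-- Double lower elements: `(dbL P j).card + 1 = (lv P j).card` if there is one maximal element:
`count_two` and `count_eq` (`dn j y = 2` iff `(dc y).card = 2` etc. by `H.covBy_iff`). -/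
theorem card_dbL (H : Gr P r) (h0 : (lv P 0).card = 1) {j : ℕ} (hj : j ≤ r) :
    (dbL P j).card + 1 = (lv P j).card := by
  have h1 := count_two H j hj
  have h2 := count_eq H hj
  rw [h0, h2] at h1
  rw [← h1]
  congr 2
  ext y
  rw [mem_filter, mem_lv]
  unfold dbL
  rw [mem_filter]
  constructor
  · rintro ⟨-, h3, h4⟩
    exact ⟨h3, by rw [← uc_card_eq_up H h3]; exact h4⟩
  · rintro ⟨h3, h4⟩
    exact ⟨mem_univ _, h3, by rw [uc_card_eq_up H h3]; exact h4⟩

/-- sums over level `j` in terms of the row (`Row.inj`, `Row.surj`, `Row.lev_x`) -/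
theorem row_sum {j m : ℕ} {e : ℕ → ℕ → P} (hR : Row j m e) (f : P → ℤ) :
    ∑ v ∈ lv P j, f v = ∑ k ∈ range (m + 1), f (e k (j - k)) := by
  classical
  have h : lv P j = (range (m + 1)).image (fun k => e k (j - k)) := by
    ext v
    rw [mem_lv, mem_image]
    constructor
    · intro hv
      obtain ⟨k, hk, h⟩ := hR.surj v hv
      exact ⟨k, mem_range.2 (by omega), h⟩
    · rintro ⟨k, hk, rfl⟩
      exact hR.lev_x k (by have := mem_range.1 hk; omega)
  rw [h, sum_image]
  intro k hk k' hk' h
  have a := mem_range.1 hk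
  have b := mem_range.1 hk'
  exact hR.inj k (by omega) k' (by omega) h

/-- the upper covers of a common lower cover -/
private lemma uc_of_pair (H : Gr P r) {j m : ℕ} {e : ℕ → ℕ → P} (hR : Row j m e) {a b : ℕ}
    (ha : a ≤ m) (hb : b ≤ m) (hab : a ≠ b) {y : P} (h1 : y ⋖ e a (j - a))
    (h2 : y ⋖ e b (j - b)) : uc y = {e a (j - a), e b (j - b)} := by
  classical
  have hne : e a (j - a) ≠ e b (j - b) := fun h => hab (hR.inj a ha b hb h)
  symm
  apply eq_of_subset_of_card_le
  · intro x hx
    rw [mem_insert, mem_singleton] at hx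
    rcases hx with rfl | rfl
    · exact mem_uc.2 h1
    · exact mem_uc.2 h2
  · rw [card_pair hne]
    exact uc_card_le H y

/-- the numbers of lower covers: a row element `x_k` has at most two lower covers, and common lower covers with
two different elements are different elements (an element has at most two upper covers) -/
theorem row_deg (H : Gr P r) {j m : ℕ} {e : ℕ → ℕ → P} (hR : Row j m e) {a b c : ℕ}
    (ha : a ≤ m) (hb : b ≤ m) (hc : c ≤ m) (hab : a ≠ b) (hac : a ≠ c) (hbc : b ≠ c) :
    dcv (e a (j - a)) (e b (j - b)) + dcv (e a (j - a)) (e c (j - c)) ≤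
      (dc (e a (j - a))).card := by
  classical
  unfold dcv
  rw [← card_union_of_disjoint]
  · apply card_le_card
    intro y hy
    rw [mem_union, mem_filter, mem_filter] at hy
    rcases hy with hy | hy
    · exact mem_dc.2 hy.2.1
    · exact mem_dc.2 hy.2.1
  · rw [disjoint_left]
    intro y hy hy'
    rw [mem_filter] at hy hy'
    have h1 := uc_of_pair H hR ha hb hab hy.2.1 hy.2.2
    have h2 : e c (j - c) ∈ uc y := mem_uc.2 hy'.2.2
    rw [h1, mem_insert, mem_singleton] at h2
    rcases h2 with h2 | h2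
    · exact hac (hR.inj c hc a ha h2).symm
    · exact hbc (hR.inj c hc b hb h2).symm

/-- Number of double elements of level `j + 1`: every element of `dbL P j` is a common lower cover of exactly
one pair `x_a`, `x_b`, `a < b`. -/
theorem row_dbL (H : Gr P r) {j m : ℕ} {e : ℕ → ℕ → P} (hR : Row j m e) :
    (dbL P j).card = ∑ b ∈ range (m + 1), ∑ a ∈ range b, dcv (e a (j - a)) (e b (j - b)) := by
  classical
  have h : dbL P j = (range (m + 1)).biUnion (fun b => (range b).biUnion (fun a =>
      univ.filter (fun y : P => y ⋖ e a (j - a) ∧ y ⋖ e b (j - b)))) := by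
    ext y
    simp only [mem_biUnion, mem_range, mem_filter, mem_univ, true_and]
    rw [mem_dbL]
    constructor
    · rintro ⟨h1, h2⟩
      obtain ⟨u, v, huv, h3⟩ := card_eq_two.1 h2
      have hu : y ⋖ u := mem_uc.1 (by rw [h3]; simp)
      have hv : y ⋖ v := mem_uc.1 (by rw [h3]; simp)
      obtain ⟨k, hk, hk2⟩ := hR.surj u (by have := (H.covBy_iff.1 hu).2; omega)
      obtain ⟨k', hk', hk2'⟩ := hR.surj v (by have := (H.covBy_iff.1 hv).2; omega)
      rcases lt_trichotomy k k' with hlt | heq | hlt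
      · exact ⟨k', by omega, k, hlt, by rw [hk2]; exact hu, by rw [hk2']; exact hv⟩
      · subst heq
        exact absurd (hk2.symm.trans hk2') huv
      · exact ⟨k, by omega, k', hlt, by rw [hk2']; exact hv, by rw [hk2]; exact hu⟩
    · rintro ⟨b, hb, a, hab, h1, h2⟩
      have h3 := uc_of_pair H hR (a := a) (b := b) (by omega) (by omega) (by omega) h1 h2
      have hne : e a (j - a) ≠ e b (j - b) := by
        intro h
        have := hR.inj a (by omega) b (by omega) h
        omega
      refine ⟨?_, by rw [h3, card_pair hne]⟩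
      rw [(H.covBy_iff.1 h1).2, hR.lev_x a (by omega)]
  have key : ∀ b ∈ range (m + 1), ∀ b' ∈ range (m + 1), ∀ a ∈ range b, ∀ a' ∈ range b', ∀ y : P,
      y ⋖ e a (j - a) → y ⋖ e b (j - b) → y ⋖ e a' (j - a') → y ⋖ e b' (j - b') →
      a = a' ∧ b = b' := by
    intro b hb b' hb' a ha a' ha' y h1 h2 h3 h4
    rw [mem_range] at hb hb' ha ha'
    have h5 := uc_of_pair H hR (a := a) (b := b) (by omega) (by omega) (by omega) h1 h2
    have h6 : e a' (j - a') ∈ uc y := mem_uc.2 h3
    have h7 : e b' (j - b') ∈ uc y := mem_uc.2 h4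
    rw [h5, mem_insert, mem_singleton] at h6 h7
    have h8 : a' = a ∨ a' = b := by
      rcases h6 with h | h
      · exact Or.inl (hR.inj a' (by omega) a (by omega) h)
      · exact Or.inr (hR.inj a' (by omega) b (by omega) h)
    have h9 : b' = a ∨ b' = b := by
      rcases h7 with h | h
      · exact Or.inl (hR.inj b' (by omega) a (by omega) h)
      · exact Or.inr (hR.inj b' (by omega) b (by omega) h)
    omega
  rw [h, card_biUnion]
  · refine sum_congr rfl fun b hb => ?_
    rw [card_biUnion]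
    · rfl
    · intro a ha a' ha' haa
      rw [Function.onFun, disjoint_left]
      intro y hy hy'
      rw [mem_filter] at hy hy'
      exact haa (key b hb b hb a ha a' ha' y hy.2.1 hy.2.2 hy'.2.1 hy'.2.2).1
  · intro b hb b' hb' hbb
    rw [Function.onFun, disjoint_left]
    intro y hy hy'
    rw [mem_biUnion] at hy hy'
    obtain ⟨a, ha, hy⟩ := hy
    obtain ⟨a', ha', hy'⟩ := hy'
    rw [mem_filter] at hy hy'
    exact hbb (key b hb b' hb' a ha a' ha' y hy.2.1 hy.2.2 hy'.2.1 hy'.2.2).2

/-- If all neighbours have one common lower cover and the other pairs none then the level is good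
(`Row.ucv_x`, `Row.surj`, `dcv_comm`). -/
theorem good_of_row {j m : ℕ} {e : ℕ → ℕ → P} (hR : Row j m e)
    (h1 : ∀ k, 1 ≤ k → k ≤ m → dcv (e (k - 1) (j - (k - 1))) (e k (j - k)) = 1)
    (h2 : ∀ a b, a < b → b ≤ m → b ≠ a + 1 → dcv (e a (j - a)) (e b (j - b)) = 0) :
    Good P j := by
  intro v v' hv hv' hne
  obtain ⟨a, ha, rfl⟩ := hR.surj v hv
  obtain ⟨b, hb, rfl⟩ := hR.surj v' hv'
  have hab : a ≠ b := by
    rintro rfl
    exact hne rfl
  rw [hR.ucv_x a ha b hb hab]
  rcases lt_or_gt_of_ne hab with h | h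
  · by_cases h3 : b = a + 1
    · subst h3
      have := h1 (a + 1) (by omega) hb
      rw [Nat.add_sub_cancel] at this
      rw [this, if_pos (Or.inl rfl)]
    · rw [h2 a b h hb h3, if_neg (by omega)]
  · rw [dcv_comm]
    by_cases h3 : a = b + 1
    · subst h3
      have := h1 (b + 1) (by omega) ha
      rw [Nat.add_sub_cancel] at this
      rw [this, if_pos (Or.inr rfl)]
    · rw [h2 b a h ha h3, if_neg (by omega)]

end Pool.Agent.GaussPoset.Win
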