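import Pool.Agent.W_448win_h16.BaA

/-! PU in the open cases. -/

namespace Pool.Agent.GaussPoset.Win

set_option linter.unusedSectionVars false

open Finset

universe u

variable {P : Type u} [Fintype P] [PartialOrder P] [DecidableEq P] {r : ℕ}

lemma BaP_rg {t : Option ℕ} {i c : ℕ} (h : Rg t i c) : Rg t i (c + 1) := by
  cases t with
  | some n => exact h
  | none => exact Nat.le_succ_of_le h

/-- two lower covers -/
lemma BaP_two (H : Gr P r) {t : Option ℕ} {j : ℕ} {e : ℕ → ℕ → P} (hT : Crd t j e)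
    {i c : ℕ} (h1 : Rg t i c) (h2 : i + c < j) (h3 : Rg t (i + 1) c) :
    (dc (e i c)).card = 2 := by
  classical
  rw [Finset.card_eq_two]
  refine ⟨e (i + 1) c, e i (c + 1), ?_, ?_⟩
  · intro h
    have := (hT.inj h3 (by omega) (BaP_rg h1) (by omega) h).1
    omega
  · ext y
    rw [mem_dc, hT.dc_iff H h1 h2, mem_insert, mem_singleton]
    constructor
    · rintro (⟨_, h⟩ | ⟨_, h⟩)
      · exact Or.inl h
      · exact Or.inr h
    · rintro (h | h)
      · exact Or.inl ⟨h3, h⟩
      · exact Or.inr ⟨BaP_rg h1, h⟩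

/-- one lower cover -/
lemma BaP_one (H : Gr P r) {t : Option ℕ} {j : ℕ} {e : ℕ → ℕ → P} (hT : Crd t j e)
    {i c : ℕ} (h1 : Rg t i c) (h2 : i + c < j) (h3 : ¬ Rg t (i + 1) c) :
    dc (e i c) = {e i (c + 1)} := by
  classical
  ext y
  rw [mem_dc, hT.dc_iff H h1 h2, mem_singleton]
  constructor
  · rintro (⟨h, _⟩ | ⟨_, h⟩)
    · exact absurd h h3
    · exact h
  · intro h
    exact Or.inr ⟨BaP_rg h1, h⟩

/-- strip: an element with one lower cover (`l ≤ j`, level at most `l - 2`) is `(m, c)`, its lower cover `(m, c+1)` has one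
lower cover -/
theorem PU_R2 (H : Gr P r) {j m l : ℕ} {e : ℕ → ℕ → P} (hj : m + 1 ≤ j) (hl : l ≤ j)
    (hT : Crd (some (m + 1)) j e) : PU P l = ∅ := by
  classical
  unfold PU
  rw [Finset.filter_eq_empty_iff]
  rintro x _ ⟨h1, h2, u, hu, h3⟩
  obtain ⟨i, c, a1, a2, rfl⟩ := hT.surj x (by omega)
  have a4 := hT.lev_e i c a1 a2
  have a1' : i < m + 1 := a1
  by_cases hi : i < m
  · rw [BaP_two H hT a1 (by omega) (show i + 1 < m + 1 by omega)] at h2
    omega
  · have hn : ¬ Rg (some (m + 1)) (i + 1) c := by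
      intro h
      have h' : i + 1 < m + 1 := h
      omega
    have h5 := BaP_one H hT a1 (by omega) hn
    rw [← mem_dc, h5, mem_singleton] at hu
    subst hu
    have hn' : ¬ Rg (some (m + 1)) (i + 1) (c + 1) := by
      intro h
      have h' : i + 1 < m + 1 := h
      omega
    rw [BaP_one H hT (BaP_rg a1) (by omega) hn', card_singleton] at h3
    omega

/-- shifted quadrant, level `2m - 2`: only `(m-1, m-1)` has one lower cover, `(m-1, m)`, which has two -/
theorem PU_S2 (H : Gr P r) {m : ℕ} {e : ℕ → ℕ → P} (hm : 1 ≤ m)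
    (hT : Crd none (2 * m + 1) e) : PU P (2 * m) = {e (m - 1) (m - 1)} := by
  classical
  unfold PU
  ext x
  rw [mem_filter, mem_singleton]
  constructor
  · rintro ⟨_, h1, h2, u, hu, h3⟩
    obtain ⟨i, c, a1, a2, rfl⟩ := hT.surj x (by omega)
    have a4 := hT.lev_e i c a1 a2
    have a1' : i ≤ c := a1
    by_cases hi : i < c
    · rw [BaP_two H hT a1 (by omega) (show i + 1 ≤ c by omega)] at h2
      omega
    · have e1 : i = m - 1 := by omega
      have e2 : c = m - 1 := by omega
      rw [e1, e2]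
  · rintro rfl
    have a1 : Rg none (m - 1) (m - 1) := le_refl (m - 1)
    have a4 := hT.lev_e (m - 1) (m - 1) a1 (by omega)
    have hn : ¬ Rg none (m - 1 + 1) (m - 1) := by
      intro h
      have h' : m - 1 + 1 ≤ m - 1 := h
      omega
    have h5 := BaP_one H hT a1 (by omega) hn
    refine ⟨mem_univ _, by omega, by rw [h5, card_singleton], e (m - 1) (m - 1 + 1), ?_, ?_⟩
    · rw [← mem_dc, h5, mem_singleton]
    · exact BaP_two H hT (BaP_rg a1) (by omega) (le_refl (m - 1 + 1))

/-- shifted quadrant, level `2m - 1`: all elements `(i, c)` have `i < c`, two lower covers -/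
theorem PU_S2' (H : Gr P r) {m : ℕ} {e : ℕ → ℕ → P} (hm : 1 ≤ m)
    (hT : Crd none (2 * m + 1) e) : PU P (2 * m + 1) = ∅ := by
  classical
  unfold PU
  rw [Finset.filter_eq_empty_iff]
  rintro x _ ⟨h1, h2, u, hu, h3⟩
  obtain ⟨i, c, a1, a2, rfl⟩ := hT.surj x (by omega)
  have a4 := hT.lev_e i c a1 a2
  have a1' : i ≤ c := a1
  rw [BaP_two H hT a1 (by omega) (show i + 1 ≤ c by omega)] at h2
  omega

end Pool.Agent.GaussPoset.Win
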