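import Pool.Agent.W_448win_h16.BbA
import Pool.Agent.W_448win_h16.BaG

/-! Case R2, the matching. -/

namespace Pool.Agent.GaussPoset.Win

set_option linter.unusedSectionVars false

open Finset

universe u

variable {P : Type u} [Fintype P] [PartialOrder P] [DecidableEq P] {r : ℕ}

/-- an element with two given upper covers has no other upper cover -/
lemma BbD_uc (H : Gr P r) {w a b : P} (hab : a ≠ b) (ha : w ⋖ a) (hb : w ⋖ b) : uc w = {a, b} := by
  have h2 : ({a, b} : Finset P) ⊆ uc w := by
    intro y hy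
    rw [Finset.mem_insert, Finset.mem_singleton] at hy
    rcases hy with rfl | rfl
    · exact mem_uc.2 ha
    · exact mem_uc.2 hb
  refine (Finset.eq_of_subset_of_card_le h2 ?_).symm
  rw [Finset.card_pair hab]
  exact uc_card_le H w

lemma BbD_dc (H : Gr P r) {w a b : P} (hab : a ≠ b) (ha : a ⋖ w) (hb : b ⋖ w) : dc w = {a, b} := by
  have h2 : ({a, b} : Finset P) ⊆ dc w := by
    intro y hy
    rw [Finset.mem_insert, Finset.mem_singleton] at hy
    rcases hy with rfl | rfl
    · exact mem_dc.2 ha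
    · exact mem_dc.2 hb
  refine (Finset.eq_of_subset_of_card_le h2 ?_).symm
  rw [Finset.card_pair hab]
  exact dc_card_le H w

open Classical in
/-- numbers of common covers outside `K` -/
lemma BbD_count (p : P → Prop) (K : Finset P) (w : P) (hw : ∀ y ∈ K, p y → y = w) (hwK : w ∈ K) :
    (univ.filter (fun y : P => p y ∧ y ∉ K)).card + (if p w then 1 else 0) =
      (univ.filter (fun y : P => p y)).card := by
  by_cases h : p w
  · rw [if_pos h]
    have h1 : univ.filter (fun y : P => p y) = insert w (univ.filter (fun y : P => p y ∧ y ∉ K)) := by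
      ext y
      rw [Finset.mem_insert, Finset.mem_filter, Finset.mem_filter]
      constructor
      · rintro ⟨_, hy⟩
        by_cases hyK : y ∈ K
        · exact Or.inl (hw y hyK hy)
        · exact Or.inr ⟨Finset.mem_univ _, hy, hyK⟩
      · rintro (rfl | ⟨_, hy, _⟩)
        · exact ⟨Finset.mem_univ _, h⟩
        · exact ⟨Finset.mem_univ _, hy⟩
    rw [h1, Finset.card_insert_of_notMem]
    intro h2
    rw [Finset.mem_filter] at h2
    exact h2.2.2 hwK
  · rw [if_neg h, add_zero]
    congr 1
    ext y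
    rw [Finset.mem_filter, Finset.mem_filter]
    constructor
    · rintro ⟨_, hy, _⟩
      exact ⟨Finset.mem_univ _, hy⟩
    · rintro ⟨_, hy⟩
      refine ⟨Finset.mem_univ _, hy, fun hyK => ?_⟩
      have := hw y hyK hy
      subst this
      exact h hy

/-- The matching in case R2. `w0` one of the two common lower covers of `x_(m-1)`, `x_m`, `u0` the common
upper cover of `x_(m-2)`, `x_(m-1)`. `uc w0 = {x_m, x_(m-1)}` and `dc u0 = {x_(m-1), x_(m-2)}` (at most two
covers). `mat_exists` with `K = {w0, u0}`: for the pair `x_(m-1), x_m` the numbers are `1, 1`, for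
`x_(m-2), x_(m-1)` they are `0, 0`, for other neighbours `1, 1`, for other pairs `0, 0`. -/
theorem R2_mat (H : Gr P r) {j m : ℕ} {e : ℕ → ℕ → P} (hm : 3 ≤ m) (hj : m + 1 ≤ j)
    (hr : j + 1 ≤ r) (hR : Row j m e)
    (v1 : dcv (e (m - 1) (j - (m - 1))) (e m (j - m)) = 2)
    (v2 : dcv (e (m - 2) (j - (m - 2))) (e (m - 1) (j - (m - 1))) = 0)
    (v3 : ∀ k, 1 ≤ k → k + 2 ≤ m → dcv (e (k - 1) (j - (k - 1))) (e k (j - k)) = 1)
    (v4 : ∀ a b, a < b → b ≤ m → b ≠ a + 1 → dcv (e a (j - a)) (e b (j - b)) = 0) :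
    ∃ (w0 u0 : P) (psi : P → P), lev w0 = j + 1 ∧ lev u0 + 1 = j ∧
      uc w0 = {e m (j - m), e (m - 1) (j - (m - 1))} ∧
      dc u0 = {e (m - 1) (j - (m - 1)), e (m - 2) (j - (m - 2))} ∧
      Mat P j {w0, u0} psi := by
  classical
  have hinj := hR.inj
  have hlev := hR.lev_x
  have hne : ∀ a ≤ m, ∀ b ≤ m, a ≠ b → e a (j - a) ≠ e b (j - b) := fun a ha b hb hab h =>
    hab (hinj a ha b hb h)
  have hucv := hR.ucv_x
  have v0 : ∀ a b, a < b → b ≤ m → ucv (e a (j - a)) (e b (j - b)) = if b = a + 1 then 1 else 0 := by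
    intro a b hab hb
    rw [hucv a (by omega) b hb (by omega)]
    by_cases h : b = a + 1
    · rw [if_pos h, if_pos (Or.inl h.symm)]
    · rw [if_neg h, if_neg (by omega)]
  obtain ⟨w0, hw0⟩ : ∃ w0, w0 ⋖ e (m - 1) (j - (m - 1)) ∧ w0 ⋖ e m (j - m) := by
    unfold dcv at v1
    obtain ⟨w, hw⟩ := Finset.card_pos.1 (by rw [v1]; norm_num)
    rw [Finset.mem_filter] at hw
    exact ⟨w, hw.2⟩
  obtain ⟨u0, hu0⟩ : ∃ u0, e (m - 2) (j - (m - 2)) ⋖ u0 ∧ e (m - 1) (j - (m - 1)) ⋖ u0 := by
    have h1 := v0 (m - 2) (m - 1) (by omega) (by omega)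
    rw [if_pos (by omega)] at h1
    unfold ucv at h1
    obtain ⟨w, hw⟩ := Finset.card_pos.1 (by rw [h1]; norm_num)
    rw [Finset.mem_filter] at hw
    exact ⟨w, hw.2⟩
  have lw0 : lev w0 = j + 1 := by
    have h1 := (H.covBy_iff.mp hw0.2).2
    rw [hlev m le_rfl] at h1
    exact h1
  have lu0 : lev u0 + 1 = j := by
    have h1 := (H.covBy_iff.mp hu0.2).2
    rw [hlev (m - 1) (by omega)] at h1
    omega
  have huw0 : uc w0 = {e m (j - m), e (m - 1) (j - (m - 1))} :=
    BbD_uc H (hne m le_rfl (m - 1) (by omega) (by omega)) hw0.2 hw0.1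
  have hdu0 : dc u0 = {e (m - 1) (j - (m - 1)), e (m - 2) (j - (m - 2))} :=
    BbD_dc H (hne (m - 1) (by omega) (m - 2) (by omega) (by omega)) hu0.2 hu0.1
  -- the common covers
  have cw0 : ∀ a b, a < b → b ≤ m → ((w0 ⋖ e a (j - a) ∧ w0 ⋖ e b (j - b)) ↔
      (a = m - 1 ∧ b = m)) := by
    intro a b hab hb
    constructor
    · rintro ⟨h1, h2⟩
      rw [← mem_uc, huw0, Finset.mem_insert, Finset.mem_singleton] at h1 h2
      have h3 : a = m ∨ a = m - 1 := h1.imp (hinj _ (by omega) _ (by omega))
        (hinj _ (by omega) _ (by omega))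
      have h4 : b = m ∨ b = m - 1 := h2.imp (hinj _ (by omega) _ (by omega))
        (hinj _ (by omega) _ (by omega))
      omega
    · rintro ⟨rfl, rfl⟩
      exact hw0
  have cu0 : ∀ a b, a < b → b ≤ m → ((e a (j - a) ⋖ u0 ∧ e b (j - b) ⋖ u0) ↔
      (a = m - 2 ∧ b = m - 1)) := by
    intro a b hab hb
    constructor
    · rintro ⟨h1, h2⟩
      rw [← mem_dc, hdu0, Finset.mem_insert, Finset.mem_singleton] at h1 h2
      have h3 : a = m - 1 ∨ a = m - 2 := h1.imp (hinj _ (by omega) _ (by omega))
        (hinj _ (by omega) _ (by omega))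
      have h4 : b = m - 1 ∨ b = m - 2 := h2.imp (hinj _ (by omega) _ (by omega))
        (hinj _ (by omega) _ (by omega))
      omega
    · rintro ⟨rfl, rfl⟩
      exact hu0
  have main : ∀ a b, a < b → b ≤ m →
      (univ.filter (fun y : P => (e a (j - a) ⋖ y ∧ e b (j - b) ⋖ y) ∧
        y ∉ ({w0, u0} : Finset P))).card =
      (univ.filter (fun y : P => (y ⋖ e a (j - a) ∧ y ⋖ e b (j - b)) ∧
        y ∉ ({w0, u0} : Finset P))).card := by
    intro a b hab hb
    have h1 := BbD_count (fun y => e a (j - a) ⋖ y ∧ e b (j - b) ⋖ y) {w0, u0} u0 (by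
      intro y hy hp
      rw [Finset.mem_insert, Finset.mem_singleton] at hy
      rcases hy with rfl | rfl
      · have h2 := (H.covBy_iff.mp hp.1).2
        have h3 := hlev a (by omega)
        omega
      · rfl) (by simp)
    have h2 := BbD_count (fun y => y ⋖ e a (j - a) ∧ y ⋖ e b (j - b)) {w0, u0} w0 (by
      intro y hy hp
      rw [Finset.mem_insert, Finset.mem_singleton] at hy
      rcases hy with rfl | rfl
      · rfl
      · have h2 := (H.covBy_iff.mp hp.1).2
        have h3 := hlev a (by omega)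
        omega) (by simp)
    replace h1 : (univ.filter (fun y : P => (e a (j - a) ⋖ y ∧ e b (j - b) ⋖ y) ∧
        y ∉ ({w0, u0} : Finset P))).card +
        (if e a (j - a) ⋖ u0 ∧ e b (j - b) ⋖ u0 then 1 else 0) =
        ucv (e a (j - a)) (e b (j - b)) := by
      unfold ucv
      convert h1
    replace h2 : (univ.filter (fun y : P => (y ⋖ e a (j - a) ∧ y ⋖ e b (j - b)) ∧
        y ∉ ({w0, u0} : Finset P))).card +
        (if w0 ⋖ e a (j - a) ∧ w0 ⋖ e b (j - b) then 1 else 0) =
        dcv (e a (j - a)) (e b (j - b)) := by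
      unfold dcv
      convert h2
    rw [v0 a b hab hb, if_congr (cu0 a b hab hb) rfl rfl] at h1
    rw [if_congr (cw0 a b hab hb) rfl rfl] at h2
    by_cases hba : b = a + 1
    · rw [if_pos hba] at h1
      by_cases hbm : b = m
      · have ha : a = m - 1 := by omega
        rw [if_neg (by omega)] at h1
        rw [if_pos ⟨ha, hbm⟩] at h2
        subst hbm
        subst ha
        rw [v1] at h2
        omega
      · by_cases hbm2 : b = m - 1
        · have ha : a = m - 2 := by omega
          rw [if_pos ⟨ha, hbm2⟩] at h1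
          rw [if_neg (by omega)] at h2
          subst hbm2
          subst ha
          rw [v2] at h2
          omega
        · rw [if_neg (by omega)] at h1
          rw [if_neg (by omega)] at h2
          have h3 := v3 b (by omega) (by omega)
          have h4 : b - 1 = a := by omega
          rw [h4] at h3
          rw [h3] at h2
          omega
    · rw [if_neg hba, if_neg (by omega)] at h1
      rw [if_neg (by omega), v4 a b hab hb hba] at h2
      omega
  obtain ⟨psi, hpsi⟩ := mat_exists H (i := j) {w0, u0} (by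
    intro v v' hv hv' hvv
    obtain ⟨a, ha, rfl⟩ := hR.surj v hv
    obtain ⟨b, hb, rfl⟩ := hR.surj v' hv'
    have hab : a ≠ b := by
      rintro rfl
      exact hvv rfl
    rcases lt_or_gt_of_ne hab with h | h
    · convert main a b h hb using 2
    · have h1 := main b a h ha
      have f1 : (univ.filter (fun y : P => (e b (j - b) ⋖ y ∧ e a (j - a) ⋖ y) ∧
          y ∉ ({w0, u0} : Finset P))) = (univ.filter (fun y : P =>
            (e a (j - a) ⋖ y ∧ e b (j - b) ⋖ y) ∧ y ∉ ({w0, u0} : Finset P))) := by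
        ext y
        simp only [Finset.mem_filter, and_comm]
      have f2 : (univ.filter (fun y : P => (y ⋖ e b (j - b) ∧ y ⋖ e a (j - a)) ∧
          y ∉ ({w0, u0} : Finset P))) = (univ.filter (fun y : P =>
            (y ⋖ e a (j - a) ∧ y ⋖ e b (j - b)) ∧ y ∉ ({w0, u0} : Finset P))) := by
        ext y
        simp only [Finset.mem_filter, and_comm]
      rw [f1, f2] at h1
      convert h1 using 2)
  exact ⟨w0, u0, psi, lw0, lu0, huw0, hdu0, hpsi⟩

end Pool.Agent.GaussPoset.Win
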