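import Pool.Agent.W_448win_h16.BbB
import Pool.Agent.W_448win_h16.BbC
import Pool.Agent.W_448win_h16.BbD
import Pool.Agent.W_448win_h16.BWFinal

/-! Case R2. -/

namespace Pool.Agent.GaussPoset.Win

set_option linter.unusedSectionVars false

open Finset

universe u

variable {P : Type u} [Fintype P] [PartialOrder P] [DecidableEq P] {r : ℕ}

/-- Case R2. `open_case`; in the second alternative `PU P j = ∅` (`PU_R2`), so `PD P j = ∅` by
`E21` and `R2_sums` (`4 |PD| + 4 - 4 = 0`); `dn j x ≤ 3` for `lev x + 2 = j` (`Crd.dn_two`);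
`R2_mat` and `BW` with `p = x_m`, `q = x_(m-1)`, `s = x_(m-2)` give `z` of level `j + 2` with
`z < x_m`, not `z < x_(m-1)`. But `z` is below a lower cover of `x_m` (`exists_covBy_le_of_lt` or
`mem_sts_iff` and `up j z = 4`), and `x_m` has exactly two lower covers, the two common lower covers of `x_(m-1)`,
`x_m` (`v1`, `dc_card_le`). Contradiction. -/
theorem bad_R2 (H : Gr P r) (h0 : (lv P 0).card = 1) {j m : ℕ} {e : ℕ → ℕ → P} (hm : 3 ≤ m)
    (hj : m + 1 ≤ j) (hr : 2 * j ≤ r) (hT : Crd (some (m + 1)) j e) (hg : Good P (j - 1)) :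
    Good P j := by
  classical
  rcases open_case H h0 hm hj hr hT hg with hG | ⟨v1, v2, v3, v4⟩
  · exact hG
  exfalso
  have hU : PU P j = ∅ := PU_R2 H hj le_rfl hT
  have hU' : PU P (j - 1) = ∅ := PU_R2 H hj (by omega) hT
  have hPD' : PD P (j - 1) = ∅ := by
    have h1 := good_card H (i := j - 1) (by omega) (by omega) hg
    rw [hU', card_empty] at h1
    exact card_eq_zero.1 h1
  have hC := cap_R2 H (by omega) hj hT
  have hR := hC.row
  have hb : 2 ≤ (lv P j).card := by
    have h1 : e 0 (j - 0) ∈ lv P j := mem_lv.2 (hR.lev_x 0 (by omega))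
    have h2 : e 1 (j - 1) ∈ lv P j := mem_lv.2 (hR.lev_x 1 (by omega))
    have h3 : e 0 (j - 0) ≠ e 1 (j - 1) := by
      intro h
      have := hR.inj 0 (by omega) 1 (by omega) h
      omega
    exact Finset.one_lt_card.2 ⟨_, h1, _, h2, h3⟩
  have hD : PD P j = ∅ := by
    obtain ⟨s1, s2, s3⟩ := R2_sums H hm hj (by omega) hT hPD' v1 v2 v3 v4
    have hE := E21 H (i := j) (by omega) (by omega) hb
    rw [s1, s2, s3, hU, card_empty] at hE
    have h1 : (PD P j).card = 0 := by
      push_cast at hE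
      omega
    exact card_eq_zero.1 h1
  have h3 : ∀ x : P, lev x + 2 = j → dn j x ≤ 3 := by
    intro x hx
    obtain ⟨i, c, a1, a2, a3⟩ := hT.surj x (by omega)
    have a4 := hT.lev_e i c a1 a2
    rw [a3] at a4
    have a5 := (hT.dn_two a1 (by omega)).2
    have a6 : i + c + 2 = j := by omega
    rw [a6, a3] at a5
    exact a5
  obtain ⟨w0, u0, psi, hw, hu, hw2, hu2, hM⟩ := R2_mat H hm hj (by omega) hR v1 v2 v3 v4
  have hpq : e m (j - m) ≠ e (m - 1) (j - (m - 1)) := by
    intro h
    have := hR.inj m le_rfl (m - 1) (by omega) h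
    omega
  have hqs : e (m - 1) (j - (m - 1)) ≠ e (m - 2) (j - (m - 2)) := by
    intro h
    have := hR.inj (m - 1) (by omega) (m - 2) (by omega) h
    omega
  have hps : e m (j - m) ≠ e (m - 2) (j - (m - 2)) := by
    intro h
    have := hR.inj m le_rfl (m - 2) (by omega) h
    omega
  obtain ⟨z, hz, -, hzp, hzq, -⟩ := BW H (by omega) (by omega) hw hu hpq hqs hps hw2 hu2 hM hD hU h3
  obtain ⟨w, hzw, hwp⟩ := exists_le_covBy_of_lt hzp
  have h4 : univ.filter (fun y : P => y ⋖ e (m - 1) (j - (m - 1)) ∧ y ⋖ e m (j - m)) =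
      dc (e m (j - m)) := by
    refine Finset.eq_of_subset_of_card_le ?_ ?_
    · intro y hy
      rw [mem_filter] at hy
      exact mem_dc.2 hy.2.2
    · have h5 := dc_card_le H (e m (j - m))
      have h6 : (univ.filter (fun y : P => y ⋖ e (m - 1) (j - (m - 1)) ∧ y ⋖ e m (j - m))).card
          = 2 := by
        rw [← v1]
        unfold dcv
        congr
      omega
  have h5 : w ∈ dc (e m (j - m)) := mem_dc.2 hwp
  rw [← h4, mem_filter] at h5
  exact hzq (lt_of_le_of_lt hzw h5.2.1.lt)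

end Pool.Agent.GaussPoset.Win
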