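import Pool.Agent.W_448win_h16.PlE

/-! The identities (32), (31), (42) at a good level. -/

namespace Pool.Agent.GaussPoset.Win

set_option linter.unusedSectionVars false

open Finset

universe u

variable {P : Type u} [Fintype P] [PartialOrder P] [DecidableEq P] {r : ℕ}

/-- identity (32) -/
theorem I32 (H : Gr P r) {i : ℕ} (hi : 1 ≤ i) (hi2 : i + 1 ≤ r) (hg : Good P i) :
    (∀ z : P, lev z = i + 2 → up i z ≤ 3) ∧ (∀ x : P, lev x + 2 = i → dn i x ≤ 3) :=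
  I32' H hi hi2 hg

open Classical in
/-- identity (31) -/
theorem I31 (H : Gr P r) {i : ℕ} (hi : 1 ≤ i) (hi2 : i + 1 ≤ r) (hg : Good P i)
    (hD : PD P i = ∅) (hU : PU P i = ∅) :
    (univ.filter (fun z : P => lev z = i + 2 ∧ up i z = 3)).card =
      (univ.filter (fun x : P => lev x + 2 = i ∧ dn i x = 3)).card :=
  I31' H hi hi2 hg hD hU

/-- identity (42) -/
theorem I42 (H : Gr P r) {i : ℕ} (hi : 1 ≤ i) (hi2 : i + 1 ≤ r) (hg : Good P i)
    (hD : (PD P i).card ≤ 1) (hU : (PU P i).card ≤ 1) :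
    (∀ z : P, lev z = i + 2 → up i z = 3 → ∃ v, lev v = i ∧ ∀ w, z ⋖ w → w ⋖ v) ∧
    (∀ x : P, lev x + 2 = i → dn i x = 3 → ∃ v, lev v = i ∧ ∀ u, u ⋖ x → v ⋖ u) ∧
    (∀ z ∈ PD P i, ∀ x ∈ PU P i, ∃ v, lev v = i ∧ z < v ∧ v < x) := by
  classical
  have h := I42_count H hi hi2 hg hD hU
  have h1 := card_ZV_le (P := P) H (i := i)
  have h2 := card_XV_le (P := P) H (i := i) (by omega)
  have e1 : (ZV P i).card = (Z3 P i).card := by omega
  have e2 : (XV P i).card = (X3 P i).card := by omega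
  have e3 : (CC P i).card = 0 := by omega
  refine ⟨fun z hz hz3 => ?_, fun x hx hx3 => ?_, fun z hz x hx => ?_⟩
  · obtain ⟨v, hv⟩ := h1.2 e1 z (by unfold Z3; simp [hz, hz3])
    unfold ZV at hv
    rw [mem_filter] at hv
    exact ⟨v, (mem_sts.mp hv.2.2.1).1, fun w hw => mem_uc.mp (hv.2.2.2 w (mem_uc.mpr hw))⟩
  · obtain ⟨v, hv⟩ := h2.2 e2 x (by unfold X3; simp [hx, hx3])
    unfold XV at hv
    rw [mem_filter] at hv
    exact ⟨v, (mem_stD.mp hv.2.2.1).1, fun u hu => mem_dc.mp (hv.2.2.2 u (mem_dc.mpr hu))⟩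
  · rw [Finset.card_eq_zero] at e3
    have h3 : (z, x) ∉ CC P i := by rw [e3]; simp
    unfold CC at h3
    rw [mem_filter] at h3
    have h4 : ¬ Disjoint (sts i z) (stD i x) := fun h5 => h3 ⟨mem_univ _, hz, hx, h5⟩
    rw [Finset.not_disjoint_iff] at h4
    obtain ⟨v, hv1, hv2⟩ := h4
    exact ⟨v, (mem_sts.mp hv1).1, (mem_sts.mp hv1).2, (mem_stD.mp hv2).2⟩

end Pool.Agent.GaussPoset.Win
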