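import Pool.Agent.W_448win_h16.BaD
import Pool.Agent.W_448win_h16.PlFinal

/-! Doubles are below neighbours or below both ends. -/

namespace Pool.Agent.GaussPoset.Win

set_option linter.unusedSectionVars false

open Finset

universe u

variable {P : Type u} [Fintype P] [PartialOrder P] [DecidableEq P] {r : ℕ}

/-- Doubles are below neighbours, or below both ends in the closed case. Suppose `z` is a common lower
cover of `x_a`, `x_b`, `b ≥ a + 2` (`dcv ≠ 0`). `cap_up` and (32) (`I32` at level `j - 1`) exclude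
`1 ≤ a ∧ b ≤ M`. If exactly one of `1 ≤ a`, `b ≤ M` holds then `up (j-1) z = 3` and `I42` gives a `v`
of level `j - 1` above `x_a` and `x_b`, which is `y_c` with `c ∈ {a-1, a}` and
`c ∈ {b-1, b}` (`Cap.surj_y`, `Cap.cov`), impossible. If neither holds then `a = 0`, `b = m = M + 1`. -/
theorem cap_adj (H : Gr P r) {j m M : ℕ} {e : ℕ → ℕ → P} (hj : 2 ≤ j) (hj2 : j ≤ r)
    (hC : Cap j m M e) (hM : M = m ∨ M + 1 = m) (hg : Good P (j - 1))
    (hD : (PD P (j - 1)).card ≤ 1) (hU : (PU P (j - 1)).card ≤ 1) {a b : ℕ} (hab : a < b)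
    (hb : b ≤ m) (hne : b ≠ a + 1) (hc : ¬ (a = 0 ∧ b = m ∧ M + 1 = m)) :
    dcv (e a (j - a)) (e b (j - b)) = 0 := by
  by_contra hcon
  have hz : ∃ z : P, z ⋖ e a (j - a) ∧ z ⋖ e b (j - b) := by
    classical
    unfold dcv at hcon
    obtain ⟨z, hz⟩ := Finset.card_ne_zero.1 hcon
    rw [mem_filter] at hz
    exact ⟨z, hz.2⟩
  obtain ⟨z, hz1, hz2⟩ := hz
  have hla : lev (e a (j - a)) = j := hC.row.lev_x a (by omega)
  have hlz := (H.covBy_iff.1 hz1).2
  have hup := cap_up H (by omega) hC hM hab hb hz1 hz2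
  rw [if_neg hne] at hup
  have h32 := (I32 H (i := j - 1) (by omega) (by omega) hg).1 z (by omega)
  by_cases ha : 1 ≤ a
  · rw [if_pos ha] at hup
    by_cases hbM : b ≤ M
    · rw [if_pos hbM] at hup
      omega
    · rw [if_neg hbM] at hup
      obtain ⟨v, hv, hvw⟩ := (I42 H (i := j - 1) (by omega) (by omega) hg hD hU).1 z (by omega)
        (by omega)
      obtain ⟨c, hc1, rfl⟩ := hC.surj_y v (by omega)
      have h1 := (hC.cov a (by omega) c hc1).1 (hvw _ hz1)
      have h2 := (hC.cov b hb c hc1).1 (hvw _ hz2)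
      omega
  · rw [if_neg ha] at hup
    by_cases hbM : b ≤ M
    · rw [if_pos hbM] at hup
      obtain ⟨v, hv, hvw⟩ := (I42 H (i := j - 1) (by omega) (by omega) hg hD hU).1 z (by omega)
        (by omega)
      obtain ⟨c, hc1, rfl⟩ := hC.surj_y v (by omega)
      have h1 := (hC.cov a (by omega) c hc1).1 (hvw _ hz1)
      have h2 := (hC.cov b hb c hc1).1 (hvw _ hz2)
      omega
    · exact hc ⟨by omega, by omega, by omega⟩

end Pool.Agent.GaussPoset.Win
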