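import Pool.Agent.W_448win_h16.BaG
import Pool.Agent.W_448win_h16.FactA

/-! The numbers of the row satisfy RowSeq. -/

namespace Pool.Agent.GaussPoset.Win

set_option linter.unusedSectionVars false

open Finset

universe u

variable {P : Type u} [Fintype P] [PartialOrder P] [DecidableEq P] {r : ℕ}

theorem BaH_Icc (f : ℕ → ℤ) (n : ℕ) : ∑ k ∈ Icc 1 n, f k = ∑ a ∈ range n, f (a + 1) := by
  induction n with
  | zero => simp
  | succ n ih => rw [Finset.sum_Icc_succ_top (by omega), ih, Finset.sum_range_succ]

theorem BaH_erase (s : Finset P) (v : P) (f : P → ℤ) :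
    ∑ v' ∈ s.erase v, f v' = ∑ v' ∈ s, if v' = v then 0 else f v' := by
  rw [← Finset.sum_erase s (a := v) (by rw [if_pos rfl])]
  refine Finset.sum_congr rfl fun x hx => ?_
  rw [if_neg (Finset.ne_of_mem_erase hx)]

/-- the row matrix -/
def BaHh (m : ℕ) (α : ℕ → ℤ) (β : ℤ) (a b : ℕ) : ℤ :=
  if b = a + 1 then α b else if b + 1 = a then α a else
    if b = m ∧ a = 0 then β else if b = 0 ∧ a = m then β else 0

theorem BaH_row (m : ℕ) (hm : 2 ≤ m) (α : ℕ → ℤ) (β : ℤ) (F : ℤ → ℤ) (hF : F 0 = 0) (a : ℕ)
    (ha : a ≤ m) : ∑ b ∈ range (m + 1), F (BaHh m α β a b) =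
      (if 1 ≤ a then F (α a) else 0) + (if a < m then F (α (a + 1)) else 0) +
        (if a = 0 then F β else 0) + (if a = m then F β else 0) := by
  have h1 : ∀ b, F (BaHh m α β a b) = (if b = a + 1 then F (α (a + 1)) else 0) +
      (if b = a - 1 then (if 1 ≤ a then F (α a) else 0) else 0) +
      (if b = m then (if a = 0 then F β else 0) else 0) +
      (if b = 0 then (if a = m then F β else 0) else 0) := by
    intro b
    unfold BaHh
    by_cases c1 : b = a + 1
    · subst c1
      rw [if_pos rfl, if_pos rfl, if_neg (by omega), if_neg (by omega : ¬ a + 1 = 0)]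
      by_cases c2 : a + 1 = m
      · rw [if_pos c2, if_neg (by omega)]
        ring
      · rw [if_neg c2]
        ring
    · rw [if_neg c1, if_neg c1]
      by_cases c2 : b + 1 = a
      · rw [if_pos c2, if_pos (by omega), if_pos (by omega : 1 ≤ a), if_neg (by omega : ¬ a = 0)]
        by_cases c3 : b = 0
        · rw [if_pos c3, if_neg (by omega : ¬ b = m), if_neg (by omega : ¬ a = m)]
          ring
        · rw [if_neg c3]
          split_ifs <;> ring
      · rw [if_neg c2]
        by_cases c3 : b = a - 1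
        · have c4 : a = 0 := by omega
          subst c4
          have c5 : b = 0 := by omega
          subst c5
          rw [if_pos c3, if_neg (by omega), if_neg (by omega), if_neg (by omega),
            if_neg (by omega), if_pos rfl, if_neg (by omega), hF]
          ring
        · rw [if_neg c3]
          by_cases c4 : b = m
          · rw [if_pos c4]
            by_cases c5 : a = 0
            · rw [if_pos ⟨c4, c5⟩, if_pos c5, if_neg (by omega : ¬ b = 0)]
              ring
            · rw [if_neg (by tauto), if_neg c5, if_neg (by omega : ¬ b = 0),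
                if_neg (by omega : ¬ (b = 0 ∧ a = m)), hF]
              ring
          · rw [if_neg c4, if_neg (by tauto)]
            by_cases c5 : b = 0
            · rw [if_pos c5]
              by_cases c6 : a = m
              · rw [if_pos ⟨c5, c6⟩, if_pos c6]
                ring
              · rw [if_neg (by tauto), if_neg c6, hF]
                ring
            · rw [if_neg c5, if_neg (by tauto), hF]
              ring
  simp only [h1]
  rw [Finset.sum_add_distrib, Finset.sum_add_distrib, Finset.sum_add_distrib,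
    Finset.sum_ite_eq', Finset.sum_ite_eq', Finset.sum_ite_eq', Finset.sum_ite_eq']
  simp only [Finset.mem_range]
  rw [if_pos (by omega : a - 1 < m + 1), if_pos (by omega : m < m + 1),
    if_pos (by omega : 0 < m + 1)]
  by_cases c : a < m
  · rw [if_pos c, if_pos (by omega)]
    ring
  · rw [if_neg c, if_neg (by omega)]
    ring

/-- The numbers of the row satisfy `RowSeq`. `lo`, `hb`: clear. `s_le`, `end0`, `endm`: `row_deg` and
`dc_card_le`. `du`: `card_dbL`, `row_dbL` (only the pairs `k - 1, k` and `0, m` count), `(lv P j).card = m + 1`. `sq`: `E22`, with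
`row_sum`; `dcv - ucv` is `α k` for the pair `x_(k-1), x_k`, `β` for `x_0, x_m` and `0` otherwise
(`Row.ucv_x`, `m ≥ 2`); the left side is `2 (∑ α² + β²)`, and `dgD - dgT` is `α 1 + β` at `x_0`,
`α k + α (k+1)` at `x_k`, `1 ≤ k ≤ m - 1`, and `α m + β` at `x_m`. -/
theorem row_seq (H : Gr P r) {j m : ℕ} {e : ℕ → ℕ → P} (hj : 1 ≤ j) (hj2 : j + 1 ≤ r)
    (h0 : (lv P 0).card = 1) (hm : 2 ≤ m) (hR : Row j m e)
    (hadj : ∀ a b, a < b → b ≤ m → b ≠ a + 1 → ¬ (a = 0 ∧ b = m) →
      dcv (e a (j - a)) (e b (j - b)) = 0) :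
    RowSeq m (fun k => (dcv (e (k - 1) (j - (k - 1))) (e k (j - k)) : ℤ) - 1)
      (dcv (e 0 (j - 0)) (e m (j - m)) : ℤ) := by
  classical
  have hc2 : ∀ x : P, (dc x).card ≤ 2 := fun x => dc_card_le H x
  set α : ℕ → ℤ := fun k => (dcv (e (k - 1) (j - (k - 1))) (e k (j - k)) : ℤ) - 1 with hα
  set β : ℤ := (dcv (e 0 (j - 0)) (e m (j - m)) : ℤ) with hβ
  have hα' : ∀ k, α (k + 1) = (dcv (e k (j - k)) (e (k + 1) (j - (k + 1))) : ℤ) - 1 := by
    intro k
    simp only [hα, Nat.add_sub_cancel]
  -- the matrix
  have hmat : ∀ a ≤ m, ∀ b ≤ m, a ≠ b →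
      (dcv (e a (j - a)) (e b (j - b)) : ℤ) - (ucv (e a (j - a)) (e b (j - b)) : ℤ) =
        BaHh m α β a b := by
    intro a ha b hb hab
    rw [hR.ucv_x a ha b hb hab]
    unfold BaHh
    by_cases c1 : b = a + 1
    · subst c1
      rw [if_pos (Or.inl rfl), if_pos rfl, hα']
      push_cast
      ring
    · rw [if_neg c1]
      by_cases c2 : b + 1 = a
      · subst c2
        rw [if_pos (Or.inr rfl), if_pos rfl, hα', dcv_comm]
        push_cast
        ring
      · rw [if_neg c2, if_neg (by omega)]
        by_cases c3 : b = m ∧ a = 0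
        · rw [if_pos c3, hβ, c3.1, c3.2]
          push_cast
          ring
        · rw [if_neg c3]
          by_cases c4 : b = 0 ∧ a = m
          · rw [if_pos c4, hβ, c4.1, c4.2, dcv_comm]
            push_cast
            ring
          · rw [if_neg c4]
            rcases Nat.lt_or_gt_of_ne hab with h | h
            · rw [hadj a b h hb c1 (by omega)]
              simp
            · rw [dcv_comm, hadj b a h ha (by omega) (by omega)]
              simp
  have herase : ∀ a ≤ m, ∀ φ : P → ℤ, ∑ v' ∈ (lv P j).erase (e a (j - a)), φ v' =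
      ∑ b ∈ range (m + 1), if b = a then 0 else φ (e b (j - b)) := by
    intro a ha φ
    rw [BaH_erase, row_sum hR]
    refine Finset.sum_congr rfl fun b hb => ?_
    rw [Finset.mem_range] at hb
    by_cases hba : b = a
    · subst hba
      rw [if_pos rfl, if_pos rfl]
    · rw [if_neg hba, if_neg]
      intro h
      exact hba (hR.inj b (by omega) a ha h)
  have hdiag : ∀ a, BaHh m α β a a = 0 := by
    intro a
    unfold BaHh
    rw [if_neg (by omega), if_neg (by omega), if_neg (by omega), if_neg (by omega)]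
  have hFsum : ∀ F : ℤ → ℤ, F 0 = 0 → ∀ a ≤ m,
      ∑ v' ∈ (lv P j).erase (e a (j - a)),
        F ((dcv (e a (j - a)) v' : ℤ) - (ucv (e a (j - a)) v' : ℤ)) =
      (if 1 ≤ a then F (α a) else 0) + (if a < m then F (α (a + 1)) else 0) +
        (if a = 0 then F β else 0) + (if a = m then F β else 0) := by
    intro F hF a ha
    rw [herase a ha, ← BaH_row m hm α β F hF a ha]
    refine Finset.sum_congr rfl fun b hb => ?_
    rw [Finset.mem_range] at hb
    by_cases hba : b = a
    · rw [if_pos hba, hba, hdiag, hF]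
    · rw [if_neg hba, hmat a ha b (by omega) (Ne.symm hba)]
  have hcardlv : (lv P j).card = m + 1 := by
    have h1 := row_sum hR (fun _ => (1 : ℤ))
    simp only [Finset.sum_const, Finset.card_range, nsmul_eq_mul, mul_one] at h1
    exact_mod_cast h1
  obtain ⟨n, rfl⟩ : ∃ n, m = n + 1 := ⟨m - 1, by omega⟩
  refine ⟨?_, ?_, ?_, ?_, ?_, ?_, ?_⟩
  · intro k _ _
    simp only [hα]
    have : (0 : ℤ) ≤ (dcv (e (k - 1) (j - (k - 1))) (e k (j - k)) : ℤ) := Int.natCast_nonneg _
    linarith
  · exact Int.natCast_nonneg _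
  · intro k hk1 hk2
    obtain ⟨k, rfl⟩ : ∃ k', k = k' + 1 := ⟨k - 1, by omega⟩
    rw [hα', hα']
    have h1 := row_deg H hR (a := k + 1) (b := k) (c := k + 1 + 1) (by omega) (by omega) (by omega)
      (by omega) (by omega) (by omega)
    have h2 := hc2 (e (k + 1) (j - (k + 1)))
    rw [dcv_comm (e (k + 1) (j - (k + 1))) (e k (j - k))] at h1
    have h3 : ((dcv (e k (j - k)) (e (k + 1) (j - (k + 1))) : ℤ)) +
        (dcv (e (k + 1) (j - (k + 1))) (e (k + 1 + 1) (j - (k + 1 + 1))) : ℤ) ≤ 2 := by
      exact_mod_cast h1.trans h2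
    linarith
  · have h1 := row_deg H hR (a := 0) (b := 1) (c := n + 1) (by omega) (by omega) (by omega)
      (by omega) (by omega) (by omega)
    have h2 := hc2 (e 0 (j - 0))
    have h3 : ((dcv (e 0 (j - 0)) (e 1 (j - 1)) : ℤ)) +
        (dcv (e 0 (j - 0)) (e (n + 1) (j - (n + 1))) : ℤ) ≤ 2 := by
      exact_mod_cast h1.trans h2
    have h4 := hα' 0
    rw [zero_add] at h4
    rw [h4, hβ]
    linarith
  · have h1 := row_deg H hR (a := n + 1) (b := n) (c := 0) (by omega) (by omega) (by omega)
      (by omega) (by omega) (by omega)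
    have h2 := hc2 (e (n + 1) (j - (n + 1)))
    rw [dcv_comm (e (n + 1) (j - (n + 1))) (e n (j - n)),
      dcv_comm (e (n + 1) (j - (n + 1))) (e 0 (j - 0))] at h1
    have h3 : ((dcv (e n (j - n)) (e (n + 1) (j - (n + 1))) : ℤ)) +
        (dcv (e 0 (j - 0)) (e (n + 1) (j - (n + 1))) : ℤ) ≤ 2 := by
      exact_mod_cast h1.trans h2
    rw [hα' n, hβ]
    linarith
  · have h1 := card_dbL H h0 (j := j) (by omega)
    rw [hcardlv, row_dbL H hR] at h1
    have h2 : ∀ b ∈ range (n + 1 + 1), (∑ a ∈ range b, dcv (e a (j - a)) (e b (j - b)) : ℤ) =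
        (if 1 ≤ b then α b + 1 else 0) + (if b = n + 1 then β else 0) := by
      intro b hb
      rw [Finset.mem_range] at hb
      rcases Nat.eq_zero_or_pos b with hb0 | hb0
      · subst hb0
        simp
      · obtain ⟨c, rfl⟩ : ∃ c, b = c + 1 := ⟨b - 1, by omega⟩
        rw [if_pos (by omega), Finset.sum_range_succ, hα']
        have h3 : (∑ a ∈ range c, (dcv (e a (j - a)) (e (c + 1) (j - (c + 1))) : ℤ)) =
            if c + 1 = n + 1 then β else 0 := by
          by_cases hcn : c + 1 = n + 1
          · rw [if_pos hcn]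
            have hc0 : 0 ∈ range c := Finset.mem_range.2 (by omega)
            rw [Finset.sum_eq_single_of_mem 0 hc0, hβ, hcn]
            intro a ha ha0
            rw [Finset.mem_range] at ha
            rw [hadj a (c + 1) (by omega) (by omega) (by omega) (by omega)]
            simp
          · rw [if_neg hcn]
            apply Finset.sum_eq_zero
            intro a ha
            rw [Finset.mem_range] at ha
            rw [hadj a (c + 1) (by omega) (by omega) (by omega) (by omega)]
            simp
        rw [h3]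
        ring
    have h4 : ((∑ b ∈ range (n + 1 + 1), ∑ a ∈ range b, dcv (e a (j - a)) (e b (j - b)) : ℕ) : ℤ) =
        ∑ b ∈ range (n + 1 + 1), ((if 1 ≤ b then α b + 1 else 0) +
          (if b = n + 1 then β else 0)) := by
      rw [Nat.cast_sum]
      refine Finset.sum_congr rfl fun b hb => ?_
      rw [← h2 b hb, Nat.cast_sum]
    have h5 : ((∑ b ∈ range (n + 1 + 1), ∑ a ∈ range b, dcv (e a (j - a)) (e b (j - b)) : ℕ) : ℤ) =
        n + 1 := by
      have : (∑ b ∈ range (n + 1 + 1), ∑ a ∈ range b, dcv (e a (j - a)) (e b (j - b))) = n + 1 := by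
        omega
      rw [this]
      push_cast
      ring
    rw [h4, Finset.sum_add_distrib, Finset.sum_ite_eq', if_pos (Finset.mem_range.2 (by omega)),
      Finset.sum_range_succ'] at h5
    rw [if_neg (by omega : ¬ 1 ≤ 0)] at h5
    have h6 : ∑ k ∈ range (n + 1), (if 1 ≤ k + 1 then α (k + 1) + 1 else 0) =
        ∑ k ∈ range (n + 1), α (k + 1) + (n + 1) := by
      have : ∀ k ∈ range (n + 1), (if 1 ≤ k + 1 then α (k + 1) + 1 else 0) = α (k + 1) + 1 := by
        intro k _
        rw [if_pos (by omega)]
      rw [Finset.sum_congr rfl this, Finset.sum_add_distrib]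
      simp
    rw [h6] at h5
    rw [BaH_Icc]
    linarith
  · have h1 := E22 H hj hj2
    rw [row_sum hR, row_sum hR] at h1
    have h2 : ∀ a ∈ range (n + 1 + 1), ∑ v' ∈ (lv P j).erase (e a (j - a)),
        ((dcv (e a (j - a)) v' : ℤ) - (ucv (e a (j - a)) v' : ℤ)) ^ 2 =
        (if 1 ≤ a then α a ^ 2 else 0) + (if a < n + 1 then α (a + 1) ^ 2 else 0) +
        (if a = 0 then β ^ 2 else 0) + (if a = n + 1 then β ^ 2 else 0) := by
      intro a ha
      rw [Finset.mem_range] at ha
      exact hFsum (fun t => t ^ 2) (by norm_num) a (by omega)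
    have h3 : ∀ a ∈ range (n + 1 + 1), (dgD j (e a (j - a)) - dgT j (e a (j - a))) ^ 2 =
        ((if 1 ≤ a then α a else 0) + (if a < n + 1 then α (a + 1) else 0) +
        (if a = 0 then β else 0) + (if a = n + 1 then β else 0)) ^ 2 := by
      intro a ha
      rw [Finset.mem_range] at ha
      have h4 := hFsum (fun t => t) rfl a (by omega)
      unfold dgD dgT
      rw [← Finset.sum_sub_distrib, h4]
    rw [Finset.sum_congr rfl h2, Finset.sum_congr rfl h3] at h1
    rw [Finset.sum_add_distrib, Finset.sum_add_distrib, Finset.sum_add_distrib,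
      Finset.sum_ite_eq', Finset.sum_ite_eq', if_pos (Finset.mem_range.2 (by omega)),
      if_pos (Finset.mem_range.2 (by omega))] at h1
    have h5 : ∑ a ∈ range (n + 1 + 1), (if 1 ≤ a then α a ^ 2 else 0) =
        ∑ k ∈ range (n + 1), α (k + 1) ^ 2 := by
      rw [Finset.sum_range_succ', if_neg (by omega : ¬ 1 ≤ 0), add_zero]
      exact Finset.sum_congr rfl fun k _ => by rw [if_pos (by omega)]
    have h6 : ∑ a ∈ range (n + 1 + 1), (if a < n + 1 then α (a + 1) ^ 2 else 0) =
        ∑ k ∈ range (n + 1), α (k + 1) ^ 2 := by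
      rw [Finset.sum_range_succ, if_neg (by omega : ¬ n + 1 < n + 1), add_zero]
      refine Finset.sum_congr rfl fun k hk => ?_
      rw [Finset.mem_range] at hk
      rw [if_pos hk]
    have h7 : ∑ a ∈ range (n + 1 + 1), ((if 1 ≤ a then α a else 0) +
        (if a < n + 1 then α (a + 1) else 0) +
        (if a = 0 then β else 0) + (if a = n + 1 then β else 0)) ^ 2 =
        ∑ k ∈ range n, (α (k + 1) + α (k + 1 + 1)) ^ 2 + (α 1 + β) ^ 2 + (α (n + 1) + β) ^ 2 := by
      rw [Finset.sum_range_succ, Finset.sum_range_succ']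
      congr 1
      · congr 1
        · refine Finset.sum_congr rfl fun k hk => ?_
          rw [Finset.mem_range] at hk
          rw [if_pos (by omega), if_pos (by omega), if_neg (by omega), if_neg (by omega)]
          ring
        · rw [if_neg (by omega : ¬ 1 ≤ 0), if_pos (by omega : 0 < n + 1), if_pos rfl,
            if_neg (by omega : ¬ 0 = n + 1), zero_add, zero_add]
          ring
      · rw [if_pos (by omega : 1 ≤ n + 1),
          if_neg (by omega : ¬ n + 1 < n + 1), if_neg (by omega : ¬ n + 1 = 0), if_pos rfl]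
        ring
    rw [h5, h6, h7] at h1
    rw [BaH_Icc, BaH_Icc, Nat.add_sub_cancel]
    linarith

end Pool.Agent.GaussPoset.Win
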