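import Pool.Agent.W_448win_h16.BaG

/-! Sequences. -/

namespace Pool.Agent.GaussPoset.Win

set_option linter.unusedSectionVars false

open Finset

universe u

variable {P : Type u} [Fintype P] [PartialOrder P] [DecidableEq P] {r : ℕ}

lemma BaK_telescope (α : ℕ → ℤ) (n : ℕ) :
    ∑ k ∈ Icc 1 n, (α k + α (k + 1)) = 2 * (∑ k ∈ Icc 1 (n + 1), α k) - α 1 - α (n + 1) := by
  induction n with
  | zero =>
    rw [Finset.sum_Icc_succ_top (by omega)]
    simp
    ring
  | succ n ih =>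
    rw [Finset.sum_Icc_succ_top (by omega), ih, Finset.sum_Icc_succ_top (b := n + 1) (by omega)]
    ring

lemma BaK_bot (f : ℕ → ℤ) (n : ℕ) :
    ∑ k ∈ Icc 1 (n + 1), f k = f 1 + ∑ k ∈ Icc 2 (n + 1), f k := by
  induction n with
  | zero => simp
  | succ n ih =>
    rw [Finset.sum_Icc_succ_top (by omega), ih, Finset.sum_Icc_succ_top (a := 2) (b := n + 1) (by omega)]
    ring

lemma BaK_inner {m : ℕ} {α : ℕ → ℤ} (hm : 3 ≤ m) (h : RowSeq m α 0) :
    ∑ k ∈ Icc 1 (m - 1), (α k + α (k + 1)) = -(α 1 + α m) ∧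
    ∑ k ∈ Icc 2 (m - 1), α k ^ 2 = ∑ k ∈ Icc 1 (m - 1), (α k + α (k + 1)) ^ 2 := by
  obtain ⟨n, rfl⟩ : ∃ n, m = n + 2 := ⟨m - 2, by omega⟩
  have hm1 : n + 2 - 1 = n + 1 := by omega
  rw [hm1]
  constructor
  · rw [BaK_telescope α (n + 1)]
    have := h.du
    simp only [add_zero] at this
    rw [show n + 1 + 1 = n + 2 by omega, this]
    ring
  · have h1 := h.sq
    rw [hm1, Finset.sum_Icc_succ_top (b := n + 1) (by omega), BaK_bot] at h1
    simp only [add_zero] at h1
    have h2 : ((0 : ℤ)) ^ 2 = 0 := by norm_num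
    rw [show n + 1 + 1 = n + 2 by omega] at h1
    linarith

/-- `∑ s = -(α 1 + α m)`, inner squares = `∑ s²`. First case `α m ≤ 0`: `α 1 + α m` is `0` (then all `s` and
the inner `α` are zero, `α 1 = s 1 = 0`, `α m = 0`) or `1` (then `α 1 = 1`, `α m = 0`, `s 1 ≤ 0` gives
`α 2 = -1`, and the inner squares have sum `1`). Second case `α (m-1) + α m ≤ -1`:
`α m ≤ 0` because `α (m-1) ≥ -1`; again `α 1 + α m = 1` (it is positive since `∑ s < 0`), `α 1 = 1`, `α m = 0`,
`α 2 = -1`, the others zero, and `s (m-1) ≠ 0` forces `m - 1 = 2`. -/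
theorem seq_S2 {m : ℕ} {α : ℕ → ℤ} (hm : 3 ≤ m) (h : RowSeq m α 0)
    (hp : α m ≤ 0 ∨ α (m - 1) + α m ≤ -1) :
    (∀ k, 1 ≤ k → k ≤ m → α k = 0) ∨
    (α 1 = 1 ∧ α 2 = -1 ∧ (∀ k, 3 ≤ k → k ≤ m → α k = 0) ∧
      (α (m - 1) + α m ≤ -1 → m = 3)) := by
  obtain ⟨hS, hQ⟩ := BaK_inner hm h
  have hm0 : α m ≤ 0 := by
    rcases hp with hp | hp
    · exact hp
    · have := h.lo (m - 1) (by omega) (by omega)
      linarith
  have h1 : α 1 ≤ 1 := by simpa using h.end0
  have hs : ∀ k ∈ Icc 1 (m - 1), α k + α (k + 1) ≤ 0 := fun k hk => by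
    rw [Finset.mem_Icc] at hk
    exact h.s_le k hk.1 (by omega)
  have hT : 0 ≤ α 1 + α m := by
    have := Finset.sum_nonpos hs
    linarith
  have hT1 : α 1 + α m = 0 ∨ α 1 + α m = 1 := by omega
  rcases hT1 with hT1 | hT1
  · left
    have hs0 : ∀ k ∈ Icc 1 (m - 1), α k + α (k + 1) = 0 := by
      refine (Finset.sum_eq_zero_iff_of_nonpos hs).1 ?_
      rw [hS, hT1, neg_zero]
    have hq0 : ∑ k ∈ Icc 2 (m - 1), α k ^ 2 = 0 := by
      rw [hQ]
      refine Finset.sum_eq_zero fun k hk => ?_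
      rw [hs0 k hk]
      norm_num
    have hin : ∀ k, 2 ≤ k → k ≤ m - 1 → α k = 0 := by
      intro k hk1 hk2
      have := (Finset.sum_eq_zero_iff_of_nonneg (fun k _ => sq_nonneg (α k))).1 hq0 k
        (Finset.mem_Icc.2 ⟨hk1, hk2⟩)
      exact pow_eq_zero_iff (two_ne_zero) |>.1 this
    intro k hk1 hk2
    rcases Nat.lt_or_ge k 2 with hk | hk
    · have hk' : k = 1 := by omega
      subst hk'
      have h3 := hs0 1 (Finset.mem_Icc.2 ⟨le_rfl, by omega⟩)
      have h4 := hin 2 le_rfl (by omega)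
      rw [show 1 + 1 = 2 by rfl, h4] at h3
      linarith
    · rcases Nat.lt_or_ge k m with hk' | hk'
      · exact hin k hk (by omega)
      · have hk'' : k = m := by omega
        subst hk''
        have h3 := hs0 (k - 1) (Finset.mem_Icc.2 ⟨by omega, le_rfl⟩)
        have h4 := hin (k - 1) (by omega) le_rfl
        rw [show k - 1 + 1 = k by omega, h4] at h3
        linarith
  · right
    have ha1 : α 1 = 1 := by omega
    have ham : α m = 0 := by omega
    have hsm : ∀ k ∈ Icc 1 (m - 1), -1 ≤ α k + α (k + 1) := by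
      intro k hk
      have h3 : -(α k + α (k + 1)) ≤ ∑ j ∈ Icc 1 (m - 1), -(α j + α (j + 1)) :=
        Finset.single_le_sum (f := fun j => -(α j + α (j + 1)))
          (fun j hj => neg_nonneg.2 (hs j hj)) hk
      rw [Finset.sum_neg_distrib, hS, hT1] at h3
      linarith
    have hq1 : ∑ k ∈ Icc 2 (m - 1), α k ^ 2 = 1 := by
      have h3 : ∑ k ∈ Icc 1 (m - 1), (α k + α (k + 1)) ^ 2 =
          ∑ k ∈ Icc 1 (m - 1), -(α k + α (k + 1)) := by
        refine Finset.sum_congr rfl fun k hk => ?_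
        have e1 := hs k hk
        have e2 := hsm k hk
        have e3 : α k + α (k + 1) = 0 ∨ α k + α (k + 1) = -1 := by omega
        rcases e3 with e3 | e3 <;> rw [e3] <;> norm_num
      rw [hQ, h3, Finset.sum_neg_distrib, hS, hT1]
      norm_num
    have ha2 : α 2 = -1 := by
      have e1 := hs 1 (Finset.mem_Icc.2 ⟨le_rfl, by omega⟩)
      have e2 := h.lo 2 (by omega) (by omega)
      rw [show 1 + 1 = 2 by rfl] at e1
      omega
    have hin : ∀ k, 3 ≤ k → k ≤ m - 1 → α k = 0 := by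
      intro k hk1 hk2
      have hmem : 2 ∈ Icc 2 (m - 1) := Finset.mem_Icc.2 ⟨le_rfl, by omega⟩
      have h3 := Finset.add_sum_erase (Icc 2 (m - 1)) (fun k => α k ^ 2) hmem
      rw [hq1, ha2] at h3
      have h4 : ∑ k ∈ (Icc 2 (m - 1)).erase 2, α k ^ 2 = 0 := by linarith
      have := (Finset.sum_eq_zero_iff_of_nonneg (fun k _ => sq_nonneg (α k))).1 h4 k
        (Finset.mem_erase.2 ⟨by omega, Finset.mem_Icc.2 ⟨by omega, hk2⟩⟩)
      exact pow_eq_zero_iff (two_ne_zero) |>.1 this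
    refine ⟨ha1, ha2, ?_, ?_⟩
    · intro k hk1 hk2
      rcases Nat.lt_or_ge k m with hk' | hk'
      · exact hin k hk1 (by omega)
      · have hk'' : k = m := by omega
        rw [hk'']
        exact ham
    · intro h5
      by_contra hne
      have h6 := hin (m - 1) (by omega) le_rfl
      rw [h6, ham] at h5
      norm_num at h5

end Pool.Agent.GaussPoset.Win
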