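import Pool.Agent.W_448win_h16.BbG
import Pool.Agent.W_448win_h16.BaE
import Pool.Agent.W_448win_h16.BaH
import Pool.Agent.W_448win_h16.BaK

/-! Case S2, numbers. -/

namespace Pool.Agent.GaussPoset.Win

set_option linter.unusedSectionVars false

open Finset

universe u

variable {P : Type u} [Fintype P] [PartialOrder P] [DecidableEq P] {r : ℕ}

/-- common lower covers with two other elements and a pendant are different lower covers -/
lemma BbH_deg (H : Gr P r) {x a b z : P} (hab : a ≠ b) (hxa : x ≠ a) (hxb : x ≠ b) (hz : z ⋖ x)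
    (hz1 : (uc z).card = 1) : dcv x a + dcv x b + 1 ≤ (dc x).card := by
  classical
  have hA : dcv x a = (univ.filter (fun y : P => y ⋖ x ∧ y ⋖ a)).card := by
    unfold dcv
    congr 1
  have hB : dcv x b = (univ.filter (fun y : P => y ⋖ x ∧ y ⋖ b)).card := by
    unfold dcv
    congr 1
  rw [hA, hB]
  have h1 : Disjoint (univ.filter (fun y : P => y ⋖ x ∧ y ⋖ a))
      (univ.filter (fun y : P => y ⋖ x ∧ y ⋖ b)) := by
    rw [Finset.disjoint_left]
    intro y hy1 hy2
    rw [Finset.mem_filter] at hy1 hy2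
    have h2 : ({x, a, b} : Finset P) ⊆ uc y := by
      intro w hw
      rw [Finset.mem_insert, Finset.mem_insert, Finset.mem_singleton] at hw
      rcases hw with rfl | rfl | rfl
      · exact mem_uc.2 hy1.2.1
      · exact mem_uc.2 hy1.2.2
      · exact mem_uc.2 hy2.2.2
    have h3 := Finset.card_le_card h2
    have h4 := uc_card_le H y
    have h5 : ({x, a, b} : Finset P).card = 3 := Finset.card_eq_three.2 ⟨x, a, b, hxa, hxb, hab, rfl⟩
    omega
  have hzn : ∀ c : P, x ≠ c → ¬ z ⋖ c := by
    intro c hc hzc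
    have h2 : ({x, c} : Finset P) ⊆ uc z := by
      intro w hw
      rw [Finset.mem_insert, Finset.mem_singleton] at hw
      rcases hw with rfl | rfl
      · exact mem_uc.2 hz
      · exact mem_uc.2 hzc
    have h3 := Finset.card_le_card h2
    rw [Finset.card_pair hc] at h3
    omega
  have h2 : Disjoint (univ.filter (fun y : P => y ⋖ x ∧ y ⋖ a) ∪
      univ.filter (fun y : P => y ⋖ x ∧ y ⋖ b)) {z} := by
    rw [Finset.disjoint_singleton_right, Finset.mem_union, Finset.mem_filter, Finset.mem_filter]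
    rintro (h | h)
    · exact hzn a hxa h.2.2
    · exact hzn b hxb h.2.2
  rw [← Finset.card_union_of_disjoint h1, ← Finset.card_singleton z,
    ← Finset.card_union_of_disjoint h2]
  refine Finset.card_le_card fun y hy => ?_
  rw [Finset.mem_union, Finset.mem_union, Finset.mem_filter, Finset.mem_filter,
    Finset.mem_singleton] at hy
  rcases hy with (hy | hy) | rfl
  · exact mem_dc.2 hy.2.1
  · exact mem_dc.2 hy.2.1
  · exact mem_dc.2 hz

/-- Case S2 up to the numbers. `cap_S2`, `cap_adj` (open case, `|PD| = |PU| = 1`), `row_seq` (`β = 0`),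
`S2_pend`: the pendant `z` under `x_k` is a lower cover of `x_k` which is not double, so
`α m ≤ 0` (`k = m`) or `α (m-1) + α m ≤ -1` (`k = m - 1`): `row_deg`-like counting in `dc (x_k)`;
`seq_S2`; the first alternative gives a good level by `good_of_row`. In the second alternative with `k = m - 1`
we get `m = 3`. -/
theorem S2_case (H : Gr P r) (h0 : (lv P 0).card = 1) {m : ℕ} {e : ℕ → ℕ → P} (hm : 3 ≤ m)
    (hr : 4 * m + 2 ≤ r) (hT : Crd none (2 * m + 1) e) (hg : Good P (2 * m)) :
    Good P (2 * m + 1) ∨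
    (dcv (e 0 (2 * m + 1 - 0)) (e 1 (2 * m + 1 - 1)) = 2 ∧
      dcv (e 1 (2 * m + 1 - 1)) (e 2 (2 * m + 1 - 2)) = 0 ∧
      (∀ k, 3 ≤ k → k ≤ m →
        dcv (e (k - 1) (2 * m + 1 - (k - 1))) (e k (2 * m + 1 - k)) = 1) ∧
      (∀ a b, a < b → b ≤ m → b ≠ a + 1 →
        dcv (e a (2 * m + 1 - a)) (e b (2 * m + 1 - b)) = 0) ∧
      ∃ z k, (k = m ∨ (k = 2 ∧ m = 3)) ∧ PD P (2 * m) = {z} ∧
        uc z = {e k (2 * m + 1 - k)}) := by
  have hC := cap_S2 H (by omega) hT
  have hg' : Good P (2 * m + 1 - 1) := hg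
  have hU := PU_S2 H (by omega) hT
  have hU1 : (PU P (2 * m)).card ≤ 1 := by rw [hU, Finset.card_singleton]
  have hgc := good_card H (i := 2 * m) (by omega) (by omega) hg
  have hD1 : (PD P (2 * m)).card ≤ 1 := by rw [hgc]; exact hU1
  have hM : m = m ∨ m + 1 = m := Or.inl rfl
  have hall : ∀ a b, a < b → b ≤ m → b ≠ a + 1 →
      dcv (e a (2 * m + 1 - a)) (e b (2 * m + 1 - b)) = 0 := by
    intro a b hab hb hne
    exact cap_adj H (by omega) (by omega) hC hM hg' hD1 hU1 hab hb hne (fun h => by omega)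
  have hseq := row_seq H (by omega) (by omega) h0 (by omega) hC.row
    (fun a b hab hb hne _ => hall a b hab hb hne)
  rw [hall 0 m (by omega) le_rfl (by omega), Nat.cast_zero] at hseq
  obtain ⟨z, k, hk, hz, hzu⟩ := S2_pend H hm hr hT hg
  have hzx : z ⋖ e k (2 * m + 1 - k) := by
    rw [← mem_uc, hzu]
    exact Finset.mem_singleton_self _
  have hz1 : (uc z).card = 1 := by rw [hzu, Finset.card_singleton]
  have hinj := hC.row.inj
  have hp : ((dcv (e (m - 1) (2 * m + 1 - (m - 1))) (e m (2 * m + 1 - m)) : ℤ) - 1) ≤ 0 ∨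
      ((dcv (e (m - 1 - 1) (2 * m + 1 - (m - 1 - 1))) (e (m - 1) (2 * m + 1 - (m - 1))) : ℤ) - 1) +
      ((dcv (e (m - 1) (2 * m + 1 - (m - 1))) (e m (2 * m + 1 - m)) : ℤ) - 1) ≤ -1 := by
    rcases hk with rfl | rfl
    · left
      have h1 := BbH_deg H (x := e k (2 * k + 1 - k)) (a := e (k - 1) (2 * k + 1 - (k - 1)))
        (b := e 0 (2 * k + 1 - 0)) (z := z)
        (fun h => by have := hinj _ (by omega) _ (by omega) h; omega)
        (fun h => by have := hinj _ (by omega) _ (by omega) h; omega)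
        (fun h => by have := hinj _ (by omega) _ (by omega) h; omega) hzx hz1
      have h2 := dc_card_le H (e k (2 * k + 1 - k))
      rw [dcv_comm] at h1
      omega
    · right
      have h1 := BbH_deg H (x := e (m - 1) (2 * m + 1 - (m - 1)))
        (a := e (m - 1 - 1) (2 * m + 1 - (m - 1 - 1)))
        (b := e m (2 * m + 1 - m)) (z := z)
        (fun h => by have := hinj _ (by omega) _ (by omega) h; omega)
        (fun h => by have := hinj _ (by omega) _ (by omega) h; omega)
        (fun h => by have := hinj _ (by omega) _ (by omega) h; omega) hzx hz1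
      have h2 := dc_card_le H (e (m - 1) (2 * m + 1 - (m - 1)))
      rw [dcv_comm] at h1
      omega
  rcases seq_S2 hm hseq hp with hzero | ⟨h1, h2, h4, h5⟩
  · left
    refine good_of_row hC.row (fun k h1 h2 => ?_) hall
    have h5 : ((dcv (e (k - 1) (2 * m + 1 - (k - 1))) (e k (2 * m + 1 - k)) : ℤ) - 1) = 0 :=
      hzero k h1 h2
    omega
  · right
    have h1' : ((dcv (e 0 (2 * m + 1 - 0)) (e 1 (2 * m + 1 - 1)) : ℤ) - 1) = 1 := h1
    have h2' : ((dcv (e 1 (2 * m + 1 - 1)) (e 2 (2 * m + 1 - 2)) : ℤ) - 1) = -1 := h2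
    refine ⟨by omega, by omega, fun k hk1 hk2 => ?_, hall, z, k, ?_, hz, hzu⟩
    · have h6 : ((dcv (e (k - 1) (2 * m + 1 - (k - 1))) (e k (2 * m + 1 - k)) : ℤ) - 1) = 0 :=
        h4 k hk1 hk2
      omega
    · rcases hk with rfl | rfl
      · exact Or.inl rfl
      · right
        have h6 := BbH_deg H (x := e (m - 1) (2 * m + 1 - (m - 1)))
          (a := e (m - 1 - 1) (2 * m + 1 - (m - 1 - 1)))
          (b := e m (2 * m + 1 - m)) (z := z)
          (fun h => by have := hinj _ (by omega) _ (by omega) h; omega)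
          (fun h => by have := hinj _ (by omega) _ (by omega) h; omega)
          (fun h => by have := hinj _ (by omega) _ (by omega) h; omega) hzx hz1
        have h7 := dc_card_le H (e (m - 1) (2 * m + 1 - (m - 1)))
        rw [dcv_comm] at h6
        have h8 := h5 (by
          show ((dcv (e (m - 1 - 1) (2 * m + 1 - (m - 1 - 1)))
            (e (m - 1) (2 * m + 1 - (m - 1))) : ℤ) - 1) +
            ((dcv (e (m - 1) (2 * m + 1 - (m - 1))) (e m (2 * m + 1 - m)) : ℤ) - 1) ≤ -1
          omega)
        omega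

end Pool.Agent.GaussPoset.Win
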