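import Pool.Agent.W_448win_h16.BaC
import Pool.Agent.W_448win_h16.BaG

/-! Case S2, the sums of (21). -/

namespace Pool.Agent.GaussPoset.Win

set_option linter.unusedSectionVars false

open Finset

universe u

variable {P : Type u} [Fintype P] [PartialOrder P] [DecidableEq P] {r : ℕ}

/-- sum over the neighbours in a row -/
lemma BbI_nb (m k : ℕ) (hk : k ≤ m) (w : ℕ → ℤ) :
    ∑ b ∈ (range (m + 1)).erase k,
      (if b = k + 1 then w (k + 1) else if k = b + 1 then w k else 0) =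
      (if k + 1 ≤ m then w (k + 1) else 0) + (if 1 ≤ k then w k else 0) := by
  have h1 : ∀ b ∈ (range (m + 1)).erase k,
      (if b = k + 1 then w (k + 1) else if k = b + 1 then w k else 0) =
      (if b = k + 1 then w (k + 1) else 0) + (if b = k - 1 then (if 1 ≤ k then w k else 0) else 0) := by
    intro b hb
    have hb1 := (mem_erase.1 hb).1
    by_cases h1 : b = k + 1
    · rw [if_pos h1, if_pos h1, if_neg (by omega), add_zero]
    · rw [if_neg h1, if_neg h1, zero_add]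
      by_cases h2 : k = b + 1
      · rw [if_pos h2, if_pos (by omega), if_pos (by omega)]
      · rw [if_neg h2]
        by_cases h3 : b = k - 1
        · rw [if_pos h3, if_neg (by omega)]
        · rw [if_neg h3]
  rw [sum_congr rfl h1, sum_add_distrib, sum_ite_eq', sum_ite_eq']
  congr 1
  · by_cases h : k + 1 ≤ m
    · rw [if_pos h, if_pos (mem_erase.2 ⟨by omega, mem_range.2 (by omega)⟩)]
    · rw [if_neg h, if_neg fun h2 => h (by have := mem_range.1 (mem_erase.1 h2).2; omega)]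
  · by_cases h : 1 ≤ k
    · rw [if_pos h, if_pos (mem_erase.2 ⟨by omega, mem_range.2 (by omega)⟩)]
    · rw [if_neg h]
      split_ifs <;> rfl

/-- sums over the other elements of the row -/
lemma BbI_erase {j m : ℕ} {e : ℕ → ℕ → P} (hR : Row j m e) (f : P → ℤ) (k : ℕ) (hk : k ≤ m) :
    ∑ v ∈ (lv P j).erase (e k (j - k)), f v = ∑ b ∈ (range (m + 1)).erase k, f (e b (j - b)) := by
  classical
  have h1 : e k (j - k) ∈ lv P j := mem_lv.2 (hR.lev_x k hk)
  rw [sum_erase_eq_sub h1, row_sum hR, sum_erase_eq_sub (mem_range.2 (by omega))]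

/-- a function of the neighbours -/
lemma BbI_nbsum {j m : ℕ} {e : ℕ → ℕ → P} (hR : Row j m e) (g : P → P → ℤ) (w : ℕ → ℤ)
    (hw : ∀ k ≤ m, ∀ b ≤ m, k ≠ b → g (e k (j - k)) (e b (j - b)) =
      if b = k + 1 then w (k + 1) else if k = b + 1 then w k else 0) (k : ℕ) (hk : k ≤ m) :
    ∑ v ∈ (lv P j).erase (e k (j - k)), g (e k (j - k)) v =
      (if k + 1 ≤ m then w (k + 1) else 0) + (if 1 ≤ k then w k else 0) := by
  rw [BbI_erase hR _ k hk, ← BbI_nb m k hk w]
  refine sum_congr rfl fun b hb => ?_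
  have h1 := mem_range.1 (mem_erase.1 hb).2
  exact hw k hk b (by omega) (Ne.symm (mem_erase.1 hb).1)

/-- sums with two exceptional terms -/
lemma BbI_two (m p q : ℕ) (hp : p ≤ m) (hq : q ≤ m) (c d : ℤ) (f : ℕ → ℤ) (F : ℕ → ℤ)
    (h : ∀ k ≤ m, F k = ((if k = p then c else 0) + (if k = q then d else 0)) * f k) :
    ∑ k ∈ range (m + 1), F k = c * f p + d * f q := by
  have h1 : ∀ k ∈ range (m + 1), F k =
      (if k = p then c * f k else 0) + (if k = q then d * f k else 0) := by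
    intro k hk
    rw [h k (by have := mem_range.1 hk; omega), add_mul]
    congr 1 <;> split_ifs <;> simp
  rw [sum_congr rfl h1, sum_add_distrib, sum_ite_eq', sum_ite_eq',
    if_pos (mem_range.2 (by omega)), if_pos (mem_range.2 (by omega))]

/-- elements with two lower covers in coordinates -/
lemma BbI_dc_ne (H : Gr P r) {t : Option ℕ} {l : ℕ} {e : ℕ → ℕ → P} (hT : Crd t l e) {i c : ℕ}
    (h1 : Rg t i c) (h2 : i + c < l) (h3 : Rg t (i + 1) c) (h4 : Rg t i (c + 1)) :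
    (dc (e i c)).card ≠ 1 := by
  intro h
  have h5 : e (i + 1) c ∈ dc (e i c) := mem_dc.2 ((hT.dc_iff H h1 h2 _).2 (Or.inl ⟨h3, rfl⟩))
  have h6 : e i (c + 1) ∈ dc (e i c) := mem_dc.2 ((hT.dc_iff H h1 h2 _).2 (Or.inr ⟨h4, rfl⟩))
  have h7 := Finset.card_le_one.1 h.le _ h5 _ h6
  have h8 := hT.inj h3 (by omega) h4 (by omega) h7
  omega

/-- two common lower covers: all the lower covers are double -/
lemma BbI_low (H : Gr P r) {x y w : P} (h : dcv x y = 2) (hne : x ≠ y) (hw : w ⋖ y) :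
    (uc w).card ≠ 1 := by
  classical
  intro h1
  have h2 : 1 < (univ.filter (fun z : P => z ⋖ x ∧ z ⋖ y)).card := by
    unfold dcv at h
    omega
  obtain ⟨a, ha, b, hb, hab⟩ := Finset.one_lt_card.mp h2
  simp only [mem_filter, mem_univ, true_and] at ha hb
  have h3 : w ⋖ x := by
    rcases two_low H ha.2 hb.2 hw hab with h | h
    · rw [h]; exact ha.1
    · rw [h]; exact hb.1
  exact hne (Finset.card_le_one.1 h1.le _ (mem_uc.2 h3) _ (mem_uc.2 hw))

/-- The sums of (21) in case S2 (`x_k = e k (2m+1-k)`, `row_sum`). `dgD - dgT` is `1` at `x_0`, `-1` at `x_2` and `0`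
elsewhere. `sing x_0 = 0`: both lower covers are common with `x_1`, so double, the only upper cover `(0, 2m)` has two
lower covers (`Crd.dc_iff`). `sing x_2 ≥ 0`. Squares: `dgD` is `2, 2, 1` and
`dgT` is `1, 2, 2` at `x_0, x_1, x_2`. Last sum `2 * (4 - 1) + 2 * (0 - 1) = 4`. -/
theorem S2_sums (H : Gr P r) {m : ℕ} {e : ℕ → ℕ → P} (hm : 3 ≤ m) (hr : 4 * m + 2 ≤ r)
    (hT : Crd none (2 * m + 1) e)
    (v1 : dcv (e 0 (2 * m + 1 - 0)) (e 1 (2 * m + 1 - 1)) = 2)
    (v2 : dcv (e 1 (2 * m + 1 - 1)) (e 2 (2 * m + 1 - 2)) = 0)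
    (v3 : ∀ k, 3 ≤ k → k ≤ m →
      dcv (e (k - 1) (2 * m + 1 - (k - 1))) (e k (2 * m + 1 - k)) = 1)
    (v4 : ∀ a b, a < b → b ≤ m → b ≠ a + 1 →
      dcv (e a (2 * m + 1 - a)) (e b (2 * m + 1 - b)) = 0) :
    ∑ v ∈ lv P (2 * m + 1), (dgD (2 * m + 1) v - dgT (2 * m + 1) v) * sing v ≤ 0 ∧
    ∑ v ∈ lv P (2 * m + 1), (dgD (2 * m + 1) v ^ 2 - dgT (2 * m + 1) v ^ 2) = 0 ∧
    ∑ v ∈ lv P (2 * m + 1), ∑ v' ∈ (lv P (2 * m + 1)).erase v,
      ((dcv v v' : ℤ) ^ 2 - (ucv v v' : ℤ) ^ 2) = 4 := by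
  classical
  have hR : Row (2 * m + 1) m e := (cap_S2 H (by omega) hT).row
  obtain ⟨w, hw⟩ : ∃ w : ℕ → ℤ, ∀ b, w b = if b = 1 then 2 else if b = 2 then 0 else 1 :=
    ⟨_, fun _ => rfl⟩
  have hD : ∀ a b, a < b → b ≤ m →
      (dcv (e a (2 * m + 1 - a)) (e b (2 * m + 1 - b)) : ℤ) = if b = a + 1 then w b else 0 := by
    intro a b hab hb
    rw [hw]
    by_cases h1 : b = a + 1
    · rw [if_pos h1]
      by_cases h2 : b = 1
      · rw [if_pos h2]
        have h3 : a = 0 := by omega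
        rw [h2, h3, v1]
        rfl
      · rw [if_neg h2]
        by_cases h3 : b = 2
        · rw [if_pos h3]
          have h4 : a = 1 := by omega
          rw [h3, h4, v2]
          rfl
        · rw [if_neg h3]
          have h4 := v3 b (by omega) (by omega)
          have h5 : a = b - 1 := by omega
          rw [h5, h4]
          rfl
    · rw [if_neg h1, v4 a b hab hb h1]
      rfl
  have hDw : ∀ k ≤ m, ∀ b ≤ m, k ≠ b →
      (dcv (e k (2 * m + 1 - k)) (e b (2 * m + 1 - b)) : ℤ) =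
      if b = k + 1 then w (k + 1) else if k = b + 1 then w k else 0 := by
    intro k hk b hb hkb
    rcases lt_or_gt_of_ne hkb with h | h
    · rw [hD k b h hb]
      by_cases h1 : b = k + 1
      · rw [if_pos h1, if_pos h1, h1]
      · rw [if_neg h1, if_neg h1, if_neg (by omega)]
    · rw [dcv_comm, hD b k h hk, if_neg (by omega : ¬ b = k + 1)]
  have hUw : ∀ k ≤ m, ∀ b ≤ m, k ≠ b →
      (ucv (e k (2 * m + 1 - k)) (e b (2 * m + 1 - b)) : ℤ) =
      if b = k + 1 then (fun _ : ℕ => (1 : ℤ)) (k + 1) else if k = b + 1 then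
        (fun _ : ℕ => (1 : ℤ)) k else 0 := by
    intro k hk b hb hkb
    rw [hR.ucv_x k hk b hb hkb]
    by_cases h1 : k + 1 = b
    · rw [if_pos (Or.inl h1), if_pos h1.symm]
      rfl
    · by_cases h2 : b + 1 = k
      · rw [if_pos (Or.inr h2), if_neg (fun h => h1 h.symm), if_pos h2.symm]
        rfl
      · rw [if_neg (by omega), if_neg (fun h => h1 h.symm), if_neg (fun h => h2 h.symm)]
        rfl
  have hdD : ∀ k ≤ m, dgD (2 * m + 1) (e k (2 * m + 1 - k)) =
      (if k + 1 ≤ m then w (k + 1) else 0) + (if 1 ≤ k then w k else 0) := fun k hk =>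
    BbI_nbsum hR (fun v v' => (dcv v v' : ℤ)) w hDw k hk
  have hdT : ∀ k ≤ m, dgT (2 * m + 1) (e k (2 * m + 1 - k)) =
      (if k + 1 ≤ m then (1 : ℤ) else 0) + (if 1 ≤ k then 1 else 0) := fun k hk =>
    BbI_nbsum hR (fun v v' => (ucv v v' : ℤ)) (fun _ => 1) hUw k hk
  have hsq : ∀ k ≤ m, ∑ v' ∈ (lv P (2 * m + 1)).erase (e k (2 * m + 1 - k)),
      ((dcv (e k (2 * m + 1 - k)) v' : ℤ) ^ 2 - (ucv (e k (2 * m + 1 - k)) v' : ℤ) ^ 2) =
      (if k + 1 ≤ m then w (k + 1) ^ 2 - 1 else 0) + (if 1 ≤ k then w k ^ 2 - 1 else 0) := by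
    intro k hk
    refine BbI_nbsum hR (fun v v' => (dcv v v' : ℤ) ^ 2 - (ucv v v' : ℤ) ^ 2)
      (fun b => w b ^ 2 - 1) (fun k hk b hb hkb => ?_) k hk
    rw [hDw k hk b hb hkb, hUw k hk b hb hkb]
    split_ifs <;> ring
  -- the values of sing
  have hs1 : sing (e 0 (2 * m + 1 - 0)) = 0 := by
    have hm1 : e 1 (2 * m + 1 - 1) ≠ e 0 (2 * m + 1 - 0) := fun h => by
      have := hR.inj 1 (by omega) 0 (by omega) h
      omega
    have h1 : (dc (e 0 (2 * m + 1 - 0))).filter (fun w => (uc w).card = 1) = ∅ := by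
      rw [filter_eq_empty_iff]
      intro w hw
      refine BbI_low H ?_ hm1 (mem_dc.1 hw)
      rw [dcv_comm]
      exact v1
    have h2 : (uc (e 0 (2 * m + 1 - 0))).filter (fun u => (dc u).card = 1) = ∅ := by
      rw [filter_eq_empty_iff]
      intro u hu
      rw [mem_uc, hT.uc_iff H (show 0 ≤ 2 * m + 1 - 0 by omega)
        (by omega : 0 + (2 * m + 1 - 0) ≤ 2 * m + 1)] at hu
      rcases hu with ⟨i', h3, h4, h5⟩ | ⟨c', h3, h4, h5⟩
      · omega
      · rw [h5]
        exact BbI_dc_ne H hT h4 (by omega) (show 0 + 1 ≤ c' by omega)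
          (show 0 ≤ c' + 1 by omega)
    unfold sing
    rw [h1, h2, card_empty]
    rfl
  have hs2 : 0 ≤ sing (e 2 (2 * m + 1 - 2)) := by
    unfold sing
    positivity
  refine ⟨?_, ?_, ?_⟩
  · rw [row_sum hR, BbI_two m 0 2 (by omega) (by omega) 1 (-1)
      (fun k => sing (e k (2 * m + 1 - k))) _ (fun k hk => ?_)]
    · rw [hs1]
      linarith
    · rw [hdD k hk, hdT k hk, hw, hw]
      congr 1
      split_ifs <;> omega
  · rw [row_sum hR, BbI_two m 0 2 (by omega) (by omega) 3 (-3) (fun _ => 1) _ (fun k hk => ?_)]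
    · norm_num
    · rw [hdD k hk, hdT k hk, hw, hw, mul_one]
      split_ifs <;> omega
  · rw [row_sum hR]
    have h1 : ∀ k ∈ range (m + 1), ∑ v' ∈ (lv P (2 * m + 1)).erase (e k (2 * m + 1 - k)),
        ((dcv (e k (2 * m + 1 - k)) v' : ℤ) ^ 2 - (ucv (e k (2 * m + 1 - k)) v' : ℤ) ^ 2) =
        ((if k = 0 then 3 else 0) + (if k = 1 then -1 else 0)) +
          ((if k = 1 then 3 else 0) + (if k = 2 then -1 else 0)) := by
      intro k hk
      have hk' := mem_range.1 hk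
      rw [hsq k (by omega), hw, hw]
      split_ifs <;> omega
    rw [sum_congr rfl h1, sum_add_distrib, sum_add_distrib, sum_add_distrib, sum_ite_eq',
      sum_ite_eq', sum_ite_eq', sum_ite_eq', if_pos (mem_range.2 (by omega)),
      if_pos (mem_range.2 (by omega)), if_pos (mem_range.2 (by omega))]
    norm_num
    rw [if_pos (by omega : 2 ≤ m)]
    norm_num

end Pool.Agent.GaussPoset.Win
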