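import Pool.Agent.W_448win_h16.BbF
import Pool.Agent.W_448win_h16.BbH
import Pool.Agent.W_448win_h16.BbI
import Pool.Agent.W_448win_h16.BaP
import Pool.Agent.W_448rot_h96.LevelsT2

/-! Case S2. -/

namespace Pool.Agent.GaussPoset.Win

set_option linter.unusedSectionVars false

open Finset

universe u

variable {P : Type u} [Fintype P] [PartialOrder P] [DecidableEq P] {r : ℕ}

/-- Case S2. `S2_case`; second alternative, `j = 2m + 1`. If `2j + 1 ≤ r`: `size_S2` gives `b_(j+2) = m` (an element
of level `j + 1` below `x_0` only would be a third lower cover of `x_0`, whose two lower covers are common with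
`x_1` (`v1`); every element of level `j + 1` is below some `x_k`), but `b_(j+2) ≥ b_(j-1) = m + 1` by
`GaussRot.lv_le` (`l = j - 1`, `i = j + 2`) and `Crd.card_lv`. If `r = 2j`: `E21`, `S2_sums`,
`PU_S2'` (`PU P j = ∅`): `4 |PD P j| = 4 - 4 (sum) ≥ 4`, so there is a single-up element `z` of level
`j + 2`; but `b_(j+2) = b_(j-2) = m` (`GaussRot.lv_symm`, `Crd.card_lv`), and `card_dbL` at level `j + 1`:
`(dbL P (j+1)).card = b_(j+1) - 1 = b_(j-1) - 1 = m`, so all elements of level `j + 2` are double-up.
Contradiction. -/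
theorem bad_S2 (H : Gr P r) (h0 : (lv P 0).card = 1) {m : ℕ} {e : ℕ → ℕ → P} (hm : 3 ≤ m)
    (hr : 4 * m + 2 ≤ r) (hT : Crd none (2 * m + 1) e) (hg : Good P (2 * m)) :
    Good P (2 * m + 1) := by
  classical
  rcases S2_case H h0 hm hr hT hg with h | ⟨v1, v2, v3, v4, -⟩
  · exact h
  exfalso
  have hc := cap_S2 H (by omega) hT
  have hb : ∀ k ≤ 2 * m + 1, (lv P k).card = k / 2 + 1 := by
    intro k hk
    have h1 := hT.card_lv (fun n hn => by simp at hn) hk
    exact h1
  by_cases hr2 : 4 * m + 3 ≤ r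
  · -- every element of level `2m + 2` is below some `x_k` with `1 ≤ k`
    have hn : ∀ w : P, lev w = 2 * m + 2 → ∃ k, 1 ≤ k ∧ k ≤ m ∧ w < e k (2 * m + 1 - k) := by
      intro w hw
      obtain ⟨y, hy⟩ := uc_nonempty H (x := w) (by omega)
      have hly := lev_uc H hy
      have hwy := mem_uc.mp hy
      obtain ⟨k, hk, rfl⟩ := hc.row.surj y (by omega)
      by_cases hk0 : k = 0
      · subst hk0
        -- the lower covers of `x_0` are the common lower covers with `x_1`
        have h1 : (univ.filter (fun z : P => z ⋖ e 0 (2 * m + 1 - 0) ∧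
            z ⋖ e 1 (2 * m + 1 - 1))) ⊆ dc (e 0 (2 * m + 1 - 0)) := by
          intro z hz
          rw [mem_filter] at hz
          exact mem_dc.mpr hz.2.1
        have h2 : (dc (e 0 (2 * m + 1 - 0))).card ≤ (univ.filter (fun z : P =>
            z ⋖ e 0 (2 * m + 1 - 0) ∧ z ⋖ e 1 (2 * m + 1 - 1))).card := by
          refine (dc_card_le H _).trans (le_of_eq (v1.symm.trans ?_))
          unfold dcv
          congr!
        have h3 := eq_of_subset_of_card_le h1 h2
        have h4 : w ∈ dc (e 0 (2 * m + 1 - 0)) := mem_dc.mpr hwy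
        rw [← h3, mem_filter] at h4
        exact ⟨1, le_rfl, by omega, h4.2.2.lt⟩
      · exact ⟨k, by omega, hk, hwy.lt⟩
    have h1 := size_S2 H hm hT hn
    have h2 := GaussRot.lv_le H (l := 2 * m) (i := 2 * m + 3) (by omega) (by omega)
    rw [h1, hb (2 * m) (by omega)] at h2
    omega
  · have hr3 : r = 4 * m + 2 := by omega
    have hcard : (lv P (2 * m + 1)).card = m + 1 := by
      rw [hb _ le_rfl]
      omega
    have h1 := E21 H (i := 2 * m + 1) (by omega) (by omega) (by omega)
    obtain ⟨s1, s2, s3⟩ := S2_sums H hm hr hT v1 v2 v3 v4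
    rw [s2, s3, PU_S2' H (by omega) hT, card_empty] at h1
    have h2 : 0 < (PD P (2 * m + 1)).card := by
      have h3 : (0 : ℤ) < ((PD P (2 * m + 1)).card : ℤ) := by
        push_cast at h1
        linarith
      exact_mod_cast h3
    obtain ⟨z, hz⟩ := card_pos.mp h2
    unfold PD at hz
    rw [mem_filter] at hz
    obtain ⟨-, hz1, hz2, -⟩ := hz
    have h4 := card_dbL H h0 (j := 2 * m + 2) (by omega)
    have h5 := GaussRot.lv_symm H (l := 2 * m) (by omega)
    rw [hb (2 * m) (by omega), show r - 2 * m = 2 * m + 2 by omega] at h5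
    have h6 := GaussRot.lv_symm H (l := 2 * m - 1) (by omega)
    rw [hb (2 * m - 1) (by omega), show r - (2 * m - 1) = 2 * m + 3 by omega] at h6
    have h7 : dbL P (2 * m + 2) ⊆ lv P (2 * m + 3) := by
      intro y hy
      rw [mem_lv]
      exact (mem_dbL.mp hy).1
    have h8 := eq_of_subset_of_card_le h7 (by omega)
    have h9 : z ∈ dbL P (2 * m + 2) := by
      rw [h8, mem_lv]
      exact hz1
    have h10 := (mem_dbL.mp h9).2
    omega

end Pool.Agent.GaussPoset.Win
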