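import Pool.Agent.W_448win_h16.ShpC

/-! First levels. -/

namespace Pool.Agent.GaussPoset.Win

set_option linter.unusedSectionVars false

open Finset

universe u

variable {P : Type u} [Fintype P] [PartialOrder P] [DecidableEq P] {r : ℕ}

lemma ShpD_lt {k : ℕ} (hk : (lv P k).card = 1) {w v : P} (hw : lev w = k + 1) (hv : lev v = k) :
    w < v := by
  classical
  obtain ⟨a, ha⟩ := Finset.card_eq_one.1 hk
  obtain ⟨y, hy, hy2⟩ := exists_lev_succ hw
  have h1 : y ∈ lv P k := mem_lv.2 hy2
  have h2 : v ∈ lv P k := mem_lv.2 hv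
  rw [ha, Finset.mem_singleton] at h1 h2
  rw [h2, ← h1]
  exact hy

/-- level zero: the only element of level `0` -/
theorem crd_zero (h0 : (lv P 0).card = 1) (t : Option ℕ) (ht : Rg t 0 0) :
    ∃ e : ℕ → ℕ → P, Crd t 0 e := by
  classical
  obtain ⟨a, ha⟩ := Finset.card_eq_one.1 h0
  have hla : lev a = 0 := by
    have : a ∈ lv P 0 := by rw [ha]; exact Finset.mem_singleton_self a
    exact mem_lv.1 this
  refine ⟨fun _ _ => a, ?_, ?_, ?_⟩
  · intro i c _ hic
    rw [hla]; omega
  · intro i c i' c' _ h1 _ h2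
    constructor
    · intro _
      omega
    · intro _
      exact le_rfl
  · intro z hz
    refine ⟨0, 0, ht, by omega, ?_⟩
    have hz0 : z ∈ lv P 0 := mem_lv.2 (by omega)
    rw [ha, Finset.mem_singleton] at hz0
    exact hz0.symm

/-- `b_0 = 1`, `b_1 = 2`: `crd_zero`, `Crd.extend` with `l = 0`, `g 0`, `g 1` the two elements of
level `1` (below the only element of level `0`, `exists_lev_succ`) -/
theorem crd_one_some (H : Gr P r) (h0 : (lv P 0).card = 1) (h1 : (lv P 1).card = 2) :
    ∃ e : ℕ → ℕ → P, Crd (some 2) 1 e := by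
  classical
  have hR : Rg (some 2) 0 0 := show 0 < 2 by omega
  obtain ⟨e, he⟩ := crd_zero h0 (some 2) hR
  obtain ⟨a, b, hab, hl⟩ := Finset.card_eq_two.1 h1
  have hla : lev a = 1 := by
    have : a ∈ lv P 1 := by rw [hl]; simp
    exact mem_lv.1 this
  have hlb : lev b = 1 := by
    have : b ∈ lv P 1 := by rw [hl]; simp
    exact mem_lv.1 this
  have hg : ∀ i : ℕ, lev (if i = 0 then a else b) = 1 := by
    intro i
    split_ifs
    · exact hla
    · exact hlb
  refine ⟨_, he.extend H hR (fun _ _ _ => Iff.rfl) (fun i => if i = 0 then a else b) ?_ ?_ ?_ ?_⟩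
  · intro i c _ _
    exact hg i
  · intro i c hi hic i' hi'
    have hm : mm (some 2) 0 = 0 := by
      show min (2 - 1) 0 = 0
      omega
    rw [hm] at hi'
    have hi0 : i' = 0 := by omega
    subst hi0
    have h2 : lev (e 0 (0 - 0)) = 0 := he.lev_e 0 0 hR (by omega)
    have h3 := ShpD_lt h0 (w := if i = 0 then a else b) (hg i) h2
    refine iff_of_true h3 ?_
    omega
  · intro i c i' c' _ hic _ hic' hgg
    by_cases h2 : i = 0 <;> by_cases h3 : i' = 0
    · omega
    · simp only [h2, h3, if_true, if_false] at hgg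
      exact absurd hgg hab
    · simp only [h2, h3, if_true, if_false] at hgg
      exact absurd hgg.symm hab
    · omega
  · intro z hz
    have hz1 : z ∈ lv P 1 := mem_lv.2 (by omega)
    rw [hl, Finset.mem_insert, Finset.mem_singleton] at hz1
    rcases hz1 with h2 | h2
    · exact ⟨0, 1, show 0 < 2 by omega, by omega, by simp [h2]⟩
    · exact ⟨1, 0, show 1 < 2 by omega, by omega, by simp [h2]⟩

/-- `b_0 = b_1 = 1`, `b_2 = 2`: `crd_zero` and twice `Crd.extend` -/
theorem crd_two_none (H : Gr P r) (h0 : (lv P 0).card = 1) (h1 : (lv P 1).card = 1)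
    (h2 : (lv P 2).card = 2) : ∃ e : ℕ → ℕ → P, Crd none 2 e := by
  classical
  have hR : Rg none 0 0 := show 0 ≤ 0 by omega
  obtain ⟨e0, he0⟩ := crd_zero h0 none hR
  obtain ⟨u, hu⟩ := Finset.card_eq_one.1 h1
  have hlu : lev u = 1 := by
    have : u ∈ lv P 1 := by rw [hu]; simp
    exact mem_lv.1 this
  obtain ⟨e, he⟩ : ∃ e : ℕ → ℕ → P, Crd none 1 e := by
    refine ⟨_, he0.extend H hR (fun _ _ _ => Iff.rfl) (fun _ => u) ?_ ?_ ?_ ?_⟩
    · intro i c _ _
      exact hlu
    · intro i c hi hic i' hi'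
      have hm : mm none 0 = 0 := rfl
      rw [hm] at hi'
      have hi0 : i' = 0 := by omega
      subst hi0
      have h3 : lev (e0 0 (0 - 0)) = 0 := he0.lev_e 0 0 hR (by omega)
      have h4 := ShpD_lt h0 (w := u) hlu h3
      refine iff_of_true h4 ?_
      have h5 : i ≤ c := hi
      omega
    · intro i c i' c' hi hic hi' hic' _
      have h5 : i ≤ c := hi
      have h6 : i' ≤ c' := hi'
      omega
    · intro z hz
      have hz1 : z ∈ lv P 1 := mem_lv.2 (by omega)
      rw [hu, Finset.mem_singleton] at hz1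
      exact ⟨0, 1, show 0 ≤ 1 by omega, by omega, hz1.symm⟩
  obtain ⟨a, b, hab, hl⟩ := Finset.card_eq_two.1 h2
  have hla : lev a = 2 := by
    have : a ∈ lv P 2 := by rw [hl]; simp
    exact mem_lv.1 this
  have hlb : lev b = 2 := by
    have : b ∈ lv P 2 := by rw [hl]; simp
    exact mem_lv.1 this
  have hg : ∀ i : ℕ, lev (if i = 0 then a else b) = 2 := by
    intro i
    split_ifs
    · exact hla
    · exact hlb
  refine ⟨_, he.extend H hR (fun _ _ _ => Iff.rfl) (fun i => if i = 0 then a else b) ?_ ?_ ?_ ?_⟩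
  · intro i c _ _
    exact hg i
  · intro i c hi hic i' hi'
    have hm : mm none 1 = 0 := rfl
    rw [hm] at hi'
    have hi0 : i' = 0 := by omega
    subst hi0
    have h3 : lev (e 0 (1 - 0)) = 1 := he.lev_e 0 1 (show 0 ≤ 1 by omega) (by omega)
    have h4 := ShpD_lt h1 (w := if i = 0 then a else b) (hg i) h3
    refine iff_of_true h4 ?_
    have h5 : i ≤ c := hi
    omega
  · intro i c i' c' hi hic hi' hic' hgg
    have h5 : i ≤ c := hi
    have h6 : i' ≤ c' := hi'
    by_cases h2 : i = 0 <;> by_cases h3 : i' = 0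
    · omega
    · simp only [h2, h3, if_true, if_false] at hgg
      exact absurd hgg hab
    · simp only [h2, h3, if_true, if_false] at hgg
      exact absurd hgg.symm hab
    · omega
  · intro z hz
    have hz1 : z ∈ lv P 2 := mem_lv.2 (by omega)
    rw [hl, Finset.mem_insert, Finset.mem_singleton] at hz1
    rcases hz1 with h2 | h2
    · exact ⟨0, 2, show 0 ≤ 2 by omega, by omega, by simp [h2]⟩
    · exact ⟨1, 1, show 1 ≤ 1 by omega, by omega, by simp [h2]⟩

end Pool.Agent.GaussPoset.Win
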