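import Pool.Agent.W_448win_h16.ShpI
import Pool.Agent.W_448win_h16.ShpD

/-! The upper part of the poset if level one has two elements. -/

namespace Pool.Agent.GaussPoset.Win

set_option linter.unusedSectionVars false

open Finset

universe u

variable {P : Type u} [Fintype P] [PartialOrder P] [DecidableEq P] {r : ℕ}

/-- the case b_1 = 2 -/
theorem shape_one (H : Gr P r) {j : ℕ} (hj1 : 1 ≤ j) (hj : 2 * j ≤ r)
    (h0 : (lv P 0).card = 1) (h1 : (lv P 1).card = 2)
    (hg : ∀ k, 1 ≤ k → k < j → Good P k) :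
    ∃ (n : ℕ) (e : ℕ → ℕ → P), 2 ≤ n ∧ n ≤ j + 1 ∧ Crd (some n) j e := by
  have key : ∀ k, 1 ≤ k → k ≤ j →
      ∃ (n : ℕ) (e : ℕ → ℕ → P), 2 ≤ n ∧ n ≤ k + 1 ∧ Crd (some n) k e := by
    intro k hk
    induction k, hk using Nat.le_induction with
    | base =>
      intro _
      obtain ⟨e, he⟩ := crd_one_some H h0 h1
      exact ⟨2, e, le_rfl, by omega, he⟩
    | succ k hk ih =>
      intro hkj
      obtain ⟨n, e, hn, hn2, he⟩ := ih (by omega)
      exact step_some H hk hn hn2 he (hg k hk (by omega)) (fun h => hg (k - 1) (by omega) (by omega))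
        (by omega)
  exact key j hj1 le_rfl

end Pool.Agent.GaussPoset.Win
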