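import Pool.Agent.W_448win_h16.ShpO
import Pool.Agent.W_448win_h16.ShpD

/-! The upper part of the poset if level one has one element and level two has two. -/

namespace Pool.Agent.GaussPoset.Win

set_option linter.unusedSectionVars false

open Finset

universe u

variable {P : Type u} [Fintype P] [PartialOrder P] [DecidableEq P] {r : ℕ}

/-- the case b_1 = 1, b_2 = 2 -/
theorem shape_two (H : Gr P r) {j : ℕ} (hj3 : 3 ≤ j) (hj : 2 * j ≤ r)
    (h0 : (lv P 0).card = 1) (h1 : (lv P 1).card = 1) (h2 : (lv P 2).card = 2)
    (hg : ∀ k, 1 ≤ k → k < j → Good P k) :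
    ∃ e : ℕ → ℕ → P, Crd none j e := by
  have key : ∀ k, 2 ≤ k → k ≤ j → ∃ e : ℕ → ℕ → P, Crd none k e := by
    intro k hk
    induction k, hk using Nat.le_induction with
    | base =>
      intro _
      exact crd_two_none H h0 h1 h2
    | succ k hk ih =>
      intro hkj
      obtain ⟨e, he⟩ := ih (by omega)
      rcases Nat.even_or_odd' k with ⟨m, hm | hm⟩
      · subst hm
        exact step_even H (by omega) he (hg _ (by omega) (by omega)) (by omega)
      · subst hm
        exact step_odd H (by omega) he (hg _ (by omega) (by omega)) (hg _ (by omega) (by omega))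
          (by omega)
  exact key j (by omega) le_rfl

end Pool.Agent.GaussPoset.Win
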