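import Pool.Agent.W_448win_h16.FinA
import Pool.Agent.W_448win_h16.ShapeOne
import Pool.Agent.W_448win_h16.ShapeTwo
import Pool.Agent.W_448win_h16.BaS
import Pool.Agent.W_448win_h16.BaT
import Pool.Agent.W_448win_h16.BbE
import Pool.Agent.W_448win_h16.BbJ

/-! All levels are good; the main theorem. -/

namespace Pool.Agent.GaussPoset.Win

set_option linter.unusedSectionVars false

open Finset OrderDual

universe u

variable {P : Type u} [Fintype P] [PartialOrder P] [DecidableEq P] {r : ℕ}

/-- if one of the levels has more than three elements then `b_1 = 2` or `b_1 = 1, b_2 = 2` -/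
theorem first_levels (H : Gr P r) (h0 : (lv P 0).card = 1) {k : ℕ} (hk : 2 * k ≤ r)
    (h4 : 4 ≤ (lv P k).card) :
    (lv P 1).card = 2 ∨ ((lv P 1).card = 1 ∧ (lv P 2).card = 2 ∧ 3 ≤ k) := by
  have hk0 : 1 ≤ k := by
    rcases Nat.eq_zero_or_pos k with h | h
    · rw [h, h0] at h4
      omega
    · exact h
  -- level one
  have e1 := card_dbL H h0 (j := 1) (by omega)
  have u1 := GaussRot.unimod H (l := 0) (by omega)
  have c1 := count_two H 1 (by omega)
  have f1 : ((univ.filter (fun a : P => lev a + 1 = 1)).filter (fun a => dn 1 a = 2)).card ≤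
      (lv P 0).card := by
    refine le_trans (Finset.card_filter_le _ _) (le_of_eq ?_)
    congr 1
    ext a
    simp only [mem_filter, mem_univ, true_and, mem_lv]
    omega
  rcases Nat.lt_or_ge (lv P 1).card 2 with h1 | h1
  · right
    have h1' : (lv P 1).card = 1 := by omega
    have hk1 : k ≠ 1 := by
      rintro rfl
      omega
    have c2 := count_two H 2 (by omega)
    have f2 : ((univ.filter (fun a : P => lev a + 1 = 2)).filter (fun a => dn 2 a = 2)).card ≤
        (lv P 1).card := by
      refine le_trans (Finset.card_filter_le _ _) (le_of_eq ?_)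
      congr 1
      ext a
      simp only [mem_filter, mem_univ, true_and, mem_lv]
      omega
    have hk2 : k ≠ 2 := by
      rintro rfl
      omega
    have u2 := GaussRot.unimod H (l := 1) (by omega)
    refine ⟨h1', ?_, by omega⟩
    by_contra hne
    have h2 : (lv P 2).card = 1 := by omega
    have := ladder H h0 h1' h2 (fun i hi hi2 hb => W21_two H hi hi2 hb) k
    unfold bb at this
    omega
  · left
    omega

/-- one step of the induction -/
theorem step (H : Gr P r) (h0 : (lv P 0).card = 1) {k : ℕ} (hk : 2 * k ≤ r)
    (hlow : ∀ l, l < k → Good P l) (hlow' : ∀ l, l < k → Good Pᵒᵈ l) : Good P k := by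
  by_cases h3 : (lv P k).card ≤ 3
  · exact good_of_three H h3
  have h4 : 4 ≤ (lv P k).card := by omega
  have hk0 : 1 ≤ k := by
    rcases Nat.eq_zero_or_pos k with h | h
    · rw [h, h0] at h4
      omega
    · exact h
  rcases first_levels H h0 hk h4 with h1 | ⟨h1, h2, hk3⟩
  · obtain ⟨n, e, hn2, hnk, hT⟩ := shape_one H hk0 hk h0 h1 (fun l _ hl => hlow l hl)
    obtain ⟨m, rfl⟩ : ∃ m, n = m + 1 := ⟨n - 1, by omega⟩
    have hc := hT.card_lv (fun n' hn' => by
      have : m + 1 = n' := Option.some.inj hn'
      omega) le_rfl
    have hmm : mm (some (m + 1)) k = min m k := rfl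
    rw [hmm] at hc
    rcases Nat.lt_or_ge m k with h | h
    · have hm3 : 3 ≤ m := by
        rw [hc] at h4
        omega
      exact bad_R2 H h0 hm3 h hk hT (hlow _ (by omega))
    · have hmk : m = k := by omega
      subst hmk
      have hm3 : 3 ≤ m := by
        rw [hc] at h4
        omega
      exact bad_R1 H h0 hm3 hk hT (hlow _ (by omega))
  · obtain ⟨e, hT⟩ := shape_two H hk3 hk h0 h1 h2 (fun l _ hl => hlow l hl)
    have hc := hT.card_lv (fun n' hn' => by simp at hn') le_rfl
    have hmm : mm none k = k / 2 := rfl
    rw [hmm] at hc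
    rcases Nat.even_or_odd' k with ⟨m, hm | hm⟩
    · subst hm
      have hm3 : 3 ≤ m := by
        rw [hc] at h4
        omega
      have HD := H.dual
      obtain ⟨f, hf⟩ := shape_two HD hk3 hk (by rw [card_lv_dual H (by omega)]; exact h0)
        (by rw [card_lv_dual H (by omega)]; exact h1)
        (by rw [card_lv_dual H (by omega)]; exact h2) (fun l _ hl => hlow' l hl)
      exact bad_S1 H h0 hm3 (by omega) hT hf (hlow _ (by omega))
    · subst hm
      have hm3 : 3 ≤ m := by
        rw [hc] at h4
        omega
      exact bad_S2 H h0 hm3 (by omega) hT (hlow _ (by omega))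

/-- all levels in the upper half are good, for the poset and its dual -/
theorem all_good (H : Gr P r) (h0 : (lv P 0).card = 1) :
    ∀ k, 2 * k ≤ r → Good P k ∧ Good Pᵒᵈ k := by
  intro k
  induction k using Nat.strong_induction_on with
  | _ k ih =>
    intro hk
    have hlow : ∀ l, l < k → Good P l := fun l hl => (ih l hl (by omega)).1
    have hlow' : ∀ l, l < k → Good Pᵒᵈ l := fun l hl => (ih l hl (by omega)).2
    refine ⟨step H h0 hk hlow hlow', ?_⟩
    refine step H.dual (by rw [card_lv_dual H (by omega)]; exact h0) hk hlow' fun l hl => ?_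
    have h1 := Good_od H.dual (i := r - l) (by omega)
    have h2 := Good_od H (i := l) (by omega)
    rw [show r - (r - l) = l by omega] at h1
    exact h1.mpr (h2.mpr (hlow l hl))

/-- modularity of a Gaussian poset with a greatest element -/
theorem modl_of_top (H : Gr P r) (h0 : (lv P 0).card = 1) : Modl P := by
  intro v v' hne
  by_cases hl : lev v = lev v'
  · have hj : lev v ≤ r := H.lev_le v
    rcases Nat.lt_or_ge r (2 * lev v) with h | h
    · have h1 := (all_good H h0 (r - lev v) (by omega)).2
      exact (Good_od H hj).mp h1 v v' rfl hl.symm hne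
    · exact (all_good H h0 (lev v) h).1 v v' rfl hl.symm hne
  · exact ucv_zero_of_lev H hl

/-- a finite poset with a greatest element has a connected Hasse diagram -/
theorem connected_of_top {x0 : P} (htop : ∀ x, x ≤ x0) : (SimpleGraph.hasse P).Connected := by
  have hne : Nonempty P := ⟨x0⟩
  have key : ∀ n : ℕ, ∀ x : P, lev x = n → (SimpleGraph.hasse P).Reachable x x0 := by
    intro n
    induction n using Nat.strong_induction_on with
    | _ n ih =>
      intro x hx
      rcases eq_or_lt_of_le (htop x) with h | h
      · rw [h]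
      · obtain ⟨z, hz, hz2⟩ := exists_covBy_le_of_lt h
        have h1 : (SimpleGraph.hasse P).Reachable x z :=
          SimpleGraph.Adj.reachable (SimpleGraph.hasse_adj.mpr (Or.inl hz))
        have h2 := lev_strictAnti hz.lt
        exact h1.trans (ih (lev z) (by omega) z rfl)
  exact ⟨fun x y => (key _ x rfl).trans (key _ y rfl).symm⟩

/-- A Gaussian poset with a greatest element is a distributive lattice. -/
theorem distrib_of_top (hG : IsGaussian P) {x0 : P} (htop : ∀ x, x ≤ x0) :
    IsDistribLatticeOrder P := by
  have hc := connected_of_top htop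
  obtain ⟨r, H⟩ := gr_of_connected hG hc
  refine distrib_of_modl hG hc (modl_of_top H ?_)
  rw [Finset.card_eq_one]
  refine ⟨x0, ?_⟩
  have hx0 : lev x0 = 0 := by
    by_contra hne
    obtain ⟨n, hn⟩ := Nat.exists_eq_succ_of_ne_zero hne
    obtain ⟨y, hy, _⟩ := exists_lev_succ hn
    exact absurd (htop y) (not_le_of_gt hy)
  ext x
  rw [mem_lv, mem_singleton]
  constructor
  · intro hx
    by_contra hne
    have := lev_strictAnti (lt_of_le_of_ne (htop x) hne)
    omega
  · rintro rfl
    exact hx0

/-- A Gaussian poset with a least element is a distributive lattice. -/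
theorem distrib_of_bot (hG : IsGaussian P) {x0 : P} (hbot : ∀ x, x0 ≤ x) :
    IsDistribLatticeOrder P :=
  distrib_of_dual (distrib_of_top (gauss_dual hG) (x0 := toDual x0) fun x => hbot (ofDual x))

end Pool.Agent.GaussPoset.Win
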