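import Pool.Agent.W_448win_h16.Defs
import Pool.Agent.W_448rot_h96.TopDefs

/-! Coordinates for the top part of the poset, rows, and the level sums. -/

namespace Pool.Agent.GaussPoset.Win

set_option linter.unusedSectionVars false

open Finset

universe u

variable {P : Type u} [Fintype P] [PartialOrder P] [DecidableEq P] {r : ℕ}

/-- region of the coordinates: the strip `i < n` for `some n`, the shifted quadrant `i ≤ c` for
`none` -/
def Rg (t : Option ℕ) (i c : ℕ) : Prop :=
  match t with
  | some n => i < n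
  | none => i ≤ c

/-- last index of level `l` -/
def mm (t : Option ℕ) (l : ℕ) : ℕ :=
  match t with
  | some n => min (n - 1) l
  | none => l / 2

/-- `e` gives coordinates of the elements of level at most `l` -/
structure Crd (t : Option ℕ) (l : ℕ) (e : ℕ → ℕ → P) : Prop where
  lev_e : ∀ i c, Rg t i c → i + c ≤ l → lev (e i c) = i + c
  le_iff : ∀ i c i' c', Rg t i c → i + c ≤ l → Rg t i' c' → i' + c' ≤ l →
    (e i c ≤ e i' c' ↔ i' ≤ i ∧ c' ≤ c)
  surj : ∀ z : P, lev z ≤ l → ∃ i c, Rg t i c ∧ i + c ≤ l ∧ e i c = z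

/-- `w` has level `l + 1` and the `x_i = e i (l - i)`, `i ≤ m`, above it are those with `i ∈ T` -/
def Ty (l m : ℕ) (e : ℕ → ℕ → P) (w : P) (T : Finset ℕ) : Prop :=
  lev w = l + 1 ∧ ∀ i ≤ m, (w < e i (l - i) ↔ i ∈ T)

/-- the elements of level `l` are the `x_i = e i (l - i)`, `i ≤ m`, all different, and neighbours
have exactly one common upper cover, other pairs none -/
structure Row (l m : ℕ) (e : ℕ → ℕ → P) : Prop where
  lev_x : ∀ i ≤ m, lev (e i (l - i)) = l
  inj : ∀ i ≤ m, ∀ i' ≤ m, e i (l - i) = e i' (l - i') → i = i'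
  surj : ∀ v : P, lev v = l → ∃ i ≤ m, e i (l - i) = v
  ucv_x : ∀ i ≤ m, ∀ i' ≤ m, i ≠ i' →
    ucv (e i (l - i)) (e i' (l - i')) = if i + 1 = i' ∨ i' + 1 = i then 1 else 0

/-- coordinates of a strip or quadrant, in the form used for the rotations -/
lemma Crd.top_false {m : ℕ} {e : ℕ → ℕ → P} (h : Crd (some (m + 1)) m e) :
    GaussRot.Top false m e := by
  refine ⟨fun i c h1 h2 => ?_, fun i c i' c' h1 h2 h3 h4 => ?_, fun z hz => ?_⟩
  · rw [GaussRot.reg_false] at h1
    rw [GaussRot.jj_false] at h2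
    exact h.lev_e i c (show i < m + 1 by omega) h2
  · rw [GaussRot.reg_false] at h1 h3
    rw [GaussRot.jj_false] at h2 h4
    exact h.le_iff i c i' c' (show i < m + 1 by omega) h2 (show i' < m + 1 by omega) h4
  · rw [GaussRot.jj_false] at hz ⊢
    obtain ⟨i, c, h1, h2, h3⟩ := h.surj z hz
    refine ⟨i, c, ?_, h2, h3⟩
    rw [GaussRot.reg_false]
    exact Nat.lt_succ_iff.mp h1

/-- coordinates of the shifted quadrant, in the form used for the rotations -/
lemma Crd.top_true {m : ℕ} {e : ℕ → ℕ → P} (h : Crd none (2 * m) e) :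
    GaussRot.Top true m e := by
  refine ⟨fun i c h1 h2 => ?_, fun i c i' c' h1 h2 h3 h4 => ?_, fun z hz => ?_⟩
  · rw [GaussRot.reg_true] at h1
    rw [GaussRot.jj_true] at h2
    exact h.lev_e i c h1 h2
  · rw [GaussRot.reg_true] at h1 h3
    rw [GaussRot.jj_true] at h2 h4
    exact h.le_iff i c i' c' h1 h2 h3 h4
  · rw [GaussRot.jj_true] at hz ⊢
    obtain ⟨i, c, h1, h2, h3⟩ := h.surj z hz
    refine ⟨i, c, ?_, h2, h3⟩
    rw [GaussRot.reg_true]
    exact h1

lemma Ty.typ_false {m : ℕ} {e : ℕ → ℕ → P} {w : P} {T : Finset ℕ} (h : Ty m m e w T) :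
    GaussRot.Typ false m e w T := by
  unfold GaussRot.Typ
  rw [GaussRot.jj_false]
  exact h

lemma Ty.typ_true {m : ℕ} {e : ℕ → ℕ → P} {w : P} {T : Finset ℕ} (h : Ty (2 * m) m e w T) :
    GaussRot.Typ true m e w T := by
  unfold GaussRot.Typ
  rw [GaussRot.jj_true]
  exact h

/-- `v` has `dgD i v` double lower covers, counted with the other sites -/
noncomputable def dgD (i : ℕ) (v : P) : ℤ := ∑ v' ∈ (lv P i).erase v, (dcv v v' : ℤ)

/-- `v` has `dgT i v` double upper covers -/
noncomputable def dgT (i : ℕ) (v : P) : ℤ := ∑ v' ∈ (lv P i).erase v, (ucv v v' : ℤ)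

open Classical in
/-- number of single lower covers and single upper covers of `v` -/
noncomputable def sing (v : P) : ℤ :=
  ((dc v).filter (fun w => (uc w).card = 1)).card + ((uc v).filter (fun u => (dc u).card = 1)).card

end Pool.Agent.GaussPoset.Win
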