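import Pool.Agent.W_448win_h16.EtF
import Pool.Agent.W_448win_h16.Crd

/-! Energy two: counting. -/

namespace Pool.Agent.GaussPoset.Win

set_option linter.unusedSectionVars false

open Finset

universe u

variable {P : Type u} [Fintype P] [PartialOrder P] [DecidableEq P] {r : ℕ}

/-- double counting of a relation -/
lemma EtG_dc (V B : Finset P) (h : P → Finset P) (hs : ∀ w ∈ B, h w ⊆ V) :
    ∑ v ∈ V, ((B.filter (fun w => v ∈ h w)).card : ℤ) = ∑ w ∈ B, ((h w).card : ℤ) := by
  classical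
  have h1 : ∀ v ∈ V, ((B.filter (fun w => v ∈ h w)).card : ℤ) =
      ∑ w ∈ B, (if v ∈ h w then (1 : ℤ) else 0) := by
    intro v _
    rw [Finset.card_filter]
    push_cast
    rfl
  have h2 : ∀ w ∈ B, ((h w).card : ℤ) = ∑ v ∈ V, (if v ∈ h w then (1 : ℤ) else 0) := by
    intro w hw
    rw [Finset.sum_ite_mem, Finset.inter_eq_right.2 (hs w hw), Finset.sum_const, nsmul_eq_mul,
      mul_one]
  rw [Finset.sum_congr rfl h1, Finset.sum_congr rfl h2, Finset.sum_comm]

/-- the ordered pairs of different elements of a set with at most two elements -/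
lemma EtG_pairs (V s t : Finset P) (hs : s ⊆ V) (hs2 : s.card = 2) (ht2 : t.card = 2) :
    ∑ v ∈ V, ∑ v' ∈ V.erase v, ((if v ∈ s ∧ v' ∈ s then (1 : ℤ) else 0) *
      (if v ∈ t ∧ v' ∈ t then 1 else 0)) = 2 * ee s t := by
  classical
  have hst : s ∩ t ⊆ V := fun x hx => hs (Finset.mem_inter.1 hx).1
  have h1 : ∀ v ∈ V, ∑ v' ∈ V.erase v, ((if v ∈ s ∧ v' ∈ s then (1 : ℤ) else 0) *
      (if v ∈ t ∧ v' ∈ t then 1 else 0)) =
      if v ∈ s ∩ t then (((s ∩ t).card - 1 : ℕ) : ℤ) else 0 := by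
    intro v hv
    by_cases h : v ∈ s ∩ t
    · rw [if_pos h]
      have h' := Finset.mem_inter.1 h
      have h2 : ∀ v' ∈ V.erase v, ((if v ∈ s ∧ v' ∈ s then (1 : ℤ) else 0) *
          (if v ∈ t ∧ v' ∈ t then 1 else 0)) = if v' ∈ s ∩ t then 1 else 0 := by
        intro v' _
        by_cases h3 : v' ∈ s <;> by_cases h4 : v' ∈ t <;>
          simp [Finset.mem_inter, h3, h4, h'.1, h'.2]
      rw [Finset.sum_congr rfl h2, Finset.sum_ite_mem, Finset.sum_const, nsmul_eq_mul, mul_one]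
      congr 1
      rw [← Finset.card_erase_of_mem h]
      congr 1
      ext x
      simp only [Finset.mem_inter, Finset.mem_erase]
      constructor
      · rintro ⟨⟨h3, -⟩, h4⟩
        exact ⟨h3, h4⟩
      · rintro ⟨h3, h4⟩
        exact ⟨⟨h3, hs h4.1⟩, h4⟩
    · rw [if_neg h]
      apply Finset.sum_eq_zero
      intro v' _
      rw [Finset.mem_inter] at h
      by_cases h3 : v ∈ s
      · have h4 : v ∉ t := fun h4 => h ⟨h3, h4⟩
        simp [h4]
      · simp [h3]
  rw [Finset.sum_congr rfl h1, Finset.sum_ite_mem, Finset.inter_eq_right.2 hst, Finset.sum_const,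
    nsmul_eq_mul]
  unfold ee
  by_cases h : s = t
  · rw [if_pos h, ← h, Finset.inter_self, hs2]
    norm_num
  · rw [if_neg h]
    have h3 : (s ∩ t).card < 2 := by
      by_contra hcon
      push Not at hcon
      apply h
      have h4 : s ∩ t = s := Finset.eq_of_subset_of_card_le Finset.inter_subset_left (by omega)
      have h5 : s ∩ t = t := Finset.eq_of_subset_of_card_le Finset.inter_subset_right (by omega)
      rw [← h4, h5]
    have h4 : (s ∩ t).card = 0 ∨ (s ∩ t).card = 1 := by omega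
    rcases h4 with h4 | h4 <;> rw [h4] <;> norm_num

/-- Double counting of common elements: `|s ∩ s'| = ∑ v ∈ V, [v ∈ s] [v ∈ s']` for subsets `s` of `V`. -/
theorem count_tt (V A' B' : Finset P) (f g : P → Finset P) (hf : ∀ a ∈ A', f a ⊆ V) :
    ∑ a ∈ A', ∑ b ∈ B', tt (f a) (g b) =
      ∑ v ∈ V, ((A'.filter (fun a => v ∈ f a)).card : ℤ) * ((B'.filter (fun b => v ∈ g b)).card : ℤ) := by
  classical
  have h1 : ∀ a ∈ A', ∀ b ∈ B', tt (f a) (g b) =
      ∑ v ∈ V, (if v ∈ f a then (1 : ℤ) else 0) * (if v ∈ g b then 1 else 0) := by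
    intro a ha b hb
    unfold tt
    have h2 : f a ∩ g b = V.filter (fun v => v ∈ f a ∧ v ∈ g b) := by
      ext v
      simp only [Finset.mem_inter, Finset.mem_filter]
      constructor
      · rintro ⟨h1, h2⟩
        exact ⟨hf a ha h1, h1, h2⟩
      · rintro ⟨_, h1, h2⟩
        exact ⟨h1, h2⟩
    rw [h2, Finset.card_filter]
    push_cast
    refine Finset.sum_congr rfl fun v _ => ?_
    by_cases h1 : v ∈ f a <;> by_cases h2 : v ∈ g b <;> simp [h1, h2]
  have h2 : ∀ v ∈ V, ((A'.filter (fun a => v ∈ f a)).card : ℤ) *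
      ((B'.filter (fun b => v ∈ g b)).card : ℤ) =
      ∑ a ∈ A', ∑ b ∈ B', (if v ∈ f a then (1 : ℤ) else 0) * (if v ∈ g b then 1 else 0) := by
    intro v _
    rw [Finset.card_filter, Finset.card_filter]
    push_cast
    rw [Finset.sum_mul_sum]
  rw [Finset.sum_congr rfl h2]
  calc ∑ a ∈ A', ∑ b ∈ B', tt (f a) (g b)
      = ∑ a ∈ A', ∑ b ∈ B', ∑ v ∈ V,
          (if v ∈ f a then (1 : ℤ) else 0) * (if v ∈ g b then 1 else 0) :=
        Finset.sum_congr rfl fun a ha => Finset.sum_congr rfl fun b hb => h1 a ha b hb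
    _ = ∑ a ∈ A', ∑ v ∈ V, ∑ b ∈ B',
          (if v ∈ f a then (1 : ℤ) else 0) * (if v ∈ g b then 1 else 0) :=
        Finset.sum_congr rfl fun a _ => Finset.sum_comm
    _ = ∑ v ∈ V, ∑ a ∈ A', ∑ b ∈ B',
          (if v ∈ f a then (1 : ℤ) else 0) * (if v ∈ g b then 1 else 0) := Finset.sum_comm

/-- Double counting of equal pairs: for two-element subsets `s = {v, v'}` of `V` there are two ordered pairs. -/
theorem count_ee (V A' B' : Finset P) (f g : P → Finset P) (hf : ∀ a ∈ A', f a ⊆ V)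
    (hf2 : ∀ a ∈ A', (f a).card = 2) (hg2 : ∀ b ∈ B', (g b).card = 2) :
    2 * ∑ a ∈ A', ∑ b ∈ B', ee (f a) (g b) =
      ∑ v ∈ V, ∑ v' ∈ V.erase v, ((A'.filter (fun a => v ∈ f a ∧ v' ∈ f a)).card : ℤ) *
        ((B'.filter (fun b => v ∈ g b ∧ v' ∈ g b)).card : ℤ) := by
  classical
  have h2 : ∀ v ∈ V, ∀ v' ∈ V.erase v, ((A'.filter (fun a => v ∈ f a ∧ v' ∈ f a)).card : ℤ) *
      ((B'.filter (fun b => v ∈ g b ∧ v' ∈ g b)).card : ℤ) =
      ∑ a ∈ A', ∑ b ∈ B', (if v ∈ f a ∧ v' ∈ f a then (1 : ℤ) else 0) *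
        (if v ∈ g b ∧ v' ∈ g b then 1 else 0) := by
    intro v _ v' _
    rw [Finset.card_filter, Finset.card_filter]
    push_cast
    rw [Finset.sum_mul_sum]
  rw [Finset.sum_congr rfl fun v hv => Finset.sum_congr rfl fun v' hv' => h2 v hv v' hv']
  symm
  calc ∑ v ∈ V, ∑ v' ∈ V.erase v, ∑ a ∈ A', ∑ b ∈ B',
          (if v ∈ f a ∧ v' ∈ f a then (1 : ℤ) else 0) * (if v ∈ g b ∧ v' ∈ g b then 1 else 0)
      = ∑ v ∈ V, ∑ a ∈ A', ∑ v' ∈ V.erase v, ∑ b ∈ B',
          (if v ∈ f a ∧ v' ∈ f a then (1 : ℤ) else 0) * (if v ∈ g b ∧ v' ∈ g b then 1 else 0) :=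
        Finset.sum_congr rfl fun v _ => Finset.sum_comm
    _ = ∑ a ∈ A', ∑ v ∈ V, ∑ v' ∈ V.erase v, ∑ b ∈ B',
          (if v ∈ f a ∧ v' ∈ f a then (1 : ℤ) else 0) * (if v ∈ g b ∧ v' ∈ g b then 1 else 0) :=
        Finset.sum_comm
    _ = ∑ a ∈ A', ∑ v ∈ V, ∑ b ∈ B', ∑ v' ∈ V.erase v,
          (if v ∈ f a ∧ v' ∈ f a then (1 : ℤ) else 0) * (if v ∈ g b ∧ v' ∈ g b then 1 else 0) :=
        Finset.sum_congr rfl fun a _ => Finset.sum_congr rfl fun v _ => Finset.sum_comm
    _ = ∑ a ∈ A', ∑ b ∈ B', ∑ v ∈ V, ∑ v' ∈ V.erase v,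
          (if v ∈ f a ∧ v' ∈ f a then (1 : ℤ) else 0) * (if v ∈ g b ∧ v' ∈ g b then 1 else 0) :=
        Finset.sum_congr rfl fun a _ => Finset.sum_comm
    _ = ∑ a ∈ A', ∑ b ∈ B', 2 * ee (f a) (g b) :=
        Finset.sum_congr rfl fun a ha => Finset.sum_congr rfl fun b hb =>
          EtG_pairs V (f a) (g b) (hf a ha) (hf2 a ha) (hg2 b hb)
    _ = 2 * ∑ a ∈ A', ∑ b ∈ B', ee (f a) (g b) := by
        rw [Finset.mul_sum]
        exact Finset.sum_congr rfl fun a _ => by rw [Finset.mul_sum]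

/-- The double lower near elements below two sites are the common lower covers (`uc_card_le`), those below one site are
counted by `dgD`. -/
theorem cnt_dbL (H : Gr P r) {i : ℕ} {v : P} (hv : lev v = i) :
    (∀ v' : P, lev v' = i → v ≠ v' →
      ((dbL P i).filter (fun w => v ∈ uc w ∧ v' ∈ uc w)).card = dcv v v') ∧
    (((dbL P i).filter (fun w => v ∈ uc w)).card : ℤ) = dgD i v := by
  classical
  have key : ∀ v' : P, lev v' = i → v ≠ v' →
      ((dbL P i).filter (fun w => v ∈ uc w ∧ v' ∈ uc w)).card = dcv v v' := by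
    intro v' hv' hne
    unfold dcv
    congr 1
    ext w
    rw [Finset.mem_filter, Finset.mem_filter, mem_dbL, mem_uc, mem_uc]
    constructor
    · rintro ⟨-, h1, h2⟩
      exact ⟨mem_univ _, h1, h2⟩
    · rintro ⟨-, h1, h2⟩
      have h3 := (H.covBy_iff.1 h1).2
      refine ⟨⟨by omega, ?_⟩, h1, h2⟩
      have h4 : ({v, v'} : Finset P) ⊆ uc w := by
        intro x hx
        rw [Finset.mem_insert, Finset.mem_singleton] at hx
        rcases hx with hx | hx
        · rw [hx]; exact mem_uc.2 h1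
        · rw [hx]; exact mem_uc.2 h2
      have h5 := Finset.card_le_card h4
      rw [Finset.card_pair hne] at h5
      have h6 := uc_card_le H w
      omega
  refine ⟨key, ?_⟩
  unfold dgD
  have h1 : ∀ v' ∈ (lv P i).erase v, (dcv v v' : ℤ) =
      ((((dbL P i).filter (fun w => v ∈ uc w)).filter
        (fun w => v' ∈ (uc w).erase v)).card : ℤ) := by
    intro v' hv'
    rw [Finset.mem_erase, mem_lv] at hv'
    rw [← key v' hv'.2 (Ne.symm hv'.1), Finset.filter_filter]
    congr 2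
    ext w
    simp only [Finset.mem_filter, Finset.mem_erase]
    constructor
    · rintro ⟨h2, h3, h4⟩
      exact ⟨h2, h3, hv'.1, h4⟩
    · rintro ⟨h2, h3, -, h4⟩
      exact ⟨h2, h3, h4⟩
  rw [Finset.sum_congr rfl h1, EtG_dc]
  · have h2 : ∀ w ∈ (dbL P i).filter (fun w => v ∈ uc w), (((uc w).erase v).card : ℤ) = 1 := by
      intro w hw
      rw [Finset.mem_filter, mem_dbL] at hw
      rw [Finset.card_erase_of_mem hw.2, hw.1.2]
      norm_num
    rw [Finset.sum_congr rfl h2, Finset.sum_const, nsmul_eq_mul, mul_one]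
  · intro w hw x hx
    rw [Finset.mem_filter, mem_dbL] at hw
    rw [Finset.mem_erase] at hx ⊢
    refine ⟨hx.1, ?_⟩
    rw [mem_lv]
    have := lev_uc H hx.2
    omega

/-- mirror image of `cnt_dbL` -/
theorem cnt_dbU (H : Gr P r) {i : ℕ} (hi : i ≤ r) {v : P} (hv : lev v = i) :
    (∀ v' : P, lev v' = i → v ≠ v' →
      ((dbU P i).filter (fun u => v ∈ dc u ∧ v' ∈ dc u)).card = ucv v v') ∧
    (((dbU P i).filter (fun u => v ∈ dc u)).card : ℤ) = dgT i v := by
  classical
  have key : ∀ v' : P, lev v' = i → v ≠ v' →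
      ((dbU P i).filter (fun w => v ∈ dc w ∧ v' ∈ dc w)).card = ucv v v' := by
    intro v' hv' hne
    unfold ucv
    congr 1
    ext w
    rw [Finset.mem_filter, Finset.mem_filter, mem_dbU, mem_dc, mem_dc]
    constructor
    · rintro ⟨-, h1, h2⟩
      exact ⟨mem_univ _, h1, h2⟩
    · rintro ⟨-, h1, h2⟩
      have h3 := (H.covBy_iff.1 h1).2
      refine ⟨⟨by omega, ?_⟩, h1, h2⟩
      have h4 : ({v, v'} : Finset P) ⊆ dc w := by
        intro x hx
        rw [Finset.mem_insert, Finset.mem_singleton] at hx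
        rcases hx with hx | hx
        · rw [hx]; exact mem_dc.2 h1
        · rw [hx]; exact mem_dc.2 h2
      have h5 := Finset.card_le_card h4
      rw [Finset.card_pair hne] at h5
      have h6 := dc_card_le H w
      omega
  refine ⟨key, ?_⟩
  unfold dgT
  have h1 : ∀ v' ∈ (lv P i).erase v, (ucv v v' : ℤ) =
      ((((dbU P i).filter (fun w => v ∈ dc w)).filter
        (fun w => v' ∈ (dc w).erase v)).card : ℤ) := by
    intro v' hv'
    rw [Finset.mem_erase, mem_lv] at hv'
    rw [← key v' hv'.2 (Ne.symm hv'.1), Finset.filter_filter]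
    congr 2
    ext w
    simp only [Finset.mem_filter, Finset.mem_erase]
    constructor
    · rintro ⟨h2, h3, h4⟩
      exact ⟨h2, h3, hv'.1, h4⟩
    · rintro ⟨h2, h3, -, h4⟩
      exact ⟨h2, h3, h4⟩
  rw [Finset.sum_congr rfl h1, EtG_dc]
  · have h2 : ∀ w ∈ (dbU P i).filter (fun w => v ∈ dc w), (((dc w).erase v).card : ℤ) = 1 := by
      intro w hw
      rw [Finset.mem_filter, mem_dbU] at hw
      rw [Finset.card_erase_of_mem hw.2, hw.1.2]
      norm_num
    rw [Finset.sum_congr rfl h2, Finset.sum_const, nsmul_eq_mul, mul_one]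
  · intro w hw x hx
    rw [Finset.mem_filter, mem_dbU] at hw
    rw [Finset.mem_erase] at hx ⊢
    refine ⟨hx.1, ?_⟩
    rw [mem_lv]
    have := lev_dc H hx.2
    omega

/-- the single near elements above and below a site: `sing` -/
theorem cnt_sg (H : Gr P r) {i : ℕ} {v : P} (hv : lev v = i) :
    (((sgL P i).filter (fun w => v ∈ uc w)).card : ℤ) +
      (((sgU P i).filter (fun u => v ∈ dc u)).card : ℤ) = sing v := by
  classical
  unfold sing
  have h1 : (sgL P i).filter (fun w => v ∈ uc w) = (dc v).filter (fun w => (uc w).card = 1) := by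
    ext w
    unfold sgL
    simp only [Finset.mem_filter, mem_uc, mem_dc, mem_univ, true_and]
    constructor
    · rintro ⟨⟨h2, h3⟩, h4⟩
      exact ⟨h4, h3⟩
    · rintro ⟨h2, h3⟩
      have h4 := (H.covBy_iff.1 h2).2
      exact ⟨⟨by omega, h3⟩, h2⟩
  have h2 : (sgU P i).filter (fun w => v ∈ dc w) = (uc v).filter (fun w => (dc w).card = 1) := by
    ext w
    unfold sgU
    simp only [Finset.mem_filter, mem_uc, mem_dc, mem_univ, true_and]
    constructor
    · rintro ⟨⟨h2, h3⟩, h4⟩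
      exact ⟨h4, h3⟩
    · rintro ⟨h2, h3⟩
      have h4 := (H.covBy_iff.1 h2).2
      exact ⟨⟨by omega, h3⟩, h2⟩
  rw [h1, h2]

/-- the numbers of double elements below and above agree (`count_eq`: `dn`, `up` equal to two), and
`2 |dbL| = ∑ v, ∑ v' ≠ v, dcv v v'`, i.e. `∑ v, dgD i v = 2 |dbL|` -/
theorem cnt_n (H : Gr P r) {i : ℕ} (hi : i ≤ r) :
    (dbL P i).card = (dbU P i).card ∧ ∑ v ∈ lv P i, dgD i v = 2 * ((dbL P i).card : ℤ) ∧
      ∑ v ∈ lv P i, dgT i v = 2 * ((dbU P i).card : ℤ) := by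
  classical
  refine ⟨?_, ?_, ?_⟩
  · have h1 := count_eq H hi
    have h2 : (univ.filter (fun a : P => lev a + 1 = i)).filter (fun a => dn i a = 2) =
        dbU P i := by
      ext a
      rw [Finset.mem_filter, Finset.mem_filter, mem_dbU]
      have h3 : lev a + 1 = i → dn i a = (dc a).card := by
        intro ha
        unfold dn
        congr 1
        ext x
        rw [Finset.mem_filter, mem_lv, mem_dc, H.covBy_iff]
        constructor
        · rintro ⟨h4, h5⟩
          exact ⟨h5, by omega⟩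
        · rintro ⟨h4, h5⟩
          exact ⟨by omega, h4⟩
      constructor
      · rintro ⟨⟨-, h4⟩, h5⟩
        exact ⟨h4, by rw [← h3 h4]; exact h5⟩
      · rintro ⟨h4, h5⟩
        exact ⟨⟨mem_univ _, h4⟩, by rw [h3 h4]; exact h5⟩
    have h3 : (lv P (i + 1)).filter (fun a => up i a = 2) = dbL P i := by
      ext a
      rw [Finset.mem_filter, mem_lv, mem_dbL]
      have h3 : lev a = i + 1 → up i a = (uc a).card := by
        intro ha
        unfold up
        congr 1
        ext x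
        rw [Finset.mem_filter, mem_lv, mem_uc, H.covBy_iff]
        constructor
        · rintro ⟨h4, h5⟩
          exact ⟨h5, by omega⟩
        · rintro ⟨h4, h5⟩
          exact ⟨by omega, h4⟩
      constructor
      · rintro ⟨h4, h5⟩
        exact ⟨h4, by rw [← h3 h4]; exact h5⟩
      · rintro ⟨h4, h5⟩
        exact ⟨h4, by rw [h3 h4]; exact h5⟩
    rw [h2, h3] at h1
    exact h1.symm
  · rw [Finset.sum_congr rfl fun v hv => ((cnt_dbL H (mem_lv.1 hv)).2).symm, EtG_dc]
    · have h2 : ∀ w ∈ dbL P i, ((uc w).card : ℤ) = 2 := by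
        intro w hw
        rw [mem_dbL] at hw
        rw [hw.2]
        norm_num
      rw [Finset.sum_congr rfl h2, Finset.sum_const, nsmul_eq_mul, mul_comm]
    · intro w hw x hx
      rw [mem_dbL] at hw
      rw [mem_lv]
      have := lev_uc H hx
      omega
  · rw [Finset.sum_congr rfl fun v hv => ((cnt_dbU H hi (mem_lv.1 hv)).2).symm, EtG_dc]
    · have h2 : ∀ w ∈ dbU P i, ((dc w).card : ℤ) = 2 := by
        intro w hw
        rw [mem_dbU] at hw
        rw [hw.2]
        norm_num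
      rw [Finset.sum_congr rfl h2, Finset.sum_const, nsmul_eq_mul, mul_comm]
    · intro w hw x hx
      rw [mem_dbU] at hw
      rw [mem_lv]
      have := lev_dc H hx
      omega

end Pool.Agent.GaussPoset.Win
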