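import Pool.Agent.W_448win_h16.Defs

/-! Ring facts. -/

namespace Pool.Agent.GaussPoset.Win

set_option linter.unusedSectionVars false

open Finset

universe u

variable {P : Type u} [Fintype P] [PartialOrder P] [DecidableEq P] {r : ℕ}

lemma xx_mul_xi : xx * xi = 1 := by
  have h1 : (PowerSeries.mk fun _ => (1 : ℤ)) * (1 - PowerSeries.X) = (1 : PowerSeries ℤ) :=
    PowerSeries.mk_one_mul_one_sub_eq_one ℤ
  unfold xx xi dd
  linear_combination h1

lemma one_add_xx : 1 + xx = dd := by
  unfold xx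
  ring

lemma one_add_xi : 1 + xi = xi * dd := by
  rw [← one_add_xx, mul_add, mul_one, mul_comm xi xx, xx_mul_xi, add_comm]

lemma cc_xx : PowerSeries.constantCoeff xx = (-1 : ℤ) := by
  unfold xx dd
  rw [map_sub, PowerSeries.constantCoeff_X, map_one, zero_sub]

lemma cc_xi : PowerSeries.constantCoeff xi = (-1 : ℤ) := by
  have h1 := congrArg (PowerSeries.constantCoeff (R := ℤ)) xx_mul_xi
  rw [map_mul, cc_xx, map_one] at h1
  linarith

lemma ev_X : ev (Polynomial.X) = xx := by
  unfold ev
  rw [Polynomial.coe_eval₂RingHom, Polynomial.eval₂_X]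

lemma ev_one_add : ev (1 + Polynomial.X) = dd := by
  rw [map_add, map_one, ev_X, one_add_xx]

/-- divisibility by one more power kills the constant coefficient -/
lemma cc_of_dvd {k : ℕ} {y : A} (h : dd ^ (k + 1) ∣ dd ^ k * y) :
    PowerSeries.constantCoeff y = (0 : ℤ) := by
  have h0 : (dd : A) ≠ 0 := PowerSeries.X_ne_zero
  obtain ⟨c, hc⟩ := h
  rw [pow_succ, mul_assoc] at hc
  have h1 := mul_left_cancel₀ (pow_ne_zero k h0) hc
  rw [h1, map_mul]
  unfold dd
  rw [PowerSeries.constantCoeff_X, zero_mul]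

end Pool.Agent.GaussPoset.Win
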