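import Pool.Agent.W_448win_h16.NormA

/-! Coefficients. -/

namespace Pool.Agent.GaussPoset.Win

set_option linter.unusedSectionVars false

open Finset

universe u

variable {P : Type u} [Fintype P] [PartialOrder P] [DecidableEq P] {r : ℕ}

lemma EtD_c (m : ℕ) (y : A) :
    PowerSeries.coeff m (y * dd ^ m) = PowerSeries.coeff 0 y ∧
    PowerSeries.coeff (m + 1) (y * dd ^ m) = PowerSeries.coeff 1 y ∧
    PowerSeries.coeff m (y * dd ^ (m + 1)) = (0 : ℤ) ∧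
    PowerSeries.coeff (m + 1) (y * dd ^ (m + 1)) = PowerSeries.coeff 0 y := by
  unfold dd
  refine ⟨?_, ?_, ?_, ?_⟩
  · rw [PowerSeries.coeff_mul_X_pow', if_pos le_rfl, Nat.sub_self]
  · rw [PowerSeries.coeff_mul_X_pow', if_pos (Nat.le_succ m), Nat.add_sub_cancel_left]
  · rw [PowerSeries.coeff_mul_X_pow', if_neg (by omega)]
  · rw [PowerSeries.coeff_mul_X_pow', if_pos le_rfl, Nat.sub_self]

lemma EtD_mul0 (y z : A) :
    PowerSeries.coeff 0 (y * z) = PowerSeries.coeff 0 y * PowerSeries.coeff 0 z := by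
  rw [PowerSeries.coeff_mul, Finset.Nat.antidiagonal_zero, Finset.sum_singleton]

lemma EtD_mul1 (y z : A) :
    PowerSeries.coeff 1 (y * z) = PowerSeries.coeff 0 y * PowerSeries.coeff 1 z +
      PowerSeries.coeff 1 y * PowerSeries.coeff 0 z := by
  rw [PowerSeries.coeff_mul, Finset.Nat.sum_antidiagonal_eq_sum_range_succ_mk]
  rw [Finset.sum_range_succ, Finset.sum_range_one]

lemma EtD_x0 : PowerSeries.coeff 0 xx = (-1 : ℤ) := by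
  unfold xx dd
  rw [map_sub]
  simp

lemma EtD_x1 : PowerSeries.coeff 1 xx = (1 : ℤ) := by
  unfold xx dd
  rw [map_sub, PowerSeries.coeff_one_X, PowerSeries.coeff_one]
  simp

lemma EtD_i0 : PowerSeries.coeff 0 xi = (-1 : ℤ) := by
  unfold xi
  rw [map_neg, PowerSeries.coeff_mk]

lemma EtD_i1 : PowerSeries.coeff 1 xi = (-1 : ℤ) := by
  unfold xi
  rw [map_neg, PowerSeries.coeff_mk]

/-- Coefficients of `dd ^ m * y` at `m` and `m + 1` are those of `y` at `0` and `1`; larger powers of `dd`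
contribute zero. `xx = -1 + dd`, `xi = -1 - dd - dd ^ 2 - ...`. -/
theorem coeff_table (m : ℕ) :
    (PowerSeries.coeff m (xx ^ 4 * dd ^ m) = (1 : ℤ) ∧
      PowerSeries.coeff (m + 1) (xx ^ 4 * dd ^ m) = (-4 : ℤ)) ∧
    (PowerSeries.coeff m (xx ^ 3 * dd ^ (m + 1)) = (0 : ℤ) ∧
      PowerSeries.coeff (m + 1) (xx ^ 3 * dd ^ (m + 1)) = (-1 : ℤ)) ∧
    (PowerSeries.coeff m (xi ^ 2 * dd ^ m) = (1 : ℤ) ∧
      PowerSeries.coeff (m + 1) (xi ^ 2 * dd ^ m) = (2 : ℤ)) ∧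
    (PowerSeries.coeff m (xi ^ 2 * dd ^ (m + 1)) = (0 : ℤ) ∧
      PowerSeries.coeff (m + 1) (xi ^ 2 * dd ^ (m + 1)) = (1 : ℤ)) ∧
    (PowerSeries.coeff m (xx ^ 2 * xi * dd ^ m) = (-1 : ℤ) ∧
      PowerSeries.coeff (m + 1) (xx ^ 2 * xi * dd ^ m) = (1 : ℤ)) ∧
    (PowerSeries.coeff m (xx ^ 2 * xi * dd ^ (m + 1)) = (0 : ℤ) ∧
      PowerSeries.coeff (m + 1) (xx ^ 2 * xi * dd ^ (m + 1)) = (-1 : ℤ)) ∧
    (PowerSeries.coeff m (xx * xi * dd ^ (m + 1)) = (0 : ℤ) ∧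
      PowerSeries.coeff (m + 1) (xx * xi * dd ^ (m + 1)) = (1 : ℤ)) ∧
    (PowerSeries.coeff m (xx ^ 2 * dd ^ (m + 1)) = (0 : ℤ) ∧
      PowerSeries.coeff (m + 1) (xx ^ 2 * dd ^ (m + 1)) = (1 : ℤ)) ∧
    (PowerSeries.coeff m (xi * dd ^ (m + 1)) = (0 : ℤ) ∧
      PowerSeries.coeff (m + 1) (xi * dd ^ (m + 1)) = (-1 : ℤ)) ∧
    (PowerSeries.coeff m (xx * dd ^ (m + 1)) = (0 : ℤ) ∧
      PowerSeries.coeff (m + 1) (xx * dd ^ (m + 1)) = (-1 : ℤ)) ∧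
    (PowerSeries.coeff m (dd ^ (m + 1)) = (0 : ℤ) ∧
      PowerSeries.coeff (m + 1) (dd ^ (m + 1)) = (1 : ℤ)) := by
  have e2 : (xx ^ 2 : A) = xx * xx := by ring
  have e3 : (xx ^ 3 : A) = xx * (xx * xx) := by ring
  have e4 : (xx ^ 4 : A) = (xx * xx) * (xx * xx) := by ring
  have i2 : (xi ^ 2 : A) = xi * xi := by ring
  rw [e2, e3, e4, i2]
  have o0 : PowerSeries.coeff 0 (1 : A) = (1 : ℤ) := by simp
  have o1 : PowerSeries.coeff m (dd ^ (m + 1)) = (0 : ℤ) := by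
    have h1 := (EtD_c m 1).2.2.1
    rwa [one_mul] at h1
  have o2 : PowerSeries.coeff (m + 1) (dd ^ (m + 1)) = (1 : ℤ) := by
    have h1 := (EtD_c m 1).2.2.2
    rwa [one_mul, o0] at h1
  have h := fun y : A => EtD_c m y
  refine ⟨⟨?_, ?_⟩, ⟨?_, ?_⟩, ⟨?_, ?_⟩, ⟨?_, ?_⟩, ⟨?_, ?_⟩, ⟨?_, ?_⟩, ⟨?_, ?_⟩, ⟨?_, ?_⟩,
    ⟨?_, ?_⟩, ⟨?_, ?_⟩, ⟨o1, o2⟩⟩
  all_goals
    first
    | rw [(h _).2.2.1]
    | (rw [(h _).2.2.2]; simp only [EtD_mul0, EtD_mul1, EtD_x0, EtD_x1, EtD_i0, EtD_i1] <;> norm_num)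
    | (rw [(h _).2.1]; simp only [EtD_mul0, EtD_mul1, EtD_x0, EtD_x1, EtD_i0, EtD_i1] <;> norm_num)
    | (rw [(h _).1]; simp only [EtD_mul0, EtD_mul1, EtD_x0, EtD_x1, EtD_i0, EtD_i1] <;> norm_num)

/-- multiples of `dd ^ (m + 2)` do not contribute -/
theorem coeff_high (m k : ℕ) (hk : m + 2 ≤ k) (y : A) :
    PowerSeries.coeff m (y * dd ^ k) = (0 : ℤ) ∧
      PowerSeries.coeff (m + 1) (y * dd ^ k) = (0 : ℤ) := by
  unfold dd
  constructor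
  · rw [PowerSeries.coeff_mul_X_pow', if_neg (by omega)]
  · rw [PowerSeries.coeff_mul_X_pow', if_neg (by omega)]

end Pool.Agent.GaussPoset.Win
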