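import Pool.Agent.W_448win_h16.PlB

/-! Identity (31). -/

namespace Pool.Agent.GaussPoset.Win

set_option linter.unusedSectionVars false

open Finset

universe u

variable {P : Type u} [Fintype P] [PartialOrder P] [DecidableEq P] {r : ℕ}

/-- identity (32), from `I32_count`, `up_le_four`, `dn_le_four` -/
theorem I32' (H : Gr P r) {i : ℕ} (hi : 1 ≤ i) (hi2 : i + 1 ≤ r) (hg : Good P i) :
    (∀ z : P, lev z = i + 2 → up i z ≤ 3) ∧ (∀ x : P, lev x + 2 = i → dn i x ≤ 3) := by
  classical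
  have h := I32_count H hi hi2 hg
  constructor
  · intro z hz
    by_contra hcon
    have h1 := (up_le_four H hz).1
    have h2 := uc_card_le H z
    have h3 : z ∈ univ.filter (fun z : P => lev z = i + 2 ∧ up i z = 4) := by
      rw [mem_filter]
      exact ⟨mem_univ _, hz, by omega⟩
    have h4 : 0 < (univ.filter (fun z : P => lev z = i + 2 ∧ up i z = 4)).card :=
      Finset.card_pos.2 ⟨z, h3⟩
    omega
  · intro x hx
    by_contra hcon
    have h1 := (dn_le_four H (i := i) (by omega) hx).1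
    have h2 := dc_card_le H x
    have h3 : x ∈ univ.filter (fun x : P => lev x + 2 = i ∧ dn i x = 4) := by
      rw [mem_filter]
      exact ⟨mem_univ _, hx, by omega⟩
    have h4 : 0 < (univ.filter (fun x : P => lev x + 2 = i ∧ dn i x = 4)).card :=
      Finset.card_pos.2 ⟨x, h3⟩
    omega

open Classical in
/-- Energy three, no deficit. `psi` from `good_mat`, `S = Z.image cl ∪ X.image cu` with `Z` the elements of level
`i+2` with `up i z = 3` and `X` the elements of level `i-2` with `dn i x = 3`; `core_sum_set` with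
`K = ∅`, `n = 3`, `k = 0`. As in `I32_count`, with `cls3_low'`, `cls3_upp'` and `I32'`. For
`z ∈ Z` we have `(uc z).card = 2` (`up_le_four`), so `trm i (cl z) = xx ^ 3 * dd ^ (b - 1)`
(`trm_cl`, `2 + (b - 3) = b - 1`, `b ≥ 3`), for `x ∈ X` we have
`trm i (cu x) = xi ^ 2 * dd ^ (b - 1)`; so `- |Z| + |X| = 0` by `cc_of_dvd`. -/
theorem I31' (H : Gr P r) {i : ℕ} (hi : 1 ≤ i) (hi2 : i + 1 ≤ r) (hg : Good P i)
    (hD : PD P i = ∅) (hU : PU P i = ∅) :
    (univ.filter (fun z : P => lev z = i + 2 ∧ up i z = 3)).card =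
      (univ.filter (fun x : P => lev x + 2 = i ∧ dn i x = 3)).card := by
  classical
  obtain ⟨psi, hM⟩ := good_mat H hg
  have h32 := I32' H hi hi2 hg
  have hir : i ≤ r := by omega
  obtain ⟨Z, hZdef⟩ : ∃ Z : Finset P, Z = univ.filter (fun z : P => lev z = i + 2 ∧ up i z = 3) :=
    ⟨_, rfl⟩
  obtain ⟨X, hXdef⟩ : ∃ X : Finset P, X = univ.filter (fun x : P => lev x + 2 = i ∧ dn i x = 3) :=
    ⟨_, rfl⟩
  rw [← hZdef, ← hXdef]
  have hZ : ∀ z, z ∈ Z ↔ lev z = i + 2 ∧ up i z = 3 := by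
    intro z
    rw [hZdef, mem_filter]
    simp
  have hX : ∀ x, x ∈ X ↔ lev x + 2 = i ∧ dn i x = 3 := by
    intro x
    rw [hXdef, mem_filter]
    simp
  have hZ2 : ∀ z ∈ Z, (uc z).card = 2 ∧ 3 ≤ (lv P i).card := by
    intro z hz
    have h1 := (hZ z).1 hz
    have h2 := up_le_four H h1.1
    have h3 := uc_card_le H z
    omega
  have hX2 : ∀ x ∈ X, (dc x).card = 2 ∧ 3 ≤ (lv P i).card := by
    intro x hx
    have h1 := (hX x).1 hx
    have h2 := dn_le_four H hir h1.1
    have h3 := dc_card_le H x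
    omega
  -- classification of the cores
  have key : ∀ e : P → ℕ, IsCore i ∅ psi e → ∑ x, e x ≤ 3 →
      Rk (lv P i) 0 (Fe i e) ∨ (e ∈ Z.image cl ∪ X.image cu ∧ ∑ x, e x = 3) := by
    intro e hc hn
    rcases low_or_upp H hir hn with h | h | h
    · exact Or.inl (Rk_of_not_adm h 0)
    · rcases cls3_upp' H hi hi2 hM hU h32.2 hc hn h with h1 | ⟨x, hx1, hx2, rfl⟩
      · exact Or.inl h1
      · right
        have hx : x ∈ X := (hX x).2 ⟨hx1, hx2⟩
        refine ⟨mem_union_right _ (mem_image_of_mem _ hx), ?_⟩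
        rw [sum_cu_val, (hX2 x hx).1]
    · rcases cls3_low' H hi hi2 hM hD h32.1 hc hn h with h1 | ⟨z, hz1, hz2, rfl⟩
      · exact Or.inl h1
      · right
        have hz : z ∈ Z := (hZ z).2 ⟨hz1, hz2⟩
        refine ⟨mem_union_left _ (mem_image_of_mem _ hz), ?_⟩
        rw [sum_cl_val, (hZ2 z hz).1]
  have hS : ∀ e ∈ Z.image cl ∪ X.image cu, IsCore i ∅ psi e ∧ ∑ x, e x = 3 := by
    intro e he
    rw [mem_union, mem_image, mem_image] at he
    rcases he with ⟨z, hz, rfl⟩ | ⟨x, hx, rfl⟩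
    · refine ⟨?_, ?_⟩
      · have h := isCore_cl_add H (∅ : Finset P) psi ((hZ z).1 hz).1 (f := 0)
          (fun x _ _ => rfl)
        rwa [add_zero] at h
      · rw [sum_cl_val, (hZ2 z hz).1]
    · refine ⟨?_, ?_⟩
      · have h := isCore_cu_add H (∅ : Finset P) psi ((hX x).1 hx).1 (f := 0)
          (fun x _ _ => rfl)
        rwa [add_zero] at h
      · rw [sum_cu_val, (hX2 x hx).1]
  have hsum := core_sum_set H hi hi2 hM 3 0
    (fun e hc hn => by
      rcases key e hc hn.le with h | h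
      · exact h
      · omega)
    (Z.image cl ∪ X.image cu) hS
    (fun e hc hn hne => by
      rcases key e hc hn.le with h | h
      · exact h
      · exact absurd h.1 hne)
  rw [sum_images H Z X (fun z hz => ((hZ z).1 hz).1) (fun x hx => ((hX x).1 hx).1)] at hsum
  rcases Finset.eq_empty_or_nonempty (Z ∪ X) with h0 | ⟨y, hy⟩
  · rw [Finset.union_eq_empty] at h0
    rw [h0.1, h0.2]
  · have hb : 3 ≤ (lv P i).card := by
      rcases mem_union.1 hy with h | h
      · exact (hZ2 y h).2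
      · exact (hX2 y h).2
    obtain ⟨b, hbdef⟩ : ∃ b, (lv P i).card = b + 1 := ⟨(lv P i).card - 1, by omega⟩
    have e1 : ∑ z ∈ Z, trm i (cl z) = ∑ z ∈ Z, (dd ^ b * xx ^ 3) := by
      refine Finset.sum_congr rfl fun z hz => ?_
      rw [trm_cl H hir ((hZ z).1 hz).1, ((hZ z).1 hz).2, (hZ2 z hz).1,
        show 2 + ((lv P i).card - 3) = b by omega, mul_comm]
    have e2 : ∑ x ∈ X, trm i (cu x) = ∑ x ∈ X, (dd ^ b * xi ^ 2) := by
      refine Finset.sum_congr rfl fun x hx => ?_
      rw [trm_cu H hir ((hX x).1 hx).1, ((hX x).1 hx).2, (hX2 x hx).1,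
        show 2 + ((lv P i).card - 3) = b by omega, mul_comm]
    rw [e1, e2, Finset.sum_const, Finset.sum_const, nsmul_eq_mul, nsmul_eq_mul,
      Nat.sub_zero, hbdef,
      show ((Z.card : A)) * (dd ^ b * xx ^ 3) + (X.card : A) * (dd ^ b * xi ^ 2) =
        dd ^ b * ((Z.card : A) * xx ^ 3 + (X.card : A) * xi ^ 2) by ring] at hsum
    have h5 := cc_of_dvd hsum
    rw [map_add, map_mul, map_mul, map_pow, map_pow, cc_xx, cc_xi, map_natCast,
      map_natCast] at h5
    have h6 : (X.card : ℤ) = Z.card := by linarith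
    exact_mod_cast h6.symm

end Pool.Agent.GaussPoset.Win
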