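import Pool.Agent.W_448win_h16.Crd

/-! Coordinates and covers. -/

namespace Pool.Agent.GaussPoset.Win

set_option linter.unusedSectionVars false

open Finset

universe u

variable {P : Type u} [Fintype P] [PartialOrder P] [DecidableEq P] {r : ℕ}

/-- Covers in coordinates. A cover is `<` with level difference one (`H.covBy_iff`); `le_iff`,
`lev_e`; `e` is injective on valid pairs (`le_iff` in both directions). -/
theorem Crd.covBy_iff (H : Gr P r) {t : Option ℕ} {l : ℕ} {e : ℕ → ℕ → P} (hT : Crd t l e)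
    {i c i' c' : ℕ} (h1 : Rg t i c) (h2 : i + c ≤ l) (h3 : Rg t i' c') (h4 : i' + c' ≤ l) :
    e i c ⋖ e i' c' ↔ (i = i' + 1 ∧ c = c') ∨ (i = i' ∧ c = c' + 1) := by
  rw [H.covBy_iff, lt_iff_le_not_ge, hT.le_iff i c i' c' h1 h2 h3 h4,
    hT.le_iff i' c' i c h3 h4 h1 h2, hT.lev_e i c h1 h2, hT.lev_e i' c' h3 h4]
  omega

/-- `e` is injective: `le_iff` in both directions -/
theorem Crd.inj {t : Option ℕ} {l : ℕ} {e : ℕ → ℕ → P} (hT : Crd t l e)
    {i c i' c' : ℕ} (h1 : Rg t i c) (h2 : i + c ≤ l) (h3 : Rg t i' c') (h4 : i' + c' ≤ l)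
    (h : e i c = e i' c') : i = i' ∧ c = c' := by
  have a := (hT.le_iff i c i' c' h1 h2 h3 h4).1 h.le
  have b := (hT.le_iff i' c' i c h3 h4 h1 h2).1 h.ge
  omega

/-- Lower covers in coordinates, below level `l`: `surj` and `Crd.covBy_iff`. -/
theorem Crd.dc_iff (H : Gr P r) {t : Option ℕ} {l : ℕ} {e : ℕ → ℕ → P} (hT : Crd t l e)
    {i c : ℕ} (h1 : Rg t i c) (h2 : i + c < l) (y : P) :
    y ⋖ e i c ↔ (Rg t (i + 1) c ∧ y = e (i + 1) c) ∨ (Rg t i (c + 1) ∧ y = e i (c + 1)) := by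
  constructor
  · intro hy
    have h5 := (H.covBy_iff.1 hy).2
    rw [hT.lev_e i c h1 h2.le] at h5
    obtain ⟨i', c', a, b, rfl⟩ := hT.surj y (by omega)
    rcases (hT.covBy_iff H a b h1 h2.le).1 hy with ⟨rfl, rfl⟩ | ⟨rfl, rfl⟩
    · exact Or.inl ⟨a, rfl⟩
    · exact Or.inr ⟨a, rfl⟩
  · rintro (⟨a, rfl⟩ | ⟨a, rfl⟩)
    · exact (hT.covBy_iff H a (by omega) h1 h2.le).2 (Or.inl ⟨rfl, rfl⟩)
    · exact (hT.covBy_iff H a (by omega) h1 h2.le).2 (Or.inr ⟨rfl, rfl⟩)

/-- Upper covers in coordinates: `surj` (an upper cover has smaller level) and `Crd.covBy_iff`. -/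
theorem Crd.uc_iff (H : Gr P r) {t : Option ℕ} {l : ℕ} {e : ℕ → ℕ → P} (hT : Crd t l e)
    {i c : ℕ} (h1 : Rg t i c) (h2 : i + c ≤ l) (y : P) :
    e i c ⋖ y ↔ (∃ i', i = i' + 1 ∧ Rg t i' c ∧ y = e i' c) ∨
      (∃ c', c = c' + 1 ∧ Rg t i c' ∧ y = e i c') := by
  constructor
  · intro hy
    have h5 := (H.covBy_iff.1 hy).2
    rw [hT.lev_e i c h1 h2] at h5
    obtain ⟨i', c', a, b, rfl⟩ := hT.surj y (by omega)
    rcases (hT.covBy_iff H h1 h2 a b).1 hy with ⟨h6, h7⟩ | ⟨h6, h7⟩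
    · subst h7
      exact Or.inl ⟨i', h6, a, rfl⟩
    · subst h6
      exact Or.inr ⟨c', h7, a, rfl⟩
  · rintro (⟨i', h6, a, rfl⟩ | ⟨c', h6, a, rfl⟩)
    · exact (hT.covBy_iff H h1 h2 a (by omega)).2 (Or.inl ⟨h6, rfl⟩)
    · exact (hT.covBy_iff H h1 h2 a (by omega)).2 (Or.inr ⟨rfl, h6⟩)

/-- Level sizes: the elements of level `k` are the `e i (k - i)`, `i ≤ mm t k`, all different. For
`some n` one needs `1 ≤ n`. -/
theorem Crd.card_lv {t : Option ℕ} {l : ℕ} {e : ℕ → ℕ → P} (hT : Crd t l e)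
    (ht : ∀ n, t = some n → 1 ≤ n) {k : ℕ} (hk : k ≤ l) : (lv P k).card = mm t k + 1 := by
  classical
  have hr : ∀ i, i ≤ mm t k → Rg t i (k - i) ∧ i + (k - i) = k := by
    intro i hi
    cases t with
    | none =>
      have hi' : i ≤ k / 2 := hi
      refine ⟨?_, by omega⟩
      show i ≤ k - i
      omega
    | some n =>
      have hi' : i ≤ min (n - 1) k := hi
      have := ht n rfl
      refine ⟨?_, by omega⟩
      show i < n
      omega
  have hr' : ∀ i c, Rg t i c → i + c = k → i ≤ mm t k := by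
    intro i c h1 h2
    cases t with
    | none =>
      have h1' : i ≤ c := h1
      show i ≤ k / 2
      omega
    | some n =>
      have h1' : i < n := h1
      show i ≤ min (n - 1) k
      omega
  have h : lv P k = (range (mm t k + 1)).image (fun i => e i (k - i)) := by
    ext z
    rw [mem_lv, mem_image]
    constructor
    · intro hz
      obtain ⟨i, c, a, b, rfl⟩ := hT.surj z (by omega)
      rw [hT.lev_e i c a b] at hz
      refine ⟨i, mem_range.2 (Nat.lt_succ_iff.2 (hr' i c a hz)), ?_⟩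
      have : k - i = c := by omega
      rw [this]
    · rintro ⟨i, hi, rfl⟩
      obtain ⟨a, b⟩ := hr i (Nat.lt_succ_iff.1 (mem_range.1 hi))
      rw [hT.lev_e i (k - i) a (by omega)]
      exact b
  rw [h, card_image_of_injOn, card_range]
  intro i hi i' hi' hii
  obtain ⟨a, b⟩ := hr i (Nat.lt_succ_iff.1 (mem_range.1 hi))
  obtain ⟨a', b'⟩ := hr i' (Nat.lt_succ_iff.1 (mem_range.1 hi'))
  exact (hT.inj a (by omega) a' (by omega) hii).1

/-- Exchanging the coordinates of a quadrant. -/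
theorem Crd.flip {m : ℕ} {e : ℕ → ℕ → P} (hT : Crd (some (m + 1)) m e) :
    Crd (some (m + 1)) m (fun i c => e c i) := by
  have hR : ∀ i c, Rg (some (m + 1)) i c ↔ i < m + 1 := fun i c => Iff.rfl
  refine ⟨fun i c h1 h2 => ?_, fun i c i' c' h1 h2 h3 h4 => ?_, fun z hz => ?_⟩
  · rw [hR] at h1
    rw [hT.lev_e c i ((hR _ _).2 (by omega)) (by omega)]
    omega
  · rw [hR] at h1 h3
    rw [hT.le_iff c i c' i' ((hR _ _).2 (by omega)) (by omega) ((hR _ _).2 (by omega)) (by omega)]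
    tauto
  · obtain ⟨i, c, a, b, h⟩ := hT.surj z hz
    exact ⟨c, i, (hR _ _).2 (by omega), by omega, h⟩

end Pool.Agent.GaussPoset.Win
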