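import Pool.Agent.W_448win_h16.BaA

/-! The two rows at the end of the known part, closed cases. -/

namespace Pool.Agent.GaussPoset.Win

set_option linter.unusedSectionVars false

open Finset

universe u

variable {P : Type u} [Fintype P] [PartialOrder P] [DecidableEq P] {r : ℕ}

/-- The two rows at the end of the known part: level `j` is the row `x_k = e k (j - k)`, `k ≤ m`, level
`j - 1` consists of the different elements `y_a = e a (j - 1 - a)`, `a ≤ M`, and the upper covers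
of `x_k` are `y_(k-1)`, `y_k` (those which exist). -/
structure Cap (j m M : ℕ) (e : ℕ → ℕ → P) : Prop where
  row : Row j m e
  lev_y : ∀ a ≤ M, lev (e a (j - 1 - a)) + 1 = j
  inj_y : ∀ a ≤ M, ∀ a' ≤ M, e a (j - 1 - a) = e a' (j - 1 - a') → a = a'
  surj_y : ∀ v : P, lev v + 1 = j → ∃ a ≤ M, e a (j - 1 - a) = v
  cov : ∀ k ≤ m, ∀ a ≤ M, (e k (j - k) ⋖ e a (j - 1 - a) ↔ a = k ∨ a + 1 = k)

/-- the common part of `cap_R1` and `cap_S1` -/
theorem BaB_gen (H : Gr P r) {t : Option ℕ} {l m M : ℕ} {e : ℕ → ℕ → P} (hT : Crd t l e)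
    (hl : 1 ≤ l) (ha : ∀ i ≤ m, Rg t i (l - i) ∧ i ≤ l)
    (hb : ∀ i c, Rg t i c → i + c = l → i ≤ m)
    (hc : ∀ a ≤ M, Rg t a (l - 1 - a) ∧ a ≤ l - 1)
    (hd : ∀ a c, Rg t a c → a + c = l - 1 → a ≤ M) (hM : m ≤ M + 1) : Cap l m M e := by
  classical
  have levx : ∀ i ≤ m, lev (e i (l - i)) = l := by
    intro i hi
    obtain ⟨h1, h2⟩ := ha i hi
    rw [hT.lev_e i (l - i) h1 (by omega)]
    omega
  have levy : ∀ a ≤ M, lev (e a (l - 1 - a)) + 1 = l := by
    intro a ha'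
    obtain ⟨h1, h2⟩ := hc a ha'
    rw [hT.lev_e a (l - 1 - a) h1 (by omega)]
    omega
  have injx : ∀ i ≤ m, ∀ i' ≤ m, e i (l - i) = e i' (l - i') → i = i' := by
    intro i hi i' hi' h
    obtain ⟨h1, h2⟩ := ha i hi
    obtain ⟨h3, h4⟩ := ha i' hi'
    exact (hT.inj h1 (by omega) h3 (by omega) h).1
  have injy : ∀ a ≤ M, ∀ a' ≤ M, e a (l - 1 - a) = e a' (l - 1 - a') → a = a' := by
    intro i hi i' hi' h
    obtain ⟨h1, h2⟩ := hc i hi
    obtain ⟨h3, h4⟩ := hc i' hi'
    exact (hT.inj h1 (by omega) h3 (by omega) h).1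
  have surx : ∀ v : P, lev v = l → ∃ i ≤ m, e i (l - i) = v := by
    intro v hv
    obtain ⟨i, c, h1, h2, h3⟩ := hT.surj v hv.le
    have h4 := hT.lev_e i c h1 h2
    rw [h3, hv] at h4
    refine ⟨i, hb i c h1 h4.symm, ?_⟩
    have h5 : l - i = c := by omega
    rw [h5, h3]
  have sury : ∀ v : P, lev v + 1 = l → ∃ a ≤ M, e a (l - 1 - a) = v := by
    intro v hv
    obtain ⟨i, c, h1, h2, h3⟩ := hT.surj v (by omega)
    have h4 := hT.lev_e i c h1 h2
    rw [h3] at h4
    refine ⟨i, hd i c h1 (by omega), ?_⟩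
    have h5 : l - 1 - i = c := by omega
    rw [h5, h3]
  have cov : ∀ k ≤ m, ∀ a ≤ M, (e k (l - k) ⋖ e a (l - 1 - a) ↔ a = k ∨ a + 1 = k) := by
    intro k hk a ha'
    obtain ⟨h1, h2⟩ := ha k hk
    obtain ⟨h3, h4⟩ := hc a ha'
    rw [Crd.covBy_iff H hT h1 (by omega) h3 (by omega)]
    omega
  refine ⟨⟨levx, injx, surx, ?_⟩, levy, injy, sury, cov⟩
  intro i hi i' hi' hne
  unfold ucv
  have hy : ∀ y : P, e i (l - i) ⋖ y → ∃ a ≤ M, e a (l - 1 - a) = y := by
    intro y hy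
    have h1 := lev_covBy H.gauss hy
    rw [levx i hi] at h1
    exact sury y h1.symm
  split_ifs with h1
  · rw [card_eq_one]
    rcases h1 with h1 | h1
    · refine ⟨e i (l - 1 - i), ?_⟩
      ext y
      simp only [mem_filter, mem_univ, true_and, mem_singleton]
      constructor
      · rintro ⟨h2, h3⟩
        obtain ⟨a, ha1, rfl⟩ := hy y h2
        rw [cov i hi a ha1] at h2
        rw [cov i' hi' a ha1] at h3
        have h4 : a = i := by omega
        rw [h4]
      · rintro rfl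
        rw [cov i hi i (by omega), cov i' hi' i (by omega)]
        exact ⟨Or.inl rfl, Or.inr h1⟩
    · refine ⟨e i' (l - 1 - i'), ?_⟩
      ext y
      simp only [mem_filter, mem_univ, true_and, mem_singleton]
      constructor
      · rintro ⟨h2, h3⟩
        obtain ⟨a, ha1, rfl⟩ := hy y h2
        rw [cov i hi a ha1] at h2
        rw [cov i' hi' a ha1] at h3
        have h4 : a = i' := by omega
        rw [h4]
      · rintro rfl
        rw [cov i hi i' (by omega), cov i' hi' i' (by omega)]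
        exact ⟨Or.inr h1, Or.inl rfl⟩
  · rw [card_eq_zero, filter_eq_empty_iff]
    rintro y - ⟨h2, h3⟩
    obtain ⟨a, ha1, rfl⟩ := hy y h2
    rw [cov i hi a ha1] at h2
    rw [cov i' hi' a ha1] at h3
    omega

/-- quadrant: `Crd.covBy_iff`, `Crd.inj`, `lev_e`, `surj`; the number of common upper covers of
`x_i`, `x_(i')` is the number of `a ≤ m - 1` with `a ∈ {i, i - 1}` and `a ∈ {i', i' - 1}` -/
theorem cap_R1 (H : Gr P r) {m : ℕ} {e : ℕ → ℕ → P} (hm : 1 ≤ m)
    (hT : Crd (some (m + 1)) m e) : Cap m m (m - 1) e := by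
  refine BaB_gen H hT hm ?_ ?_ ?_ ?_ (by omega)
  · intro i hi
    exact ⟨show i < m + 1 by omega, hi⟩
  · intro i c _ h2
    omega
  · intro a ha
    exact ⟨show a < m + 1 by omega, ha⟩
  · intro a c _ h2
    omega

/-- shifted quadrant, even level, as `cap_R1` -/
theorem cap_S1 (H : Gr P r) {m : ℕ} {e : ℕ → ℕ → P} (hm : 1 ≤ m)
    (hT : Crd none (2 * m) e) : Cap (2 * m) m (m - 1) e := by
  refine BaB_gen H hT (by omega) ?_ ?_ ?_ ?_ (by omega)
  · intro i hi
    exact ⟨show i ≤ 2 * m - i by omega, by omega⟩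
  · intro i c h1 h2
    have h3 : i ≤ c := h1
    omega
  · intro a ha
    exact ⟨show a ≤ 2 * m - 1 - a by omega, by omega⟩
  · intro a c h1 h2
    have h3 : a ≤ c := h1
    omega

end Pool.Agent.GaussPoset.Win
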