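import Pool.Agent.W_448win_h16.BaB

/-! The two rows at the end of the known part, open cases. -/

namespace Pool.Agent.GaussPoset.Win

set_option linter.unusedSectionVars false

open Finset

universe u

variable {P : Type u} [Fintype P] [PartialOrder P] [DecidableEq P] {r : ℕ}

/-- the common part of the four cases -/
theorem BaC_cap (H : Gr P r) {t : Option ℕ} {j m M : ℕ} {e : ℕ → ℕ → P} (hT : Crd t j e)
    (hj : 1 ≤ j) (h1 : ∀ k, k ≤ m → Rg t k (j - k) ∧ k ≤ j)
    (h1' : ∀ k c, Rg t k c → k + c = j → k ≤ m)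
    (h2 : ∀ a, a ≤ M → Rg t a (j - 1 - a) ∧ a ≤ j - 1)
    (h2' : ∀ a c, Rg t a c → a + c = j - 1 → a ≤ M) (hM : m ≤ M + 1) : Cap j m M e := by
  classical
  have hlx : ∀ i ≤ m, lev (e i (j - i)) = j := by
    intro i hi
    obtain ⟨a1, a2⟩ := h1 i hi
    have := hT.lev_e i (j - i) a1 (by omega)
    omega
  have hly : ∀ a ≤ M, lev (e a (j - 1 - a)) + 1 = j := by
    intro a ha
    obtain ⟨a1, a2⟩ := h2 a ha
    have := hT.lev_e a (j - 1 - a) a1 (by omega)
    omega
  have hsy : ∀ v : P, lev v + 1 = j → ∃ a ≤ M, e a (j - 1 - a) = v := by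
    intro v hv
    obtain ⟨i, c, a1, a2, a3⟩ := hT.surj v (by omega)
    have a4 := hT.lev_e i c a1 a2
    rw [a3] at a4
    have a5 : c = j - 1 - i := by omega
    refine ⟨i, h2' i c a1 (by omega), ?_⟩
    rw [← a5, a3]
  have hcov : ∀ k ≤ m, ∀ a ≤ M, (e k (j - k) ⋖ e a (j - 1 - a) ↔ a = k ∨ a + 1 = k) := by
    intro k hk a ha
    obtain ⟨a1, a2⟩ := h1 k hk
    obtain ⟨b1, b2⟩ := h2 a ha
    rw [hT.covBy_iff H a1 (by omega) b1 (by omega)]
    omega
  have hup : ∀ i ≤ m, ∀ u : P, e i (j - i) ⋖ u → ∃ a ≤ M, e a (j - 1 - a) = u := by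
    intro i hi u hu
    have a1 := (H.covBy_iff.mp hu).2
    rw [hlx i hi] at a1
    exact hsy u (by omega)
  have hucv : ∀ i ≤ m, ∀ i' ≤ m, i + 1 = i' → ucv (e i (j - i)) (e i' (j - i')) = 1 ∧
      ucv (e i' (j - i')) (e i (j - i)) = 1 := by
    intro i hi i' hi' hii
    have hiM : i ≤ M := by omega
    constructor
    · unfold ucv
      rw [Finset.card_eq_one]
      refine ⟨e i (j - 1 - i), ?_⟩
      ext u
      rw [mem_filter, mem_singleton]
      constructor
      · rintro ⟨_, u1, u2⟩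
        obtain ⟨a, ha, rfl⟩ := hup i hi u u1
        rw [hcov i hi a ha] at u1
        rw [hcov i' hi' a ha] at u2
        have : a = i := by omega
        rw [this]
      · rintro rfl
        refine ⟨mem_univ _, (hcov i hi i hiM).2 (Or.inl rfl), (hcov i' hi' i hiM).2 (Or.inr hii)⟩
    · unfold ucv
      rw [Finset.card_eq_one]
      refine ⟨e i (j - 1 - i), ?_⟩
      ext u
      rw [mem_filter, mem_singleton]
      constructor
      · rintro ⟨_, u2, u1⟩
        obtain ⟨a, ha, rfl⟩ := hup i hi u u1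
        rw [hcov i hi a ha] at u1
        rw [hcov i' hi' a ha] at u2
        have : a = i := by omega
        rw [this]
      · rintro rfl
        refine ⟨mem_univ _, (hcov i' hi' i hiM).2 (Or.inr hii), (hcov i hi i hiM).2 (Or.inl rfl)⟩
  refine ⟨⟨hlx, ?_, ?_, ?_⟩, hly, ?_, hsy, hcov⟩
  · intro i hi i' hi' h
    obtain ⟨a1, a2⟩ := h1 i hi
    obtain ⟨b1, b2⟩ := h1 i' hi'
    exact (hT.inj a1 (by omega) b1 (by omega) h).1
  · intro v hv
    obtain ⟨i, c, a1, a2, a3⟩ := hT.surj v (by omega)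
    have a4 := hT.lev_e i c a1 a2
    rw [a3] at a4
    have a5 : c = j - i := by omega
    refine ⟨i, h1' i c a1 (by omega), ?_⟩
    rw [← a5, a3]
  · intro i hi i' hi' hii
    split_ifs with hc
    · rcases hc with hc | hc
      · exact (hucv i hi i' hi' hc).1
      · exact (hucv i' hi' i hi hc).2
    · unfold ucv
      rw [Finset.card_eq_zero, Finset.filter_eq_empty_iff]
      rintro u _ ⟨u1, u2⟩
      obtain ⟨a, ha, rfl⟩ := hup i hi u u1
      rw [hcov i hi a ha] at u1
      rw [hcov i' hi' a ha] at u2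
      omega
  · intro a ha a' ha' h
    obtain ⟨a1, a2⟩ := h2 a ha
    obtain ⟨b1, b2⟩ := h2 a' ha'
    exact (hT.inj a1 (by omega) b1 (by omega) h).1

/-- strip, as `cap_R1` -/
theorem cap_R2 (H : Gr P r) {j m : ℕ} {e : ℕ → ℕ → P} (hm : 1 ≤ m) (hj : m + 1 ≤ j)
    (hT : Crd (some (m + 1)) j e) : Cap j m m e := by
  refine BaC_cap H hT (by omega) ?_ ?_ ?_ ?_ (by omega)
  · intro k hk
    exact ⟨show k < m + 1 by omega, by omega⟩
  · intro k c h _
    have h' : k < m + 1 := h
    omega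
  · intro k hk
    exact ⟨show k < m + 1 by omega, by omega⟩
  · intro k c h _
    have h' : k < m + 1 := h
    omega

/-- shifted quadrant, odd level, as `cap_R1` -/
theorem cap_S2 (H : Gr P r) {m : ℕ} {e : ℕ → ℕ → P} (hm : 1 ≤ m)
    (hT : Crd none (2 * m + 1) e) : Cap (2 * m + 1) m m e := by
  refine BaC_cap H hT (by omega) ?_ ?_ ?_ ?_ (by omega)
  · intro k hk
    exact ⟨show k ≤ 2 * m + 1 - k by omega, by omega⟩
  · intro k c h _
    have h' : k ≤ c := h
    omega
  · intro k hk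
    exact ⟨show k ≤ 2 * m + 1 - 1 - k by omega, by omega⟩
  · intro k c h _
    have h' : k ≤ c := h
    omega

end Pool.Agent.GaussPoset.Win
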