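import Pool.Agent.W_448win_h16.BaB
import Pool.Agent.W_448win_h16.LowA

/-! Sites of the double elements. -/

namespace Pool.Agent.GaussPoset.Win

set_option linter.unusedSectionVars false

open Finset

universe u

variable {P : Type u} [Fintype P] [PartialOrder P] [DecidableEq P] {r : ℕ}

/-- The sites of an element `z` of level `j + 1` below `x_a` and `x_b`, `a < b` (window level `j - 1`):
`uc z = {x_a, x_b}` (`uc_card_le`), so `sts (j - 1) z` is the union of `uc x_a` and `uc x_b`
(`mem_sts_iff`), i.e. the `y_c`, `c ≤ M`, with `c ∈ {a - 1, a, b - 1, b}` (`Cap.cov`,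
`Cap.surj_y`). -/
theorem cap_sts (H : Gr P r) {j m M : ℕ} {e : ℕ → ℕ → P} (hj : 1 ≤ j) (hC : Cap j m M e)
    {a b : ℕ} (hab : a < b) (hb : b ≤ m) {z : P} (h1 : z ⋖ e a (j - a)) (h2 : z ⋖ e b (j - b))
    (v : P) : v ∈ sts (j - 1) z ↔ ∃ c ≤ M, v = e c (j - 1 - c) ∧
      (c = a ∨ c + 1 = a ∨ c = b ∨ c + 1 = b) := by
  classical
  have hla := hC.row.lev_x a (by omega)
  have hz : lev z = j - 1 + 2 := by
    have := (H.covBy_iff.1 h1).2
    omega
  have hne : e a (j - a) ≠ e b (j - b) := by
    intro h
    have := hC.row.inj a (by omega) b hb h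
    omega
  have huc : uc z = {e a (j - a), e b (j - b)} := by
    symm
    apply eq_of_subset_of_card_le
    · intro x hx
      rw [mem_insert, mem_singleton] at hx
      rcases hx with rfl | rfl
      · exact mem_uc.2 h1
      · exact mem_uc.2 h2
    · rw [card_pair hne]
      exact uc_card_le H z
  rw [mem_sts_iff H hz, huc]
  constructor
  · rintro ⟨w, hw, hv⟩
    have hv' := mem_uc.1 hv
    have hlv := (H.covBy_iff.1 hv').2
    rw [mem_insert, mem_singleton] at hw
    rcases hw with rfl | rfl
    · obtain ⟨c, hc, rfl⟩ := hC.surj_y v (by omega)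
      rcases (hC.cov a (by omega) c hc).1 hv' with h | h
      · exact ⟨c, hc, rfl, by omega⟩
      · exact ⟨c, hc, rfl, by omega⟩
    · rw [hC.row.lev_x b hb] at hlv
      obtain ⟨c, hc, rfl⟩ := hC.surj_y v (by omega)
      rcases (hC.cov b hb c hc).1 hv' with h | h
      · exact ⟨c, hc, rfl, by omega⟩
      · exact ⟨c, hc, rfl, by omega⟩
  · rintro ⟨c, hc, rfl, h⟩
    by_cases h' : c = a ∨ c + 1 = a
    · exact ⟨_, mem_insert_self _ _, mem_uc.2 ((hC.cov a (by omega) c hc).2 h')⟩
    · refine ⟨e b (j - b), by simp, mem_uc.2 ((hC.cov b hb c hc).2 ?_)⟩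
      omega

/-- Number of sites, from `cap_sts` and `Cap.inj_y` (`card_sts`): the valid indices among
`a - 1, a, b - 1, b` (here `a ≤ m - 1 ≤ M`, `b - 1 ≤ M`). -/
theorem cap_up (H : Gr P r) {j m M : ℕ} {e : ℕ → ℕ → P} (hj : 1 ≤ j) (hC : Cap j m M e)
    (hM : M = m ∨ M + 1 = m) {a b : ℕ} (hab : a < b) (hb : b ≤ m) {z : P}
    (h1 : z ⋖ e a (j - a)) (h2 : z ⋖ e b (j - b)) :
    up (j - 1) z = (if 1 ≤ a then 1 else 0) + 1 + (if b = a + 1 then 0 else 1) +
      (if b ≤ M then 1 else 0) := by
  classical
  rw [← card_sts]
  have hs : sts (j - 1) z = ((range (M + 1)).filter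
      (fun c => c = a ∨ c + 1 = a ∨ c = b ∨ c + 1 = b)).image (fun c => e c (j - 1 - c)) := by
    ext v
    rw [cap_sts H hj hC hab hb h1 h2, mem_image]
    constructor
    · rintro ⟨c, hc, rfl, h⟩
      exact ⟨c, mem_filter.2 ⟨mem_range.2 (by omega), h⟩, rfl⟩
    · rintro ⟨c, hc, rfl⟩
      rw [mem_filter, mem_range] at hc
      exact ⟨c, by omega, rfl, hc.2⟩
  rw [hs, card_image_of_injOn]
  · have key : ∀ s : Finset ℕ, (∀ c, c ∈ s ↔ c < M + 1 ∧ (c = a ∨ c + 1 = a ∨ c = b ∨ c + 1 = b)) →
        ((range (M + 1)).filter (fun c => c = a ∨ c + 1 = a ∨ c = b ∨ c + 1 = b)).card = s.card := by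
      intro s hs
      congr 1
      ext c
      rw [mem_filter, mem_range, hs]
    by_cases ha : 1 ≤ a
    · rw [if_pos ha]
      by_cases hba : b = a + 1
      · rw [if_pos hba]
        by_cases hbM : b ≤ M
        · rw [if_pos hbM, key {a - 1, a, b}
            (by intro c; simp only [mem_insert, mem_singleton]; omega),
            card_insert_of_notMem (by simp only [mem_insert, mem_singleton]; omega),
            card_insert_of_notMem (by simp only [mem_singleton]; omega), card_singleton]
        · rw [if_neg hbM, key {a - 1, a}
            (by intro c; simp only [mem_insert, mem_singleton]; omega),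
            card_insert_of_notMem (by simp only [mem_singleton]; omega), card_singleton]
      · rw [if_neg hba]
        by_cases hbM : b ≤ M
        · rw [if_pos hbM, key {a - 1, a, b - 1, b}
            (by intro c; simp only [mem_insert, mem_singleton]; omega),
            card_insert_of_notMem (by simp only [mem_insert, mem_singleton]; omega),
            card_insert_of_notMem (by simp only [mem_insert, mem_singleton]; omega),
            card_insert_of_notMem (by simp only [mem_singleton]; omega), card_singleton]
        · rw [if_neg hbM, key {a - 1, a, b - 1}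
            (by intro c; simp only [mem_insert, mem_singleton]; omega),
            card_insert_of_notMem (by simp only [mem_insert, mem_singleton]; omega),
            card_insert_of_notMem (by simp only [mem_singleton]; omega), card_singleton]
    · rw [if_neg ha]
      by_cases hba : b = a + 1
      · rw [if_pos hba]
        by_cases hbM : b ≤ M
        · rw [if_pos hbM, key {a, b}
            (by intro c; simp only [mem_insert, mem_singleton]; omega),
            card_insert_of_notMem (by simp only [mem_singleton]; omega), card_singleton]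
        · rw [if_neg hbM, key {a}
            (by intro c; simp only [mem_singleton]; omega), card_singleton]
      · rw [if_neg hba]
        by_cases hbM : b ≤ M
        · rw [if_pos hbM, key {a, b - 1, b}
            (by intro c; simp only [mem_insert, mem_singleton]; omega),
            card_insert_of_notMem (by simp only [mem_insert, mem_singleton]; omega),
            card_insert_of_notMem (by simp only [mem_singleton]; omega), card_singleton]
        · rw [if_neg hbM, key {a, b - 1}
            (by intro c; simp only [mem_insert, mem_singleton]; omega),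
            card_insert_of_notMem (by simp only [mem_singleton]; omega), card_singleton]
  · intro c hc c' hc' h
    rw [mem_coe, mem_filter, mem_range] at hc hc'
    exact hC.inj_y c (by omega) c' (by omega) h

end Pool.Agent.GaussPoset.Win
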