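import Pool.Agent.W_448win_h16.BaD

/-! Elements with three sites. -/

namespace Pool.Agent.GaussPoset.Win

set_option linter.unusedSectionVars false

open Finset

universe u

variable {P : Type u} [Fintype P] [PartialOrder P] [DecidableEq P] {r : ℕ}

open Classical in
/-- The elements of level `j + 1` with three sites are the common lower covers of `x_(k-1)`, `x_k`,
`2 ≤ k ≤ M`: an element with three sites has two upper covers `x_a`, `x_b`, `a < b`
(`uc_card_le`, each upper cover has at most two upper covers), `dcv ≠ 0`, so by `hadj` they are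
neighbours, or `a = 0`, `b = m = M + 1` and then `cap_up` gives two (if `m ≥ 2`). `cap_up` for neighbours:
three iff `1 ≤ a` and `b ≤ M`. Count: the sets for different `k` are disjoint
(`Finset.card_biUnion`). -/
theorem cap_count (H : Gr P r) {j m M : ℕ} {e : ℕ → ℕ → P} (hj : 1 ≤ j) (hm : 2 ≤ m)
    (hC : Cap j m M e) (hM : M = m ∨ M + 1 = m)
    (hadj : ∀ a b, a < b → b ≤ m → b ≠ a + 1 → ¬ (a = 0 ∧ b = m ∧ M + 1 = m) →
      dcv (e a (j - a)) (e b (j - b)) = 0) :
    (univ.filter (fun z : P => lev z = j - 1 + 2 ∧ up (j - 1) z = 3)).card =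
      ∑ k ∈ Icc 2 M, dcv (e (k - 1) (j - (k - 1))) (e k (j - k)) := by
  classical
  set S : ℕ → Finset P := fun k =>
    univ.filter (fun y : P => y ⋖ e (k - 1) (j - (k - 1)) ∧ y ⋖ e k (j - k)) with hS
  have hMm : M ≤ m := by omega
  have hxl : ∀ k ≤ m, lev (e k (j - k)) = j := hC.row.lev_x
  -- three upper covers are impossible
  have hthree : ∀ z : P, ∀ a b c : ℕ, a < b → b < c → c ≤ m → z ⋖ e a (j - a) →
      z ⋖ e b (j - b) → z ⋖ e c (j - c) → False := by
    intro z a b c hab hbc hcm h1 h2 h3
    have hsub : ({e a (j - a), e b (j - b), e c (j - c)} : Finset P) ⊆ uc z := by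
      intro y hy
      rw [Finset.mem_insert, Finset.mem_insert, Finset.mem_singleton] at hy
      rcases hy with rfl | rfl | rfl
      · exact mem_uc.2 h1
      · exact mem_uc.2 h2
      · exact mem_uc.2 h3
    have hcard : ({e a (j - a), e b (j - b), e c (j - c)} : Finset P).card = 3 := by
      rw [Finset.card_eq_three]
      refine ⟨_, _, _, ?_, ?_, ?_, rfl⟩
      · intro h
        have := hC.row.inj a (by omega) b (by omega) h
        omega
      · intro h
        have := hC.row.inj a (by omega) c (by omega) h
        omega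
      · intro h
        have := hC.row.inj b (by omega) c (by omega) h
        omega
    have h4 := Finset.card_le_card hsub
    have h5 := uc_card_le H z
    omega
  have hdis : ∀ k ∈ Icc 2 M, ∀ k' ∈ Icc 2 M, k ≠ k' → Disjoint (S k) (S k') := by
    have hlt : ∀ k k' : ℕ, 2 ≤ k → k < k' → k' ≤ M → Disjoint (S k) (S k') := by
      intro k k' h1 h2 h3
      rw [Finset.disjoint_left]
      intro z hz hz'
      simp only [hS, mem_filter, mem_univ, true_and] at hz hz'
      exact hthree z (k - 1) k k' (by omega) h2 (by omega) hz.1 hz.2 hz'.2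
    intro k hk k' hk' hne
    rw [Finset.mem_Icc] at hk hk'
    rcases Nat.lt_or_gt_of_ne hne with h | h
    · exact hlt k k' hk.1 h hk'.2
    · exact (hlt k' k hk'.1 h hk.2).symm
  have hcard := Finset.card_biUnion hdis
  have hdcv : ∀ k, (S k).card = dcv (e (k - 1) (j - (k - 1))) (e k (j - k)) := by
    intro k
    simp only [hS]
    unfold dcv
    congr
  rw [← Finset.sum_congr rfl fun k _ => hdcv k, ← hcard]
  congr 1
  ext z
  rw [mem_filter, Finset.mem_biUnion]
  constructor
  · rintro ⟨-, hz, hup⟩
    have h2 := uc_card_le H z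
    have h3 : (sts (j - 1) z).card ≤ (uc z).card * 2 := by
      have hsub : sts (j - 1) z ⊆ (uc z).biUnion uc := by
        intro v hv
        rw [mem_sts_iff H hz] at hv
        exact Finset.mem_biUnion.2 hv
      exact (Finset.card_le_card hsub).trans
        (Finset.card_biUnion_le_card_mul _ _ _ fun w _ => uc_card_le H w)
    rw [card_sts, hup] at h3
    have h4 : (uc z).card = 2 := by omega
    rw [Finset.card_eq_two] at h4
    obtain ⟨w, w', hne, hw⟩ := h4
    have hwz : z ⋖ w := mem_uc.1 (by rw [hw]; simp)
    have hwz' : z ⋖ w' := mem_uc.1 (by rw [hw]; simp)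
    have hl1 := (H.covBy_iff.1 hwz).2
    have hl2 := (H.covBy_iff.1 hwz').2
    obtain ⟨a, ha, rfl⟩ := hC.row.surj w (by omega)
    obtain ⟨b, hb, rfl⟩ := hC.row.surj w' (by omega)
    have key : ∀ a b : ℕ, a < b → b ≤ m → z ⋖ e a (j - a) → z ⋖ e b (j - b) →
        ∃ k ∈ Icc 2 M, z ∈ S k := by
      intro a b hab hbm h5 h6
      have h7 := cap_up H hj hC hM hab hbm h5 h6
      rw [hup] at h7
      by_cases hba : b = a + 1
      · rw [if_pos hba] at h7
        have h8 : 1 ≤ a := by
          by_contra h9
          rw [if_neg h9] at h7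
          split_ifs at h7 <;> omega
        have h9 : b ≤ M := by
          by_contra h10
          rw [if_neg h10, if_pos h8] at h7
          omega
        refine ⟨b, Finset.mem_Icc.2 ⟨by omega, h9⟩, ?_⟩
        simp only [hS, mem_filter, mem_univ, true_and]
        have h10 : b - 1 = a := by omega
        rw [h10]
        exact ⟨h5, h6⟩
      · rw [if_neg hba] at h7
        by_cases hc : a = 0 ∧ b = m ∧ M + 1 = m
        · obtain ⟨hc1, hc2, hc3⟩ := hc
          rw [if_neg (by omega), if_neg (by omega)] at h7
          omega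
        · have h8 := hadj a b hab hbm hba hc
          exfalso
          unfold dcv at h8
          rw [Finset.card_eq_zero] at h8
          have h9 : z ∈ (univ.filter (fun y : P => y ⋖ e a (j - a) ∧ y ⋖ e b (j - b))) := by
            simp only [mem_filter, mem_univ, true_and]
            exact ⟨h5, h6⟩
          have h10 : z ∈ (∅ : Finset P) := by
            rw [← h8]
            convert h9
          exact absurd h10 (Finset.notMem_empty _)
    have hab : a ≠ b := by
      rintro rfl
      exact hne rfl
    rcases Nat.lt_or_gt_of_ne hab with h | h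
    · exact key a b h hb hwz hwz'
    · exact key b a h ha hwz' hwz
  · rintro ⟨k, hk, hz⟩
    rw [Finset.mem_Icc] at hk
    simp only [hS, mem_filter, mem_univ, true_and] at hz
    have h5 := (H.covBy_iff.1 hz.1).2
    have h6 := hxl (k - 1) (by omega)
    have h7 := cap_up H hj hC hM (by omega : k - 1 < k) (by omega) hz.1 hz.2
    rw [if_pos (by omega), if_pos (by omega), if_pos hk.2] at h7
    refine ⟨mem_univ _, by omega, by omega⟩

end Pool.Agent.GaussPoset.Win
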