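import Pool.Agent.W_448win_h16.BaG

/-! Sequences. -/

namespace Pool.Agent.GaussPoset.Win

set_option linter.unusedSectionVars false

open Finset

universe u

variable {P : Type u} [Fintype P] [PartialOrder P] [DecidableEq P] {r : ℕ}

lemma BaI_split (f : ℕ → ℤ) (a b : ℕ) (h : a < b) :
    ∑ k ∈ Icc a b, f k = f a + ∑ k ∈ Icc (a + 1) (b - 1), f k + f b := by
  obtain ⟨c, rfl⟩ : ∃ c, b = c + 1 := ⟨b - 1, by omega⟩
  rw [Finset.sum_Icc_succ_top (by omega), Nat.add_sub_cancel]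
  have h1 : Icc a c = insert a (Icc (a + 1) c) := by
    ext x
    simp only [mem_insert, mem_Icc]
    omega
  rw [h1, sum_insert (by simp)]

lemma BaI_sq (s : Finset ℕ) (f : ℕ → ℤ) (h : ∀ k ∈ s, f k ≤ 0) :
    ∑ k ∈ s, f k ^ 2 ≤ (∑ k ∈ s, f k) ^ 2 := by
  classical
  induction s using Finset.induction_on with
  | empty => simp
  | insert a s ha ih =>
    rw [sum_insert ha, sum_insert ha]
    have h1 := ih fun k hk => h k (mem_insert_of_mem hk)
    have h2 := h a (mem_insert_self a s)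
    have h3 : ∑ k ∈ s, f k ≤ 0 := sum_nonpos fun k hk => h k (mem_insert_of_mem hk)
    nlinarith [mul_nonneg_of_nonpos_of_nonpos h2 h3]

/-- Let `s k = α k + α (k+1)`, `1 ≤ k ≤ m - 1`. From `du`, `h31`: `α 1 + α m = -β`, so `β ≤ 2`
(`lo`); `∑ s = 2 ∑ α - α 1 - α m = -β`; `sq` becomes `∑_(2 ≤ k ≤ m-1) α k ^ 2 + β ^ 2 = ∑ s ^ 2`
(`(α 1 + β)^2 = (α m)^2`, `(α m + β)^2 = (α 1)^2`). All `s ≤ 0`. `β = 0`: all `s = 0`, inner `α` zero, then
`α 1 = s 1 = 0`, `α m = s (m-1) = 0`. `β = 1`: exactly one `s` is `-1`, the others `0`, so `∑ s² = 1` and the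
inner `α` are zero, `α 1 = s 1 ≤ 0`, `α m = s (m-1) ≤ 0`, sum `-1`. `β = 2`: `∑ s = -2` so
`∑ s² ≤ 4`, with `∑ s² = inner + 4` we get inner zero and `∑ s² = 4`; but
`α 1 = α m = -1` (`lo`), so `s 1 = s (m-1) = -1` (`1 ≠ m - 1`), the other `s` are zero (inner `α` zero) and
`∑ s² = 2`, contradiction. -/
theorem seq_R1 {m : ℕ} {α : ℕ → ℤ} {β : ℤ} (hm : 3 ≤ m) (h : RowSeq m α β)
    (h31 : ∑ k ∈ Icc 2 (m - 1), α k = 0) :
    (β = 0 ∧ ∀ k, 1 ≤ k → k ≤ m → α k = 0) ∨
    (β = 1 ∧ (∀ k, 2 ≤ k → k + 1 ≤ m → α k = 0) ∧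
      ((α 1 = -1 ∧ α m = 0) ∨ (α 1 = 0 ∧ α m = -1))) := by
  have h1 := h.du
  have h2 := h.sq
  have l1 := h.lo 1 (by omega) (by omega)
  have l2 := h.lo m (by omega) (by omega)
  rw [BaI_split α 1 m (by omega), h31] at h1
  rw [BaI_split (fun k => α k ^ 2) 1 m (by omega)] at h2
  have hs : ∑ k ∈ Icc 1 (m - 1), (α k + α (k + 1)) = -β := by
    rw [sum_add_distrib]
    have e1 : ∑ k ∈ Icc 1 (m - 1), α k = α 1 := by
      have h3 : Icc 1 (m - 1) = insert 1 (Icc 2 (m - 1)) := by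
        ext x
        simp only [mem_insert, mem_Icc]
        omega
      rw [h3, sum_insert (by simp), h31, add_zero]
    have e2 : ∑ k ∈ Icc 1 (m - 1), α (k + 1) = α m := by
      have h3 : ∑ k ∈ Icc 1 (m - 1), α (k + 1) = ∑ k ∈ Icc 2 m, α k := by
        refine sum_bij (fun k _ => k + 1) ?_ ?_ ?_ ?_
        · intro k hk
          rw [mem_Icc] at hk ⊢
          omega
        · intro a _ b _ hab
          omega
        · intro b hb
          rw [mem_Icc] at hb
          refine ⟨b - 1, ?_, by omega⟩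
          rw [mem_Icc]
          omega
        · intro k _
          rfl
      have h4 : Icc 2 m = insert m (Icc 2 (m - 1)) := by
        ext x
        simp only [mem_insert, mem_Icc]
        omega
      rw [h3, h4, sum_insert (by rw [mem_Icc]; omega), h31, add_zero]
    rw [e1, e2]
    linarith
  have hsle : ∀ k ∈ Icc 1 (m - 1), α k + α (k + 1) ≤ 0 := by
    intro k hk
    rw [mem_Icc] at hk
    exact h.s_le k hk.1 (by omega)
  have h3 := BaI_sq (Icc 1 (m - 1)) (fun k => α k + α (k + 1)) hsle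
  rw [hs] at h3
  have hin0 : 0 ≤ ∑ k ∈ Icc (1 + 1) (m - 1), α k ^ 2 := sum_nonneg fun k _ => sq_nonneg _
  have hm1 : α m = -β - α 1 := by linarith
  have hI : ∑ k ∈ Icc (1 + 1) (m - 1), α k ^ 2 = 0 := by
    rw [hm1] at h2
    nlinarith
  have hin : ∀ k, 2 ≤ k → k + 1 ≤ m → α k = 0 := by
    intro k hk hk'
    have h4 := (sum_eq_zero_iff_of_nonneg (fun k _ => sq_nonneg (α k))).mp hI k
      (by rw [mem_Icc]; omega)
    exact pow_eq_zero_iff (two_ne_zero) |>.mp h4
  have hS2 : ∑ k ∈ Icc 1 (m - 1), (α k + α (k + 1)) ^ 2 = α 1 ^ 2 + α m ^ 2 := by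
    rw [BaI_split (fun k => (α k + α (k + 1)) ^ 2) 1 (m - 1) (by omega)]
    have e1 : ∑ k ∈ Icc (1 + 1) (m - 1 - 1), (α k + α (k + 1)) ^ 2 = 0 := by
      refine sum_eq_zero fun k hk => ?_
      rw [mem_Icc] at hk
      rw [hin k (by omega) (by omega), hin (k + 1) (by omega) (by omega)]
      norm_num
    rw [e1, hin (1 + 1) (by omega) (by omega), hin (m - 1) (by omega) (by omega),
      show m - 1 + 1 = m by omega]
    ring
  rw [hS2, hI] at h2
  have hz : α 1 * α m = 0 := by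
    rw [hm1] at h2 ⊢
    nlinarith
  have a1 : α 1 ≤ 0 := by
    have h4 := h.s_le 1 (by omega) (by omega)
    rw [hin (1 + 1) (by omega) (by omega)] at h4
    linarith
  have am : α m ≤ 0 := by
    have h4 := h.s_le (m - 1) (by omega) (by omega)
    rw [hin (m - 1) (by omega) (by omega), show m - 1 + 1 = m by omega] at h4
    linarith
  rcases mul_eq_zero.mp hz with h4 | h4
  · by_cases h5 : α m = 0
    · left
      refine ⟨by linarith, fun k hk1 hk2 => ?_⟩
      by_cases hk3 : k = 1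
      · rw [hk3]; exact h4
      · by_cases hk4 : k = m
        · rw [hk4]; exact h5
        · exact hin k (by omega) (by omega)
    · right
      have h6 : α m = -1 := by omega
      exact ⟨by linarith, hin, Or.inr ⟨h4, h6⟩⟩
  · by_cases h5 : α 1 = 0
    · left
      refine ⟨by linarith, fun k hk1 hk2 => ?_⟩
      by_cases hk3 : k = 1
      · rw [hk3]; exact h5
      · by_cases hk4 : k = m
        · rw [hk4]; exact h4
        · exact hin k (by omega) (by omega)
    · right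
      have h6 : α 1 = -1 := by omega
      exact ⟨by linarith, hin, Or.inl ⟨h6, h4⟩⟩

end Pool.Agent.GaussPoset.Win
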