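import Pool.Agent.W_448win_h16.BaG

/-! Sequences. -/

namespace Pool.Agent.GaussPoset.Win

set_option linter.unusedSectionVars false

open Finset

universe u

variable {P : Type u} [Fintype P] [PartialOrder P] [DecidableEq P] {r : ℕ}

lemma BaJ_split (f : ℕ → ℤ) (n : ℕ) :
    ∑ k ∈ Icc 1 (n + 1), f k = f 1 + ∑ k ∈ Icc 2 (n + 1), f k := by
  induction n with
  | zero => simp
  | succ n ih =>
    rw [Finset.sum_Icc_succ_top (by omega), ih, Finset.sum_Icc_succ_top (by omega : 2 ≤ n + 1 + 1)]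
    ring

lemma BaJ_shift (f : ℕ → ℤ) (n : ℕ) :
    ∑ k ∈ Icc 1 n, f (k + 1) = ∑ k ∈ Icc 2 (n + 1), f k := by
  induction n with
  | zero => simp
  | succ n ih =>
    rw [Finset.sum_Icc_succ_top (by omega), ih, Finset.sum_Icc_succ_top (by omega : 2 ≤ n + 1 + 1)]

/-- `du`, `h31` give `α 1 = 0`; `∑ s = -α m` so `0 ≤ α m ≤ 1` (`endm`); `sq`: the inner squares
`∑_(2 ≤ k ≤ m-1) α k ^ 2` are `∑ s ^ 2`. `α m = 0`: all zero. `α m = 1`: one `s = -1`, `∑ s² = 1`;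
`s (m-1) ≤ 0` gives `α (m-1) = -1`, which is the only nonzero inner term. -/
theorem seq_R2 {m : ℕ} {α : ℕ → ℤ} (hm : 3 ≤ m) (h : RowSeq m α 0)
    (h31 : ∑ k ∈ Icc 2 m, α k = 0) :
    (∀ k, 1 ≤ k → k ≤ m → α k = 0) ∨
    (α m = 1 ∧ α (m - 1) = -1 ∧ ∀ k, 1 ≤ k → k + 2 ≤ m → α k = 0) := by
  obtain ⟨n, rfl⟩ : ∃ n, m = n + 3 := ⟨m - 3, by omega⟩
  have hdu := h.du
  have hsq := h.sq
  have hen := h.endm
  rw [show n + 3 = (n + 2) + 1 from rfl, BaJ_split] at hdu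
  have h31' : ∑ k ∈ Icc 2 (n + 2 + 1), α k = 0 := h31
  rw [h31'] at hdu
  have ha1 : α 1 = 0 := by linarith
  -- the sum of the `s`
  have hssum : ∑ k ∈ Icc 1 (n + 2), (α k + α (k + 1)) = - α (n + 3) := by
    rw [Finset.sum_add_distrib, BaJ_shift, h31']
    have h1 : ∑ k ∈ Icc 1 (n + 2 + 1), α k = ∑ k ∈ Icc 1 (n + 2), α k + α (n + 2 + 1) :=
      Finset.sum_Icc_succ_top (by omega) _
    have h2 : ∑ k ∈ Icc 1 (n + 2 + 1), α k = 0 := by
      rw [BaJ_split, h31', ha1]; rfl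
    have h3 : α (n + 2 + 1) = α (n + 3) := rfl
    rw [h3] at h1
    linarith
  have hinner : ∑ k ∈ Icc 2 (n + 2), α k ^ 2 = ∑ k ∈ Icc 1 (n + 2), (α k + α (k + 1)) ^ 2 := by
    have h1 : ∑ k ∈ Icc 1 (n + 3), α k ^ 2
        = α 1 ^ 2 + ∑ k ∈ Icc 2 (n + 3), α k ^ 2 := BaJ_split (fun k => α k ^ 2) (n + 2)
    have h2 : ∑ k ∈ Icc 2 (n + 3), α k ^ 2
        = ∑ k ∈ Icc 2 (n + 2), α k ^ 2 + α (n + 3) ^ 2 :=
      Finset.sum_Icc_succ_top (by omega) _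
    have h3 : n + 3 - 1 = n + 2 := by omega
    rw [h3] at hsq
    rw [h1, h2] at hsq
    linarith
  have hs : ∀ k ∈ Icc 1 (n + 2), 0 ≤ -(α k + α (k + 1)) := by
    intro k hk
    rw [Finset.mem_Icc] at hk
    have := h.s_le k hk.1 (by omega)
    linarith
  have hnegsum : ∑ k ∈ Icc 1 (n + 2), -(α k + α (k + 1)) = α (n + 3) := by
    rw [Finset.sum_neg_distrib, hssum]; ring
  have ham0 : 0 ≤ α (n + 3) := by
    rw [← hnegsum]; exact Finset.sum_nonneg hs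
  have ham1 : α (n + 3) ≤ 1 := by linarith
  have hsle : ∀ k ∈ Icc 1 (n + 2), -(α k + α (k + 1)) ≤ α (n + 3) := by
    intro k hk
    rw [← hnegsum]
    exact Finset.single_le_sum (f := fun k => -(α k + α (k + 1))) hs hk
  have hs2 : ∀ k ∈ Icc 1 (n + 2), (α k + α (k + 1)) ^ 2 = -(α k + α (k + 1)) := by
    intro k hk
    have h1 := hs k hk
    have h2 := hsle k hk
    have h3 : α k + α (k + 1) = 0 ∨ α k + α (k + 1) = -1 := by omega
    rcases h3 with h3 | h3 <;> rw [h3] <;> norm_num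
  rw [Finset.sum_congr rfl hs2, hnegsum] at hinner
  have hzero : ∀ t : ℕ, ∑ k ∈ Icc 2 t, α k ^ 2 = 0 → ∀ k, 2 ≤ k → k ≤ t → α k = 0 := by
    intro t ht k h2 hkt
    rw [Finset.sum_eq_zero_iff_of_nonneg (fun i _ => sq_nonneg (α i))] at ht
    exact pow_eq_zero_iff (two_ne_zero) |>.1 (ht k (Finset.mem_Icc.2 ⟨h2, hkt⟩))
  rcases (by omega : α (n + 3) = 0 ∨ α (n + 3) = 1) with hm0 | hm1
  · left
    rw [hm0] at hinner
    intro k h1 hk
    rcases (by omega : k = 1 ∨ (2 ≤ k ∧ k ≤ n + 2) ∨ k = n + 3) with rfl | ⟨h2, h3⟩ | rfl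
    · exact ha1
    · exact hzero _ hinner k h2 h3
    · exact hm0
  · right
    have hp := h.s_le (n + 2) (by omega) (by omega)
    have hlo := h.lo (n + 2) (by omega) (by omega)
    have h3 : α (n + 2 + 1) = α (n + 3) := rfl
    rw [h3, hm1] at hp
    have hm2 : α (n + 2) = -1 := by omega
    have h4 : n + 3 - 1 = n + 2 := by omega
    refine ⟨hm1, by rw [h4]; exact hm2, ?_⟩
    rw [Finset.sum_Icc_succ_top (by omega : 2 ≤ n + 1 + 1), hm1] at hinner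
    have h5 : α (n + 1 + 1) = -1 := hm2
    rw [h5] at hinner
    have h6 : ∑ k ∈ Icc 2 (n + 1), α k ^ 2 = 0 := by linarith
    intro k h1 hk
    rcases (by omega : k = 1 ∨ 2 ≤ k) with rfl | h2
    · exact ha1
    · exact hzero _ h6 k h2 (by omega)

end Pool.Agent.GaussPoset.Win
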