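import Pool.Agent.W_448win_h16.BaG
import Pool.Agent.W_448win_h16.FactA

/-! Types of the elements below a row. -/

namespace Pool.Agent.GaussPoset.Win

set_option linter.unusedSectionVars false

open Finset

universe u

variable {P : Type u} [Fintype P] [PartialOrder P] [DecidableEq P] {r : ℕ}

/-- `w < x_i` iff `w ⋖ x_i` for `w` of level `l + 1` (`H.covBy_iff`); so `Ty l m e w T` says that the
upper covers of `w` are the `x_i` with `i ∈ T`, `i ≤ m` (`Row.surj`). -/
theorem Ty_iff (H : Gr P r) {l m : ℕ} {e : ℕ → ℕ → P} (hR : Row l m e) {w : P}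
    (hw : lev w = l + 1) (T : Finset ℕ) :
    Ty l m e w T ↔ ∀ i ≤ m, (w ⋖ e i (l - i) ↔ i ∈ T) := by
  have h1 : ∀ i ≤ m, (w ⋖ e i (l - i) ↔ w < e i (l - i)) := by
    intro i hi
    rw [H.covBy_iff, hR.lev_x i hi]
    exact and_iff_left hw
  constructor
  · intro h i hi
    rw [h1 i hi]
    exact h.2 i hi
  · intro h
    refine ⟨hw, fun i hi => ?_⟩
    rw [← h1 i hi]
    exact h i hi

/-- Upper covers of an element of level `l + 1` are row elements. -/
theorem BaL_uc (H : Gr P r) {l m : ℕ} {e : ℕ → ℕ → P} (hR : Row l m e) {w y : P}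
    (hw : lev w = l + 1) (hy : y ∈ uc w) : ∃ i ≤ m, e i (l - i) = y := by
  have h1 := lev_uc H hy
  exact hR.surj y (by omega)

/-- A pair of upper covers is the set of all upper covers. -/
theorem BaL_pair (H : Gr P r) {l m : ℕ} {e : ℕ → ℕ → P} (hR : Row l m e) {w : P} {a b : ℕ}
    (ha : a ≤ m) (hb : b ≤ m) (hab : a ≠ b) (h1 : w ⋖ e a (l - a)) (h2 : w ⋖ e b (l - b)) :
    Ty l m e w {a, b} := by
  have hlw : lev w = l + 1 := by
    rw [(H.covBy_iff.mp h1).2, hR.lev_x a ha]
  rw [Ty_iff H hR hlw]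
  intro i hi
  rw [mem_insert, mem_singleton]
  constructor
  · intro h3
    by_contra hne
    rw [not_or] at hne
    have hsub : {e a (l - a), e b (l - b), e i (l - i)} ⊆ uc w := by
      intro y hy
      rw [mem_insert, mem_insert, mem_singleton] at hy
      rcases hy with rfl | rfl | rfl
      · exact mem_uc.2 h1
      · exact mem_uc.2 h2
      · exact mem_uc.2 h3
    have hc := card_le_card hsub
    have n1 : e a (l - a) ≠ e b (l - b) := fun h => hab (hR.inj a ha b hb h)
    have n2 : e a (l - a) ≠ e i (l - i) := fun h => hne.1 (hR.inj a ha i hi h).symm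
    have n3 : e b (l - b) ≠ e i (l - i) := fun h => hne.2 (hR.inj b hb i hi h).symm
    rw [card_eq_three.2 ⟨_, _, _, n1, n2, n3, rfl⟩] at hc
    have := uc_card_le H w
    omega
  · rintro (rfl | rfl)
    · exact h1
    · exact h2

open Classical in
theorem BaL_mem_dcv {v v' y : P} : y ∈ univ.filter (fun y : P => y ⋖ v ∧ y ⋖ v') ↔
    y ⋖ v ∧ y ⋖ v' := by
  simp

/-- Every element of level `l + 1` has one or two upper covers (`uc_nonempty`, `uc_card_le`), these are
row elements. -/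
theorem Ty_exists (H : Gr P r) {l m : ℕ} {e : ℕ → ℕ → P} (hR : Row l m e) {w : P}
    (hw : lev w = l + 1) :
    (∃ a ≤ m, Ty l m e w {a}) ∨ ∃ a b, a < b ∧ b ≤ m ∧ Ty l m e w {a, b} ∧
      0 < dcv (e a (l - a)) (e b (l - b)) := by
  obtain ⟨y, hy⟩ := uc_nonempty H (x := w) (by omega)
  obtain ⟨a, ha, rfl⟩ := BaL_uc H hR hw hy
  by_cases hex : ∃ b ≤ m, b ≠ a ∧ w ⋖ e b (l - b)
  · obtain ⟨b, hb, hba, hwb⟩ := hex
    have key : ∀ a b, a < b → b ≤ m → w ⋖ e a (l - a) → w ⋖ e b (l - b) →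
        ∃ a b, a < b ∧ b ≤ m ∧ Ty l m e w {a, b} ∧ 0 < dcv (e a (l - a)) (e b (l - b)) := by
      intro a b hab hb h1 h2
      refine ⟨a, b, hab, hb, BaL_pair H hR (by omega) hb hab.ne h1 h2, ?_⟩
      unfold dcv
      exact card_pos.2 ⟨w, BaL_mem_dcv.2 ⟨h1, h2⟩⟩
    right
    rcases lt_or_gt_of_ne hba with h | h
    · exact key b a h ha hwb (mem_uc.1 hy)
    · exact key a b h hb (mem_uc.1 hy) hwb
  · left
    refine ⟨a, ha, ?_⟩
    rw [Ty_iff H hR hw]
    intro i hi
    rw [mem_singleton]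
    constructor
    · intro h
      by_contra hne
      exact hex ⟨i, hi, hne, h⟩
    · rintro rfl
      exact mem_uc.1 hy

/-- The common lower covers of `x_a`, `x_b` are the elements of type `{a, b}` (an element has at most two
upper covers), `dcv` many. -/
theorem Ty_pair (H : Gr P r) {l m : ℕ} {e : ℕ → ℕ → P} (hR : Row l m e) {a b : ℕ} (hab : a < b)
    (hb : b ≤ m) : (0 < dcv (e a (l - a)) (e b (l - b)) → ∃ w, Ty l m e w {a, b}) ∧
      (dcv (e a (l - a)) (e b (l - b)) ≤ 1 → ∀ w w', Ty l m e w {a, b} → Ty l m e w' {a, b} →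
        w = w') := by
  refine ⟨fun h => ?_, fun h w w' hw hw' => ?_⟩
  · unfold dcv at h
    obtain ⟨w, hw⟩ := card_pos.1 h
    have h1 := BaL_mem_dcv.1 hw
    exact ⟨w, BaL_pair H hR (by omega) hb hab.ne h1.1 h1.2⟩
  · unfold dcv at h
    have h1 := (Ty_iff H hR hw.1 _).1 hw
    have h2 := (Ty_iff H hR hw'.1 _).1 hw'
    refine card_le_one.1 h w (BaL_mem_dcv.2 ⟨?_, ?_⟩) w' (BaL_mem_dcv.2 ⟨?_, ?_⟩)
    · exact (h1 a (by omega)).2 (by simp)
    · exact (h1 b hb).2 (by simp)
    · exact (h2 a (by omega)).2 (by simp)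
    · exact (h2 b hb).2 (by simp)

/-- Counting of lower covers. -/
theorem BaL_count (H : Gr P r) {l m : ℕ} {e : ℕ → ℕ → P} (hR : Row l m e) {a b c : ℕ}
    (ha : a ≤ m) (hb : b ≤ m) (hc : c ≤ m) (hab : a ≠ b) (hac : a ≠ c) (hbc : b ≠ c)
    (W : Finset P) (hW : ∀ w ∈ W, Ty l m e w {a}) :
    W.card + (dcv (e a (l - a)) (e b (l - b)) + dcv (e a (l - a)) (e c (l - c))) ≤ 2 := by
  classical
  set D1 : Finset P := univ.filter (fun y : P => y ⋖ e a (l - a) ∧ y ⋖ e b (l - b)) with hD1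
  set D2 : Finset P := univ.filter (fun y : P => y ⋖ e a (l - a) ∧ y ⋖ e c (l - c)) with hD2
  have e1 : dcv (e a (l - a)) (e b (l - b)) = D1.card := by
    unfold dcv
    rw [hD1]
  have e2 : dcv (e a (l - a)) (e c (l - c)) = D2.card := by
    unfold dcv
    rw [hD2]
  have m1 : ∀ y, y ∈ D1 ↔ y ⋖ e a (l - a) ∧ y ⋖ e b (l - b) := fun y => by simp [hD1]
  have m2 : ∀ y, y ∈ D2 ↔ y ⋖ e a (l - a) ∧ y ⋖ e c (l - c) := fun y => by simp [hD2]
  have d12 : Disjoint D1 D2 := by
    rw [disjoint_left]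
    intro y hy1 hy2
    have h1 := (m1 y).1 hy1
    have h2 := (m2 y).1 hy2
    have hlw : lev y = l + 1 := by
      rw [(H.covBy_iff.mp h1.1).2, hR.lev_x a ha]
    have h3 := BaL_pair H hR ha hb hab h1.1 h1.2
    have h4 := ((Ty_iff H hR hlw _).1 h3 c hc).1 h2.2
    rw [mem_insert, mem_singleton] at h4
    rcases h4 with h4 | h4
    · exact hac h4.symm
    · exact hbc h4.symm
  have hWt : ∀ w ∈ W, w ⋖ e a (l - a) ∧ ¬ w ⋖ e b (l - b) ∧ ¬ w ⋖ e c (l - c) := by
    intro w hw
    have h1 := hW w hw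
    have h2 := (Ty_iff H hR h1.1 _).1 h1
    refine ⟨(h2 a ha).2 (by simp), fun h => ?_, fun h => ?_⟩
    · have h3 := (h2 b hb).1 h
      rw [mem_singleton] at h3
      exact hab h3.symm
    · have h3 := (h2 c hc).1 h
      rw [mem_singleton] at h3
      exact hac h3.symm
  have dW : Disjoint W (D1 ∪ D2) := by
    rw [disjoint_left]
    intro y hy1 hy2
    have h1 := hWt y hy1
    rcases mem_union.1 hy2 with h | h
    · exact h1.2.1 ((m1 y).1 h).2
    · exact h1.2.2 ((m2 y).1 h).2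
  have hsub : W ∪ (D1 ∪ D2) ⊆ dc (e a (l - a)) := by
    intro y hy
    rw [mem_dc]
    rcases mem_union.1 hy with h | h
    · exact (hWt y h).1
    · rcases mem_union.1 h with h | h
      · exact ((m1 y).1 h).1
      · exact ((m2 y).1 h).1
  have hcard := card_le_card hsub
  rw [card_union_of_disjoint dW, card_union_of_disjoint d12] at hcard
  rw [e1, e2]
  exact hcard.trans (dc_card_le H _)

/-- If an element `x_a` has `d` common lower covers with `x_b` and `d'` with `x_c` (`a, b, c` different), then it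
has at most `2 - d - d'` pendants (elements of type `{a}`): all these are different lower covers of
`x_a` (`dc_card_le`). -/
theorem Ty_single (H : Gr P r) {l m : ℕ} {e : ℕ → ℕ → P} (hR : Row l m e) {a b c : ℕ}
    (ha : a ≤ m) (hb : b ≤ m) (hc : c ≤ m) (hab : a ≠ b) (hac : a ≠ c) (hbc : b ≠ c) :
    (2 ≤ dcv (e a (l - a)) (e b (l - b)) + dcv (e a (l - a)) (e c (l - c)) →
      ∀ w, ¬ Ty l m e w {a}) ∧
    (1 ≤ dcv (e a (l - a)) (e b (l - b)) + dcv (e a (l - a)) (e c (l - c)) →
      ∀ w w', Ty l m e w {a} → Ty l m e w' {a} → w = w') := by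
  refine ⟨fun h w hw => ?_, fun h w w' hw hw' => ?_⟩
  · have h1 := BaL_count H hR ha hb hc hab hac hbc {w} (fun y hy => by
      rw [mem_singleton] at hy
      rw [hy]
      exact hw)
    rw [card_singleton] at h1
    omega
  · by_contra hne
    have h1 := BaL_count H hR ha hb hc hab hac hbc {w, w'} (fun y hy => by
      rw [mem_insert, mem_singleton] at hy
      rcases hy with rfl | rfl
      · exact hw
      · exact hw')
    rw [card_pair hne] at h1
    omega

end Pool.Agent.GaussPoset.Win
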