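import Pool.Agent.W_448win_h16.BaE
import Pool.Agent.W_448win_h16.BaF
import Pool.Agent.W_448win_h16.BaH
import Pool.Agent.W_448win_h16.BaI

/-! The closed case. -/

namespace Pool.Agent.GaussPoset.Win

set_option linter.unusedSectionVars false

open Finset

universe u

variable {P : Type u} [Fintype P] [PartialOrder P] [DecidableEq P] {r : ℕ}

/-- The closed case up to the numbers: window level `j - 1` good, `PU` empty, so `PD` empty
(`good_card`), `cap_adj`, `row_seq`, (31) with `cap_count` and the hypothesis `h3`: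
`∑_(2 ≤ k ≤ m-1) dcv = m - 2`, so the sum of the `α k` over `Icc 2 (m-1)` is zero; `seq_R1`. The first
alternative gives a good level by `good_of_row`. -/
theorem closed_case (H : Gr P r) (h0 : (lv P 0).card = 1) {j m : ℕ} {e : ℕ → ℕ → P}
    (hm : 3 ≤ m) (hj : 2 ≤ j) (hj2 : j + 1 ≤ r) (hC : Cap j m (m - 1) e) (hg : Good P (j - 1))
    (hU : PU P (j - 1) = ∅)
    (h3 : (univ.filter (fun x : P => lev x + 2 = j - 1 ∧ dn (j - 1) x = 3)).card = m - 2) :
    Good P j ∨ (dcv (e 0 (j - 0)) (e m (j - m)) = 1 ∧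
      (∀ a b, a < b → b ≤ m → b ≠ a + 1 → ¬ (a = 0 ∧ b = m) →
        dcv (e a (j - a)) (e b (j - b)) = 0) ∧
      ((dcv (e 0 (j - 0)) (e 1 (j - 1)) = 0 ∧
          ∀ k, 2 ≤ k → k ≤ m → dcv (e (k - 1) (j - (k - 1))) (e k (j - k)) = 1) ∨
        (dcv (e (m - 1) (j - (m - 1))) (e m (j - m)) = 0 ∧
          ∀ k, 1 ≤ k → k + 1 ≤ m → dcv (e (k - 1) (j - (k - 1))) (e k (j - k)) = 1))) := by
  have hgc := good_card H (i := j - 1) (by omega) (by omega) hg
  have hPD : PD P (j - 1) = ∅ := by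
    rw [hU, Finset.card_empty, Finset.card_eq_zero] at hgc
    exact hgc
  have hM : m - 1 = m ∨ m - 1 + 1 = m := Or.inr (by omega)
  have hadj : ∀ a b, a < b → b ≤ m → b ≠ a + 1 → ¬ (a = 0 ∧ b = m ∧ m - 1 + 1 = m) →
      dcv (e a (j - a)) (e b (j - b)) = 0 := by
    intro a b hab hb hne hc
    refine cap_adj H hj (by omega) hC hM hg ?_ ?_ hab hb hne hc
    · rw [hPD, Finset.card_empty]
      exact Nat.zero_le _
    · rw [hU, Finset.card_empty]
      exact Nat.zero_le _
  have hadj' : ∀ a b, a < b → b ≤ m → b ≠ a + 1 → ¬ (a = 0 ∧ b = m) →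
      dcv (e a (j - a)) (e b (j - b)) = 0 := fun a b hab hb hne hc =>
    hadj a b hab hb hne (fun h => hc ⟨h.1, h.2.1⟩)
  have hseq := row_seq H (by omega) hj2 h0 (by omega) hC.row hadj'
  have hcnt := cap_count H (by omega) (by omega) hC hM hadj
  have h31 := I31 H (i := j - 1) (by omega) (by omega) hg hPD hU
  have hsum : ∑ k ∈ Icc 2 (m - 1), dcv (e (k - 1) (j - (k - 1))) (e k (j - k)) = m - 2 := by
    rw [← hcnt, h31, h3]
  have hz : ∑ k ∈ Icc 2 (m - 1),
      ((dcv (e (k - 1) (j - (k - 1))) (e k (j - k)) : ℤ) - 1) = 0 := by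
    rw [Finset.sum_sub_distrib, ← Nat.cast_sum, hsum, Finset.sum_const, Nat.card_Icc]
    simp only [nsmul_eq_mul, mul_one]
    have : m - 1 + 1 - 2 = m - 2 := by omega
    rw [this, sub_self]
  rcases seq_R1 hm hseq hz with ⟨hb, hall⟩ | ⟨hb, hin, hend⟩
  · left
    refine good_of_row hC.row (fun k h1 h2 => ?_) (fun a b hab hb2 hne => ?_)
    · have h4 := hall k h1 h2
      have h5 : ((dcv (e (k - 1) (j - (k - 1))) (e k (j - k)) : ℤ) - 1) = 0 := h4
      omega
    · by_cases hc : a = 0 ∧ b = m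
      · obtain ⟨rfl, rfl⟩ := hc
        exact_mod_cast hb
      · exact hadj' a b hab hb2 hne hc
  · right
    refine ⟨by exact_mod_cast hb, fun a b hab hb2 hne hc => hadj' a b hab hb2 hne hc, ?_⟩
    have hin' : ∀ k, 2 ≤ k → k + 1 ≤ m →
        dcv (e (k - 1) (j - (k - 1))) (e k (j - k)) = 1 := by
      intro k h1 h2
      have h4 : ((dcv (e (k - 1) (j - (k - 1))) (e k (j - k)) : ℤ) - 1) = 0 := hin k h1 h2
      omega
    rcases hend with ⟨ha, hbm⟩ | ⟨ha, hbm⟩
    · left
      have ha' : ((dcv (e 0 (j - 0)) (e 1 (j - 1)) : ℤ) - 1) = -1 := ha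
      have hbm' : ((dcv (e (m - 1) (j - (m - 1))) (e m (j - m)) : ℤ) - 1) = 0 := hbm
      refine ⟨by omega, fun k h1 h2 => ?_⟩
      by_cases hk : k = m
      · subst hk
        omega
      · exact hin' k h1 (by omega)
    · right
      have ha' : ((dcv (e 0 (j - 0)) (e 1 (j - 1)) : ℤ) - 1) = 0 := ha
      have hbm' : ((dcv (e (m - 1) (j - (m - 1))) (e m (j - m)) : ℤ) - 1) = -1 := hbm
      refine ⟨by omega, fun k h1 h2 => ?_⟩
      by_cases hk : k = 1
      · subst hk
        show dcv (e 0 (j - 0)) (e 1 (j - 1)) = 1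
        omega
      · exact hin' k (by omega) h2

end Pool.Agent.GaussPoset.Win
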