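import Pool.Agent.W_448win_h16.FactA

/-! Existence of a matching. -/

namespace Pool.Agent.GaussPoset.Win

set_option linter.unusedSectionVars false

open Finset

universe u

variable {P : Type u} [Fintype P] [PartialOrder P] [DecidableEq P] {r : ℕ}

/-- double lower near elements outside `K` with the set `T` of upper covers -/
noncomputable def BbA_L (i : ℕ) (K T : Finset P) : Finset P :=
  (dbL P i).filter (fun w => uc w = T ∧ w ∉ K)

/-- double upper near elements outside `K` with the set `T` of lower covers -/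
noncomputable def BbA_U (i : ℕ) (K T : Finset P) : Finset P :=
  (dbU P i).filter (fun u => dc u = T ∧ u ∉ K)

lemma mem_BbA_L {i : ℕ} {K T : Finset P} {w : P} :
    w ∈ BbA_L i K T ↔ w ∈ dbL P i ∧ uc w = T ∧ w ∉ K := by
  unfold BbA_L
  rw [Finset.mem_filter]

lemma mem_BbA_U {i : ℕ} {K T : Finset P} {w : P} :
    w ∈ BbA_U i K T ↔ w ∈ dbU P i ∧ dc w = T ∧ w ∉ K := by
  unfold BbA_U
  rw [Finset.mem_filter]

lemma BbA_L_pair (H : Gr P r) {i : ℕ} (K : Finset P) {v v' : P} (hv : lev v = i) (hne : v ≠ v')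
    (w : P) : w ∈ BbA_L i K {v, v'} ↔ (w ⋖ v ∧ w ⋖ v') ∧ w ∉ K := by
  rw [mem_BbA_L]
  constructor
  · rintro ⟨_, h2, h3⟩
    refine ⟨⟨?_, ?_⟩, h3⟩
    · rw [← mem_uc, h2]
      simp
    · rw [← mem_uc, h2]
      simp
  · rintro ⟨⟨h1, h2⟩, h3⟩
    have hsub : ({v, v'} : Finset P) ⊆ uc w := by
      intro x hx
      rw [Finset.mem_insert, Finset.mem_singleton] at hx
      rcases hx with rfl | rfl
      · exact mem_uc.2 h1
      · exact mem_uc.2 h2
    have hcard := uc_card_le H w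
    have heq : ({v, v'} : Finset P) = uc w :=
      Finset.eq_of_subset_of_card_le hsub (by rw [Finset.card_pair hne]; exact hcard)
    refine ⟨mem_dbL.2 ⟨?_, ?_⟩, heq.symm, h3⟩
    · have := (H.covBy_iff.mp h1).2
      omega
    · rw [← heq, Finset.card_pair hne]

lemma BbA_U_pair (H : Gr P r) {i : ℕ} (K : Finset P) {v v' : P} (hv : lev v = i) (hne : v ≠ v')
    (w : P) : w ∈ BbA_U i K {v, v'} ↔ (v ⋖ w ∧ v' ⋖ w) ∧ w ∉ K := by
  rw [mem_BbA_U]
  constructor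
  · rintro ⟨_, h2, h3⟩
    refine ⟨⟨?_, ?_⟩, h3⟩
    · rw [← mem_dc, h2]
      simp
    · rw [← mem_dc, h2]
      simp
  · rintro ⟨⟨h1, h2⟩, h3⟩
    have hsub : ({v, v'} : Finset P) ⊆ dc w := by
      intro x hx
      rw [Finset.mem_insert, Finset.mem_singleton] at hx
      rcases hx with rfl | rfl
      · exact mem_dc.2 h1
      · exact mem_dc.2 h2
    have hcard := dc_card_le H w
    have heq : ({v, v'} : Finset P) = dc w :=
      Finset.eq_of_subset_of_card_le hsub (by rw [Finset.card_pair hne]; exact hcard)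
    refine ⟨mem_dbU.2 ⟨?_, ?_⟩, heq.symm, h3⟩
    · have := (H.covBy_iff.mp h1).2
      omega
    · rw [← heq, Finset.card_pair hne]

open Classical in
lemma BbA_card (H : Gr P r) {i : ℕ} (K : Finset P)
    (hg : ∀ v v' : P, lev v = i → lev v' = i → v ≠ v' →
      (univ.filter (fun y : P => (v ⋖ y ∧ v' ⋖ y) ∧ y ∉ K)).card =
        (univ.filter (fun y : P => (y ⋖ v ∧ y ⋖ v') ∧ y ∉ K)).card) (T : Finset P) :
    (BbA_L i K T).card = (BbA_U i K T).card := by
  by_cases hT : T.card = 2 ∧ ∀ v ∈ T, lev v = i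
  · obtain ⟨v, v', hne, rfl⟩ := Finset.card_eq_two.1 hT.1
    have hv : lev v = i := hT.2 v (by simp)
    have hv' : lev v' = i := hT.2 v' (by simp)
    have h1 : BbA_L i K {v, v'} = univ.filter (fun y : P => (y ⋖ v ∧ y ⋖ v') ∧ y ∉ K) := by
      ext w
      rw [BbA_L_pair H K hv hne, Finset.mem_filter]
      simp
    have h2 : BbA_U i K {v, v'} = univ.filter (fun y : P => (v ⋖ y ∧ v' ⋖ y) ∧ y ∉ K) := by
      ext w
      rw [BbA_U_pair H K hv hne, Finset.mem_filter]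
      simp
    rw [h1, h2, hg v v' hv hv' hne]
  · have h1 : BbA_L i K T = ∅ := by
      rw [Finset.eq_empty_iff_forall_notMem]
      intro w hw
      rw [mem_BbA_L, mem_dbL] at hw
      refine hT ⟨hw.2.1 ▸ hw.1.2, fun v hv => ?_⟩
      rw [← hw.2.1] at hv
      have := lev_uc H hv
      omega
    have h2 : BbA_U i K T = ∅ := by
      rw [Finset.eq_empty_iff_forall_notMem]
      intro w hw
      rw [mem_BbA_U, mem_dbU] at hw
      refine hT ⟨hw.2.1 ▸ hw.1.2, fun v hv => ?_⟩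
      rw [← hw.2.1] at hv
      have := lev_dc H hv
      omega
    rw [h1, h2]

open Classical in
/-- Existence of a matching outside `K`, as `good_mat` (`CoreC`; here with `K` and the equality of the
numbers as hypothesis). -/
theorem mat_exists (H : Gr P r) {i : ℕ} (K : Finset P)
    (h : ∀ v v' : P, lev v = i → lev v' = i → v ≠ v' →
      (univ.filter (fun y : P => (v ⋖ y ∧ v' ⋖ y) ∧ y ∉ K)).card =
        (univ.filter (fun y : P => (y ⋖ v ∧ y ⋖ v') ∧ y ∉ K)).card) :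
    ∃ psi : P → P, Mat P i K psi := by
  let E : ∀ T : Finset P, BbA_L i K T ≃ BbA_U i K T := fun T =>
    Finset.equivOfCardEq (BbA_card H K h T)
  let psi : P → P := fun x =>
    if h : x ∈ BbA_L i K (uc x) then ((E (uc x) ⟨x, h⟩ : BbA_U i K (uc x)) : P)
    else if h : x ∈ BbA_U i K (dc x) then (((E (dc x)).symm ⟨x, h⟩ : BbA_L i K (dc x)) : P)
    else x
  have hlow : ∀ x ∈ dbL P i, ∀ (h : x ∈ BbA_L i K (uc x)),
      psi x = ((E (uc x) ⟨x, h⟩ : BbA_U i K (uc x)) : P) := by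
    intro x _ h
    exact dif_pos h
  have hnot : ∀ x, x ∈ dbU P i → x ∉ BbA_L i K (uc x) := by
    intro x hx h
    rw [mem_BbA_L, mem_dbL] at h
    rw [mem_dbU] at hx
    omega
  have hupp : ∀ x ∈ dbU P i, ∀ (h : x ∈ BbA_U i K (dc x)),
      psi x = (((E (dc x)).symm ⟨x, h⟩ : BbA_L i K (dc x)) : P) := by
    intro x hx h
    change (if h : x ∈ BbA_L i K (uc x) then ((E (uc x) ⟨x, h⟩ : BbA_U i K (uc x)) : P)
      else if h : x ∈ BbA_U i K (dc x) then (((E (dc x)).symm ⟨x, h⟩ : BbA_L i K (dc x)) : P)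
      else x) = _
    rw [dif_neg (hnot x hx), dif_pos h]
  have hL : ∀ x ∈ dbL P i, x ∉ K → x ∈ BbA_L i K (uc x) := fun x hx hk =>
    mem_BbA_L.2 ⟨hx, rfl, hk⟩
  have hU : ∀ x ∈ dbU P i, x ∉ K → x ∈ BbA_U i K (dc x) := fun x hx hk =>
    mem_BbA_U.2 ⟨hx, rfl, hk⟩
  have low : ∀ x, x ∈ dbL P i → x ∉ K → psi x ∈ dbU P i ∧ dc (psi x) = uc x ∧ psi x ∉ K := by
    intro x hx hk
    rw [hlow x hx (hL x hx hk)]
    exact mem_BbA_U.1 (E (uc x) ⟨x, hL x hx hk⟩).2
  have upp : ∀ x, x ∈ dbU P i → x ∉ K → psi x ∈ dbL P i ∧ uc (psi x) = dc x ∧ psi x ∉ K := by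
    intro x hx hk
    rw [hupp x hx (hU x hx hk)]
    exact mem_BbA_L.1 ((E (dc x)).symm ⟨x, hU x hx hk⟩).2
  have key1 : ∀ (T : Finset P) (u : P) (hT : dc u = T) (h : u ∈ BbA_U i K (dc u))
      (h' : u ∈ BbA_U i K T), (((E (dc u)).symm ⟨u, h⟩ : BbA_L i K (dc u)) : P) =
        (((E T).symm ⟨u, h'⟩ : BbA_L i K T) : P) := by
    rintro T u rfl h h'
    rfl
  have key2 : ∀ (T : Finset P) (w : P) (hT : uc w = T) (h : w ∈ BbA_L i K (uc w))
      (h' : w ∈ BbA_L i K T), ((E (uc w) ⟨w, h⟩ : BbA_U i K (uc w)) : P) =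
        ((E T ⟨w, h'⟩ : BbA_U i K T) : P) := by
    rintro T w rfl h h'
    rfl
  refine ⟨psi, ⟨fun x hx hk => ?_, fun x hx hk => ⟨(low x hx hk).1, (low x hx hk).2.1⟩,
    fun x hx hk => ⟨(upp x hx hk).1, (upp x hx hk).2.1⟩⟩⟩
  rw [Finset.mem_union] at hx
  rcases hx with hx | hx
  · have h1 := low x hx hk
    refine ⟨?_, h1.2.2⟩
    rw [hupp (psi x) h1.1 (hU _ h1.1 h1.2.2)]
    have h2 : psi x ∈ BbA_U i K (uc x) := mem_BbA_U.2 h1
    rw [key1 (uc x) (psi x) h1.2.1 (hU _ h1.1 h1.2.2) h2]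
    have h3 : (⟨psi x, h2⟩ : BbA_U i K (uc x)) = E (uc x) ⟨x, hL x hx hk⟩ :=
      Subtype.ext (hlow x hx (hL x hx hk))
    rw [h3, Equiv.symm_apply_apply]
  · have h1 := upp x hx hk
    refine ⟨?_, h1.2.2⟩
    rw [hlow (psi x) h1.1 (hL _ h1.1 h1.2.2)]
    have h2 : psi x ∈ BbA_L i K (dc x) := mem_BbA_L.2 h1
    rw [key2 (dc x) (psi x) h1.2.1 (hL _ h1.1 h1.2.2) h2]
    have h3 : (⟨psi x, h2⟩ : BbA_L i K (dc x)) = (E (dc x)).symm ⟨x, hU x hx hk⟩ :=
      Subtype.ext (hupp x hx (hU x hx hk))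
    rw [h3, Equiv.apply_symm_apply]

end Pool.Agent.GaussPoset.Win
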