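import Pool.Agent.W_448win_h16.BaC
import Pool.Agent.W_448win_h16.BaE
import Pool.Agent.W_448win_h16.BaF
import Pool.Agent.W_448win_h16.BaH
import Pool.Agent.W_448win_h16.BaJ
import Pool.Agent.W_448win_h16.BaP
import Pool.Agent.W_448win_h16.BaQ

/-! Case R2, numbers. -/

namespace Pool.Agent.GaussPoset.Win

set_option linter.unusedSectionVars false

open Finset

universe u

variable {P : Type u} [Fintype P] [PartialOrder P] [DecidableEq P] {r : ℕ}

/-- Case R2 up to the numbers: `cap_R2`, `PU_R2` (so `PD P (j-1) = ∅` by `good_card`), `cap_adj` (open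
case: no exceptional pair, so `β = 0`), `row_seq`, (31) with `cap_count`, `cnt_R2`:
`∑_(2 ≤ k ≤ m) α k = 0`, `seq_R2`; the first alternative gives a good level by `good_of_row`. -/
theorem open_case (H : Gr P r) (h0 : (lv P 0).card = 1) {j m : ℕ} {e : ℕ → ℕ → P}
    (hm : 3 ≤ m) (hj : m + 1 ≤ j) (hr : 2 * j ≤ r) (hT : Crd (some (m + 1)) j e)
    (hg : Good P (j - 1)) :
    Good P j ∨ (dcv (e (m - 1) (j - (m - 1))) (e m (j - m)) = 2 ∧
      dcv (e (m - 2) (j - (m - 2))) (e (m - 1) (j - (m - 1))) = 0 ∧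
      (∀ k, 1 ≤ k → k + 2 ≤ m → dcv (e (k - 1) (j - (k - 1))) (e k (j - k)) = 1) ∧
      (∀ a b, a < b → b ≤ m → b ≠ a + 1 → dcv (e a (j - a)) (e b (j - b)) = 0)) := by
  have hC := cap_R2 H (by omega) hj hT
  have hU := PU_R2 H (l := j - 1) hj (by omega) hT
  have hgc := good_card H (i := j - 1) (by omega) (by omega) hg
  have hPD : PD P (j - 1) = ∅ := by
    rw [hU, Finset.card_empty, Finset.card_eq_zero] at hgc
    exact hgc
  have hM : m = m ∨ m + 1 = m := Or.inl rfl
  have hadj : ∀ a b, a < b → b ≤ m → b ≠ a + 1 → ¬ (a = 0 ∧ b = m ∧ m + 1 = m) →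
      dcv (e a (j - a)) (e b (j - b)) = 0 := by
    intro a b hab hb hne hc
    refine cap_adj H (by omega) (by omega) hC hM hg ?_ ?_ hab hb hne hc
    · rw [hPD, Finset.card_empty]
      exact Nat.zero_le _
    · rw [hU, Finset.card_empty]
      exact Nat.zero_le _
  have hall : ∀ a b, a < b → b ≤ m → b ≠ a + 1 → dcv (e a (j - a)) (e b (j - b)) = 0 :=
    fun a b hab hb hne => hadj a b hab hb hne (fun h => by omega)
  have hseq := row_seq H (by omega) (by omega) h0 (by omega) hC.row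
    (fun a b hab hb hne _ => hall a b hab hb hne)
  rw [hall 0 m (by omega) le_rfl (by omega), Nat.cast_zero] at hseq
  have hcnt := cap_count H (by omega) (by omega) hC hM hadj
  have h31 := I31 H (i := j - 1) (by omega) (by omega) hg hPD hU
  have h3 := cnt_R2 (P := P) (by omega) hj hT
  have hsum : ∑ k ∈ Icc 2 m, dcv (e (k - 1) (j - (k - 1))) (e k (j - k)) = m - 1 := by
    rw [← hcnt, h31, h3]
  have hz : ∑ k ∈ Icc 2 m,
      ((dcv (e (k - 1) (j - (k - 1))) (e k (j - k)) : ℤ) - 1) = 0 := by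
    rw [Finset.sum_sub_distrib, ← Nat.cast_sum, hsum, Finset.sum_const, Nat.card_Icc]
    simp only [nsmul_eq_mul, mul_one]
    have : m + 1 - 2 = m - 1 := by omega
    rw [this, sub_self]
  rcases seq_R2 hm hseq hz with hzero | ⟨h1, h2, h4⟩
  · left
    refine good_of_row hC.row (fun k h1 h2 => ?_) hall
    have h5 : ((dcv (e (k - 1) (j - (k - 1))) (e k (j - k)) : ℤ) - 1) = 0 := hzero k h1 h2
    omega
  · right
    have h1' : ((dcv (e (m - 1) (j - (m - 1))) (e m (j - m)) : ℤ) - 1) = 1 := h1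
    have h2' : ((dcv (e (m - 1 - 1) (j - (m - 1 - 1))) (e (m - 1) (j - (m - 1))) : ℤ) - 1) =
      -1 := h2
    have e1 : m - 1 - 1 = m - 2 := by omega
    rw [e1] at h2'
    refine ⟨by omega, by omega, fun k hk1 hk2 => ?_, hall⟩
    have h5 : ((dcv (e (k - 1) (j - (k - 1))) (e k (j - k)) : ℤ) - 1) = 0 := h4 k hk1 hk2
    omega

end Pool.Agent.GaussPoset.Win
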