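import Pool.Agent.W_448win_h16.BaA
import Pool.Agent.W_448rot_h96.CompareT1
import Pool.Agent.W_448rot_h96.RefSz

/-! Case S2, sizes. -/

namespace Pool.Agent.GaussPoset.Win

set_option linter.unusedSectionVars false

open Finset

universe u

variable {P : Type u} [Fintype P] [PartialOrder P] [DecidableEq P] {r : ℕ}

open GaussRot in
/-- The cells of the known part. -/
def BbF_CR (m : ℕ) : Finset Cell := (Rs true m (2 * m + 2)).filter (fun p => p.i + p.c ≤ 2 * m + 1)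

open GaussRot in
lemma BbF_mem {m : ℕ} {p : Cell} : p ∈ BbF_CR m ↔ p.i ≤ p.c ∧ p.i + p.c ≤ 2 * m + 1 := by
  unfold BbF_CR
  rw [mem_filter, mem_Rs, reg_true]
  omega

open GaussRot in
lemma BbF_le {m : ℕ} {e : ℕ → ℕ → P} (hT : Crd none (2 * m + 1) e) {p q : Cell}
    (hp : p ∈ BbF_CR m) (hq : q ∈ BbF_CR m) : e p.i p.c ≤ e q.i q.c ↔ p ≤ q := by
  rw [BbF_mem] at hp hq
  rw [hT.le_iff p.i p.c q.i q.c hp.1 hp.2 hq.1 hq.2, cell_le]

open GaussRot in
lemma BbF_memC {m : ℕ} {e : ℕ → ℕ → P} (hT : Crd none (2 * m + 1) e) (z : P) :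
    z ∈ (BbF_CR m).image (fun p => e p.i p.c) ↔ lev z ≤ 2 * m + 1 := by
  rw [mem_image]
  constructor
  · rintro ⟨p, hp, rfl⟩
    rw [BbF_mem] at hp
    rw [hT.lev_e p.i p.c hp.1 hp.2]
    exact hp.2
  · intro hz
    obtain ⟨i, c, h1, h2, rfl⟩ := hT.surj z hz
    exact ⟨⟨i, c⟩, BbF_mem.2 ⟨h1, h2⟩, rfl⟩

open GaussRot in
/-- sizes in the known part -/
lemma BbF_szx {m : ℕ} {e : ℕ → ℕ → P} (hT : Crd none (2 * m + 1) e) {k : ℕ} (hk : k ≤ m) :
    2 * sz (univ : Finset P) (e k (2 * m + 1 - k)) = (k + 1) * (2 * (2 * m + 1 - k) + 2 - k) := by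
  have hp : (⟨k, 2 * m + 1 - k⟩ : Cell) ∈ Rs true m (2 * m + 2) := by
    rw [mem_Rs, reg_true]
    exact ⟨show k ≤ 2 * m + 1 - k by omega, show 2 * m + 1 - k < 2 * m + 2 by omega⟩
  have hR : Rg none k (2 * m + 1 - k) := show k ≤ 2 * m + 1 - k by omega
  have hL : k + (2 * m + 1 - k) ≤ 2 * m + 1 := by omega
  have h1 := sz_stair m (2 * m + 2) hp
  have h2 : sz (univ : Finset P) (e k (2 * m + 1 - k)) =
      sz (Rs true m (2 * m + 2)) (⟨k, 2 * m + 1 - k⟩ : Cell) := by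
    have hsub : ∀ q ∈ upF (Rs true m (2 * m + 2)) (⟨k, 2 * m + 1 - k⟩ : Cell), q ∈ BbF_CR m := by
      intro q hq
      rw [mem_upF, mem_Rs, reg_true, cell_le] at hq
      obtain ⟨⟨a, b⟩, c, d⟩ := hq
      have c' : q.i ≤ k := c
      have d' : q.c ≤ 2 * m + 1 - k := d
      rw [BbF_mem]
      omega
    unfold sz
    have h3 : upF (univ : Finset P) (e k (2 * m + 1 - k)) =
        (upF (Rs true m (2 * m + 2)) (⟨k, 2 * m + 1 - k⟩ : Cell)).image (fun p => e p.i p.c) := by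
      ext y
      rw [mem_upF, mem_image]
      constructor
      · rintro ⟨-, hy⟩
        have h4 := lev_anti hy
        rw [hT.lev_e _ _ hR hL] at h4
        obtain ⟨i, c, h5, h6, rfl⟩ := hT.surj y (by omega)
        rw [hT.le_iff _ _ _ _ hR hL h5 h6] at hy
        have h5' : i ≤ c := h5
        refine ⟨⟨i, c⟩, ?_, rfl⟩
        rw [mem_upF, mem_Rs, reg_true, cell_le]
        exact ⟨⟨h5', show c < 2 * m + 2 by omega⟩, hy⟩
      · rintro ⟨q, hq, rfl⟩
        have h4 := hsub q hq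
        refine ⟨mem_univ _, ?_⟩
        rw [mem_upF] at hq
        rw [BbF_mem] at h4
        rw [hT.le_iff _ _ _ _ hR hL h4.1 h4.2]
        exact hq.2
    rw [h3, card_image_of_injOn]
    intro p hp' q hq' hpq
    have a := hsub p hp'
    have b := hsub q hq'
    exact le_antisymm ((BbF_le hT a b).1 (le_of_eq hpq)) ((BbF_le hT b a).1 (le_of_eq hpq.symm))
  rw [h2, h1]

open GaussRot in
/-- the elements outside the known part are large -/
lemma BbF_out {m : ℕ} {e : ℕ → ℕ → P} (hm : 3 ≤ m) (hT : Crd none (2 * m + 1) e)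
    (hn : ∀ w : P, lev w = 2 * m + 2 → ∃ k, 1 ≤ k ∧ k ≤ m ∧ w < e k (2 * m + 1 - k))
    (z : P) (hz : 2 * m + 2 ≤ lev z) : 2 * m + 5 ≤ sz (univ : Finset P) z := by
  obtain ⟨w, hw1, hw2⟩ := exists_above' hz
  obtain ⟨k, hk1, hk2, hk3⟩ := hn w hw2
  have h1 := BbF_szx hT hk2
  have h2 : sz (univ : Finset P) (e k (2 * m + 1 - k)) < sz (univ : Finset P) z := by
    unfold sz
    apply card_lt_card
    rw [ssubset_iff_of_subset]
    · refine ⟨z, ?_, ?_⟩
      · rw [mem_upF]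
        exact ⟨mem_univ _, le_rfl⟩
      · rw [mem_upF]
        rintro ⟨-, h3⟩
        exact absurd (lt_of_le_of_lt (h3.trans hw1) hk3) (lt_irrefl _)
    · intro y hy
      rw [mem_upF] at hy ⊢
      exact ⟨mem_univ _, (hw1.trans hk3.le).trans hy.2⟩
  obtain ⟨b, hb⟩ : ∃ b, m = k + b := ⟨m - k, by omega⟩
  obtain ⟨a, ha⟩ : ∃ a, k = a + 1 := ⟨k - 1, by omega⟩
  have h3 : 2 * (2 * m + 1 - k) + 2 - k = a + 4 * b + 5 := by omega
  rw [h3] at h1
  have h4 : 4 * m + 8 ≤ (k + 1) * (a + 4 * b + 5) := by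
    have hm' : m = a + 1 + b := by omega
    rw [hm', ha]
    rcases Nat.eq_zero_or_pos a with h0 | h0
    · subst h0
      nlinarith
    · nlinarith [mul_pos h0 h0, Nat.zero_le (a * b)]
  omega

open GaussRot in
/-- the cells outside the known part are large -/
lemma BbF_outR {m : ℕ} (hm : 3 ≤ m) {p : Cell} (hp : p ∈ Rs true m (2 * m + 2))
    (hn : p ∉ BbF_CR m) : 2 * m + 5 ≤ sz (Rs true m (2 * m + 2)) p := by
  have h1 := sz_stair m (2 * m + 2) hp
  rw [mem_Rs, reg_true] at hp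
  rw [BbF_mem] at hn
  obtain ⟨hp1, hp2⟩ := hp
  obtain ⟨d, hd⟩ : ∃ d, p.c = p.i + d := ⟨p.c - p.i, by omega⟩
  have h2 : 2 * p.c + 2 - p.i = p.i + 2 * d + 2 := by omega
  rw [h2] at h1
  have h3 : 2 * m + 2 ≤ 2 * p.i + d := by omega
  have key : 4 * m + 10 ≤ (p.i + 1) * (p.i + 2 * d + 2) := by
    by_cases h7 : p.i ≤ m + 1
    · obtain ⟨b, hb⟩ : ∃ b, m + 1 = p.i + b := ⟨m + 1 - p.i, by omega⟩
      have h8 : 2 * b ≤ d := by omega
      have h9 : (p.i + 1) * (p.i + 4 * b + 2) ≤ (p.i + 1) * (p.i + 2 * d + 2) :=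
        Nat.mul_le_mul_left _ (by omega)
      refine le_trans ?_ h9
      obtain ⟨a, ha⟩ : ∃ a, p.i = a + 1 := ⟨p.i - 1, by omega⟩
      have hm' : m = a + b := by omega
      rw [hm', ha]
      rcases Nat.eq_zero_or_pos a with h0 | h0
      · subst h0
        nlinarith
      · rcases Nat.eq_zero_or_pos (a - 1) with h10 | h10
        · have h11 : a = 1 := by omega
          subst h11
          nlinarith
        · obtain ⟨a', ha'⟩ : ∃ a', a = a' + 2 := ⟨a - 2, by omega⟩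
          subst ha'
          nlinarith [Nat.zero_le (a' * b), Nat.zero_le (a' * a')]
    · obtain ⟨a, ha⟩ : ∃ a, p.i = m + 2 + a := ⟨p.i - (m + 2), by omega⟩
      rw [ha]
      nlinarith [Nat.zero_le (m * a), Nat.zero_le (a * a), Nat.zero_le (m * d), Nat.zero_le (a * d)]
  omega

open GaussRot in
lemma BbF_count {m : ℕ} :
    ((Rs true m (2 * m + 2)).filter (fun p => p.i + p.c + 1 = 2 * m + 4)).card = m := by
  have h1 : (Rs true m (2 * m + 2)).filter (fun p => p.i + p.c + 1 = 2 * m + 4) =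
      (range m).image (fun j => (⟨j + 2, 2 * m + 1 - j⟩ : Cell)) := by
    ext ⟨i, c⟩
    rw [mem_filter, mem_Rs, reg_true, mem_image]
    constructor
    · rintro ⟨⟨a, b⟩, c'⟩
      have a' : i ≤ c := a
      have b' : c < 2 * m + 2 := b
      have c'' : i + c + 1 = 2 * m + 4 := c'
      refine ⟨i - 2, mem_range.2 (by omega), ?_⟩
      rw [Cell.mk.injEq]
      omega
    · rintro ⟨j, hj, h⟩
      rw [mem_range] at hj
      rw [Cell.mk.injEq] at h
      refine ⟨⟨show i ≤ c by omega, show c < 2 * m + 2 by omega⟩,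
        show i + c + 1 = 2 * m + 4 by omega⟩
  rw [h1, card_image_of_injOn, card_range]
  intro j _ j' _ h
  have h' : (⟨j + 2, 2 * m + 1 - j⟩ : Cell) = ⟨j' + 2, 2 * m + 1 - j'⟩ := h
  rw [Cell.mk.injEq] at h'
  omega

open GaussRot in
/-- The next level sizes if no element of level `2m + 2` is only below `x_0`: `comparison` (CompareT1) with
`k = true`, `L = 2m + 2`, `C` the elements of level at most `2m + 1`, `C'` the cells with
`i + c ≤ 2m + 1` (the map `p ↦ e p.i p.c` is an isomorphism `C' → C`, `AF_image`; all cells `i ≤ c`,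
`i + c ≤ 2m + 1` have `c < L`), `s = 2m + 5`. Sizes in `P`: an element outside `C` is below an element of level
`2m + 2` (or equal to it), which is below some `x_k`, `1 ≤ k ≤ m`
(hypothesis `hn`), so its size is at least `sz x_k + 1`, and `2 * sz x_k = (k+1)(2(2m+1-k) + 2 - k)`,
which is at least `min (8m+2) ((m+1)(m+4)) ≥ 4m + 8` for `m ≥ 3`. Sizes of the cells outside `C'`: `sz_stair`, `c ≤ 2m + 1`, `i ≥ 1`,
`i + c ≥ 2m + 2`: the double size is at least `min (8m+6) ((m+2)(m+3)) ≥ 4m + 10`. First conclusion with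
`l = 2m + 4` and `card_lev_succ`: `b_(2m+3)` is the number of cells `i ≤ c ≤ 2m + 1`, `i + c = 2m + 3`, i.e.
`2 ≤ i ≤ m + 1`. -/
theorem size_S2 (H : Gr P r) {m : ℕ} {e : ℕ → ℕ → P} (hm : 3 ≤ m)
    (hT : Crd none (2 * m + 1) e)
    (hn : ∀ w : P, lev w = 2 * m + 2 → ∃ k, 1 ≤ k ∧ k ≤ m ∧ w < e k (2 * m + 1 - k)) :
    (lv P (2 * m + 3)).card = m := by
  have hA : AF ((BbF_CR m).image (fun p => e p.i p.c)) = AF (BbF_CR m) :=
    AF_image fun p hp q hq => BbF_le hT hp hq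
  have hC : (BbF_CR m).image (fun p => e p.i p.c) ∈ J (univ : Finset P) := by
    rw [mem_J]
    refine ⟨subset_univ _, fun x hx y _ hxy => ?_⟩
    rw [BbF_memC hT] at hx ⊢
    exact (lev_anti hxy).trans hx
  have hC' : BbF_CR m ∈ J (Rs true m (2 * m + 2)) := by
    rw [mem_J]
    refine ⟨filter_subset _ _, fun x hx y hy hxy => ?_⟩
    rw [BbF_mem] at hx ⊢
    rw [mem_Rs, reg_true] at hy
    rw [cell_le] at hxy
    omega
  have h1 := (comparison H.gauss true m (2 * m + 2) _ (BbF_CR m) hC hC' hA (2 * m + 5) (by omega)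
    (fun z hz => BbF_out hm hT hn z (by
      rw [BbF_memC hT] at hz
      omega))
    (fun p hp hq => BbF_outR hm hp hq)).1 (2 * m + 4) (by omega)
  rw [BbF_count] at h1
  rw [← card_lev_succ]
  exact h1

end Pool.Agent.GaussPoset.Win
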