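import Pool.Agent.W_448win_h16.BaC
import Pool.Agent.W_448win_h16.BaP
import Pool.Agent.W_448win_h16.PlFinal
import Pool.Agent.W_448win_h16.E2Final

/-! Case S2, the pendant. -/

namespace Pool.Agent.GaussPoset.Win

set_option linter.unusedSectionVars false

open Finset

universe u

variable {P : Type u} [Fintype P] [PartialOrder P] [DecidableEq P] {r : ℕ}

/-- There is a pendant, under `x_m` or `x_(m-1)`. `PU P (2m) = {(m-1, m-1)}` (`PU_S2`), so `PD P (2m)` has one
element `z` (`good_card`); its upper cover is double-up, so it is `x_k` with `k ≥ 1` (`x_0` has only one upper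
cover, `Cap.cov` for `cap_S2`), and (42) gives `v` of level `2m` with `z < v < (m-1, m-1)`:
`v` is an upper cover of `x_k`, i.e. `y_(k-1)` or `y_k`, and it is below `(m-1, m-1)`, i.e. `y_(m-1)` or
`y_m` (`le_iff`). So `k = m` or `k = m - 1`. -/
theorem S2_pend (H : Gr P r) {m : ℕ} {e : ℕ → ℕ → P} (hm : 3 ≤ m) (hr : 4 * m + 2 ≤ r)
    (hT : Crd none (2 * m + 1) e) (hg : Good P (2 * m)) :
    ∃ z k, (k = m ∨ k = m - 1) ∧ PD P (2 * m) = {z} ∧ uc z = {e k (2 * m + 1 - k)} := by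
  classical
  have hPU := PU_S2 H (by omega : 1 ≤ m) hT
  have hcard := good_card H (by omega : 1 ≤ 2 * m) (by omega : 2 * m + 1 ≤ r) hg
  rw [hPU, Finset.card_singleton] at hcard
  obtain ⟨z, hz⟩ := Finset.card_eq_one.1 hcard
  have hcap := cap_S2 H (by omega : 1 ≤ m) hT
  have hzPD : z ∈ PD P (2 * m) := by rw [hz]; exact Finset.mem_singleton_self z
  have hzPD' := hzPD
  unfold PD at hzPD'
  rw [Finset.mem_filter] at hzPD'
  obtain ⟨_, hlz, hucz, w, hzw, hw2⟩ := hzPD'
  have hlw : lev w = 2 * m + 1 := by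
    have := (H.covBy_iff.1 hzw).2
    omega
  obtain ⟨k, hk, hkw⟩ := hcap.row.surj w hlw
  have huc : uc z = {w} := by
    obtain ⟨w', hw'⟩ := Finset.card_eq_one.1 hucz
    have h1 : w ∈ uc z := mem_uc.2 hzw
    rw [hw', Finset.mem_singleton] at h1
    rw [hw', h1]
  obtain ⟨_, _, h42⟩ := I42 H (by omega : 1 ≤ 2 * m) (by omega : 2 * m + 1 ≤ r) hg
    (by rw [hz, Finset.card_singleton]) (by rw [hPU, Finset.card_singleton])
  obtain ⟨v, hlv, hzv, hvx⟩ := h42 z hzPD (e (m - 1) (m - 1))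
    (by rw [hPU]; exact Finset.mem_singleton_self _)
  obtain ⟨a, ha, hav⟩ := hcap.surj_y v (by omega)
  have ha2 : 2 * m + 1 - 1 - a = 2 * m - a := by omega
  -- `w ⋖ v`
  have hwv : w ⋖ v := by
    obtain ⟨w', hzw', hw'v⟩ := exists_covBy_le_of_lt hzv
    have h1 : w' ∈ uc z := mem_uc.2 hzw'
    rw [huc, Finset.mem_singleton] at h1
    subst h1
    rw [H.covBy_iff]
    refine ⟨lt_of_le_of_ne hw'v ?_, by omega⟩
    rintro rfl
    omega
  rw [← hkw, ← hav, hcap.cov k hk a ha] at hwv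
  rw [← hav, ha2] at hvx
  have hle := (hT.le_iff a (2 * m - a) (m - 1) (m - 1) (show a ≤ 2 * m - a by omega)
    (by omega) (show m - 1 ≤ m - 1 from le_rfl) (by omega)).1 hvx.le
  refine ⟨z, k, by omega, hz, ?_⟩
  rw [huc, hkw]

end Pool.Agent.GaussPoset.Win
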