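import Pool.Agent.W_448win_h16.FactA
import Pool.Agent.W_448win_h16.RkC

/-! Single near elements. -/

namespace Pool.Agent.GaussPoset.Win

set_option linter.unusedSectionVars false

open Finset

universe u

variable {P : Type u} [Fintype P] [PartialOrder P] [DecidableEq P] {r : ℕ}

/-- A lower near element with one site `p`: `wtL e w a` is `1` if `a ≤ e p` and
`dd * [p ∈ S]` if `e p < a` (`Rk_chi` with `B = {p}`, `p = 1`). -/
theorem single_L (H : Gr P r) {i : ℕ} {e : P → ℕ} {w : P} (hw : lev w = i + 1)
    (h1 : (uc w).card = 1) (a : ℕ) : Rk (lv P i) 0 (wtL e w a) := by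
  classical
  obtain ⟨p, hp⟩ := Finset.card_eq_one.mp h1
  have hpl : p ∈ lv P i := by
    have h2 := lev_uc H (x := w) (v := p) (by rw [hp]; exact mem_singleton_self p)
    rw [mem_lv]
    omega
  by_cases hc : e p < a
  · refine Rk_congr (f := fun S => dd * chi {p} ∅ S) (fun S _ => ?_)
      (Rk_chi (p := 1) (singleton_subset_iff.mpr hpl) (empty_subset _) (by simp) (by simp))
    unfold wtL chi
    rw [hp]
    simp only [mem_singleton, forall_eq, hc, if_true, true_implies, singleton_subset_iff,
      disjoint_empty_left, and_true]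
  · refine Rk_congr (f := fun _ => 1) (fun S _ => ?_) (Rk_const _ 0 1)
    unfold wtL
    rw [hp]
    simp only [mem_singleton, forall_eq, hc, if_false, false_implies, if_true, mul_one]

/-- mirror image of `single_L` -/
theorem single_U (H : Gr P r) {i : ℕ} {e : P → ℕ} {u : P} (hu : lev u + 1 = i)
    (h1 : (dc u).card = 1) (b : ℕ) : Rk (lv P i) 0 (wtU e u b) := by
  classical
  obtain ⟨p, hp⟩ := Finset.card_eq_one.mp h1
  have hpl : p ∈ lv P i := by
    have h2 := lev_dc H (x := u) (v := p) (by rw [hp]; exact mem_singleton_self p)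
    rw [mem_lv]
    omega
  by_cases hc : e p < b
  · refine Rk_congr (f := fun S => (xi * dd) * chi ∅ {p} S) (fun S _ => ?_)
      (Rk_chi (p := 1) (empty_subset _) (singleton_subset_iff.mpr hpl) (by simp) (by
        rw [pow_one]
        exact Dvd.intro_left _ rfl))
    unfold wtU chi
    rw [hp]
    simp only [mem_singleton, forall_eq, hc, if_true, true_implies, empty_subset,
      disjoint_singleton_left, true_and]
  · refine Rk_congr (f := fun _ => 1) (fun S _ => ?_) (Rk_const _ 0 1)
    unfold wtU
    rw [hp]
    simp only [mem_singleton, forall_eq, hc, if_false, false_implies, if_true, mul_one]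

end Pool.Agent.GaussPoset.Win
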