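import Pool.Agent.W_448win_h16.FactD
import Pool.Agent.W_448win_h16.FactE
import Pool.Agent.W_448win_h16.RkB
import Pool.Agent.W_448win_h16.LowC

/-! Weights of near elements. -/

namespace Pool.Agent.GaussPoset.Win

set_option linter.unusedSectionVars false

open Finset

universe u

variable {P : Type u} [Fintype P] [PartialOrder P] [DecidableEq P] {r : ℕ}

/-- all labels below and above the window are zero: all data are trivial (`low_none`, `upp_none`) -/
theorem Fe_sites (H : Gr P r) {i : ℕ} (hi : i ≤ r) {e : P → ℕ} (h : ∀ z, lev z ≠ i → e z = 0)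
    (S : Finset P) : Fe i e S = 1 := by
  obtain ⟨a1, a2, a3, a4⟩ := low_none H (i := i) (e := e) (fun z hz => h z (by omega))
  obtain ⟨b1, b2, b3, b4⟩ := upp_none H hi (e := e) (fun z hz => h z (by omega))
  unfold Fe cw chi
  rw [if_pos ⟨a1, b1⟩, a2, a3, a4, b2, b3, b4]
  simp

/-- `wt i e x 0 = 1` for a near element (`uc_nonempty`, `dc_nonempty`) -/
theorem wt_zero (H : Gr P r) {i : ℕ} (hi : i ≤ r) {x : P} (hx : x ∈ near P i) (e : P → ℕ)
    (S : Finset P) : wt i e x 0 S = 1 := by
  unfold wt
  rw [mem_near] at hx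
  split_ifs with h
  · unfold wtL
    obtain ⟨v, hv⟩ := uc_nonempty H (x := x) (by omega)
    rw [if_neg (fun h1 => absurd (h1 v hv) (Nat.not_lt_zero _)),
      if_pos (fun v _ h1 => absurd h1 (Nat.not_lt_zero _)), mul_one]
  · unfold wtU
    obtain ⟨v, hv⟩ := dc_nonempty H (x := x) (by omega)
    rw [if_neg (fun h1 => absurd (h1 v hv) (Nat.not_lt_zero _)),
      if_pos (fun v _ h1 => absurd h1 (Nat.not_lt_zero _)), mul_one]

lemma ExpA_wtL {e : P → ℕ} {w : P} {a : ℕ} (S : Finset P) :
    wtL e w a S = (if ∀ v ∈ uc w, e v < a then dd else 1) *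
      chi ((uc w).filter (fun v => e v < a)) ∅ S := by
  unfold wtL chi
  congr 1
  refine if_congr ?_ rfl rfl
  constructor
  · intro h
    refine ⟨fun v hv => ?_, Finset.disjoint_empty_left _⟩
    rw [Finset.mem_filter] at hv
    exact h v hv.1 hv.2
  · intro h v hv hv2
    exact h.1 (Finset.mem_filter.2 ⟨hv, hv2⟩)

lemma ExpA_wtU {e : P → ℕ} {u : P} {b : ℕ} (S : Finset P) :
    wtU e u b S = (if ∀ v ∈ dc u, e v < b then xi * dd else 1) *
      chi ∅ ((dc u).filter (fun v => e v < b)) S := by
  unfold wtU chi
  congr 1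
  refine if_congr ?_ rfl rfl
  constructor
  · intro h
    refine ⟨Finset.empty_subset _, ?_⟩
    rw [Finset.disjoint_left]
    intro v hv
    rw [Finset.mem_filter] at hv
    exact h v hv.1 hv.2
  · intro h v hv hv2
    exact Finset.disjoint_left.1 h.2 (Finset.mem_filter.2 ⟨hv, hv2⟩)

lemma ExpA_wt_low {i : ℕ} {x : P} (hx : lev x = i + 1) (e : P → ℕ) (a : ℕ) :
    wt i e x a = wtL e x a := by
  funext S
  unfold wt
  rw [if_pos hx]

lemma ExpA_wt_upp {i : ℕ} {x : P} (hx : lev x + 1 = i) (e : P → ℕ) (a : ℕ) :
    wt i e x a = wtU e x a := by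
  funext S
  unfold wt
  rw [if_neg (by omega)]

/-- A near element costs at most one deficit. Lower element with sites `p, q`: with
`m = min (e p) (e q)`, `M = max`, the weight is `1`, a `chi` of one site, or `dd` times `chi` of two
sites (`Rk_chi`). One site: `single_L`, `single_U` and `Rk_mono`. -/
theorem wt_Rk (H : Gr P r) {i : ℕ} (hi : 1 ≤ i) (hi2 : i + 1 ≤ r) {x : P} (hx : x ∈ near P i)
    (e : P → ℕ) (a : ℕ) : Rk (lv P i) 1 (wt i e x a) := by
  rw [mem_near] at hx
  rcases hx with hx | hx
  · rw [ExpA_wt_low hx]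
    have hc := uc_card_le H x
    have hsub : (uc x).filter (fun v => e v < a) ⊆ lv P i := by
      intro v hv
      rw [Finset.mem_filter] at hv
      have := lev_uc H hv.1
      rw [mem_lv]; omega
    by_cases h : ∀ v ∈ uc x, e v < a
    · refine Rk_congr (f := fun S => dd * chi ((uc x).filter (fun v => e v < a)) ∅ S) ?_ ?_
      · intro S _
        rw [ExpA_wtL, if_pos h]
      · refine Rk_chi (p := 1) hsub (Finset.empty_subset _) ?_ (by rw [pow_one])
        have := Finset.card_filter_le (uc x) (fun v => e v < a)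
        rw [Finset.card_empty]
        omega
    · refine Rk_congr (f := fun S => 1 * chi ((uc x).filter (fun v => e v < a)) ∅ S) ?_ ?_
      · intro S _
        rw [ExpA_wtL, if_neg h]
      · refine Rk_chi (p := 0) hsub (Finset.empty_subset _) ?_ (by rw [pow_zero])
        have h2 : (uc x).filter (fun v => e v < a) ⊂ uc x := by
          rw [Finset.filter_ssubset]
          push Not at h
          obtain ⟨v, hv, hv2⟩ := h
          exact ⟨v, hv, by omega⟩
        have := Finset.card_lt_card h2
        rw [Finset.card_empty]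
        omega
  · rw [ExpA_wt_upp hx]
    have hc := dc_card_le H x
    have hsub : (dc x).filter (fun v => e v < a) ⊆ lv P i := by
      intro v hv
      rw [Finset.mem_filter] at hv
      have := lev_dc H hv.1
      rw [mem_lv]; omega
    by_cases h : ∀ v ∈ dc x, e v < a
    · refine Rk_congr (f := fun S => (xi * dd) * chi ∅ ((dc x).filter (fun v => e v < a)) S) ?_ ?_
      · intro S _
        rw [ExpA_wtU, if_pos h]
      · refine Rk_chi (p := 1) (Finset.empty_subset _) hsub ?_ ?_
        · have := Finset.card_filter_le (dc x) (fun v => e v < a)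
          rw [Finset.card_empty]
          omega
        · rw [pow_one]
          exact Dvd.intro_left _ rfl
    · refine Rk_congr (f := fun S => 1 * chi ∅ ((dc x).filter (fun v => e v < a)) S) ?_ ?_
      · intro S _
        rw [ExpA_wtU, if_neg h]
      · refine Rk_chi (p := 0) (Finset.empty_subset _) hsub ?_ (by rw [pow_zero])
        have h2 : (dc x).filter (fun v => e v < a) ⊂ dc x := by
          rw [Finset.filter_ssubset]
          push Not at h
          obtain ⟨v, hv, hv2⟩ := h
          exact ⟨v, hv, by omega⟩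
        have := Finset.card_lt_card h2
        rw [Finset.card_empty]
        omega

/-- a single near element costs nothing -/
theorem wt_Rk_single (H : Gr P r) {i : ℕ} (hi : 1 ≤ i) (hi2 : i + 1 ≤ r) {x : P}
    (hx : x ∈ near P i) (h1 : x ∉ dbL P i ∪ dbU P i) (e : P → ℕ) (a : ℕ) :
    Rk (lv P i) 0 (wt i e x a) := by
  rw [Finset.mem_union, mem_dbL, mem_dbU] at h1
  push Not at h1
  rw [mem_near] at hx
  rcases hx with hx | hx
  · rw [ExpA_wt_low hx]
    have h2 := h1.1 hx
    have h3 := uc_card_le H x
    have h4 := Finset.card_pos.2 (uc_nonempty H (x := x) (by omega))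
    exact single_L H hx (by omega) a
  · rw [ExpA_wt_upp hx]
    have h2 := h1.2 hx
    have h3 := dc_card_le H x
    have h4 := Finset.card_pos.2 (dc_nonempty H (x := x) (by omega))
    exact single_U H hx (by omega) a

/-- the labels on `R` set to zero -/
def er (R : Finset P) (e : P → ℕ) : P → ℕ := fun x => if x ∈ R then 0 else e x

/-- `fact_many` for `er R e` and `l` the restriction of `e` to `R` -/
theorem peel (H : Gr P r) {i : ℕ} (hi : i ≤ r) {R : Finset P} (hR : R ⊆ near P i) {e : P → ℕ}
    (hT : ∀ x ∈ R, x ∉ Tch i e) (S : Finset P) :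
    Fe i e S = Fe i (er R e) S * ∏ x ∈ R, wt i e x (e x) S := by
  have hsum : er R e + (fun x => if x ∈ R then e x else 0) = e := by
    funext x
    rw [Pi.add_apply]
    unfold er
    by_cases h : x ∈ R
    · rw [if_pos h, if_pos h, zero_add]
    · rw [if_neg h, if_neg h, add_zero]
  have hpos : ∀ x, 0 < er R e x → 0 < e x := by
    intro x hx
    unfold er at hx
    split_ifs at hx with h
    · exact absurd hx (lt_irrefl _)
    · exact hx
  have h1 := fact_many H hi (e := er R e) R hR
    (by
      intro x hx hx2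
      refine hT x hx ?_
      rw [mem_Tch] at hx2 ⊢
      rcases hx2 with ⟨h1, z, h2, h3⟩ | ⟨h1, y, h2, h3⟩
      · exact Or.inl ⟨h1, z, h2, hpos z h3⟩
      · exact Or.inr ⟨h1, y, h2, hpos y h3⟩)
    (by
      intro x hx
      unfold er
      rw [if_pos hx])
    (fun x => if x ∈ R then e x else 0)
    (by
      intro x hx
      change (if x ∈ R then e x else 0) = 0
      rw [if_neg hx]) S
  rw [hsum] at h1
  rw [h1]
  congr 1
  refine Finset.prod_congr rfl fun x hx => ?_
  have h2 : (if x ∈ R then e x else 0) = e x := if_pos hx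
  change wt i (er R e) x (if x ∈ R then e x else 0) S = wt i e x (e x) S
  rw [h2]
  have hsite : ∀ v : P, lev v = i → er R e v = e v := by
    intro v hv
    unfold er
    rw [if_neg]
    intro hvR
    have := mem_near.1 (hR hvR)
    omega
  have hxn := mem_near.1 (hR hx)
  unfold wt
  split_ifs with h3
  · have hu : ∀ v ∈ uc x, er R e v = e v := fun v hv => hsite v (by
      have := lev_uc H hv
      omega)
    unfold wtL
    congr 1
    · refine if_congr (forall₂_congr fun v hv => ?_) rfl rfl
      rw [hu v hv]
    · refine if_congr (forall₂_congr fun v hv => ?_) rfl rfl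
      rw [hu v hv]
  · have hu : ∀ v ∈ dc x, er R e v = e v := fun v hv => hsite v (by
      have := lev_dc H hv
      omega)
    unfold wtU
    congr 1
    · refine if_congr (forall₂_congr fun v hv => ?_) rfl rfl
      rw [hu v hv]
    · refine if_congr (forall₂_congr fun v hv => ?_) rfl rfl
      rw [hu v hv]

end Pool.Agent.GaussPoset.Win
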