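import Pool.Agent.W_448win_h16.CoreB
import Pool.Agent.W_448win_h16.ExpA
import Pool.Agent.W_448win_h16.LowB
import Pool.Agent.W_448win_h16.DualC

/-! The bad window: structure, cores. -/

namespace Pool.Agent.GaussPoset.Win

set_option linter.unusedSectionVars false

open Finset OrderDual

universe u

variable {P : Type u} [Fintype P] [PartialOrder P] [DecidableEq P] {r : ℕ}

/-- the bad window (symmetric part of the hypotheses) -/
structure BadW (P : Type u) [Fintype P] [PartialOrder P] [DecidableEq P] (j : ℕ)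
    (w0 u0 p q s : P) (psi : P → P) : Prop where
  hw : lev w0 = j + 1
  hu : lev u0 + 1 = j
  pq : p ≠ q
  qs : q ≠ s
  ps : p ≠ s
  w2 : uc w0 = {p, q}
  u2 : dc u0 = {q, s}
  mat : Mat P j {w0, u0} psi
  hD : PD P j = ∅
  hU : PU P j = ∅

/-- the dual of a bad window: `lev_od`, `uc_od`, `dc_od`, `Mat_od` (`{w0, u0}` is the unordered pair),
`PD_od` -/
theorem BadW.dual (H : Gr P r) {j : ℕ} (hj : j ≤ r) {w0 u0 p q s : P} {psi : P → P}
    (B : BadW P j w0 u0 p q s psi) :
    BadW Pᵒᵈ (r - j) (toDual u0) (toDual w0) (toDual s) (toDual q) (toDual p)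
      (fun y => toDual (psi (ofDual y))) := by
  classical
  have h1 := lev_od H u0
  have h2 := lev_od H w0
  have h3 := B.hw
  have h4 := B.hu
  have h5 := H.lev_le w0
  have h6 := H.lev_le u0
  refine ⟨by omega, by omega, ?_, ?_, ?_, ?_, ?_, ?_, ?_, ?_⟩
  · exact fun h => B.qs (toDual.injective h).symm
  · exact fun h => B.pq (toDual.injective h).symm
  · exact fun h => B.ps (toDual.injective h).symm
  · rw [uc_od, B.u2]
    ext y
    rw [DualC_mem_map, Finset.mem_insert, Finset.mem_singleton, Finset.mem_insert,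
      Finset.mem_singleton]
    exact or_comm
  · rw [dc_od, B.w2]
    ext y
    rw [DualC_mem_map, Finset.mem_insert, Finset.mem_singleton, Finset.mem_insert,
      Finset.mem_singleton]
    exact or_comm
  · have h7 := Mat_od H hj B.mat
    have h8 : ({w0, u0} : Finset P).map toDual.toEmbedding = {toDual u0, toDual w0} := by
      ext y
      rw [DualC_mem_map, Finset.mem_insert, Finset.mem_singleton, Finset.mem_insert,
        Finset.mem_singleton]
      exact or_comm
    rw [h8] at h7
    exact h7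
  · rw [(PD_od H hj).1, B.hU, Finset.map_empty]
  · rw [(PD_od H hj).2, B.hD, Finset.map_empty]

/-- in a core a near element with positive label is in `K`, or touched, or double with a touched partner
(as `core_near`) -/
theorem core_near' {i : ℕ} {K : Finset P} {psi : P → P} {e : P → ℕ}
    (hc : IsCore i K psi e) {x : P} (hx : x ∈ near P i) (he : e x ≠ 0) :
    x ∈ K ∨ x ∈ Tch i e ∨ (x ∈ dbL P i ∪ dbU P i ∧ psi x ∈ Tch i e) := by
  by_contra hcon
  push Not at hcon
  exact he (hc x (mem_Rst.mpr ⟨hx, hcon.1, hcon.2.1, fun h => hcon.2.2 h.1 h.2⟩))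

/-- `Tch` is the union of `TL` and `TU` -/
theorem Tch_eq (i : ℕ) (e : P → ℕ) : Tch i e = TL i e ∪ TU i e := by
  ext x
  rw [mem_Tch, Finset.mem_union, LowB_TL, LowB_TU]

/-- the two weights together cost at most two (`wt_Rk`, `Rk_mul`; `wt` is `wtL` resp. `wtU` by the levels) -/
theorem wts_two (H : Gr P r) {j : ℕ} (hj : 1 ≤ j) (hj2 : j + 1 ≤ r) {w0 u0 p q s : P}
    {psi : P → P} (B : BadW P j w0 u0 p q s psi) (e : P → ℕ) (a b : ℕ) :
    Rk (lv P j) 2 (fun S => wtL e w0 a S * wtU e u0 b S) := by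
  have h1 := wt_Rk H hj hj2 (x := w0) (mem_near.2 (Or.inl B.hw)) e a
  have h2 := wt_Rk H hj hj2 (x := u0) (mem_near.2 (Or.inr B.hu)) e b
  rw [ExpA_wt_low B.hw] at h1
  rw [ExpA_wt_upp B.hu] at h2
  exact Rk_mul h1 h2

/-- if one of the labels is zero they cost at most one (`wtL e w0 0 S = 1`, `wtU e u0 0 S = 1`) -/
theorem wts_one (H : Gr P r) {j : ℕ} (hj : 1 ≤ j) (hj2 : j + 1 ≤ r) {w0 u0 p q s : P}
    {psi : P → P} (B : BadW P j w0 u0 p q s psi) (e : P → ℕ) {a b : ℕ} (h : a = 0 ∨ b = 0) :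
    Rk (lv P j) 1 (fun S => wtL e w0 a S * wtU e u0 b S) := by
  have n1 : w0 ∈ near P j := mem_near.2 (Or.inl B.hw)
  have n2 : u0 ∈ near P j := mem_near.2 (Or.inr B.hu)
  have h1 := wt_Rk H hj hj2 n1 e a
  have h2 := wt_Rk H hj hj2 n2 e b
  rw [ExpA_wt_low B.hw] at h1
  rw [ExpA_wt_upp B.hu] at h2
  rcases h with rfl | rfl
  · refine Rk_congr (fun S _ => ?_) h2
    have h3 := wt_zero H (by omega : j ≤ r) n1 e S
    rw [ExpA_wt_low B.hw] at h3
    rw [h3, one_mul]
  · refine Rk_congr (fun S _ => ?_) h1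
    have h3 := wt_zero H (by omega : j ≤ r) n2 e S
    rw [ExpA_wt_upp B.hu] at h3
    rw [h3, mul_one]

/-- if both labels are positive and the common site `q` has label zero the product vanishes: `q ∈ S` and
`q ∉ S` -/
theorem wts_zero {j : ℕ} {w0 u0 p q s : P} {psi : P → P} (B : BadW P j w0 u0 p q s psi)
    (e : P → ℕ) {a b : ℕ} (ha : 0 < a) (hb : 0 < b) (hq : e q = 0) (S : Finset P) :
    wtL e w0 a S * wtU e u0 b S = 0 := by
  by_cases hS : q ∈ S
  · have h1 : wtU e u0 b S = 0 := by
      unfold wtU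
      rw [if_neg (c := ∀ v ∈ dc u0, e v < b → v ∉ S), mul_zero]
      intro h
      refine h q ?_ (by rw [hq]; exact hb) hS
      rw [B.u2]
      exact Finset.mem_insert_self _ _
    rw [h1, mul_zero]
  · have h1 : wtL e w0 a S = 0 := by
      unfold wtL
      rw [if_neg (c := ∀ v ∈ uc w0, e v < a → v ∈ S), mul_zero]
      intro h
      refine hS (h q ?_ (by rw [hq]; exact ha))
      rw [B.w2]
      exact Finset.mem_insert_of_mem (Finset.mem_singleton_self _)
    rw [h1, zero_mul]

end Pool.Agent.GaussPoset.Win
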