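import Pool.Agent.W_448win_h16.LowC
import Pool.Agent.W_448win_h16.RkC

/-! One touched element. -/

namespace Pool.Agent.GaussPoset.Win

set_option linter.unusedSectionVars false

open Finset

universe u

variable {P : Type u} [Fintype P] [PartialOrder P] [DecidableEq P] {r : ℕ}

/-- a filtered set which is not the whole set is smaller -/
lemma expb_card {s : Finset P} {p : P → Prop} [DecidablePred p] (h : ¬ ∀ v ∈ s, p v) :
    (s.filter p).card < s.card := by
  apply Finset.card_lt_card
  rw [Finset.filter_ssubset]
  push Not at h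
  exact h

/-- One touched lower near element, no other positive near label, nothing above: `low_one` and
`upp_none`; `|AL| ≤ 2` and if `AL` is all of `uc w` then `pL ≥ 1`, so the configuration is cheap. If `w` is
single then `|AL| ≤ 1` and `|AL| = 1` implies `pL ≥ 1`. -/
theorem one_touched (H : Gr P r) {i : ℕ} (hi : i ≤ r) {e : P → ℕ} {w : P}
    (hw : lev w = i + 1) (h1 : ∀ x ∈ near P i, x ≠ w → e x = 0)
    (h2 : ∀ x, lev x + 2 ≤ i → e x = 0) :
    Rk (lv P i) 1 (Fe i e) ∧ ((uc w).card = 1 → Rk (lv P i) 0 (Fe i e)) := by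
  classical
  obtain ⟨hAL, hpL⟩ := low_one H hw (fun w' hw' hne => h1 w' (mem_near.2 (Or.inl hw')) hne)
  obtain ⟨hAdm, hAU, haU, hpU⟩ := upp_none H hi (e := e) (fun z hz => by
    rcases Nat.lt_or_ge (lev z + 1) i with h | h
    · exact h2 z h
    · refine h1 z (mem_near.2 (Or.inr (by omega))) ?_
      rintro rfl
      omega)
  have hc := uc_card_le H w
  have hAUc : (AU i e).card = 0 := by rw [hAU]; rfl
  by_cases hall : ∀ v ∈ uc w, e v < e w
  · have hp := hpL hall
    have hle : (AL i e).card ≤ (uc w).card := by
      rw [hAL]; exact Finset.card_filter_le _ _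
    constructor
    · apply Rk_of_cheap
      right; right; right
      omega
    · intro hs
      apply Rk_of_cheap
      right; right; right
      omega
  · have hlt : (AL i e).card < (uc w).card := by
      rw [hAL]; exact expb_card hall
    constructor
    · apply Rk_of_cheap
      right; right; right
      omega
    · intro hs
      apply Rk_of_cheap
      right; right; right
      omega

/-- One touched lower near element `w` with its partner `u` (same sites `p, q`), nothing else. `low_one` and
`upp_one`: `AL = {v : e v < e w}`, `AU = {v : e v < e u}` (inside `{p, q}`). If they are disjoint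
then `|AL| + |AU| ≤ 2`, and if it is `2`: either one of them is `{p, q}` (then `pL ≥ 1` resp.
`pU ≥ 1`) or `AL = {p}`, `AU = {q}`, i.e. `e p < e w ≤ e q < e u ≤ e p`, impossible. So the
configuration is `Cheap 1`. -/
theorem one_touched_partner (H : Gr P r) {i : ℕ} (hi : i ≤ r) {e : P → ℕ} {w u : P}
    (hw : lev w = i + 1) (hu : lev u + 1 = i) (h2w : (uc w).card = 2) (heq : dc u = uc w)
    (h1 : ∀ x ∈ near P i, x ≠ w → x ≠ u → e x = 0) (h2 : ∀ x, lev x + 2 ≤ i → e x = 0) :
    Rk (lv P i) 1 (Fe i e) := by
  classical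
  obtain ⟨hAL, hpL⟩ := low_one H hw (fun w' hw' hne => by
    refine h1 w' (mem_near.2 (Or.inl hw')) hne ?_
    rintro rfl
    omega)
  obtain ⟨hAU, hpU⟩ := upp_one H hi hu (e := e) (fun u' hu' hne => by
    refine h1 u' (mem_near.2 (Or.inr hu')) ?_ hne
    rintro rfl
    omega)
  rw [heq] at hAU hpU
  apply Rk_of_cheap
  right; right
  by_cases hd : Disjoint (AL i e) (AU i e)
  swap
  · exact Or.inl hd
  right
  have hsub : AL i e ∪ AU i e ⊆ uc w := by
    rw [hAL, hAU]
    exact Finset.union_subset (Finset.filter_subset _ _) (Finset.filter_subset _ _)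
  have hcu : (AL i e).card + (AU i e).card ≤ 2 := by
    rw [← Finset.card_union_of_disjoint hd, ← h2w]
    exact Finset.card_le_card hsub
  by_cases ha : ∀ v ∈ uc w, e v < e w
  · have := hpL ha
    omega
  by_cases hb : ∀ v ∈ uc w, e v < e u
  · have := hpU hb
    omega
  by_contra hcon
  push Not at hcon
  push Not at ha hb
  obtain ⟨q, hq, hq2⟩ := ha
  obtain ⟨p, hp, hp2⟩ := hb
  have hunion : AL i e ∪ AU i e = uc w := by
    apply Finset.eq_of_subset_of_card_le hsub
    rw [Finset.card_union_of_disjoint hd, h2w]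
    omega
  have hqAL : q ∉ AL i e := by
    rw [hAL, Finset.mem_filter]
    rintro ⟨_, h⟩
    omega
  have hpAU : p ∉ AU i e := by
    rw [hAU, Finset.mem_filter]
    rintro ⟨_, h⟩
    omega
  have hq3 : q ∈ AL i e ∪ AU i e := by rw [hunion]; exact hq
  have hp3 : p ∈ AL i e ∪ AU i e := by rw [hunion]; exact hp
  have hqAU : q ∈ AU i e := (Finset.mem_union.1 hq3).resolve_left hqAL
  have hpAL : p ∈ AL i e := (Finset.mem_union.1 hp3).resolve_right hpAU
  rw [hAU, Finset.mem_filter] at hqAU
  rw [hAL, Finset.mem_filter] at hpAL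
  omega

end Pool.Agent.GaussPoset.Win
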