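import Pool.Agent.W_448win_h16.BwA
import Pool.Agent.W_448win_h16.ExpB

/-! Cores with at most one touched element. -/

namespace Pool.Agent.GaussPoset.Win

set_option linter.unusedSectionVars false

open Finset

universe u

variable {P : Type u} [Fintype P] [PartialOrder P] [DecidableEq P] {r : ℕ}

lemma BwB_mem_TL {i : ℕ} {e : P → ℕ} {x : P} :
    x ∈ TL i e ↔ lev x = i + 1 ∧ ∃ z, z ⋖ x ∧ 0 < e z := by
  classical
  unfold TL; simp

lemma BwB_ne {j : ℕ} {w0 u0 p q s : P} {psi : P → P} (B : BadW P j w0 u0 p q s psi) :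
    w0 ≠ u0 := by
  rintro rfl
  have h1 := B.hw
  have h2 := B.hu
  omega

lemma BwB_peel (H : Gr P r) {j : ℕ} (hj2 : j + 1 ≤ r) {w0 u0 p q s : P}
    {psi : P → P} (B : BadW P j w0 u0 p q s psi) {e : P → ℕ}
    (h1 : w0 ∉ Tch j e) (h2 : u0 ∉ Tch j e) (S : Finset P) :
    Fe j e S = Fe j (er {w0, u0} e) S * (wtL e w0 (e w0) S * wtU e u0 (e u0) S) := by
  have hR : ({w0, u0} : Finset P) ⊆ near P j := by
    intro x hx
    rw [mem_insert, mem_singleton] at hx
    rw [mem_near]
    rcases hx with rfl | rfl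
    · exact Or.inl B.hw
    · exact Or.inr B.hu
  have hT : ∀ x ∈ ({w0, u0} : Finset P), x ∉ Tch j e := by
    intro x hx
    rw [mem_insert, mem_singleton] at hx
    rcases hx with rfl | rfl
    · exact h1
    · exact h2
  rw [peel H (by omega) hR hT S, Finset.prod_pair (BwB_ne B), ExpA_wt_low B.hw,
    ExpA_wt_upp B.hu]

lemma BwB_er_mem {R : Finset P} {e : P → ℕ} {x : P} (h : x ∉ R → e x = 0) : er R e x = 0 := by
  unfold er
  split_ifs with h1
  · rfl
  · exact h h1

/-- No touched element: near labels are zero outside `{w0, u0}` (`core_near'`, `Tch_eq`), far labels are zero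
(`far_zero_of_TL`, `far_zero_of_TU`); `peel` with `R = {w0, u0}` and `Fe_sites` for `er R e`. -/
theorem none_val (H : Gr P r) {j : ℕ} (hj : 1 ≤ j) (hj2 : j + 1 ≤ r) {w0 u0 p q s : P}
    {psi : P → P} (B : BadW P j w0 u0 p q s psi) {e : P → ℕ} (hA : AdmL j e) (hB : AdmU j e)
    (hc : IsCore j {w0, u0} psi e) (h1 : TL j e = ∅) (h2 : TU j e = ∅) (S : Finset P) :
    Fe j e S = wtL e w0 (e w0) S * wtU e u0 (e u0) S := by
  have hnt : ∀ x, x ∉ Tch j e := by
    intro x
    rw [Tch_eq, h1, h2]
    simp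
  rw [BwB_peel H hj2 B (hnt w0) (hnt u0) S, Fe_sites H (by omega) (fun z hz => ?_) S, one_mul]
  refine BwB_er_mem fun hzR => ?_
  by_cases hn : z ∈ near P j
  · by_contra hne
    rcases core_near' hc hn hne with h | h | h
    · exact hzR h
    · exact hnt _ h
    · exact hnt _ h.2
  · rw [mem_near] at hn
    push Not at hn
    rcases Nat.lt_or_gt_of_ne hz with h | h
    · exact far_zero_of_TU H (by omega) hB h2 (by omega)
    · exact far_zero_of_TL H hA h1 (by omega)

/-- One touched element `w`, below the window. A `z` of level `j + 2` below `w` with positive label has all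
its upper covers in `TL` (`pos_up`, they are touched by `z`), so `uc z = {w}` and `w` is single because
`PD P j = ∅`; so `w ≠ w0`. Near labels are zero outside `w, w0, u0` (`core_near'`; a double
`x ∉ K` with `psi x = w` would make `w` double by `B.mat`). `peel` with `R = {w0, u0}` (both untouched);
`er R e` has `w` as its only near element with positive label: `one_touched` (second part: in `Rk _ 0`). Then
`Rk_mul` with `wts_two` resp. `wts_one`. -/
theorem one_low (H : Gr P r) {j : ℕ} (hj : 1 ≤ j) (hj2 : j + 1 ≤ r) {w0 u0 p q s : P}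
    {psi : P → P} (B : BadW P j w0 u0 p q s psi) {e : P → ℕ} (hA : AdmL j e) (hB : AdmU j e)
    (hc : IsCore j {w0, u0} psi e) {w : P} (h1 : TL j e = {w}) (h2 : TU j e = ∅) :
    Rk (lv P j) 2 (Fe j e) ∧ (e w0 = 0 ∨ e u0 = 0 → Rk (lv P j) 1 (Fe j e)) ∧ w ≠ w0 := by
  classical
  have hwT : w ∈ TL j e := by
    rw [h1]
    exact Finset.mem_singleton_self w
  obtain ⟨hlw, z, hzw, hez⟩ := BwB_mem_TL.1 hwT
  have hlz : lev z = j + 2 := by
    have := lev_uc H (mem_uc.2 hzw)
    omega
  have hucz : uc z = {w} := by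
    apply Finset.eq_singleton_iff_unique_mem.2
    refine ⟨mem_uc.2 hzw, fun y hy => ?_⟩
    have hly := lev_uc H hy
    have hyT : y ∈ TL j e := BwB_mem_TL.2 ⟨by omega, z, mem_uc.1 hy, hez⟩
    rw [h1, Finset.mem_singleton] at hyT
    exact hyT
  have hw2 : (uc w).card ≠ 2 := by
    intro hcon
    have hzPD : z ∈ PD P j := by
      unfold PD
      rw [Finset.mem_filter]
      exact ⟨Finset.mem_univ _, hlz, by rw [hucz, Finset.card_singleton], w, hzw, hcon⟩
    rw [B.hD] at hzPD
    exact absurd hzPD (Finset.notMem_empty z)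
  have hw3 := uc_card_le H w
  have hw4 : 0 < (uc w).card := Finset.card_pos.2 (uc_nonempty H (by omega))
  have hw1 : (uc w).card = 1 := by omega
  have hne : w ≠ w0 := by
    rintro rfl
    rw [B.w2, Finset.card_pair B.pq] at hw2
    exact hw2 rfl
  have hT : ∀ x, x ∈ Tch j e → x = w := by
    intro x hx
    rw [Tch_eq, h1, h2, Finset.union_empty, Finset.mem_singleton] at hx
    exact hx
  have hw0T : w0 ∉ Tch j e := fun h => hne (hT w0 h).symm
  have hu0T : u0 ∉ Tch j e := by
    intro h
    have h3 := hT u0 h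
    have h4 := B.hu
    rw [h3] at h4
    omega
  have hnear : ∀ x ∈ near P j, x ≠ w → x ∉ ({w0, u0} : Finset P) → e x = 0 := by
    intro x hx hxw hxR
    by_contra hne0
    rcases core_near' hc hx hne0 with h | h | ⟨h, h'⟩
    · exact hxR h
    · exact hxw (hT x h)
    · have h3 := hT _ h'
      rcases Finset.mem_union.1 h with h4 | h4
      · have h5 := (B.mat.low x h4 hxR).1
        rw [h3, mem_dbU] at h5
        omega
      · have h5 := (B.mat.upp x h4 hxR).1
        rw [h3, mem_dbL] at h5
        omega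
  have hfar : ∀ x, lev x + 2 ≤ j → e x = 0 := fun x hx =>
    far_zero_of_TU H (by omega) hB h2 hx
  have hone := (one_touched H (i := j) (by omega) (e := er {w0, u0} e) hlw
    (fun x hx hxw => BwB_er_mem (hnear x hx hxw))
    (fun x hx => BwB_er_mem fun _ => hfar x hx)).2 hw1
  have hpeel := BwB_peel H hj2 B hw0T hu0T
  refine ⟨?_, fun h => ?_, hne⟩
  · have h3 := Rk_mul hone (wts_two H hj hj2 B e (e w0) (e u0))
    rw [Nat.zero_add] at h3
    exact Rk_congr (fun S _ => (hpeel S).symm) h3
  · have h3 := Rk_mul hone (wts_one H hj hj2 B e h)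
    rw [Nat.zero_add] at h3
    exact Rk_congr (fun S _ => (hpeel S).symm) h3

end Pool.Agent.GaussPoset.Win
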