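import Pool.Agent.W_448win_h16.CoreA
import Pool.Agent.W_448win_h16.ExpA
import Pool.Agent.W_448win_h16.ExpB
import Pool.Agent.W_448win_h16.LowB

/-! Cores with at most one touched element. -/

namespace Pool.Agent.GaussPoset.Win

set_option linter.unusedSectionVars false

open Finset

universe u

variable {P : Type u} [Fintype P] [PartialOrder P] [DecidableEq P] {r : ℕ}

/-- If `e` is not admissible its function is zero. -/
lemma Rk_of_not_adm {i : ℕ} {e : P → ℕ} (h : ¬ (AdmL i e ∧ AdmU i e)) (k : ℕ) :
    Rk (lv P i) k (Fe i e) := by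
  apply Rk_of_cheap
  unfold Cheap
  by_cases h1 : AdmL i e
  · exact Or.inr (Or.inl fun h2 => h ⟨h1, h2⟩)
  · exact Or.inl h1

/-- In a core (with `K = ∅`) a near element with positive label is touched, or double with a touched
partner. -/
lemma core_near {i : ℕ} {psi : P → P} {e : P → ℕ} (hc : IsCore i ∅ psi e) {x : P}
    (hx : x ∈ near P i) (he : e x ≠ 0) :
    x ∈ Tch i e ∨ (x ∈ dbL P i ∪ dbU P i ∧ psi x ∈ Tch i e) := by
  by_contra hcon
  push Not at hcon
  refine he (hc x ?_)
  rw [mem_Rst]
  exact ⟨hx, by simp, hcon.1, fun h => hcon.2 h.1 h.2⟩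

/-- touched elements are in `TL` or `TU` -/
lemma ClA_Tch {i : ℕ} {e : P → ℕ} {x : P} (h : x ∈ Tch i e) : x ∈ TL i e ∨ x ∈ TU i e := by
  rcases mem_Tch.1 h with h | h
  · exact Or.inl (LowB_TL.2 h)
  · exact Or.inr (LowB_TU.2 h)

/-- a touched element is `w` -/
lemma ClA_Tch_eq {i : ℕ} {e : P → ℕ} {x w : P} (h1 : TL i e = {w}) (h2 : TU i e = ∅)
    (h : x ∈ Tch i e) : x = w := by
  rcases ClA_Tch h with h | h
  · rw [h1, Finset.mem_singleton] at h
    exact h
  · rw [h2] at h
    exact absurd h (Finset.notMem_empty _)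

/-- A core without touched elements costs nothing: all near labels are zero (`core_near`, `Tch` is the union
of `TL` and `TU`), all far labels are zero (`far_zero_of_TL`, `far_zero_of_TU`), so `Fe = 1`
(`Fe_sites`). -/
theorem core_none (H : Gr P r) {i : ℕ} (hi : 1 ≤ i) (hi2 : i + 1 ≤ r) {psi : P → P}
    {e : P → ℕ} (hc : IsCore i ∅ psi e) (h1 : TL i e = ∅) (h2 : TU i e = ∅) :
    Rk (lv P i) 0 (Fe i e) := by
  by_cases hA : AdmL i e ∧ AdmU i e
  swap
  · exact Rk_of_not_adm hA 0
  have hnt : ∀ x, x ∉ Tch i e := by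
    intro x hx
    rcases ClA_Tch hx with h | h
    · rw [h1] at h
      exact absurd h (Finset.notMem_empty _)
    · rw [h2] at h
      exact absurd h (Finset.notMem_empty _)
  have hz : ∀ z, lev z ≠ i → e z = 0 := by
    intro z hz
    by_cases hn : z ∈ near P i
    · by_contra hne
      rcases core_near hc hn hne with h | h
      · exact hnt _ h
      · exact hnt _ h.2
    · rw [mem_near] at hn
      push Not at hn
      rcases Nat.lt_or_gt_of_ne hz with h | h
      · exact far_zero_of_TU H (by omega) hA.2 h2 (by omega)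
      · exact far_zero_of_TL H hA.1 h1 (by omega)
  refine Rk_congr (f := fun _ => 1) (fun S _ => ?_) (Rk_const _ _ _)
  rw [Fe_sites H (by omega) hz]

/-- A core with one touched element `w`, below the window, and nothing touched above: `one_touched` if `w`
is single (then `core_near` says that `w` is the only near element with positive label:
a double `x` with `psi x = w` would make `w = psi x` double by `hM`), `one_touched_partner` if `w` is double
with `u = psi w` (a double `x` with `psi x = w` is `psi w` by the involution). Far upper labels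
are zero by `far_zero_of_TU`; if the configuration is not admissible use `Rk_of_not_adm`. -/
theorem core_one (H : Gr P r) {i : ℕ} (hi : 1 ≤ i) (hi2 : i + 1 ≤ r) {psi : P → P}
    (hM : Mat P i ∅ psi) {e : P → ℕ} (hc : IsCore i ∅ psi e) {w : P} (h1 : TL i e = {w})
    (h2 : TU i e = ∅) :
    Rk (lv P i) 1 (Fe i e) ∧ ((uc w).card = 1 → Rk (lv P i) 0 (Fe i e)) := by
  by_cases hA : AdmL i e ∧ AdmU i e
  swap
  · exact ⟨Rk_of_not_adm hA 1, fun _ => Rk_of_not_adm hA 0⟩
  have hwT : w ∈ TL i e := by
    rw [h1]
    exact Finset.mem_singleton_self w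
  have hlw : lev w = i + 1 := (LowB_TL.1 hwT).1
  have hfar : ∀ x, lev x + 2 ≤ i → e x = 0 := fun x hx =>
    far_zero_of_TU H (by omega) hA.2 h2 hx
  by_cases hd : (uc w).card = 2
  · have hwd : w ∈ dbL P i := mem_dbL.2 ⟨hlw, hd⟩
    obtain ⟨hu1, hu2⟩ := hM.low w hwd (Finset.notMem_empty _)
    have hnear : ∀ x ∈ near P i, x ≠ w → x ≠ psi w → e x = 0 := by
      intro x hx hxw hxu
      by_contra hne
      rcases core_near hc hx hne with h | ⟨h, h'⟩
      · exact hxw (ClA_Tch_eq h1 h2 h)
      · have h3 := ClA_Tch_eq h1 h2 h'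
        have h4 := (hM.invol x h (Finset.notMem_empty _)).1
        rw [h3] at h4
        exact hxu h4.symm
    refine ⟨one_touched_partner H (by omega) hlw (mem_dbU.1 hu1).1 hd hu2 hnear hfar, ?_⟩
    intro h
    omega
  · have hnear : ∀ x ∈ near P i, x ≠ w → e x = 0 := by
      intro x hx hxw
      by_contra hne
      rcases core_near hc hx hne with h | ⟨h, h'⟩
      · exact hxw (ClA_Tch_eq h1 h2 h)
      · have h3 := ClA_Tch_eq h1 h2 h'
        rcases Finset.mem_union.1 h with h4 | h4
        · have h5 := (hM.low x h4 (Finset.notMem_empty _)).1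
          rw [h3, mem_dbU] at h5
          omega
        · have h5 := (hM.upp x h4 (Finset.notMem_empty _)).1
          rw [h3, mem_dbL] at h5
          exact hd h5.2
    exact one_touched H (by omega) hlw hnear hfar

end Pool.Agent.GaussPoset.Win
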