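import Pool.Agent.W_448win_h16.LowA
import Pool.Agent.W_448win_h16.RkC

/-! Explicit configurations. -/

namespace Pool.Agent.GaussPoset.Win

set_option linter.unusedSectionVars false

open Finset

universe u

variable {P : Type u} [Fintype P] [PartialOrder P] [DecidableEq P] {r : ℕ}

lemma ExpC_cov (H : Gr P r) {z x : P} (h : z ⋖ x) : lev z = lev x + 1 := (H.covBy_iff.1 h).2

/-- a lower element of label zero has `GU` -/
lemma ExpC_GU (H : Gr P r) {e : P → ℕ} {x : P} (h : 1 ≤ lev x) (h0 : e x = 0) : GU e x := by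
  obtain ⟨t, ht⟩ := uc_nonempty H (x := x) h
  exact ⟨t, mem_uc.1 ht, by omega⟩

/-- an upper element of label zero has `GD` -/
lemma ExpC_GD (H : Gr P r) {e : P → ℕ} {x : P} (h : lev x < r) (h0 : e x = 0) : GD e x := by
  obtain ⟨t, ht⟩ := dc_nonempty H (x := x) h
  exact ⟨t, mem_dc.1 ht, by omega⟩

lemma ExpC_noFU (H : Gr P r) {i : ℕ} {e : P → ℕ} (h0 : ∀ u, lev u < i → e u = 0) {u : P}
    (hu : lev u ≤ i) : ¬ FU e u := by
  rintro ⟨y, hy, hlt⟩
  have h1 := ExpC_cov H hy
  have h2 := h0 y (by omega)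
  omega

lemma ExpC_AdmU (H : Gr P r) {i : ℕ} {e : P → ℕ} (h0 : ∀ u, lev u < i → e u = 0) : AdmU i e := by
  rintro u hu ⟨h1, -⟩
  exact ExpC_noFU H h0 hu.le h1

lemma ExpC_aU (H : Gr P r) {i : ℕ} {e : P → ℕ} (h0 : ∀ u, lev u < i → e u = 0) : aU i e = 0 := by
  classical
  unfold aU
  rw [Finset.card_eq_zero, Finset.filter_eq_empty_iff]
  rintro u - ⟨hu, h1⟩
  exact ExpC_noFU H h0 hu.le h1

lemma ExpC_pU (H : Gr P r) {i : ℕ} (hi : i ≤ r) {e : P → ℕ} (h0 : ∀ u, lev u < i → e u = 0) :
    pU i e = 0 := by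
  classical
  unfold pU
  rw [Finset.card_eq_zero, Finset.filter_eq_empty_iff]
  rintro u - ⟨hu, -, h1⟩
  exact h1 (ExpC_GD H (by omega) (h0 u hu))

lemma ExpC_AU (H : Gr P r) {i : ℕ} {e : P → ℕ} (h0 : ∀ u, lev u < i → e u = 0) : AU i e = ∅ := by
  classical
  unfold AU
  rw [Finset.filter_eq_empty_iff]
  intro u hu h1
  exact ExpC_noFU H h0 (mem_lv.1 hu).le h1

/-- the value of a configuration whose upper part is zero -/
lemma ExpC_Fe (H : Gr P r) {i : ℕ} (hi : i ≤ r) {e : P → ℕ} (h0 : ∀ u, lev u < i → e u = 0)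
    (Sa Sp : Finset P) (ha : ∀ x, (i < lev x ∧ FD e x) ↔ x ∈ Sa)
    (hp : ∀ x, (i < lev x ∧ ¬ FD e x ∧ ¬ GU e x) ↔ x ∈ Sp)
    (hn : ∀ x, i < lev x → ¬ (FD e x ∧ GU e x)) (S : Finset P) :
    Fe i e S = xx ^ Sa.card * dd ^ Sp.card * chi (AL i e) ∅ S := by
  classical
  have h1 : aL i e = Sa.card := by
    unfold aL
    congr 1
    ext x
    rw [Finset.mem_filter, ← ha x]
    simp
  have h2 : pL i e = Sp.card := by
    unfold pL
    congr 1
    ext x
    rw [Finset.mem_filter, ← hp x]
    simp
  unfold Fe cw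
  rw [if_pos ⟨hn, ExpC_AdmU H h0⟩, h1, h2, ExpC_aU H h0, ExpC_pU H hi h0, ExpC_AU H h0]
  simp

lemma ExpC_cl_z (z : P) : cl z z = 1 := by
  unfold cl; simp

lemma ExpC_cl_uc {z x : P} (h : x ∈ uc z) : cl z x = 1 := by
  unfold cl; rw [if_pos (Or.inr h)]

lemma ExpC_cl_le (z x : P) : cl z x ≤ 1 := by
  unfold cl; split_ifs <;> omega

lemma ExpC_cl_pos {z x : P} (h : 0 < cl z x) : x = z ∨ x ∈ uc z := by
  unfold cl at h
  by_contra hcon
  rw [if_neg hcon] at h
  omega

lemma ExpC_sg_self (a : P) : sg a a = 1 := by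
  unfold sg; simp

lemma ExpC_sg_ne {a x : P} (h : x ≠ a) : sg a x = 0 := by
  unfold sg; simp [h]

lemma ExpC_lev_uc (H : Gr P r) {i : ℕ} {z w : P} (hz : lev z = i + 2) (h : w ∈ uc z) :
    lev w = i + 1 := by
  have := lev_uc H h
  omega

/-- `cl z`: the upper covers of `z` are free (their sites have label `0`, `z` has label `1`), `z` has
`GU`; the sites above `z` have `FD`; all other lower elements have label `0`, `GU` and no `FD`. -/
theorem Fe_cl (H : Gr P r) {i : ℕ} (hi : i ≤ r) {z : P} (hz : lev z = i + 2) (S : Finset P) :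
    Fe i (cl z) S = dd ^ (uc z).card * chi (sts i z) ∅ S := by
  classical
  have hlow : ∀ x, 0 < cl z x → i < lev x := by
    intro x hx
    rcases ExpC_cl_pos hx with h | h
    · rw [h]; omega
    · rw [ExpC_lev_uc H hz h]; omega
  have h0 : ∀ u, lev u < i → cl z u = 0 := by
    intro u hu
    by_contra hcon
    have := hlow u (Nat.pos_of_ne_zero hcon)
    omega
  have hs0 : ∀ u, lev u = i → cl z u = 0 := by
    intro u hu
    by_contra hcon
    have := hlow u (Nat.pos_of_ne_zero hcon)
    omega
  have hFD : ∀ x, i < lev x → ¬ FD (cl z) x := by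
    rintro x hx ⟨z', hz', hlt⟩
    have h1 := ExpC_cl_le z z'
    have h2 : cl z x = 0 := by omega
    rcases ExpC_cl_pos (z := z) (x := z') (by omega) with h | h
    · have h3 : cl z x = 1 := ExpC_cl_uc (mem_uc.2 (h ▸ hz'))
      omega
    · have h3 := ExpC_lev_uc H hz h
      have h4 := ExpC_cov H hz'
      omega
  have hAL : AL i (cl z) = sts i z := by
    ext v
    unfold AL
    rw [Finset.mem_filter, mem_lv]
    constructor
    · rintro ⟨hv, z', hz', hlt⟩
      rcases ExpC_cl_pos (z := z) (x := z') (by omega) with h | h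
      · have h3 := ExpC_cov H hz'
        rw [h] at h3
        omega
      · exact (mem_sts_iff H hz).2 ⟨z', h, mem_uc.2 hz'⟩
    · intro hv
      have hv1 := (mem_sts.1 hv).1
      obtain ⟨w, hw, hwv⟩ := (mem_sts_iff H hz).1 hv
      refine ⟨hv1, w, mem_uc.1 hwv, ?_⟩
      rw [hs0 v hv1, ExpC_cl_uc hw]
      exact one_pos
  rw [ExpC_Fe H hi h0 ∅ (uc z) ?_ ?_ ?_, hAL]
  · simp
  · intro x
    constructor
    · rintro ⟨h1, h2⟩
      exact absurd h2 (hFD x h1)
    · intro h
      exact absurd h (Finset.notMem_empty _)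
  · intro x
    constructor
    · rintro ⟨h1, -, h3⟩
      by_contra hx
      apply h3
      by_cases hxz : x = z
      · obtain ⟨w, hw⟩ := uc_nonempty H (x := z) (by omega)
        refine ⟨w, by rw [hxz]; exact mem_uc.1 hw, ?_⟩
        rw [hxz, ExpC_cl_z, ExpC_cl_uc hw]
      · refine ExpC_GU H (by omega) ?_
        by_contra hne
        rcases ExpC_cl_pos (Nat.pos_of_ne_zero hne) with h | h
        · exact hxz h
        · exact hx h
    · intro hx
      have h1 := ExpC_lev_uc H hz hx
      refine ⟨by omega, hFD x (by omega), ?_⟩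
      rintro ⟨y, hy, hle⟩
      have h2 := ExpC_cov H hy
      have h3 := hs0 y (by omega)
      rw [ExpC_cl_uc hx] at hle
      omega
  · rintro x h1 ⟨h2, -⟩
    exact hFD x h1 h2

/-- `cl z + sg z`: label two on `z`: the upper covers of `z` have `FD` and not `GU`, `z` is free. -/
theorem Fe_cl_z (H : Gr P r) {i : ℕ} (hi : i ≤ r) {z : P} (hz : lev z = i + 2) (S : Finset P) :
    Fe i (cl z + sg z) S = xx ^ (uc z).card * dd * chi (sts i z) ∅ S := by
  classical
  set e : P → ℕ := cl z + sg z with he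
  have hev : ∀ x, e x = cl z x + sg z x := fun x => rfl
  have hez : e z = 2 := by rw [hev, ExpC_cl_z, ExpC_sg_self]
  have hne : ∀ {x}, x ≠ z → e x = cl z x := by
    intro x hx
    rw [hev, ExpC_sg_ne hx, Nat.add_zero]
  have huz : ∀ {w}, w ∈ uc z → w ≠ z := by
    rintro w hw rfl
    have := ExpC_lev_uc H hz hw
    omega
  have heu : ∀ {w}, w ∈ uc z → e w = 1 := by
    intro w hw
    rw [hne (huz hw), ExpC_cl_uc hw]
  have hpos : ∀ {x}, 0 < e x → x = z ∨ x ∈ uc z := by
    intro x hx
    by_cases h : x = z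
    · exact Or.inl h
    · rw [hne h] at hx
      exact ExpC_cl_pos hx
  have hle2 : ∀ x, e x ≤ 2 := by
    intro x
    by_cases h : x = z
    · rw [h, hez]
    · rw [hne h]
      exact (ExpC_cl_le z x).trans (by omega)
  have hlow : ∀ x, 0 < e x → i < lev x := by
    intro x hx
    rcases hpos hx with h | h
    · rw [h]; omega
    · rw [ExpC_lev_uc H hz h]; omega
  have h0 : ∀ u, lev u < i → e u = 0 := by
    intro u hu
    by_contra hcon
    have := hlow u (Nat.pos_of_ne_zero hcon)
    omega
  have hs0 : ∀ u, lev u = i → e u = 0 := by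
    intro u hu
    by_contra hcon
    have := hlow u (Nat.pos_of_ne_zero hcon)
    omega
  have hFD : ∀ x, i < lev x → FD e x → x ∈ uc z := by
    rintro x hx ⟨z', hz', hlt⟩
    rcases hpos (x := z') (by omega) with h | h
    · exact mem_uc.2 (h ▸ hz')
    · have h3 := ExpC_lev_uc H hz h
      have h4 := ExpC_cov H hz'
      omega
  have hFD' : ∀ x, x ∈ uc z → FD e x := by
    intro x hx
    refine ⟨z, mem_uc.1 hx, ?_⟩
    rw [heu hx, hez]
    omega
  have hGU : ∀ x, x ∈ uc z → ¬ GU e x := by
    rintro x hx ⟨y, hy, hle⟩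
    have h1 := ExpC_lev_uc H hz hx
    have h2 := ExpC_cov H hy
    have h3 := hs0 y (by omega)
    rw [heu hx] at hle
    omega
  have hAL : AL i e = sts i z := by
    ext v
    unfold AL
    rw [Finset.mem_filter, mem_lv]
    constructor
    · rintro ⟨hv, z', hz', hlt⟩
      rcases hpos (x := z') (by omega) with h | h
      · have h3 := ExpC_cov H hz'
        rw [h] at h3
        omega
      · exact (mem_sts_iff H hz).2 ⟨z', h, mem_uc.2 hz'⟩
    · intro hv
      have hv1 := (mem_sts.1 hv).1
      obtain ⟨w, hw, hwv⟩ := (mem_sts_iff H hz).1 hv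
      refine ⟨hv1, w, mem_uc.1 hwv, ?_⟩
      rw [hs0 v hv1, heu hw]
      exact one_pos
  rw [ExpC_Fe H hi h0 (uc z) {z} ?_ ?_ ?_, hAL]
  · simp
  · intro x
    constructor
    · rintro ⟨h1, h2⟩
      exact hFD x h1 h2
    · intro h
      have h1 := ExpC_lev_uc H hz h
      exact ⟨by omega, hFD' x h⟩
  · intro x
    rw [Finset.mem_singleton]
    constructor
    · rintro ⟨h1, h2, h3⟩
      by_contra hx
      apply h3
      refine ExpC_GU H (by omega) ?_
      by_contra hne0
      rcases hpos (Nat.pos_of_ne_zero hne0) with h | h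
      · exact hx h
      · exact h2 (hFD' x h)
    · intro hx
      rw [hx]
      refine ⟨by omega, ?_, ?_⟩
      · rintro ⟨z', hz', hlt⟩
        have h1 := hle2 z'
        omega
      · rintro ⟨y, hy, hle⟩
        have h1 := heu (mem_uc.2 hy)
        omega
  · rintro x h1 ⟨h2, h3⟩
    exact hGU x (hFD x h1 h2) h3

/-- label one on a common site `v` of all upper covers of `z`: they have `GU`, no element is free, and `v`
loses `FD`. -/
theorem Fe_cl_v (H : Gr P r) {i : ℕ} (hi : i ≤ r) {z v : P} (hz : lev z = i + 2)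
    (hv : lev v = i) (hc : ∀ w ∈ uc z, v ∈ uc w) (S : Finset P) :
    Fe i (cl z + sg v) S = chi ((sts i z).erase v) ∅ S := by
  classical
  set e : P → ℕ := cl z + sg v with he
  have hev : ∀ x, e x = cl z x + sg v x := fun x => rfl
  have hvz : v ≠ z := by
    rintro rfl
    omega
  have hvu : v ∉ uc z := by
    intro h
    have := ExpC_lev_uc H hz h
    omega
  have hclv : cl z v = 0 := by
    by_contra hcon
    rcases ExpC_cl_pos (Nat.pos_of_ne_zero hcon) with h | h
    · exact hvz h
    · exact hvu h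
  have hev1 : e v = 1 := by rw [hev, hclv, ExpC_sg_self]
  have hne : ∀ {x}, x ≠ v → e x = cl z x := by
    intro x hx
    rw [hev, ExpC_sg_ne hx, Nat.add_zero]
  have hez : e z = 1 := by rw [hne hvz.symm, ExpC_cl_z]
  have heu : ∀ {w}, w ∈ uc z → e w = 1 := by
    intro w hw
    have h1 : w ≠ v := by
      rintro rfl
      exact hvu hw
    rw [hne h1, ExpC_cl_uc hw]
  have hpos : ∀ {x}, 0 < e x → x = z ∨ x ∈ uc z ∨ x = v := by
    intro x hx
    by_cases h : x = v
    · exact Or.inr (Or.inr h)
    · rw [hne h] at hx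
      rcases ExpC_cl_pos hx with h' | h'
      · exact Or.inl h'
      · exact Or.inr (Or.inl h')
  have hle1 : ∀ x, e x ≤ 1 := by
    intro x
    by_cases h : x = v
    · rw [h, hev1]
    · rw [hne h]
      exact ExpC_cl_le z x
  have hlow : ∀ x, 0 < e x → i ≤ lev x := by
    intro x hx
    rcases hpos hx with h | h | h
    · rw [h]; omega
    · rw [ExpC_lev_uc H hz h]; omega
    · rw [h]; omega
  have h0 : ∀ u, lev u < i → e u = 0 := by
    intro u hu
    by_contra hcon
    have := hlow u (Nat.pos_of_ne_zero hcon)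
    omega
  have hs0 : ∀ u, lev u = i → u ≠ v → e u = 0 := by
    intro u hu huv
    by_contra hcon
    rcases hpos (Nat.pos_of_ne_zero hcon) with h | h | h
    · rw [h] at hu; omega
    · have := ExpC_lev_uc H hz h
      omega
    · exact huv h
  have hFD : ∀ x, i < lev x → ¬ FD e x := by
    rintro x hx ⟨z', hz', hlt⟩
    have h1 := hle1 z'
    have h2 : e x = 0 := by omega
    rcases hpos (x := z') (by omega) with h | h | h
    · have h3 : e x = 1 := heu (mem_uc.2 (h ▸ hz'))
      omega
    · have h3 := ExpC_lev_uc H hz h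
      have h4 := ExpC_cov H hz'
      omega
    · have h4 := ExpC_cov H hz'
      rw [h] at h4
      omega
  have hGU : ∀ x, i < lev x → GU e x := by
    intro x hx
    by_cases hx0 : e x = 0
    · exact ExpC_GU H (by omega) hx0
    · rcases hpos (Nat.pos_of_ne_zero hx0) with h | h | h
      · obtain ⟨w, hw⟩ := uc_nonempty H (x := z) (by omega)
        refine ⟨w, by rw [h]; exact mem_uc.1 hw, ?_⟩
        rw [h, hez, heu hw]
      · refine ⟨v, mem_uc.1 (hc x h), ?_⟩
        rw [heu h, hev1]
      · rw [h] at hx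
        omega
  have hAL : AL i e = (sts i z).erase v := by
    ext t
    unfold AL
    rw [Finset.mem_filter, mem_lv, Finset.mem_erase]
    constructor
    · rintro ⟨ht, z', hz', hlt⟩
      have h1 := hle1 z'
      refine ⟨?_, ?_⟩
      · rintro rfl
        omega
      · rcases hpos (x := z') (by omega) with h | h | h
        · have h3 := ExpC_cov H hz'
          rw [h] at h3
          omega
        · exact (mem_sts_iff H hz).2 ⟨z', h, mem_uc.2 hz'⟩
        · have h3 := ExpC_cov H hz'
          rw [h] at h3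
          omega
    · rintro ⟨htv, ht⟩
      have hv1 := (mem_sts.1 ht).1
      obtain ⟨w, hw, hwv⟩ := (mem_sts_iff H hz).1 ht
      refine ⟨hv1, w, mem_uc.1 hwv, ?_⟩
      rw [hs0 t hv1 htv, heu hw]
      exact one_pos
  rw [ExpC_Fe H hi h0 ∅ ∅ ?_ ?_ ?_, hAL]
  · simp
  · intro x
    constructor
    · rintro ⟨h1, h2⟩
      exact absurd h2 (hFD x h1)
    · intro h
      exact absurd h (Finset.notMem_empty _)
  · intro x
    constructor
    · rintro ⟨h1, -, h3⟩
      exact absurd (hGU x h1) h3
    · intro h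
      exact absurd h (Finset.notMem_empty _)
  · rintro x h1 ⟨h2, -⟩
    exact hFD x h1 h2

/-- lower bound for the number of free lower elements -/
lemma ExpC_pL {i : ℕ} {e : P → ℕ} (s : Finset P)
    (hs : ∀ x ∈ s, i < lev x ∧ ¬ FD e x ∧ ¬ GU e x) : s.card ≤ pL i e := by
  classical
  unfold pL
  apply Finset.card_le_card
  intro x hx
  rw [Finset.mem_filter]
  exact ⟨mem_univ _, hs x hx⟩

/-- The other positions of an additional unit on `z`, its covers, or the sites cost nothing:
`y ∈ uc z`: `pL = 2`, `AL = sts i z`. `y` a site not above `z`: the same. `y` a site above exactly one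
of the two upper covers: `pL ≥ 1`, `AL = sts i z \ {y}`. In all cases `|AL| ≤ pL + (up i z - 2)`. -/
theorem cheap_cl (H : Gr P r) {i : ℕ} (hi : i ≤ r) {z y : P} (hz : lev z = i + 2)
    (h2 : (uc z).card = 2)
    (hy : y ∈ uc z ∨ (lev y = i ∧ ¬ ∀ w ∈ uc z, y ∈ uc w)) :
    Cheap (up i z - 2) i (cl z + sg y) := by
  classical
  set e : P → ℕ := cl z + sg y with he
  have hev : ∀ x, e x = cl z x + sg y x := fun x => rfl
  have hyz : y ≠ z := by
    rintro rfl
    rcases hy with h | h
    · have := ExpC_lev_uc H hz h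
      omega
    · omega
  have hne : ∀ {x}, x ≠ y → e x = cl z x := by
    intro x hx
    rw [hev, ExpC_sg_ne hx, Nat.add_zero]
  have hez : e z = 1 := by rw [hne hyz.symm, ExpC_cl_z]
  have hpos : ∀ {x}, 0 < e x → x = z ∨ x ∈ uc z ∨ x = y := by
    intro x hx
    by_cases h : x = y
    · exact Or.inr (Or.inr h)
    · rw [hne h] at hx
      rcases ExpC_cl_pos hx with h' | h'
      · exact Or.inl h'
      · exact Or.inr (Or.inl h')
  have hylev : i ≤ lev y := by
    rcases hy with h | h
    · have := ExpC_lev_uc H hz h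
      omega
    · omega
  have hylev2 : lev y ≤ i + 1 := by
    rcases hy with h | h
    · have := ExpC_lev_uc H hz h
      omega
    · omega
  have heu1 : ∀ {w}, w ∈ uc z → 1 ≤ e w := by
    intro w hw
    rw [hev, ExpC_cl_uc hw]
    omega
  have h0 : ∀ u, lev u < i → e u = 0 := by
    intro u hu
    by_contra hcon
    rcases hpos (Nat.pos_of_ne_zero hcon) with h | h | h
    · rw [h] at hu; omega
    · have := ExpC_lev_uc H hz h
      omega
    · rw [h] at hu; omega
  -- the only label above one can be at `y`, a cover of `z`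
  have hFDu : ∀ w, w ∈ uc z → ¬ FD e w := by
    rintro w hw ⟨z', hz', hlt⟩
    have h1 := heu1 hw
    have h3 := ExpC_lev_uc H hz hw
    have h4 := ExpC_cov H hz'
    have h5 : z' ≠ y := by
      rintro rfl
      omega
    rw [hne h5] at hlt
    have := ExpC_cl_le z z'
    omega
  have hALsub : AL i e ⊆ sts i z := by
    intro v hv
    unfold AL at hv
    rw [Finset.mem_filter, mem_lv] at hv
    obtain ⟨hv1, z', hz', hlt⟩ := hv
    have h4 := ExpC_cov H hz'
    rcases hpos (x := z') (by omega) with h | h | h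
    · rw [h] at h4
      omega
    · exact (mem_sts_iff H hz).2 ⟨z', h, mem_uc.2 hz'⟩
    · rcases hy with h' | h'
      · rw [← h] at h'
        exact (mem_sts_iff H hz).2 ⟨z', h', mem_uc.2 hz'⟩
      · rw [h] at h4
        omega
  have hcard : (AL i e).card ≤ up i z := by
    rw [← card_sts]
    exact Finset.card_le_card hALsub
  have hAU : (AU i e).card = 0 := by rw [ExpC_AU H h0, Finset.card_empty]
  right; right; right
  rw [hAU, ExpC_pU H hi h0]
  -- covers not below `y` are free
  have hfree : ∀ w, w ∈ uc z → y ∉ uc w → (i < lev w ∧ ¬ FD e w ∧ ¬ GU e w) := by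
    intro w hw hyw
    have h3 := ExpC_lev_uc H hz hw
    refine ⟨by omega, hFDu w hw, ?_⟩
    rintro ⟨t, ht, hle⟩
    have h4 := ExpC_cov H ht
    have h5 := heu1 hw
    rcases hpos (x := t) (by omega) with h | h | h
    · rw [h] at h4
      omega
    · have := ExpC_lev_uc H hz h
      omega
    · exact hyw (mem_uc.2 (h ▸ ht))
  by_cases hall : ∀ w ∈ uc z, y ∉ uc w
  · have h3 := ExpC_pL (i := i) (e := e) (uc z) (fun w hw => hfree w hw (hall w hw))
    omega
  · push Not at hall
    obtain ⟨w, hw, hyw⟩ := hall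
    have hyi : lev y = i := by
      have h3 := ExpC_lev_uc H hz hw
      have h4 := lev_uc H hyw
      omega
    have hy2 : ¬ ∀ w ∈ uc z, y ∈ uc w := by
      rcases hy with h | h
      · have := ExpC_lev_uc H hz h
        omega
      · exact h.2
    push Not at hy2
    obtain ⟨w', hw', hyw'⟩ := hy2
    have h3 := ExpC_pL (i := i) (e := e) {w'} (by
      intro x hx
      rw [Finset.mem_singleton] at hx
      rw [hx]
      exact hfree w' hw' hyw')
    rw [Finset.card_singleton] at h3
    have hys : y ∈ sts i z := (mem_sts_iff H hz).2 ⟨w, hw, hyw⟩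
    have hynot : y ∉ AL i e := by
      intro hmem
      unfold AL at hmem
      rw [Finset.mem_filter] at hmem
      obtain ⟨-, z', hz', hlt⟩ := hmem
      have h5 : z' ≠ y := by
        rintro rfl
        exact absurd hz'.1 (lt_irrefl _)
      have h6 : e y = cl z y + sg y y := hev y
      rw [ExpC_sg_self] at h6
      rw [hne h5] at hlt
      have := ExpC_cl_le z z'
      omega
    have h7 : AL i e ⊆ (sts i z).erase y := by
      intro x hx
      rw [Finset.mem_erase]
      refine ⟨?_, hALsub hx⟩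
      rintro rfl
      exact hynot hx
    have h8 := Finset.card_le_card h7
    rw [Finset.card_erase_of_mem hys, card_sts] at h8
    omega

/-- the second alternative of `two_touched`: all labels one, the two touched elements are free, and
`AL` is the union of their sites -/
theorem cheap_ind (H : Gr P r) {i : ℕ} (hi : i ≤ r) {e : P → ℕ}
    (h2 : (TL i e).card = 2) (hU : TU i e ∪ UF i e = ∅)
    (he : ∀ x, e x = if x ∈ TL i e ∪ LF i e then 1 else 0) (k : ℕ)
    (hk : ((TL i e).biUnion uc).card ≤ 2 + k) : Cheap k i e := by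
  classical
  have hTL : ∀ x, x ∈ TL i e → lev x = i + 1 := by
    intro x hx
    unfold TL at hx
    rw [Finset.mem_filter] at hx
    exact hx.2.1
  have hLF : ∀ x, x ∈ LF i e → i + 2 ≤ lev x := by
    intro x hx
    unfold LF at hx
    rw [Finset.mem_filter] at hx
    exact hx.2.1
  have hle1 : ∀ x, e x ≤ 1 := by
    intro x
    rw [he x]
    split_ifs <;> omega
  have hpos : ∀ {x}, 0 < e x → x ∈ TL i e ∨ x ∈ LF i e := by
    intro x hx
    rw [← Finset.mem_union]
    by_contra hcon
    rw [he x, if_neg hcon] at hx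
    omega
  have heTL : ∀ {x}, x ∈ TL i e → e x = 1 := by
    intro x hx
    rw [he x, if_pos (Finset.mem_union_left _ hx)]
  have hlow : ∀ x, 0 < e x → i < lev x := by
    intro x hx
    rcases hpos hx with h | h
    · rw [hTL x h]; omega
    · have := hLF x h
      omega
  have h0 : ∀ u, lev u < i → e u = 0 := by
    intro u hu
    by_contra hcon
    have := hlow u (Nat.pos_of_ne_zero hcon)
    omega
  have hAU : (AU i e).card = 0 := by rw [ExpC_AU H h0, Finset.card_empty]
  right; right; right
  rw [hAU, ExpC_pU H hi h0]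
  have h3 := ExpC_pL (i := i) (e := e) (TL i e) (by
    intro x hx
    have h4 := hTL x hx
    refine ⟨by omega, ?_, ?_⟩
    · rintro ⟨z', hz', hlt⟩
      have h5 := hle1 z'
      rw [heTL hx] at hlt
      omega
    · rintro ⟨y, hy, hle⟩
      rw [heTL hx] at hle
      have h5 := hlow y (by omega)
      have h6 := ExpC_cov H hy
      omega)
  have h4 : AL i e ⊆ (TL i e).biUnion uc := by
    intro v hv
    unfold AL at hv
    rw [Finset.mem_filter, mem_lv] at hv
    obtain ⟨hv1, z', hz', hlt⟩ := hv
    have h5 := ExpC_cov H hz'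
    rw [Finset.mem_biUnion]
    rcases hpos (x := z') (by omega) with h | h
    · exact ⟨z', h, mem_uc.2 hz'⟩
    · have := hLF z' h
      omega
  have h5 := Finset.card_le_card h4
  omega

end Pool.Agent.GaussPoset.Win
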