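import Pool.Agent.W_448win_h16.LowB

/-! Two touched elements. -/

namespace Pool.Agent.GaussPoset.Win

set_option linter.unusedSectionVars false

open Finset

universe u

variable {P : Type u} [Fintype P] [PartialOrder P] [DecidableEq P] {r : ℕ}

lemma LowD_ind {e : P → ℕ} {S : Finset P} (h : ∀ x ∈ S, 0 < e x) (hs : ∑ x, e x ≤ S.card)
    (x : P) : e x = if x ∈ S then 1 else 0 := by
  have hle : ∀ x ∈ (univ : Finset P), (if x ∈ S then 1 else 0) ≤ e x := by
    intro x _
    split_ifs with hx
    · exact h x hx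
    · exact Nat.zero_le _
  have hsum : ∑ x : P, (if x ∈ S then 1 else 0) = S.card := by
    rw [Finset.sum_ite_mem, univ_inter, Finset.sum_const, smul_eq_mul, mul_one]
  have heq : ∑ x : P, (if x ∈ S then 1 else 0) = ∑ x, e x :=
    le_antisymm (Finset.sum_le_sum hle) (by rw [hsum]; exact hs)
  exact ((Finset.sum_eq_sum_iff_of_le hle).1 heq x (mem_univ x)).symm

lemma LowD_sum_cl {i : ℕ} {z : P} (H : Gr P r) (h2 : (uc z).card = 2) :
    ∑ x, cl z x = 3 := by
  have hz : z ∉ uc z := fun h => lt_irrefl _ (mem_uc.1 h).1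
  have h1 : ∀ x, cl z x = if x ∈ insert z (uc z) then 1 else 0 := by
    intro x
    unfold cl
    simp only [Finset.mem_insert]
  rw [Finset.sum_congr rfl (fun x _ => h1 x), Finset.sum_ite_mem, univ_inter, Finset.sum_const,
    smul_eq_mul, mul_one, Finset.card_insert_of_notMem hz, h2]

/-- Two touched lower near elements, nothing above: the shape of a configuration of energy `≤ 4`.
`energy_bound`: `2 + |LF| ≤ 4` and `|LF| ≥ 1` (`card_TL_le`). `|LF| = 1`, say `LF = {z}`:
`lev z = i + 2` (otherwise an upper cover of `z` is in `LF` by `pos_up`, `uc_nonempty`), `TL = uc z`,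
`cl z ≤ e` pointwise and `∑ cl z = 3`, so `e = cl z` or `e = cl z + sg y`. `|LF| = 2`: the labels
on `TL ∪ LF` are at least one and the energy is at most four. -/
theorem two_touched (H : Gr P r) {i : ℕ} (hi : i ≤ r) {e : P → ℕ} (hA : AdmL i e)
    (hB : AdmU i e) (hT : (TL i e).card = 2) (hn : ∑ x, e x ≤ 4) :
    (∃ z, lev z = i + 2 ∧ (uc z).card = 2 ∧ TL i e = uc z ∧
      (e = cl z ∨ ∃ y, e = cl z + sg y)) ∨
    ((LF i e).card = 2 ∧ ∀ x, e x = if x ∈ TL i e ∪ LF i e then 1 else 0) := by
  classical
  have hE := energy_bound H hi hA hB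
  have hL := card_TL_le H (i := i) e
  have hmTL : ∀ x, x ∈ TL i e ↔ (lev x = i + 1 ∧ ∃ z, z ⋖ x ∧ 0 < e z) := by
    intro x; unfold TL; simp
  have hmLF : ∀ x, x ∈ LF i e ↔ (i + 2 ≤ lev x ∧ 0 < e x) := by
    intro x; unfold LF; simp
  have hcov : ∀ {a b : P}, a ⋖ b → lev a = lev b + 1 := fun h => (H.covBy_iff.1 h).2
  have hposTL : ∀ x ∈ TL i e, 0 < e x := by
    intro x hx
    obtain ⟨h1, z, hz, hz2⟩ := (hmTL x).1 hx
    have := hcov hz
    exact pos_up H hA (z := z) (by omega) hz2 hz
  rcases Nat.lt_or_ge (LF i e).card 2 with h1 | h1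
  · -- one far element
    left
    have hc : (LF i e).card = 1 := by omega
    obtain ⟨z, hz⟩ := Finset.card_eq_one.1 hc
    have hzm : z ∈ LF i e := by rw [hz]; exact mem_singleton_self z
    obtain ⟨hzl, hzp⟩ := (hmLF z).1 hzm
    obtain ⟨x0, hx0⟩ : (TL i e).Nonempty := by
      rw [← Finset.card_pos]; omega
    have hsub : ∀ x ∈ TL i e, z ⋖ x := by
      intro x hx
      obtain ⟨h2, z', hz', hz2⟩ := (hmTL x).1 hx
      have h3 := hcov hz'
      have h4 : z' ∈ LF i e := (hmLF z').2 ⟨by omega, hz2⟩
      rw [hz, mem_singleton] at h4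
      rw [← h4]; exact hz'
    have hlz : lev z = i + 2 := by
      have h2 := hcov (hsub x0 hx0)
      have h3 := ((hmTL x0).1 hx0).1
      omega
    have hTLu : TL i e = uc z := by
      ext x
      constructor
      · intro hx; exact mem_uc.2 (hsub x hx)
      · intro hx
        have h2 := hcov (mem_uc.1 hx)
        exact (hmTL x).2 ⟨by omega, z, mem_uc.1 hx, hzp⟩
    have hcu : (uc z).card = 2 := by rw [← hTLu]; exact hT
    refine ⟨z, hlz, hcu, hTLu, ?_⟩
    have hle : ∀ x, cl z x ≤ e x := by
      intro x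
      unfold cl
      split_ifs with hx
      · rcases hx with hx | hx
        · rw [hx]; exact hzp
        · rw [← hTLu] at hx; exact hposTL x hx
      · exact Nat.zero_le _
    have hs := LowD_sum_cl (i := i) H hcu
    set f : P → ℕ := fun x => e x - cl z x with hf
    have hef : ∀ x, e x = cl z x + f x := fun x => by
      have := hle x
      simp only [hf]; omega
    have hsum : ∑ x, e x = 3 + ∑ x, f x := by
      rw [Finset.sum_congr rfl (fun x _ => hef x), Finset.sum_add_distrib, hs]
    rcases Nat.eq_zero_or_pos (∑ x, f x) with h0 | h0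
    · left
      funext x
      have h2 := (Finset.sum_eq_zero_iff.1 h0) x (mem_univ x)
      rw [hef x, h2, add_zero]
    · right
      have h3 : ∑ x, f x = 1 := by omega
      obtain ⟨y, -, hy⟩ := Finset.exists_ne_zero_of_sum_ne_zero (s := univ) (f := f) (by omega)
      refine ⟨y, ?_⟩
      have h4 := LowD_ind (e := f) (S := {y}) (fun x hx => by
        rw [mem_singleton] at hx; rw [hx]; exact Nat.pos_of_ne_zero hy) (by
          rw [h3, Finset.card_singleton])
      funext x
      rw [Pi.add_apply, hef x, h4 x]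
      congr 1
      unfold sg
      by_cases hxy : x = y
      · subst hxy; simp
      · simp [hxy]
  · right
    have hc : (LF i e).card = 2 := by omega
    refine ⟨hc, ?_⟩
    apply LowD_ind
    · intro x hx
      rcases Finset.mem_union.1 hx with hx | hx
      · exact hposTL x hx
      · exact ((hmLF x).1 hx).2
    · have hd : Disjoint (TL i e) (LF i e) := by
        rw [Finset.disjoint_left]
        intro x hx hx2
        have h2 := ((hmTL x).1 hx).1
        have h3 := ((hmLF x).1 hx2).1
        omega
      rw [Finset.card_union_of_disjoint hd, hT, hc]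
      exact hn

end Pool.Agent.GaussPoset.Win
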