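import Pool.Agent.W_448win_h16.BwB
import Pool.Agent.W_448win_h16.LowD
import Pool.Agent.W_448win_h16.ExpC
import Pool.Agent.W_448win_h16.ClA

/-! Bad window, cores of energy at most three, nothing touched above. -/

namespace Pool.Agent.GaussPoset.Win

set_option linter.unusedSectionVars false

open Finset

universe u

variable {P : Type u} [Fintype P] [PartialOrder P] [DecidableEq P] {r : ℕ}

/-- If `e` is not admissible: `Rk_of_not_adm`. `|TL| = 0`: `none_val`; if `e w0 = 0` or `e u0 = 0` use `wts_one`; otherwise if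
`e q = 0` the function is zero (`wts_zero`); otherwise `e w0, e u0, e q ≥ 1` and the energy is at most three, so
`e = sg w0 + sg u0 + sg q` (the three are different: levels). `TL = {w}`: `one_low`: a far `z` and `w` have positive
labels (`energy_bound`: `|LF| ≥ 1` by `card_TL_le`), `w ≠ w0`, `w ≠ u0`, so `e w0 + e u0 ≤ 1`.
`|TL| = 2`: `two_touched`; the energy is at most three, so `e = cl z` (`cl z + sg y` has energy four, the second
alternative has energy four): `Fe_cl` and `Rk_chi` if `up j z ≤ 3` (`|sts| ≤ 3 ≤ 2 + 1`); `up j z ≤ 4`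
(each of the two upper covers has at most two upper covers, `mem_sts_iff`). `|TL| ≥ 3`: energy at least five
(`card_TL_le`, `energy_bound`). -/
theorem clsB3_low (H : Gr P r) {j : ℕ} (hj : 1 ≤ j) (hj2 : j + 1 ≤ r) {w0 u0 p q s : P}
    {psi : P → P} (B : BadW P j w0 u0 p q s psi) {e : P → ℕ}
    (hc : IsCore j {w0, u0} psi e) (hn : ∑ x, e x ≤ 3) (h2 : TU j e = ∅) :
    Rk (lv P j) 1 (Fe j e) ∨ e = sg w0 + sg u0 + sg q ∨
      (∃ z, lev z = j + 2 ∧ up j z = 4 ∧ e = cl z) := by
  classical
  by_cases hAd : AdmL j e ∧ AdmU j e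
  swap
  · exact Or.inl (Rk_of_not_adm hAd 1)
  obtain ⟨hA, hB⟩ := hAd
  have hjr : j ≤ r := by omega
  have hL := card_TL_le H (i := j) e
  have hE := energy_bound H hjr hA hB
  have hq : lev q = j := by
    have h1 : q ∈ uc w0 := by rw [B.w2]; simp
    have h3 := lev_uc H h1
    have h4 := B.hw
    omega
  have hlw := B.hw
  have hlu := B.hu
  have hwu : w0 ≠ u0 := by
    intro h
    rw [h] at hlw
    omega
  have hwq : w0 ≠ q := by
    intro h
    rw [h] at hlw
    omega
  have huq : u0 ≠ q := by
    intro h
    rw [h] at hlu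
    omega
  rcases Nat.lt_or_ge (TL j e).card 1 with h0 | h0
  · -- nothing touched
    have h1 : TL j e = ∅ := Finset.card_eq_zero.1 (by omega)
    have hv := none_val H hj hj2 B hA hB hc h1 h2
    by_cases ha : e w0 = 0 ∨ e u0 = 0
    · left
      exact Rk_congr (fun S _ => (hv S).symm) (wts_one H hj hj2 B e ha)
    · push Not at ha
      by_cases hq0 : e q = 0
      · left
        refine Rk_congr (f := fun _ => 0) (fun S _ => ?_) (Rk_zero _ _)
        rw [hv S, wts_zero B e (Nat.pos_of_ne_zero ha.1) (Nat.pos_of_ne_zero ha.2) hq0 S]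
      · right; left
        have hcard : ({w0, u0, q} : Finset P).card = 3 := by
          rw [Finset.card_insert_of_notMem, Finset.card_insert_of_notMem, Finset.card_singleton]
          · simpa using huq
          · simp [hwu, hwq]
        have h3 := LowD_ind (e := e) (S := {w0, u0, q}) (by
          intro x hx
          rw [Finset.mem_insert, Finset.mem_insert, Finset.mem_singleton] at hx
          rcases hx with hx | hx | hx
          · rw [hx]; exact Nat.pos_of_ne_zero ha.1
          · rw [hx]; exact Nat.pos_of_ne_zero ha.2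
          · rw [hx]; exact Nat.pos_of_ne_zero hq0) (by rw [hcard]; exact hn)
        funext x
        rw [h3 x, Pi.add_apply, Pi.add_apply]
        unfold sg
        by_cases hx1 : x = w0
        · subst hx1
          simp [hwu, hwq]
        · by_cases hx2 : x = u0
          · subst hx2
            simp [hwu.symm, huq]
          · by_cases hx3 : x = q
            · subst hx3
              simp [hwq.symm, huq.symm]
            · simp [hx1, hx2, hx3]
  rcases Nat.lt_or_ge (TL j e).card 2 with h0' | h0'
  · -- one touched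
    left
    obtain ⟨w, hw⟩ := Finset.card_eq_one.1 (show (TL j e).card = 1 by omega)
    obtain ⟨-, h4, h5⟩ := one_low H hj hj2 B hA hB hc hw h2
    refine h4 ?_
    by_contra hcon
    push Not at hcon
    have hwm : w ∈ TL j e := by rw [hw]; exact Finset.mem_singleton_self w
    have hwl := (LowB_TL.1 hwm).1
    have hwp := LowB_TL_pos H hA hwm
    have hne : (LF j e).Nonempty := by
      rw [← Finset.card_pos]
      omega
    obtain ⟨z, hz⟩ := hne
    obtain ⟨hzl, hzp⟩ := LowB_LF.1 hz
    have hwz : w ≠ z := by
      intro h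
      rw [← h] at hzl
      omega
    have hwu' : w ≠ u0 := by
      intro h
      rw [h] at hwl
      omega
    have hzw0 : z ≠ w0 := by
      intro h
      rw [h] at hzl
      omega
    have hzu0 : z ≠ u0 := by
      intro h
      rw [h] at hzl
      omega
    have hcard : ({w, z, w0, u0} : Finset P).card = 4 := by
      rw [Finset.card_insert_of_notMem, Finset.card_insert_of_notMem,
        Finset.card_insert_of_notMem, Finset.card_singleton]
      · simpa using hwu
      · simp [hzw0, hzu0]
      · simp [hwz, h5, hwu']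
    have hsum : ({w, z, w0, u0} : Finset P).card ≤ ∑ x, e x := by
      calc ({w, z, w0, u0} : Finset P).card = ∑ x ∈ ({w, z, w0, u0} : Finset P), 1 := by simp
        _ ≤ ∑ x ∈ ({w, z, w0, u0} : Finset P), e x := by
            apply Finset.sum_le_sum
            intro x hx
            rw [Finset.mem_insert, Finset.mem_insert, Finset.mem_insert,
              Finset.mem_singleton] at hx
            rcases hx with hx | hx | hx | hx
            · rw [hx]; exact hwp
            · rw [hx]; exact hzp
            · rw [hx]; exact Nat.pos_of_ne_zero hcon.1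
            · rw [hx]; exact Nat.pos_of_ne_zero hcon.2
        _ ≤ ∑ x, e x := Finset.sum_le_sum_of_subset (Finset.subset_univ _)
    omega
  rcases Nat.lt_or_ge (TL j e).card 3 with h0'' | h0''
  · -- two touched
    have hT : (TL j e).card = 2 := by omega
    rcases two_touched H hjr hA hB hT (by omega) with ⟨z, hz, hz2, hz3, hz4⟩ | ⟨h3, h4⟩
    · have hs := LowD_sum_cl (i := j) H hz2
      have hcl : e = cl z := by
        rcases hz4 with h | ⟨y, h⟩
        · exact h
        · exfalso
          rw [h] at hn
          have h5 : ∑ x, (cl z + sg y) x = ∑ x, cl z x + ∑ x, sg y x := by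
            rw [← Finset.sum_add_distrib]
            rfl
          have h6 : ∑ x, sg y x = 1 := by
            unfold sg
            rw [Finset.sum_pi_single']
            simp
          rw [h5, h6, hs] at hn
          omega
      have hsts4 : (sts j z).card ≤ 4 := by
        have h5 : sts j z ⊆ (uc z).biUnion uc := by
          intro v hv
          obtain ⟨w, hw, hwv⟩ := (mem_sts_iff H hz).1 hv
          rw [Finset.mem_biUnion]
          exact ⟨w, hw, hwv⟩
        calc (sts j z).card ≤ ((uc z).biUnion uc).card := Finset.card_le_card h5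
          _ ≤ (uc z).card * 2 := Finset.card_biUnion_le_card_mul _ _ _ (fun w _ => uc_card_le H w)
          _ = 4 := by rw [hz2]
      rcases Nat.lt_or_ge (sts j z).card 4 with h5 | h5
      · left
        rw [hcl]
        refine Rk_congr (f := fun S => dd ^ 2 * chi (sts j z) ∅ S) (fun S _ => ?_) ?_
        · rw [Fe_cl H hjr hz S, hz2]
        · refine Rk_chi (p := 2) ?_ (Finset.empty_subset _) ?_ (dvd_refl _)
          · intro v hv
            rw [mem_lv]
            exact (mem_sts.1 hv).1
          · rw [Finset.card_empty]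
            omega
      · right; right
        refine ⟨z, hz, ?_, hcl⟩
        rw [← card_sts]
        omega
    · exfalso
      rw [h2, Finset.card_empty] at hE
      omega
  · exfalso
    rw [h2, Finset.card_empty] at hE
    omega

/-- `w0` is not an upper cover of `z`: `fact` (`w0` is untouched, `cl z w0 = 0`) and `Fe_cl`: the weight is
`dd * [p, q ∈ S]` (sites have label zero). -/
theorem Fe_cl_w0 (H : Gr P r) {j : ℕ} (hj2 : j + 1 ≤ r) {w0 u0 p q s : P}
    {psi : P → P} (B : BadW P j w0 u0 p q s psi) {z : P} (hz : lev z = j + 2)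
    (hw : w0 ∉ uc z) (S : Finset P) :
    Fe j (cl z + sg w0) S = dd ^ ((uc z).card + 1) * chi (sts j z ∪ {p, q}) ∅ S := by
  classical
  have hlw := B.hw
  have hclz : ∀ v : P, lev v = j → cl z v = 0 := by
    intro v hv
    by_contra hcon
    rcases ExpC_cl_pos (Nat.pos_of_ne_zero hcon) with h | h
    · rw [h] at hv; omega
    · have := ExpC_lev_uc H hz h
      omega
  have h0 : cl z w0 = 0 := by
    by_contra hcon
    rcases ExpC_cl_pos (Nat.pos_of_ne_zero hcon) with h | h
    · rw [h] at hlw; omega
    · exact hw h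
  have hT : w0 ∉ Tch j (cl z) := by
    intro h
    rw [mem_Tch] at h
    rcases h with ⟨-, z', hz', hp⟩ | ⟨h, -⟩
    · have h3 := ExpC_cov H hz'
      rcases ExpC_cl_pos hp with h | h
      · rw [h] at hz'
        exact hw (mem_uc.2 hz')
      · have := ExpC_lev_uc H hz h
        omega
    · omega
  have hf := fact H (show j ≤ r by omega) (x := w0) (mem_near.2 (Or.inl hlw)) hT h0 1 S
  have hsg : cl z + sg w0 = cl z + Pi.single w0 1 := rfl
  have hall : ∀ v ∈ uc w0, cl z v < 1 := by
    intro v hv
    have h3 := lev_uc H hv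
    rw [hclz v (by omega)]
    exact one_pos
  have hfil : (uc w0).filter (fun v => cl z v < 1) = {p, q} := by
    rw [Finset.filter_true_of_mem hall, B.w2]
  rw [hsg, hf, Fe_cl H (show j ≤ r by omega) hz S, ExpA_wt_low hlw, ExpA_wtL, if_pos hall, hfil]
  have hchi : chi (sts j z) ∅ S * chi {p, q} ∅ S = chi (sts j z ∪ {p, q}) ∅ S := by
    unfold chi
    by_cases h3 : sts j z ⊆ S
    · by_cases h4 : ({p, q} : Finset P) ⊆ S
      · rw [if_pos ⟨h3, Finset.disjoint_empty_left _⟩, if_pos ⟨h4, Finset.disjoint_empty_left _⟩,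
          if_pos ⟨Finset.union_subset h3 h4, Finset.disjoint_empty_left _⟩, one_mul]
      · rw [if_neg (c := {p, q} ⊆ S ∧ Disjoint ∅ S) (fun h => h4 h.1),
          if_neg (c := sts j z ∪ {p, q} ⊆ S ∧ Disjoint ∅ S)
            (fun h => h4 ((Finset.union_subset_iff.1 h.1).2)), mul_zero]
    · rw [if_neg (c := sts j z ⊆ S ∧ Disjoint ∅ S) (fun h => h3 h.1),
        if_neg (c := sts j z ∪ {p, q} ⊆ S ∧ Disjoint ∅ S)
          (fun h => h3 ((Finset.union_subset_iff.1 h.1).1)), zero_mul]
  rw [← hchi, pow_succ]
  ring

/-- `fact` for `u0` (untouched) and `Fe_cl`: the weight is `xi * dd * [q, s ∉ S]`. -/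
theorem Fe_cl_u0 (H : Gr P r) {j : ℕ} (hj2 : j + 1 ≤ r) {w0 u0 p q s : P}
    {psi : P → P} (B : BadW P j w0 u0 p q s psi) {z : P} (hz : lev z = j + 2)
    (S : Finset P) :
    Fe j (cl z + sg u0) S = xi * dd ^ ((uc z).card + 1) * chi (sts j z) {q, s} S := by
  classical
  have hlu := B.hu
  have hclz : ∀ v : P, lev v ≤ j → cl z v = 0 := by
    intro v hv
    by_contra hcon
    rcases ExpC_cl_pos (Nat.pos_of_ne_zero hcon) with h | h
    · rw [h] at hv; omega
    · have := ExpC_lev_uc H hz h
      omega
  have h0 : cl z u0 = 0 := hclz u0 (by omega)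
  have hT : u0 ∉ Tch j (cl z) := by
    intro h
    rw [mem_Tch] at h
    rcases h with ⟨h, -⟩ | ⟨-, y, hy, hp⟩
    · omega
    · have h3 := ExpC_cov H hy
      rw [hclz y (by omega)] at hp
      omega
  have hf := fact H (show j ≤ r by omega) (x := u0) (mem_near.2 (Or.inr hlu)) hT h0 1 S
  have hsg : cl z + sg u0 = cl z + Pi.single u0 1 := rfl
  have hall : ∀ v ∈ dc u0, cl z v < 1 := by
    intro v hv
    have h3 := lev_dc H hv
    rw [hclz v (by omega)]
    exact one_pos
  have hfil : (dc u0).filter (fun v => cl z v < 1) = {q, s} := by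
    rw [Finset.filter_true_of_mem hall, B.u2]
  rw [hsg, hf, Fe_cl H (show j ≤ r by omega) hz S, ExpA_wt_upp hlu, ExpA_wtU, if_pos hall, hfil]
  have hchi : chi (sts j z) ∅ S * chi ∅ {q, s} S = chi (sts j z) {q, s} S := by
    unfold chi
    by_cases h3 : sts j z ⊆ S
    · by_cases h4 : Disjoint ({q, s} : Finset P) S
      · rw [if_pos ⟨h3, Finset.disjoint_empty_left _⟩, if_pos ⟨Finset.empty_subset _, h4⟩,
          if_pos ⟨h3, h4⟩, one_mul]
      · rw [if_neg (c := ∅ ⊆ S ∧ Disjoint {q, s} S) (fun h => h4 h.2),
          if_neg (c := sts j z ⊆ S ∧ Disjoint {q, s} S) (fun h => h4 h.2), mul_zero]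
    · rw [if_neg (c := sts j z ⊆ S ∧ Disjoint ∅ S) (fun h => h3 h.1),
        if_neg (c := sts j z ⊆ S ∧ Disjoint {q, s} S) (fun h => h3 h.1), zero_mul]
  rw [← hchi, pow_succ]
  ring

end Pool.Agent.GaussPoset.Win
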