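import Pool.Agent.W_448win_h16.BwC

/-! Bad window, cores of energy at most four, nothing touched above. -/

namespace Pool.Agent.GaussPoset.Win

set_option linter.unusedSectionVars false

open Finset

universe u

variable {P : Type u} [Fintype P] [PartialOrder P] [DecidableEq P] {r : ℕ}

lemma bwd_biUnion_le (H : Gr P r) (s : Finset P) (h : s.card ≤ 2) : (s.biUnion uc).card ≤ 4 := by
  have h2 : (s.biUnion uc).card ≤ ∑ w ∈ s, (uc w).card := Finset.card_biUnion_le
  have h3 : ∑ w ∈ s, (uc w).card ≤ ∑ _w ∈ s, 2 := Finset.sum_le_sum (fun w _ => uc_card_le H w)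
  rw [Finset.sum_const, smul_eq_mul] at h3
  omega

/-- the number of sites above a far element of level `i + 2` -/
lemma bwd_sts_le (H : Gr P r) {i : ℕ} {z : P} (hz : lev z = i + 2) : (sts i z).card ≤ 4 := by
  have h1 : sts i z ⊆ (uc z).biUnion uc := by
    intro v hv
    rw [mem_sts_iff H hz] at hv
    obtain ⟨w, hw, hv⟩ := hv
    exact Finset.mem_biUnion.2 ⟨w, hw, hv⟩
  exact (Finset.card_le_card h1).trans (bwd_biUnion_le H _ (uc_card_le H z))

lemma bwd_sts_sub (i : ℕ) (z : P) : sts i z ⊆ lv P i := by
  intro v hv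
  rw [mem_lv]
  exact (mem_sts.1 hv).1

/-- the values of `cl z` -/
lemma bwd_cl (z x : P) : cl z x = if x = z ∨ x ∈ uc z then 1 else 0 := rfl

lemma bwd_sg (y x : P) : sg y x = if x = y then 1 else 0 := by
  unfold sg
  rw [Pi.single_apply]

lemma bwd_cl_zero (H : Gr P r) {j : ℕ} {z x : P} (hz : lev z = j + 2) (hx : lev x ≤ j) :
    cl z x = 0 := by
  rw [bwd_cl, if_neg]
  rintro (rfl | h)
  · omega
  · have := lev_uc H h
    omega

/-- a sum of a monomial function -/
lemma bwd_Rk {j k p : ℕ} {B C : Finset P} {a : A} {f : Finset P → A} (hB : B ⊆ lv P j)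
    (hC : C ⊆ lv P j) (hf : ∀ S, f S = a * chi B C S) (ha : dd ^ p ∣ a)
    (h : B.card + C.card ≤ p + k) : Rk (lv P j) k f :=
  Rk_congr (fun S _ => (hf S).symm) (Rk_chi hB hC h ha)

/-- The case `|TL| = 2`, `e = cl z + sg y`. All `up j z ≤ 4`. `y = z`: `Fe_cl_z`, `Rk_chi` if `up j z ≤ 3`, otherwise
the first exception. `y ∈ uc z` or `y` a site not common to the two upper covers: `cheap_cl`,
`up j z - 2 ≤ 2`. `y` a common site: then `up j z ≤ 3` and `Fe_cl_v` with at most two sites. `y = w0`, not in
`uc z`: `Fe_cl_w0`, in `Rk _ 2` if the union has at most five elements, otherwise `up j z = 4` and the sets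
are disjoint. `y = u0`: `Fe_cl_u0`, in `Rk _ 2` if `up j z ≤ 3`, zero if the sets meet, otherwise the third exception. `y` near,
not in `uc z`, not `w0`, `u0`: it is untouched, so by `core_near'` it is double and `psi y` is touched, i.e. in
`uc z`; then `y` is in `dbU` with `dc y = uc (psi y)` (`B.mat`), and by `fact` the function is
`Fe (cl z)` times a weight which vanishes where `sts j z ⊆ S` (the sites of `psi y` have label zero, are in
`S` and must not be in `S`). `y` of level `≥ j + 2`, `y ≠ z`: then `e` is one on `TL ∪ LF`, `|LF| = 2`: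
`cheap_ind` with `k = 2` (`|biUnion| ≤ 4`). `y` of level `≤ j - 2`: `far_zero_of_TU`. -/
theorem clsB4_cl (H : Gr P r) {j : ℕ} (hj : 1 ≤ j) (hj2 : j + 1 ≤ r) {w0 u0 p q s : P}
    {psi : P → P} (B : BadW P j w0 u0 p q s psi) {z y : P} (hz : lev z = j + 2)
    (hz2 : (uc z).card = 2) (hA : AdmL j (cl z + sg y)) (hB : AdmU j (cl z + sg y))
    (hc : IsCore j {w0, u0} psi (cl z + sg y)) (hT : TL j (cl z + sg y) = uc z)
    (h2 : TU j (cl z + sg y) = ∅) :
    Rk (lv P j) 2 (Fe j (cl z + sg y)) ∨ (up j z = 4 ∧ (y = z ∨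
      (y = w0 ∧ Disjoint (sts j z) {p, q}) ∨ (y = u0 ∧ Disjoint (sts j z) {q, s}))) := by
  classical
  have hjr : j ≤ r := by omega
  have hst := bwd_sts_le H hz
  have hup : up j z = (sts j z).card := (card_sts j z).symm
  have hsub := bwd_sts_sub j z
  have hey : (cl z + sg y) y ≠ 0 := by
    rw [Pi.add_apply, bwd_sg, if_pos rfl]
    omega
  have hcheap : Cheap (up j z - 2) j (cl z + sg y) → Rk (lv P j) 2 (Fe j (cl z + sg y)) := by
    intro h
    exact Rk_of_cheap (Cheap.mono (by omega) h)
  by_cases hyz : y = z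
  · subst hyz
    by_cases h4 : up j y = 4
    · exact Or.inr ⟨h4, Or.inl rfl⟩
    · left
      refine bwd_Rk hsub (Finset.empty_subset _) (fun S => Fe_cl_z H hjr hz S) (p := 1) ?_ ?_
      · rw [pow_one]
        exact Dvd.intro_left _ rfl
      · rw [Finset.card_empty]
        omega
  by_cases hyu : y ∈ uc z
  · exact Or.inl (hcheap (cheap_cl H hjr hz hz2 (Or.inl hyu)))
  rcases Nat.lt_or_ge (j + 1) (lev y) with hl | hl
  · -- far below
    left
    have hLF : LF j (cl z + sg y) = {z, y} := by
      ext x
      unfold LF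
      rw [Finset.mem_filter, Finset.mem_insert, Finset.mem_singleton, Pi.add_apply, bwd_cl, bwd_sg]
      constructor
      · rintro ⟨_, h3, h4⟩
        by_contra hcon
        push Not at hcon
        have h5 : x ∉ uc z := by
          intro h
          have := lev_uc H h
          omega
        rw [if_neg (by tauto), if_neg hcon.2] at h4
        omega
      · rintro (rfl | rfl)
        · refine ⟨Finset.mem_univ _, by omega, ?_⟩
          rw [if_pos (Or.inl rfl)]
          omega
        · refine ⟨Finset.mem_univ _, by omega, ?_⟩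
          rw [if_pos (rfl : x = x)]
          omega
    apply Rk_of_cheap
    refine cheap_ind H hjr (by rw [hT, hz2]) ?_ ?_ 2 ?_
    · rw [h2, Finset.empty_union, Finset.eq_empty_iff_forall_notMem]
      intro x hx
      unfold UF at hx
      rw [Finset.mem_filter, Pi.add_apply, bwd_cl_zero H hz (by omega : lev x ≤ j), bwd_sg,
        if_neg] at hx
      · omega
      · rintro rfl
        omega
    · intro x
      rw [hT, hLF, Pi.add_apply, bwd_cl, bwd_sg]
      simp only [Finset.mem_union, Finset.mem_insert, Finset.mem_singleton]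
      by_cases hxy : x = y
      · subst hxy
        rw [if_neg (by tauto), if_pos rfl, if_pos (by tauto)]
      · rw [if_neg hxy, add_zero]
        by_cases h5 : x = z ∨ x ∈ uc z
        · rw [if_pos h5, if_pos (by tauto)]
        · rw [if_neg h5, if_neg (by tauto)]
    · rw [hT]
      exact bwd_biUnion_le H _ hz2.le
  rcases hl.eq_or_lt with hl1 | hl1
  · -- level `j + 1`, not an upper cover of `z`
    by_cases hw : y = w0
    · subst hw
      have hpq : ({p, q} : Finset P) ⊆ lv P j := by
        rw [← B.w2]
        intro v hv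
        rw [mem_lv]
        have := lev_uc H hv
        omega
      have hcard2 : ({p, q} : Finset P).card = 2 := Finset.card_pair B.pq
      by_cases h5 : (sts j z ∪ {p, q}).card ≤ 5
      · left
        refine bwd_Rk (Finset.union_subset hsub hpq) (Finset.empty_subset _)
          (fun S => Fe_cl_w0 H hj2 B hz hyu S) (p := 3) ?_ ?_
        · rw [hz2]
        · rw [Finset.card_empty]
          omega
      · right
        have h6 := Finset.card_union_add_card_inter (sts j z) {p, q}
        refine ⟨by omega, Or.inr (Or.inl ⟨rfl, ?_⟩)⟩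
        rw [Finset.disjoint_iff_inter_eq_empty, ← Finset.card_eq_zero]
        omega
    · -- untouched, so double with touched partner, impossible
      exfalso
      have hyn : y ∈ near P j := mem_near.2 (Or.inl hl1)
      have hyK : y ∉ ({w0, u0} : Finset P) := by
        rw [Finset.mem_insert, Finset.mem_singleton]
        rintro (h | h)
        · exact hw h
        · have := B.hu
          rw [← h] at this
          omega
      have hTch : Tch j (cl z + sg y) = uc z := by
        rw [Tch_eq, hT, h2, Finset.union_empty]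
      rcases core_near' hc hyn hey with h | h | ⟨h, h'⟩
      · exact hyK h
      · rw [hTch] at h
        exact hyu h
      · rw [hTch] at h'
        have h6 := lev_uc H h'
        rcases Finset.mem_union.1 h with h7 | h7
        · have h8 := (B.mat.low y h7 hyK).1
          have := (mem_dbU.1 h8).1
          omega
        · have := (mem_dbU.1 h7).1
          omega
  rcases (Nat.lt_succ_iff.1 hl1).eq_or_lt with hl2 | hl2
  · -- a site
    by_cases hcom : ∀ w ∈ uc z, y ∈ uc w
    · left
      refine bwd_Rk (a := 1) (B := (sts j z).erase y) ((Finset.erase_subset _ _).trans hsub)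
        (Finset.empty_subset _) (fun S => ?_) (p := 0) ?_ ?_
      · rw [one_mul]
        exact Fe_cl_v H hjr hz hl2 hcom S
      · rw [pow_zero]
      · rw [Finset.card_empty]
        have h5 : (sts j z).erase y ⊆ (uc z).biUnion (fun w => (uc w).erase y) := by
          intro v hv
          rw [Finset.mem_erase, mem_sts_iff H hz] at hv
          obtain ⟨hvy, w, hw, hv⟩ := hv
          exact Finset.mem_biUnion.2 ⟨w, hw, Finset.mem_erase.2 ⟨hvy, hv⟩⟩
        have h6 : ((uc z).biUnion (fun w => (uc w).erase y)).card ≤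
            ∑ w ∈ uc z, ((uc w).erase y).card := Finset.card_biUnion_le
        have h7 : ∑ w ∈ uc z, ((uc w).erase y).card ≤ ∑ _w ∈ uc z, 1 := by
          apply Finset.sum_le_sum
          intro w hw
          rw [Finset.card_erase_of_mem (hcom w hw)]
          have := uc_card_le H w
          omega
        rw [Finset.sum_const, smul_eq_mul, hz2] at h7
        have h8 := Finset.card_le_card h5
        omega
    · exact Or.inl (hcheap (cheap_cl H hjr hz hz2 (Or.inr ⟨hl2, hcom⟩)))
  rcases Nat.lt_or_ge (lev y + 1) j with hl3 | hl3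
  · exact absurd (far_zero_of_TU H hjr hB h2 hl3) hey
  have hl4 : lev y + 1 = j := by omega
  by_cases hu : y = u0
  · subst hu
    have hqs : ({q, s} : Finset P) ⊆ lv P j := by
      rw [← B.u2]
      intro v hv
      rw [mem_lv]
      have := lev_dc H hv
      omega
    have hcard2 : ({q, s} : Finset P).card = 2 := Finset.card_pair B.qs
    by_cases h4 : up j z = 4
    · by_cases hd : Disjoint (sts j z) {q, s}
      · exact Or.inr ⟨h4, Or.inr (Or.inr ⟨rfl, hd⟩)⟩
      · left
        refine Rk_congr (f := fun _ => 0) (fun S _ => ?_) (Rk_zero _ _)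
        rw [Fe_cl_u0 H hj2 B hz S]
        unfold chi
        rw [if_neg, mul_zero]
        rintro ⟨h6, h7⟩
        apply hd
        exact (h7.symm.mono_left h6)
    · left
      refine bwd_Rk hsub hqs (fun S => Fe_cl_u0 H hj2 B hz S) (p := 3) ?_ ?_
      · rw [hz2]
        exact Dvd.intro_left _ rfl
      · omega
  · have hyn : y ∈ near P j := mem_near.2 (Or.inr hl4)
    have hyK : y ∉ ({w0, u0} : Finset P) := by
      rw [Finset.mem_insert, Finset.mem_singleton]
      rintro (h | h)
      · have := B.hw
        rw [← h] at this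
        omega
      · exact hu h
    have hTch : Tch j (cl z + sg y) = uc z := by
      rw [Tch_eq, hT, h2, Finset.union_empty]
    rcases core_near' hc hyn hey with h | h | ⟨h, h'⟩
    · exact absurd h hyK
    · rw [hTch] at h
      exact absurd h hyu
    · rw [hTch] at h'
      left
      have hdb : y ∈ dbU P j := by
        rcases Finset.mem_union.1 h with h7 | h7
        · have := (mem_dbL.1 h7).1
          omega
        · exact h7
      obtain ⟨hpsi, hpsi2⟩ := B.mat.upp y hdb hyK
      refine Rk_congr (f := fun _ => 0) (fun S _ => ?_) (Rk_zero _ _)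
      have hu1 : y ∉ Tch j (cl z) := by
        rw [mem_Tch]
        rintro (⟨h8, _⟩ | ⟨_, y', hy', hpos⟩)
        · omega
        · have h9 := (H.covBy_iff.1 hy').2
          rw [bwd_cl_zero H hz (by omega : lev y' ≤ j)] at hpos
          omega
      have hu2 : cl z y = 0 := bwd_cl_zero H hz (by omega)
      have hfact := fact H hjr hyn hu1 hu2 1 S
      have hfact2 : Fe j (cl z + sg y) S = Fe j (cl z) S * wt j (cl z) y 1 S := hfact
      rw [hfact2, Fe_cl H hjr hz S]
      symm
      have hwt : wt j (cl z) y 1 S = wtU (cl z) y 1 S := by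
        unfold wt
        rw [if_neg (by omega)]
      rw [hwt]
      by_cases hS : sts j z ⊆ S
      · have hcard := (mem_dbU.1 hdb).2
        obtain ⟨v, hv⟩ : (dc y).Nonempty := Finset.card_pos.1 (by omega)
        have hvS : v ∈ S := by
          apply hS
          rw [mem_sts_iff H hz]
          refine ⟨psi y, h', ?_⟩
          rw [hpsi2]
          exact hv
        have hv0 : cl z v = 0 := by
          apply bwd_cl_zero H hz
          have := lev_dc H hv
          omega
        have hzero : wtU (cl z) y 1 S = 0 := by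
          have hn : ¬ ∀ v ∈ dc y, cl z v < 1 → v ∉ S := fun hcon => hcon v hv (by omega) hvS
          unfold wtU
          rw [if_neg hn, mul_zero]
        rw [hzero, mul_zero]
      · have hzero : chi (sts j z) ∅ S = 0 := by
          unfold chi
          rw [if_neg]
          rintro ⟨h6, _⟩
          exact hS h6
        rw [hzero, mul_zero, zero_mul]

/-- Not admissible: `Rk_of_not_adm`. `|TL| = 0`: `none_val`, `wts_two`. `|TL| = 1`: `one_low`. `|TL| ≥ 3`: energy at least five.
`|TL| = 2`: `two_touched`; `e = cl z`: `Fe_cl`, `Rk_chi` (`|sts| ≤ 4 = 2 + 2`); `e = cl z + sg y`: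
`clsB4_cl`; second alternative: `cheap_ind` with `k = 2`. -/
theorem clsB4_low (H : Gr P r) {j : ℕ} (hj : 1 ≤ j) (hj2 : j + 1 ≤ r) {w0 u0 p q s : P}
    {psi : P → P} (B : BadW P j w0 u0 p q s psi) {e : P → ℕ}
    (hc : IsCore j {w0, u0} psi e) (hn : ∑ x, e x ≤ 4) (h2 : TU j e = ∅) :
    Rk (lv P j) 2 (Fe j e) ∨ (∃ z, lev z = j + 2 ∧ up j z = 4 ∧
      (e = cl z + sg z ∨ (e = cl z + sg w0 ∧ Disjoint (sts j z) {p, q}) ∨
        (e = cl z + sg u0 ∧ Disjoint (sts j z) {q, s}))) := by
  classical
  have hjr : j ≤ r := by omega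
  by_cases hadm : AdmL j e ∧ AdmU j e
  swap
  · exact Or.inl (Rk_of_not_adm hadm 2)
  obtain ⟨hA, hB⟩ := hadm
  have hE := energy_bound H hjr hA hB
  have hT := card_TL_le H (i := j) e
  rcases Nat.lt_or_ge 2 (TL j e).card with h | h
  · omega
  interval_cases hcard : (TL j e).card
  · left
    refine Rk_congr (fun S _ => ?_) (wts_two H hj hj2 B e (e w0) (e u0))
    exact (none_val H hj hj2 B hA hB hc (Finset.card_eq_zero.1 hcard) h2 S).symm
  · obtain ⟨w, hw⟩ := Finset.card_eq_one.1 hcard
    exact Or.inl (one_low H hj hj2 B hA hB hc hw h2).1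
  · rcases two_touched H hjr hA hB hcard hn with ⟨z, hz, hz2, hTz, he | ⟨y, he⟩⟩ | ⟨hL, he⟩
    · left
      rw [he]
      have hst := bwd_sts_le H hz
      refine bwd_Rk (bwd_sts_sub j z) (Finset.empty_subset _) (fun S => Fe_cl H hjr hz S)
        (dvd_refl _) ?_
      rw [Finset.card_empty]
      omega
    · subst he
      rcases clsB4_cl H hj hj2 B hz hz2 hA hB hc hTz h2 with h3 | ⟨h3, h4 | ⟨h4, h5⟩ | ⟨h4, h5⟩⟩
      · exact Or.inl h3
      · exact Or.inr ⟨z, hz, h3, Or.inl (by rw [h4])⟩
      · exact Or.inr ⟨z, hz, h3, Or.inr (Or.inl ⟨by rw [h4], h5⟩)⟩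
      · exact Or.inr ⟨z, hz, h3, Or.inr (Or.inr ⟨by rw [h4], h5⟩)⟩
    · left
      apply Rk_of_cheap
      refine cheap_ind H hjr hcard ?_ he 2 ?_
      · rw [h2, Finset.empty_union, ← Finset.card_eq_zero]
        omega
      · exact bwd_biUnion_le H _ hcard.le

end Pool.Agent.GaussPoset.Win
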