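import Pool.Agent.W_448win_h16.PlA
import Pool.Agent.W_448win_h16.ExpD
import Pool.Agent.W_448win_h16.ClD
import Pool.Agent.W_448win_h16.CoreC

/-! Sum over cl z and cu x; identity (32). -/

namespace Pool.Agent.GaussPoset.Win

set_option linter.unusedSectionVars false

open Finset

universe u

variable {P : Type u} [Fintype P] [PartialOrder P] [DecidableEq P] {r : ℕ}

lemma PlB_cl {z x : P} (h : cl z x = 1) : x = z ∨ x ∈ uc z := by
  unfold cl at h
  by_contra hcon
  rw [if_neg hcon] at h
  omega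

lemma PlB_cu {z x : P} (h : cu z x = 1) : x = z ∨ x ∈ dc z := by
  unfold cu at h
  by_contra hcon
  rw [if_neg hcon] at h
  omega

lemma PlB_cl_self (z : P) : cl z z = 1 := by
  unfold cl
  rw [if_pos (Or.inl rfl)]

lemma PlB_cu_self (z : P) : cu z z = 1 := by
  unfold cu
  rw [if_pos (Or.inl rfl)]

/-- `cl` is injective on level `i+2` (`cl z z' = 1` implies `z' = z` or `z' ∈ uc z`, the latter has a
smaller level: a cover is a strict inequality, `lev_strictAnti`), `cu` is injective on level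
`i-2`, and the images are disjoint (`cl z z = 1`, `cu x z = 0` since `z` is neither `x` nor a lower
cover of `x`: levels): `Finset.sum_union`, `Finset.sum_image`. -/
theorem sum_images (H : Gr P r) {i : ℕ} (Z X : Finset P) (hZ : ∀ z ∈ Z, lev z = i + 2)
    (hX : ∀ x ∈ X, lev x + 2 = i) (f : (P → ℕ) → A) :
    ∑ e ∈ Z.image cl ∪ X.image cu, f e = ∑ z ∈ Z, f (cl z) + ∑ x ∈ X, f (cu x) := by
  have h1 : ∀ z ∈ Z, ∀ z' ∈ Z, cl z = cl z' → z = z' := by
    intro z hz z' hz' he
    have h2 : cl z' z = 1 := by rw [← he, PlB_cl_self]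
    rcases PlB_cl h2 with h3 | h3
    · exact h3
    · have h4 := lev_uc H h3
      have h5 := hZ z hz
      have h6 := hZ z' hz'
      omega
  have h2 : ∀ x ∈ X, ∀ x' ∈ X, cu x = cu x' → x = x' := by
    intro x hx x' hx' he
    have h2 : cu x' x = 1 := by rw [← he, PlB_cu_self]
    rcases PlB_cu h2 with h3 | h3
    · exact h3
    · have h4 := lev_dc H h3
      have h5 := hX x hx
      have h6 := hX x' hx'
      omega
  have h3 : Disjoint (Z.image cl) (X.image cu) := by
    rw [Finset.disjoint_left]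
    intro e he he'
    obtain ⟨z, hz, rfl⟩ := Finset.mem_image.1 he
    obtain ⟨x, hx, hxe⟩ := Finset.mem_image.1 he'
    have h4 : cu x z = 1 := by rw [hxe, PlB_cl_self]
    have h5 := hZ z hz
    have h6 := hX x hx
    rcases PlB_cu h4 with h7 | h7
    · rw [h7] at h5
      omega
    · have h8 := lev_dc H h7
      omega
  rw [Finset.sum_union h3, Finset.sum_image h1, Finset.sum_image h2]

/-- A core with energy at most three has `TL = ∅` or `TU = ∅`, or is not admissible:
`energy_bound`, `card_TL_le`, `card_TU_le` (if both are nonempty then also `LF`, `UF` are). -/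
theorem low_or_upp (H : Gr P r) {i : ℕ} (hi : i ≤ r) {e : P → ℕ} (hn : ∑ x, e x ≤ 3) :
    ¬ (AdmL i e ∧ AdmU i e) ∨ TL i e = ∅ ∨ TU i e = ∅ := by
  by_cases hA : AdmL i e ∧ AdmU i e
  swap
  · exact Or.inl hA
  right
  by_contra hcon
  push Not at hcon
  obtain ⟨h1, h2⟩ := hcon
  have h3 := Finset.card_pos.2 h1
  have h4 := Finset.card_pos.2 h2
  have h5 := energy_bound H hi hA.1 hA.2
  have h6 := card_TL_le H (i := i) e
  have h7 := card_TU_le H (i := i) e
  omega

/-- at most two upper covers, each with at most two upper covers -/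
theorem up_le_four (H : Gr P r) {i : ℕ} {z : P} (hz : lev z = i + 2) :
    up i z ≤ 2 * (uc z).card ∧ up i z ≤ (lv P i).card := by
  classical
  rw [← card_sts]
  constructor
  · have h1 : sts i z ⊆ (uc z).biUnion uc := by
      intro v hv
      obtain ⟨w, hw, hv2⟩ := (mem_sts_iff H hz).1 hv
      exact Finset.mem_biUnion.2 ⟨w, hw, hv2⟩
    calc (sts i z).card ≤ ((uc z).biUnion uc).card := Finset.card_le_card h1
      _ ≤ (uc z).card * 2 := Finset.card_biUnion_le_card_mul _ _ _ (fun w _ => uc_card_le H w)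
      _ = 2 * (uc z).card := mul_comm _ _
  · exact Finset.card_le_card fun v hv => mem_lv.2 (mem_sts.1 hv).1

/-- mirror image of `up_le_four` -/
theorem dn_le_four (H : Gr P r) {i : ℕ} (hi : i ≤ r) {x : P} (hx : lev x + 2 = i) :
    dn i x ≤ 2 * (dc x).card ∧ dn i x ≤ (lv P i).card := by
  classical
  rw [← card_stD]
  constructor
  · have h1 : stD i x ⊆ (dc x).biUnion dc := by
      intro v hv
      obtain ⟨w, hw, hv2⟩ := (mem_stD_iff H hx).1 hv
      exact Finset.mem_biUnion.2 ⟨w, hw, hv2⟩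
    calc (stD i x).card ≤ ((dc x).biUnion dc).card := Finset.card_le_card h1
      _ ≤ (dc x).card * 2 := Finset.card_biUnion_le_card_mul _ _ _ (fun w _ => dc_card_le H w)
      _ = 2 * (dc x).card := mul_comm _ _
  · exact Finset.card_le_card fun v hv => mem_lv.2 (mem_stD.1 hv).1

open Classical in
/-- Energy three, one deficit. Take `psi` from `good_mat`, `S = Z.image cl ∪ X.image cu` with `Z` the elements
`z` of level `i+2` with `up i z = 4` and `X` the elements `x` of level `i-2` with `dn i x = 4`; `core_sum_set` with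
`K = ∅`, `n = 3`, `k = 1`. Elements of `S` are cores (`isCore_cl_add`, `isCore_cu_add` with
`f = 0`) of energy `3` (`(uc z).card = 2` by `up_le_four` and `uc_card_le`). The other cores of
energy at most three are in `Rk _ 1`: `low_or_upp`, `Rk_of_not_adm`, `cls3_low`, `cls3_upp` (for
energy at most two the exceptional case is impossible since `cl z` has energy three).
By `sum_images`, `trm_cl`, `trm_cu` the sum is
`dd ^ (b - 2) * (N * xx ^ 4 + M * xi ^ 2)`, `b = |lv P i| ≥ 4` unless `Z` and `X` are empty, and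
`dd ^ (b - 1)` divides it, so `N + M = 0` by `cc_of_dvd`, `cc_xx`, `cc_xi`. -/
theorem I32_count (H : Gr P r) {i : ℕ} (hi : 1 ≤ i) (hi2 : i + 1 ≤ r) (hg : Good P i) :
    ((univ.filter (fun z : P => lev z = i + 2 ∧ up i z = 4)).card : ℤ) +
      (univ.filter (fun x : P => lev x + 2 = i ∧ dn i x = 4)).card = 0 := by
  obtain ⟨psi, hM⟩ := good_mat H hg
  have hir : i ≤ r := by omega
  set Z : Finset P := univ.filter (fun z : P => lev z = i + 2 ∧ up i z = 4) with hZdef
  set X : Finset P := univ.filter (fun x : P => lev x + 2 = i ∧ dn i x = 4) with hXdef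
  have hZ : ∀ z ∈ Z, lev z = i + 2 ∧ up i z = 4 := fun z hz => (Finset.mem_filter.1 hz).2
  have hX : ∀ x ∈ X, lev x + 2 = i ∧ dn i x = 4 := fun x hx => (Finset.mem_filter.1 hx).2
  have hZ2 : ∀ z : P, lev z = i + 2 → up i z = 4 → (uc z).card = 2 ∧ 4 ≤ (lv P i).card := by
    intro z hz hz4
    obtain ⟨h1, h2⟩ := up_le_four H hz
    have h3 := uc_card_le H z
    omega
  have hX2 : ∀ x : P, lev x + 2 = i → dn i x = 4 → (dc x).card = 2 ∧ 4 ≤ (lv P i).card := by
    intro x hx hx4
    obtain ⟨h1, h2⟩ := dn_le_four H hir hx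
    have h3 := dc_card_le H x
    omega
  have hcls : ∀ e : P → ℕ, IsCore i ∅ psi e → ∑ x, e x ≤ 3 → Rk (lv P i) 1 (Fe i e) ∨
      (∃ z, lev z = i + 2 ∧ up i z = 4 ∧ e = cl z) ∨
      (∃ x, lev x + 2 = i ∧ dn i x = 4 ∧ e = cu x) := by
    intro e hc hn
    rcases low_or_upp H hir hn with h | h | h
    · exact Or.inl (Rk_of_not_adm h 1)
    · rcases cls3_upp H hi hi2 hM hc hn h with h1 | h1
      · exact Or.inl h1
      · exact Or.inr (Or.inr h1)
    · rcases cls3_low H hi hi2 hM hc hn h with h1 | h1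
      · exact Or.inl h1
      · exact Or.inr (Or.inl h1)
  have key := core_sum_set H hi hi2 hM 3 1 (fun e hc hn => by
    rcases hcls e hc hn.le with h | ⟨z, h1, h2, h3⟩ | ⟨x, h1, h2, h3⟩
    · exact h
    · rw [h3, sum_cl_val, (hZ2 z h1 h2).1] at hn
      omega
    · rw [h3, sum_cu_val, (hX2 x h1 h2).1] at hn
      omega) (Z.image cl ∪ X.image cu) (fun e he => by
    rcases Finset.mem_union.1 he with h | h
    · obtain ⟨z, hz, rfl⟩ := Finset.mem_image.1 h
      obtain ⟨h1, h2⟩ := hZ z hz
      refine ⟨?_, ?_⟩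
      · have h3 := isCore_cl_add H ∅ psi h1 (f := 0) (fun _ _ _ => rfl)
        rwa [add_zero] at h3
      · rw [sum_cl_val, (hZ2 z h1 h2).1]
    · obtain ⟨x, hx, rfl⟩ := Finset.mem_image.1 h
      obtain ⟨h1, h2⟩ := hX x hx
      refine ⟨?_, ?_⟩
      · have h3 := isCore_cu_add H ∅ psi h1 (f := 0) (fun _ _ _ => rfl)
        rwa [add_zero] at h3
      · rw [sum_cu_val, (hX2 x h1 h2).1]) (fun e hc hn hne => by
    rcases hcls e hc hn.le with h | ⟨z, h1, h2, h3⟩ | ⟨x, h1, h2, h3⟩
    · exact h
    · exfalso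
      apply hne
      rw [h3]
      refine Finset.mem_union_left _ (Finset.mem_image_of_mem _ ?_)
      exact Finset.mem_filter.2 ⟨mem_univ _, h1, h2⟩
    · exfalso
      apply hne
      rw [h3]
      refine Finset.mem_union_right _ (Finset.mem_image_of_mem _ ?_)
      exact Finset.mem_filter.2 ⟨mem_univ _, h1, h2⟩)
  by_cases hb : 4 ≤ (lv P i).card
  · have hs := sum_images H Z X (fun z hz => (hZ z hz).1) (fun x hx => (hX x hx).1) (trm i)
    have e1 : ∑ z ∈ Z, trm i (cl z) = (Z.card : A) * (xx ^ 4 * dd ^ ((lv P i).card - 2)) := by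
      rw [Finset.sum_congr rfl (g := fun _ => xx ^ 4 * dd ^ ((lv P i).card - 2)), Finset.sum_const,
        nsmul_eq_mul]
      intro z hz
      obtain ⟨h1, h2⟩ := hZ z hz
      rw [trm_cl H hir h1, h2, (hZ2 z h1 h2).1]
      congr 2
      omega
    have e2 : ∑ x ∈ X, trm i (cu x) = (X.card : A) * (xi ^ 2 * dd ^ ((lv P i).card - 2)) := by
      rw [Finset.sum_congr rfl (g := fun _ => xi ^ 2 * dd ^ ((lv P i).card - 2)), Finset.sum_const,
        nsmul_eq_mul]
      intro x hx
      obtain ⟨h1, h2⟩ := hX x hx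
      rw [trm_cu H hir h1, h2, (hX2 x h1 h2).1]
      congr 2
      omega
    have e3 : ∑ e ∈ Z.image cl ∪ X.image cu, trm i e =
        dd ^ ((lv P i).card - 2) * ((Z.card : A) * xx ^ 4 + (X.card : A) * xi ^ 2) := by
      refine Eq.trans ?_ (hs.trans ?_)
      · congr 1
      · rw [e1, e2]
        ring
    rw [e3, show (lv P i).card - 1 = (lv P i).card - 2 + 1 by omega] at key
    have e4 := cc_of_dvd key
    rw [map_add, map_mul, map_mul, map_pow, map_pow, cc_xx, cc_xi, map_natCast, map_natCast] at e4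
    norm_num at e4
    exact_mod_cast e4
  · have hZe : Z = ∅ := by
      rw [Finset.eq_empty_iff_forall_notMem]
      intro z hz
      exact hb (hZ2 z (hZ z hz).1 (hZ z hz).2).2
    have hXe : X = ∅ := by
      rw [Finset.eq_empty_iff_forall_notMem]
      intro x hx
      exact hb (hX2 x (hX x hx).1 (hX x hx).2).2
    rw [hZe, hXe]
    simp

end Pool.Agent.GaussPoset.Win
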