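import Pool.Agent.W_448win_h16.BwD
import Pool.Agent.W_448win_h16.DualB
import Pool.Agent.W_448win_h16.LowE
import Pool.Agent.W_448win_h16.ExpE
import Pool.Agent.W_448win_h16.PlB
import Pool.Agent.W_448win_h16.ClE

/-! Bad window, mirror images and the mixed case. -/

namespace Pool.Agent.GaussPoset.Win

set_option linter.unusedSectionVars false

open Finset OrderDual

universe u

variable {P : Type u} [Fintype P] [PartialOrder P] [DecidableEq P] {r : ℕ}

lemma BwE_pair (a b : P) : ({a, b} : Finset P).map toDual.toEmbedding = {toDual b, toDual a} := by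
  ext y
  rw [DualC_mem_map, mem_insert, mem_singleton, mem_insert, mem_singleton]
  constructor
  · rintro (h | h)
    · exact Or.inr h
    · exact Or.inl h
  · rintro (h | h)
    · exact Or.inr h
    · exact Or.inl h

lemma BwE_core (H : Gr P r) {j : ℕ} (hj : j ≤ r) {w0 u0 : P} {psi : P → P} {e : P → ℕ}
    (hc : IsCore j {w0, u0} psi e) :
    IsCore (r - j) {toDual u0, toDual w0} (fun y : Pᵒᵈ => toDual (psi (ofDual y))) (eo e) := by
  have h := (IsCore_od H hj (K := {w0, u0}) (psi := psi) e).2 hc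
  rwa [BwE_pair] at h

/-- mirror image of `clsB3_low`: apply it to the dual (`BadW.dual`, `Rk_od`, `IsCore_od`, `TL_od`, `cl_od`, `cu_od`,
`sg_od`, `up_od`; the sum of `eo e` is the sum of `e`; `j` becomes `r - j`) -/
theorem clsB3_upp (H : Gr P r) {j : ℕ} (hj : 1 ≤ j) (hj2 : j + 1 ≤ r) {w0 u0 p q s : P}
    {psi : P → P} (B : BadW P j w0 u0 p q s psi) {e : P → ℕ}
    (hc : IsCore j {w0, u0} psi e) (hn : ∑ x, e x ≤ 3) (h2 : TL j e = ∅) :
    Rk (lv P j) 1 (Fe j e) ∨ e = sg w0 + sg u0 + sg q ∨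
      (∃ x, lev x + 2 = j ∧ dn j x = 4 ∧ e = cu x) := by
  have hjr : j ≤ r := by omega
  have hn' : ∑ x, eo e x ≤ 3 := by rw [ClD_sum]; exact hn
  rcases clsB3_low H.dual (j := r - j) (by omega) (by omega) (B.dual H hjr)
    (BwE_core H hjr hc) hn' (ClD_TU H hjr h2) with h | h | ⟨z, hz, hz2, hz3⟩
  · exact Or.inl ((Rk_od H hjr 1 e).1 h)
  · right
    left
    apply ClD_inj
    rw [h, ← sg_od, ← sg_od, ← sg_od]
    funext y
    change sg u0 (ofDual y) + sg w0 (ofDual y) + sg q (ofDual y) =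
      sg w0 (ofDual y) + sg u0 (ofDual y) + sg q (ofDual y)
    rw [add_comm (sg u0 (ofDual y))]
  · refine Or.inr (Or.inr ⟨ofDual z, ClD_lev H hjr (x := ofDual z) hz, ?_, ?_⟩)
    · rw [← up_od H hjr]
      exact hz2
    · apply ClD_inj
      rw [cu_od]
      exact hz3

/-- mirror image of `clsB4_low` (only the part which is needed) -/
theorem clsB4_upp (H : Gr P r) {j : ℕ} (hj : 1 ≤ j) (hj2 : j + 1 ≤ r) {w0 u0 p q s : P}
    {psi : P → P} (B : BadW P j w0 u0 p q s psi) {e : P → ℕ}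
    (hc : IsCore j {w0, u0} psi e) (hn : ∑ x, e x ≤ 4) (h2 : TL j e = ∅) :
    Rk (lv P j) 2 (Fe j e) ∨ (∃ x : P, lev x + 2 = j ∧ dn j x = 4) := by
  have hjr : j ≤ r := by omega
  have hn' : ∑ x, eo e x ≤ 4 := by rw [ClD_sum]; exact hn
  rcases clsB4_low H.dual (j := r - j) (by omega) (by omega) (B.dual H hjr)
    (BwE_core H hjr hc) hn' (ClD_TU H hjr h2) with h | ⟨z, hz, hz2, -⟩
  · exact Or.inl ((Rk_od H hjr 2 e).1 h)
  · refine Or.inr ⟨ofDual z, ClD_lev H hjr (x := ofDual z) hz, ?_⟩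
    rw [← up_od H hjr]
    exact hz2

/-- Both sides touched, energy at most four: not admissible (`Rk_of_not_adm`) or `one_one`: `e = cl z + cu x` with one
upper cover `w` of `z` and one lower cover `u` of `x`; `w`, `u` are single because `PD`, `PU` are
empty; `Fe_cl_cu` with one site on each side: in `Rk _ 0`. -/
theorem clsB4_both (H : Gr P r) {j : ℕ} (hj : 1 ≤ j) (hj2 : j + 1 ≤ r) {w0 u0 p q s : P}
    {psi : P → P} (B : BadW P j w0 u0 p q s psi) {e : P → ℕ} (hn : ∑ x, e x ≤ 4)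
    (h1 : TL j e ≠ ∅) (h2 : TU j e ≠ ∅) : Rk (lv P j) 2 (Fe j e) := by
  rcases cls4_both H hj hj2 hn h1 h2 with h | ⟨z, hz, -⟩
  · exact Rk_mono (by norm_num) h
  · rw [B.hD] at hz
    exact absurd hz (notMem_empty z)

/-- energy at most three: all cores (`low_or_upp`, `Rk_of_not_adm`, `clsB3_low`, `clsB3_upp`) -/
theorem clsB3 (H : Gr P r) {j : ℕ} (hj : 1 ≤ j) (hj2 : j + 1 ≤ r) {w0 u0 p q s : P}
    {psi : P → P} (B : BadW P j w0 u0 p q s psi) (h3 : ∀ x : P, lev x + 2 = j → dn j x ≤ 3)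
    {e : P → ℕ} (hc : IsCore j {w0, u0} psi e) (hn : ∑ x, e x ≤ 3) :
    Rk (lv P j) 1 (Fe j e) ∨ e = sg w0 + sg u0 + sg q ∨
      (∃ z, lev z = j + 2 ∧ up j z = 4 ∧ e = cl z) := by
  rcases low_or_upp H (by omega : j ≤ r) hn with h | h | h
  · exact Or.inl (Rk_of_not_adm h 1)
  · rcases clsB3_upp H hj hj2 B hc hn h with h1 | h1 | ⟨x, hx, hx2, -⟩
    · exact Or.inl h1
    · exact Or.inr (Or.inl h1)
    · have := h3 x hx
      omega
  · exact clsB3_low H hj hj2 B hc hn h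

/-- energy at most four: all cores (`clsB4_low`, `clsB4_upp`, `clsB4_both`) -/
theorem clsB4 (H : Gr P r) {j : ℕ} (hj : 1 ≤ j) (hj2 : j + 1 ≤ r) {w0 u0 p q s : P}
    {psi : P → P} (B : BadW P j w0 u0 p q s psi) (h3 : ∀ x : P, lev x + 2 = j → dn j x ≤ 3)
    {e : P → ℕ} (hc : IsCore j {w0, u0} psi e) (hn : ∑ x, e x ≤ 4) :
    Rk (lv P j) 2 (Fe j e) ∨ (∃ z, lev z = j + 2 ∧ up j z = 4 ∧
      (e = cl z + sg z ∨ (e = cl z + sg w0 ∧ Disjoint (sts j z) {p, q}) ∨
        (e = cl z + sg u0 ∧ Disjoint (sts j z) {q, s}))) := by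
  by_cases h1 : TL j e = ∅
  · rcases clsB4_upp H hj hj2 B hc hn h1 with h | ⟨x, hx, hx2⟩
    · exact Or.inl h
    · have := h3 x hx
      omega
  · by_cases h2 : TU j e = ∅
    · exact clsB4_low H hj hj2 B hc hn h2
    · exact Or.inl (clsB4_both H hj hj2 B hn h1 h2)

end Pool.Agent.GaussPoset.Win
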