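import Pool.Agent.W_448win_h16.CoreB

/-! Sums over sets of cores. -/

namespace Pool.Agent.GaussPoset.Win

set_option linter.unusedSectionVars false

open Finset

universe u

variable {P : Type u} [Fintype P] [PartialOrder P] [DecidableEq P] {r : ℕ}

/-- As `core_sum`, for a finite set `S` of cores of energy `n` which contains every core of energy `n`
not in `Rk _ k`. The sum in `core_sum` is the sum over `S` plus the sum over the cores not in
`S` (`Finset.sum_sdiff` or `sum_filter_add_sum_filter_not`; `S` is a subset of the filter), the latter is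
divisible: `II_Fe`, `Rk_II`. -/
theorem core_sum_set (H : Gr P r) {i : ℕ} (hi : 1 ≤ i) (hi2 : i + 1 ≤ r) {K : Finset P}
    {psi : P → P} (hM : Mat P i K psi) (n k : ℕ)
    (hk : ∀ e : P → ℕ, IsCore i K psi e → ∑ x, e x < n → Rk (lv P i) k (Fe i e))
    (S : Finset (P → ℕ)) (hS : ∀ e ∈ S, IsCore i K psi e ∧ ∑ x, e x = n)
    (hall : ∀ e : P → ℕ, IsCore i K psi e → ∑ x, e x = n → e ∉ S → Rk (lv P i) k (Fe i e)) :
    dd ^ ((lv P i).card - k) ∣ ∑ e ∈ S, trm i e := by
  classical
  have h := core_sum H hi hi2 hM n k hk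
  have hsub : S ⊆ ((univ : Finset P).piAntidiag n).filter (IsCore i K psi) := by
    intro e he
    rw [Finset.mem_filter, Finset.mem_piAntidiag]
    exact ⟨⟨(hS e he).2, fun x _ => Finset.mem_univ x⟩, (hS e he).1⟩
  rw [← Finset.sum_sdiff hsub] at h
  refine (dvd_add_right (Finset.dvd_sum fun e he => ?_)).mp h
  rw [Finset.mem_sdiff, Finset.mem_filter, Finset.mem_piAntidiag] at he
  rw [← II_Fe]
  exact Rk_II (hall e he.1.2 he.1.1.1 he.2)

/-- a configuration all of whose positive near labels are touched is a core -/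
theorem isCore_of {i : ℕ} (K : Finset P) (psi : P → P) {e : P → ℕ}
    (h : ∀ x ∈ near P i, e x ≠ 0 → x ∈ Tch i e) : IsCore i K psi e := by
  intro x hx
  obtain ⟨h1, -, h3, -⟩ := mem_Rst.mp hx
  by_contra hne
  exact h3 (h x h1 hne)

lemma PlA_not_mem_uc (z : P) : z ∉ uc z := fun h => (mem_uc.mp h).1.ne rfl

lemma PlA_not_mem_dc (z : P) : z ∉ dc z := fun h => (mem_dc.mp h).1.ne rfl

lemma PlA_cl_pos {z y : P} (h : y ∈ uc z) : 0 < cl z y := by
  unfold cl
  rw [if_pos (Or.inr h)]
  exact one_pos

lemma PlA_cl_self (z : P) : 0 < cl z z := by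
  unfold cl
  rw [if_pos (Or.inl rfl)]
  exact one_pos

lemma PlA_cl_ne {z y : P} (h : cl z y ≠ 0) : y = z ∨ y ∈ uc z := by
  unfold cl at h
  by_contra hn
  rw [if_neg hn] at h
  exact h rfl

lemma PlA_cu_self (z : P) : 0 < cu z z := by
  unfold cu
  rw [if_pos (Or.inl rfl)]
  exact one_pos

lemma PlA_cu_ne {z y : P} (h : cu z y ≠ 0) : y = z ∨ y ∈ dc z := by
  unfold cu at h
  by_contra hn
  rw [if_neg hn] at h
  exact h rfl

/-- `z` is not in `uc z` -/
theorem sum_cl_val (z : P) : ∑ x, cl z x = 1 + (uc z).card := by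
  have h1 : ∀ x, cl z x = (if x = z then 1 else 0) + (if x ∈ uc z then 1 else 0) := by
    intro x
    unfold cl
    by_cases h : x = z
    · subst h
      rw [if_pos (Or.inl rfl), if_pos rfl, if_neg (PlA_not_mem_uc x)]
    · by_cases h2 : x ∈ uc z
      · rw [if_pos (Or.inr h2), if_neg h, if_pos h2]
      · rw [if_neg (by tauto), if_neg h, if_neg h2]
  rw [Finset.sum_congr rfl (fun x _ => h1 x), Finset.sum_add_distrib, Finset.sum_ite_eq' univ z,
    if_pos (Finset.mem_univ z), Finset.sum_ite_mem, Finset.univ_inter, Finset.sum_const,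
    smul_eq_mul, mul_one]

/-- `x` is not in `dc x` -/
theorem sum_cu_val (x : P) : ∑ y, cu x y = 1 + (dc x).card := by
  have h1 : ∀ y, cu x y = (if y = x then 1 else 0) + (if y ∈ dc x then 1 else 0) := by
    intro y
    unfold cu
    by_cases h : y = x
    · subst h
      rw [if_pos (Or.inl rfl), if_pos rfl, if_neg (PlA_not_mem_dc y)]
    · by_cases h2 : y ∈ dc x
      · rw [if_pos (Or.inr h2), if_neg h, if_pos h2]
      · rw [if_neg (by tauto), if_neg h, if_neg h2]
  rw [Finset.sum_congr rfl (fun y _ => h1 y), Finset.sum_add_distrib, Finset.sum_ite_eq' univ x,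
    if_pos (Finset.mem_univ x), Finset.sum_ite_mem, Finset.univ_inter, Finset.sum_const,
    smul_eq_mul, mul_one]

lemma sum_sg_val (a : P) : ∑ y, sg a y = 1 := by
  unfold sg; simp

/-- `cl z + f` is a core if `f` is zero on near elements not in `uc z`: use `isCore_of`, a near element
of `uc z` is touched by `z` -/
theorem isCore_cl_add (H : Gr P r) {i : ℕ} (K : Finset P) (psi : P → P) {z : P} (hz : lev z = i + 2)
    {f : P → ℕ} (hf : ∀ x ∈ near P i, x ∉ uc z → f x = 0) : IsCore i K psi (cl z + f) := by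
  refine isCore_of K psi fun x hx hne => ?_
  have hxz : x ∈ uc z := by
    by_contra hn
    rw [Pi.add_apply, hf x hx hn, add_zero] at hne
    rcases PlA_cl_ne hne with h | h
    · subst h
      rw [mem_near] at hx
      omega
    · exact hn h
  have h1 := lev_uc H hxz
  rw [mem_Tch]
  refine Or.inl ⟨by omega, z, mem_uc.mp hxz, ?_⟩
  have h2 := PlA_cl_self z
  rw [Pi.add_apply]
  omega

/-- mirror image of `isCore_cl_add` -/
theorem isCore_cu_add (H : Gr P r) {i : ℕ} (K : Finset P) (psi : P → P) {x : P} (hx : lev x + 2 = i)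
    {f : P → ℕ} (hf : ∀ y ∈ near P i, y ∉ dc x → f y = 0) : IsCore i K psi (cu x + f) := by
  refine isCore_of K psi fun y hy hne => ?_
  have hyx : y ∈ dc x := by
    by_contra hn
    rw [Pi.add_apply, hf y hy hn, add_zero] at hne
    rcases PlA_cu_ne hne with h | h
    · subst h
      rw [mem_near] at hy
      omega
    · exact hn h
  have h1 := lev_dc H hyx
  rw [mem_Tch]
  refine Or.inr ⟨by omega, x, mem_dc.mp hyx, ?_⟩
  have h2 := PlA_cu_self x
  rw [Pi.add_apply]
  omega

/-- `isCore_of`: the near elements with positive label are in `uc z`, touched by `z`, or in `dc x`,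
touched by `x` -/
theorem isCore_cl_cu (H : Gr P r) {i : ℕ} (K : Finset P) (psi : P → P) {z x : P} (hz : lev z = i + 2)
    (hx : lev x + 2 = i) : IsCore i K psi (cl z + cu x) := by
  refine isCore_of K psi fun y hy hne => ?_
  rw [mem_Tch]
  rw [mem_near] at hy
  by_cases h : cl z y = 0
  · rw [Pi.add_apply, h, zero_add] at hne
    rcases PlA_cu_ne hne with h1 | h1
    · subst h1
      omega
    · have h2 := lev_dc H h1
      refine Or.inr ⟨by omega, x, mem_dc.mp h1, ?_⟩
      have h3 := PlA_cu_self x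
      rw [Pi.add_apply]
      omega
  · rcases PlA_cl_ne h with h1 | h1
    · subst h1
      omega
    · have h2 := lev_uc H h1
      refine Or.inl ⟨by omega, z, mem_uc.mp h1, ?_⟩
      have h3 := PlA_cl_self z
      rw [Pi.add_apply]
      omega

end Pool.Agent.GaussPoset.Win
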