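import Pool.Agent.W_448win_h16.BwE
import Pool.Agent.W_448win_h16.PlA
import Pool.Agent.W_448win_h16.ExpD

/-! Bad window, energy three. -/

namespace Pool.Agent.GaussPoset.Win

set_option linter.unusedSectionVars false

open Finset

universe u

variable {P : Type u} [Fintype P] [PartialOrder P] [DecidableEq P] {r : ℕ}

lemma BwF_q {j : ℕ} {w0 u0 p q s : P} {psi : P → P} (H : Gr P r)
    (B : BadW P j w0 u0 p q s psi) : lev p = j ∧ lev q = j ∧ lev s = j := by
  have hp : p ∈ uc w0 := by rw [B.w2]; exact Finset.mem_insert_self _ _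
  have hq : q ∈ uc w0 := by
    rw [B.w2]; exact Finset.mem_insert_of_mem (Finset.mem_singleton_self _)
  have hs : s ∈ dc u0 := by
    rw [B.u2]; exact Finset.mem_insert_of_mem (Finset.mem_singleton_self _)
  have h1 := lev_uc H hp
  have h2 := lev_uc H hq
  have h3 := lev_dc H hs
  have h4 := B.hw
  have h5 := B.hu
  omega

lemma BwF_sg (a x : P) : sg a x = if x = a then 1 else 0 := by
  unfold sg
  rw [Pi.single_apply]

lemma BwF_val (w0 u0 q x : P) : (sg w0 + sg u0 + sg q) x =
    (if x = w0 then 1 else 0) + (if x = u0 then 1 else 0) + (if x = q then 1 else 0) := by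
  rw [Pi.add_apply, Pi.add_apply, BwF_sg, BwF_sg, BwF_sg]

lemma BwF_zero {j : ℕ} {w0 u0 p q s : P} {psi : P → P} (H : Gr P r)
    (B : BadW P j w0 u0 p q s psi) {x : P} (h : j + 2 ≤ lev x ∨ lev x + 2 ≤ j) :
    (sg w0 + sg u0 + sg q) x = 0 := by
  obtain ⟨-, hq, -⟩ := BwF_q H B
  have h4 := B.hw
  have h5 := B.hu
  rw [BwF_val, if_neg, if_neg, if_neg]
  · rintro rfl; omega
  · rintro rfl; omega
  · rintro rfl; omega

lemma BwF_core {j : ℕ} {w0 u0 p q s : P} {psi : P → P} (H : Gr P r)
    (B : BadW P j w0 u0 p q s psi) : IsCore j {w0, u0} psi (sg w0 + sg u0 + sg q) := by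
  obtain ⟨-, hq, -⟩ := BwF_q H B
  intro x hx
  obtain ⟨h1, h2, -, -⟩ := mem_Rst.mp hx
  rw [Finset.mem_insert, Finset.mem_singleton, not_or] at h2
  rw [mem_near] at h1
  rw [BwF_val, if_neg h2.1, if_neg h2.2, if_neg]
  rintro rfl
  omega

/-- The term of `sg w0 + sg u0 + sg q`: by `none_val` (or directly) the function is
`[p ∈ S] * [s ∉ S]` (`q` has label one, so the first factors of both weights are one); `II_Fe`, `II_chi`:
`xx * dd ^ (b - 2)`. -/
theorem trm_wuq (H : Gr P r) {j : ℕ} (hj : 1 ≤ j) (hj2 : j + 1 ≤ r) {w0 u0 p q s : P}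
    {psi : P → P} (B : BadW P j w0 u0 p q s psi) :
    trm j (sg w0 + sg u0 + sg q) = xx * dd ^ ((lv P j).card - 2) := by
  obtain ⟨hp, hq, hs⟩ := BwF_q H B
  have h4 := B.hw
  have h5 := B.hu
  set e : P → ℕ := sg w0 + sg u0 + sg q with he
  have hz : ∀ x, j + 2 ≤ lev x ∨ lev x + 2 ≤ j → e x = 0 := fun x hx => BwF_zero H B hx
  have hA : AdmL j e := by
    rintro z hz1 ⟨⟨z', hz', hlt⟩, -⟩
    have h6 := (H.covBy_iff.mp hz').2
    rw [hz z' (by omega)] at hlt
    omega
  have hB : AdmU j e := by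
    rintro z hz1 ⟨⟨z', hz', hlt⟩, -⟩
    have h6 := (H.covBy_iff.mp hz').2
    rw [hz z' (by omega)] at hlt
    omega
  have h1 : TL j e = ∅ := by
    rw [Finset.eq_empty_iff_forall_notMem]
    intro x hx0
    obtain ⟨hx, z, hzx, h0⟩ := ClC_mem_TL.1 hx0
    have h6 := (H.covBy_iff.mp hzx).2
    rw [hz z (by omega)] at h0
    omega
  have h2 : TU j e = ∅ := by
    rw [Finset.eq_empty_iff_forall_notMem]
    intro x hx0
    obtain ⟨hx, z, hzx, h0⟩ := ClC_mem_TU.1 hx0
    have h6 := (H.covBy_iff.mp hzx).2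
    rw [hz z (by omega)] at h0
    omega
  have hw0u0 : w0 ≠ u0 := by rintro rfl; omega
  have hw0q : w0 ≠ q := by rintro rfl; omega
  have hu0q : u0 ≠ q := by rintro rfl; omega
  have hpw : p ≠ w0 := by rintro rfl; omega
  have hpu : p ≠ u0 := by rintro rfl; omega
  have hsw : s ≠ w0 := by rintro rfl; omega
  have hsu : s ≠ u0 := by rintro rfl; omega
  have ew : e w0 = 1 := by
    rw [he, BwF_val, if_pos rfl, if_neg hw0u0, if_neg hw0q]
  have eu : e u0 = 1 := by
    rw [he, BwF_val, if_neg hw0u0.symm, if_pos rfl, if_neg hu0q]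
  have eq : e q = 1 := by
    rw [he, BwF_val, if_neg hw0q.symm, if_neg hu0q.symm, if_pos rfl]
  have ep : e p = 0 := by
    rw [he, BwF_val, if_neg hpw, if_neg hpu, if_neg B.pq]
  have es : e s = 0 := by
    rw [he, BwF_val, if_neg hsw, if_neg hsu, if_neg B.qs.symm]
  have hFe : ∀ S : Finset P, Fe j e S = chi {p} {s} S := by
    intro S
    rw [none_val H hj hj2 B hA hB (BwF_core H B) h1 h2 S, ew, eu]
    unfold wtL wtU chi
    rw [B.w2, B.u2]
    have a1 : ¬ ∀ v ∈ ({p, q} : Finset P), e v < 1 := by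
      intro h
      have := h q (Finset.mem_insert_of_mem (Finset.mem_singleton_self _))
      omega
    have a2 : ¬ ∀ v ∈ ({q, s} : Finset P), e v < 1 := by
      intro h
      have := h q (Finset.mem_insert_self _ _)
      omega
    have a3 : (∀ v ∈ ({p, q} : Finset P), e v < 1 → v ∈ S) ↔ p ∈ S := by
      constructor
      · intro h
        exact h p (Finset.mem_insert_self _ _) (by omega)
      · intro h v hv hv1
        rcases Finset.mem_insert.1 hv with rfl | hv
        · exact h
        · rw [Finset.mem_singleton] at hv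
          rw [hv] at hv1
          omega
    have a4 : (∀ v ∈ ({q, s} : Finset P), e v < 1 → v ∉ S) ↔ s ∉ S := by
      constructor
      · intro h
        exact h s (Finset.mem_insert_of_mem (Finset.mem_singleton_self _)) (by omega)
      · intro h v hv hv1
        rcases Finset.mem_insert.1 hv with rfl | hv
        · omega
        · rw [Finset.mem_singleton] at hv
          rw [hv]
          exact h
    rw [if_neg a1, if_neg a2, one_mul, one_mul]
    simp only [a3, a4, Finset.singleton_subset_iff, Finset.disjoint_singleton_left]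
    by_cases b1 : p ∈ S
    · by_cases b2 : s ∈ S
      · simp [b1, b2]
      · simp [b1, b2]
    · simp [b1]
  have hII : II j (Fe j e) = II j (chi {p} {s}) := by
    unfold II
    exact Finset.sum_congr rfl fun S _ => by rw [hFe S]
  rw [← II_Fe, hII, II_chi, if_pos, Finset.card_singleton, Finset.card_singleton, pow_one,
    Nat.sub_sub]
  · rw [Finset.disjoint_singleton]
    exact B.ps
  · rw [Finset.singleton_subset_iff, mem_lv]
    exact hp
  · rw [Finset.singleton_subset_iff, mem_lv]
    exact hs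

/-- it is a core (the near elements with positive label are in `K`; `Rst`) -/
theorem core_wuq {j : ℕ} {w0 u0 p q s : P} {psi : P → P} (H : Gr P r)
    (B : BadW P j w0 u0 p q s psi) : IsCore j {w0, u0} psi (sg w0 + sg u0 + sg q) := BwF_core H B

open Classical in
/-- Energy three, one deficit: exactly one `z` of level `j + 2` has four sites. `core_sum_set` with
`K = {w0, u0}`, `n = 3`, `k = 1` and `S` the set of `sg w0 + sg u0 + sg q` and the `cl z`, `z ∈ Z` (four sites);
cores: `core_wuq`, `isCore_cl_add`; the other cores of energy at most three are in `Rk _ 1`: `clsB3` (the exceptions have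
energy three: `(uc z).card = 2` for `z ∈ Z`). The sum is `dd ^ (b - 2) * (xx + |Z| * xx ^ 4)`: `trm_wuq`,
`trm_cl` (`2 + (b - 4) = b - 2`, `b ≥ 4` if `Z` is not empty, `b ≥ 3` since `p, q, s` are different), `cl` is injective
on `Z` and `cl z ≠ sg w0 + sg u0 + sg q` (labels at level `j + 2`). `cc_of_dvd`:
`-1 + |Z| = 0`. -/
theorem BW32 (H : Gr P r) {j : ℕ} (hj : 1 ≤ j) (hj2 : j + 1 ≤ r) {w0 u0 p q s : P}
    {psi : P → P} (B : BadW P j w0 u0 p q s psi) (h3 : ∀ x : P, lev x + 2 = j → dn j x ≤ 3) :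
    (univ.filter (fun z : P => lev z = j + 2 ∧ up j z = 4)).card = 1 := by
  set Z : Finset P := univ.filter (fun z : P => lev z = j + 2 ∧ up j z = 4) with hZdef
  obtain ⟨hp, hq, hs⟩ := BwF_q H B
  have h4 := B.hw
  have h5 := B.hu
  set e0 : P → ℕ := sg w0 + sg u0 + sg q with he0
  have hjr : j ≤ r := by omega
  have hb : 3 ≤ (lv P j).card := by
    have h1 : ({p, q, s} : Finset P) ⊆ lv P j := by
      intro x hx
      rw [Finset.mem_insert, Finset.mem_insert, Finset.mem_singleton] at hx
      rw [mem_lv]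
      rcases hx with rfl | rfl | rfl
      · exact hp
      · exact hq
      · exact hs
    have h2 : ({p, q, s} : Finset P).card = 3 := by
      rw [Finset.card_insert_of_notMem, Finset.card_insert_of_notMem, Finset.card_singleton]
      · rw [Finset.mem_singleton]; exact B.qs
      · rw [Finset.mem_insert, Finset.mem_singleton, not_or]
        exact ⟨B.pq, B.ps⟩
    rw [← h2]
    exact Finset.card_le_card h1
  have hZ : ∀ z ∈ Z, lev z = j + 2 ∧ up j z = 4 := fun z hz => (Finset.mem_filter.1 hz).2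
  have hZ2 : ∀ z : P, lev z = j + 2 → up j z = 4 → (uc z).card = 2 ∧ 4 ≤ (lv P j).card := by
    intro z hz hz4
    obtain ⟨h1, h2⟩ := up_le_four H hz
    have h3 := uc_card_le H z
    omega
  have hsum0 : ∑ x, e0 x = 3 := by
    have h1 : ∑ x, e0 x = ∑ x, sg w0 x + ∑ x, sg u0 x + ∑ x, sg q x := by
      rw [← Finset.sum_add_distrib, ← Finset.sum_add_distrib]
      rfl
    rw [h1, sum_sg_val, sum_sg_val, sum_sg_val]
  have hinj : ∀ z ∈ Z, ∀ z' ∈ Z, cl z = cl z' → z = z' := by
    intro z hz z' hz' he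
    have h2 : cl z' z = 1 := by rw [← he, PlB_cl_self]
    rcases PlB_cl h2 with h3 | h3
    · exact h3
    · have h4 := lev_uc H h3
      have h5 := (hZ z hz).1
      have h6 := (hZ z' hz').1
      omega
  have hne : ∀ z ∈ Z, cl z ≠ e0 := by
    intro z hz he
    have h2 : e0 z = 1 := by rw [← he, PlB_cl_self]
    have h3 : e0 z = 0 := BwF_zero H B (Or.inl (hZ z hz).1.ge)
    omega
  have key := core_sum_set H hj hj2 B.mat 3 1 (fun e hc hn => by
    rcases clsB3 H hj hj2 B h3 hc hn.le with h | h | ⟨z, h1, h2, h3⟩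
    · exact h
    · rw [h, ← he0, hsum0] at hn
      omega
    · rw [h3, sum_cl_val, (hZ2 z h1 h2).1] at hn
      omega) (Z.image cl ∪ {e0}) (fun e he => by
    rcases Finset.mem_union.1 he with h | h
    · obtain ⟨z, hz, rfl⟩ := Finset.mem_image.1 h
      obtain ⟨h1, h2⟩ := hZ z hz
      refine ⟨?_, ?_⟩
      · have h3 := isCore_cl_add H {w0, u0} psi h1 (f := 0) (fun _ _ _ => rfl)
        rwa [add_zero] at h3
      · rw [sum_cl_val, (hZ2 z h1 h2).1]
    · rw [Finset.mem_singleton] at h
      rw [h]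
      exact ⟨BwF_core H B, hsum0⟩) (fun e hc hn hne => by
    rcases clsB3 H hj hj2 B h3 hc hn.le with h | h | ⟨z, h1, h2, h3⟩
    · exact h
    · exact absurd (Finset.mem_union_right _ (Finset.mem_singleton.2 h)) hne
    · exfalso
      apply hne
      rw [h3]
      refine Finset.mem_union_left _ (Finset.mem_image_of_mem _ ?_)
      exact Finset.mem_filter.2 ⟨mem_univ _, h1, h2⟩)
  have hdis : Disjoint (Z.image cl) {e0} := by
    rw [Finset.disjoint_singleton_right, Finset.mem_image]
    rintro ⟨z, hz, hze⟩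
    exact hne z hz hze
  have e1 : ∑ z ∈ Z, trm j (cl z) = (Z.card : A) * (xx ^ 4 * dd ^ ((lv P j).card - 2)) := by
    rw [Finset.sum_congr rfl (g := fun _ => xx ^ 4 * dd ^ ((lv P j).card - 2)), Finset.sum_const,
      nsmul_eq_mul]
    intro z hz
    obtain ⟨h1, h2⟩ := hZ z hz
    have h6 := (hZ2 z h1 h2).2
    rw [trm_cl H hjr h1, h2, (hZ2 z h1 h2).1]
    congr 2
    omega
  have e3 : ∑ e ∈ Z.image cl ∪ {e0}, trm j e =
      dd ^ ((lv P j).card - 2) * ((Z.card : A) * xx ^ 4 + xx) := by
    rw [Finset.sum_union hdis, Finset.sum_image hinj, Finset.sum_singleton, e1,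
      trm_wuq H hj hj2 B]
    ring
  have key2 : dd ^ ((lv P j).card - 1) ∣ ∑ e ∈ Z.image cl ∪ {e0}, trm j e := by
    convert key using 2
  rw [e3, show (lv P j).card - 1 = (lv P j).card - 2 + 1 by omega] at key2
  have e4 := cc_of_dvd key2
  rw [map_add, map_mul, map_pow, cc_xx, map_natCast] at e4
  norm_num at e4
  have e5 : (Z.card : ℤ) = 1 := by linarith
  exact_mod_cast e5

end Pool.Agent.GaussPoset.Win
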