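import Pool.Agent.W_448win_h16.BwF

/-! Bad window, energy four. -/

namespace Pool.Agent.GaussPoset.Win

set_option linter.unusedSectionVars false

open Finset

universe u

variable {P : Type u} [Fintype P] [PartialOrder P] [DecidableEq P] {r : ℕ}

lemma BwG_sub_pq (H : Gr P r) {j : ℕ} {w0 u0 p q s : P} {psi : P → P}
    (B : BadW P j w0 u0 p q s psi) : ({p, q} : Finset P) ⊆ lv P j := by
  intro x hx
  rw [← B.w2] at hx
  have h1 := lev_uc H hx
  have h2 := B.hw
  rw [mem_lv]
  omega

lemma BwG_sub_qs (H : Gr P r) {j : ℕ} {w0 u0 p q s : P} {psi : P → P}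
    (B : BadW P j w0 u0 p q s psi) : ({q, s} : Finset P) ⊆ lv P j := by
  intro x hx
  rw [← B.u2] at hx
  have h1 := lev_dc H hx
  have h2 := B.hu
  rw [mem_lv]
  omega

lemma BwG_w0 (H : Gr P r) {j : ℕ} {w0 u0 p q s : P} {psi : P → P}
    (B : BadW P j w0 u0 p q s psi) {z : P} (hz : lev z = j + 2)
    (hd : Disjoint (sts j z) {p, q}) : w0 ∉ uc z := by
  intro h
  have hp : p ∈ uc w0 := by
    rw [B.w2]
    exact mem_insert_self _ _
  have h1 : p ∈ sts j z := (mem_sts_iff H hz).2 ⟨w0, h, hp⟩
  exact Finset.disjoint_left.1 hd h1 (mem_insert_self _ _)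

lemma BwG_inj {z a b : P} (h : cl z + sg a = cl z + sg b) : a = b := by
  have h1 : sg a = sg b := add_left_cancel h
  have h2 := congrFun h1 a
  by_contra hne
  rw [ExpD_sg_self, ExpD_sg_ne hne] at h2
  exact one_ne_zero h2

lemma BwG_sum {z a : P} (h2 : (uc z).card = 2) : ∑ x, (cl z + sg a) x = 4 := by
  have h1 : ∑ x, (cl z + sg a) x = ∑ x, cl z x + ∑ x, sg a x := by
    rw [← Finset.sum_add_distrib]
    rfl
  rw [h1, sum_cl_val, sum_sg_val, h2]

/-- `cl z + sg a` is a core if `a` is `z` or in `K` -/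
lemma BwG_core (H : Gr P r) {j : ℕ} (K : Finset P) (psi : P → P) {z a : P} (hz : lev z = j + 2)
    (ha : a = z ∨ a ∈ K) : IsCore j K psi (cl z + sg a) := by
  intro x hx
  rw [mem_Rst] at hx
  obtain ⟨h1, h2, h3, _⟩ := hx
  have hxz : x ≠ z := by
    rintro rfl
    rw [mem_near] at h1
    omega
  have hcl : cl z x = 0 := by
    by_contra h0
    rcases PlA_cl_ne h0 with h | h
    · exact hxz h
    · apply h3
      rw [mem_Tch]
      left
      have h4 := lev_uc H h
      refine ⟨by omega, z, mem_uc.1 h, ?_⟩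
      show 0 < cl z z + sg a z
      have := PlA_cl_self z
      omega
  have hsg : sg a x = 0 := by
    apply ExpD_sg_ne
    rintro rfl
    rcases ha with h | h
    · exact hxz h
    · exact h2 h
  show cl z x + sg a x = 0
  rw [hcl, hsg]

lemma BwG_final {b : ℕ} (hb : 4 ≤ b) {y : A} (h : dd ^ (b - 2) ∣ y * dd ^ (b - 3)) :
    PowerSeries.constantCoeff y = (0 : ℤ) := by
  have e1 : b - 2 = (b - 3) + 1 := by omega
  rw [e1, mul_comm y] at h
  exact cc_of_dvd h

/-- The terms: `Fe_cl_w0`, `Fe_cl_u0`, `II_Fe`, `II_chi`, six different sites. (If `w0 ∈ uc z` then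
`{p, q} ⊆ sts j z`, so disjointness gives `w0 ∉ uc z`.) -/
theorem trm_cl_w0 (H : Gr P r) {j : ℕ} (hj2 : j + 1 ≤ r) {w0 u0 p q s : P}
    {psi : P → P} (B : BadW P j w0 u0 p q s psi) {z : P} (hz : lev z = j + 2)
    (h4 : up j z = 4) (hz2 : (uc z).card = 2) (hd : Disjoint (sts j z) {p, q}) :
    trm j (cl z + sg w0) = xx ^ 6 * dd ^ ((lv P j).card - 3) := by
  have hw := BwG_w0 H B hz hd
  have hsub : sts j z ∪ {p, q} ⊆ lv P j :=
    Finset.union_subset (ExpD_sts_sub j z) (BwG_sub_pq H B)
  have h1 := ExpD_low hsub (fun S => Fe_cl_w0 H hj2 B hz hw S)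
  have hc : (sts j z ∪ {p, q}).card = 6 := by
    rw [Finset.card_union_of_disjoint hd, card_sts, h4, Finset.card_pair B.pq]
  have hb : 6 ≤ (lv P j).card := by
    rw [← hc]
    exact Finset.card_le_card hsub
  rw [h1, hc, hz2]
  have e1 : (lv P j).card - 3 = 3 + ((lv P j).card - 6) := by omega
  rw [e1, pow_add]
  ring

/-- as `trm_cl_w0` -/
theorem trm_cl_u0 (H : Gr P r) {j : ℕ} (hj2 : j + 1 ≤ r) {w0 u0 p q s : P}
    {psi : P → P} (B : BadW P j w0 u0 p q s psi) {z : P} (hz : lev z = j + 2)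
    (h4 : up j z = 4) (hz2 : (uc z).card = 2) (hd : Disjoint (sts j z) {q, s}) :
    trm j (cl z + sg u0) = xx ^ 4 * xi * dd ^ ((lv P j).card - 3) := by
  have hsub2 : ({q, s} : Finset P) ⊆ lv P j := BwG_sub_qs H B
  have hb : 6 ≤ (lv P j).card := by
    have h1 : (sts j z ∪ {q, s}).card = 6 := by
      rw [Finset.card_union_of_disjoint hd, card_sts, h4, Finset.card_pair B.qs]
    rw [← h1]
    exact Finset.card_le_card (Finset.union_subset (ExpD_sts_sub j z) hsub2)
  have h1 : trm j (cl z + sg u0) = II j (fun S => (xi * dd ^ ((uc z).card + 1)) *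
      chi (sts j z) {q, s} S) := by
    rw [← II_Fe]
    congr 1
    funext S
    exact Fe_cl_u0 H hj2 B hz S
  rw [h1, ExpD_II_mul, II_chi (ExpD_sts_sub j z) hsub2, if_pos hd, card_sts, h4,
    Finset.card_pair B.qs, hz2]
  have e1 : (lv P j).card - 3 = 3 + ((lv P j).card - 4 - 2) := by omega
  rw [e1, pow_add]
  ring

open Classical in
/-- Energy four, two deficits. Let `z` be the only element of level `j + 2` with four sites. `core_sum_set` with
`K = {w0, u0}`, `n = 4`, `k = 2`, `S` the set of `cl z + sg z`, of `cl z + sg w0` if `sts j z` is disjoint from `{p, q}`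
and of `cl z + sg u0` if it is disjoint from `{q, s}`. These are different cores of energy four
(`isCore_cl_add`; for `w0`, `u0`: near elements in `K` do not matter, use the definition of
`IsCore`). Cores of energy `< 4` are in `Rk _ 2`: `clsB3`; `sg w0 + sg u0 + sg q` by `none_val`, `wts_two` (or its
`Cheap`), `cl z'` by `Fe_cl`, `Rk_chi`. Cores of energy four outside `S`: `clsB4` (`z` is unique). The sum is
`dd ^ (b - 3)` times `xx ^ 6 + [D1] xx ^ 6 + [D2] xx ^ 4 * xi` (`trm_cl_z`, `trm_cl_w0`, `trm_cl_u0`, `b ≥ 4`), so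
`1 + [D1] - [D2] = 0` by `cc_of_dvd`. -/
theorem BW43 (H : Gr P r) {j : ℕ} (hj : 1 ≤ j) (hj2 : j + 1 ≤ r) {w0 u0 p q s : P}
    {psi : P → P} (B : BadW P j w0 u0 p q s psi) (h3 : ∀ x : P, lev x + 2 = j → dn j x ≤ 3)
    {z : P} (hz : univ.filter (fun z : P => lev z = j + 2 ∧ up j z = 4) = {z}) :
    ¬ Disjoint (sts j z) {p, q} ∧ Disjoint (sts j z) {q, s} := by
  have hzm : z ∈ univ.filter (fun z : P => lev z = j + 2 ∧ up j z = 4) := by
    rw [hz]
    exact mem_singleton_self z
  obtain ⟨-, hz1, hz4⟩ := Finset.mem_filter.1 hzm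
  have huniq : ∀ z' : P, lev z' = j + 2 → up j z' = 4 → z' = z := by
    intro z' h1 h2
    have h5 : z' ∈ univ.filter (fun z : P => lev z = j + 2 ∧ up j z = 4) :=
      Finset.mem_filter.2 ⟨mem_univ _, h1, h2⟩
    rw [hz] at h5
    exact mem_singleton.1 h5
  have hup := up_le_four H (i := j) hz1
  have hz2 : (uc z).card = 2 := by
    have := uc_card_le H z
    omega
  have hb : 4 ≤ (lv P j).card := by
    have := hup.2
    omega
  have hjr : j ≤ r := by omega
  have hzw : z ≠ w0 := by
    rintro rfl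
    have := B.hw
    omega
  have hzu : z ≠ u0 := by
    rintro rfl
    have := B.hu
    omega
  have hwu : w0 ≠ u0 := by
    rintro rfl
    have h5 := B.hw
    have h6 := B.hu
    omega
  have hK1 : w0 ∈ ({w0, u0} : Finset P) := mem_insert_self _ _
  have hK2 : u0 ∈ ({w0, u0} : Finset P) := mem_insert_of_mem (mem_singleton_self _)
  -- the general sum
  have key : ∀ S : Finset (P → ℕ),
      (∀ e ∈ S, ∃ a : P, (a = z ∨ a ∈ ({w0, u0} : Finset P)) ∧ e = cl z + sg a) →
      cl z + sg z ∈ S → (Disjoint (sts j z) {p, q} → cl z + sg w0 ∈ S) →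
      (Disjoint (sts j z) {q, s} → cl z + sg u0 ∈ S) →
      dd ^ ((lv P j).card - 2) ∣ ∑ e ∈ S, trm j e := by
    intro S hS k1 k2 k3
    refine core_sum_set H hj hj2 B.mat 4 2 ?_ S ?_ ?_
    · intro e hc hn
      rcases clsB4 H hj hj2 B h3 hc (by omega) with h | ⟨z', h1, h2, h⟩
      · exact h
      · exfalso
        have h5 := huniq z' h1 h2
        subst h5
        rcases h with h | ⟨h, -⟩ | ⟨h, -⟩
        · rw [h, BwG_sum hz2] at hn
          omega
        · rw [h, BwG_sum hz2] at hn
          omega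
        · rw [h, BwG_sum hz2] at hn
          omega
    · intro e he
      obtain ⟨a, ha, rfl⟩ := hS e he
      exact ⟨BwG_core H _ psi hz1 ha, BwG_sum hz2⟩
    · intro e hc hn he
      rcases clsB4 H hj hj2 B h3 hc (by omega) with h | ⟨z', h1, h2, h⟩
      · exact h
      · exfalso
        have h5 := huniq z' h1 h2
        subst h5
        apply he
        rcases h with h | ⟨h, hd⟩ | ⟨h, hd⟩
        · rw [h]; exact k1
        · rw [h]; exact k2 hd
        · rw [h]; exact k3 hd
  have hta : trm j (cl z + sg z) = xx ^ 6 * dd ^ ((lv P j).card - 3) := by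
    rw [trm_cl_z H hjr hz1, hz2, hz4]
    have e1 : 1 + ((lv P j).card - 4) = (lv P j).card - 3 := by omega
    rw [e1]
  have hab : cl z + sg z ≠ cl z + sg w0 := fun h => hzw (BwG_inj h)
  have hac : cl z + sg z ≠ cl z + sg u0 := fun h => hzu (BwG_inj h)
  have hbc : cl z + sg w0 ≠ cl z + sg u0 := fun h => hwu (BwG_inj h)
  by_cases D1 : Disjoint (sts j z) {p, q}
  · exfalso
    have htb := trm_cl_w0 H hj2 B hz1 hz4 hz2 D1
    by_cases D2 : Disjoint (sts j z) {q, s}
    · have htc := trm_cl_u0 H hj2 B hz1 hz4 hz2 D2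
      have h5 := key {cl z + sg z, cl z + sg w0, cl z + sg u0} (by
        intro e he
        rw [mem_insert, mem_insert, mem_singleton] at he
        rcases he with h | h | h
        · exact ⟨z, Or.inl rfl, h⟩
        · exact ⟨w0, Or.inr hK1, h⟩
        · exact ⟨u0, Or.inr hK2, h⟩) (mem_insert_self _ _)
        (fun _ => mem_insert_of_mem (mem_insert_self _ _))
        (fun _ => mem_insert_of_mem (mem_insert_of_mem (mem_singleton_self _)))
      rw [Finset.sum_insert (by
        rw [mem_insert, mem_singleton]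
        exact not_or.2 ⟨hab, hac⟩), Finset.sum_insert (by
        rw [mem_singleton]
        exact hbc), Finset.sum_singleton, hta, htb, htc] at h5
      have h6 : xx ^ 6 * dd ^ ((lv P j).card - 3) + (xx ^ 6 * dd ^ ((lv P j).card - 3) +
          xx ^ 4 * xi * dd ^ ((lv P j).card - 3)) =
          (xx ^ 6 + xx ^ 6 + xx ^ 4 * xi) * dd ^ ((lv P j).card - 3) := by ring
      rw [h6] at h5
      have h7 := BwG_final hb h5
      rw [map_add, map_add, map_mul, map_pow, map_pow, cc_xx, cc_xi] at h7
      norm_num at h7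
    · have h5 := key {cl z + sg z, cl z + sg w0} (by
        intro e he
        rw [mem_insert, mem_singleton] at he
        rcases he with h | h
        · exact ⟨z, Or.inl rfl, h⟩
        · exact ⟨w0, Or.inr hK1, h⟩) (mem_insert_self _ _)
        (fun _ => mem_insert_of_mem (mem_singleton_self _))
        (fun h => absurd h D2)
      rw [Finset.sum_insert (by
        rw [mem_singleton]
        exact hab), Finset.sum_singleton, hta, htb] at h5
      have h6 : xx ^ 6 * dd ^ ((lv P j).card - 3) + xx ^ 6 * dd ^ ((lv P j).card - 3) =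
          (xx ^ 6 + xx ^ 6) * dd ^ ((lv P j).card - 3) := by ring
      rw [h6] at h5
      have h7 := BwG_final hb h5
      rw [map_add, map_pow, cc_xx] at h7
      norm_num at h7
  · refine ⟨D1, ?_⟩
    by_contra D2
    have h5 := key {cl z + sg z} (by
        intro e he
        rw [mem_singleton] at he
        exact ⟨z, Or.inl rfl, he⟩) (mem_singleton_self _)
        (fun h => absurd h D1) (fun h => absurd h D2)
    rw [Finset.sum_singleton, hta] at h5
    have h7 := BwG_final hb h5
    rw [map_pow, cc_xx] at h7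
    norm_num at h7

end Pool.Agent.GaussPoset.Win
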