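import Pool.Agent.W_448win_h16.ClA
import Pool.Agent.W_448win_h16.LowD
import Pool.Agent.W_448win_h16.ExpC

/-! Cores of energy at most three. -/

namespace Pool.Agent.GaussPoset.Win

set_option linter.unusedSectionVars false

open Finset

universe u

variable {P : Type u} [Fintype P] [PartialOrder P] [DecidableEq P] {r : ℕ}

lemma clb_mem_TL {i : ℕ} {e : P → ℕ} {x : P} :
    x ∈ TL i e ↔ lev x = i + 1 ∧ ∃ z, z ⋖ x ∧ 0 < e z := by
  classical
  unfold TL; simp

/-- the energy of `cl z` -/
lemma clb_sum_cl (z : P) : ∑ x, cl z x = (uc z).card + 1 := by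
  classical
  have h1 : z ∉ uc z := fun h => (mem_uc.1 h).1.ne rfl
  have h2 : ∀ x, cl z x = if x ∈ insert z (uc z) then 1 else 0 := by
    intro x
    unfold cl
    simp only [Finset.mem_insert]
  rw [Finset.sum_congr rfl (fun x _ => h2 x), Finset.sum_boole, Finset.filter_mem_eq_inter,
    Finset.univ_inter, Finset.card_insert_of_notMem h1]
  simp

/-- the number of sites above a far element of level `i + 2` -/
lemma clb_sts_le (H : Gr P r) {i : ℕ} {z : P} (hz : lev z = i + 2) : (sts i z).card ≤ 4 := by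
  classical
  have h1 : sts i z ⊆ (uc z).biUnion uc := by
    intro v hv
    rw [mem_sts_iff H hz] at hv
    obtain ⟨w, hw, hv⟩ := hv
    exact Finset.mem_biUnion.2 ⟨w, hw, hv⟩
  have h2 : ((uc z).biUnion uc).card ≤ ∑ w ∈ uc z, (uc w).card := Finset.card_biUnion_le
  have h3 : ∑ w ∈ uc z, (uc w).card ≤ ∑ _w ∈ uc z, 2 :=
    Finset.sum_le_sum (fun w _ => uc_card_le H w)
  have h4 := uc_card_le H z
  rw [Finset.sum_const, smul_eq_mul] at h3
  have h5 := Finset.card_le_card h1
  omega

lemma clb_sts_sub (i : ℕ) (z : P) : sts i z ⊆ lv P i := by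
  intro v hv
  rw [mem_lv]
  exact (mem_sts.1 hv).1

/-- the function of `cl z` -/
lemma clb_Rk (H : Gr P r) {i : ℕ} (hi : i ≤ r) {z : P} (hz : lev z = i + 2) {k : ℕ}
    (h : (sts i z).card ≤ (uc z).card + k) : Rk (lv P i) k (Fe i (cl z)) := by
  have h1 : Rk (lv P i) k (fun S => dd ^ (uc z).card * chi (sts i z) ∅ S) :=
    Rk_chi (clb_sts_sub i z) (Finset.empty_subset _) (p := (uc z).card)
      (by rw [Finset.card_empty]; omega) (dvd_refl _)
  exact Rk_congr (fun S _ => (Fe_cl H hi hz S).symm) h1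

/-- two touched elements and energy at most three -/
lemma clb_two (H : Gr P r) {i : ℕ} (hi : i ≤ r) {e : P → ℕ} (hA : AdmL i e)
    (hB : AdmU i e) (hT : (TL i e).card = 2) (hn : ∑ x, e x ≤ 3) :
    ∃ z, lev z = i + 2 ∧ (uc z).card = 2 ∧ e = cl z := by
  rcases two_touched H hi hA hB hT (by omega) with ⟨z, hz, hz2, _, h | ⟨y, h⟩⟩ | ⟨hL, _⟩
  · exact ⟨z, hz, hz2, h⟩
  · exfalso
    have h1 : ∑ x, e x = ∑ x, cl z x + ∑ x, sg y x := by
      rw [h, ← Finset.sum_add_distrib]
      rfl
    have h2 : ∑ x, sg y x = 1 := by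
      unfold sg
      rw [Finset.sum_pi_single']
      simp
    rw [clb_sum_cl, h2, hz2] at h1
    omega
  · exfalso
    have := energy_bound H hi hA hB
    omega

/-- Cores of energy at most three with nothing touched above. `|TL| = 0`: `core_none`. `|TL| = 1`:
`core_one`. `|TL| = 2`: `two_touched`; the energy is at most three, so the first alternative with
`e = cl z` (`∑ cl z = 3` and `∑ (cl z + sg y) = 4`; in the second alternative the energy is
four). If `up i z ≤ 3`: `Fe_cl` and `Rk_chi` (`|sts| ≤ 3 ≤ 2 + 1`). `up i z ≤ 4` always. `|TL| ≥ 3`: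
`|LF| ≥ 2` (`card_TL_le`), energy at least five by `energy_bound`. -/
theorem cls3_low (H : Gr P r) {i : ℕ} (hi : 1 ≤ i) (hi2 : i + 1 ≤ r) {psi : P → P}
    (hM : Mat P i ∅ psi) {e : P → ℕ} (hc : IsCore i ∅ psi e) (hn : ∑ x, e x ≤ 3)
    (h2 : TU i e = ∅) :
    Rk (lv P i) 1 (Fe i e) ∨ (∃ z, lev z = i + 2 ∧ up i z = 4 ∧ e = cl z) := by
  have hir : i ≤ r := by omega
  by_cases hadm : AdmL i e ∧ AdmU i e
  swap
  · exact Or.inl (Rk_of_not_adm hadm 1)
  obtain ⟨hA, hB⟩ := hadm
  have hE := energy_bound H hir hA hB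
  have hT := card_TL_le H (i := i) e
  rcases Nat.lt_or_ge 2 (TL i e).card with h | h
  · omega
  interval_cases hcard : (TL i e).card
  · exact Or.inl (Rk_mono (Nat.zero_le _)
      (core_none H hi hi2 hc (Finset.card_eq_zero.1 hcard) h2))
  · obtain ⟨w, hw⟩ := Finset.card_eq_one.1 hcard
    exact Or.inl (core_one H hi hi2 hM hc hw h2).1
  · obtain ⟨z, hz, hz2, he⟩ := clb_two H hir hA hB hcard hn
    by_cases h4 : up i z = 4
    · exact Or.inr ⟨z, hz, h4, he⟩
    · left
      rw [he]
      apply clb_Rk H hir hz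
      have h5 := clb_sts_le H hz
      rw [card_sts] at h5 ⊢
      omega

/-- Cores of energy at most three, no far element with exactly one upper cover below a double one (`PD = ∅`), all
`up i z ≤ 3`, nothing touched above: in `Rk _ 0` or `cl z` with `up i z = 3`. As `cls3_low`; for
`|TL| = 1`, `TL = {w}`: an element `z` of `LF` on level `i + 2` below `w` (exists since `w` is
touched) has all its upper covers in `TL` (`pos_up` says they have positive label; they are touched
by `z`), so `uc z = {w}`, and `w` is single because `z ∉ PD`; `core_one`. For `e = cl z`, `(uc z).card = 2` and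
`up i z ≤ 2`: `Fe_cl`, `Rk_chi` with `|sts| ≤ 2`. -/
theorem cls3_low' (H : Gr P r) {i : ℕ} (hi : 1 ≤ i) (hi2 : i + 1 ≤ r) {psi : P → P}
    (hM : Mat P i ∅ psi) (hPD : PD P i = ∅) (h3 : ∀ z : P, lev z = i + 2 → up i z ≤ 3)
    {e : P → ℕ} (hc : IsCore i ∅ psi e) (hn : ∑ x, e x ≤ 3) (h2 : TU i e = ∅) :
    Rk (lv P i) 0 (Fe i e) ∨ (∃ z, lev z = i + 2 ∧ up i z = 3 ∧ e = cl z) := by
  classical
  have hir : i ≤ r := by omega
  by_cases hadm : AdmL i e ∧ AdmU i e
  swap
  · exact Or.inl (Rk_of_not_adm hadm 0)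
  obtain ⟨hA, hB⟩ := hadm
  have hE := energy_bound H hir hA hB
  have hT := card_TL_le H (i := i) e
  rcases Nat.lt_or_ge 2 (TL i e).card with h | h
  · omega
  interval_cases hcard : (TL i e).card
  · exact Or.inl (core_none H hi hi2 hc (Finset.card_eq_zero.1 hcard) h2)
  · obtain ⟨w, hw⟩ := Finset.card_eq_one.1 hcard
    left
    refine (core_one H hi hi2 hM hc hw h2).2 ?_
    have hwT : w ∈ TL i e := by rw [hw]; exact Finset.mem_singleton_self w
    obtain ⟨hlw, z, hzw, hez⟩ := clb_mem_TL.1 hwT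
    have hlz : lev z = i + 2 := by
      have := lev_uc H (mem_uc.2 hzw)
      omega
    have hucz : uc z = {w} := by
      apply Finset.eq_singleton_iff_unique_mem.2
      refine ⟨mem_uc.2 hzw, fun y hy => ?_⟩
      have hly := lev_uc H hy
      have hyT : y ∈ TL i e := clb_mem_TL.2 ⟨by omega, z, mem_uc.1 hy, hez⟩
      rw [hw, Finset.mem_singleton] at hyT
      exact hyT
    have hw2 : (uc w).card ≠ 2 := by
      intro hcon
      have hzPD : z ∈ PD P i := by
        unfold PD
        rw [Finset.mem_filter]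
        exact ⟨Finset.mem_univ _, hlz, by rw [hucz, Finset.card_singleton], w, hzw, hcon⟩
      rw [hPD] at hzPD
      exact absurd hzPD (Finset.notMem_empty z)
    have hw3 := uc_card_le H w
    have hw4 : 0 < (uc w).card := Finset.card_pos.2 (uc_nonempty H (by omega))
    omega
  · obtain ⟨z, hz, hz2, he⟩ := clb_two H hir hA hB hcard hn
    have h5 := h3 z hz
    by_cases h4 : up i z = 3
    · exact Or.inr ⟨z, hz, h4, he⟩
    · left
      rw [he]
      apply clb_Rk H hir hz
      rw [card_sts]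
      omega

end Pool.Agent.GaussPoset.Win
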