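import Pool.Agent.W_448win_h16.ClB

/-! Cores of energy at most four. -/

namespace Pool.Agent.GaussPoset.Win

set_option linter.unusedSectionVars false

open Finset

universe u

variable {P : Type u} [Fintype P] [PartialOrder P] [DecidableEq P] {r : ℕ}


lemma ClC_sts (H : Gr P r) {i : ℕ} {z : P} (hz : lev z = i + 2) :
    sts i z = (uc z).biUnion uc := by
  ext v
  rw [mem_sts_iff H hz, Finset.mem_biUnion]

lemma ClC_lev (H : Gr P r) {a b : P} (h : a ⋖ b) : lev a = lev b + 1 := (H.covBy_iff.1 h).2

lemma ClC_mem_TL {i : ℕ} {e : P → ℕ} {x : P} :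
    x ∈ TL i e ↔ (lev x = i + 1 ∧ ∃ z, z ⋖ x ∧ 0 < e z) := by
  classical
  unfold TL; simp

lemma ClC_mem_TU {i : ℕ} {e : P → ℕ} {x : P} :
    x ∈ TU i e ↔ (lev x + 1 = i ∧ ∃ y, x ⋖ y ∧ 0 < e y) := by
  classical
  unfold TU; simp

lemma ClC_mem_LF {i : ℕ} {e : P → ℕ} {x : P} : x ∈ LF i e ↔ (i + 2 ≤ lev x ∧ 0 < e x) := by
  classical
  unfold LF; simp

lemma ClC_mem_PD {i : ℕ} {z : P} : z ∈ PD P i ↔ (lev z = i + 2 ∧ (uc z).card = 1 ∧
    ∃ w, z ⋖ w ∧ (uc w).card = 2) := by
  classical
  unfold PD; simp

/-- the configuration of the second alternative of `two_touched` -/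
lemma ClC_second (H : Gr P r) {i : ℕ} (hi2 : i ≤ r) (hPD : (PD P i).card ≤ 1)
    (h3 : ∀ z : P, lev z = i + 2 → up i z ≤ 3) {e : P → ℕ} (hA : AdmL i e) (hB : AdmU i e)
    (h2 : TU i e = ∅) (hT : (TL i e).card = 2)
    (he : ∀ x, e x = if x ∈ TL i e ∪ LF i e then 1 else 0) : Cheap 1 i e := by
  classical
  have hUF : UF i e = ∅ := by
    rw [Finset.eq_empty_iff_forall_notMem]
    intro x hx
    have h4 : lev x + 2 ≤ i ∧ 0 < e x := by
      unfold UF at hx; simpa using hx
    have h5 := far_zero_of_TU H hi2 hB h2 h4.1
    omega
  apply cheap_ind H hi2 hT (by rw [h2, hUF]; rfl) he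
  by_contra hcon
  obtain ⟨w, w', hww, hTL⟩ := Finset.card_eq_two.1 hT
  have hwm : w ∈ TL i e := by rw [hTL]; simp
  have hwm' : w' ∈ TL i e := by rw [hTL]; simp
  have hbi : (TL i e).biUnion uc = uc w ∪ uc w' := by
    rw [hTL, Finset.biUnion_insert, Finset.singleton_biUnion]
  have hle := Finset.card_union_le (uc w) (uc w')
  rw [hbi] at hcon
  have h5 := uc_card_le H w
  have h6 := uc_card_le H w'
  have h7 : (uc w).card = 2 := by omega
  have h8 : (uc w').card = 2 := by omega
  have key : ∀ x ∈ TL i e, (uc x).card = 2 → ∃ z ∈ PD P i, uc z = {x} := by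
    intro x hx hx2
    obtain ⟨hl, z, hz, hz2⟩ := ClC_mem_TL.1 hx
    have hlz := ClC_lev H hz
    have hsub : uc z ⊆ TL i e := by
      intro y hy
      have h9 := mem_uc.1 hy
      have h10 := ClC_lev H h9
      exact ClC_mem_TL.2 ⟨by omega, z, h9, hz2⟩
    have hc := uc_card_le H z
    have hxz : x ∈ uc z := mem_uc.2 hz
    have hpos : 0 < (uc z).card := Finset.card_pos.2 ⟨x, hxz⟩
    have hne2 : (uc z).card ≠ 2 := by
      intro h9
      have h10 : uc z = TL i e := Finset.eq_of_subset_of_card_le hsub (by omega)
      have h11 := h3 z (by omega)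
      rw [← card_sts, ClC_sts H (by omega), h10, hbi] at h11
      omega
    have h1c : (uc z).card = 1 := by omega
    refine ⟨z, ClC_mem_PD.2 ⟨by omega, h1c, x, hz, hx2⟩, ?_⟩
    obtain ⟨t, ht⟩ := Finset.card_eq_one.1 h1c
    rw [ht, mem_singleton] at hxz
    rw [ht, hxz]
  obtain ⟨z, hz, hz2⟩ := key w hwm h7
  obtain ⟨z', hz', hz2'⟩ := key w' hwm' h8
  have hne : z ≠ z' := by
    intro h
    rw [h, hz2'] at hz2
    exact hww (Finset.singleton_injective hz2).symm
  have := Finset.card_le_one.1 hPD z hz z' hz'
  exact hne this

/-- Cores of energy at most four, `|PD| ≤ 1`, all `up i z ≤ 3`, nothing touched above. `|TL| ≤ 1`: `core_none`,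
`core_one`. `|TL| ≥ 3` impossible. `|TL| = 2`, `two_touched`:
`e = cl z`: `Fe_cl`, `Rk_chi`. `e = cl z + sg y`: `y` is a site, near, or far. `y` a site which is
not common or `y ∈ uc z`: `cheap_cl`, `up i z - 2 ≤ 1`. `y` a common site: `Fe_cl_v`, `|sts \ {v}| ≤ 1` if
`up i z ≤ 2`, otherwise the third alternative of the conclusion (`up i z = 3`). `y` near and not
in `uc z = TL`: it is not touched, so by `core_near` it is double and `psi y ∈ Tch`, so `psi y = w` is one of the
upper covers of `z`, `y` is a double upper element with `dc y = uc w` (`hM`); `fact` gives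
`Fe (cl z) * wtU (cl z) y 1`, and this is zero: `uc w ⊆ sts i z` must be in `S`, and not in `S`. `y = z`:
`Fe_cl_z`, `|sts| ≤ 2 = 1 + 1` if `up i z ≤ 2`, otherwise the second alternative. `y ≠ z` of level `≥ i + 2`: it has positive label, then
`|LF| ≥ 2` and with `|TL| = 2` the energy is four, `y ∈ LF`; all its upper covers have positive label
(`pos_up`), so they are in `{z} ∪ uc z`; use `Rk_chi` / `Cheap`: the data are those of `cl z`
(`y` has `GU`). `y` of level `≤ i - 2`: then `TU` is not empty (or not admissible). Second
alternative of `two_touched`: `cheap_ind` with `k = 1` unless the two touched elements `w, w'` are double and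
have disjoint sites; in this case an element of `LF` on level `i + 2` with two upper covers has
`up i z = 4`, excluded; so the elements of `LF` below `w` and below `w'` on level `i + 2` are
single-up and different, two elements of `PD`, excluded. -/
theorem cls4_low (H : Gr P r) {i : ℕ} (hi : 1 ≤ i) (hi2 : i + 1 ≤ r) {psi : P → P}
    (hM : Mat P i ∅ psi) (hPD : (PD P i).card ≤ 1)
    (h3 : ∀ z : P, lev z = i + 2 → up i z ≤ 3) {e : P → ℕ} (hc : IsCore i ∅ psi e)
    (hn : ∑ x, e x ≤ 4) (h2 : TU i e = ∅) :
    Rk (lv P i) 1 (Fe i e) ∨ (∃ z, lev z = i + 2 ∧ up i z = 3 ∧ e = cl z + sg z) ∨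
      (∃ z v, lev z = i + 2 ∧ up i z = 3 ∧ v ∈ sts i z ∧ (∀ w ∈ uc z, v ∈ uc w) ∧
        e = cl z + sg v) := by
  classical
  by_cases hadm : AdmL i e ∧ AdmU i e
  swap
  · exact Or.inl (Rk_of_not_adm hadm 1)
  obtain ⟨hA, hB⟩ := hadm
  have hir : i ≤ r := by omega
  have hE := energy_bound H hir hA hB
  have hL := card_TL_le H (i := i) e
  rcases Nat.lt_or_ge (TL i e).card 2 with hT | hT
  · left
    rcases Nat.eq_zero_or_pos (TL i e).card with h0 | h0
    · exact Rk_mono (by omega) (core_none H hi hi2 hc (Finset.card_eq_zero.1 h0) h2)
    · obtain ⟨w, hw⟩ := Finset.card_eq_one.1 (show (TL i e).card = 1 by omega)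
      exact (core_one H hi hi2 hM hc hw h2).1
  have hT2 : (TL i e).card = 2 := by omega
  rcases two_touched H hir hA hB hT2 hn with ⟨z, hlz, hcz, hTz, hez⟩ | ⟨hLF, hind⟩
  swap
  · exact Or.inl (Rk_of_cheap (ClC_second H hir hPD h3 hA hB h2 hT2 hind))
  have hup := h3 z hlz
  have hsub : sts i z ⊆ lv P i := by
    intro v hv
    rw [mem_lv]
    exact (mem_sts.1 hv).1
  have hclsite : ∀ v, lev v = i → cl z v = 0 := by
    intro v hv
    unfold cl
    rw [if_neg]
    rintro (h | h)
    · rw [h] at hv; omega
    · have := ClC_lev H (mem_uc.1 h); omega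
  rcases hez with hez | ⟨y, hey⟩
  · left
    rw [hez]
    have h4 : Rk (lv P i) 1 (fun S => dd ^ 2 * chi (sts i z) ∅ S) :=
      Rk_chi (p := 2) hsub (Finset.empty_subset _) (by
        rw [Finset.card_empty, card_sts]; omega) dvd_rfl
    refine Rk_congr (fun S _ => ?_) h4
    rw [Fe_cl H hir hlz, hcz]
  · have hey1 : 1 ≤ e y := by
      rw [hey, Pi.add_apply]
      unfold sg
      rw [Pi.single_eq_same]
      omega
    rcases Nat.lt_trichotomy (lev y) i with hly | hly | hly
    · -- upper elements
      left
      rcases Nat.lt_or_ge (lev y + 1) i with hly2 | hly2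
      · have := far_zero_of_TU H hir hB h2 (z := y) (by omega)
        omega
      · have hly3 : lev y + 1 = i := by omega
        have hnear : y ∈ near P i := mem_near.2 (Or.inr hly3)
        have hTch : ∀ x, x ∈ Tch i e → x ∈ uc z := by
          intro x hx
          rcases mem_Tch.1 hx with hx | hx
          · rw [← hTz]; exact ClC_mem_TL.2 hx
          · have : x ∈ TU i e := ClC_mem_TU.2 hx
            rw [h2] at this
            exact absurd this (Finset.notMem_empty x)
        have hyuc : y ∉ uc z := by
          intro h
          have := ClC_lev H (mem_uc.1 h); omega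
        rcases core_near hc hnear (by omega) with h4 | ⟨h4, h5⟩
        · exact absurd (hTch y h4) hyuc
        · have hpz := hTch _ h5
          have hpl := ClC_lev H (mem_uc.1 hpz)
          have hyU : y ∈ dbU P i := by
            rcases Finset.mem_union.1 h4 with h6 | h6
            · have := (mem_dbL.1 h6).1; omega
            · exact h6
          obtain ⟨h6, h7⟩ := hM.upp y hyU (Finset.notMem_empty _)
          have hyT : y ∉ Tch i (cl z) := by
            intro h
            rcases mem_Tch.1 h with h | ⟨_, y', hy', hy2⟩
            · omega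
            · have h8 := ClC_lev H hy'
              unfold cl at hy2
              split_ifs at hy2 with h9
              · rcases h9 with h9 | h9
                · rw [h9] at h8; omega
                · have := ClC_lev H (mem_uc.1 h9); omega
              · omega
          have hcly : cl z y = 0 := by
            unfold cl
            rw [if_neg]
            rintro (h | h)
            · rw [h] at hly; omega
            · exact hyuc h
          have hzero : ∀ S, S ⊆ lv P i → (0 : A) = Fe i e S := by
            intro S _
            rw [hey]
            unfold sg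
            rw [fact H hir hnear hyT hcly 1 S, Fe_cl H hir hlz]
            unfold wt
            rw [if_neg (by omega)]
            unfold wtU chi
            by_cases h8 : sts i z ⊆ S ∧ Disjoint ∅ S
            · have h9 : ¬ ∀ v ∈ dc y, cl z v < 1 → v ∉ S := by
                intro hall
                have hne : (dc y).Nonempty := by
                  rw [← Finset.card_pos, (mem_dbU.1 hyU).2]; omega
                obtain ⟨v, hv⟩ := hne
                have hvl := ClC_lev H (mem_dc.1 hv)
                have hv2 : v ∈ sts i z := by
                  rw [mem_sts_iff H hlz]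
                  exact ⟨psi y, hpz, by rw [h7]; exact hv⟩
                refine hall v hv ?_ (h8.1 hv2)
                rw [hclsite v (by omega)]; omega
              rw [if_neg h9]; ring
            · rw [if_neg h8]; ring
          exact Rk_congr hzero (Rk_zero _ 1)
    · -- sites
      by_cases hcom : ∀ w ∈ uc z, y ∈ uc w
      · have hys : y ∈ sts i z := by
          rw [mem_sts_iff H hlz]
          have hne : (uc z).Nonempty := by
            rw [← Finset.card_pos, hcz]; omega
          obtain ⟨w, hw⟩ := hne
          exact ⟨w, hw, hcom w hw⟩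
        by_cases hup3 : up i z = 3
        · exact Or.inr (Or.inr ⟨z, y, hlz, hup3, hys, hcom, hey⟩)
        · left
          rw [hey]
          have h4 : Rk (lv P i) 1 (fun S => 1 * chi ((sts i z).erase y) ∅ S) :=
            Rk_chi (p := 0) ((Finset.erase_subset _ _).trans hsub) (Finset.empty_subset _) (by
              rw [Finset.card_empty, Finset.card_erase_of_mem hys, card_sts]; omega) (by simp)
          refine Rk_congr (fun S _ => ?_) h4
          rw [Fe_cl_v H hir hlz hly hcom, one_mul]
      · left
        rw [hey]
        exact Rk_of_cheap ((cheap_cl H hir hlz hcz (Or.inr ⟨hly, hcom⟩)).mono (by omega))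
    · -- lower elements
      rcases Nat.lt_or_ge (i + 1) (lev y) with hly2 | hly2
      · by_cases hyz : y = z
        · subst hyz
          by_cases hup3 : up i y = 3
          · exact Or.inr (Or.inl ⟨y, hlz, hup3, hey⟩)
          · left
            rw [hey]
            have h4 : Rk (lv P i) 1 (fun S => (xx ^ 2 * dd) * chi (sts i y) ∅ S) :=
              Rk_chi (p := 1) hsub (Finset.empty_subset _) (by
                rw [Finset.card_empty, card_sts]; omega) (by
                rw [pow_one]; exact Dvd.intro_left _ rfl)
            refine Rk_congr (fun S _ => ?_) h4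
            rw [Fe_cl_z H hir hlz, hcz]
        · -- another far element
          left
          apply Rk_of_cheap
          apply ClC_second H hir hPD h3 hA hB h2 hT2
          intro x
          have hex : e x = cl z x + sg y x := by rw [hey]; rfl
          have hzcl : 0 < e z := by
            rw [hey, Pi.add_apply]
            unfold cl
            rw [if_pos (Or.inl rfl)]; omega
          by_cases hxy : x = y
          · have h4 : cl z x = 0 := by
              unfold cl
              rw [if_neg]
              rintro (h | h)
              · exact hyz (hxy ▸ h)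
              · have := ClC_lev H (mem_uc.1 h)
                rw [hxy] at this; omega
            have h5 : sg y x = 1 := by
              unfold sg; rw [hxy, Pi.single_eq_same]
            rw [hex, h4, h5, if_pos]
            refine Finset.mem_union_right _ (ClC_mem_LF.2 ⟨by rw [hxy]; omega, ?_⟩)
            rw [hxy]; omega
          · have h5 : sg y x = 0 := by
              unfold sg; rw [Pi.single_eq_of_ne hxy]
            rw [hex, h5, add_zero]
            unfold cl
            by_cases hx : x = z ∨ x ∈ uc z
            · rw [if_pos hx, if_pos]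
              rcases hx with hx | hx
              · rw [hx]
                exact Finset.mem_union_right _ (ClC_mem_LF.2 ⟨by omega, hzcl⟩)
              · rw [← hTz] at hx
                exact Finset.mem_union_left _ hx
            · rw [if_neg hx, if_neg]
              intro h
              rcases Finset.mem_union.1 h with h | h
              · rw [hTz] at h
                exact hx (Or.inr h)
              · have h6 := (ClC_mem_LF.1 h).2
                rw [hex, h5] at h6
                unfold cl at h6
                rw [if_neg hx] at h6
                omega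
      · have hly3 : lev y = i + 1 := by omega
        left
        by_cases hyuc : y ∈ uc z
        · rw [hey]
          exact Rk_of_cheap ((cheap_cl H hir hlz hcz (Or.inl hyuc)).mono (by omega))
        · exfalso
          have hTch : ∀ x, x ∈ Tch i e → x ∈ uc z := by
            intro x hx
            rcases mem_Tch.1 hx with hx | hx
            · rw [← hTz]; exact ClC_mem_TL.2 hx
            · have : x ∈ TU i e := ClC_mem_TU.2 hx
              rw [h2] at this
              exact absurd this (Finset.notMem_empty x)
          have hnear : y ∈ near P i := mem_near.2 (Or.inl hly3)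
          rcases core_near hc hnear (by omega) with h4 | ⟨h4, h5⟩
          · exact hyuc (hTch y h4)
          · have hpz := hTch _ h5
            have hpl := ClC_lev H (mem_uc.1 hpz)
            rcases Finset.mem_union.1 h4 with h6 | h6
            · have := (mem_dbU.1 (hM.low y h6 (Finset.notMem_empty _)).1).1
              omega
            · have := (mem_dbU.1 h6).1; omega

end Pool.Agent.GaussPoset.Win
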