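import Pool.Agent.W_MP_448cb3_h96.MainB

/-!
Window calculus for Gaussian posets (MP_448cb3_co, M = 1): definitions.
`e : P → ℕ` is an excess function, `i` the window level; elements of level `i` are the sites,
elements of level `> i` are lower, elements of level `< i` are upper, `i+1` and `i-1` are near.
-/

namespace Pool.Agent.GaussPoset.Win

set_option linter.unusedSectionVars false

open Finset

universe u

/-- coefficient ring: power series in `dd` -/
abbrev A := PowerSeries ℤ

/-- the variable of `A` -/
noncomputable def dd : A := PowerSeries.X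

/-- the image of `X`, a unit -/
noncomputable def xx : A := dd - 1

/-- the inverse of `xx` -/
noncomputable def xi : A := -(PowerSeries.mk fun _ => (1 : ℤ))

/-- evaluation of an integer polynomial at `xx` -/
noncomputable def ev : Polynomial ℤ →+* A := Polynomial.eval₂RingHom (Int.castRingHom A) xx

section Data

variable {P : Type u} [Fintype P] [PartialOrder P] [DecidableEq P]

/-- some lower cover has a larger label -/
def FD (e : P → ℕ) (z : P) : Prop := ∃ z', z' ⋖ z ∧ e z < e z'

/-- some upper cover has a label which is at least as large -/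
def GU (e : P → ℕ) (z : P) : Prop := ∃ y, z ⋖ y ∧ e z ≤ e y

/-- some upper cover has a larger label -/
def FU (e : P → ℕ) (u : P) : Prop := ∃ y, u ⋖ y ∧ e u < e y

/-- some lower cover has a label which is at least as large -/
def GD (e : P → ℕ) (u : P) : Prop := ∃ z, z ⋖ u ∧ e u ≤ e z

/-- admissibility below the window -/
def AdmL (i : ℕ) (e : P → ℕ) : Prop := ∀ z : P, i < lev z → ¬ (FD e z ∧ GU e z)

/-- admissibility above the window -/
def AdmU (i : ℕ) (e : P → ℕ) : Prop := ∀ u : P, lev u < i → ¬ (FU e u ∧ GD e u)

open Classical in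
/-- number of lower elements with `FD` -/
noncomputable def aL (i : ℕ) (e : P → ℕ) : ℕ :=
  (univ.filter (fun z : P => i < lev z ∧ FD e z)).card

open Classical in
/-- number of free lower elements -/
noncomputable def pL (i : ℕ) (e : P → ℕ) : ℕ :=
  (univ.filter (fun z : P => i < lev z ∧ ¬ FD e z ∧ ¬ GU e z)).card

open Classical in
/-- number of upper elements with `FU` -/
noncomputable def aU (i : ℕ) (e : P → ℕ) : ℕ :=
  (univ.filter (fun z : P => lev z < i ∧ FU e z)).card

open Classical in
/-- number of free upper elements -/
noncomputable def pU (i : ℕ) (e : P → ℕ) : ℕ :=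
  (univ.filter (fun z : P => lev z < i ∧ ¬ FU e z ∧ ¬ GD e z)).card

open Classical in
/-- sites forced by the lower part -/
noncomputable def AL (i : ℕ) (e : P → ℕ) : Finset P := (lv P i).filter (fun v => FD e v)

open Classical in
/-- sites forced by the upper part -/
noncomputable def AU (i : ℕ) (e : P → ℕ) : Finset P := (lv P i).filter (fun v => FU e v)

open Classical in
/-- the coefficient of a configuration -/
noncomputable def cw (i : ℕ) (e : P → ℕ) : A :=
  if AdmL i e ∧ AdmU i e then xx ^ aL i e * xi ^ (aU i e + pU i e) * dd ^ (pL i e + pU i e) else 0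

/-- indicator of `B ⊆ S` and `C ∩ S = ∅` -/
noncomputable def chi (B C S : Finset P) : A := if B ⊆ S ∧ Disjoint C S then 1 else 0

/-- the function of the configuration `e` -/
noncomputable def Fe (i : ℕ) (e : P → ℕ) (S : Finset P) : A := cw i e * chi (AL i e) (AU i e) S

/-- the term of the configuration `e` -/
noncomputable def trm (i : ℕ) (e : P → ℕ) : A :=
  if Disjoint (AL i e) (AU i e) then
    cw i e * (xx ^ (AL i e).card * dd ^ ((lv P i).card - (AL i e).card - (AU i e).card))
  else 0

/-- weighted sum over the subsets of the window -/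
noncomputable def II (i : ℕ) (f : Finset P → A) : A := ∑ S ∈ (lv P i).powerset, xx ^ S.card * f S

/-- configurations with at most `k` deficits -/
def Cheap (k i : ℕ) (e : P → ℕ) : Prop :=
  ¬ AdmL i e ∨ ¬ AdmU i e ∨ ¬ Disjoint (AL i e) (AU i e) ∨
    (AL i e).card + (AU i e).card ≤ pL i e + pU i e + k

/-- functions on subsets of `V` with at most `k` deficits -/
def Rk (V : Finset P) (k : ℕ) (f : Finset P → A) : Prop :=
  ∃ c : Finset P → A, (∀ T, T ⊆ V → dd ^ (T.card - k) ∣ c T) ∧
    ∀ S, S ⊆ V → f S = ∑ T ∈ S.powerset, c T

open Classical in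
/-- upper covers -/
noncomputable def uc (x : P) : Finset P := univ.filter (fun y => x ⋖ y)

open Classical in
/-- lower covers -/
noncomputable def dc (x : P) : Finset P := univ.filter (fun y => y ⋖ x)

open Classical in
/-- near elements -/
noncomputable def near (P : Type u) [Fintype P] [PartialOrder P] [DecidableEq P] (i : ℕ) :
    Finset P := univ.filter (fun x : P => lev x = i + 1 ∨ lev x + 1 = i)

open Classical in
/-- double lower near elements -/
noncomputable def dbL (P : Type u) [Fintype P] [PartialOrder P] [DecidableEq P] (i : ℕ) :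
    Finset P := univ.filter (fun x : P => lev x = i + 1 ∧ (uc x).card = 2)

open Classical in
/-- double upper near elements -/
noncomputable def dbU (P : Type u) [Fintype P] [PartialOrder P] [DecidableEq P] (i : ℕ) :
    Finset P := univ.filter (fun x : P => lev x + 1 = i ∧ (dc x).card = 2)

/-- level `i` is good -/
def Good (P : Type u) [Fintype P] [PartialOrder P] [DecidableEq P] (i : ℕ) : Prop :=
  ∀ v v' : P, lev v = i → lev v' = i → v ≠ v' → ucv v v' = dcv v v'

open Classical in
/-- single-up elements of level `i+2` below a double-up element -/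
noncomputable def PD (P : Type u) [Fintype P] [PartialOrder P] [DecidableEq P] (i : ℕ) :
    Finset P := univ.filter (fun z : P => lev z = i + 2 ∧ (uc z).card = 1 ∧
      ∃ w, z ⋖ w ∧ (uc w).card = 2)

open Classical in
/-- single-down elements of level `i-2` above a double-down element -/
noncomputable def PU (P : Type u) [Fintype P] [PartialOrder P] [DecidableEq P] (i : ℕ) :
    Finset P := univ.filter (fun x : P => lev x + 2 = i ∧ (dc x).card = 1 ∧
      ∃ u, u ⋖ x ∧ (dc u).card = 2)

/-- weight of a lower near element `w` with label `a` -/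
noncomputable def wtL (e : P → ℕ) (w : P) (a : ℕ) (S : Finset P) : A :=
  (if ∀ v ∈ uc w, e v < a then dd else 1) * (if ∀ v ∈ uc w, e v < a → v ∈ S then 1 else 0)

/-- weight of an upper near element `u` with label `b` -/
noncomputable def wtU (e : P → ℕ) (u : P) (b : ℕ) (S : Finset P) : A :=
  (if ∀ v ∈ dc u, e v < b then xi * dd else 1) * (if ∀ v ∈ dc u, e v < b → v ∉ S then 1 else 0)

/-- weight of a near element -/
noncomputable def wt (i : ℕ) (e : P → ℕ) (x : P) (a : ℕ) (S : Finset P) : A :=
  if lev x = i + 1 then wtL e x a S else wtU e x a S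

open Classical in
/-- near elements touched by a far element with positive label -/
noncomputable def Tch (i : ℕ) (e : P → ℕ) : Finset P :=
  univ.filter (fun x : P => (lev x = i + 1 ∧ ∃ z, z ⋖ x ∧ 0 < e z) ∨
    (lev x + 1 = i ∧ ∃ y, x ⋖ y ∧ 0 < e y))

/-- `psi` matches the double lower and the double upper near elements outside `K` -/
structure Mat (P : Type u) [Fintype P] [PartialOrder P] [DecidableEq P] (i : ℕ) (K : Finset P)
    (psi : P → P) : Prop where
  invol : ∀ x, x ∈ dbL P i ∪ dbU P i → x ∉ K → psi (psi x) = x ∧ psi x ∉ K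
  low : ∀ x, x ∈ dbL P i → x ∉ K → psi x ∈ dbU P i ∧ dc (psi x) = uc x
  upp : ∀ x, x ∈ dbU P i → x ∉ K → psi x ∈ dbL P i ∧ uc (psi x) = dc x

open Classical in
/-- the free near elements of a configuration -/
noncomputable def Rst (i : ℕ) (K : Finset P) (psi : P → P) (e : P → ℕ) : Finset P :=
  (near P i).filter (fun x => x ∉ K ∧ x ∉ Tch i e ∧
    ¬ (x ∈ dbL P i ∪ dbU P i ∧ psi x ∈ Tch i e))

/-- cores: the free near elements have label zero -/
def IsCore (i : ℕ) (K : Finset P) (psi : P → P) (e : P → ℕ) : Prop :=
  ∀ x ∈ Rst i K psi e, e x = 0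

/-- label one on `z` and its upper covers -/
noncomputable def cl (z : P) : P → ℕ := fun y => if y = z ∨ y ∈ uc z then 1 else 0

/-- label one on `x` and its lower covers -/
noncomputable def cu (x : P) : P → ℕ := fun y => if y = x ∨ y ∈ dc x then 1 else 0

/-- label one on `a` only -/
def sg (a : P) : P → ℕ := Pi.single a 1

open Classical in
/-- lower elements of level at least `i+2` with positive label -/
noncomputable def LF (i : ℕ) (e : P → ℕ) : Finset P :=
  univ.filter (fun z : P => i + 2 ≤ lev z ∧ 0 < e z)

open Classical in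
/-- upper elements of level at most `i-2` with positive label -/
noncomputable def UF (i : ℕ) (e : P → ℕ) : Finset P :=
  univ.filter (fun z : P => lev z + 2 ≤ i ∧ 0 < e z)

open Classical in
/-- touched lower near elements -/
noncomputable def TL (i : ℕ) (e : P → ℕ) : Finset P :=
  univ.filter (fun x : P => lev x = i + 1 ∧ ∃ z, z ⋖ x ∧ 0 < e z)

open Classical in
/-- touched upper near elements -/
noncomputable def TU (i : ℕ) (e : P → ℕ) : Finset P :=
  univ.filter (fun x : P => lev x + 1 = i ∧ ∃ y, x ⋖ y ∧ 0 < e y)

lemma mem_uc {x y : P} : y ∈ uc x ↔ x ⋖ y := by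
  classical
  unfold uc; simp

lemma mem_dc {x y : P} : y ∈ dc x ↔ y ⋖ x := by
  classical
  unfold dc; simp

end Data

end Pool.Agent.GaussPoset.Win
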