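import Pool.Agent.W_448win_h16.FactA

/-! Transfer to the dual poset. -/

namespace Pool.Agent.GaussPoset.Win

set_option linter.unusedSectionVars false

open Finset OrderDual

universe u

variable {P : Type u} [Fintype P] [PartialOrder P] [DecidableEq P] {r : ℕ}

/-- a labelling seen on the dual -/
def eo (e : P → ℕ) : Pᵒᵈ → ℕ := fun y => e (ofDual y)

/-- `H.hr` and the definition of `colev` -/
lemma lev_od (H : Gr P r) (x : P) : lev (toDual x) = r - lev x := by
  have h := H.hr x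
  unfold colev at h
  omega

/-- `toDual_covBy_toDual_iff` -/
lemma FD_od (e : P → ℕ) (x : P) : FD (eo e) (toDual x) ↔ FU e x := by
  constructor
  · rintro ⟨z, hz, h⟩
    exact ⟨ofDual z, toDual_covBy_toDual_iff.mp hz, h⟩
  · rintro ⟨y, hy, h⟩
    exact ⟨toDual y, toDual_covBy_toDual_iff.mpr hy, h⟩

lemma FU_od (e : P → ℕ) (x : P) : FU (eo e) (toDual x) ↔ FD e x := by
  constructor
  · rintro ⟨z, hz, h⟩
    exact ⟨ofDual z, toDual_covBy_toDual_iff.mp hz, h⟩
  · rintro ⟨y, hy, h⟩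
    exact ⟨toDual y, toDual_covBy_toDual_iff.mpr hy, h⟩

lemma GU_od (e : P → ℕ) (x : P) : GU (eo e) (toDual x) ↔ GD e x := by
  constructor
  · rintro ⟨z, hz, h⟩
    exact ⟨ofDual z, toDual_covBy_toDual_iff.mp hz, h⟩
  · rintro ⟨y, hy, h⟩
    exact ⟨toDual y, toDual_covBy_toDual_iff.mpr hy, h⟩

lemma GD_od (e : P → ℕ) (x : P) : GD (eo e) (toDual x) ↔ GU e x := by
  constructor
  · rintro ⟨z, hz, h⟩
    exact ⟨ofDual z, toDual_covBy_toDual_iff.mp hz, h⟩
  · rintro ⟨y, hy, h⟩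
    exact ⟨toDual y, toDual_covBy_toDual_iff.mpr hy, h⟩

/-- `lev (toDual x) > r - i` iff `lev x < i` -/
lemma AdmL_od (H : Gr P r) {i : ℕ} (hi : i ≤ r) (e : P → ℕ) :
    AdmL (r - i) (eo e) ↔ AdmU i e := by
  constructor
  · intro h u hu hc
    have h1 := lev_od H u
    have h2 := H.hr u
    refine h (toDual u) (by omega) ?_
    rw [FD_od, GU_od]
    exact hc
  · intro h z hz hc
    have h1 := lev_od H (ofDual z)
    have h2 := H.hr (ofDual z)
    rw [toDual_ofDual] at h1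
    refine h (ofDual z) (by omega) ?_
    rw [← FD_od, ← GU_od]
    exact hc

lemma AdmU_od (H : Gr P r) {i : ℕ} (hi : i ≤ r) (e : P → ℕ) :
    AdmU (r - i) (eo e) ↔ AdmL i e := by
  constructor
  · intro h u hu hc
    have h1 := lev_od H u
    have h2 := H.hr u
    refine h (toDual u) (by omega) ?_
    rw [FU_od, GD_od]
    exact hc
  · intro h z hz hc
    have h1 := lev_od H (ofDual z)
    have h2 := H.hr (ofDual z)
    rw [toDual_ofDual] at h1
    refine h (ofDual z) (by omega) ?_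
    rw [← FU_od, ← GD_od]
    exact hc

lemma mem_AL_od (H : Gr P r) {i : ℕ} (hi : i ≤ r) (e : P → ℕ) (x : P) :
    toDual x ∈ AL (r - i) (eo e) ↔ x ∈ AU i e := by
  classical
  have h1 := lev_od H x
  have h2 := H.hr x
  unfold AL AU
  rw [Finset.mem_filter, Finset.mem_filter, mem_lv, mem_lv, FD_od]
  constructor
  · rintro ⟨h3, h4⟩
    exact ⟨by omega, h4⟩
  · rintro ⟨h3, h4⟩
    exact ⟨by omega, h4⟩

lemma mem_AU_od (H : Gr P r) {i : ℕ} (hi : i ≤ r) (e : P → ℕ) (x : P) :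
    toDual x ∈ AU (r - i) (eo e) ↔ x ∈ AL i e := by
  classical
  have h1 := lev_od H x
  have h2 := H.hr x
  unfold AL AU
  rw [Finset.mem_filter, Finset.mem_filter, mem_lv, mem_lv, FU_od]
  constructor
  · rintro ⟨h3, h4⟩
    exact ⟨by omega, h4⟩
  · rintro ⟨h3, h4⟩
    exact ⟨by omega, h4⟩

end Pool.Agent.GaussPoset.Win
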