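import Pool.Agent.W_448win_h16.Defs

/-! Energy two: splitting the sum. -/

namespace Pool.Agent.GaussPoset.Win

set_option linter.unusedSectionVars false

open Finset

universe u

variable {P : Type u} [Fintype P] [PartialOrder P] [DecidableEq P] {r : ℕ}

/-- a function of total one supported on `M` is some `sg a` -/
lemma EtA_one (M : Finset P) (e : P → ℕ) (he : e ∈ M.piAntidiag 1) : ∃ a ∈ M, e = sg a := by
  rw [mem_piAntidiag] at he
  obtain ⟨hs, hM⟩ := he
  have hne : ∃ a ∈ M, e a ≠ 0 := by
    by_contra hcon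
    push Not at hcon
    have : M.sum e = 0 := sum_eq_zero hcon
    omega
  obtain ⟨a, ha, ha0⟩ := hne
  have h1 : (M.erase a).sum e + e a = M.sum e := sum_erase_add M e ha
  have h2 : e a = 1 ∧ (M.erase a).sum e = 0 := by
    have : 0 < e a := Nat.pos_of_ne_zero ha0
    constructor <;> omega
  refine ⟨a, ha, ?_⟩
  funext x
  unfold sg
  by_cases hx : x = a
  · subst hx; simp [h2.1]
  · rw [Pi.single_eq_of_ne hx]
    by_contra h3
    have h4 := (sum_eq_zero_iff.mp h2.2) x (mem_erase.mpr ⟨hx, hM x h3⟩)
    exact h3 h4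

/-- a function of total two supported on `M` is some `sg a + sg b` -/
lemma EtA_two (M : Finset P) (e : P → ℕ) (he : e ∈ M.piAntidiag 2) :
    ∃ a ∈ M, ∃ b ∈ M, e = sg a + sg b := by
  have he' := he
  rw [mem_piAntidiag] at he
  obtain ⟨hs, hM⟩ := he
  have hne : ∃ a ∈ M, e a ≠ 0 := by
    by_contra hcon
    push Not at hcon
    have : M.sum e = 0 := sum_eq_zero hcon
    omega
  obtain ⟨a, ha, ha0⟩ := hne
  have hle : ∀ x, sg a x ≤ e x := by
    intro x
    unfold sg
    by_cases hx : x = a
    · subst hx; simp; omega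
    · rw [Pi.single_eq_of_ne hx]; exact Nat.zero_le _
  have hdec : e = sg a + (fun x => e x - sg a x) := by
    funext x
    have := hle x
    simp only [Pi.add_apply]
    omega
  have hsg : M.sum (sg a) = 1 := by
    unfold sg
    rw [sum_pi_single']
    simp [ha]
  have h1 : (fun x => e x - sg a x) ∈ M.piAntidiag 1 := by
    rw [mem_piAntidiag]
    constructor
    · have h3 : M.sum e = M.sum (sg a) + M.sum (fun x => e x - sg a x) := by
        conv_lhs => rw [hdec]
        rw [← sum_add_distrib]
        rfl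
      omega
    · intro x hx
      apply hM
      intro h0
      apply hx
      simp [h0]
  obtain ⟨b, hb, hb'⟩ := EtA_one M _ h1
  refine ⟨a, ha, b, hb, ?_⟩
  rw [hdec, hb']

lemma EtA_sg_apply (a x : P) : sg a x = if x = a then 1 else 0 := by
  unfold sg
  by_cases hx : x = a
  · subst hx; simp
  · rw [Pi.single_eq_of_ne hx, if_neg hx]

/-- the pairs with a given sum -/
lemma EtA_pair (a b c d : P) :
    sg c + sg d = (sg a + sg b : P → ℕ) ↔ (c = a ∧ d = b) ∨ (c = b ∧ d = a) := by
  constructor
  · intro h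
    have h1 := congrFun h a
    have h2 := congrFun h b
    have h3 := congrFun h c
    have h4 := congrFun h d
    simp only [Pi.add_apply, EtA_sg_apply] at h1 h2 h3 h4
    by_cases hca : c = a
    · subst hca
      by_cases hdb : d = b
      · exact Or.inl ⟨rfl, hdb⟩
      · exfalso
        simp [hdb] at h4
    · by_cases hcb : c = b
      · subst hcb
        by_cases hda : d = a
        · exact Or.inr ⟨rfl, hda⟩
        · exfalso
          have : ¬ a = d := fun h => hda h.symm
          have : ¬ a = c := fun h => hca h.symm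
          simp [*] at h1
      · exfalso
        simp [hca, hcb] at h3
  · rintro (⟨rfl, rfl⟩ | ⟨rfl, rfl⟩)
    · rfl
    · exact add_comm _ _

/-- Every `e` of total two supported on `M` is `sg a + sg b`: for `e = sg a + sg b` with `a ≠ b` there are
two ordered pairs, for `e = sg a + sg a` one pair and one term of the second sum. Group the pairs and
the single elements by the value (`Finset.sum_fiberwise_of_maps_to` or
`Finset.sum_comp`): each `e` of the left side is hit exactly twice. -/
theorem sum_two {R : Type*} [CommRing R] (M : Finset P) (f : (P → ℕ) → R) :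
    2 * ∑ e ∈ M.piAntidiag 2, f e =
      ∑ a ∈ M, ∑ b ∈ M, f (sg a + sg b) + ∑ a ∈ M, f (sg a + sg a) := by
  classical
  have hmap : ∀ p ∈ M ×ˢ M, (sg p.1 + sg p.2 : P → ℕ) ∈ M.piAntidiag 2 := by
    intro p hp
    rw [mem_product] at hp
    rw [mem_piAntidiag]
    constructor
    · have : M.sum (sg p.1 + sg p.2) = M.sum (sg p.1) + M.sum (sg p.2) := by
        rw [← sum_add_distrib]; rfl
      rw [this]
      have h1 : ∀ a ∈ M, M.sum (sg a) = 1 := by
        intro a ha
        unfold sg
        rw [sum_pi_single']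
        simp [ha]
      rw [h1 _ hp.1, h1 _ hp.2]
    · intro x hx
      simp only [Pi.add_apply, EtA_sg_apply] at hx
      by_cases h1 : x = p.1
      · rw [h1]; exact hp.1
      · by_cases h2 : x = p.2
        · rw [h2]; exact hp.2
        · simp [h1, h2] at hx
  have hmap2 : ∀ a ∈ M, (sg a + sg a : P → ℕ) ∈ M.piAntidiag 2 := by
    intro a ha
    exact hmap (a, a) (mem_product.mpr ⟨ha, ha⟩)
  rw [← sum_product' M M (fun a b => f (sg a + sg b)),
    ← sum_fiberwise_of_maps_to hmap (fun p => f (sg p.1 + sg p.2)),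
    ← sum_fiberwise_of_maps_to hmap2 (fun a => f (sg a + sg a)), ← sum_add_distrib, mul_sum]
  apply sum_congr rfl
  intro e he
  obtain ⟨a, ha, b, hb, rfl⟩ := EtA_two M e he
  have h1 : ∑ p ∈ (M ×ˢ M).filter (fun p => (sg p.1 + sg p.2 : P → ℕ) = sg a + sg b),
      f (sg p.1 + sg p.2) = ((M ×ˢ M).filter (fun p => (sg p.1 + sg p.2 : P → ℕ) =
        sg a + sg b)).card * f (sg a + sg b) := by
    rw [← nsmul_eq_mul, ← sum_const]
    apply sum_congr rfl
    intro p hp
    rw [(mem_filter.mp hp).2]
  have h2 : ∑ c ∈ M.filter (fun c => (sg c + sg c : P → ℕ) = sg a + sg b),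
      f (sg c + sg c) = (M.filter (fun c => (sg c + sg c : P → ℕ) =
        sg a + sg b)).card * f (sg a + sg b) := by
    rw [← nsmul_eq_mul, ← sum_const]
    apply sum_congr rfl
    intro p hp
    rw [(mem_filter.mp hp).2]
  rw [h1, h2, ← add_mul]
  congr 1
  by_cases hab : a = b
  · subst hab
    have e1 : (M ×ˢ M).filter (fun p => (sg p.1 + sg p.2 : P → ℕ) = sg a + sg a) = {(a, a)} := by
      ext p
      rw [mem_filter, mem_product, EtA_pair, mem_singleton]
      constructor
      · rintro ⟨_, h | h⟩ <;> exact Prod.ext h.1 h.2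
      · rintro rfl
        exact ⟨⟨ha, ha⟩, Or.inl ⟨rfl, rfl⟩⟩
    have e2 : M.filter (fun c => (sg c + sg c : P → ℕ) = sg a + sg a) = {a} := by
      ext p
      rw [mem_filter, EtA_pair, mem_singleton]
      constructor
      · rintro ⟨_, h | h⟩ <;> exact h.1
      · rintro rfl
        exact ⟨ha, Or.inl ⟨rfl, rfl⟩⟩
    rw [e1, e2, card_singleton, card_singleton]
    norm_num
  · have e1 : (M ×ˢ M).filter (fun p => (sg p.1 + sg p.2 : P → ℕ) = sg a + sg b) =
        {(a, b), (b, a)} := by
      ext p
      rw [mem_filter, mem_product, EtA_pair, mem_insert, mem_singleton]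
      constructor
      · rintro ⟨_, h | h⟩
        · exact Or.inl (Prod.ext h.1 h.2)
        · exact Or.inr (Prod.ext h.1 h.2)
      · rintro (rfl | rfl)
        · exact ⟨⟨ha, hb⟩, Or.inl ⟨rfl, rfl⟩⟩
        · exact ⟨⟨hb, ha⟩, Or.inr ⟨rfl, rfl⟩⟩
    have e2 : M.filter (fun c => (sg c + sg c : P → ℕ) = sg a + sg b) = ∅ := by
      apply filter_eq_empty_iff.mpr
      intro c _ h
      rw [EtA_pair] at h
      rcases h with ⟨h, h'⟩ | ⟨h, h'⟩
      · exact hab (h.symm.trans h')
      · exact hab (h'.symm.trans h)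
    rw [e1, e2, card_pair, card_empty]
    · norm_num
    · intro h
      exact hab (Prod.ext_iff.mp h).1

end Pool.Agent.GaussPoset.Win
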