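import Pool.Agent.W_448win_h16.ExpD
import Pool.Agent.W_448win_h16.LowB

/-! Energy two: the far part. -/

namespace Pool.Agent.GaussPoset.Win

set_option linter.unusedSectionVars false

open Finset

universe u

variable {P : Type u} [Fintype P] [PartialOrder P] [DecidableEq P] {r : ℕ}

lemma etb_two {e : P → ℕ} (hn : ∑ x, e x = 2) {a b : P} (hab : a ≠ b) (ha : 0 < e a)
    (hb : 0 < e b) : ∀ x, e x = if x = a ∨ x = b then 1 else 0 := by
  have h1 : e a + e b ≤ 2 := by
    rw [← hn, ← Finset.sum_pair hab]
    exact Finset.sum_le_sum_of_subset (Finset.subset_univ _)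
  intro x
  by_cases hx : x = a ∨ x = b
  · rw [if_pos hx]
    rcases hx with rfl | rfl <;> omega
  · rw [if_neg hx]
    push Not at hx
    have h2 : e x + (e a + e b) ≤ 2 := by
      rw [← hn, ← Finset.sum_pair hab, ← Finset.sum_insert]
      · exact Finset.sum_le_sum_of_subset (Finset.subset_univ _)
      · rw [Finset.mem_insert, Finset.mem_singleton]
        exact fun h => h.elim hx.1 hx.2
    omega

lemma etb_not_adm {i : ℕ} {e : P → ℕ} (h : ¬ (AdmL i e ∧ AdmU i e)) : trm i e = 0 := by
  unfold trm cw
  rw [if_neg h, zero_mul]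
  split_ifs <;> rfl

/-- Let the energy be two and `0 < e z` for some `z` of level at least `i + 2`. If the configuration is admissible
then all upper covers of `z` have positive label (`pos_up`), there is at least one (`uc_nonempty`), so
there is exactly one, `w`, and `e = sg z + sg w = cl z`. If `lev z ≥ i + 3` then an upper cover of `w` also has
positive label (`pos_up` for `w`), energy at least three. If the configuration is not admissible then
`trm i e = 0` (`cw = 0`). -/
theorem far_low (H : Gr P r) {i : ℕ} {e : P → ℕ} (hn : ∑ x, e x = 2) {z : P}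
    (hz : i + 2 ≤ lev z) (he : 0 < e z) :
    trm i e = 0 ∨ (lev z = i + 2 ∧ (uc z).card = 1 ∧ e = cl z) := by
  classical
  by_cases hadm : AdmL i e ∧ AdmU i e
  swap
  · exact Or.inl (etb_not_adm hadm)
  right
  obtain ⟨hA, _⟩ := hadm
  obtain ⟨w, hw⟩ := uc_nonempty H (x := z) (by omega)
  have hlw := lev_uc H hw
  have hew := pos_up H hA hz he (mem_uc.1 hw)
  have hzw : z ≠ w := by
    rintro rfl
    omega
  have hval := etb_two hn hzw he hew
  have huc : uc z = {w} := by
    apply Finset.eq_singleton_iff_unique_mem.2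
    refine ⟨hw, fun y hy => ?_⟩
    have h1 := pos_up H hA hz he (mem_uc.1 hy)
    have h2 := lev_uc H hy
    by_contra hcon
    rw [hval y, if_neg] at h1
    · omega
    · rintro (rfl | h)
      · omega
      · exact hcon h
  refine ⟨?_, by rw [huc, Finset.card_singleton], ?_⟩
  · by_contra hcon
    obtain ⟨t, ht⟩ := uc_nonempty H (x := w) (by omega)
    have h1 := pos_up H hA (by omega : i + 2 ≤ lev w) hew (mem_uc.1 ht)
    have h2 := lev_uc H ht
    rw [hval t, if_neg] at h1
    · omega
    · rintro (rfl | rfl) <;> omega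
  · funext x
    rw [hval x]
    unfold cl
    rw [huc]
    simp only [Finset.mem_singleton]

/-- mirror image of `far_low` -/
theorem far_upp (H : Gr P r) {i : ℕ} (hi : i ≤ r) {e : P → ℕ} (hn : ∑ x, e x = 2) {x : P}
    (hx : lev x + 2 ≤ i) (he : 0 < e x) :
    trm i e = 0 ∨ (lev x + 2 = i ∧ (dc x).card = 1 ∧ e = cu x) := by
  classical
  by_cases hadm : AdmL i e ∧ AdmU i e
  swap
  · exact Or.inl (etb_not_adm hadm)
  right
  obtain ⟨_, hB⟩ := hadm
  obtain ⟨w, hw⟩ := dc_nonempty H (x := x) (by omega)
  have hlw := lev_dc H hw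
  have hew := pos_dn H hi hB hx he (mem_dc.1 hw)
  have hzw : x ≠ w := by
    rintro rfl
    omega
  have hval := etb_two hn hzw he hew
  have huc : dc x = {w} := by
    apply Finset.eq_singleton_iff_unique_mem.2
    refine ⟨hw, fun y hy => ?_⟩
    have h1 := pos_dn H hi hB hx he (mem_dc.1 hy)
    have h2 := lev_dc H hy
    by_contra hcon
    rw [hval y, if_neg] at h1
    · omega
    · rintro (rfl | h)
      · omega
      · exact hcon h
  refine ⟨?_, by rw [huc, Finset.card_singleton], ?_⟩
  · by_contra hcon
    obtain ⟨t, ht⟩ := dc_nonempty H (x := w) (by omega)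
    have h1 := pos_dn H hi hB (by omega : lev w + 2 ≤ i) hew (mem_dc.1 ht)
    have h2 := lev_dc H ht
    rw [hval t, if_neg] at h1
    · omega
    · rintro (rfl | rfl) <;> omega
  · funext y
    rw [hval y]
    unfold cu
    rw [huc]
    simp only [Finset.mem_singleton]

lemma etb_sum_cl (z : P) : ∑ x, cl z x = (uc z).card + 1 := by
  classical
  have h1 : z ∉ uc z := fun h => (mem_uc.1 h).1.ne rfl
  have h2 : ∀ x, cl z x = if x ∈ insert z (uc z) then 1 else 0 := by
    intro x
    unfold cl
    simp only [Finset.mem_insert]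
  rw [Finset.sum_congr rfl (fun x _ => h2 x), Finset.sum_boole, Finset.filter_mem_eq_inter,
    Finset.univ_inter, Finset.card_insert_of_notMem h1]
  simp

lemma etb_sum_cu (z : P) : ∑ x, cu z x = (dc z).card + 1 := by
  classical
  have h1 : z ∉ dc z := fun h => (mem_dc.1 h).1.ne rfl
  have h2 : ∀ x, cu z x = if x ∈ insert z (dc z) then 1 else 0 := by
    intro x
    unfold cu
    simp only [Finset.mem_insert]
  rw [Finset.sum_congr rfl (fun x _ => h2 x), Finset.sum_boole, Finset.filter_mem_eq_inter,
    Finset.univ_inter, Finset.card_insert_of_notMem h1]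
  simp

lemma etb_cl_self (z : P) : cl z z = 1 := by
  unfold cl
  rw [if_pos (Or.inl rfl)]

lemma etb_cl_lev (H : Gr P r) {i : ℕ} {z x : P} (hz : lev z = i + 2) (h : cl z x ≠ 0) :
    x = z ∨ lev x = i + 1 := by
  by_contra hcon
  push Not at hcon
  apply h
  unfold cl
  rw [if_neg]
  rintro (h1 | h1)
  · exact hcon.1 h1
  · have := lev_uc H h1
    exact hcon.2 (by omega)

lemma etb_cu_lev (H : Gr P r) {i : ℕ} {z x : P} (hz : lev z + 2 = i) (h : cu z x ≠ 0) :
    x = z ∨ lev x + 1 = i := by
  by_contra hcon
  push Not at hcon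
  apply h
  unfold cu
  rw [if_neg]
  rintro (h1 | h1)
  · exact hcon.1 h1
  · have := lev_dc H h1
    exact hcon.2 (by omega)

open Classical in
/-- The sum over all configurations of energy two: those supported on near elements and sites, plus the `cl z`
with one upper cover, plus the `cu x` with one lower cover. (`univ.piAntidiag 2` is the disjoint union of the
configurations supported on `near ∪ sites` and those with a positive far label; for the latter `far_low`,
`far_upp`; `cl z`, `cu x` are different configurations: their labels at levels `i + 2`, `i - 2`.) -/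
theorem sum_far (H : Gr P r) {i : ℕ} (hi : 1 ≤ i) (hi2 : i + 1 ≤ r) :
    ∑ e ∈ (univ : Finset P).piAntidiag 2, trm i e =
      ∑ e ∈ (near P i ∪ lv P i).piAntidiag 2, trm i e +
      ∑ z ∈ univ.filter (fun z : P => lev z = i + 2 ∧ (uc z).card = 1), trm i (cl z) +
      ∑ x ∈ univ.filter (fun x : P => lev x + 2 = i ∧ (dc x).card = 1), trm i (cu x) := by
  set D : Finset P := univ.filter (fun z : P => lev z = i + 2 ∧ (uc z).card = 1) with hD
  set U : Finset P := univ.filter (fun x : P => lev x + 2 = i ∧ (dc x).card = 1) with hU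
  have hmD : ∀ z, z ∈ D ↔ lev z = i + 2 ∧ (uc z).card = 1 := fun z => by rw [hD]; simp
  have hmU : ∀ z, z ∈ U ↔ lev z + 2 = i ∧ (dc z).card = 1 := fun z => by rw [hU]; simp
  have hinjD : Set.InjOn (cl : P → P → ℕ) (D : Set P) := by
    intro z hz z' hz' h
    have h1 := (hmD z).1 (Finset.mem_coe.1 hz)
    have h2 := (hmD z').1 (Finset.mem_coe.1 hz')
    have h3 : cl z' z ≠ 0 := by
      rw [← h, etb_cl_self]
      omega
    rcases etb_cl_lev H h2.1 h3 with h4 | h4
    · exact h4
    · omega
  have hcuself : ∀ x : P, cu x x = 1 := ExpD_cu_x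
  have hinjU : Set.InjOn (cu : P → P → ℕ) (U : Set P) := by
    intro z hz z' hz' h
    have h1 := (hmU z).1 (Finset.mem_coe.1 hz)
    have h2 := (hmU z').1 (Finset.mem_coe.1 hz')
    have h3 : cu z' z ≠ 0 := by
      rw [← h, hcuself]
      omega
    rcases etb_cu_lev H h2.1 h3 with h4 | h4
    · exact h4
    · omega
  rw [← Finset.sum_image (f := trm i) hinjD, ← Finset.sum_image (f := trm i) hinjU]
  have hd1 : Disjoint ((near P i ∪ lv P i).piAntidiag 2) (D.image cl) := by
    rw [Finset.disjoint_left]
    intro e he he2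
    obtain ⟨z, hz, rfl⟩ := Finset.mem_image.1 he2
    rw [Finset.mem_piAntidiag] at he
    have h1 := he.2 z (by rw [etb_cl_self]; omega)
    have h2 := ((hmD z).1 hz).1
    rw [Finset.mem_union, mem_near, mem_lv] at h1
    omega
  have hd2 : Disjoint ((near P i ∪ lv P i).piAntidiag 2 ∪ D.image cl) (U.image cu) := by
    rw [Finset.disjoint_left]
    intro e he he2
    obtain ⟨x, hx, rfl⟩ := Finset.mem_image.1 he2
    have h2 := ((hmU x).1 hx).1
    rcases Finset.mem_union.1 he with he | he
    · rw [Finset.mem_piAntidiag] at he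
      have h1 := he.2 x (by rw [hcuself]; omega)
      rw [Finset.mem_union, mem_near, mem_lv] at h1
      omega
    · obtain ⟨z, hz, hzx⟩ := Finset.mem_image.1 he
      have h3 := ((hmD z).1 hz).1
      have h4 : cu x z ≠ 0 := by
        rw [← hzx, etb_cl_self]
        omega
      rcases etb_cu_lev H h2 h4 with h5 | h5
      · rw [h5] at h3
        omega
      · omega
  rw [← Finset.sum_union hd1, ← Finset.sum_union hd2]
  symm
  apply Finset.sum_subset
  · intro e he
    rw [Finset.mem_piAntidiag]
    refine ⟨?_, fun x _ => Finset.mem_univ x⟩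
    rcases Finset.mem_union.1 he with he | he
    · rcases Finset.mem_union.1 he with he | he
      · rw [Finset.mem_piAntidiag] at he
        rw [← he.1]
        symm
        apply Finset.sum_subset (Finset.subset_univ _)
        intro x _ hx
        by_contra hcon
        exact hx (he.2 x hcon)
      · obtain ⟨z, hz, rfl⟩ := Finset.mem_image.1 he
        rw [etb_sum_cl, ((hmD z).1 hz).2]
    · obtain ⟨x, hx, rfl⟩ := Finset.mem_image.1 he
      rw [etb_sum_cu, ((hmU x).1 hx).2]
  · intro e he hne
    rw [Finset.mem_union, Finset.mem_union, not_or, not_or] at hne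
    obtain ⟨⟨hne1, hne2⟩, hne3⟩ := hne
    rw [Finset.mem_piAntidiag] at he
    have hex : ∃ x, e x ≠ 0 ∧ x ∉ near P i ∪ lv P i := by
      by_contra hcon
      push Not at hcon
      apply hne1
      rw [Finset.mem_piAntidiag]
      refine ⟨?_, hcon⟩
      rw [← he.1]
      apply Finset.sum_subset (Finset.subset_univ _)
      intro x _ hx
      by_contra h
      exact hx (hcon x h)
    obtain ⟨x, hx0, hxn⟩ := hex
    rw [Finset.mem_union, mem_near, mem_lv] at hxn
    rcases Nat.lt_or_ge (lev x) i with hl | hl
    · rcases far_upp H (by omega : i ≤ r) he.1 (by omega : lev x + 2 ≤ i)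
        (Nat.pos_of_ne_zero hx0) with h | ⟨h1, h2, h3⟩
      · exact h
      · exfalso
        apply hne3
        rw [h3]
        exact Finset.mem_image_of_mem _ ((hmU x).2 ⟨h1, h2⟩)
    · rcases far_low H he.1 (by omega : i + 2 ≤ lev x) (Nat.pos_of_ne_zero hx0) with
        h | ⟨h1, h2, h3⟩
      · exact h
      · exfalso
        apply hne2
        rw [h3]
        exact Finset.mem_image_of_mem _ ((hmD x).2 ⟨h1, h2⟩)

end Pool.Agent.GaussPoset.Win
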