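import Pool.Agent.W_448win_h16.ExpA
import Pool.Agent.W_448win_h16.NormE

/-! Energy two: the terms of near elements and sites. -/

namespace Pool.Agent.GaussPoset.Win

set_option linter.unusedSectionVars false

open Finset

universe u

variable {P : Type u} [Fintype P] [PartialOrder P] [DecidableEq P] {r : ℕ}

lemma EtC_sg (a x : P) : sg a x = if x = a then 1 else 0 := by
  unfold sg
  rw [Pi.single_apply]

lemma EtC_sg2 (a b x : P) :
    (sg a + sg b : P → ℕ) x = (if x = a then 1 else 0) + (if x = b then 1 else 0) := by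
  rw [Pi.add_apply, EtC_sg, EtC_sg]

lemma EtC_uc_sub (H : Gr P r) {i : ℕ} {w : P} (hw : lev w = i + 1) : uc w ⊆ lv P i := by
  intro v hv
  have := lev_uc H hv
  rw [mem_lv]
  omega

lemma EtC_dc_sub (H : Gr P r) {i : ℕ} {u : P} (hu : lev u + 1 = i) : dc u ⊆ lv P i := by
  intro v hv
  have := lev_dc H hv
  rw [mem_lv]
  omega

/-- a configuration supported on the sites and on a set of near elements -/
lemma EtC_peel (H : Gr P r) {i : ℕ} (hi : i ≤ r) {R : Finset P} (hR : R ⊆ near P i)
    {e : P → ℕ} (h : ∀ z, lev z ≠ i → z ∉ R → e z = 0) (S : Finset P) :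
    Fe i e S = ∏ x ∈ R, wt i e x (e x) S := by
  have hfar : ∀ z, z ∉ near P i → lev z ≠ i → e z = 0 := fun z hz hz2 =>
    h z hz2 fun hzR => hz (hR hzR)
  rw [peel H hi hR ?_ S, Fe_sites H hi ?_ S, one_mul]
  · intro z hz
    unfold er
    split_ifs with h1
    · rfl
    · exact h z hz h1
  · intro x _ hxT
    rw [mem_Tch] at hxT
    rcases hxT with ⟨h1, z, h2, h3⟩ | ⟨h1, z, h2, h3⟩
    · have h4 := (H.covBy_iff.1 h2).2
      rw [hfar z (by rw [mem_near]; omega) (by omega)] at h3
      exact absurd h3 (lt_irrefl _)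
    · have h4 := (H.covBy_iff.1 h2).2
      rw [hfar z (by rw [mem_near]; omega) (by omega)] at h3
      exact absurd h3 (lt_irrefl _)

lemma EtC_chi_mul (B C B' C' S : Finset P) :
    chi B C S * chi B' C' S = chi (B ∪ B') (C ∪ C') S := by
  unfold chi
  by_cases h1 : B ⊆ S ∧ Disjoint C S
  · by_cases h2 : B' ⊆ S ∧ Disjoint C' S
    · rw [if_pos h1, if_pos h2, if_pos, mul_one]
      exact ⟨union_subset h1.1 h2.1, disjoint_union_left.2 ⟨h1.2, h2.2⟩⟩
    · rw [if_neg h2, mul_zero, if_neg]
      rintro ⟨h3, h4⟩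
      exact h2 ⟨(subset_union_right).trans h3, (disjoint_union_left.1 h4).2⟩
  · rw [if_neg h1, zero_mul, if_neg]
    rintro ⟨h3, h4⟩
    exact h1 ⟨(subset_union_left).trans h3, (disjoint_union_left.1 h4).1⟩

/-- the term of a configuration whose function is a multiple of a `chi` -/
lemma EtC_trm {i : ℕ} {e : P → ℕ} {c : A} {B C : Finset P} (hB : B ⊆ lv P i)
    (hC : C ⊆ lv P i) (hf : ∀ S, Fe i e S = c * chi B C S) :
    trm i e = c * if Disjoint B C then xx ^ B.card * dd ^ ((lv P i).card - B.card - C.card)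
      else 0 := by
  rw [← II_chi hB hC, ← II_Fe]
  unfold II
  rw [Finset.mul_sum]
  refine Finset.sum_congr rfl fun S _ => ?_
  rw [hf S]
  ring

/-- lower near element, no labels on its sites -/
lemma EtC_wL {e : P → ℕ} {w : P} {a : ℕ} (h : ∀ v ∈ uc w, e v < a) (S : Finset P) :
    wtL e w a S = dd * chi (uc w) ∅ S := by
  rw [ExpA_wtL, if_pos h, Finset.filter_true_of_mem h]

/-- upper near element, no labels on its sites -/
lemma EtC_wU {e : P → ℕ} {u : P} {a : ℕ} (h : ∀ v ∈ dc u, e v < a) (S : Finset P) :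
    wtU e u a S = xi * dd * chi ∅ (dc u) S := by
  rw [ExpA_wtU, if_pos h, Finset.filter_true_of_mem h]

/-- `Fe_sites` -/
theorem trm_ss (H : Gr P r) {i : ℕ} (hi : i ≤ r) {v v' : P} (hv : lev v = i)
    (hv' : lev v' = i) : trm i (sg v + sg v') = dd ^ (lv P i).card := by
  have hf : ∀ S, Fe i (sg v + sg v') S = 1 * chi ∅ ∅ S := by
    intro S
    rw [Fe_sites H hi]
    · unfold chi
      rw [if_pos ⟨empty_subset _, disjoint_empty_left _⟩, mul_one]
    · intro z hz
      rw [EtC_sg2, if_neg (by rintro rfl; exact hz hv), if_neg (by rintro rfl; exact hz hv')]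
  rw [EtC_trm (empty_subset _) (empty_subset _) hf, if_pos (disjoint_empty_left _)]
  simp

/-- Two different lower near elements: `fact` twice, starting with `Fe_sites` for `e = 0`: the weights are
`dd * [uc w ⊆ S]`, so the function is `dd ^ 2 * chi (uc w ∪ uc w') ∅`; `II_Fe`, `II_chi`. -/
theorem trm_LL (H : Gr P r) {i : ℕ} (hi : 1 ≤ i) (hi2 : i + 1 ≤ r) {w w' : P}
    (hw : lev w = i + 1) (hw' : lev w' = i + 1) (hne : w ≠ w') :
    trm i (sg w + sg w') = xx ^ (uc w ∪ uc w').card *
      dd ^ (2 + ((lv P i).card - (uc w ∪ uc w').card)) := by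
  have hs : ∀ v, lev v = i → (sg w + sg w' : P → ℕ) v = 0 := by
    intro v hv
    rw [EtC_sg2, if_neg (by rintro rfl; omega), if_neg (by rintro rfl; omega)]
  have h1 : (sg w + sg w' : P → ℕ) w = 1 := by
    rw [EtC_sg2, if_pos rfl, if_neg hne]
  have h2 : (sg w + sg w' : P → ℕ) w' = 1 := by
    rw [EtC_sg2, if_neg hne.symm, if_pos rfl]
  have hf : ∀ S, Fe i (sg w + sg w') S = (dd * dd) * chi (uc w ∪ uc w') ∅ S := by
    intro S
    rw [EtC_peel H (by omega) (R := {w, w'}), Finset.prod_pair hne, h1, h2, ExpA_wt_low hw,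
      ExpA_wt_low hw', EtC_wL, EtC_wL]
    · have h3 := EtC_chi_mul (uc w) ∅ (uc w') ∅ S
      rw [union_empty] at h3
      rw [← h3]
      ring
    · intro v hv
      rw [hs v (mem_lv.1 (EtC_uc_sub H hw' hv))]
      exact one_pos
    · intro v hv
      rw [hs v (mem_lv.1 (EtC_uc_sub H hw hv))]
      exact one_pos
    · intro x hx
      rw [mem_insert, mem_singleton] at hx
      rw [mem_near]
      rcases hx with rfl | rfl
      · exact Or.inl hw
      · exact Or.inl hw'
    · intro z _ hz
      rw [mem_insert, mem_singleton] at hz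
      push Not at hz
      rw [EtC_sg2, if_neg hz.1, if_neg hz.2]
  rw [EtC_trm (union_subset (EtC_uc_sub H hw) (EtC_uc_sub H hw')) (empty_subset _) hf,
    if_pos (disjoint_empty_right _), card_empty, Nat.sub_zero, pow_add]
  ring

/-- label two on one lower near element: weight `dd * [uc w ⊆ S]` -/
theorem trm_L2 (H : Gr P r) {i : ℕ} (hi : 1 ≤ i) (hi2 : i + 1 ≤ r) {w : P}
    (hw : lev w = i + 1) :
    trm i (sg w + sg w) = xx ^ (uc w).card * dd ^ (1 + ((lv P i).card - (uc w).card)) := by
  have hs : ∀ v, lev v = i → (sg w + sg w : P → ℕ) v = 0 := by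
    intro v hv
    rw [EtC_sg2, if_neg (by rintro rfl; omega)]
  have h1 : (sg w + sg w : P → ℕ) w = 2 := by
    rw [EtC_sg2, if_pos rfl]
  have hf : ∀ S, Fe i (sg w + sg w) S = dd * chi (uc w) ∅ S := by
    intro S
    rw [EtC_peel H (by omega) (R := {w}), Finset.prod_singleton, h1, ExpA_wt_low hw, EtC_wL]
    · intro v hv
      rw [hs v (mem_lv.1 (EtC_uc_sub H hw hv))]
      exact two_pos
    · intro x hx
      rw [mem_singleton] at hx
      rw [mem_near, hx]
      exact Or.inl hw
    · intro z _ hz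
      rw [mem_singleton] at hz
      rw [EtC_sg2, if_neg hz]
  rw [EtC_trm (EtC_uc_sub H hw) (empty_subset _) hf,
    if_pos (disjoint_empty_right _), card_empty, Nat.sub_zero, pow_add]
  ring

/-- two different upper near elements: `(xi * dd) ^ 2 * chi ∅ (dc u ∪ dc u')` -/
theorem trm_UU (H : Gr P r) {i : ℕ} (hi : 1 ≤ i) (hi2 : i + 1 ≤ r) {u u' : P}
    (hu : lev u + 1 = i) (hu' : lev u' + 1 = i) (hne : u ≠ u') :
    trm i (sg u + sg u') = xi ^ 2 * dd ^ (2 + ((lv P i).card - (dc u ∪ dc u').card)) := by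
  have hs : ∀ v, lev v = i → (sg u + sg u' : P → ℕ) v = 0 := by
    intro v hv
    rw [EtC_sg2, if_neg (by rintro rfl; omega), if_neg (by rintro rfl; omega)]
  have h1 : (sg u + sg u' : P → ℕ) u = 1 := by
    rw [EtC_sg2, if_pos rfl, if_neg hne]
  have h2 : (sg u + sg u' : P → ℕ) u' = 1 := by
    rw [EtC_sg2, if_neg hne.symm, if_pos rfl]
  have hf : ∀ S, Fe i (sg u + sg u') S =
      ((xi * dd) * (xi * dd)) * chi ∅ (dc u ∪ dc u') S := by
    intro S
    rw [EtC_peel H (by omega) (R := {u, u'}), Finset.prod_pair hne, h1, h2, ExpA_wt_upp hu,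
      ExpA_wt_upp hu', EtC_wU, EtC_wU]
    · have h3 := EtC_chi_mul ∅ (dc u) ∅ (dc u') S
      rw [union_empty] at h3
      rw [← h3]
      ring
    · intro v hv
      rw [hs v (mem_lv.1 (EtC_dc_sub H hu' hv))]
      exact one_pos
    · intro v hv
      rw [hs v (mem_lv.1 (EtC_dc_sub H hu hv))]
      exact one_pos
    · intro x hx
      rw [mem_insert, mem_singleton] at hx
      rw [mem_near]
      rcases hx with rfl | rfl
      · exact Or.inr hu
      · exact Or.inr hu'
    · intro z _ hz
      rw [mem_insert, mem_singleton] at hz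
      push Not at hz
      rw [EtC_sg2, if_neg hz.1, if_neg hz.2]
  rw [EtC_trm (empty_subset _) (union_subset (EtC_dc_sub H hu) (EtC_dc_sub H hu')) hf,
    if_pos (disjoint_empty_left _), card_empty, Nat.sub_zero, pow_add]
  ring

/-- label two on one upper near element -/
theorem trm_U2 (H : Gr P r) {i : ℕ} (hi : 1 ≤ i) (hi2 : i + 1 ≤ r) {u : P}
    (hu : lev u + 1 = i) :
    trm i (sg u + sg u) = xi * dd ^ (1 + ((lv P i).card - (dc u).card)) := by
  have hs : ∀ v, lev v = i → (sg u + sg u : P → ℕ) v = 0 := by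
    intro v hv
    rw [EtC_sg2, if_neg (by rintro rfl; omega)]
  have h1 : (sg u + sg u : P → ℕ) u = 2 := by
    rw [EtC_sg2, if_pos rfl]
  have hf : ∀ S, Fe i (sg u + sg u) S = (xi * dd) * chi ∅ (dc u) S := by
    intro S
    rw [EtC_peel H (by omega) (R := {u}), Finset.prod_singleton, h1, ExpA_wt_upp hu, EtC_wU]
    · intro v hv
      rw [hs v (mem_lv.1 (EtC_dc_sub H hu hv))]
      exact two_pos
    · intro x hx
      rw [mem_singleton] at hx
      rw [mem_near, hx]
      exact Or.inr hu
    · intro z _ hz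
      rw [mem_singleton] at hz
      rw [EtC_sg2, if_neg hz]
  rw [EtC_trm (empty_subset _) (EtC_dc_sub H hu) hf,
    if_pos (disjoint_empty_left _), card_empty, Nat.sub_zero, pow_add]
  ring

/-- one lower and one upper near element: `dd * (xi * dd) * chi (uc w) (dc u)` -/
theorem trm_LU (H : Gr P r) {i : ℕ} (hi : 1 ≤ i) (hi2 : i + 1 ≤ r) {w u : P}
    (hw : lev w = i + 1) (hu : lev u + 1 = i) :
    trm i (sg w + sg u) = if Disjoint (uc w) (dc u) then
      xx ^ (uc w).card * xi * dd ^ (2 + ((lv P i).card - (uc w).card - (dc u).card)) else 0 := by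
  have hne : w ≠ u := by
    rintro rfl
    omega
  have hs : ∀ v, lev v = i → (sg w + sg u : P → ℕ) v = 0 := by
    intro v hv
    rw [EtC_sg2, if_neg (by rintro rfl; omega), if_neg (by rintro rfl; omega)]
  have h1 : (sg w + sg u : P → ℕ) w = 1 := by
    rw [EtC_sg2, if_pos rfl, if_neg hne]
  have h2 : (sg w + sg u : P → ℕ) u = 1 := by
    rw [EtC_sg2, if_neg hne.symm, if_pos rfl]
  have hf : ∀ S, Fe i (sg w + sg u) S = (dd * (xi * dd)) * chi (uc w) (dc u) S := by
    intro S
    rw [EtC_peel H (by omega) (R := {w, u}), Finset.prod_pair hne, h1, h2, ExpA_wt_low hw,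
      ExpA_wt_upp hu, EtC_wL, EtC_wU]
    · have h3 := EtC_chi_mul (uc w) ∅ ∅ (dc u) S
      rw [union_empty, empty_union] at h3
      rw [← h3]
      ring
    · intro v hv
      rw [hs v (mem_lv.1 (EtC_dc_sub H hu hv))]
      exact one_pos
    · intro v hv
      rw [hs v (mem_lv.1 (EtC_uc_sub H hw hv))]
      exact one_pos
    · intro x hx
      rw [mem_insert, mem_singleton] at hx
      rw [mem_near]
      rcases hx with rfl | rfl
      · exact Or.inl hw
      · exact Or.inr hu
    · intro z _ hz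
      rw [mem_insert, mem_singleton] at hz
      push Not at hz
      rw [EtC_sg2, if_neg hz.1, if_neg hz.2]
  rw [EtC_trm (EtC_uc_sub H hw) (EtC_dc_sub H hu) hf]
  split_ifs
  · rw [pow_add]
    ring
  · rw [mul_zero]

/-- lower near element and site: `Fe_sites` for `sg v`, then the weight of `w` with label one: `1 * [uc w \ {v} ⊆ S]` if
`v` is above `w`, `dd * [uc w ⊆ S]` otherwise -/
theorem trm_Lv (H : Gr P r) {i : ℕ} (hi : 1 ≤ i) (hi2 : i + 1 ≤ r) {w v : P}
    (hw : lev w = i + 1) (hv : lev v = i) :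
    trm i (sg w + sg v) = if v ∈ uc w then
      xx ^ ((uc w).card - 1) * dd ^ ((lv P i).card - ((uc w).card - 1)) else
      xx ^ (uc w).card * dd ^ (1 + ((lv P i).card - (uc w).card)) := by
  have hne : w ≠ v := by
    rintro rfl
    omega
  have h1 : (sg w + sg v : P → ℕ) w = 1 := by
    rw [EtC_sg2, if_pos rfl, if_neg hne]
  have hsv : (sg w + sg v : P → ℕ) v = 1 := by
    rw [EtC_sg2, if_neg hne.symm, if_pos rfl]
  have hs : ∀ x, lev x = i → x ≠ v → (sg w + sg v : P → ℕ) x = 0 := by
    intro x hx hxv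
    rw [EtC_sg2, if_neg (by rintro rfl; omega), if_neg hxv]
  have hp : ∀ S, Fe i (sg w + sg v) S = wtL (sg w + sg v) w 1 S := by
    intro S
    rw [EtC_peel H (by omega) (R := {w}), Finset.prod_singleton, h1, ExpA_wt_low hw]
    · intro x hx
      rw [mem_singleton] at hx
      rw [mem_near, hx]
      exact Or.inl hw
    · intro z hzi hz
      rw [mem_singleton] at hz
      rw [EtC_sg2, if_neg hz, if_neg (by rintro rfl; exact hzi hv)]
  by_cases hvw : v ∈ uc w
  · rw [if_pos hvw]
    have hfil : (uc w).filter (fun x => (sg w + sg v : P → ℕ) x < 1) = (uc w).erase v := by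
      ext x
      rw [mem_filter, mem_erase]
      constructor
      · rintro ⟨h2, h3⟩
        refine ⟨?_, h2⟩
        rintro rfl
        rw [hsv] at h3
        exact absurd h3 (lt_irrefl _)
      · rintro ⟨h2, h3⟩
        refine ⟨h3, ?_⟩
        rw [hs x (mem_lv.1 (EtC_uc_sub H hw h3)) h2]
        exact one_pos
    have hf : ∀ S, Fe i (sg w + sg v) S = 1 * chi ((uc w).erase v) ∅ S := by
      intro S
      rw [hp S, ExpA_wtL, hfil, if_neg]
      intro h2
      have h3 := h2 v hvw
      rw [hsv] at h3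
      exact absurd h3 (lt_irrefl _)
    rw [EtC_trm ((erase_subset _ _).trans (EtC_uc_sub H hw)) (empty_subset _) hf,
      if_pos (disjoint_empty_right _), card_empty, Nat.sub_zero, card_erase_of_mem hvw, one_mul]
  · rw [if_neg hvw]
    have hf : ∀ S, Fe i (sg w + sg v) S = dd * chi (uc w) ∅ S := by
      intro S
      rw [hp S, EtC_wL]
      intro x hx
      rw [hs x (mem_lv.1 (EtC_uc_sub H hw hx)) (by rintro rfl; exact hvw hx)]
      exact one_pos
    rw [EtC_trm (EtC_uc_sub H hw) (empty_subset _) hf,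
      if_pos (disjoint_empty_right _), card_empty, Nat.sub_zero, pow_add]
    ring

/-- upper near element and site: weight `[dc u \ {v} ∩ S = ∅]` if `v` is below `u`, `xi * dd * [dc u ∩ S = ∅]`
otherwise -/
theorem trm_Uv (H : Gr P r) {i : ℕ} (hi : 1 ≤ i) (hi2 : i + 1 ≤ r) {u v : P}
    (hu : lev u + 1 = i) (hv : lev v = i) :
    trm i (sg u + sg v) = if v ∈ dc u then dd ^ ((lv P i).card - ((dc u).card - 1)) else
      xi * dd ^ (1 + ((lv P i).card - (dc u).card)) := by
  have hne : u ≠ v := by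
    rintro rfl
    omega
  have h1 : (sg u + sg v : P → ℕ) u = 1 := by
    rw [EtC_sg2, if_pos rfl, if_neg hne]
  have hsv : (sg u + sg v : P → ℕ) v = 1 := by
    rw [EtC_sg2, if_neg hne.symm, if_pos rfl]
  have hs : ∀ x, lev x = i → x ≠ v → (sg u + sg v : P → ℕ) x = 0 := by
    intro x hx hxv
    rw [EtC_sg2, if_neg (by rintro rfl; omega), if_neg hxv]
  have hp : ∀ S, Fe i (sg u + sg v) S = wtU (sg u + sg v) u 1 S := by
    intro S
    rw [EtC_peel H (by omega) (R := {u}), Finset.prod_singleton, h1, ExpA_wt_upp hu]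
    · intro x hx
      rw [mem_singleton] at hx
      rw [mem_near, hx]
      exact Or.inr hu
    · intro z hzi hz
      rw [mem_singleton] at hz
      rw [EtC_sg2, if_neg hz, if_neg (by rintro rfl; exact hzi hv)]
  by_cases hvu : v ∈ dc u
  · rw [if_pos hvu]
    have hfil : (dc u).filter (fun x => (sg u + sg v : P → ℕ) x < 1) = (dc u).erase v := by
      ext x
      rw [mem_filter, mem_erase]
      constructor
      · rintro ⟨h2, h3⟩
        refine ⟨?_, h2⟩
        rintro rfl
        rw [hsv] at h3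
        exact absurd h3 (lt_irrefl _)
      · rintro ⟨h2, h3⟩
        refine ⟨h3, ?_⟩
        rw [hs x (mem_lv.1 (EtC_dc_sub H hu h3)) h2]
        exact one_pos
    have hf : ∀ S, Fe i (sg u + sg v) S = 1 * chi ∅ ((dc u).erase v) S := by
      intro S
      rw [hp S, ExpA_wtU, hfil, if_neg]
      intro h2
      have h3 := h2 v hvu
      rw [hsv] at h3
      exact absurd h3 (lt_irrefl _)
    rw [EtC_trm (empty_subset _) ((erase_subset _ _).trans (EtC_dc_sub H hu)) hf,
      if_pos (disjoint_empty_left _), card_empty, Nat.sub_zero, card_erase_of_mem hvu, one_mul,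
      pow_zero, one_mul]
  · rw [if_neg hvu]
    have hf : ∀ S, Fe i (sg u + sg v) S = (xi * dd) * chi ∅ (dc u) S := by
      intro S
      rw [hp S, EtC_wU]
      intro x hx
      rw [hs x (mem_lv.1 (EtC_dc_sub H hu hx)) (by rintro rfl; exact hvu hx)]
      exact one_pos
    rw [EtC_trm (empty_subset _) (EtC_dc_sub H hu) hf,
      if_pos (disjoint_empty_left _), card_empty, Nat.sub_zero, pow_add]
    ring

end Pool.Agent.GaussPoset.Win
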