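import Pool.Agent.W_448win_h16.EtA
import Pool.Agent.W_448win_h16.EtB
import Pool.Agent.W_448win_h16.EtE

/-! Energy two: the two total sums. -/

namespace Pool.Agent.GaussPoset.Win

set_option linter.unusedSectionVars false

open Finset

universe u

variable {P : Type u} [Fintype P] [PartialOrder P] [DecidableEq P] {r : ℕ}

open Classical in
/-- lower near elements -/
noncomputable def LN (P : Type u) [Fintype P] [PartialOrder P] [DecidableEq P] (i : ℕ) :
    Finset P := univ.filter (fun x : P => lev x = i + 1)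

open Classical in
/-- upper near elements -/
noncomputable def UN (P : Type u) [Fintype P] [PartialOrder P] [DecidableEq P] (i : ℕ) :
    Finset P := univ.filter (fun x : P => lev x + 1 = i)

lemma EtF_mem_LN {i : ℕ} {w : P} : w ∈ LN P i ↔ lev w = i + 1 := by
  classical
  unfold LN; simp

lemma EtF_mem_UN {i : ℕ} {w : P} : w ∈ UN P i ↔ lev w + 1 = i := by
  classical
  unfold UN; simp

lemma EtF_split (i : ℕ) (F : P → ℤ) : ∑ a ∈ near P i ∪ lv P i, F a =
    ∑ a ∈ LN P i, F a + ∑ a ∈ UN P i, F a + ∑ a ∈ lv P i, F a := by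
  have h1 : near P i = LN P i ∪ UN P i := by
    ext x
    rw [mem_near, Finset.mem_union, EtF_mem_LN, EtF_mem_UN]
  have h2 : Disjoint (LN P i) (UN P i) := by
    rw [Finset.disjoint_left]
    intro x hx hx'
    rw [EtF_mem_LN] at hx
    rw [EtF_mem_UN] at hx'
    omega
  have h3 : Disjoint (LN P i ∪ UN P i) (lv P i) := by
    rw [Finset.disjoint_left]
    intro x hx hx'
    rw [Finset.mem_union, EtF_mem_LN, EtF_mem_UN] at hx
    rw [mem_lv] at hx'
    omega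
  rw [h1, Finset.sum_union h3, Finset.sum_union h2]

/-- For a function `g` of configurations: `near ∪ sites` is the disjoint union of `LN`, `UN`, `lv P i`
(levels); expand `sum_two`; `sg a + sg b = sg b + sg a` for the mixed sums. -/
theorem sum_parts {i : ℕ} (g : (P → ℕ) → ℤ) :
    2 * ∑ e ∈ (near P i ∪ lv P i).piAntidiag 2, g e =
      (∑ w ∈ LN P i, ∑ w' ∈ LN P i, g (sg w + sg w') + ∑ w ∈ LN P i, g (sg w + sg w)) +
      (∑ u ∈ UN P i, ∑ u' ∈ UN P i, g (sg u + sg u') + ∑ u ∈ UN P i, g (sg u + sg u)) +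
      (∑ v ∈ lv P i, ∑ v' ∈ lv P i, g (sg v + sg v') + ∑ v ∈ lv P i, g (sg v + sg v)) +
      2 * ∑ w ∈ LN P i, ∑ u ∈ UN P i, g (sg w + sg u) +
      2 * ∑ w ∈ LN P i, ∑ v ∈ lv P i, g (sg w + sg v) +
      2 * ∑ u ∈ UN P i, ∑ v ∈ lv P i, g (sg u + sg v) := by
  rw [sum_two, EtF_split]
  have h1 : ∀ a : P, ∑ b ∈ near P i ∪ lv P i, g (sg a + sg b) =
      ∑ b ∈ LN P i, g (sg a + sg b) + ∑ b ∈ UN P i, g (sg a + sg b) +
        ∑ b ∈ lv P i, g (sg a + sg b) := fun a => EtF_split i _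
  rw [EtF_split]
  simp only [h1, Finset.sum_add_distrib]
  have hc : ∀ X Y : Finset P, ∑ a ∈ X, ∑ b ∈ Y, g (sg a + sg b) =
      ∑ b ∈ Y, ∑ a ∈ X, g (sg b + sg a) := by
    intro X Y
    rw [Finset.sum_comm]
    exact Finset.sum_congr rfl fun b _ => Finset.sum_congr rfl fun a _ => by rw [add_comm]
  rw [hc (UN P i) (LN P i), hc (lv P i) (LN P i), hc (lv P i) (UN P i)]
  ring

lemma EtF_dbL (i : ℕ) (F : P → ℤ) : ∑ w ∈ dbL P i, F w = ∑ w ∈ LN P i, d2 (uc w) * F w := by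
  classical
  have h1 : dbL P i = (LN P i).filter (fun w => (uc w).card = 2) := by
    ext x
    rw [mem_dbL, Finset.mem_filter, EtF_mem_LN]
  rw [h1, Finset.sum_filter]
  refine Finset.sum_congr rfl fun w _ => ?_
  unfold d2
  split_ifs
  · rw [one_mul]
  · rw [zero_mul]

lemma EtF_dbU (i : ℕ) (F : P → ℤ) : ∑ w ∈ dbU P i, F w = ∑ w ∈ UN P i, d2 (dc w) * F w := by
  classical
  have h1 : dbU P i = (UN P i).filter (fun w => (dc w).card = 2) := by
    ext x
    rw [mem_dbU, Finset.mem_filter, EtF_mem_UN]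
  rw [h1, Finset.sum_filter]
  refine Finset.sum_congr rfl fun w _ => ?_
  unfold d2
  split_ifs
  · rw [one_mul]
  · rw [zero_mul]

/-- a coefficient of the sum over all configurations vanishes -/
lemma EtF_zero (H : Gr P r) {i : ℕ} (hi : 1 ≤ i) (hi2 : i + 1 ≤ r) (k : ℕ)
    (hk : k < (lv P i).card) (cl0 cu0 : P → ℤ)
    (h1 : ∀ z : P, lev z = i + 2 → (uc z).card = 1 → PowerSeries.coeff k (trm i (cl z)) = cl0 z)
    (h2 : ∀ x : P, lev x + 2 = i → (dc x).card = 1 → PowerSeries.coeff k (trm i (cu x)) = cu0 x)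
    (Z X : Finset P) (hZ : ∀ z, z ∈ Z ↔ lev z = i + 2 ∧ (uc z).card = 1)
    (hX : ∀ x, x ∈ X ↔ lev x + 2 = i ∧ (dc x).card = 1) :
    ∑ e ∈ (near P i ∪ lv P i).piAntidiag 2, PowerSeries.coeff k (trm i e) +
      ∑ z ∈ Z, cl0 z + ∑ x ∈ X, cu0 x = 0 := by
  classical
  have h := dvd_sum_trm H (i := i) (by omega) 2
  have h0 : PowerSeries.coeff k (∑ e ∈ (univ : Finset P).piAntidiag 2, trm i e) = 0 :=
    (PowerSeries.X_pow_dvd_iff.1 h) k hk
  rw [sum_far H hi hi2, map_add, map_add, map_sum, map_sum, map_sum] at h0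
  rw [← h0]
  have hZ' : Z = univ.filter (fun z : P => lev z = i + 2 ∧ (uc z).card = 1) := by
    ext z
    rw [hZ, Finset.mem_filter]
    exact ⟨fun h => ⟨Finset.mem_univ _, h⟩, fun h => h.2⟩
  have hX' : X = univ.filter (fun x : P => lev x + 2 = i ∧ (dc x).card = 1) := by
    ext z
    rw [hX, Finset.mem_filter]
    exact ⟨fun h => ⟨Finset.mem_univ _, h⟩, fun h => h.2⟩
  congr 1
  · congr 1
    rw [hZ']
    refine Finset.sum_congr (by congr) fun z hz => ?_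
    rw [Finset.mem_filter] at hz
    exact (h1 z hz.2.1 hz.2.2).symm
  · rw [hX']
    refine Finset.sum_congr (by congr) fun z hz => ?_
    rw [Finset.mem_filter] at hz
    exact (h2 z hz.2.1 hz.2.2).symm

lemma EtF_tt_self {s : Finset P} : tt s s = (s.card : ℤ) := by
  unfold tt
  rw [Finset.inter_self]

lemma EtF_tt_comm (s s' : Finset P) : tt s s' = tt s' s := by
  unfold tt
  rw [Finset.inter_comm]

lemma EtF_ee_self {s : Finset P} : ee s s = 1 := by
  unfold ee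
  rw [if_pos rfl]

/-- First total sum: `dvd_sum_trm` with `n = 2`: the coefficient at `b - 2` of the sum vanishes
(`PowerSeries.X_pow_dvd_iff`; `dd` is `PowerSeries.X`); `sum_far`, `sum_parts` with `g = c0 i`, the table; the second
sums (`w = w`) are zero: `1 - 2 + 1`. -/
theorem total0 (H : Gr P r) {i : ℕ} (hi : 1 ≤ i) (hi2 : i + 1 ≤ r) (hb : 2 ≤ (lv P i).card) :
    ∑ w ∈ dbL P i, ∑ w' ∈ dbL P i, (1 - tt (uc w) (uc w') + ee (uc w) (uc w')) +
    ∑ u ∈ dbU P i, ∑ u' ∈ dbU P i, (1 - tt (dc u) (dc u') + ee (dc u) (dc u')) -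
    2 * ∑ w ∈ dbL P i, ∑ u ∈ dbU P i, (1 - tt (uc w) (dc u) + ee (uc w) (dc u)) = 0 := by
  classical
  obtain ⟨hv, hz, hx⟩ := c_rest H hi hi2 hb
  have hF := EtF_zero H hi hi2 ((lv P i).card - 2) (by omega) (fun _ => 0) (fun _ => 0)
    (fun z h1 h2 => (hz z h1 h2).1) (fun x h1 h2 => (hx x h1 h2).1)
    (univ.filter (fun z : P => lev z = i + 2 ∧ (uc z).card = 1))
    (univ.filter (fun x : P => lev x + 2 = i ∧ (dc x).card = 1))
    (fun z => by simp) (fun z => by simp)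
  rw [Finset.sum_const_zero, Finset.sum_const_zero, add_zero, add_zero] at hF
  have hF' : ∑ e ∈ (near P i ∪ lv P i).piAntidiag 2, c0 i e = 0 := hF
  have hS := sum_parts (P := P) (i := i) (c0 i)
  rw [hF', mul_zero] at hS
  have hLL : ∑ w ∈ LN P i, ∑ w' ∈ LN P i, c0 i (sg w + sg w') =
      ∑ w ∈ dbL P i, ∑ w' ∈ dbL P i, (1 - tt (uc w) (uc w') + ee (uc w) (uc w')) := by
    rw [EtF_dbL]
    refine Finset.sum_congr rfl fun w hw => ?_
    rw [EtF_dbL, Finset.mul_sum]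
    refine Finset.sum_congr rfl fun w' hw' => ?_
    rw [(c_LL H hi hi2 hb (EtF_mem_LN.1 hw) (EtF_mem_LN.1 hw')).1]
    ring
  have hL : ∑ w ∈ LN P i, c0 i (sg w + sg w) = 0 := by
    refine Finset.sum_eq_zero fun w hw => ?_
    rw [(c_LL H hi hi2 hb (EtF_mem_LN.1 hw) (EtF_mem_LN.1 hw)).1, EtF_tt_self, EtF_ee_self]
    unfold d2
    split_ifs with h
    · rw [h]; norm_num
    · ring
  have hUU : ∑ w ∈ UN P i, ∑ w' ∈ UN P i, c0 i (sg w + sg w') =
      ∑ w ∈ dbU P i, ∑ w' ∈ dbU P i, (1 - tt (dc w) (dc w') + ee (dc w) (dc w')) := by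
    rw [EtF_dbU]
    refine Finset.sum_congr rfl fun w hw => ?_
    rw [EtF_dbU, Finset.mul_sum]
    refine Finset.sum_congr rfl fun w' hw' => ?_
    rw [(c_UU H hi hi2 hb (EtF_mem_UN.1 hw) (EtF_mem_UN.1 hw')).1]
    ring
  have hU : ∑ w ∈ UN P i, c0 i (sg w + sg w) = 0 := by
    refine Finset.sum_eq_zero fun w hw => ?_
    rw [(c_UU H hi hi2 hb (EtF_mem_UN.1 hw) (EtF_mem_UN.1 hw)).1, EtF_tt_self, EtF_ee_self]
    unfold d2
    split_ifs with h
    · rw [h]; norm_num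
    · ring
  have hLU : ∑ w ∈ LN P i, ∑ u ∈ UN P i, c0 i (sg w + sg u) =
      -∑ w ∈ dbL P i, ∑ u ∈ dbU P i, (1 - tt (uc w) (dc u) + ee (uc w) (dc u)) := by
    rw [EtF_dbL, ← Finset.sum_neg_distrib]
    refine Finset.sum_congr rfl fun w hw => ?_
    rw [EtF_dbU, Finset.mul_sum, ← Finset.sum_neg_distrib]
    refine Finset.sum_congr rfl fun w' hw' => ?_
    rw [(c_LU H hi hi2 hb (EtF_mem_LN.1 hw) (EtF_mem_UN.1 hw')).1]
    ring
  have hLv : ∑ w ∈ LN P i, ∑ v ∈ lv P i, c0 i (sg w + sg v) = 0 := by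
    refine Finset.sum_eq_zero fun w hw => Finset.sum_eq_zero fun v hv' => ?_
    exact (c_Lv H hi hi2 hb (EtF_mem_LN.1 hw) (mem_lv.1 hv')).1
  have hUv : ∑ w ∈ UN P i, ∑ v ∈ lv P i, c0 i (sg w + sg v) = 0 := by
    refine Finset.sum_eq_zero fun w hw => Finset.sum_eq_zero fun v hv' => ?_
    exact (c_Uv H hi hi2 hb (EtF_mem_UN.1 hw) (mem_lv.1 hv')).1
  have hvv : ∑ w ∈ lv P i, ∑ v ∈ lv P i, c0 i (sg w + sg v) = 0 := by
    refine Finset.sum_eq_zero fun w hw => Finset.sum_eq_zero fun v hv' => ?_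
    exact (hv w v (mem_lv.1 hw) (mem_lv.1 hv')).1
  have hv1 : ∑ w ∈ lv P i, c0 i (sg w + sg w) = 0 := by
    refine Finset.sum_eq_zero fun w hw => ?_
    exact (hv w w (mem_lv.1 hw) (mem_lv.1 hw)).1
  rw [hLL, hL, hUU, hU, hLU, hLv, hUv, hvv, hv1] at hS
  linarith

open Classical in
/-- single lower near elements -/
noncomputable def sgL (P : Type u) [Fintype P] [PartialOrder P] [DecidableEq P] (i : ℕ) :
    Finset P := univ.filter (fun x : P => lev x = i + 1 ∧ (uc x).card = 1)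

open Classical in
/-- single upper near elements -/
noncomputable def sgU (P : Type u) [Fintype P] [PartialOrder P] [DecidableEq P] (i : ℕ) :
    Finset P := univ.filter (fun x : P => lev x + 1 = i ∧ (dc x).card = 1)

lemma EtF_sgL (i : ℕ) (F : P → ℤ) : ∑ w ∈ sgL P i, F w = ∑ w ∈ LN P i, d1 (uc w) * F w := by
  classical
  have h1 : sgL P i = (LN P i).filter (fun w => (uc w).card = 1) := by
    ext x
    unfold sgL
    rw [Finset.mem_filter, Finset.mem_filter, EtF_mem_LN]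
    simp
  rw [h1, Finset.sum_filter]
  refine Finset.sum_congr rfl fun w _ => ?_
  unfold d1
  split_ifs
  · rw [one_mul]
  · rw [zero_mul]

lemma EtF_sgU (i : ℕ) (F : P → ℤ) : ∑ w ∈ sgU P i, F w = ∑ w ∈ UN P i, d1 (dc w) * F w := by
  classical
  have h1 : sgU P i = (UN P i).filter (fun w => (dc w).card = 1) := by
    ext x
    unfold sgU
    rw [Finset.mem_filter, Finset.mem_filter, EtF_mem_UN]
    simp
  rw [h1, Finset.sum_filter]
  refine Finset.sum_congr rfl fun w _ => ?_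
  unfold d1
  split_ifs
  · rw [one_mul]
  · rw [zero_mul]

lemma EtF_d22 (s : Finset P) : d2 s * d2 s = d2 s := by
  unfold d2
  split_ifs
  · ring
  · ring

lemma EtF_d21 (s : Finset P) : d2 s * d1 s = 0 := by
  unfold d2 d1
  split_ifs with h1 h2
  · omega
  · ring
  · ring
  · ring

lemma EtF_cardL (i : ℕ) : ((dbL P i).card : ℤ) = ∑ w ∈ LN P i, d2 (uc w) := by
  have h := EtF_dbL i (fun _ : P => (1 : ℤ))
  rw [Finset.sum_const, nsmul_eq_mul, mul_one] at h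
  rw [h]
  exact Finset.sum_congr rfl fun w _ => mul_one _

lemma EtF_cardU (i : ℕ) : ((dbU P i).card : ℤ) = ∑ w ∈ UN P i, d2 (dc w) := by
  have h := EtF_dbU i (fun _ : P => (1 : ℤ))
  rw [Finset.sum_const, nsmul_eq_mul, mul_one] at h
  rw [h]
  exact Finset.sum_congr rfl fun w _ => mul_one _

/-- sum over a diagonal -/
lemma EtF_diag (M : Finset P) (D : P → ℤ) :
    ∑ w ∈ M, ∑ w' ∈ M, D w * D w' * (if w = w' then 1 else 0) = ∑ w ∈ M, D w * D w := by
  refine Finset.sum_congr rfl fun w hw => ?_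
  rw [Finset.sum_eq_single w]
  · rw [if_pos rfl, mul_one]
  · intro b _ hb
    rw [if_neg hb.symm, mul_zero]
  · intro h
    exact absurd hw h

/-- Second total sum: the same with `g = c1 i`. The diagonal pairs `w = w` contribute the indicator term of `c_LL` once in
the double sum and once in the second sum, together `2 |dbL|` (the rest of the formula is zero for `w = w'`
double: `-4 + 6 - 2 = 0`; single: `(0)`), similarly `-2 |dbU|`. -/
theorem total1 (H : Gr P r) {i : ℕ} (hi : 1 ≤ i) (hi2 : i + 1 ≤ r) (hb : 2 ≤ (lv P i).card) :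
    ∑ w ∈ dbL P i, ∑ w' ∈ dbL P i, (-4 + 3 * tt (uc w) (uc w') - 2 * ee (uc w) (uc w')) -
    2 * ∑ w ∈ dbL P i, ∑ w' ∈ sgL P i, (1 - tt (uc w) (uc w')) + 2 * ((dbL P i).card : ℤ) +
    ∑ u ∈ dbU P i, ∑ u' ∈ dbU P i, (2 - tt (dc u) (dc u')) +
    2 * ∑ u ∈ dbU P i, ∑ u' ∈ sgU P i, (1 - tt (dc u) (dc u')) - 2 * ((dbU P i).card : ℤ) +
    2 * ∑ w ∈ dbL P i, ∑ u ∈ dbU P i, (1 - tt (uc w) (dc u) + ee (uc w) (dc u)) -
    2 * ∑ w ∈ dbL P i, ∑ u ∈ sgU P i, (1 - tt (uc w) (dc u)) +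
    2 * ∑ w ∈ sgL P i, ∑ u ∈ dbU P i, (1 - tt (uc w) (dc u)) +
    2 * ∑ w ∈ dbL P i, ∑ v ∈ lv P i, (1 - 2 * (if v ∈ uc w then 1 else 0)) -
    2 * ∑ u ∈ dbU P i, ∑ v ∈ lv P i, (1 - 2 * (if v ∈ dc u then 1 else 0)) +
    2 * ((PD P i).card : ℤ) - 2 * ((PU P i).card : ℤ) = 0 := by
  classical
  obtain ⟨hv, hz, hx⟩ := c_rest H hi hi2 hb
  have hF := EtF_zero H hi hi2 ((lv P i).card - 1) (by omega)
    (fun z => if z ∈ PD P i then 1 else 0) (fun x => if x ∈ PU P i then -1 else 0)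
    (fun z h1 h2 => by
      by_cases h : z ∈ PD P i
      · rw [if_pos h]
        exact (hz z h1 h2).2.1 h
      · rw [if_neg h]
        exact (hz z h1 h2).2.2 h)
    (fun x h1 h2 => by
      by_cases h : x ∈ PU P i
      · rw [if_pos h]
        exact (hx x h1 h2).2.1 h
      · rw [if_neg h]
        exact (hx x h1 h2).2.2 h)
    (univ.filter (fun z : P => lev z = i + 2 ∧ (uc z).card = 1))
    (univ.filter (fun x : P => lev x + 2 = i ∧ (dc x).card = 1))
    (fun z => by simp) (fun z => by simp)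
  have hPD : ∑ z ∈ univ.filter (fun z : P => lev z = i + 2 ∧ (uc z).card = 1),
      (if z ∈ PD P i then (1 : ℤ) else 0) = ((PD P i).card : ℤ) := by
    rw [← Finset.sum_filter, Finset.sum_const, nsmul_eq_mul, mul_one]
    congr 2
    ext z
    rw [Finset.mem_filter, Finset.mem_filter]
    constructor
    · intro h
      exact h.2
    · intro h
      refine ⟨⟨Finset.mem_univ _, ?_⟩, h⟩
      unfold PD at h
      rw [Finset.mem_filter] at h
      exact ⟨h.2.1, h.2.2.1⟩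
  have hPU : ∑ z ∈ univ.filter (fun z : P => lev z + 2 = i ∧ (dc z).card = 1),
      (if z ∈ PU P i then (-1 : ℤ) else 0) = -((PU P i).card : ℤ) := by
    rw [← Finset.sum_filter, Finset.sum_const, nsmul_eq_mul, mul_neg_one]
    congr 3
    ext z
    rw [Finset.mem_filter, Finset.mem_filter]
    constructor
    · intro h
      exact h.2
    · intro h
      refine ⟨⟨Finset.mem_univ _, ?_⟩, h⟩
      unfold PU at h
      rw [Finset.mem_filter] at h
      exact ⟨h.2.1, h.2.2.1⟩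
  rw [hPD, hPU] at hF
  have hF' : ∑ e ∈ (near P i ∪ lv P i).piAntidiag 2, c1 i e + ((PD P i).card : ℤ) +
      -((PU P i).card : ℤ) = 0 := hF
  have hS := sum_parts (P := P) (i := i) (c1 i)
  have hLL : ∑ w ∈ LN P i, ∑ w' ∈ LN P i, c1 i (sg w + sg w') =
      ∑ w ∈ dbL P i, ∑ w' ∈ dbL P i,
        (-4 + 3 * tt (uc w) (uc w') - 2 * ee (uc w) (uc w')) +
      ((dbL P i).card : ℤ) -
      2 * ∑ w ∈ dbL P i, ∑ w' ∈ sgL P i, (1 - tt (uc w) (uc w')) := by
    have a1 : ∑ w ∈ dbL P i, ∑ w' ∈ dbL P i,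
        (-4 + 3 * tt (uc w) (uc w') - 2 * ee (uc w) (uc w')) =
        ∑ w ∈ LN P i, ∑ w' ∈ LN P i, d2 (uc w) * d2 (uc w') *
          (-4 + 3 * tt (uc w) (uc w') - 2 * ee (uc w) (uc w')) := by
      rw [EtF_dbL]
      refine Finset.sum_congr rfl fun w hw => ?_
      rw [EtF_dbL, Finset.mul_sum]
      exact Finset.sum_congr rfl fun w' _ => by ring
    have a2 : ((dbL P i).card : ℤ) = ∑ w ∈ LN P i, ∑ w' ∈ LN P i,
        d2 (uc w) * d2 (uc w') * (if w = w' then 1 else 0) := by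
      rw [EtF_diag (LN P i) (fun w => d2 (uc w)), EtF_cardL]
      exact Finset.sum_congr rfl fun w _ => (EtF_d22 _).symm
    have a3 : ∑ w ∈ dbL P i, ∑ w' ∈ sgL P i, (1 - tt (uc w) (uc w')) =
        ∑ w ∈ LN P i, ∑ w' ∈ LN P i, d2 (uc w) * d1 (uc w') * (1 - tt (uc w) (uc w')) := by
      rw [EtF_dbL]
      refine Finset.sum_congr rfl fun w hw => ?_
      rw [EtF_sgL, Finset.mul_sum]
      exact Finset.sum_congr rfl fun w' _ => by ring
    have a4 : ∑ w ∈ dbL P i, ∑ w' ∈ sgL P i, (1 - tt (uc w) (uc w')) =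
        ∑ w ∈ LN P i, ∑ w' ∈ LN P i, d1 (uc w) * d2 (uc w') * (1 - tt (uc w) (uc w')) := by
      rw [a3, Finset.sum_comm]
      exact Finset.sum_congr rfl fun w _ => Finset.sum_congr rfl fun w' _ => by
        rw [EtF_tt_comm]; ring
    rw [two_mul]
    nth_rewrite 2 [a4]
    rw [a1, a2, a3, ← Finset.sum_add_distrib, ← Finset.sum_add_distrib, ← Finset.sum_sub_distrib]
    refine Finset.sum_congr rfl fun w hw => ?_
    rw [← Finset.sum_add_distrib, ← Finset.sum_add_distrib, ← Finset.sum_sub_distrib]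
    refine Finset.sum_congr rfl fun w' hw' => ?_
    rw [(c_LL H hi hi2 hb (EtF_mem_LN.1 hw) (EtF_mem_LN.1 hw')).2]
    ring
  have hL : ∑ w ∈ LN P i, c1 i (sg w + sg w) = ((dbL P i).card : ℤ) := by
    rw [EtF_cardL]
    refine Finset.sum_congr rfl fun w hw => ?_
    rw [(c_LL H hi hi2 hb (EtF_mem_LN.1 hw) (EtF_mem_LN.1 hw)).2, EtF_tt_self, EtF_ee_self,
      if_pos rfl, mul_comm (d1 (uc w)), EtF_d21, EtF_d22]
    unfold d2
    split_ifs with h
    · rw [h]; norm_num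
    · ring
  have hUU : ∑ w ∈ UN P i, ∑ w' ∈ UN P i, c1 i (sg w + sg w') =
      ∑ w ∈ dbU P i, ∑ w' ∈ dbU P i, (2 - tt (dc w) (dc w')) -
      ((dbU P i).card : ℤ) +
      2 * ∑ w ∈ dbU P i, ∑ w' ∈ sgU P i, (1 - tt (dc w) (dc w')) := by
    have a1 : ∑ w ∈ dbU P i, ∑ w' ∈ dbU P i, (2 - tt (dc w) (dc w')) =
        ∑ w ∈ UN P i, ∑ w' ∈ UN P i, d2 (dc w) * d2 (dc w') * (2 - tt (dc w) (dc w')) := by
      rw [EtF_dbU]
      refine Finset.sum_congr rfl fun w hw => ?_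
      rw [EtF_dbU, Finset.mul_sum]
      exact Finset.sum_congr rfl fun w' _ => by ring
    have a2 : ((dbU P i).card : ℤ) = ∑ w ∈ UN P i, ∑ w' ∈ UN P i,
        d2 (dc w) * d2 (dc w') * (if w = w' then 1 else 0) := by
      rw [EtF_diag (UN P i) (fun w => d2 (dc w)), EtF_cardU]
      exact Finset.sum_congr rfl fun w _ => (EtF_d22 _).symm
    have a3 : ∑ w ∈ dbU P i, ∑ w' ∈ sgU P i, (1 - tt (dc w) (dc w')) =
        ∑ w ∈ UN P i, ∑ w' ∈ UN P i, d2 (dc w) * d1 (dc w') * (1 - tt (dc w) (dc w')) := by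
      rw [EtF_dbU]
      refine Finset.sum_congr rfl fun w hw => ?_
      rw [EtF_sgU, Finset.mul_sum]
      exact Finset.sum_congr rfl fun w' _ => by ring
    have a4 : ∑ w ∈ dbU P i, ∑ w' ∈ sgU P i, (1 - tt (dc w) (dc w')) =
        ∑ w ∈ UN P i, ∑ w' ∈ UN P i, d1 (dc w) * d2 (dc w') * (1 - tt (dc w) (dc w')) := by
      rw [a3, Finset.sum_comm]
      exact Finset.sum_congr rfl fun w _ => Finset.sum_congr rfl fun w' _ => by
        rw [EtF_tt_comm]; ring
    rw [two_mul]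
    nth_rewrite 2 [a4]
    rw [a1, a2, a3, ← Finset.sum_sub_distrib, ← Finset.sum_add_distrib, ← Finset.sum_add_distrib]
    refine Finset.sum_congr rfl fun w hw => ?_
    rw [← Finset.sum_sub_distrib, ← Finset.sum_add_distrib, ← Finset.sum_add_distrib]
    refine Finset.sum_congr rfl fun w' hw' => ?_
    rw [(c_UU H hi hi2 hb (EtF_mem_UN.1 hw) (EtF_mem_UN.1 hw')).2]
    ring
  have hU : ∑ w ∈ UN P i, c1 i (sg w + sg w) = -((dbU P i).card : ℤ) := by
    rw [EtF_cardU, ← Finset.sum_neg_distrib]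
    refine Finset.sum_congr rfl fun w hw => ?_
    rw [(c_UU H hi hi2 hb (EtF_mem_UN.1 hw) (EtF_mem_UN.1 hw)).2, EtF_tt_self,
      if_pos rfl, mul_comm (d1 (dc w)), EtF_d21, EtF_d22]
    unfold d2
    split_ifs with h
    · rw [h]; norm_num
    · ring
  have hLU : ∑ w ∈ LN P i, ∑ u ∈ UN P i, c1 i (sg w + sg u) =
      ∑ w ∈ dbL P i, ∑ u ∈ dbU P i, (1 - tt (uc w) (dc u) + ee (uc w) (dc u)) -
      ∑ w ∈ dbL P i, ∑ u ∈ sgU P i, (1 - tt (uc w) (dc u)) +
      ∑ w ∈ sgL P i, ∑ u ∈ dbU P i, (1 - tt (uc w) (dc u)) := by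
    rw [EtF_dbL, EtF_dbL, EtF_sgL, ← Finset.sum_sub_distrib, ← Finset.sum_add_distrib]
    refine Finset.sum_congr rfl fun w hw => ?_
    rw [EtF_dbU, EtF_sgU, EtF_dbU, Finset.mul_sum, Finset.mul_sum, Finset.mul_sum,
      ← Finset.sum_sub_distrib, ← Finset.sum_add_distrib]
    refine Finset.sum_congr rfl fun w' hw' => ?_
    rw [(c_LU H hi hi2 hb (EtF_mem_LN.1 hw) (EtF_mem_UN.1 hw')).2]
    ring
  have hLv : ∑ w ∈ LN P i, ∑ v ∈ lv P i, c1 i (sg w + sg v) =
      ∑ w ∈ dbL P i, ∑ v ∈ lv P i, (1 - 2 * (if v ∈ uc w then 1 else 0)) := by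
    rw [EtF_dbL]
    refine Finset.sum_congr rfl fun w hw => ?_
    rw [Finset.mul_sum]
    refine Finset.sum_congr rfl fun v hv' => ?_
    exact (c_Lv H hi hi2 hb (EtF_mem_LN.1 hw) (mem_lv.1 hv')).2
  have hUv : ∑ w ∈ UN P i, ∑ v ∈ lv P i, c1 i (sg w + sg v) =
      -∑ w ∈ dbU P i, ∑ v ∈ lv P i, (1 - 2 * (if v ∈ dc w then 1 else 0)) := by
    rw [EtF_dbU, ← Finset.sum_neg_distrib]
    refine Finset.sum_congr rfl fun w hw => ?_
    rw [Finset.mul_sum, ← Finset.sum_neg_distrib]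
    refine Finset.sum_congr rfl fun v hv' => ?_
    exact (c_Uv H hi hi2 hb (EtF_mem_UN.1 hw) (mem_lv.1 hv')).2
  have hvv : ∑ w ∈ lv P i, ∑ v ∈ lv P i, c1 i (sg w + sg v) = 0 := by
    refine Finset.sum_eq_zero fun w hw => Finset.sum_eq_zero fun v hv' => ?_
    exact (hv w v (mem_lv.1 hw) (mem_lv.1 hv')).2
  have hv1 : ∑ w ∈ lv P i, c1 i (sg w + sg w) = 0 := by
    refine Finset.sum_eq_zero fun w hw => ?_
    exact (hv w w (mem_lv.1 hw) (mem_lv.1 hw)).2
  rw [hLL, hL, hUU, hU, hLU, hLv, hUv, hvv, hv1] at hS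
  linarith

end Pool.Agent.GaussPoset.Win
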