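import Pool.Agent.W_448win_h16.EtG

/-! Energy two: identity (22) and (21). -/

namespace Pool.Agent.GaussPoset.Win

set_option linter.unusedSectionVars false

open Finset

universe u

variable {P : Type u} [Fintype P] [PartialOrder P] [DecidableEq P] {r : ℕ}

open Classical in
lemma EtH_mem_sgL {i : ℕ} {x : P} : x ∈ sgL P i ↔ lev x = i + 1 ∧ (uc x).card = 1 := by
  unfold sgL; simp

open Classical in
lemma EtH_mem_sgU {i : ℕ} {x : P} : x ∈ sgU P i ↔ lev x + 1 = i ∧ (dc x).card = 1 := by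
  unfold sgU; simp

lemma EtH_sub_uc (H : Gr P r) {i : ℕ} {x : P} (hx : lev x = i + 1) : uc x ⊆ lv P i := by
  intro v hv
  have h := lev_uc H hv
  exact mem_lv.2 (by omega)

lemma EtH_sub_dc (H : Gr P r) {i : ℕ} {x : P} (hx : lev x + 1 = i) : dc x ⊆ lv P i := by
  intro v hv
  have h := lev_dc H hv
  exact mem_lv.2 (by omega)

lemma EtH_box {V S : Finset P} (hS : S ⊆ V) (h2 : S.card = 2) :
    ∑ v ∈ V, (1 - 2 * (if v ∈ S then (1 : ℤ) else 0)) = (V.card : ℤ) - 4 := by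
  rw [sum_sub_distrib, ← mul_sum, sum_boole, filter_mem_eq_inter, inter_eq_right.2 hS, h2,
    sum_const, nsmul_eq_mul]
  push_cast
  ring

/-- the sums of `tt` and `ee` over the double near elements -/
lemma EtH_sums (H : Gr P r) {i : ℕ} (hi2 : i + 1 ≤ r) :
    (∑ w ∈ dbL P i, ∑ w' ∈ dbL P i, tt (uc w) (uc w') = ∑ v ∈ lv P i, dgD i v * dgD i v) ∧
    (∑ u ∈ dbU P i, ∑ u' ∈ dbU P i, tt (dc u) (dc u') = ∑ v ∈ lv P i, dgT i v * dgT i v) ∧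
    (∑ w ∈ dbL P i, ∑ u ∈ dbU P i, tt (uc w) (dc u) = ∑ v ∈ lv P i, dgD i v * dgT i v) ∧
    (2 * ∑ w ∈ dbL P i, ∑ w' ∈ dbL P i, ee (uc w) (uc w') =
      ∑ v ∈ lv P i, ∑ v' ∈ (lv P i).erase v, (dcv v v' : ℤ) * (dcv v v' : ℤ)) ∧
    (2 * ∑ u ∈ dbU P i, ∑ u' ∈ dbU P i, ee (dc u) (dc u') =
      ∑ v ∈ lv P i, ∑ v' ∈ (lv P i).erase v, (ucv v v' : ℤ) * (ucv v v' : ℤ)) ∧
    (2 * ∑ w ∈ dbL P i, ∑ u ∈ dbU P i, ee (uc w) (dc u) =
      ∑ v ∈ lv P i, ∑ v' ∈ (lv P i).erase v, (dcv v v' : ℤ) * (ucv v v' : ℤ)) := by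
  have hir : i ≤ r := by omega
  have sL : ∀ a ∈ dbL P i, uc a ⊆ lv P i := fun a ha => EtH_sub_uc H (mem_dbL.1 ha).1
  have sU : ∀ a ∈ dbU P i, dc a ⊆ lv P i := fun a ha => EtH_sub_dc H (mem_dbU.1 ha).1
  have cL : ∀ a ∈ dbL P i, (uc a).card = 2 := fun a ha => (mem_dbL.1 ha).2
  have cU : ∀ a ∈ dbU P i, (dc a).card = 2 := fun a ha => (mem_dbU.1 ha).2
  have dL : ∀ v ∈ lv P i, (((dbL P i).filter (fun w => v ∈ uc w)).card : ℤ) = dgD i v :=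
    fun v hv => (cnt_dbL H (mem_lv.1 hv)).2
  have dU : ∀ v ∈ lv P i, (((dbU P i).filter (fun w => v ∈ dc w)).card : ℤ) = dgT i v :=
    fun v hv => (cnt_dbU H hir (mem_lv.1 hv)).2
  have eL : ∀ v ∈ lv P i, ∀ v' ∈ (lv P i).erase v,
      ((dbL P i).filter (fun w => v ∈ uc w ∧ v' ∈ uc w)).card = dcv v v' := fun v hv v' hv' =>
    (cnt_dbL H (mem_lv.1 hv)).1 v' (mem_lv.1 (mem_of_mem_erase hv')) (ne_of_mem_erase hv').symm
  have eU : ∀ v ∈ lv P i, ∀ v' ∈ (lv P i).erase v,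
      ((dbU P i).filter (fun w => v ∈ dc w ∧ v' ∈ dc w)).card = ucv v v' := fun v hv v' hv' =>
    (cnt_dbU H hir (mem_lv.1 hv)).1 v' (mem_lv.1 (mem_of_mem_erase hv')) (ne_of_mem_erase hv').symm
  refine ⟨?_, ?_, ?_, ?_, ?_, ?_⟩
  · rw [count_tt (lv P i) _ _ _ _ sL]
    exact sum_congr rfl fun v hv => by rw [dL v hv]
  · rw [count_tt (lv P i) _ _ _ _ sU]
    exact sum_congr rfl fun v hv => by rw [dU v hv]
  · rw [count_tt (lv P i) _ _ _ _ sL]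
    exact sum_congr rfl fun v hv => by rw [dL v hv, dU v hv]
  · rw [count_ee (lv P i) _ _ _ _ sL cL cL]
    exact sum_congr rfl fun v hv => sum_congr rfl fun v' hv' => by rw [eL v hv v' hv']
  · rw [count_ee (lv P i) _ _ _ _ sU cU cU]
    exact sum_congr rfl fun v hv => sum_congr rfl fun v' hv' => by rw [eU v hv v' hv']
  · rw [count_ee (lv P i) _ _ _ _ sL cL cU]
    exact sum_congr rfl fun v hv => sum_congr rfl fun v' hv' => by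
      rw [eL v hv v' hv', eU v hv v' hv']

/-- `total0` in terms of the sums -/
lemma EtH_total0 (H : Gr P r) {i : ℕ} (hi : 1 ≤ i) (hi2 : i + 1 ≤ r) (hb : 2 ≤ (lv P i).card) :
    2 * (∑ v ∈ lv P i, dgD i v * dgD i v + ∑ v ∈ lv P i, dgT i v * dgT i v -
      2 * ∑ v ∈ lv P i, dgD i v * dgT i v) =
    ∑ v ∈ lv P i, ∑ v' ∈ (lv P i).erase v, (dcv v v' : ℤ) * (dcv v v' : ℤ) +
    ∑ v ∈ lv P i, ∑ v' ∈ (lv P i).erase v, (ucv v v' : ℤ) * (ucv v v' : ℤ) -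
    2 * ∑ v ∈ lv P i, ∑ v' ∈ (lv P i).erase v, (dcv v v' : ℤ) * (ucv v v' : ℤ) := by
  obtain ⟨h1, h2, h3, h4, h5, h6⟩ := EtH_sums H hi2
  obtain ⟨hn, _, _⟩ := cnt_n H (show i ≤ r by omega)
  have h0 := total0 H hi hi2 hb
  simp only [sum_add_distrib, sum_sub_distrib, sum_const, nsmul_eq_mul, mul_one] at h0
  rw [h1, h2, h3, hn] at h0
  linarith

/-- (22) for `b ≥ 2`. In `total0` put (`count_tt`, `count_ee`, `cnt_dbL`, `cnt_dbU`, `cnt_n`) `n = |dbL| = |dbU|`,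
`∑ tt = ∑ dgD ^ 2, ∑ dgT ^ 2, ∑ dgD * dgT`, `2 ∑ ee = ∑∑ dcv ^ 2, ∑∑ ucv ^ 2, ∑∑ dcv * ucv`: twice `total0` is
`-2 ∑ (dgD - dgT) ^ 2 + ∑∑ (dcv - ucv) ^ 2 = 0`. -/
theorem E22' (H : Gr P r) {i : ℕ} (hi : 1 ≤ i) (hi2 : i + 1 ≤ r) (hb : 2 ≤ (lv P i).card) :
    ∑ v ∈ lv P i, ∑ v' ∈ (lv P i).erase v, ((dcv v v' : ℤ) - (ucv v v' : ℤ)) ^ 2 =
      2 * ∑ v ∈ lv P i, (dgD i v - dgT i v) ^ 2 := by
  have h0 := EtH_total0 H hi hi2 hb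
  have e1 : ∀ a b : ℤ, (a - b) ^ 2 = a * a + b * b - 2 * (a * b) := fun a b => by ring
  simp only [e1, sum_add_distrib, sum_sub_distrib, ← mul_sum]
  linarith

/-- (21). Let `n = |dbL| = |dbU|`, `b = |lv P i|`, `QD = ∑ dgD ^ 2`, `QT = ∑ dgT ^ 2`, `QX = ∑ dgD dgT`,
`ED, ET, EX` the sums of `ee` (`2 ED = ∑∑ dcv ^ 2` etc.), `A1 = ∑ dgD sL`, `A2 = ∑ dgT sU`, `A3 = ∑ dgD sU`, `A4 = ∑ dgT sL` with
`sL v`, `sU v` the numbers of single near elements below and above `v` (`sL + sU = sing`, `cnt_sg`), `nL = |sgL|`,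
`nU = |sgU|`. `total1` is
`(-4 n^2 + 3 QD - 2 ED) - 2 (n nL - A1) + 2 n + (2 n^2 - QT) + 2 (n nU - A2) - 2 n + 2 (n^2 - QX + EX) - 2 (n nU - A3)
+ 2 (n nL - A4) + 2 (n b - 4 n) - 2 (n b - 4 n) + 2 |PD| - 2 |PU| = 0`, i.e.
`3 QD - QT - 2 QX - 2 ED + 2 EX + 2 (A1 + A3 - A2 - A4) + 2 |PD| - 2 |PU| = 0`; `total0` is
`2 n^2 - QD - QT + ED + ET - 2 (n^2 - QX + EX) = 0`, so `2 QX = QD + QT - ED - ET + 2 EX`. Substitute and multiply by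
two. (`∑_(w, v) (1 - 2 [v ∈ uc w]) = n b - 2 * 2 n` because `(uc w).card = 2`.) -/
theorem E21' (H : Gr P r) {i : ℕ} (hi : 1 ≤ i) (hi2 : i + 1 ≤ r) (hb : 2 ≤ (lv P i).card) :
    4 * ((PD P i).card : ℤ) - 4 * ((PU P i).card : ℤ) +
      4 * ∑ v ∈ lv P i, (dgD i v - dgT i v) * sing v +
      4 * ∑ v ∈ lv P i, (dgD i v ^ 2 - dgT i v ^ 2) -
      ∑ v ∈ lv P i, ∑ v' ∈ (lv P i).erase v, ((dcv v v' : ℤ) ^ 2 - (ucv v v' : ℤ) ^ 2) = 0 := by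
  have hir : i ≤ r := by omega
  obtain ⟨h1, h2, h3, h4, h5, h6⟩ := EtH_sums H hi2
  obtain ⟨hn, _, _⟩ := cnt_n H hir
  have h0 := EtH_total0 H hi hi2 hb
  have ht := total1 H hi hi2 hb
  have sL : ∀ a ∈ dbL P i, uc a ⊆ lv P i := fun a ha => EtH_sub_uc H (mem_dbL.1 ha).1
  have sU : ∀ a ∈ dbU P i, dc a ⊆ lv P i := fun a ha => EtH_sub_dc H (mem_dbU.1 ha).1
  have sL' : ∀ a ∈ sgL P i, uc a ⊆ lv P i := fun a ha => EtH_sub_uc H (EtH_mem_sgL.1 ha).1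
  have dL : ∀ v ∈ lv P i, (((dbL P i).filter (fun w => v ∈ uc w)).card : ℤ) = dgD i v :=
    fun v hv => (cnt_dbL H (mem_lv.1 hv)).2
  have dU : ∀ v ∈ lv P i, (((dbU P i).filter (fun w => v ∈ dc w)).card : ℤ) = dgT i v :=
    fun v hv => (cnt_dbU H hir (mem_lv.1 hv)).2
  set cl : P → ℤ := fun v => (((sgL P i).filter (fun w => v ∈ uc w)).card : ℤ) with hcl
  set cu : P → ℤ := fun v => (((sgU P i).filter (fun w => v ∈ dc w)).card : ℤ) with hcu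
  have a1 : ∑ w ∈ dbL P i, ∑ w' ∈ sgL P i, tt (uc w) (uc w') =
      ∑ v ∈ lv P i, dgD i v * cl v := by
    rw [count_tt (lv P i) _ _ _ _ sL]
    exact sum_congr rfl fun v hv => by rw [dL v hv]
  have a2 : ∑ u ∈ dbU P i, ∑ u' ∈ sgU P i, tt (dc u) (dc u') =
      ∑ v ∈ lv P i, dgT i v * cu v := by
    rw [count_tt (lv P i) _ _ _ _ sU]
    exact sum_congr rfl fun v hv => by rw [dU v hv]
  have a3 : ∑ w ∈ dbL P i, ∑ u ∈ sgU P i, tt (uc w) (dc u) =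
      ∑ v ∈ lv P i, dgD i v * cu v := by
    rw [count_tt (lv P i) _ _ _ _ sL]
    exact sum_congr rfl fun v hv => by rw [dL v hv]
  have a4 : ∑ w ∈ sgL P i, ∑ u ∈ dbU P i, tt (uc w) (dc u) =
      ∑ v ∈ lv P i, cl v * dgT i v := by
    rw [count_tt (lv P i) _ _ _ _ sL']
    exact sum_congr rfl fun v hv => by rw [dU v hv]
  have b1 : ∑ w ∈ dbL P i, ∑ v ∈ lv P i, (1 - 2 * (if v ∈ uc w then (1 : ℤ) else 0)) =
      ((dbL P i).card : ℤ) * (((lv P i).card : ℤ) - 4) := by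
    rw [sum_congr rfl fun w hw => EtH_box (sL w hw) (mem_dbL.1 hw).2, sum_const, nsmul_eq_mul]
  have b2 : ∑ u ∈ dbU P i, ∑ v ∈ lv P i, (1 - 2 * (if v ∈ dc u then (1 : ℤ) else 0)) =
      ((dbU P i).card : ℤ) * (((lv P i).card : ℤ) - 4) := by
    rw [sum_congr rfl fun w hw => EtH_box (sU w hw) (mem_dbU.1 hw).2, sum_const, nsmul_eq_mul]
  rw [b1, b2] at ht
  simp only [sum_add_distrib, sum_sub_distrib, sum_const, nsmul_eq_mul, mul_one, ← mul_sum] at ht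
  rw [h1, h2, h3, a1, a2, a3, a4, hn] at ht
  have c1 : ∑ v ∈ lv P i, (dgD i v - dgT i v) * sing v =
      ∑ v ∈ lv P i, dgD i v * cl v + ∑ v ∈ lv P i, dgD i v * cu v -
      ∑ v ∈ lv P i, cl v * dgT i v - ∑ v ∈ lv P i, dgT i v * cu v := by
    rw [← sum_add_distrib, ← sum_sub_distrib, ← sum_sub_distrib]
    refine sum_congr rfl fun v hv => ?_
    rw [← cnt_sg H (mem_lv.1 hv)]
    ring
  have c2 : ∑ v ∈ lv P i, (dgD i v ^ 2 - dgT i v ^ 2) =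
      ∑ v ∈ lv P i, dgD i v * dgD i v - ∑ v ∈ lv P i, dgT i v * dgT i v := by
    rw [← sum_sub_distrib]
    exact sum_congr rfl fun v _ => by ring
  have c3 : ∑ v ∈ lv P i, ∑ v' ∈ (lv P i).erase v, ((dcv v v' : ℤ) ^ 2 - (ucv v v' : ℤ) ^ 2) =
      ∑ v ∈ lv P i, ∑ v' ∈ (lv P i).erase v, (dcv v v' : ℤ) * (dcv v v' : ℤ) -
      ∑ v ∈ lv P i, ∑ v' ∈ (lv P i).erase v, (ucv v v' : ℤ) * (ucv v v' : ℤ) := by
    rw [← sum_sub_distrib]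
    refine sum_congr rfl fun v _ => ?_
    rw [← sum_sub_distrib]
    exact sum_congr rfl fun v' _ => by ring
  rw [c1, c2, c3]
  linarith

end Pool.Agent.GaussPoset.Win
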