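import Pool.Agent.W_448win_h16.FactB

/-! Raising the label of an upper near element. -/

namespace Pool.Agent.GaussPoset.Win

set_option linter.unusedSectionVars false

open Finset

universe u

variable {P : Type u} [Fintype P] [PartialOrder P] [DecidableEq P] {r : ℕ}

/-- Mirror image of `factL`: an untouched upper near element `x` with label `0` is raised to `b`.
Its upper covers have label `0`, they have `GD` before and after. `x`: `FU` false before and after,
`GD` true before (`dc_nonempty`, `lev x + 1 = i ≤ r`), after iff some site `v` below `x` has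
`b ≤ e v`. `pU` grows by one iff all sites below have label `< b` (this gives the factor
`xi * dd`). A site `v` has `FU` after iff it had it before or `v ⋖ x` and `e v < b`. -/
theorem factU (H : Gr P r) {i : ℕ} (hi : i ≤ r) {e : P → ℕ} {x : P} (hx : lev x + 1 = i)
    (hu : ∀ y, x ⋖ y → e y = 0) (h0 : e x = 0) (b : ℕ) (S : Finset P) :
    Fe i (e + Pi.single x b) S = Fe i e S * wtU e x b S := by
  classical
  obtain ⟨e', he'⟩ : ∃ e', e' = e + Pi.single x b := ⟨_, rfl⟩
  rw [← he']
  have hex : e' x = b := by rw [he', Pi.add_apply, Pi.single_eq_same, h0, zero_add]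
  have hey : ∀ y, y ≠ x → e' y = e y := fun y hy => by
    rw [he', Pi.add_apply, Pi.single_eq_of_ne hy, add_zero]
  have hcov : ∀ {p q : P}, p ⋖ q → lev p = lev q + 1 := fun h => (H.covBy_iff.mp h).2
  have hFUx : ¬ FU e' x := by
    rintro ⟨z', hz', hlt⟩
    have hne : z' ≠ x := by
      rintro rfl
      exact hz'.1.false
    rw [hey z' hne, hu z' hz'] at hlt
    omega
  have hFUx0 : ¬ FU e x := by
    rintro ⟨z', hz', hlt⟩
    rw [hu z' hz'] at hlt
    omega
  obtain ⟨y0, hy0⟩ := dc_nonempty H (x := x) (by omega)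
  have hGDx0 : GD e x := ⟨y0, mem_dc.1 hy0, by rw [h0]; exact Nat.zero_le _⟩
  have hFU : ∀ z, lev z < i → (FU e' z ↔ FU e z) := by
    intro z hz
    by_cases hzx : z = x
    · subst hzx
      exact iff_of_false hFUx hFUx0
    · unfold FU
      refine exists_congr fun z' => and_congr_right fun hz' => ?_
      have hne : z' ≠ x := by
        rintro rfl
        have := hcov hz'
        omega
      rw [hey z hzx, hey z' hne]
  have hGD : ∀ z, z ≠ x → (GD e' z ↔ GD e z) := by
    intro z hzx
    by_cases hc : x ⋖ z
    · exact iff_of_true ⟨x, hc, by rw [hey z hzx, hu z hc]; exact Nat.zero_le _⟩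
        ⟨x, hc, by rw [hu z hc]; exact Nat.zero_le _⟩
    · unfold GD
      refine exists_congr fun y => and_congr_right fun hy => ?_
      have hne : y ≠ x := by
        rintro rfl
        exact hc hy
      rw [hey z hzx, hey y hne]
  have hGDx : GD e' x ↔ ¬ ∀ v ∈ dc x, e v < b := by
    unfold GD
    push Not
    refine exists_congr fun v => ?_
    rw [mem_dc]
    refine and_congr_right fun hv => ?_
    have hne : v ≠ x := by
      rintro rfl
      exact hv.1.false
    rw [hex, hey v hne]
  have hAdmU : AdmU i e' ↔ AdmU i e := by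
    unfold AdmU
    refine forall_congr' fun z => forall_congr' fun hz => not_congr ?_
    by_cases hzx : z = x
    · subst hzx
      exact iff_of_false (fun h => hFUx h.1) (fun h => hFUx0 h.1)
    · rw [hFU z hz, hGD z hzx]
  have hFD : ∀ z, i ≤ lev z → (FD e' z ↔ FD e z) := by
    intro z hz
    unfold FD
    refine exists_congr fun y => and_congr_right fun hy => ?_
    have h1 := hcov hy
    rw [hey z (by rintro rfl; omega), hey y (by rintro rfl; omega)]
  have hGU : ∀ z, i < lev z → (GU e' z ↔ GU e z) := by
    intro z hz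
    unfold GU
    refine exists_congr fun y => and_congr_right fun hy => ?_
    have h1 := hcov hy
    rw [hey z (by rintro rfl; omega), hey y (by rintro rfl; omega)]
  have hAdmL : AdmL i e' ↔ AdmL i e := by
    unfold AdmL
    refine forall_congr' fun z => forall_congr' fun hz => not_congr ?_
    rw [hFD z hz.le, hGU z hz]
  have haU : aU i e' = aU i e := by
    unfold aU
    refine congrArg _ (filter_congr fun z _ => and_congr_right fun hz => ?_)
    rw [hFU z hz]
  have haL : aL i e' = aL i e := by
    unfold aL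
    refine congrArg _ (filter_congr fun z _ => and_congr_right fun hz => ?_)
    rw [hFD z hz.le]
  have hpL : pL i e' = pL i e := by
    unfold pL
    refine congrArg _ (filter_congr fun z _ => and_congr_right fun hz => ?_)
    rw [hFD z hz.le, hGU z hz]
  have hpU : pU i e' = pU i e + if ∀ v ∈ dc x, e v < b then 1 else 0 := by
    unfold pU
    have h1 : univ.filter (fun z : P => lev z < i ∧ ¬ FU e z ∧ ¬ GD e z) =
        (univ.filter (fun z : P => lev z < i ∧ ¬ FU e' z ∧ ¬ GD e' z)).erase x := by
      ext z
      rw [mem_erase, mem_filter, mem_filter]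
      by_cases hzx : z = x
      · subst hzx
        exact iff_of_false (fun h => h.2.2.2 hGDx0) (fun h => h.1 rfl)
      · constructor
        · rintro ⟨h2, h3, h4, h5⟩
          exact ⟨hzx, h2, h3, by rw [hFU z h3]; exact h4, by rw [hGD z hzx]; exact h5⟩
        · rintro ⟨-, h2, h3, h4, h5⟩
          exact ⟨h2, h3, by rw [← hFU z h3]; exact h4, by rw [← hGD z hzx]; exact h5⟩
    rw [h1]
    by_cases hc : ∀ v ∈ dc x, e v < b
    · rw [if_pos hc, card_erase_add_one]
      rw [mem_filter]
      refine ⟨mem_univ _, by omega, hFUx, ?_⟩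
      rw [hGDx]
      exact not_not.2 hc
    · rw [if_neg hc, add_zero, erase_eq_of_notMem]
      intro h2
      rw [mem_filter] at h2
      exact h2.2.2.2 (hGDx.2 hc)
  have hAL : AL i e' = AL i e := by
    unfold AL
    refine filter_congr fun z hz => ?_
    rw [mem_lv] at hz
    rw [hFD z hz.ge]
  have hAU : ∀ v, v ∈ AU i e' ↔ v ∈ AU i e ∨ (v ⋖ x ∧ e v < b) := by
    intro v
    unfold AU
    rw [mem_filter, mem_filter, mem_lv]
    constructor
    · rintro ⟨hv, z', hz', hlt⟩
      have hvx : v ≠ x := by rintro rfl; omega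
      rw [hey v hvx] at hlt
      by_cases hzx : z' = x
      · subst hzx
        rw [hex] at hlt
        exact Or.inr ⟨hz', hlt⟩
      · rw [hey z' hzx] at hlt
        exact Or.inl ⟨hv, z', hz', hlt⟩
    · rintro (⟨hv, z', hz', hlt⟩ | ⟨hv, hlt⟩)
      · have hvx : v ≠ x := by rintro rfl; omega
        refine ⟨hv, z', hz', ?_⟩
        have hzx : z' ≠ x := by
          rintro rfl
          rw [h0] at hlt
          omega
        rw [hey v hvx, hey z' hzx]
        exact hlt
      · have h1 := hcov hv
        have hvx : v ≠ x := by rintro rfl; omega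
        refine ⟨by omega, x, hv, ?_⟩
        rw [hey v hvx, hex]
        exact hlt
  have hchi : chi (AL i e') (AU i e') S = chi (AL i e) (AU i e) S *
      (if ∀ v ∈ dc x, e v < b → v ∉ S then 1 else 0) := by
    unfold chi
    rw [hAL]
    have h1 : Disjoint (AU i e') S ↔ Disjoint (AU i e) S ∧ ∀ v ∈ dc x, e v < b → v ∉ S := by
      rw [disjoint_left, disjoint_left]
      constructor
      · intro h
        exact ⟨fun v hv => h ((hAU v).2 (Or.inl hv)), fun v hv hlt =>
          h ((hAU v).2 (Or.inr ⟨mem_dc.1 hv, hlt⟩))⟩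
      · rintro ⟨h2, h3⟩ v hv
        rcases (hAU v).1 hv with h4 | ⟨h4, h5⟩
        · exact h2 h4
        · exact h3 v (mem_dc.2 h4) h5
    by_cases hc : ∀ v ∈ dc x, e v < b → v ∉ S
    · rw [if_pos hc, mul_one]
      refine if_congr ?_ rfl rfl
      rw [h1]
      exact ⟨fun h => ⟨h.1, h.2.1⟩, fun h => ⟨h.1, h.2, hc⟩⟩
    · rw [if_neg hc, mul_zero, if_neg]
      intro h
      exact hc (h1.1 h.2).2
  unfold Fe
  rw [hchi]
  unfold wtU
  have hcw : cw i e' = cw i e * (if ∀ v ∈ dc x, e v < b then xi * dd else 1) := by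
    unfold cw
    rw [hAdmL, hAdmU, haL, haU, hpU, hpL]
    by_cases hc : AdmL i e ∧ AdmU i e
    · rw [if_pos hc, if_pos hc]
      split_ifs with h1
      · ring
      · ring
    · rw [if_neg hc, if_neg hc, zero_mul]
  rw [hcw]
  ring

/-- `factL` and `factU` together -/
theorem fact (H : Gr P r) {i : ℕ} (hi : i ≤ r) {e : P → ℕ} {x : P} (hx : x ∈ near P i)
    (hu : x ∉ Tch i e) (h0 : e x = 0) (a : ℕ) (S : Finset P) :
    Fe i (e + Pi.single x a) S = Fe i e S * wt i e x a S := by
  rw [mem_near] at hx
  rw [mem_Tch, not_or] at hu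
  unfold wt
  rcases hx with hx | hx
  · rw [if_pos hx]
    refine factL H hx (fun z hz => ?_) h0 a S
    by_contra hne
    exact hu.1 ⟨hx, z, hz, Nat.pos_of_ne_zero hne⟩
  · rw [if_neg (by omega)]
    refine factU H hi hx (fun y hy => ?_) h0 a S
    by_contra hne
    exact hu.2 ⟨hx, y, hy, Nat.pos_of_ne_zero hne⟩

end Pool.Agent.GaussPoset.Win
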