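import Pool.Agent.W_448win_h16.DualB
import Pool.Agent.W_448win_h16.DualC
import Pool.Agent.W_448win_h16.E2Final
import Pool.Agent.W_448lad_h84.Main

/-! Small levels are good; the hypothesis of the ladder theorem; levels of the dual. -/

namespace Pool.Agent.GaussPoset.Win

set_option linter.unusedSectionVars false

open Finset OrderDual

universe u

variable {P : Type u} [Fintype P] [PartialOrder P] [DecidableEq P] {r : ℕ}

/-- levels with at most three elements are good -/
theorem good_of_three (H : Gr P r) {k : ℕ} (h3 : (lv P k).card ≤ 3) : Good P k := by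
  classical
  intro v v' hv hv' hne
  have hj : k ≤ r := hv ▸ H.lev_le v
  by_cases hall : ∀ s : P, lev s = k → s = v ∨ s = v'
  · exact two_mod H hv hv' hne hall hj
  · push Not at hall
    obtain ⟨c, hc, hcv, hcv'⟩ := hall
    have T : Tri k v v' c := by
      refine ⟨hv, hv', hc, hne, hcv.symm, hcv'.symm, fun s hs => ?_⟩
      have h4 : ({v, v', c} : Finset P) = lv P k := by
        apply Finset.eq_of_subset_of_card_le
        · intro x hx
          simp only [mem_insert, mem_singleton] at hx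
          rw [mem_lv]
          rcases hx with rfl | rfl | rfl
          · exact hv
          · exact hv'
          · exact hc
        · rw [Finset.card_eq_three.mpr ⟨v, v', c, hne, hcv.symm, hcv'.symm, rfl⟩]
          exact h3
      rw [← mem_lv, ← h4] at hs
      simpa using hs
    exact (tri_mod H T hj).1

/-- `up (i+1) z` is the number of upper covers of an element of level `i + 2` -/
lemma up_eq_uc (H : Gr P r) {i : ℕ} {w : P} (hw : lev w = i + 1) : up i w = (uc w).card := by
  classical
  unfold up uc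
  congr 1
  ext y
  simp only [mem_filter, mem_lv, mem_univ, true_and, H.covBy_iff]
  constructor
  · rintro ⟨h1, h2⟩
    exact ⟨h2, by omega⟩
  · rintro ⟨h1, h2⟩
    exact ⟨by omega, h1⟩

lemma dn_eq_dc (H : Gr P r) {i : ℕ} {u : P} (hu : lev u + 1 = i) : dn i u = (dc u).card := by
  classical
  unfold dn dc
  congr 1
  ext y
  simp only [mem_filter, mem_lv, mem_univ, true_and, H.covBy_iff]
  constructor
  · rintro ⟨h1, h2⟩
    exact ⟨h2, by omega⟩
  · rintro ⟨h1, h2⟩
    exact ⟨by omega, h1⟩

lemma pdn_eq (H : Gr P r) (i : ℕ) : pdn P i = (PD P i).card := by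
  classical
  unfold pdn PD
  congr 1
  ext z
  simp only [mem_filter, mem_lv, mem_univ, true_and]
  constructor
  · rintro ⟨h1, h2, h3⟩
    rw [up_eq_uc H (by omega)] at h2
    refine ⟨h1, h2, ?_⟩
    obtain ⟨w, hw⟩ := Finset.card_eq_one.mp h2
    have h4 : z ⋖ w := mem_uc.mp (hw ▸ mem_singleton_self w)
    have h5 : lev w = i + 1 := by
      have := (H.covBy_iff.mp h4).2
      omega
    refine ⟨w, h4, ?_⟩
    rw [← up_eq_uc H h5]
    exact h3 w h5 h4.lt
  · rintro ⟨h1, h2, w, h3, h4⟩
    refine ⟨h1, by rw [up_eq_uc H (by omega)]; exact h2, fun w' h5 h6 => ?_⟩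
    have h7 : z ⋖ w' := H.covBy_iff.mpr ⟨h6, by omega⟩
    obtain ⟨w'', hw''⟩ := Finset.card_eq_one.mp h2
    have h8 : w ∈ uc z := mem_uc.mpr h3
    have h9 : w' ∈ uc z := mem_uc.mpr h7
    rw [hw'', mem_singleton] at h8 h9
    rw [h9, ← h8] at h5 ⊢
    rw [up_eq_uc H h5]
    exact h4

lemma pup_eq (H : Gr P r) (i : ℕ) : pup P i = (PU P i).card := by
  classical
  unfold pup PU
  congr 1
  ext z
  simp only [mem_filter, mem_univ, true_and]
  constructor
  · rintro ⟨h1, h2, h3⟩
    rw [dn_eq_dc H (by omega)] at h2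
    refine ⟨h1, h2, ?_⟩
    obtain ⟨w, hw⟩ := Finset.card_eq_one.mp h2
    have h4 : w ⋖ z := mem_dc.mp (hw ▸ mem_singleton_self w)
    have h5 : lev w + 1 = i := by
      have := (H.covBy_iff.mp h4).2
      omega
    refine ⟨w, h4, ?_⟩
    rw [← dn_eq_dc H h5]
    exact h3 w h5 h4.lt
  · rintro ⟨h1, h2, w, h3, h4⟩
    refine ⟨h1, by rw [dn_eq_dc H (by omega)]; exact h2, fun w' h5 h6 => ?_⟩
    have h7 : w' ⋖ z := H.covBy_iff.mpr ⟨h6, by omega⟩
    obtain ⟨w'', hw''⟩ := Finset.card_eq_one.mp h2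
    have h8 : w ∈ dc z := mem_dc.mpr h3
    have h9 : w' ∈ dc z := mem_dc.mpr h7
    rw [hw'', mem_singleton] at h8 h9
    rw [h9, ← h8] at h5 ⊢
    rw [dn_eq_dc H h5]
    exact h4

/-- the hypothesis of the ladder theorem -/
theorem W21_two (H : Gr P r) {i : ℕ} (hi : 2 ≤ i) (hi2 : i + 2 ≤ r) (hb : bb P i = 2) :
    W21 P i := by
  unfold W21
  rw [pdn_eq H, pup_eq H]
  refine good_card H (by omega) (by omega) (good_of_three H ?_)
  unfold bb at hb
  omega

/-- level sizes of the dual -/
lemma card_lv_dual (H : Gr P r) {l : ℕ} (hl : l ≤ r) : (lv Pᵒᵈ l).card = (lv P l).card := by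
  have h1 := (nums_od H (i := r - l) (by omega) (0 : P → ℕ)).2.2.2.2.2.2
  rw [show r - (r - l) = l by omega] at h1
  rw [h1]
  exact bb_symm H hl

end Pool.Agent.GaussPoset.Win
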