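import Pool.Agent.W_448win_h16.NormB

/-! Forced elements, level by level. -/

namespace Pool.Agent.GaussPoset.Win

set_option linter.unusedSectionVars false

open Finset

universe u

variable {P : Type u} [Fintype P] [PartialOrder P] [DecidableEq P] {r : ℕ}

/-- On level `≥ i` the function `rho` is `e`, and lower covers have level one more
(`H.covBy_iff`). -/
theorem FIc_low (H : Gr P r) {i : ℕ} {e : P → ℕ} {x : P} (hx : i ≤ lev x) :
    FIc i e x ↔ FD e x := by
  unfold FIc FD rho
  constructor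
  · rintro (h | ⟨z, hz, h⟩)
    · omega
    · have h1 := (H.covBy_iff.mp hz).2
      exact ⟨z, hz, by omega⟩
  · rintro ⟨z, hz, h⟩
    have h1 := (H.covBy_iff.mp hz).2
    exact Or.inr ⟨z, hz, by omega⟩

/-- On level `> i` upper covers have level `≥ i`. -/
theorem FAc_low (H : Gr P r) {i : ℕ} {e : P → ℕ} {x : P} (hx : i < lev x) :
    FAc i e x ↔ GU e x := by
  unfold FAc GU rho
  constructor
  · rintro ⟨y, hy, h⟩
    have h1 := (H.covBy_iff.mp hy).2
    exact ⟨y, hy, by omega⟩
  · rintro ⟨y, hy, h⟩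
    have h1 := (H.covBy_iff.mp hy).2
    exact ⟨y, hy, by omega⟩

/-- On level `≤ i` an upper cover `y` of `x` has `i - lev y = i - lev x + 1`, so
`rho x ≤ rho y` means `e x < e y`. -/
theorem FAc_up (H : Gr P r) {i : ℕ} {e : P → ℕ} {x : P} (hx : lev x ≤ i) :
    FAc i e x ↔ FU e x := by
  unfold FAc FU rho
  constructor
  · rintro ⟨y, hy, h⟩
    have h1 := (H.covBy_iff.mp hy).2
    exact ⟨y, hy, by omega⟩
  · rintro ⟨y, hy, h⟩
    have h1 := (H.covBy_iff.mp hy).2
    exact ⟨y, hy, by omega⟩

/-- On level `< i` a lower cover `z` has `i - lev z = i - lev x - 1`, so `rho x < rho z` means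
`e x ≤ e z`. -/
theorem FIc_up (H : Gr P r) {i : ℕ} {e : P → ℕ} {x : P} (hx : lev x < i) :
    FIc i e x ↔ (e x < i - lev x ∨ GD e x) := by
  unfold FIc GD rho
  constructor
  · rintro (h | ⟨z, hz, h⟩)
    · exact Or.inl (by omega)
    · have h1 := (H.covBy_iff.mp hz).2
      exact Or.inr ⟨z, hz, by omega⟩
  · rintro (h | ⟨z, hz, h⟩)
    · exact Or.inl (by omega)
    · have h1 := (H.covBy_iff.mp hz).2
      exact Or.inr ⟨z, hz, by omega⟩

/-- If the upper part is admissible and `u` is an upper element all of whose lower covers have a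
smaller label then `e u ≥ i - lev u`. Induction on `i - lev u`: take a lower cover `z` (exists,
`lev u < i ≤ r`, `H.exists_below` and `H.covBy_iff`); `e z < e u`, so `FU e z`; if `lev z = i`
then `e u ≥ 1`; otherwise `¬ GD e z` by admissibility and by induction `e z ≥ i - lev z`. -/
theorem big_of_not_GD (H : Gr P r) {i : ℕ} (hi : i ≤ r) {e : P → ℕ} (hA : AdmU i e) {u : P}
    (hu : lev u < i) (h : ¬ GD e u) : i - lev u ≤ e u := by
  have key : ∀ (n : ℕ) (u : P), i - lev u = n + 1 → ¬ GD e u → n + 1 ≤ e u := by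
    intro n
    induction n with
    | zero =>
      intro u hn hg
      obtain ⟨z, hz, hz2⟩ := H.exists_below (x := u) (j := lev u + 1) (by omega) (by omega)
      have hlt : z < u := lt_of_le_of_ne hz (by rintro rfl; omega)
      have hc : z ⋖ u := H.covBy_iff.mpr ⟨hlt, hz2⟩
      have h1 : ¬ e u ≤ e z := fun h2 => hg ⟨z, hc, h2⟩
      omega
    | succ n ih =>
      intro u hn hg
      obtain ⟨z, hz, hz2⟩ := H.exists_below (x := u) (j := lev u + 1) (by omega) (by omega)
      have hlt : z < u := lt_of_le_of_ne hz (by rintro rfl; omega)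
      have hc : z ⋖ u := H.covBy_iff.mpr ⟨hlt, hz2⟩
      have h1 : ¬ e u ≤ e z := fun h2 => hg ⟨z, hc, h2⟩
      have h2 : FU e z := ⟨u, hc, by omega⟩
      have h3 : ¬ GD e z := fun h4 => hA z (by omega) ⟨h2, h4⟩
      have h4 := ih z (by omega) h3
      omega
  obtain ⟨n, hn⟩ : ∃ n, i - lev u = n + 1 := ⟨i - lev u - 1, by omega⟩
  rw [hn]
  exact key n u hn h

end Pool.Agent.GaussPoset.Win
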