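import Pool.Agent.W_448win_h16.PlC
import Pool.Agent.W_448win_h16.ClE

/-! The sum for identity (42). -/

namespace Pool.Agent.GaussPoset.Win

set_option linter.unusedSectionVars false

open Finset

universe u

variable {P : Type u} [Fintype P] [PartialOrder P] [DecidableEq P] {r : ℕ}

open Classical in
/-- elements of level `i+2` with three sites -/
noncomputable def Z3 (P : Type u) [Fintype P] [PartialOrder P] [DecidableEq P] (i : ℕ) :
    Finset P := univ.filter (fun z : P => lev z = i + 2 ∧ up i z = 3)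

open Classical in
/-- elements of level `i-2` with three sites -/
noncomputable def X3 (P : Type u) [Fintype P] [PartialOrder P] [DecidableEq P] (i : ℕ) :
    Finset P := univ.filter (fun x : P => lev x + 2 = i ∧ dn i x = 3)

open Classical in
/-- elements of `Z3` with a common site -/
noncomputable def ZV (P : Type u) [Fintype P] [PartialOrder P] [DecidableEq P] (i : ℕ) :
    Finset (P × P) := univ.filter (fun p : P × P => p.1 ∈ Z3 P i ∧ p.2 ∈ sts i p.1 ∧
      ∀ w ∈ uc p.1, p.2 ∈ uc w)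

open Classical in
/-- elements of `X3` with a common site -/
noncomputable def XV (P : Type u) [Fintype P] [PartialOrder P] [DecidableEq P] (i : ℕ) :
    Finset (P × P) := univ.filter (fun p : P × P => p.1 ∈ X3 P i ∧ p.2 ∈ stD i p.1 ∧
      ∀ u ∈ dc p.1, p.2 ∈ dc u)

open Classical in
/-- pairs in `PD × PU` with disjoint sites -/
noncomputable def CC (P : Type u) [Fintype P] [PartialOrder P] [DecidableEq P] (i : ℕ) :
    Finset (P × P) := univ.filter (fun p : P × P => p.1 ∈ PD P i ∧ p.2 ∈ PU P i ∧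
      Disjoint (sts i p.1) (stD i p.2))

open Classical in
/-- the expensive cores of energy four -/
noncomputable def S42 (P : Type u) [Fintype P] [PartialOrder P] [DecidableEq P] (i : ℕ) :
    Finset (P → ℕ) :=
  (Z3 P i).image (fun z => cl z + sg z) ∪ (ZV P i).image (fun p => cl p.1 + sg p.2) ∪
    (X3 P i).image (fun x => cu x + sg x) ∪ (XV P i).image (fun p => cu p.1 + sg p.2) ∪
    (CC P i).image (fun p => cl p.1 + cu p.2)

lemma mem_Z3 {i : ℕ} {z : P} : z ∈ Z3 P i ↔ lev z = i + 2 ∧ up i z = 3 := by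
  unfold Z3
  rw [mem_filter]
  simp

lemma mem_X3 {i : ℕ} {x : P} : x ∈ X3 P i ↔ lev x + 2 = i ∧ dn i x = 3 := by
  unfold X3
  rw [mem_filter]
  simp

lemma mem_ZV {i : ℕ} {p : P × P} : p ∈ ZV P i ↔ p.1 ∈ Z3 P i ∧ p.2 ∈ sts i p.1 ∧
    ∀ w ∈ uc p.1, p.2 ∈ uc w := by
  unfold ZV
  rw [mem_filter]
  simp

lemma mem_XV {i : ℕ} {p : P × P} : p ∈ XV P i ↔ p.1 ∈ X3 P i ∧ p.2 ∈ stD i p.1 ∧
    ∀ u ∈ dc p.1, p.2 ∈ dc u := by
  unfold XV
  rw [mem_filter]
  simp

lemma mem_CC {i : ℕ} {p : P × P} : p ∈ CC P i ↔ p.1 ∈ PD P i ∧ p.2 ∈ PU P i ∧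
    Disjoint (sts i p.1) (stD i p.2) := by
  unfold CC
  rw [mem_filter]
  simp

lemma PlD_mem_PD {i : ℕ} {z : P} : z ∈ PD P i ↔ lev z = i + 2 ∧ (uc z).card = 1 ∧
    ∃ w, z ⋖ w ∧ (uc w).card = 2 := by
  classical
  unfold PD
  rw [mem_filter]
  simp

lemma PlD_mem_PU {i : ℕ} {x : P} : x ∈ PU P i ↔ lev x + 2 = i ∧ (dc x).card = 1 ∧
    ∃ u, u ⋖ x ∧ (dc u).card = 2 := by
  classical
  unfold PU
  rw [mem_filter]
  simp

lemma PlD_cl (H : Gr P r) {i : ℕ} {z y : P} (hz : lev z = i + 2) (hy : lev y ≠ i + 1) :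
    cl z y = if y = z then 1 else 0 := by
  unfold cl
  by_cases h : y = z
  · rw [if_pos (Or.inl h), if_pos h]
  · rw [if_neg h, if_neg]
    rintro (h1 | h1)
    · exact h h1
    · have := lev_uc H h1
      omega

lemma PlD_cu (H : Gr P r) {i : ℕ} {x y : P} (hx : lev x + 2 = i) (hy : lev y + 1 ≠ i) :
    cu x y = if y = x then 1 else 0 := by
  unfold cu
  by_cases h : y = x
  · rw [if_pos (Or.inl h), if_pos h]
  · rw [if_neg h, if_neg]
    rintro (h1 | h1)
    · exact h h1
    · have := lev_dc H h1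
      omega

lemma PlD_sg (a y : P) : sg a y = if y = a then 1 else 0 := by
  unfold sg
  rw [Pi.single_apply]

/-- the sum of the labels on level `j` -/
noncomputable def PlD_L (j : ℕ) (e : P → ℕ) : ℕ := ∑ y ∈ lv P j, e y

lemma PlD_L_add (j : ℕ) (e f : P → ℕ) : PlD_L j (e + f) = PlD_L j e + PlD_L j f := by
  unfold PlD_L
  rw [← Finset.sum_add_distrib]
  rfl

lemma PlD_L_sg (j : ℕ) (a : P) : PlD_L j (sg a) = if lev a = j then 1 else 0 := by
  unfold PlD_L
  simp only [PlD_sg]
  rw [Finset.sum_ite_eq' (lv P j) a (fun _ => 1)]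
  simp only [mem_lv]

lemma PlD_L_cl (H : Gr P r) {i j : ℕ} {z : P} (hz : lev z = i + 2) (hj : j ≠ i + 1) :
    PlD_L j (cl z) = if i + 2 = j then 1 else 0 := by
  have h : PlD_L j (cl z) = PlD_L j (sg z) := by
    unfold PlD_L
    refine Finset.sum_congr rfl fun y hy => ?_
    rw [mem_lv] at hy
    rw [PlD_cl H hz (by omega), PlD_sg]
  rw [h, PlD_L_sg, hz]

lemma PlD_L_cu (H : Gr P r) {i j : ℕ} {x : P} (hx : lev x + 2 = i) (hj : j + 1 ≠ i) :
    PlD_L j (cu x) = if lev x = j then 1 else 0 := by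
  have h : PlD_L j (cu x) = PlD_L j (sg x) := by
    unfold PlD_L
    refine Finset.sum_congr rfl fun y hy => ?_
    rw [mem_lv] at hy
    rw [PlD_cu H hx (by omega), PlD_sg]
  rw [h, PlD_L_sg]

/-- The five images are disjoint and the five maps injective: `cl z + sg z` has label `2` at `z` of level `i+2`
and nothing at levels `i`, `i-2`; `cl z + sg v` has labels at most `1`, a positive label at level `i+2`
(only at `z`) and at level `i` (only at `v`), none at level `i-2`; `cu x + sg x`, `cu x + sg v` dually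
(level `i-2`, none at `i+2`); `cl z + cu x` has positive labels at `z`, `x` and none at level `i`.
`Finset.sum_union`, `Finset.sum_image`. -/
theorem sum_S42 (H : Gr P r) {i : ℕ} (f : (P → ℕ) → A) :
    ∑ e ∈ S42 P i, f e = ∑ z ∈ Z3 P i, f (cl z + sg z) + ∑ p ∈ ZV P i, f (cl p.1 + sg p.2) +
      ∑ x ∈ X3 P i, f (cu x + sg x) + ∑ p ∈ XV P i, f (cu p.1 + sg p.2) +
      ∑ p ∈ CC P i, f (cl p.1 + cu p.2) := by
  classical
  have hZ3 : ∀ z ∈ Z3 P i, lev z = i + 2 := fun z hz => (mem_Z3.1 hz).1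
  have hX3 : ∀ x ∈ X3 P i, lev x + 2 = i := fun x hx => (mem_X3.1 hx).1
  have hZV : ∀ p ∈ ZV P i, lev p.1 = i + 2 ∧ lev p.2 = i := fun p hp =>
    ⟨(mem_Z3.1 (mem_ZV.1 hp).1).1, (mem_sts.1 (mem_ZV.1 hp).2.1).1⟩
  have hXV : ∀ p ∈ XV P i, lev p.1 + 2 = i ∧ lev p.2 = i := fun p hp =>
    ⟨(mem_X3.1 (mem_XV.1 hp).1).1, (mem_stD.1 (mem_XV.1 hp).2.1).1⟩
  have hCC : ∀ p ∈ CC P i, lev p.1 = i + 2 ∧ lev p.2 + 2 = i := fun p hp =>
    ⟨(PlD_mem_PD.1 (mem_CC.1 hp).1).1, (PlD_mem_PU.1 (mem_CC.1 hp).2.1).1⟩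
  -- the level sums
  have a1 : ∀ e ∈ (Z3 P i).image (fun z => cl z + sg z), PlD_L (i + 2) e = 2 := by
    intro e he
    obtain ⟨z, hz, rfl⟩ := mem_image.1 he
    rw [PlD_L_add, PlD_L_cl H (hZ3 z hz) (by omega), PlD_L_sg, if_pos rfl, if_pos (hZ3 z hz)]
  have a2 : ∀ e ∈ (ZV P i).image (fun p => cl p.1 + sg p.2),
      PlD_L (i + 2) e = 1 ∧ PlD_L i e = 1 := by
    intro e he
    obtain ⟨p, hp, rfl⟩ := mem_image.1 he
    have h := hZV p hp
    rw [PlD_L_add, PlD_L_add, PlD_L_cl H h.1 (by omega), PlD_L_cl H h.1 (by omega), PlD_L_sg,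
      PlD_L_sg, if_pos rfl, if_neg (by omega), if_neg (by omega), if_pos h.2]
    omega
  have a3 : ∀ e ∈ (X3 P i).image (fun x => cu x + sg x),
      PlD_L (i + 2) e = 0 ∧ PlD_L i e = 0 := by
    intro e he
    obtain ⟨x, hx, rfl⟩ := mem_image.1 he
    have h := hX3 x hx
    rw [PlD_L_add, PlD_L_add, PlD_L_cu H h (by omega), PlD_L_cu H h (by omega), PlD_L_sg,
      PlD_L_sg, if_neg (by omega), if_neg (by omega)]
    omega
  have a4 : ∀ e ∈ (XV P i).image (fun p => cu p.1 + sg p.2),
      PlD_L (i + 2) e = 0 ∧ PlD_L i e = 1 := by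
    intro e he
    obtain ⟨p, hp, rfl⟩ := mem_image.1 he
    have h := hXV p hp
    rw [PlD_L_add, PlD_L_add, PlD_L_cu H h.1 (by omega), PlD_L_cu H h.1 (by omega), PlD_L_sg,
      PlD_L_sg, if_neg (by omega), if_neg (by omega), if_neg (by omega), if_pos h.2]
    omega
  have a5 : ∀ e ∈ (CC P i).image (fun p => cl p.1 + cu p.2),
      PlD_L (i + 2) e = 1 ∧ PlD_L i e = 0 := by
    intro e he
    obtain ⟨p, hp, rfl⟩ := mem_image.1 he
    have h := hCC p hp
    rw [PlD_L_add, PlD_L_add, PlD_L_cl H h.1 (by omega), PlD_L_cl H h.1 (by omega),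
      PlD_L_cu H h.2 (by omega), PlD_L_cu H h.2 (by omega), if_pos rfl, if_neg (by omega),
      if_neg (by omega), if_neg (by omega)]
    omega
  have d12 : Disjoint ((Z3 P i).image (fun z => cl z + sg z))
      ((ZV P i).image (fun p => cl p.1 + sg p.2)) := by
    rw [Finset.disjoint_left]
    intro e h1 h2
    have := a1 e h1
    have := a2 e h2
    omega
  have d3 : Disjoint ((Z3 P i).image (fun z => cl z + sg z) ∪
      (ZV P i).image (fun p => cl p.1 + sg p.2)) ((X3 P i).image (fun x => cu x + sg x)) := by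
    rw [Finset.disjoint_left]
    intro e h1 h2
    have h3 := a3 e h2
    rcases mem_union.1 h1 with h1 | h1
    · have := a1 e h1
      omega
    · have := a2 e h1
      omega
  have d4 : Disjoint ((Z3 P i).image (fun z => cl z + sg z) ∪
      (ZV P i).image (fun p => cl p.1 + sg p.2) ∪ (X3 P i).image (fun x => cu x + sg x))
      ((XV P i).image (fun p => cu p.1 + sg p.2)) := by
    rw [Finset.disjoint_left]
    intro e h1 h2
    have h3 := a4 e h2
    rcases mem_union.1 h1 with h1 | h1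
    · rcases mem_union.1 h1 with h1 | h1
      · have := a1 e h1
        omega
      · have := a2 e h1
        omega
    · have := a3 e h1
      omega
  have d5 : Disjoint ((Z3 P i).image (fun z => cl z + sg z) ∪
      (ZV P i).image (fun p => cl p.1 + sg p.2) ∪ (X3 P i).image (fun x => cu x + sg x) ∪
      (XV P i).image (fun p => cu p.1 + sg p.2)) ((CC P i).image (fun p => cl p.1 + cu p.2)) := by
    rw [Finset.disjoint_left]
    intro e h1 h2
    have h3 := a5 e h2
    rcases mem_union.1 h1 with h1 | h1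
    · rcases mem_union.1 h1 with h1 | h1
      · rcases mem_union.1 h1 with h1 | h1
        · have := a1 e h1
          omega
        · have := a2 e h1
          omega
      · have := a3 e h1
        omega
    · have := a4 e h1
      omega
  unfold S42
  rw [Finset.sum_union d5, Finset.sum_union d4, Finset.sum_union d3, Finset.sum_union d12]
  rw [Finset.sum_image, Finset.sum_image, Finset.sum_image, Finset.sum_image, Finset.sum_image]
  · -- CC
    intro p hp q hq hpq
    have h1 := hCC p hp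
    have h2 := hCC q hq
    have e1 := congrFun hpq p.1
    have e2 := congrFun hpq p.2
    simp only [Pi.add_apply] at e1 e2
    rw [PlD_cl H h1.1 (by omega), PlD_cl H h2.1 (by omega), PlD_cu H h1.2 (by omega),
      PlD_cu H h2.2 (by omega), if_pos rfl, if_neg (fun h => by rw [h] at h1; omega)] at e1
    rw [PlD_cl H h1.1 (by omega), PlD_cl H h2.1 (by omega), PlD_cu H h1.2 (by omega),
      PlD_cu H h2.2 (by omega), if_pos rfl, if_neg (fun h => by rw [h] at h1; omega),
      if_neg (fun h => by rw [← h] at h2; omega)] at e2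
    rw [if_neg (c := p.1 = q.2) (fun h => by rw [← h] at h2; omega)] at e1
    refine Prod.ext ?_ ?_
    · by_contra hne
      rw [if_neg hne] at e1
      omega
    · by_contra hne
      rw [if_neg hne] at e2
      omega
  · -- XV
    intro p hp q hq hpq
    have h1 := hXV p hp
    have h2 := hXV q hq
    have e1 := congrFun hpq p.1
    have e2 := congrFun hpq p.2
    simp only [Pi.add_apply] at e1 e2
    rw [PlD_cu H h1.1 (by omega), PlD_cu H h2.1 (by omega), PlD_sg, PlD_sg, if_pos rfl,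
      if_neg (c := p.1 = p.2) (fun h => by rw [h] at h1; omega),
      if_neg (c := p.1 = q.2) (fun h => by rw [← h] at h2; omega)] at e1
    rw [PlD_cu H h1.1 (by omega), PlD_cu H h2.1 (by omega), PlD_sg, PlD_sg, if_pos rfl,
      if_neg (c := p.2 = p.1) (fun h => by rw [← h] at h1; omega),
      if_neg (c := p.2 = q.1) (fun h => by rw [← h] at h2; omega)] at e2
    refine Prod.ext ?_ ?_
    · by_contra hne
      rw [if_neg hne] at e1
      omega
    · by_contra hne
      rw [if_neg hne] at e2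
      omega
  · -- X3
    intro z hz z' hz' hzz
    have h1 := hX3 z hz
    have h2 := hX3 z' hz'
    have e1 := congrFun hzz z
    simp only [Pi.add_apply] at e1
    rw [PlD_cu H h1 (by omega), PlD_cu H h2 (by omega), PlD_sg, PlD_sg, if_pos rfl] at e1
    by_contra hne
    rw [if_neg hne] at e1
    omega
  · -- ZV
    intro p hp q hq hpq
    have h1 := hZV p hp
    have h2 := hZV q hq
    have e1 := congrFun hpq p.1
    have e2 := congrFun hpq p.2
    simp only [Pi.add_apply] at e1 e2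
    rw [PlD_cl H h1.1 (by omega), PlD_cl H h2.1 (by omega), PlD_sg, PlD_sg, if_pos rfl,
      if_neg (c := p.1 = p.2) (fun h => by rw [h] at h1; omega),
      if_neg (c := p.1 = q.2) (fun h => by rw [← h] at h2; omega)] at e1
    rw [PlD_cl H h1.1 (by omega), PlD_cl H h2.1 (by omega), PlD_sg, PlD_sg, if_pos rfl,
      if_neg (c := p.2 = p.1) (fun h => by rw [← h] at h1; omega),
      if_neg (c := p.2 = q.1) (fun h => by rw [← h] at h2; omega)] at e2
    refine Prod.ext ?_ ?_
    · by_contra hne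
      rw [if_neg hne] at e1
      omega
    · by_contra hne
      rw [if_neg hne] at e2
      omega
  · -- Z3
    intro z hz z' hz' hzz
    have h1 := hZ3 z hz
    have h2 := hZ3 z' hz'
    have e1 := congrFun hzz z
    simp only [Pi.add_apply] at e1
    rw [PlD_cl H h1 (by omega), PlD_cl H h2 (by omega), PlD_sg, PlD_sg, if_pos rfl] at e1
    by_contra hne
    rw [if_neg hne] at e1
    omega

/-- `Fe_cl_cu`, `II_Fe`, `II_chi`: `(uc z).card = (dc x).card = 1`, `|sts| = |stD| = 2` (the sites of the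
unique upper cover, which is double), `b ≥ 4` because they are disjoint. -/
theorem trm_cl_cu (H : Gr P r) {i : ℕ} (hi : i ≤ r) {z x : P} (hz : z ∈ PD P i)
    (hx : x ∈ PU P i) (hd : Disjoint (sts i z) (stD i x)) :
    trm i (cl z + cu x) = xi * xx ^ 2 * dd ^ ((lv P i).card - 2) := by
  classical
  have hz' := PlD_mem_PD.1 hz
  have hx' := PlD_mem_PU.1 hx
  obtain ⟨w, hw1, hw2⟩ := hz'.2.2
  obtain ⟨u, hu1, hu2⟩ := hx'.2.2
  have huc : uc z = {w} := by
    obtain ⟨a, ha⟩ := Finset.card_eq_one.1 hz'.2.1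
    have h : w ∈ uc z := mem_uc.2 hw1
    rw [ha, mem_singleton] at h
    rw [ha, h]
  have hdc : dc x = {u} := by
    obtain ⟨a, ha⟩ := Finset.card_eq_one.1 hx'.2.1
    have h : u ∈ dc x := mem_dc.2 hu1
    rw [ha, mem_singleton] at h
    rw [ha, h]
  have hs : sts i z = uc w := ClE_sts H hz'.1 huc
  have ht : stD i x = dc u := ClE_stD H hx'.1 hdc
  have hs1 : sts i z ⊆ lv P i := fun v hv => mem_lv.2 (mem_sts.1 hv).1
  have ht1 : stD i x ⊆ lv P i := fun v hv => mem_lv.2 (mem_stD.1 hv).1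
  have hcard : 4 ≤ (lv P i).card := by
    have h1 := Finset.card_le_card (Finset.union_subset hs1 ht1)
    rw [Finset.card_union_of_disjoint hd, hs, ht, hw2, hu2] at h1
    omega
  have hfun : Fe i (cl z + cu x) = fun S => (xi * dd ^ 2) * chi (sts i z) (stD i x) S := by
    funext S
    rw [Fe_cl_cu H hi hz'.1 hx'.1 S, hz'.2.1, hx'.2.1, pow_one]
  rw [← II_Fe, hfun, ExpD_II_mul, II_chi hs1 ht1, if_pos hd, hs, ht, hw2, hu2]
  obtain ⟨b, hb⟩ : ∃ b, (lv P i).card = b + 4 := ⟨(lv P i).card - 4, by omega⟩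
  rw [hb, show b + 4 - 2 - 2 = b by omega, show b + 4 - 2 = b + 2 by omega]
  ring

end Pool.Agent.GaussPoset.Win
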