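import Pool.Agent.W_448win_h16.PlD

/-! Counting for identity (42). -/

namespace Pool.Agent.GaussPoset.Win

set_option linter.unusedSectionVars false

open Finset

universe u

variable {P : Type u} [Fintype P] [PartialOrder P] [DecidableEq P] {r : ℕ}

/-- Energy four, one deficit. `psi` from `good_mat`, `core_sum_set` with `K = ∅`, `n = 4`, `k = 1`, `S = S42 P i`.
Elements of `S42` are cores (`isCore_cl_add`, `isCore_cu_add`, `isCore_cl_cu`) of energy four (`(uc z).card = 2` for
`z ∈ Z3` by `up_le_four`; `1` for `PD`). Cores of energy `< 4` are in `Rk _ 1` and cores of energy `4` not in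
`S42` are in `Rk _ 1`: if not admissible `Rk_of_not_adm`; `TU = ∅`: `cls4_low` (the exceptional `cl z + sg z`,
`cl z + sg v` have energy four and are in `S42`); `TL = ∅`: `cls4_upp`; otherwise `cls4_both` (the
exceptional `cl z + cu x` has energy four and is in `S42`). The hypothesis `up i z ≤ 3` is `I32'`.
Then `sum_S42`, `trm_cl_z`, `trm_cl_v`, `trm_cu_x`, `trm_cu_v`, `trm_cl_cu`: with `b = |lv P i|` the terms
are `dd ^ (b - 2)` times `xx ^ 5`, `xx ^ 2`, `xi ^ 3`, `1`, `xi * xx ^ 2` (`b ≥ 3` if `Z3` or `X3` is not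
empty), constant coefficients `-1, 1, -1, 1, -1`; `cc_of_dvd`. -/
theorem I42_count (H : Gr P r) {i : ℕ} (hi : 1 ≤ i) (hi2 : i + 1 ≤ r) (hg : Good P i)
    (hD : (PD P i).card ≤ 1) (hU : (PU P i).card ≤ 1) :
    -((Z3 P i).card : ℤ) + (ZV P i).card - (X3 P i).card + (XV P i).card - (CC P i).card = 0 := by
  classical
  obtain ⟨psi, hM⟩ := good_mat H hg
  have h32 := I32' H hi hi2 hg
  have hir : i ≤ r := by omega
  have hZ : ∀ z ∈ Z3 P i, (uc z).card = 2 ∧ 3 ≤ (lv P i).card := by
    intro z hz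
    have h1 := mem_Z3.1 hz
    have h2 := up_le_four H h1.1
    have h3 := uc_card_le H z
    omega
  have hX : ∀ x ∈ X3 P i, (dc x).card = 2 ∧ 3 ≤ (lv P i).card := by
    intro x hx
    have h1 := mem_X3.1 hx
    have h2 := dn_le_four H hir h1.1
    have h3 := dc_card_le H x
    omega
  have hC : ∀ p ∈ CC P i, (uc p.1).card = 1 ∧ (dc p.2).card = 1 ∧ lev p.1 = i + 2 ∧
      lev p.2 + 2 = i := by
    intro p hp
    have h1 := mem_CC.1 hp
    have h2 := PlD_mem_PD.1 h1.1
    have h3 := PlD_mem_PU.1 h1.2.1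
    exact ⟨h2.2.1, h3.2.1, h2.1, h3.1⟩
  have hS : ∀ e ∈ S42 P i, IsCore i ∅ psi e ∧ ∑ x, e x = 4 := by
    intro e he
    unfold S42 at he
    rw [mem_union, mem_union, mem_union, mem_union, mem_image, mem_image, mem_image, mem_image,
      mem_image] at he
    rcases he with (((⟨z, hz, rfl⟩ | ⟨p, hp, rfl⟩) | ⟨x, hx, rfl⟩) | ⟨p, hp, rfl⟩) | ⟨p, hp, rfl⟩
    · have hz' := mem_Z3.1 hz
      refine ⟨isCore_cl_add H ∅ psi hz'.1 (fun x hx _ => ?_), ?_⟩
      · rw [PlD_sg, if_neg]
        rintro rfl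
        have := mem_near.1 hx
        omega
      · simp only [Pi.add_apply]
        rw [Finset.sum_add_distrib, sum_cl_val, sum_sg_val, (hZ z hz).1]
    · have hp' := mem_ZV.1 hp
      have hz' := mem_Z3.1 hp'.1
      have hv := (mem_sts.1 hp'.2.1).1
      refine ⟨isCore_cl_add H ∅ psi hz'.1 (fun x hx _ => ?_), ?_⟩
      · rw [PlD_sg, if_neg]
        rintro rfl
        have := mem_near.1 hx
        omega
      · simp only [Pi.add_apply]
        rw [Finset.sum_add_distrib, sum_cl_val, sum_sg_val, (hZ _ hp'.1).1]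
    · have hx' := mem_X3.1 hx
      refine ⟨isCore_cu_add H ∅ psi hx'.1 (fun y hy _ => ?_), ?_⟩
      · rw [PlD_sg, if_neg]
        rintro rfl
        have := mem_near.1 hy
        omega
      · simp only [Pi.add_apply]
        rw [Finset.sum_add_distrib, sum_cu_val, sum_sg_val, (hX x hx).1]
    · have hp' := mem_XV.1 hp
      have hx' := mem_X3.1 hp'.1
      have hv := (mem_stD.1 hp'.2.1).1
      refine ⟨isCore_cu_add H ∅ psi hx'.1 (fun y hy _ => ?_), ?_⟩
      · rw [PlD_sg, if_neg]
        rintro rfl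
        have := mem_near.1 hy
        omega
      · simp only [Pi.add_apply]
        rw [Finset.sum_add_distrib, sum_cu_val, sum_sg_val, (hX _ hp'.1).1]
    · have h := hC p hp
      refine ⟨isCore_cl_cu H ∅ psi h.2.2.1 h.2.2.2, ?_⟩
      simp only [Pi.add_apply]
      rw [Finset.sum_add_distrib, sum_cl_val, sum_cu_val, h.1, h.2.1]
  have key : ∀ e : P → ℕ, IsCore i ∅ psi e → ∑ x, e x ≤ 4 →
      Rk (lv P i) 1 (Fe i e) ∨ e ∈ S42 P i := by
    intro e hc hn
    by_cases hadm : AdmL i e ∧ AdmU i e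
    · by_cases hTU : TU i e = ∅
      · rcases cls4_low H hi hi2 hM hD h32.1 hc hn hTU with h | ⟨z, hz1, hz2, rfl⟩ |
          ⟨z, v, hz1, hz2, hv1, hv2, rfl⟩
        · exact Or.inl h
        · right
          unfold S42
          exact mem_union_left _ (mem_union_left _ (mem_union_left _ (mem_union_left _
            (mem_image.2 ⟨z, mem_Z3.2 ⟨hz1, hz2⟩, rfl⟩))))
        · right
          unfold S42
          exact mem_union_left _ (mem_union_left _ (mem_union_left _ (mem_union_right _
            (mem_image.2 ⟨(z, v), mem_ZV.2 ⟨mem_Z3.2 ⟨hz1, hz2⟩, hv1, hv2⟩, rfl⟩))))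
      · by_cases hTL : TL i e = ∅
        · rcases cls4_upp H hi hi2 hM hU h32.2 hc hn hTL with h | ⟨x, hx1, hx2, rfl⟩ |
            ⟨x, v, hx1, hx2, hv1, hv2, rfl⟩
          · exact Or.inl h
          · right
            unfold S42
            exact mem_union_left _ (mem_union_left _ (mem_union_right _
              (mem_image.2 ⟨x, mem_X3.2 ⟨hx1, hx2⟩, rfl⟩)))
          · right
            unfold S42
            exact mem_union_left _ (mem_union_right _
              (mem_image.2 ⟨(x, v), mem_XV.2 ⟨mem_X3.2 ⟨hx1, hx2⟩, hv1, hv2⟩, rfl⟩))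
        · rcases cls4_both H hi hi2 hn hTL hTU with h | ⟨z, hz, x, hx, rfl, hd⟩
          · exact Or.inl h
          · right
            unfold S42
            exact mem_union_right _ (mem_image.2 ⟨(z, x), mem_CC.2 ⟨hz, hx, hd⟩, rfl⟩)
    · exact Or.inl (Rk_of_not_adm hadm 1)
  have hsum := core_sum_set H hi hi2 hM 4 1
    (fun e hc hn => by
      rcases key e hc hn.le with h | h
      · exact h
      · have := (hS e h).2
        omega)
    (S42 P i) hS
    (fun e hc hn hne => by
      rcases key e hc hn.le with h | h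
      · exact h
      · exact absurd h hne)
  rw [sum_S42 H] at hsum
  rcases Finset.eq_empty_or_nonempty (Z3 P i) with hZ0 | hZ0
  rcases Finset.eq_empty_or_nonempty (X3 P i) with hX0 | hX0
  rcases Finset.eq_empty_or_nonempty (CC P i) with hC0 | hC0
  · have h1 : ZV P i = ∅ := by
      rw [Finset.eq_empty_iff_forall_notMem]
      intro p hp
      have h := (mem_ZV.1 hp).1
      rw [hZ0] at h
      exact Finset.notMem_empty _ h
    have h2 : XV P i = ∅ := by
      rw [Finset.eq_empty_iff_forall_notMem]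
      intro p hp
      have h := (mem_XV.1 hp).1
      rw [hX0] at h
      exact Finset.notMem_empty _ h
    rw [hZ0, hX0, hC0, h1, h2]
    simp
  all_goals
    have hb : 3 ≤ (lv P i).card := by
      first
        | exact (hZ _ hZ0.choose_spec).2
        | exact (hX _ hX0.choose_spec).2
        | (have h := mem_CC.1 hC0.choose_spec
           have h1 := PlD_mem_PD.1 h.1
           have h2 := PlD_mem_PU.1 h.2.1
           obtain ⟨w, hw1, hw2⟩ := h1.2.2
           obtain ⟨u, hu1, hu2⟩ := h2.2.2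
           have huc : uc hC0.choose.1 = {w} := by
             obtain ⟨a, ha⟩ := Finset.card_eq_one.1 h1.2.1
             have h3 : w ∈ uc hC0.choose.1 := mem_uc.2 hw1
             rw [ha, mem_singleton] at h3
             rw [ha, h3]
           have hdc : dc hC0.choose.2 = {u} := by
             obtain ⟨a, ha⟩ := Finset.card_eq_one.1 h2.2.1
             have h3 : u ∈ dc hC0.choose.2 := mem_dc.2 hu1
             rw [ha, mem_singleton] at h3
             rw [ha, h3]
           have hs : sts i hC0.choose.1 = uc w := ClE_sts H h1.1 huc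
           have ht : stD i hC0.choose.2 = dc u := ClE_stD H h2.1 hdc
           have hs1 : sts i hC0.choose.1 ⊆ lv P i := fun v hv => mem_lv.2 (mem_sts.1 hv).1
           have ht1 : stD i hC0.choose.2 ⊆ lv P i := fun v hv => mem_lv.2 (mem_stD.1 hv).1
           have h4 := Finset.card_le_card (Finset.union_subset hs1 ht1)
           rw [Finset.card_union_of_disjoint h.2.2, hs, ht, hw2, hu2] at h4
           omega)
    obtain ⟨b, hbdef⟩ : ∃ b, (lv P i).card = b + 2 := ⟨(lv P i).card - 2, by omega⟩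
    have e1 : ∑ z ∈ Z3 P i, trm i (cl z + sg z) = ∑ z ∈ Z3 P i, (dd ^ b * xx ^ 5) := by
      refine Finset.sum_congr rfl fun z hz => ?_
      rw [trm_cl_z H hir (mem_Z3.1 hz).1, (mem_Z3.1 hz).2, (hZ z hz).1,
        show 1 + ((lv P i).card - 3) = b by omega, mul_comm]
    have e2 : ∑ p ∈ ZV P i, trm i (cl p.1 + sg p.2) = ∑ p ∈ ZV P i, (dd ^ b * xx ^ 2) := by
      refine Finset.sum_congr rfl fun p hp => ?_
      have hp' := mem_ZV.1 hp
      rw [trm_cl_v H hir (mem_Z3.1 hp'.1).1 (mem_sts.1 hp'.2.1).1 (mem_sts.1 hp'.2.1).2 hp'.2.2,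
        (mem_Z3.1 hp'.1).2, show 3 - 1 = 2 by omega,
        show (lv P i).card - 2 = b by omega, mul_comm]
    have e3 : ∑ x ∈ X3 P i, trm i (cu x + sg x) = ∑ x ∈ X3 P i, (dd ^ b * xi ^ 3) := by
      refine Finset.sum_congr rfl fun x hx => ?_
      rw [trm_cu_x H hir (mem_X3.1 hx).1, (mem_X3.1 hx).2, (hX x hx).1,
        show 1 + ((lv P i).card - 3) = b by omega, show 2 + 1 = 3 by omega, mul_comm]
    have e4 : ∑ p ∈ XV P i, trm i (cu p.1 + sg p.2) = ∑ p ∈ XV P i, (dd ^ b * 1) := by
      refine Finset.sum_congr rfl fun p hp => ?_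
      have hp' := mem_XV.1 hp
      rw [trm_cu_v H hir (mem_X3.1 hp'.1).1 (mem_stD.1 hp'.2.1).1 (mem_stD.1 hp'.2.1).2 hp'.2.2,
        (mem_X3.1 hp'.1).2, show 3 - 1 = 2 by omega,
        show (lv P i).card - 2 = b by omega, mul_one]
    have e5 : ∑ p ∈ CC P i, trm i (cl p.1 + cu p.2) = ∑ p ∈ CC P i, (dd ^ b * (xi * xx ^ 2)) := by
      refine Finset.sum_congr rfl fun p hp => ?_
      have hp' := mem_CC.1 hp
      rw [trm_cl_cu H hir hp'.1 hp'.2.1 hp'.2.2, show (lv P i).card - 2 = b by omega, mul_comm]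
    rw [e1, e2, e3, e4, e5, Finset.sum_const, Finset.sum_const, Finset.sum_const,
      Finset.sum_const, Finset.sum_const, nsmul_eq_mul, nsmul_eq_mul, nsmul_eq_mul,
      nsmul_eq_mul, nsmul_eq_mul, hbdef, show b + 2 - 1 = b + 1 by omega,
      show ((Z3 P i).card : A) * (dd ^ b * xx ^ 5) + ((ZV P i).card : A) * (dd ^ b * xx ^ 2) +
        ((X3 P i).card : A) * (dd ^ b * xi ^ 3) + ((XV P i).card : A) * (dd ^ b * 1) +
        ((CC P i).card : A) * (dd ^ b * (xi * xx ^ 2)) =
        dd ^ b * (((Z3 P i).card : A) * xx ^ 5 + ((ZV P i).card : A) * xx ^ 2 +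
        ((X3 P i).card : A) * xi ^ 3 + ((XV P i).card : A) +
        ((CC P i).card : A) * (xi * xx ^ 2)) by ring] at hsum
    have h5 := cc_of_dvd hsum
    simp only [map_add, map_mul, map_pow, map_natCast, cc_xx, cc_xi] at h5
    norm_num at h5
    linarith

/-- A `z` with three sites has at most one common site: if `v ≠ v'` are both above both upper covers
`w ≠ w'` (`(uc z).card = 2` by `up_le_four`) then `uc w = uc w' = {v, v'}` and `up i z = 2`
(`mem_sts_iff`). So the first projection is injective on `ZV` with image in `Z3`. -/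
theorem card_ZV_le (H : Gr P r) {i : ℕ} : (ZV P i).card ≤ (Z3 P i).card ∧
    ((ZV P i).card = (Z3 P i).card → ∀ z ∈ Z3 P i, ∃ v, (z, v) ∈ ZV P i) := by
  classical
  have hinj : Set.InjOn (fun p : P × P => p.1) (ZV P i : Set (P × P)) := by
    intro p hp q hq hpq
    have hp' := mem_ZV.1 (Finset.mem_coe.1 hp)
    have hq' := mem_ZV.1 (Finset.mem_coe.1 hq)
    have h1 : p.1 = q.1 := hpq
    refine Prod.ext h1 ?_
    by_contra hne
    have hz := mem_Z3.1 hp'.1
    have hsub : sts i p.1 ⊆ {p.2, q.2} := by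
      intro v hv
      obtain ⟨w, hw, hvw⟩ := (mem_sts_iff H hz.1).1 hv
      have h2 := hp'.2.2 w hw
      have h3 := hq'.2.2 w (h1 ▸ hw)
      have h4 : ({p.2, q.2} : Finset P) ⊆ uc w := by
        intro x hx
        rw [mem_insert, mem_singleton] at hx
        rcases hx with rfl | rfl
        · exact h2
        · exact h3
      have h5 : ({p.2, q.2} : Finset P) = uc w :=
        Finset.eq_of_subset_of_card_le h4 (by rw [Finset.card_pair hne]; exact uc_card_le H w)
      rw [h5]
      exact hvw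
    have h6 := Finset.card_le_card hsub
    rw [card_sts, hz.2, Finset.card_pair hne] at h6
    omega
  have hmap : ∀ p ∈ ZV P i, p.1 ∈ Z3 P i := fun p hp => (mem_ZV.1 hp).1
  have himg : (ZV P i).image (fun p => p.1) ⊆ Z3 P i := by
    intro z hz
    obtain ⟨p, hp, rfl⟩ := mem_image.1 hz
    exact hmap p hp
  have hcard : ((ZV P i).image (fun p => p.1)).card = (ZV P i).card :=
    Finset.card_image_of_injOn hinj
  refine ⟨hcard ▸ Finset.card_le_card himg, fun heq z hz => ?_⟩
  have h7 : (ZV P i).image (fun p => p.1) = Z3 P i :=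
    Finset.eq_of_subset_of_card_le himg (by rw [hcard, heq])
  rw [← h7] at hz
  obtain ⟨p, hp, rfl⟩ := mem_image.1 hz
  exact ⟨p.2, hp⟩

/-- mirror image of `card_ZV_le` -/
theorem card_XV_le (H : Gr P r) {i : ℕ} (hi : i ≤ r) : (XV P i).card ≤ (X3 P i).card ∧
    ((XV P i).card = (X3 P i).card → ∀ x ∈ X3 P i, ∃ v, (x, v) ∈ XV P i) := by
  classical
  have hinj : Set.InjOn (fun p : P × P => p.1) (XV P i : Set (P × P)) := by
    intro p hp q hq hpq
    have hp' := mem_XV.1 (Finset.mem_coe.1 hp)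
    have hq' := mem_XV.1 (Finset.mem_coe.1 hq)
    have h1 : p.1 = q.1 := hpq
    refine Prod.ext h1 ?_
    by_contra hne
    have hz := mem_X3.1 hp'.1
    have hsub : stD i p.1 ⊆ {p.2, q.2} := by
      intro v hv
      obtain ⟨w, hw, hvw⟩ := (mem_stD_iff H hz.1).1 hv
      have h2 := hp'.2.2 w hw
      have h3 := hq'.2.2 w (h1 ▸ hw)
      have h4 : ({p.2, q.2} : Finset P) ⊆ dc w := by
        intro x hx
        rw [mem_insert, mem_singleton] at hx
        rcases hx with rfl | rfl
        · exact h2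
        · exact h3
      have h5 : ({p.2, q.2} : Finset P) = dc w :=
        Finset.eq_of_subset_of_card_le h4 (by rw [Finset.card_pair hne]; exact dc_card_le H w)
      rw [h5]
      exact hvw
    have h6 := Finset.card_le_card hsub
    rw [card_stD, hz.2, Finset.card_pair hne] at h6
    omega
  have hmap : ∀ p ∈ XV P i, p.1 ∈ X3 P i := fun p hp => (mem_XV.1 hp).1
  have himg : (XV P i).image (fun p => p.1) ⊆ X3 P i := by
    intro z hz
    obtain ⟨p, hp, rfl⟩ := mem_image.1 hz
    exact hmap p hp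
  have hcard : ((XV P i).image (fun p => p.1)).card = (XV P i).card :=
    Finset.card_image_of_injOn hinj
  refine ⟨hcard ▸ Finset.card_le_card himg, fun heq z hz => ?_⟩
  have h7 : (XV P i).image (fun p => p.1) = X3 P i :=
    Finset.eq_of_subset_of_card_le himg (by rw [hcard, heq])
  rw [← h7] at hz
  obtain ⟨p, hp, rfl⟩ := mem_image.1 hz
  exact ⟨p.2, hp⟩

end Pool.Agent.GaussPoset.Win
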