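import Pool.Agent.W_448win_h16.Defs

/-! Functions with few deficits. -/

namespace Pool.Agent.GaussPoset.Win

set_option linter.unusedSectionVars false

open Finset

universe u

variable {P : Type u} [Fintype P] [PartialOrder P] [DecidableEq P] {r : ℕ}

/-- zero -/
lemma Rk_zero (V : Finset P) (k : ℕ) : Rk V k (fun _ => 0) := by
  refine ⟨fun _ => 0, fun T _ => dvd_zero _, fun S _ => ?_⟩
  rw [Finset.sum_const_zero]

/-- constants: `c ∅ = a`, other coefficients `0` -/
lemma Rk_const (V : Finset P) (k : ℕ) (a : A) : Rk V k (fun _ => a) := by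
  refine ⟨fun T => if T = ∅ then a else 0, fun T _ => ?_, fun S _ => ?_⟩
  · beta_reduce
    by_cases h : T = ∅
    · rw [if_pos h, h, Finset.card_empty, Nat.zero_sub, pow_zero]
      exact one_dvd _
    · rw [if_neg h]
      exact dvd_zero _
  · rw [Finset.sum_ite_eq' S.powerset ∅ (fun _ => a), if_pos (Finset.empty_mem_powerset S)]

/-- sums: add the coefficients -/
lemma Rk_add {V : Finset P} {k : ℕ} {f g : Finset P → A} (hf : Rk V k f) (hg : Rk V k g) :
    Rk V k (fun S => f S + g S) := by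
  obtain ⟨c, hc1, hc2⟩ := hf
  obtain ⟨d, hd1, hd2⟩ := hg
  refine ⟨fun T => c T + d T, fun T hT => dvd_add (hc1 T hT) (hd1 T hT), fun S hS => ?_⟩
  rw [Finset.sum_add_distrib, ← hc2 S hS, ← hd2 S hS]

/-- finite sums, by induction from `Rk_zero`, `Rk_add` -/
lemma Rk_sum {ι : Type*} {V : Finset P} {k : ℕ} (s : Finset ι) {f : ι → Finset P → A}
    (hf : ∀ x ∈ s, Rk V k (f x)) : Rk V k (fun S => ∑ x ∈ s, f x S) := by
  classical
  induction s using Finset.induction_on with
  | empty => simpa using Rk_zero V k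
  | insert a s ha ih =>
    have h1 := Rk_add (hf a (Finset.mem_insert_self a s))
      (ih fun x hx => hf x (Finset.mem_insert_of_mem hx))
    have h2 : (fun S => ∑ x ∈ insert a s, f x S) = fun S => f a S + ∑ x ∈ s, f x S := by
      funext S
      rw [Finset.sum_insert ha]
    rw [h2]
    exact h1

/-- `T.card - l ≤ T.card - k` -/
lemma Rk_mono {V : Finset P} {k l : ℕ} (h : k ≤ l) {f : Finset P → A} (hf : Rk V k f) :
    Rk V l f := by
  obtain ⟨c, hc1, hc2⟩ := hf
  exact ⟨c, fun T hT => (pow_dvd_pow dd (Nat.sub_le_sub_left h _)).trans (hc1 T hT), hc2⟩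

/-- only the values on subsets of `V` matter -/
lemma Rk_congr {V : Finset P} {k : ℕ} {f g : Finset P → A} (h : ∀ S, S ⊆ V → f S = g S)
    (hf : Rk V k f) : Rk V k g := by
  obtain ⟨c, hc1, hc2⟩ := hf
  exact ⟨c, hc1, fun S hS => by rw [← h S hS, hc2 S hS]⟩

end Pool.Agent.GaussPoset.Win
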