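import Pool.Agent.W_448win_h16.BaA
import Pool.Agent.W_448win_h16.FactA
import Pool.Agent.W_448rot_h96.Top

/-! Covers in coordinates. -/

namespace Pool.Agent.GaussPoset.Win

set_option linter.unusedSectionVars false

open Finset

universe u

variable {P : Type u} [Fintype P] [PartialOrder P] [DecidableEq P] {r : ℕ}

lemma ShpA_succ {t : Option ℕ} {i c : ℕ} (h : Rg t i c) : Rg t i (c + 1) := by
  cases t with
  | none => exact Nat.le_succ_of_le h
  | some n => exact h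

lemma ShpA_pred {t : Option ℕ} {i c : ℕ} (h : Rg t i c) : Rg t (i - 1) c := by
  cases t with
  | none =>
    have h' : i ≤ c := h
    show i - 1 ≤ c
    omega
  | some n =>
    have h' : i < n := h
    show i - 1 < n
    omega

lemma ShpA_lt (H : Gr P r) {x y : P} (h : x ≤ y) (hl : lev x = lev y + 1) : x ⋖ y := by
  refine H.covBy_iff.2 ⟨lt_of_le_of_ne h ?_, hl⟩
  intro he
  rw [he] at hl
  omega

/-- smaller range -/
lemma Crd.mono {t : Option ℕ} {l l' : ℕ} {e : ℕ → ℕ → P} (h : Crd t l e) (hl : l' ≤ l) :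
    Crd t l' e := by
  refine ⟨fun i c h1 h2 => h.lev_e i c h1 (h2.trans hl),
    fun i c i' c' h1 h2 h3 h4 => h.le_iff i c i' c' h1 (h2.trans hl) h3 (h4.trans hl),
    fun z hz => ?_⟩
  obtain ⟨i, c, h1, h2, h3⟩ := h.surj z (hz.trans hl)
  have h4 := h.lev_e i c h1 h2
  rw [h3] at h4
  exact ⟨i, c, h1, h4 ▸ hz, h3⟩

/-- Lower covers in coordinates: `w ⋖ e i c` has level `i + c + 1 ≤ l` (`H.covBy_iff`), so
`w = e i' c'` with `i' + c' = i + c + 1`, `i ≤ i'`, `c ≤ c'`. -/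
lemma Crd.dcov (H : Gr P r) {t : Option ℕ} {l : ℕ} {e : ℕ → ℕ → P} (h : Crd t l e) {i c : ℕ}
    (h1 : Rg t i c) (h2 : i + c + 1 ≤ l) (w : P) :
    w ⋖ e i c ↔ w = e i (c + 1) ∨ (Rg t (i + 1) c ∧ w = e (i + 1) c) := by
  have hlev := h.lev_e i c h1 (by omega)
  constructor
  · intro hw
    obtain ⟨h3, h4⟩ := H.covBy_iff.1 hw
    rw [hlev] at h4
    obtain ⟨i', c', h5, h6, h7⟩ := h.surj w (by omega)
    have h8 := h.lev_e i' c' h5 h6
    rw [h7, h4] at h8
    have h9 := (h.le_iff i' c' i c h5 h6 h1 (by omega)).1 (h7 ▸ h3.le)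
    rcases Nat.eq_or_lt_of_le h9.1 with h10 | h10
    · left
      have h11 : c' = c + 1 := by omega
      rw [← h7, h11, h10]
    · right
      have h11 : i' = i + 1 := by omega
      have h12 : c' = c := by omega
      rw [h11, h12] at h5 h7
      exact ⟨h5, h7.symm⟩
  · rintro (rfl | ⟨h3, rfl⟩)
    · have h4 := ShpA_succ h1
      refine ShpA_lt H ((h.le_iff _ _ _ _ h4 (by omega) h1 (by omega)).2 ⟨le_rfl, by omega⟩) ?_
      rw [hlev, h.lev_e _ _ h4 (by omega)]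
      omega
    · refine ShpA_lt H ((h.le_iff _ _ _ _ h3 (by omega) h1 (by omega)).2 ⟨by omega, le_rfl⟩) ?_
      rw [hlev, h.lev_e _ _ h3 (by omega)]
      omega

/-- Upper covers in coordinates: `e i c ⋖ w` has `lev w + 1 = i + c`, so `w = e i' c'` with
`i' + c' + 1 = i + c`, `i' ≤ i`, `c' ≤ c`. -/
lemma Crd.ucov (H : Gr P r) {t : Option ℕ} {l : ℕ} {e : ℕ → ℕ → P} (h : Crd t l e) {i c : ℕ}
    (h1 : Rg t i c) (h2 : i + c ≤ l) (w : P) :
    e i c ⋖ w ↔ (1 ≤ i ∧ w = e (i - 1) c) ∨ (1 ≤ c ∧ Rg t i (c - 1) ∧ w = e i (c - 1)) := by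
  have hlev := h.lev_e i c h1 h2
  constructor
  · intro hw
    obtain ⟨h3, h4⟩ := H.covBy_iff.1 hw
    rw [hlev] at h4
    obtain ⟨i', c', h5, h6, h7⟩ := h.surj w (by omega)
    have h8 := h.lev_e i' c' h5 h6
    rw [h7] at h8
    have h9 := (h.le_iff i c i' c' h1 h2 h5 h6).1 (h7 ▸ h3.le)
    rcases Nat.eq_or_lt_of_le h9.1 with h10 | h10
    · right
      have h11 : c' = c - 1 := by omega
      rw [h11, h10] at h5 h7
      exact ⟨by omega, h5, h7.symm⟩
    · left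
      have h11 : i' = i - 1 := by omega
      have h12 : c' = c := by omega
      rw [h11, h12] at h7
      exact ⟨by omega, h7.symm⟩
  · rintro (⟨h3, rfl⟩ | ⟨h3, h4, rfl⟩)
    · have h4 := ShpA_pred h1
      refine ShpA_lt H ((h.le_iff _ _ _ _ h1 h2 h4 (by omega)).2 ⟨by omega, le_rfl⟩) ?_
      rw [hlev, h.lev_e _ _ h4 (by omega)]
      omega
    · refine ShpA_lt H ((h.le_iff _ _ _ _ h1 h2 h4 (by omega)).2 ⟨le_rfl, by omega⟩) ?_
      rw [hlev, h.lev_e _ _ h4 (by omega)]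
      omega

end Pool.Agent.GaussPoset.Win
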