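import Pool.Agent.W_448win_h16.ShpA

/-! Levels as rows. -/

namespace Pool.Agent.GaussPoset.Win

set_option linter.unusedSectionVars false

open Finset

universe u

variable {P : Type u} [Fintype P] [PartialOrder P] [DecidableEq P] {r : ℕ}

/-- the elements of level `l` are the `e i (l - i)` with `i ≤ mm t l` -/
lemma Crd.mm_iff {t : Option ℕ} (h0 : Rg t 0 0) {l i : ℕ} : i ≤ mm t l ↔ i ≤ l ∧ Rg t i (l - i) := by
  cases t with
  | some n =>
    have h1 : 0 < n := h0
    show i ≤ min (n - 1) l ↔ i ≤ l ∧ i < n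
    omega
  | none =>
    show i ≤ l / 2 ↔ i ≤ l ∧ i ≤ l - i
    omega

lemma ShpB_Rg {t : Option ℕ} {i c i' c' : ℕ} (h : Rg t i c) (hi : i' ≤ i) (hc : c ≤ c') :
    Rg t i' c' := by
  cases t with
  | some n =>
    have h1 : i < n := h
    show i' < n
    omega
  | none =>
    have h1 : i ≤ c := h
    show i' ≤ c'
    omega

lemma ShpB_Rg' {t : Option ℕ} {i l : ℕ} (h : Rg t (i + 1) (l - (i + 1))) (hi : i + 1 ≤ l) :
    Rg t i (l - i - 1) := by
  cases t with
  | some n =>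
    have h1 : i + 1 < n := h
    show i < n
    omega
  | none =>
    have h1 : i + 1 ≤ l - (i + 1) := h
    show i ≤ l - i - 1
    omega

lemma ShpB_ucv_comm (v v' : P) : ucv v v' = ucv v' v := by
  classical
  unfold ucv
  congr 1
  ext y
  simp only [mem_filter, mem_univ, true_and]
  exact and_comm

lemma ShpB_lt (H : Gr P r) {t : Option ℕ} {l : ℕ} {e : ℕ → ℕ → P} (h0 : Rg t 0 0)
    (h : Crd t l e) {i i' : ℕ} (hi : i ≤ mm t l) (hi' : i' ≤ mm t l) (hlt : i < i') :
    ucv (e i (l - i)) (e i' (l - i')) = if i + 1 = i' ∨ i' + 1 = i then 1 else 0 := by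
  classical
  obtain ⟨a1, a2⟩ := (Crd.mm_iff h0).mp hi
  obtain ⟨b1, b2⟩ := (Crd.mm_iff h0).mp hi'
  have key : ∀ y : P, (e i (l - i) ⋖ y ∧ e i' (l - i') ⋖ y) ↔ (i + 1 = i' ∧ y = e i (l - i - 1)) := by
    intro y
    rw [h.ucov H a2 (by omega), h.ucov H b2 (by omega)]
    constructor
    · rintro ⟨⟨c1, c2⟩ | ⟨c1, c2, c3⟩, ⟨d1, d2⟩ | ⟨d1, d2, d3⟩⟩
      · have := h.inj (ShpB_Rg a2 (Nat.sub_le i 1) le_rfl) (by omega)
          (ShpB_Rg b2 (Nat.sub_le i' 1) le_rfl) (by omega) (c2.symm.trans d2)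
        omega
      · have := h.inj (ShpB_Rg a2 (Nat.sub_le i 1) le_rfl) (by omega) d2 (by omega)
          (c2.symm.trans d3)
        omega
      · have := h.inj c2 (by omega) (ShpB_Rg b2 (Nat.sub_le i' 1) le_rfl) (by omega)
          (c3.symm.trans d2)
        exact ⟨by omega, c3⟩
      · have := h.inj c2 (by omega) d2 (by omega) (c3.symm.trans d3)
        omega
    · rintro ⟨rfl, rfl⟩
      refine ⟨Or.inr ⟨by omega, ShpB_Rg' b2 b1, rfl⟩, Or.inl ⟨by omega, ?_⟩⟩
      rw [Nat.add_sub_cancel, Nat.sub_sub]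
  unfold ucv
  by_cases hc : i + 1 = i'
  · rw [if_pos (Or.inl hc)]
    rw [Finset.card_eq_one]
    refine ⟨e i (l - i - 1), ?_⟩
    ext y
    rw [mem_filter, mem_singleton, key]
    constructor
    · rintro ⟨-, -, h1⟩
      exact h1
    · intro h1
      exact ⟨mem_univ _, hc, h1⟩
  · rw [if_neg (by omega)]
    rw [Finset.card_eq_zero, Finset.filter_eq_empty_iff]
    intro y _
    rw [key]
    rintro ⟨h1, -⟩
    exact hc h1

/-- Level `l` of a poset with coordinates is a row. `lev_x`, `surj`: from `Crd.lev_e`, `Crd.surj`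
and `Crd.mm_iff`; `inj`: `Crd.inj`. `ucv_x`: by `Crd.ucov` the upper covers of `e i (l-i)` are
`e (i-1) (l-i)` and `e i (l-i-1)`; for `i < i'` the only coincidence (by `Crd.inj`) is
`e i (l-i-1) = e (i'-1) (l-i')` for `i' = i + 1`; in this case `(i, l-i-1)` is in the region. -/
theorem Crd.row (H : Gr P r) {t : Option ℕ} {l : ℕ} {e : ℕ → ℕ → P} (h0 : Rg t 0 0) (hl : 1 ≤ l)
    (h : Crd t l e) : Row l (mm t l) e := by
  refine ⟨fun i hi => ?_, fun i hi i' hi' he => ?_, fun v hv => ?_, fun i hi i' hi' hne => ?_⟩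
  · obtain ⟨a1, a2⟩ := (Crd.mm_iff h0).mp hi
    rw [h.lev_e i (l - i) a2 (by omega)]
    omega
  · obtain ⟨a1, a2⟩ := (Crd.mm_iff h0).mp hi
    obtain ⟨b1, b2⟩ := (Crd.mm_iff h0).mp hi'
    exact (h.inj a2 (by omega) b2 (by omega) he).1
  · obtain ⟨i, c, h1, h2, h3⟩ := h.surj v hv.le
    have h4 := h.lev_e i c h1 h2
    rw [h3, hv] at h4
    have h5 : c = l - i := by omega
    refine ⟨i, (Crd.mm_iff h0).mpr ⟨by omega, ?_⟩, ?_⟩
    · rw [← h5]; exact h1
    · rw [← h5]; exact h3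
  · rcases Nat.lt_or_gt_of_ne hne with hlt | hlt
    · exact ShpB_lt H h0 h hi hi' hlt
    · rw [ShpB_ucv_comm, ShpB_lt H h0 h hi' hi hlt]
      refine if_congr ?_ rfl rfl
      omega

/-- the number of elements of a row: `i ↦ e i (l - i)` is a bijection from `range (m+1)` -/
theorem Row.card {l m : ℕ} {e : ℕ → ℕ → P} (h : Row l m e) : (lv P l).card = m + 1 := by
  rw [← Finset.card_range (m + 1)]
  symm
  refine Finset.card_bij (fun i _ => e i (l - i)) ?_ ?_ ?_
  · intro i hi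
    rw [Finset.mem_range] at hi
    rw [mem_lv]
    exact h.lev_x i (by omega)
  · intro i hi i' hi' he
    rw [Finset.mem_range] at hi hi'
    exact h.inj i (by omega) i' (by omega) he
  · intro v hv
    rw [mem_lv] at hv
    obtain ⟨i, hi, he⟩ := h.surj v hv
    exact ⟨i, Finset.mem_range.mpr (by omega), he⟩

end Pool.Agent.GaussPoset.Win
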