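import Pool.Agent.W_448win_h16.ShpB

/-! One more level. -/

namespace Pool.Agent.GaussPoset.Win

set_option linter.unusedSectionVars false

open Finset

universe u

variable {P : Type u} [Fintype P] [PartialOrder P] [DecidableEq P] {r : ℕ}

/-- New coordinates for one more level: `g i` are the elements of level `l + 1`, `g i` is below
`e i' (l - i')` iff `i' = i` or `i' + 1 = i`. Comparisons `g i ≤ e i' c'` with `i' + c' ≤ l`: by
`GaussRot.between` there is `v` of level `l` with `g i ≤ v ≤ e i' c'`, `v = e a (l-a)`, `a = i` or
`a + 1 = i`; conversely if `i' ≤ i`, `c' ≤ l + 1 - i` take `a = i - 1` if `i' < i` and `a = i` if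
`i' = i` (then `(i, l-i)` is in the region because `(i', c')` is and `c' ≤ l - i`). Elements of
different levels: `e i c ≤ g i'` is impossible by levels; `g i ≤ g i'` means equality by levels and
`hinj`. -/
theorem Crd.extend (H : Gr P r) {t t' : Option ℕ} {l : ℕ} {e : ℕ → ℕ → P} (h : Crd t l e)
    (h0 : Rg t 0 0) (ht : ∀ i c, i + c ≤ l → (Rg t' i c ↔ Rg t i c)) (g : ℕ → P)
    (hlev : ∀ i c, Rg t' i c → i + c = l + 1 → lev (g i) = l + 1)
    (hlt : ∀ i c, Rg t' i c → i + c = l + 1 → ∀ i' ≤ mm t l,
      (g i < e i' (l - i') ↔ i' = i ∨ i' + 1 = i))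
    (hinj : ∀ i c i' c', Rg t' i c → i + c = l + 1 → Rg t' i' c' → i' + c' = l + 1 →
      g i = g i' → i = i')
    (hsurj : ∀ z : P, lev z = l + 1 → ∃ i c, Rg t' i c ∧ i + c = l + 1 ∧ g i = z) :
    Crd t' (l + 1) (fun i c => if i + c ≤ l then e i c else g i) := by
  have hanti : StrictAnti (lev : P → ℕ) := lev_strictAnti
  have le_lev : ∀ {x y : P}, x ≤ y → lev y ≤ lev x := fun {x y} hxy => hanti.antitone hxy
  have eq_of : ∀ {x y : P}, x ≤ y → lev x = lev y → x = y := by
    intro x y hxy hl
    by_contra hne
    have := hanti (lt_of_le_of_ne hxy hne)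
    omega
  refine ⟨fun i c h1 h2 => ?_, fun i c i' c' h1 h2 h3 h4 => ?_, fun z hz => ?_⟩
  · by_cases hic : i + c ≤ l
    · simp only [if_pos hic]
      exact h.lev_e i c ((ht i c hic).mp h1) hic
    · simp only [if_neg hic]
      rw [hlev i c h1 (by omega)]
      omega
  · by_cases hic : i + c ≤ l
    · by_cases hic' : i' + c' ≤ l
      · simp only [if_pos hic, if_pos hic']
        exact h.le_iff i c i' c' ((ht i c hic).mp h1) hic ((ht i' c' hic').mp h3) hic'
      · simp only [if_pos hic, if_neg hic']
        constructor
        · intro hle
          have h5 := le_lev hle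
          rw [hlev i' c' h3 (by omega), h.lev_e i c ((ht i c hic).mp h1) hic] at h5
          omega
        · rintro ⟨h5, h6⟩
          omega
    · have hic1 : i + c = l + 1 := by omega
      by_cases hic' : i' + c' ≤ l
      · simp only [if_neg hic, if_pos hic']
        have hR' : Rg t i' c' := (ht i' c' hic').mp h3
        constructor
        · intro hle
          obtain ⟨v, hv1, hv2, hv3⟩ := GaussRot.between H.gauss hle (l := l)
            (by rw [h.lev_e i' c' hR' hic']; exact hic')
            (by rw [hlev i c h1 hic1]; omega)
          obtain ⟨a, b, hab, hab2, hab3⟩ := h.surj v (le_of_eq hv3)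
          have hlv := h.lev_e a b hab hab2
          rw [hab3, hv3] at hlv
          have hb : b = l - a := by omega
          subst hb
          have hlt' : g i < e a (l - a) := by
            rw [hab3]
            refine lt_of_le_of_ne hv1 fun hh => ?_
            have h7 := hlev i c h1 hic1
            rw [hh] at h7
            omega
          have h8 := (hlt i c h1 hic1 a ((Crd.mm_iff h0).mpr ⟨by omega, hab⟩)).mp hlt'
          rw [← hab3] at hv2
          have h9 := (h.le_iff a (l - a) i' c' hab hab2 hR' hic').mp hv2
          omega
        · rintro ⟨h5, h6⟩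
          rcases Nat.lt_or_ge i' i with h7 | h7
          · have hR1 : Rg t' (i - 1) c := by
              cases t' with
              | none => exact le_trans (Nat.sub_le _ _) (show i ≤ c from h1)
              | some n => exact lt_of_le_of_lt (Nat.sub_le _ _) (show i < n from h1)
            have hl1 : i - 1 + c ≤ l := by omega
            have hR2 : Rg t (i - 1) c := (ht _ _ hl1).mp hR1
            have hc : c = l - (i - 1) := by omega
            have h8 : g i < e (i - 1) (l - (i - 1)) :=
              (hlt i c h1 hic1 (i - 1) ((Crd.mm_iff h0).mpr ⟨by omega, by rwa [← hc]⟩)).mpr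
                (Or.inr (by omega))
            rw [← hc] at h8
            exact le_trans h8.le ((h.le_iff (i - 1) c i' c' hR2 hl1 hR' hic').mpr
              ⟨by omega, h6⟩)
          · have hii : i' = i := by omega
            subst hii
            have hR1 : Rg t i' (l - i') := by
              cases t with
              | none => exact le_trans (show i' ≤ c' from hR') (by omega)
              | some n => exact (show i' < n from hR')
            have hl1 : i' + (l - i') ≤ l := by omega
            have h8 : g i' < e i' (l - i') :=
              (hlt i' c h1 hic1 i' ((Crd.mm_iff h0).mpr ⟨by omega, hR1⟩)).mpr (Or.inl rfl)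
            exact le_trans h8.le ((h.le_iff i' (l - i') i' c' hR1 hl1 hR' hic').mpr
              ⟨le_rfl, by omega⟩)
      · have hic1' : i' + c' = l + 1 := by omega
        simp only [if_neg hic, if_neg hic']
        constructor
        · intro hle
          have h5 := eq_of hle (by rw [hlev i c h1 hic1, hlev i' c' h3 hic1'])
          have h6 := hinj i c i' c' h1 hic1 h3 hic1' h5
          omega
        · rintro ⟨h5, h6⟩
          have h7 : i = i' := by omega
          rw [h7]
  · by_cases hzl : lev z ≤ l
    · obtain ⟨i, c, hR, hic, he⟩ := h.surj z hzl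
      refine ⟨i, c, (ht i c hic).mpr hR, by omega, ?_⟩
      simp only [if_pos hic]
      exact he
    · obtain ⟨i, c, hR, hic, he⟩ := hsurj z (by omega)
      refine ⟨i, c, hR, by omega, ?_⟩
      have : ¬ (i + c ≤ l) := by omega
      simp only [if_neg this]
      exact he

end Pool.Agent.GaussPoset.Win
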