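import Pool.Agent.W_448win_h16.ShpB

/-! The level below a good row. -/

namespace Pool.Agent.GaussPoset.Win

set_option linter.unusedSectionVars false

open Finset

universe u

variable {P : Type u} [Fintype P] [PartialOrder P] [DecidableEq P] {r : ℕ}

lemma ShpE_two (H : Gr P r) {w a b c : P} (ha : a ∈ uc w) (hb : b ∈ uc w) (hc : c ∈ uc w)
    (hab : a ≠ b) : c = a ∨ c = b := by
  classical
  by_contra hcon
  push Not at hcon
  have h1 : ({a, b, c} : Finset P) ⊆ uc w := by
    intro z hz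
    simp only [mem_insert, mem_singleton] at hz
    rcases hz with h | h | h
    · rw [h]; exact ha
    · rw [h]; exact hb
    · rw [h]; exact hc
  have h2 := Finset.card_le_card h1
  rw [Finset.card_eq_three.mpr ⟨a, b, c, hab, hcon.1.symm, hcon.2.symm, rfl⟩] at h2
  have h3 := uc_card_le H w
  omega

lemma ShpE_three (H : Gr P r) {x a b c : P} (ha : a ∈ dc x) (hb : b ∈ dc x) (hc : c ∈ dc x)
    (hab : a ≠ b) (hac : a ≠ c) (hbc : b ≠ c) : False := by
  classical
  have h1 : ({a, b, c} : Finset P) ⊆ dc x := by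
    intro z hz
    simp only [mem_insert, mem_singleton] at hz
    rcases hz with h | h | h
    · rw [h]; exact ha
    · rw [h]; exact hb
    · rw [h]; exact hc
  have h2 := Finset.card_le_card h1
  rw [Finset.card_eq_three.mpr ⟨a, b, c, hab, hac, hbc, rfl⟩] at h2
  have h3 := dc_card_le H x
  omega

lemma ShpE_mem (H : Gr P r) {l m : ℕ} {e : ℕ → ℕ → P} (hR : Row l m e) {w : P} (hw : lev w = l + 1)
    {i : ℕ} (hi : i ≤ m) : w < e i (l - i) ↔ w ⋖ e i (l - i) := by
  rw [H.covBy_iff, hR.lev_x i hi]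
  exact ⟨fun h => ⟨h, hw⟩, fun h => h.1⟩

lemma ShpE_dc (H : Gr P r) {l m : ℕ} {e : ℕ → ℕ → P} (hR : Row l m e) {w : P} {T : Finset ℕ}
    (hw : Ty l m e w T) {i : ℕ} (hi : i ≤ m) (hiT : i ∈ T) : w ∈ dc (e i (l - i)) :=
  mem_dc.mpr ((ShpE_mem H hR hw.1 hi).mp ((hw.2 i hi).mpr hiT))

lemma ShpE_ne {l m : ℕ} {e : ℕ → ℕ → P} {w w' : P} {T T' : Finset ℕ}
    (hw : Ty l m e w T) (hw' : Ty l m e w' T') {i : ℕ} (hi : i ≤ m) (h1 : i ∈ T) (h2 : i ∉ T') :
    w ≠ w' := by
  intro h
  subst h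
  exact h2 ((hw'.2 i hi).mp ((hw.2 i hi).mpr h1))

/-- an element of type `T` is covered exactly by the `x_i`, `i ∈ T`, `i ≤ m` (`H.covBy_iff`,
`Row.surj`, `Row.lev_x`) -/
lemma Ty.uc_iff (H : Gr P r) {l m : ℕ} {e : ℕ → ℕ → P} (hR : Row l m e) {w : P} {T : Finset ℕ}
    (hw : Ty l m e w T) (v : P) : v ∈ uc w ↔ ∃ i ≤ m, i ∈ T ∧ v = e i (l - i) := by
  constructor
  · intro hv
    have h1 := lev_uc H hv
    have h2 := hw.1
    obtain ⟨i, hi, h3⟩ := hR.surj v (by omega)
    refine ⟨i, hi, (hw.2 i hi).mp ?_, h3.symm⟩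
    rw [h3]
    exact (mem_uc.mp hv).lt
  · rintro ⟨i, hi, hiT, rfl⟩
    exact mem_uc.mpr ((ShpE_mem H hR hw.1 hi).mp ((hw.2 i hi).mpr hiT))

/-- neighbours `x_(i-1)`, `x_i` have exactly one common lower cover, and its type is `{i-1, i}`:
`Good` and `Row.ucv_x` give `dcv = 1`; a common lower cover has at most two upper covers
(`uc_card_le`), so no other `x_a` is above it (`Row.inj`) -/
theorem row_nat (H : Gr P r) {l m : ℕ} {e : ℕ → ℕ → P} (hR : Row l m e) (hG : Good P l) {i : ℕ}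
    (h1 : 1 ≤ i) (h2 : i ≤ m) :
    ∃ w, Ty l m e w {i - 1, i} ∧ ∀ w', Ty l m e w' {i - 1, i} → w' = w := by
  classical
  obtain ⟨j, rfl⟩ : ∃ j, i = j + 1 := ⟨i - 1, by omega⟩
  rw [Nat.add_sub_cancel]
  have hj : j ≤ m := by omega
  have hne : e j (l - j) ≠ e (j + 1) (l - (j + 1)) := by
    intro h
    have := hR.inj j hj (j + 1) h2 h
    omega
  have hd : dcv (e j (l - j)) (e (j + 1) (l - (j + 1))) = 1 := by
    rw [← hG _ _ (hR.lev_x j hj) (hR.lev_x (j + 1) h2) hne, hR.ucv_x j hj (j + 1) h2 (by omega),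
      if_pos (Or.inl rfl)]
  unfold dcv at hd
  obtain ⟨w, hw⟩ := Finset.card_eq_one.mp hd
  have hmem : ∀ y : P, (y ⋖ e j (l - j) ∧ y ⋖ e (j + 1) (l - (j + 1))) ↔ y = w := by
    intro y
    have h3 : y ∈ univ.filter (fun y : P => y ⋖ e j (l - j) ∧ y ⋖ e (j + 1) (l - (j + 1))) ↔
        y ∈ ({w} : Finset P) := by rw [hw]
    simpa only [mem_filter, mem_univ, true_and, mem_singleton] using h3
  obtain ⟨hw1, hw2⟩ := (hmem w).mpr rfl
  have hlw : lev w = l + 1 := by
    rw [(H.covBy_iff.mp hw1).2, hR.lev_x j hj]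
  refine ⟨w, ⟨hlw, fun a ha => ?_⟩, fun w' hw' => ?_⟩
  · rw [ShpE_mem H hR hlw ha, mem_insert, mem_singleton]
    constructor
    · intro h3
      rcases ShpE_two H (mem_uc.mpr hw1) (mem_uc.mpr hw2) (mem_uc.mpr h3) hne with h4 | h4
      · exact Or.inl (hR.inj a ha j hj h4)
      · exact Or.inr (hR.inj a ha (j + 1) h2 h4)
    · rintro (rfl | rfl)
      · exact hw1
      · exact hw2
  · refine (hmem w').mp ⟨?_, ?_⟩
    · exact mem_dc.mp (ShpE_dc H hR hw' hj (by simp))
    · exact mem_dc.mp (ShpE_dc H hR hw' h2 (by simp))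

/-- Every element `w` of level `l + 1`: `uc w` has one or two elements (`uc_nonempty`,
`uc_card_le`). Two elements `x_a`, `x_b`, `a < b`: `dcv ≥ 1`, so `ucv ≠ 0` by `Good`, `b = a + 1`.
One element `x_a`: if `0 < a < m` then `w` and the two elements of `row_nat` for `a`, `a + 1` are
three lower covers of `x_a`, contradiction to `dc_card_le`. -/
theorem row_cases (H : Gr P r) {l m : ℕ} {e : ℕ → ℕ → P} (hR : Row l m e) (hG : Good P l)
    (hm : 1 ≤ m) {w : P} (hw : lev w = l + 1) :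
    Ty l m e w {0} ∨ Ty l m e w {m} ∨ ∃ i, 1 ≤ i ∧ i ≤ m ∧ Ty l m e w {i - 1, i} := by
  classical
  by_cases hex : ∃ a b, a < b ∧ b ≤ m ∧ w ⋖ e a (l - a) ∧ w ⋖ e b (l - b)
  · obtain ⟨a, b, hab, hb, h1, h2⟩ := hex
    have ha : a ≤ m := by omega
    have hne : e a (l - a) ≠ e b (l - b) := by
      intro h
      have := hR.inj a ha b hb h
      omega
    have hd : 0 < dcv (e a (l - a)) (e b (l - b)) := by
      unfold dcv
      refine Finset.card_pos.mpr ⟨w, ?_⟩
      simp only [mem_filter, mem_univ, true_and]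
      exact ⟨h1, h2⟩
    rw [← hG _ _ (hR.lev_x a ha) (hR.lev_x b hb) hne, hR.ucv_x a ha b hb (by omega)] at hd
    have hb1 : b = a + 1 := by
      by_contra hcon
      rw [if_neg (by omega)] at hd
      omega
    subst hb1
    refine Or.inr (Or.inr ⟨a + 1, by omega, hb, hw, fun c hc => ?_⟩)
    rw [ShpE_mem H hR hw hc, mem_insert, mem_singleton, Nat.add_sub_cancel]
    constructor
    · intro h3
      rcases ShpE_two H (mem_uc.mpr h1) (mem_uc.mpr h2) (mem_uc.mpr h3) hne with h4 | h4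
      · exact Or.inl (hR.inj c hc a ha h4)
      · exact Or.inr (hR.inj c hc (a + 1) hb h4)
    · rintro (rfl | rfl)
      · exact h1
      · exact h2
  · push Not at hex
    obtain ⟨v, hv⟩ := uc_nonempty H (x := w) (by omega)
    have hlv := lev_uc H hv
    obtain ⟨a, ha, hav⟩ := hR.surj v (by omega)
    subst hav
    have hTy : Ty l m e w {a} := by
      refine ⟨hw, fun c hc => ?_⟩
      rw [ShpE_mem H hR hw hc, mem_singleton]
      constructor
      · intro h3
        rcases lt_trichotomy a c with h4 | h4 | h4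
        · exact absurd h3 (hex a c h4 hc (mem_uc.mp hv))
        · exact h4.symm
        · exact absurd (mem_uc.mp hv) (hex c a h4 ha h3)
      · rintro rfl
        exact mem_uc.mp hv
    rcases Nat.eq_zero_or_pos a with h0 | h0
    · subst h0
      exact Or.inl hTy
    · rcases Nat.eq_or_lt_of_le ha with h5 | h5
      · subst h5
        exact Or.inr (Or.inl hTy)
      · exfalso
        obtain ⟨w1, hw1, -⟩ := row_nat H hR hG (i := a) h0 ha
        obtain ⟨w2, hw2, -⟩ := row_nat H hR hG (i := a + 1) (by omega) h5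
        rw [Nat.add_sub_cancel] at hw2
        refine ShpE_three H (ShpE_dc H hR hTy ha (by simp)) (ShpE_dc H hR hw1 ha (by simp))
          (ShpE_dc H hR hw2 ha (by simp)) ?_ ?_ ?_
        · refine (ShpE_ne hw1 hTy (i := a - 1) (by omega) (by simp) ?_).symm
          rw [mem_singleton]
          omega
        · refine (ShpE_ne hw2 hTy (i := a + 1) h5 (by simp) ?_).symm
          rw [mem_singleton]
          omega
        · refine (ShpE_ne hw2 hw1 (i := a + 1) h5 (by simp) ?_).symm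
          rw [mem_insert, mem_singleton]
          omega

/-- at most one element has type `{0}`: two of them and the element of `row_nat` for `i = 1` would
be three lower covers of `x_0` (`dc_card_le`) -/
theorem row_zero_uniq (H : Gr P r) {l m : ℕ} {e : ℕ → ℕ → P} (hR : Row l m e) (hG : Good P l)
    (hm : 1 ≤ m) {w w' : P} (hw : Ty l m e w {0}) (hw' : Ty l m e w' {0}) : w = w' := by
  by_contra hne
  obtain ⟨w1, hw1, -⟩ := row_nat H hR hG (i := 1) le_rfl hm
  refine ShpE_three H (ShpE_dc H hR hw (Nat.zero_le m) (by simp))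
    (ShpE_dc H hR hw' (Nat.zero_le m) (by simp)) (ShpE_dc H hR hw1 (Nat.zero_le m) (by simp)) hne
    (ShpE_ne hw1 hw (i := 1) hm (by simp) (by simp)).symm
    (ShpE_ne hw1 hw' (i := 1) hm (by simp) (by simp)).symm

/-- at most one element has type `{m}` -/
theorem row_last_uniq (H : Gr P r) {l m : ℕ} {e : ℕ → ℕ → P} (hR : Row l m e) (hG : Good P l)
    (hm : 1 ≤ m) {w w' : P} (hw : Ty l m e w {m}) (hw' : Ty l m e w' {m}) : w = w' := by
  by_contra hne
  obtain ⟨w1, hw1, -⟩ := row_nat H hR hG (i := m) hm le_rfl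
  have h1 : m - 1 ∉ ({m} : Finset ℕ) := by
    rw [mem_singleton]
    omega
  refine ShpE_three H (ShpE_dc H hR hw le_rfl (by simp))
    (ShpE_dc H hR hw' le_rfl (by simp)) (ShpE_dc H hR hw1 le_rfl (by simp)) hne
    (ShpE_ne hw1 hw (i := m - 1) (by omega) (by simp) h1).symm
    (ShpE_ne hw1 hw' (i := m - 1) (by omega) (by simp) h1).symm

end Pool.Agent.GaussPoset.Win
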