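import Pool.Agent.W_448win_h16.ShpE

/-! The number of elements of the level below a good row. -/

namespace Pool.Agent.GaussPoset.Win

set_option linter.unusedSectionVars false

open Finset

universe u

variable {P : Type u} [Fintype P] [PartialOrder P] [DecidableEq P] {r : ℕ}

lemma ShpF_inter {l m : ℕ} {e : ℕ → ℕ → P} {w : P} {T T' : Finset ℕ} (h : Ty l m e w T)
    (h' : Ty l m e w T') : ∀ i ≤ m, (i ∈ T ↔ i ∈ T') := fun i hi =>
  (h.2 i hi).symm.trans (h'.2 i hi)

lemma ShpF_zero_nat {l m : ℕ} {e : ℕ → ℕ → P} {w : P} {i : ℕ} (h1 : 1 ≤ i) (h2 : i ≤ m)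
    (h : Ty l m e w {0}) (h' : Ty l m e w {i - 1, i}) : False := by
  have h3 := (ShpF_inter h h' i h2).2 (by simp)
  rw [mem_singleton] at h3
  omega

lemma ShpF_last_nat {l m : ℕ} {e : ℕ → ℕ → P} {w : P} {i : ℕ} (h1 : 1 ≤ i) (h2 : i ≤ m)
    (h : Ty l m e w {m}) (h' : Ty l m e w {i - 1, i}) : False := by
  have h3 := (ShpF_inter h h' (i - 1) (by omega)).2 (by simp)
  rw [mem_singleton] at h3
  omega

lemma ShpF_zero_last {l m : ℕ} {e : ℕ → ℕ → P} {w : P} (hm : 1 ≤ m)
    (h : Ty l m e w {0}) (h' : Ty l m e w {m}) : False := by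
  have h3 := (ShpF_inter h h' 0 (by omega)).1 (by simp)
  rw [mem_singleton] at h3
  omega

lemma ShpF_nat_nat {l m : ℕ} {e : ℕ → ℕ → P} {w : P} {i j : ℕ} (h1 : 1 ≤ i) (h2 : i ≤ m)
    (h3 : 1 ≤ j) (h4 : j ≤ m) (h : Ty l m e w {i - 1, i}) (h' : Ty l m e w {j - 1, j}) :
    i = j := by
  have h5 := (ShpF_inter h h' i h2).1 (by simp)
  have h6 := (ShpF_inter h h' j h4).2 (by simp)
  rw [mem_insert, mem_singleton] at h5 h6
  omega

open Classical in
lemma ShpF_card (p : P → Prop) (l : ℕ) (hl : ∀ w, p w → lev w = l + 1)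
    (hu : ∀ w w', p w → p w' → w = w') :
    ((lv P (l + 1)).filter p).card = if ∃ w, p w then 1 else 0 := by
  by_cases h : ∃ w, p w
  · rw [if_pos h, Finset.card_eq_one]
    obtain ⟨w, hw⟩ := h
    refine ⟨w, ?_⟩
    ext z
    rw [mem_filter, mem_lv, mem_singleton]
    constructor
    · rintro ⟨-, hz⟩
      exact hu z w hz hw
    · rintro rfl
      exact ⟨hl _ hw, hw⟩
  · rw [if_neg h, Finset.card_eq_zero, Finset.filter_eq_empty_iff]
    intro z _ hz
    exact h ⟨z, hz⟩

open Classical in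
/-- `b_(l+1) = m +` number of pendants: the elements of level `l + 1` are the `m` natural elements
(`row_nat`, different for different `i`), at most one element of type `{0}` and at most one of type
`{m}` (`row_cases`, `row_zero_uniq`, `row_last_uniq`); the types are different because `m ≥ 1` -/
theorem row_count (H : Gr P r) {l m : ℕ} {e : ℕ → ℕ → P} (hR : Row l m e) (hG : Good P l)
    (hm : 1 ≤ m) : (lv P (l + 1)).card =
      m + (if ∃ w, Ty l m e w {0} then 1 else 0) + (if ∃ w, Ty l m e w {m} then 1 else 0) := by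
  have hne : ∃ w0 : P, lev w0 = l := ⟨e 0 (l - 0), hR.lev_x 0 (by omega)⟩
  obtain ⟨w0, -⟩ := hne
  have hex : ∀ i, ∃ w : P, 1 ≤ i → i ≤ m → Ty l m e w {i - 1, i} ∧
      ∀ w', Ty l m e w' {i - 1, i} → w' = w := by
    intro i
    by_cases h : 1 ≤ i ∧ i ≤ m
    · obtain ⟨w, hw⟩ := row_nat H hR hG h.1 h.2
      exact ⟨w, fun _ _ => hw⟩
    · exact ⟨w0, fun h1 h2 => absurd ⟨h1, h2⟩ h⟩
  choose g hg using hex
  have hinj : Set.InjOn g (Icc 1 m : Finset ℕ) := by
    intro i hi j hj hij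
    rw [Finset.coe_Icc, Set.mem_Icc] at hi hj
    have h1 := (hg i hi.1 hi.2).1
    have h2 := (hg j hj.1 hj.2).1
    rw [hij] at h1
    exact ShpF_nat_nat hi.1 hi.2 hj.1 hj.2 h1 h2
  have hA : ((Icc 1 m).image g).card = m := by
    rw [Finset.card_image_of_injOn hinj, Nat.card_Icc]
    omega
  have hB := ShpF_card (P := P) (fun w => Ty l m e w {0}) l (fun w h => h.1)
    (fun w w' h h' => row_zero_uniq H hR hG hm h h')
  have hC := ShpF_card (P := P) (fun w => Ty l m e w {m}) l (fun w h => h.1)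
    (fun w w' h h' => row_last_uniq H hR hG hm h h')
  have hunion : lv P (l + 1) = ((Icc 1 m).image g ∪
      (lv P (l + 1)).filter (fun w => Ty l m e w {0})) ∪
      (lv P (l + 1)).filter (fun w => Ty l m e w {m}) := by
    ext z
    rw [mem_union, mem_union, mem_image, mem_filter, mem_filter, mem_lv]
    constructor
    · intro hz
      rcases row_cases H hR hG hm hz with h | h | ⟨i, h1, h2, h⟩
      · exact Or.inl (Or.inr ⟨hz, h⟩)
      · exact Or.inr ⟨hz, h⟩
      · exact Or.inl (Or.inl ⟨i, mem_Icc.2 ⟨h1, h2⟩, ((hg i h1 h2).2 z h).symm⟩)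
    · rintro ((⟨i, hi, rfl⟩ | h) | h)
      · rw [mem_Icc] at hi
        exact (hg i hi.1 hi.2).1.1
      · exact h.1
      · exact h.1
  have hd1 : Disjoint ((Icc 1 m).image g) ((lv P (l + 1)).filter (fun w => Ty l m e w {0})) := by
    rw [Finset.disjoint_left]
    intro z hz hz'
    rw [mem_image] at hz
    obtain ⟨i, hi, rfl⟩ := hz
    rw [mem_Icc] at hi
    rw [mem_filter] at hz'
    exact ShpF_zero_nat hi.1 hi.2 hz'.2 (hg i hi.1 hi.2).1
  have hd2 : Disjoint ((Icc 1 m).image g ∪ (lv P (l + 1)).filter (fun w => Ty l m e w {0}))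
      ((lv P (l + 1)).filter (fun w => Ty l m e w {m})) := by
    rw [Finset.disjoint_left]
    intro z hz hz'
    rw [mem_filter] at hz'
    rw [mem_union, mem_image, mem_filter] at hz
    rcases hz with ⟨i, hi, rfl⟩ | hz
    · rw [mem_Icc] at hi
      exact ShpF_last_nat hi.1 hi.2 hz'.2 (hg i hi.1 hi.2).1
    · exact ShpF_zero_last hm hz.2 hz'.2
  rw [hunion, Finset.card_union_of_disjoint hd2, Finset.card_union_of_disjoint hd1, hA, hB, hC]

end Pool.Agent.GaussPoset.Win
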