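import Pool.Agent.W_448win_h16.ShpC
import Pool.Agent.W_448win_h16.ShpE

/-! Coordinates for the level below a good row. -/

namespace Pool.Agent.GaussPoset.Win

set_option linter.unusedSectionVars false

open Finset

universe u

variable {P : Type u} [Fintype P] [PartialOrder P] [DecidableEq P] {r : ℕ}

/-- The new level of all four kinds: `g 0 = w0`, `g i` = natural element of type `{i-1, i}` for
`1 ≤ i ≤ m` (`row_nat`), and `g (m+1)` = the element of type `{m}` if `M = m + 1`. `M` is the last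
index of the new level. All hypotheses of `Crd.extend` are checked with `row_cases`,
`row_zero_uniq`, `row_last_uniq`, `row_nat`. (`i' + 1 = i` or `i' = i` for `i = m + 1`, `i' ≤ m`
means `i' = m`.) -/
theorem mk_next (H : Gr P r) {t t' : Option ℕ} {l m M : ℕ} {e : ℕ → ℕ → P} (h : Crd t l e)
    (h0 : Rg t 0 0) (hl : 1 ≤ l) (hmm : mm t l = m) (hm : 1 ≤ m) (hG : Good P l)
    (ht : ∀ i c, i + c ≤ l → (Rg t' i c ↔ Rg t i c))
    (ht' : ∀ i c, i + c = l + 1 → (Rg t' i c ↔ i ≤ M))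
    (hw0 : ∃ w, Ty l m e w {0})
    (hM : (M = m ∧ ∀ w, ¬ Ty l m e w {m}) ∨ (M = m + 1 ∧ m + 1 ≤ l + 1 ∧ ∃ w, Ty l m e w {m})) :
    ∃ e' : ℕ → ℕ → P, Crd t' (l + 1) e' := by
  classical
  have hR : Row l m e := hmm ▸ h.row H h0 hl
  obtain ⟨w0, hw0⟩ := hw0
  have hnat : ∀ i, ∃ w, (1 ≤ i ∧ i ≤ m) →
      (Ty l m e w {i - 1, i} ∧ ∀ w', Ty l m e w' {i - 1, i} → w' = w) := by
    intro i
    by_cases hi : 1 ≤ i ∧ i ≤ m
    · obtain ⟨w, hw⟩ := row_nat H hR hG hi.1 hi.2
      exact ⟨w, fun _ => hw⟩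
    · exact ⟨w0, fun h => absurd h hi⟩
  choose nat hnat using hnat
  have hlast : ∃ wl, M = m + 1 → Ty l m e wl {m} := by
    rcases hM with hM | hM
    · exact ⟨w0, fun h => by omega⟩
    · obtain ⟨w, hw⟩ := hM.2.2
      exact ⟨w, fun _ => hw⟩
  obtain ⟨wl, hwl⟩ := hlast
  have hMle : m ≤ M ∧ M ≤ m + 1 := by
    rcases hM with hM | hM
    · omega
    · omega
  set g : ℕ → P := fun i => if i = 0 then w0 else if i ≤ m then nat i else wl with hg
  have hg0 : g 0 = w0 := by simp [hg]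
  have hgn : ∀ i, 1 ≤ i → i ≤ m → g i = nat i := by
    intro i h1 h2
    have h3 : i ≠ 0 := by omega
    simp [hg, h3, h2]
  have hgl : g (m + 1) = wl := by
    simp [hg]
  have key : ∀ i ≤ M, lev (g i) = l + 1 ∧ ∀ i' ≤ m,
      (g i < e i' (l - i') ↔ i' = i ∨ i' + 1 = i) := by
    intro i hi
    rcases Nat.eq_zero_or_pos i with h1 | h1
    · subst h1
      rw [hg0]
      refine ⟨hw0.1, fun i' hi' => ?_⟩
      rw [hw0.2 i' hi', mem_singleton]
      omega
    · by_cases h2 : i ≤ m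
      · rw [hgn i h1 h2]
        have h3 := (hnat i ⟨h1, h2⟩).1
        refine ⟨h3.1, fun i' hi' => ?_⟩
        rw [h3.2 i' hi', mem_insert, mem_singleton]
        omega
      · have h4 : i = m + 1 := by omega
        subst h4
        have h3 := hwl (by omega)
        rw [hgl]
        refine ⟨h3.1, fun i' hi' => ?_⟩
        rw [h3.2 i' hi', mem_singleton]
        omega
  have hlm : m ≤ l := by
    have := (Crd.mm_iff (t := t) h0 (l := l) (i := m)).1 (by rw [hmm])
    exact this.1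
  have hinj : ∀ i i', i ≤ M → i' ≤ M → i < i' → g i ≠ g i' := by
    intro i i' h1 h2 h3 h4
    have hi : i ≤ m := by omega
    have k1 := (key i h1).2
    have k2 := (key i' h2).2
    rw [h4] at k1
    have h5 : i = i' ∨ i + 1 = i' := (k2 i hi).1 ((k1 i hi).2 (Or.inl rfl))
    have h6 : i' = i + 1 := by omega
    rcases Nat.eq_zero_or_pos i with h7 | h7
    · have h8 := (k1 1 hm).1 ((k2 1 hm).2 (by omega))
      omega
    · have h8 := (k2 (i - 1) (by omega)).1 ((k1 (i - 1) (by omega)).2 (by omega))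
      omega
  refine ⟨_, h.extend H h0 ht g ?_ ?_ ?_ ?_⟩
  · intro i c h1 h2
    exact (key i ((ht' i c h2).1 h1)).1
  · intro i c h1 h2
    rw [hmm]
    exact (key i ((ht' i c h2).1 h1)).2
  · intro i c i' c' h1 h2 h1' h2' h3
    rcases Nat.lt_trichotomy i i' with h4 | h4 | h4
    · exact absurd h3 (hinj i i' ((ht' i c h2).1 h1) ((ht' i' c' h2').1 h1') h4)
    · exact h4
    · exact absurd h3.symm (hinj i' i ((ht' i' c' h2').1 h1') ((ht' i c h2).1 h1) h4)
  · intro z hz
    rcases row_cases H hR hG hm hz with h1 | h1 | ⟨i, h1, h2, h3⟩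
    · refine ⟨0, l + 1, (ht' 0 (l + 1) (by omega)).2 (by omega), by omega, ?_⟩
      rw [hg0]
      exact row_zero_uniq H hR hG hm hw0 h1
    · rcases hM with hM | hM
      · exact absurd h1 (hM.2 z)
      · refine ⟨m + 1, l + 1 - (m + 1), (ht' _ _ (by omega)).2 (by omega), by omega, ?_⟩
        rw [hgl]
        exact row_last_uniq H hR hG hm (hwl hM.1) h1
    · refine ⟨i, l + 1 - i, (ht' _ _ (by omega)).2 (by omega), by omega, ?_⟩
      rw [hgn i h1 h2]
      exact ((hnat i ⟨h1, h2⟩).2 z h3).symm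

end Pool.Agent.GaussPoset.Win
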