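import Pool.Agent.W_448win_h16.ShpE

/-! The sets PD and PU in coordinates. -/

namespace Pool.Agent.GaussPoset.Win

set_option linter.unusedSectionVars false

open Finset

universe u

variable {P : Type u} [Fintype P] [PartialOrder P] [DecidableEq P] {r : ℕ}

lemma ShpH_le_one {s : Finset P} {a : P} (h : ∀ x ∈ s, x = a) : s.card ≤ 1 :=
  Finset.card_le_one.2 fun x hx y hy => (h x hx).trans (h y hy).symm

lemma ShpH_two {s : Finset P} {a b : P} (hab : a ≠ b) (ha : a ∈ s) (hb : b ∈ s) :
    2 ≤ s.card := by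
  have h1 : ({a, b} : Finset P) ⊆ s := by
    intro x hx
    rcases Finset.mem_insert.1 hx with rfl | hx
    · exact ha
    · rw [Finset.mem_singleton.1 hx]
      exact hb
  have h2 := Finset.card_le_card h1
  rwa [Finset.card_pair hab] at h2

lemma ShpH_eq_two {s : Finset P} {a b : P} (hab : a ≠ b) (h : ∀ x, x ∈ s ↔ x = a ∨ x = b) :
    s.card = 2 := by
  have h1 : s = {a, b} := by
    ext x
    rw [h, Finset.mem_insert, Finset.mem_singleton]
  rw [h1, Finset.card_pair hab]

lemma ShpH_PU {i : ℕ} {x : P} : x ∈ PU P i ↔ lev x + 2 = i ∧ (dc x).card = 1 ∧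
    ∃ u, u ⋖ x ∧ (dc u).card = 2 := by
  classical
  unfold PU
  simp

lemma ShpH_PD {i : ℕ} {x : P} : x ∈ PD P i ↔ lev x = i + 2 ∧ (uc x).card = 1 ∧
    ∃ u, x ⋖ u ∧ (uc u).card = 2 := by
  classical
  unfold PD
  simp

/-- Strip: an element `(i,c)` with exactly one lower cover has `i + 1 = n` (`Crd.dcov`), and then
its lower cover `(i, c+1)` has exactly one lower cover too. -/
theorem PU_some (H : Gr P r) {n k : ℕ} {e : ℕ → ℕ → P} (h : Crd (some n) k e) :
    PU P (k - 1) = ∅ := by
  rw [Finset.eq_empty_iff_forall_notMem]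
  intro x hx
  obtain ⟨h1, h2, u, hu, hu2⟩ := ShpH_PU.1 hx
  obtain ⟨i, c, hi, hic, rfl⟩ := h.surj x (by omega)
  have hi' : i < n := hi
  rw [h.lev_e i c hi hic] at h1
  have hd := h.dcov H hi (by omega : i + c + 1 ≤ k)
  have hne : ¬ i + 1 < n := by
    intro h3
    have h4 : e i (c + 1) ≠ e (i + 1) c := by
      intro h5
      have := (h.inj (show Rg (some n) i (c + 1) from hi') (by omega)
        (show Rg (some n) (i + 1) c from h3) (by omega) h5).1
      omega
    have h6 := ShpH_two h4 (mem_dc.2 ((hd _).2 (Or.inl rfl)))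
      (mem_dc.2 ((hd _).2 (Or.inr ⟨h3, rfl⟩)))
    omega
  rcases (hd u).1 hu with rfl | ⟨h3, -⟩
  · have hd2 := h.dcov H (show Rg (some n) i (c + 1) from hi) (by omega : i + (c + 1) + 1 ≤ k)
    have h7 : (dc (e i (c + 1))).card ≤ 1 := by
      apply ShpH_le_one (a := e i (c + 1 + 1))
      intro y hy
      rcases (hd2 y).1 (mem_dc.1 hy) with h8 | ⟨h8, -⟩
      · exact h8
      · exact absurd h8 hne
    omega
  · exact hne h3

/-- Shifted quadrant: on level `2m - 2` only `(m-1, m-1)` has exactly one lower cover, namely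
`(m-1, m)`, which has the two lower covers `(m-1, m+1)` and `(m, m)` (`Crd.dcov`). -/
theorem PU_none (H : Gr P r) {m l : ℕ} {e : ℕ → ℕ → P} (hm : 1 ≤ m) (hl : 2 * m ≤ l)
    (h : Crd none l e) : PU P (2 * m) = {e (m - 1) (m - 1)} := by
  ext x
  rw [Finset.mem_singleton, ShpH_PU]
  constructor
  · rintro ⟨h1, h2, u, hu, hu2⟩
    obtain ⟨i, c, hi, hic, rfl⟩ := h.surj x (by omega)
    have hi' : i ≤ c := hi
    rw [h.lev_e i c hi hic] at h1
    have hd := h.dcov H hi (by omega : i + c + 1 ≤ l)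
    have hne : ¬ i + 1 ≤ c := by
      intro h3
      have h4 : e i (c + 1) ≠ e (i + 1) c := by
        intro h5
        have := (h.inj (show Rg none i (c + 1) from Nat.le_succ_of_le hi') (by omega)
          (show Rg none (i + 1) c from h3) (by omega) h5).1
        omega
      have h6 := ShpH_two h4 (mem_dc.2 ((hd _).2 (Or.inl rfl)))
        (mem_dc.2 ((hd _).2 (Or.inr ⟨h3, rfl⟩)))
      omega
    have h7 : i = m - 1 := by omega
    have h8 : c = m - 1 := by omega
    rw [h7, h8]
  · rintro rfl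
    obtain ⟨q, rfl⟩ : ∃ q, m = q + 1 := ⟨m - 1, by omega⟩
    rw [Nat.add_sub_cancel]
    have hr : Rg none q q := le_refl q
    have hr2 : Rg none q (q + 1) := Nat.le_succ q
    have hd := h.dcov H hr (by omega : q + q + 1 ≤ l)
    have hd2 := h.dcov H hr2 (by omega : q + (q + 1) + 1 ≤ l)
    refine ⟨?_, ?_, e q (q + 1), (hd _).2 (Or.inl rfl), ?_⟩
    · rw [h.lev_e q q hr (by omega)]
      omega
    · rw [Finset.card_eq_one]
      refine ⟨e q (q + 1), ?_⟩
      ext y
      rw [mem_dc, hd, Finset.mem_singleton]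
      constructor
      · rintro (h3 | ⟨h3, -⟩)
        · exact h3
        · have h3' : q + 1 ≤ q := h3
          omega
      · exact fun h3 => Or.inl h3
    · have h4 : e q (q + 1 + 1) ≠ e (q + 1) (q + 1) := by
        intro h5
        have := (h.inj (show Rg none q (q + 1 + 1) from Nat.le_succ_of_le (Nat.le_succ q))
          (by omega) (show Rg none (q + 1) (q + 1) from le_refl _) (by omega) h5).1
        omega
      apply ShpH_eq_two h4
      intro y
      rw [mem_dc, hd2]
      constructor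
      · rintro (h3 | ⟨-, h3⟩)
        · exact Or.inl h3
        · exact Or.inr h3
      · rintro (h3 | h3)
        · exact Or.inl h3
        · exact Or.inr ⟨show q + 1 ≤ q + 1 from le_refl _, h3⟩

/-- Strip: an element which is only below the last `x_(n-1) = (n-1, k-n+1)`, `2 ≤ n ≤ k`, is in
`PD`, because `x_(n-1)` has the two upper covers `(n-2, k-n+1)`, `(n-1, k-n)` (`Crd.ucov`). -/
theorem PD_some (H : Gr P r) {n k : ℕ} {e : ℕ → ℕ → P} (hn : 2 ≤ n) (hk : n ≤ k)
    (h : Crd (some n) k e) {w : P} (hw : Ty k (n - 1) e w {n - 1}) : w ∈ PD P (k - 1) := by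
  obtain ⟨q, rfl⟩ : ∃ q, n = q + 2 := ⟨n - 2, by omega⟩
  obtain ⟨s, rfl⟩ : ∃ s, k = q + 2 + s := ⟨k - (q + 2), by omega⟩
  have hR := h.row H (show Rg (some (q + 2)) 0 0 from Nat.succ_pos _) (by omega)
  have hmm : mm (some (q + 2)) (q + 2 + s) = q + 1 := by
    show min (q + 2 - 1) (q + 2 + s) = q + 1
    omega
  rw [hmm] at hR
  rw [show q + 2 - 1 = q + 1 by omega] at hw
  have huc := hw.uc_iff H hR
  rw [show q + 2 + s = q + 2 + s from rfl] at huc
  have hlev := hw.1
  have hr : Rg (some (q + 2)) (q + 1) (s + 1) := Nat.lt_succ_self (q + 1)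
  have hu1 : ∀ v, v ∈ uc w ↔ v = e (q + 1) (s + 1) := by
    intro v
    rw [huc]
    constructor
    · rintro ⟨i, _, hi, rfl⟩
      rw [Finset.mem_singleton.1 hi]
      congr 1
      omega
    · rintro rfl
      refine ⟨q + 1, le_refl _, Finset.mem_singleton_self _, ?_⟩
      congr 1
      omega
  rw [ShpH_PD]
  refine ⟨by omega, ?_, e (q + 1) (s + 1), mem_uc.1 ((hu1 _).2 rfl), ?_⟩
  · rw [Finset.card_eq_one]
    refine ⟨e (q + 1) (s + 1), ?_⟩
    ext y
    rw [hu1, Finset.mem_singleton]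
  · have hcov := h.ucov H hr (by omega)
    have h4 : e q (s + 1) ≠ e (q + 1) s := by
      intro h5
      have := (h.inj (show Rg (some (q + 2)) q (s + 1) from Nat.lt_succ_of_le (Nat.le_succ q))
        (by omega) (show Rg (some (q + 2)) (q + 1) s from Nat.lt_succ_self _) (by omega) h5).1
      omega
    apply ShpH_eq_two h4
    intro y
    rw [mem_uc, hcov, Nat.add_sub_cancel, Nat.add_sub_cancel]
    constructor
    · rintro (⟨-, h3⟩ | ⟨-, -, h3⟩)
      · exact Or.inl h3
      · exact Or.inr h3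
    · rintro (h3 | h3)
      · exact Or.inl ⟨by omega, h3⟩
      · exact Or.inr ⟨by omega, Nat.lt_succ_self _, h3⟩

/-- Shifted quadrant, odd level `2m + 1`: the elements of `PD P (2m)` have type `{m}`: by
`row_cases` the type is `{0}`, `{m}` or `{i-1, i}`; the last has two upper covers, and the only
upper cover `(0, 2m+1)` of an element of type `{0}` has only one upper cover. -/
theorem PD_none (H : Gr P r) {m : ℕ} {e : ℕ → ℕ → P} (hm : 1 ≤ m) (h : Crd none (2 * m + 1) e)
    (hG : Good P (2 * m + 1)) {z : P} (hz : z ∈ PD P (2 * m)) : Ty (2 * m + 1) m e z {m} := by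
  obtain ⟨h1, h2, w, hzw, hw2⟩ := ShpH_PD.1 hz
  have hR := h.row H (show Rg none 0 0 from le_refl 0) (by omega)
  have hmm : mm none (2 * m + 1) = m := by
    show (2 * m + 1) / 2 = m
    omega
  rw [hmm] at hR
  rcases row_cases H hR hG hm (by omega : lev z = 2 * m + 1 + 1) with h3 | h3 | ⟨i, hi1, hi2, h3⟩
  · exfalso
    obtain ⟨i, _, hi, rfl⟩ := (h3.uc_iff H hR w).1 (mem_uc.2 hzw)
    rw [Finset.mem_singleton.1 hi] at hw2
    have hcov := h.ucov H (show Rg none 0 (2 * m + 1 - 0) from Nat.zero_le _) (by omega)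
    have h7 : (uc (e 0 (2 * m + 1 - 0))).card ≤ 1 := by
      apply ShpH_le_one (a := e 0 (2 * m + 1 - 0 - 1))
      intro y hy
      rcases (hcov y).1 (mem_uc.1 hy) with ⟨h8, -⟩ | ⟨-, -, h8⟩
      · omega
      · exact h8
    omega
  · exact h3
  · exfalso
    have h4 : e (i - 1) (2 * m + 1 - (i - 1)) ≠ e i (2 * m + 1 - i) := by
      intro h5
      have := hR.inj (i - 1) (by omega) i hi2 h5
      omega
    have h6 := ShpH_two h4
      ((h3.uc_iff H hR _).2 ⟨i - 1, by omega, Finset.mem_insert_self _ _, rfl⟩)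
      ((h3.uc_iff H hR _).2 ⟨i, hi2, Finset.mem_insert_of_mem (Finset.mem_singleton_self _), rfl⟩)
    omega

end Pool.Agent.GaussPoset.Win
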