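import Pool.Agent.W_448win_h16.ShpF
import Pool.Agent.W_448win_h16.ShpG
import Pool.Agent.W_448win_h16.ShpH
import Pool.Agent.W_448win_h16.E2Final
import Pool.Agent.W_448rot_h96.UnimodB

/-! The steps in the case b_1 = 2. -/

namespace Pool.Agent.GaussPoset.Win

set_option linter.unusedSectionVars false

open Finset

universe u

variable {P : Type u} [Fintype P] [PartialOrder P] [DecidableEq P] {r : ℕ}

/-- the quadrant is symmetric -/
theorem Crd.swap {k : ℕ} {e : ℕ → ℕ → P} (h : Crd (some (k + 1)) k e) :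
    Crd (some (k + 1)) k (fun i c => e c i) := by
  refine ⟨fun i c h1 h2 => ?_, fun i c i' c' h1 h2 h3 h4 => ?_, fun z hz => ?_⟩
  · have h5 := h.lev_e c i (show c < k + 1 by omega) (by omega)
    show lev (e c i) = i + c
    omega
  · show e c i ≤ e c' i' ↔ i' ≤ i ∧ c' ≤ c
    rw [h.le_iff c i c' i' (show c < k + 1 by omega) (by omega) (show c' < k + 1 by omega)
      (by omega)]
    exact and_comm
  · obtain ⟨i, c, h1, h2, h3⟩ := h.surj z hz
    exact ⟨c, i, show c < k + 1 by omega, by omega, h3⟩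

/-- exchanging the coordinates exchanges the two ends -/
theorem Ty.swap {k : ℕ} {e : ℕ → ℕ → P} {w : P} (h : Ty k k e w {k}) :
    Ty k k (fun i c => e c i) w {0} := by
  refine ⟨h.1, fun i hi => ?_⟩
  have h1 := h.2 (k - i) (by omega)
  rw [show k - (k - i) = i by omega, mem_singleton] at h1
  rw [mem_singleton]
  show w < e (k - i) i ↔ i = 0
  rw [h1]
  omega

/-- Step from level `k` to `k + 1`. `row_count`, `unimod` (`b_(k+1) ≥ b_k`, `Row.card`): there is a
pendant. Case `n = k + 1` (quadrant, `m = k`): both pendants exist: `mk_next` with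
`t' = some (k+2)`, `M = k + 1`; only the one of type `{0}`: `mk_next` with `t' = some (k+1)`,
`M = k`; only the one of type `{k}`: exchange the coordinates (`Crd.swap`, `Ty.swap`) first.
Case `n ≤ k` (`m = n - 1`, `2 ≤ k`): no element of type `{m}` by `PD_some`, `good_card`,
`PU_some`; `mk_next` with `t' = some n`, `M = n - 1`. -/
theorem step_some (H : Gr P r) {k n : ℕ} {e : ℕ → ℕ → P} (hk : 1 ≤ k) (hn : 2 ≤ n)
    (hn2 : n ≤ k + 1) (h : Crd (some n) k e) (hG : Good P k) (hG' : 2 ≤ k → Good P (k - 1))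
    (hkr : 2 * k + 2 ≤ r) :
    ∃ (n' : ℕ) (e' : ℕ → ℕ → P), 2 ≤ n' ∧ n' ≤ k + 2 ∧ Crd (some n') (k + 1) e' := by
  classical
  obtain ⟨m, rfl⟩ : ∃ m, n = m + 1 := ⟨n - 1, by omega⟩
  have h0 : Rg (some (m + 1)) 0 0 := show 0 < m + 1 by omega
  have hmm : mm (some (m + 1)) k = m := by
    show min (m + 1 - 1) k = m
    omega
  have hR := Crd.row H h0 hk h
  rw [hmm] at hR
  have hm : 1 ≤ m := by omega
  have hc1 := hR.card
  have hc2 := row_count H hR hG hm
  have hun := GaussRot.unimod H (l := k) (by omega)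
  by_cases hnk : m = k
  · subst hnk
    by_cases hw0 : ∃ w, Ty m m e w {0}
    · by_cases hwm : ∃ w, Ty m m e w {m}
      · obtain ⟨e', he'⟩ := mk_next H (t' := some (m + 2)) (M := m + 1) h h0 hk hmm hm hG
          (fun i c hic => by
            show i < m + 2 ↔ i < m + 1
            omega)
          (fun i c hic => by
            show i < m + 2 ↔ i ≤ m + 1
            omega) hw0 (Or.inr ⟨rfl, le_rfl, hwm⟩)
        exact ⟨m + 2, e', by omega, le_rfl, he'⟩
      · obtain ⟨e', he'⟩ := mk_next H (t' := some (m + 1)) (M := m) h h0 hk hmm hm hG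
          (fun i c hic => Iff.rfl)
          (fun i c hic => by
            show i < m + 1 ↔ i ≤ m
            omega) hw0 (Or.inl ⟨rfl, fun w hw => hwm ⟨w, hw⟩⟩)
        exact ⟨m + 1, e', by omega, by omega, he'⟩
    · by_cases hwm : ∃ w, Ty m m e w {m}
      · obtain ⟨w, hw⟩ := hwm
        obtain ⟨e', he'⟩ := mk_next H (t' := some (m + 1)) (M := m) (Crd.swap h) h0 hk hmm hm hG
          (fun i c hic => Iff.rfl)
          (fun i c hic => by
            show i < m + 1 ↔ i ≤ m
            omega) ⟨w, Ty.swap hw⟩ (Or.inl ⟨rfl, fun w' hw' => hw0 ⟨w', Ty.swap hw'⟩⟩)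
        exact ⟨m + 1, e', by omega, by omega, he'⟩
      · rw [if_neg hw0, if_neg hwm] at hc2
        omega
  · have hmk : m + 1 ≤ k := by omega
    have hwm : ∀ w, ¬ Ty k m e w {m} := by
      intro w hw
      have h1 := PD_some H hn hmk h hw
      have h2 := good_card H (i := k - 1) (by omega) (by omega) (hG' (by omega))
      rw [PU_some H h, Finset.card_empty, Finset.card_eq_zero] at h2
      rw [h2] at h1
      exact Finset.notMem_empty _ h1
    have hw0 : ∃ w, Ty k m e w {0} := by
      by_contra hcon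
      rw [if_neg hcon, if_neg (fun ⟨w, hw⟩ => hwm w hw)] at hc2
      omega
    obtain ⟨e', he'⟩ := mk_next H (t' := some (m + 1)) (M := m) h h0 hk hmm hm hG
      (fun i c hic => Iff.rfl)
      (fun i c hic => by
        show i < m + 1 ↔ i ≤ m
        omega) hw0 (Or.inl ⟨rfl, hwm⟩)
    exact ⟨m + 1, e', by omega, by omega, he'⟩

end Pool.Agent.GaussPoset.Win
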