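import Pool.Agent.W_448win_h16.ShpB
import Pool.Agent.W_448rot_h96.CompareT1
import Pool.Agent.W_448rot_h96.SizesP

/-! Sizes in the shifted quadrant. -/

namespace Pool.Agent.GaussPoset.Win

set_option linter.unusedSectionVars false

open Finset

universe u

variable {P : Type u} [Fintype P] [PartialOrder P] [DecidableEq P] {r : ℕ}

/-- the cells of level at most `l` -/
def Cl (L l : ℕ) : Finset GaussRot.Cell :=
  (GaussRot.Rs true 0 L).filter (fun p => p.i + p.c ≤ l)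

lemma mem_Cl {L l : ℕ} {p : GaussRot.Cell} : p ∈ Cl L l ↔ (p.i ≤ p.c ∧ p.c < L) ∧ p.i + p.c ≤ l := by
  unfold Cl
  rw [mem_filter, GaussRot.mem_Rs, GaussRot.reg_true]

/-- larger cells have smaller level -/
lemma Cl_mem_J (L l : ℕ) : Cl L l ∈ GaussRot.J (GaussRot.Rs true 0 L) := by
  rw [GaussRot.mem_J]
  refine ⟨filter_subset _ _, fun x hx y hy hxy => ?_⟩
  rw [mem_Cl] at hx ⊢
  rw [GaussRot.mem_Rs, GaussRot.reg_true] at hy
  rw [GaussRot.cell_le] at hxy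
  refine ⟨hy, ?_⟩
  omega

/-- the elements of level at most `l` form an upper set (`lev_strictAnti`) -/
lemma top_mem_J (l : ℕ) : (univ.filter (fun z : P => lev z ≤ l)) ∈
    GaussRot.J (univ : Finset P) := by
  rw [GaussRot.mem_J]
  refine ⟨filter_subset _ _, fun x hx y _ hxy => ?_⟩
  rw [mem_filter] at hx ⊢
  refine ⟨mem_univ _, ?_⟩
  rcases hxy.eq_or_lt with rfl | h
  · exact hx.2
  · exact (lev_strictAnti h).le.trans hx.2

/-- the coordinates compare as the cells do -/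
lemma Crd.cell_le {l L : ℕ} {e : ℕ → ℕ → P} (h : Crd none l e) :
    ∀ p ∈ Cl L l, ∀ q ∈ Cl L l, (e p.i p.c ≤ e q.i q.c ↔ p ≤ q) := by
  intro p hp q hq
  rw [mem_Cl] at hp hq
  rw [h.le_iff p.i p.c q.i q.c hp.1.1 hp.2 hq.1.1 hq.2, GaussRot.cell_le]

/-- the image of the cells of level `≤ l` (`l < L`) is the set of elements of level `≤ l` -/
lemma Crd.cell_image {l L : ℕ} {e : ℕ → ℕ → P} (h : Crd none l e) (hL : l < L) :
    (Cl L l).image (fun p => e p.i p.c) = univ.filter (fun z : P => lev z ≤ l) := by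
  ext z
  rw [mem_image, mem_filter]
  constructor
  · rintro ⟨p, hp, rfl⟩
    rw [mem_Cl] at hp
    refine ⟨mem_univ _, ?_⟩
    rw [h.lev_e p.i p.c hp.1.1 hp.2]
    exact hp.2
  · rintro ⟨-, hz⟩
    obtain ⟨i, c, h1, h2, rfl⟩ := h.surj z hz
    have h1' : i ≤ c := h1
    exact ⟨⟨i, c⟩, mem_Cl.2 ⟨⟨h1', by show c < L; omega⟩, h2⟩, rfl⟩

/-- `AF` of the elements of level `≤ l` (`GaussRot.AF_image`) -/
lemma Crd.AF_top {l L : ℕ} {e : ℕ → ℕ → P} (h : Crd none l e) (hL : l < L) :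
    GaussRot.AF (univ.filter (fun z : P => lev z ≤ l)) = GaussRot.AF (Cl L l) := by
  rw [← h.cell_image hL]
  exact GaussRot.AF_image h.cell_le

/-- sizes: `GaussRot.sz_image`, `GaussRot.sz_of_mem_J`, `GaussRot.sz_stair` -/
theorem Crd.sz_e {l : ℕ} {e : ℕ → ℕ → P} (h : Crd none l e) {i c : ℕ} (h1 : i ≤ c)
    (h2 : i + c ≤ l) : 2 * GaussRot.sz (univ : Finset P) (e i c) = (i + 1) * (2 * c + 2 - i) := by
  have hp : (⟨i, c⟩ : GaussRot.Cell) ∈ Cl (l + 1) l :=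
    mem_Cl.2 ⟨⟨h1, by show c < l + 1; omega⟩, h2⟩
  have hR : (⟨i, c⟩ : GaussRot.Cell) ∈ GaussRot.Rs true 0 (l + 1) := (filter_subset _ _) hp
  have h3 : e i c ∈ univ.filter (fun z : P => lev z ≤ l) := by
    rw [mem_filter, h.lev_e i c h1 h2]
    exact ⟨mem_univ _, h2⟩
  have h4 := GaussRot.sz_image h.cell_le hp
  rw [h.cell_image (Nat.lt_succ_self l)] at h4
  rw [← GaussRot.sz_of_mem_J (top_mem_J l) h3]
  have h5 := GaussRot.sz_of_mem_J (Cl_mem_J (l + 1) l) hp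
  have h6 := GaussRot.sz_stair 0 (l + 1) hR
  dsimp only at h4 h6
  rw [h4, h5, h6]

end Pool.Agent.GaussPoset.Win
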