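import Pool.Agent.W_448win_h16.ShpJ
import Pool.Agent.W_448win_h16.ShpE

/-! Sizes of the elements below level l. -/

namespace Pool.Agent.GaussPoset.Win

set_option linter.unusedSectionVars false

open Finset

universe u

variable {P : Type u} [Fintype P] [PartialOrder P] [DecidableEq P] {r : ℕ}

/-- an element below level `l` lies below some `x_i`, and if it is below no `x_i` with `i ≥ 1` then
it is `≤` some `w` of type `{0}` (take `w ≥ z` of level `l + 1`, `exists_above'`, and `v > w` of
level `l`, `exists_lev_succ`) -/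
theorem below_cases {l m : ℕ} {e : ℕ → ℕ → P} (hR : Row l m e) {z : P}
    (hz : l + 1 ≤ lev z) :
    (∃ i, 1 ≤ i ∧ i ≤ m ∧ z < e i (l - i)) ∨ ∃ w, z ≤ w ∧ Ty l m e w {0} := by
  by_cases h : ∃ i, 1 ≤ i ∧ i ≤ m ∧ z < e i (l - i)
  · exact Or.inl h
  · right
    have h' : ∀ i, 1 ≤ i → i ≤ m → ¬ z < e i (l - i) := fun i h1 h2 h3 => h ⟨i, h1, h2, h3⟩
    obtain ⟨w, hw, hw2⟩ := exists_above' hz
    refine ⟨w, hw, hw2, fun i hi => ?_⟩
    rw [mem_singleton]
    constructor
    · intro h1
      by_contra h2
      exact h' i (by omega) hi (lt_of_le_of_lt hw h1)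
    · rintro rfl
      obtain ⟨y, hy, hy2⟩ := exists_lev_succ (x := w) (k := l) hw2
      obtain ⟨i, hi, hi2⟩ := hR.surj y hy2
      rcases Nat.eq_zero_or_pos i with h0 | h0
      · subst h0
        rw [hi2]
        exact hy
      · exact absurd (lt_of_le_of_lt hw (hi2 ▸ hy)) (h' i h0 hi)

/-- an element `w` of type `{a}` has size one more than `x_a` -/
theorem ShpK_pend (H : Gr P r) {l m : ℕ} {e : ℕ → ℕ → P} (hR : Row l m e) {w : P} {a : ℕ}
    (ha : a ≤ m) (hw : Ty l m e w {a}) :
    GaussRot.sz (univ : Finset P) w = GaussRot.sz (univ : Finset P) (e a (l - a)) + 1 := by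
  have h1 : w < e a (l - a) := (hw.2 a ha).2 (mem_singleton_self a)
  have h2 : GaussRot.upF (univ : Finset P) w =
      insert w (GaussRot.upF (univ : Finset P) (e a (l - a))) := by
    ext z
    rw [mem_insert, GaussRot.mem_upF, GaussRot.mem_upF]
    constructor
    · rintro ⟨-, hz⟩
      rcases hz.eq_or_lt with h | h
      · exact Or.inl h.symm
      · right
        refine ⟨mem_univ _, ?_⟩
        have h3 := lev_strictAnti h
        have h4 := hw.1
        obtain ⟨v, hv1, hv2, hv3⟩ := GaussRot.between H.gauss h.le (l := l) (by omega) (by omega)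
        obtain ⟨i, hi, rfl⟩ := hR.surj v hv3
        have h5 : w < e i (l - i) := by
          refine lt_of_le_of_ne hv1 ?_
          intro h6
          rw [← h6] at hv3
          omega
        have h6 := (hw.2 i hi).1 h5
        rw [mem_singleton] at h6
        subst h6
        exact hv2
    · rintro (rfl | ⟨-, h⟩)
      · exact ⟨mem_univ _, le_rfl⟩
      · exact ⟨mem_univ _, h1.le.trans h⟩
  unfold GaussRot.sz
  rw [h2, card_insert_of_notMem]
  rw [GaussRot.mem_upF]
  rintro ⟨-, h⟩
  exact absurd h (not_le_of_gt h1)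

/-- an element `w` of type `{0}` has size one more than `x_0`: its strict upper set is the upper set
of `x_0` (`GaussRot.between` with level `l`, `Row.surj`) -/
theorem sz_pend_zero (H : Gr P r) {l m : ℕ} {e : ℕ → ℕ → P} (hR : Row l m e) {w : P}
    (hw : Ty l m e w {0}) :
    GaussRot.sz (univ : Finset P) w = GaussRot.sz (univ : Finset P) (e 0 l) + 1 :=
  ShpK_pend H hR (Nat.zero_le m) hw

/-- the same for type `{m}` -/
theorem sz_pend_last (H : Gr P r) {l m : ℕ} {e : ℕ → ℕ → P} (hR : Row l m e) {w : P}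
    (hw : Ty l m e w {m}) :
    GaussRot.sz (univ : Finset P) w = GaussRot.sz (univ : Finset P) (e m (l - m)) + 1 :=
  ShpK_pend H hR le_rfl hw

end Pool.Agent.GaussPoset.Win
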