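import Pool.Agent.W_448win_h16.ShpK
import Pool.Agent.W_448win_h16.ShpF

/-! Comparison below an even level. -/

namespace Pool.Agent.GaussPoset.Win

set_option linter.unusedSectionVars false

open Finset

universe u

variable {P : Type u} [Fintype P] [PartialOrder P] [DecidableEq P] {r : ℕ}

lemma ShpL_out {m : ℕ} {e : ℕ → ℕ → P} (H : Gr P r) (hm : 2 ≤ m) (h : Crd none (2 * m) e)
    (hR : Row (2 * m) m e) :
    (∀ w, Ty (2 * m) m e w {0} → GaussRot.sz (univ : Finset P) w = 2 * m + 2) ∧
    ∀ z : P, 2 * m + 1 ≤ lev z → 2 * m + 3 ≤ GaussRot.sz (univ : Finset P) z ∨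
      Ty (2 * m) m e z {0} := by
  have hx0 : GaussRot.sz (univ : Finset P) (e 0 (2 * m)) = 2 * m + 1 := by
    have h1 := h.sz_e (i := 0) (c := 2 * m) (Nat.zero_le _) (by omega)
    omega
  have hxi : ∀ i, 1 ≤ i → i ≤ m →
      2 * m + 2 ≤ GaussRot.sz (univ : Finset P) (e i (2 * m - i)) := by
    intro i h1 h2
    have h3 := h.sz_e (i := i) (c := 2 * m - i) (by omega) (by omega)
    obtain ⟨a, ha⟩ : ∃ a, m = i + a := ⟨m - i, by omega⟩
    have h4 : 2 * (2 * m - i) + 2 - i = i + 4 * a + 2 := by omega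
    rw [h4] at h3
    have h5 : 4 * m + 4 ≤ (i + 1) * (i + 4 * a + 2) := by
      rw [ha]
      rcases Nat.eq_zero_or_pos a with h0 | h0
      · subst h0
        nlinarith
      · nlinarith [Nat.mul_le_mul h0 h1]
    omega
  have hw0 : ∀ w, Ty (2 * m) m e w {0} → GaussRot.sz (univ : Finset P) w = 2 * m + 2 := by
    intro w hw
    rw [sz_pend_zero H hR hw, hx0]
  refine ⟨hw0, fun z hz => ?_⟩
  rcases below_cases hR hz with ⟨i, h1, h2, h3⟩ | ⟨w, hzw, hw⟩
  · left
    have h4 := GaussRot.sz_lt h3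
    have h5 := hxi i h1 h2
    omega
  · rcases eq_or_lt_of_le hzw with h4 | h4
    · right
      rw [h4]
      exact hw
    · left
      have h5 := GaussRot.sz_lt h4
      have h6 := hw0 w hw
      omega

lemma ShpL_cell {m i c : ℕ} (hm : 2 ≤ m) (h1 : 1 ≤ i) (h2 : i ≤ c) (h3 : 2 * m + 1 ≤ i + c) :
    4 * m + 4 < (i + 1) * (2 * c + 2 - i) := by
  obtain ⟨b, hb⟩ : ∃ b, c = i + b := ⟨c - i, by omega⟩
  have h4 : 2 * c + 2 - i = i + 2 * b + 2 := by omega
  rw [h4]
  have h5 : 4 * m + 4 ≤ 4 * i + 2 * b + 2 := by omega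
  refine lt_of_le_of_lt h5 ?_
  rcases Nat.lt_or_ge i 2 with h6 | h6
  · have h7 : i = 1 := by omega
    subst h7
    omega
  · nlinarith

open Classical in
/-- `b_(2m+1) = m + t` where `t = 1` if there is an element of type `{0}` and `t = 0` otherwise.
`GaussRot.comparison` (second part) with `k = true`, `m = 0`, `L = 2m + 1 + t`,
`C` = elements of level `≤ 2m`, `C' = Cl L (2m)`, `s = 2m + 2`.
Elements outside `C` (`below_cases`, `Crd.row`, `mm none (2m) = m`): below some `x_i = (i, 2m-i)`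
with `1 ≤ i ≤ m` the size is at least `sz x_i + 1` and `2 sz x_i = (i+1)(4m+2-3i) ≥ 4m + 4`
(`i (4m-1-3i) ≥ 2` for `m ≥ 2`), so the size is `≥ 2m + 3`; otherwise `z ≤ w` with `w` of type
`{0}`, of size `2m + 2` (`sz_pend_zero`), and `z < w` has size `≥ 2m + 3` (`GaussRot.sz_lt`). So
exactly the elements of type `{0}` (at most one, `row_zero_uniq`) have size `2m + 2`: their number
is `t`. Missing cells `(i,c)`, `i ≤ c < L`, `i + c ≥ 2m + 1`: for `i = 0` only `(0, 2m+1)`, if
`t = 1`, of size `2m + 2`; for `i ≥ 1` twice the size is `(i+1)(2c+2-i) > 4m + 4`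
(`GaussRot.sz_stair`; `c ≥ 2m+1-i`, `c ≥ i`). The level `2m+1` of the reference poset has the cells
`(i, 2m+1-i)`, `i ≤ m`, `2m + 1 - i < L`: `m + t` of them. -/
theorem even_count (H : Gr P r) {m : ℕ} {e : ℕ → ℕ → P} (hm : 2 ≤ m) (h : Crd none (2 * m) e)
    (hG : Good P (2 * m)) :
    (lv P (2 * m + 1)).card = m + if ∃ w, Ty (2 * m) m e w {0} then 1 else 0 := by
  have hmm : mm none (2 * m) = m := by
    unfold mm
    simp only
    omega
  have hR : Row (2 * m) m e := by
    have h1 := h.row H (show Rg none 0 0 from le_rfl) (by omega)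
    rw [hmm] at h1
    exact h1
  obtain ⟨hw0, hout⟩ := ShpL_out H hm h hR
  obtain ⟨t, ht⟩ : ∃ t : ℕ, t = if ∃ w, Ty (2 * m) m e w {0} then 1 else 0 := ⟨_, rfl⟩
  rw [← ht]
  have hlow : ∀ z : P, z ∉ univ.filter (fun z : P => lev z ≤ 2 * m) →
      2 * m + 1 + 1 ≤ GaussRot.sz (univ : Finset P) z := by
    intro z hz
    rw [mem_filter, not_and] at hz
    have h1 : 2 * m + 1 ≤ lev z := by
      have := hz (mem_univ _)
      omega
    rcases hout z h1 with h2 | h2
    · omega
    · rw [hw0 z h2]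
  have hcell : ∀ p ∈ GaussRot.Rs true 0 (2 * m + 1 + t), p ∉ Cl (2 * m + 1 + t) (2 * m) →
      2 * m + 1 + 1 ≤ GaussRot.sz (GaussRot.Rs true 0 (2 * m + 1 + t)) p ∧
        (GaussRot.sz (GaussRot.Rs true 0 (2 * m + 1 + t)) p = 2 * m + 1 + 1 ↔
          p = ⟨0, 2 * m + 1⟩) := by
    intro p hp hn
    have hs := GaussRot.sz_stair 0 (2 * m + 1 + t) hp
    rw [GaussRot.mem_Rs, GaussRot.reg_true] at hp
    rw [mem_Cl] at hn
    have ht1 : t ≤ 1 := by
      rw [ht]
      split_ifs <;> omega
    obtain ⟨i, c⟩ := p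
    simp only at hp hn hs ⊢
    have h1 : 2 * m + 1 ≤ i + c := by
      by_contra h2
      exact hn ⟨hp, by omega⟩
    rcases Nat.eq_zero_or_pos i with h0 | h0
    · subst h0
      have h2 : c = 2 * m + 1 := by omega
      subst h2
      refine ⟨by omega, fun _ => rfl, fun _ => by omega⟩
    · have h2 := ShpL_cell hm h0 hp.1 h1
      refine ⟨by omega, fun h3 => ?_, fun h3 => ?_⟩
      · omega
      · rw [GaussRot.Cell.mk.injEq] at h3
        omega
  have ht1 : t ≤ 1 := by
    rw [ht]
    split_ifs <;> omega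
  have hc := (GaussRot.comparison H.gauss true 0 (2 * m + 1 + t) _ _ (top_mem_J (2 * m))
    (Cl_mem_J (2 * m + 1 + t) (2 * m)) (h.AF_top (by omega)) (2 * m + 1 + 1) (by omega) hlow
    (fun p hp hn => (hcell p hp hn).1)).2
  rw [GaussRot.card_lev_succ] at hc
  have e1 : ((GaussRot.Rs true 0 (2 * m + 1 + t)).filter
      (fun p => p.i + p.c + 1 = 2 * m + 1 + 1)).card = m + t := by
    have h1 : ((GaussRot.Rs true 0 (2 * m + 1 + t)).filter
      (fun p => p.i + p.c + 1 = 2 * m + 1 + 1)).card = (Icc (1 - t) m).card := by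
      refine Finset.card_nbij' (fun p : GaussRot.Cell => p.i)
        (fun i => (⟨i, 2 * m + 1 - i⟩ : GaussRot.Cell)) ?_ ?_ ?_ ?_
      · intro p hp
        rw [mem_coe, mem_filter, GaussRot.mem_Rs, GaussRot.reg_true] at hp
        rw [mem_coe, mem_Icc]
        change 1 - t ≤ p.i ∧ p.i ≤ m
        omega
      · intro i hi
        rw [mem_coe, mem_Icc] at hi
        rw [mem_coe, mem_filter, GaussRot.mem_Rs, GaussRot.reg_true]
        simp only
        omega
      · intro p hp
        rw [mem_coe, mem_filter, GaussRot.mem_Rs, GaussRot.reg_true] at hp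
        obtain ⟨i, c⟩ := p
        simp only at hp ⊢
        rw [GaussRot.Cell.mk.injEq]
        omega
      · intro i hi
        rfl
    rw [h1, Nat.card_Icc]
    omega
  have e2 : ((univ \ univ.filter (fun z : P => lev z ≤ 2 * m)).filter
      (fun z => GaussRot.sz (univ : Finset P) z = 2 * m + 1 + 1)).card = t := by
    by_cases hex : ∃ w, Ty (2 * m) m e w {0}
    · rw [ht, if_pos hex, card_eq_one]
      obtain ⟨w, hw⟩ := hex
      refine ⟨w, ?_⟩
      ext z
      rw [mem_filter, mem_sdiff, mem_filter, mem_singleton]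
      constructor
      · rintro ⟨⟨-, h1⟩, h2⟩
        have h3 : 2 * m + 1 ≤ lev z := by
          by_contra h4
          exact h1 ⟨mem_univ _, by omega⟩
        rcases hout z h3 with h4 | h4
        · omega
        · exact row_zero_uniq H hR hG (by omega) h4 hw
      · rintro rfl
        refine ⟨⟨mem_univ _, fun h1 => ?_⟩, hw0 z hw⟩
        have h2 := hw.1
        omega
    · rw [ht, if_neg hex, card_eq_zero]
      refine filter_eq_empty_iff.2 fun z hz h2 => ?_
      rw [mem_sdiff, mem_filter] at hz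
      have h3 : 2 * m + 1 ≤ lev z := by
        by_contra h4
        exact hz.2 ⟨mem_univ _, by omega⟩
      rcases hout z h3 with h4 | h4
      · omega
      · exact hex ⟨z, h4⟩
  have e3 : ((GaussRot.Rs true 0 (2 * m + 1 + t) \ Cl (2 * m + 1 + t) (2 * m)).filter
      (fun p => GaussRot.sz (GaussRot.Rs true 0 (2 * m + 1 + t)) p = 2 * m + 1 + 1)).card = t := by
    have h1 : (GaussRot.Rs true 0 (2 * m + 1 + t) \ Cl (2 * m + 1 + t) (2 * m)).filter
        (fun p => GaussRot.sz (GaussRot.Rs true 0 (2 * m + 1 + t)) p = 2 * m + 1 + 1) =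
        if t = 1 then {⟨0, 2 * m + 1⟩} else ∅ := by
      ext p
      rw [mem_filter, mem_sdiff]
      constructor
      · rintro ⟨⟨h2, h3⟩, h4⟩
        have h5 := ((hcell p h2 h3).2).1 h4
        subst h5
        rw [GaussRot.mem_Rs, GaussRot.reg_true] at h2
        simp only at h2
        rw [if_pos (by omega)]
        exact mem_singleton_self _
      · intro h2
        split_ifs at h2 with h3
        · rw [mem_singleton] at h2
          subst h2
          have h4 : (⟨0, 2 * m + 1⟩ : GaussRot.Cell) ∈ GaussRot.Rs true 0 (2 * m + 1 + t) := by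
            rw [GaussRot.mem_Rs, GaussRot.reg_true]
            simp only
            omega
          have h5 : (⟨0, 2 * m + 1⟩ : GaussRot.Cell) ∉ Cl (2 * m + 1 + t) (2 * m) := by
            rw [mem_Cl]
            simp only
            omega
          exact ⟨⟨h4, h5⟩, ((hcell _ h4 h5).2).2 rfl⟩
        · exact absurd h2 (notMem_empty _)
    rw [h1]
    split_ifs with h2
    · rw [card_singleton, h2]
    · rw [card_empty]
      omega
  rw [e1, e2, e3] at hc
  omega

end Pool.Agent.GaussPoset.Win
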