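import Pool.Agent.W_448win_h16.ShpK

/-! Comparison below an odd level. -/

namespace Pool.Agent.GaussPoset.Win

set_option linter.unusedSectionVars false

open Finset

universe u

variable {P : Type u} [Fintype P] [PartialOrder P] [DecidableEq P] {r : ℕ}

/-- If no element has type `{0}` then `b_(2m+3) = m` (`m ≥ 2`). `GaussRot.comparison` (first part)
with `k = true`, `m = 0`, `L = 2m + 2`, `C` = elements of level `≤ 2m + 1`, `C' = Cl L (2m+1)`,
`s = 2m + 5`, at `l = 2m + 4` (`GaussRot.card_lev_succ`). Elements outside `C` are below some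
`x_i = (i, 2m+1-i)`, `1 ≤ i ≤ m` (`below_cases`), `2 sz x_i = (i+1)(4m+4-3i) ≥ 4m + 8`
(for `i = 1`: `8m + 2`, for `i = m`: `(m+1)(m+4)`, concave in `i`), so their size is `≥ 2m + 5`.
Missing cells `(i,c)`, `i ≤ c < 2m+2`, `i + c ≥ 2m+2`, so `i ≥ 1`: twice the size
`(i+1)(2c+2-i) ≥ 4m + 10` (`c ≥ 2m+2-i`, `c ≥ i`; `GaussRot.sz_stair`). The reference poset has
the `m` cells `(i, 2m+3-i)`, `2 ≤ i ≤ m + 1`, on level `2m + 3`. -/
theorem odd_count {m : ℕ} {e : ℕ → ℕ → P} (H : Gr P r) (hm : 2 ≤ m)
    (h : Crd none (2 * m + 1) e) (h0 : ∀ w, ¬ Ty (2 * m + 1) m e w {0}) :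
    (lv P (2 * m + 3)).card = m := by
  classical
  have hR : Row (2 * m + 1) m e := by
    have h1 := Crd.row H (t := none) (show Rg none 0 0 from Nat.le_refl 0)
      (by omega : 1 ≤ 2 * m + 1) h
    have h2 : mm none (2 * m + 1) = m := by
      show (2 * m + 1) / 2 = m
      omega
    rwa [h2] at h1
  have hcmp := (GaussRot.comparison H.gauss true 0 (2 * m + 2)
    (univ.filter (fun z : P => lev z ≤ 2 * m + 1)) (Cl (2 * m + 2) (2 * m + 1))
    (top_mem_J (2 * m + 1)) (Cl_mem_J (2 * m + 2) (2 * m + 1)) (h.AF_top (by omega)) (2 * m + 5)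
    (by omega) ?_ ?_).1 (2 * m + 4) (by omega)
  · rw [GaussRot.card_lev_succ (2 * m + 3)] at hcmp
    rw [hcmp]
    have hset : (GaussRot.Rs true 0 (2 * m + 2)).filter (fun p => p.i + p.c + 1 = 2 * m + 4) =
        (Icc 2 (m + 1)).image (fun i => (⟨i, 2 * m + 3 - i⟩ : GaussRot.Cell)) := by
      ext ⟨i, c⟩
      rw [mem_filter, GaussRot.mem_Rs, GaussRot.reg_true, mem_image]
      simp only [mem_Icc, GaussRot.Cell.mk.injEq]
      constructor
      · rintro ⟨⟨h1, h2⟩, h3⟩
        exact ⟨i, by omega, rfl, by omega⟩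
      · rintro ⟨j, h1, h2, h3⟩
        omega
    rw [hset, Finset.card_image_of_injective _ (fun a b hab => by
      simp only [GaussRot.Cell.mk.injEq] at hab
      exact hab.1), Nat.card_Icc]
    omega
  · intro z hz
    rw [mem_filter] at hz
    have hlz : 2 * m + 1 + 1 ≤ lev z := by
      by_contra hcon
      exact hz ⟨mem_univ _, by omega⟩
    rcases below_cases hR hlz with ⟨i, hi1, hi2, hzi⟩ | ⟨w, _, hw⟩
    · have h1 := GaussRot.sz_lt hzi
      have h2 := h.sz_e (i := i) (c := 2 * m + 1 - i) (by omega) (by omega)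
      obtain ⟨j, rfl⟩ : ∃ j, m = i + j := ⟨m - i, by omega⟩
      rw [show 2 * (2 * (i + j) + 1 - i) + 2 - i = i + 4 * j + 4 by omega] at h2
      have h3 : 4 * (i + j) + 8 ≤ (i + 1) * (i + 4 * j + 4) := by
        rcases Nat.lt_or_ge i 2 with h4 | h4
        · obtain rfl : i = 1 := by omega
          omega
        · nlinarith
      omega
    · exact absurd hw (h0 w)
  · intro p hp hpC
    have h2 := GaussRot.sz_stair 0 (2 * m + 2) hp
    rw [GaussRot.mem_Rs, GaussRot.reg_true] at hp
    rw [mem_Cl] at hpC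
    obtain ⟨i, c⟩ := p
    simp only at hp hpC h2 ⊢
    obtain ⟨d, rfl⟩ : ∃ d, c = i + d := ⟨c - i, by omega⟩
    have h4 : 2 * m + 2 ≤ 2 * i + d := by
      by_contra hcon
      exact hpC ⟨hp, by omega⟩
    rw [show 2 * (i + d) + 2 - i = i + 2 * d + 2 by omega] at h2
    have h3 : 4 * m + 10 ≤ (i + 1) * (i + 2 * d + 2) := by
      have h5 : 1 ≤ i := by omega
      rcases Nat.lt_or_ge i 3 with h6 | h6
      · interval_cases i
        · omega
        · omega
      · nlinarith
    omega

/-- The case `m = 1`: `GaussRot.comparison` (second part) with `L = 4`, `C` = elements of level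
`≤ 3`, `C' = Cl 4 3`, `s = 6`. `x_0 = (0,3)`, `x_1 = (1,2)`, `sz x_1 = 5`. Elements outside `C` are
below `x_1` (`below_cases`), so their size is `≥ 6`. Size `6` exactly for elements `w` of type
`{1}`: by `sz_pend_last`; an element of level `4` of another type is below `x_0` and `x_1`, its
size is `≥ 7` (`x_0` is not above `x_1`); an element of level `≥ 5` is strictly below an element of
level `4`. So exactly one element outside `C` has size `6`. Missing cells: `(1,3)`, `(2,2)`,
`(2,3)`, `(3,3)` of sizes `7, 6, 9, 10`. The reference poset has one cell `(2,3)` on level `5`. -/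
theorem odd_count_one {e : ℕ → ℕ → P} (H : Gr P r) (h : Crd none 3 e)
    (h0 : ∀ w, ¬ Ty 3 1 e w {0}) {w1 : P} (h1 : Ty 3 1 e w1 {1})
    (h2 : ∀ w, Ty 3 1 e w {1} → w = w1) : (lv P 5).card = 1 := by
  classical
  have hR : Row 3 1 e := by
    have h3 := Crd.row H (t := none) (show Rg none 0 0 from Nat.le_refl 0) (by norm_num : 1 ≤ 3) h
    have h4 : mm none 3 = 1 := rfl
    rwa [h4] at h3
  have hsz : GaussRot.sz (univ : Finset P) (e 1 2) = 5 := by
    have h3 := h.sz_e (i := 1) (c := 2) (by omega) (by omega)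
    omega
  have hout : ∀ z : P, z ∉ univ.filter (fun z : P => lev z ≤ 3) → z < e 1 2 := by
    intro z hz
    rw [mem_filter] at hz
    have hlz : 3 + 1 ≤ lev z := by
      by_contra hcon
      exact hz ⟨mem_univ _, by omega⟩
    rcases below_cases hR hlz with ⟨i, hi1, hi2, hzi⟩ | ⟨w, _, hw⟩
    · obtain rfl : i = 1 := by omega
      exact hzi
    · exact absurd hw (h0 w)
  have hge : ∀ z : P, z ∉ univ.filter (fun z : P => lev z ≤ 3) →
      6 ≤ GaussRot.sz (univ : Finset P) z := by
    intro z hz
    have h3 := GaussRot.sz_lt (hout z hz)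
    omega
  have hcell : ∀ p ∈ GaussRot.Rs true 0 4, p ∉ Cl 4 3 →
      (p.i = 1 ∧ p.c = 3 ∧ GaussRot.sz (GaussRot.Rs true 0 4) p = 7) ∨
      (p.i = 2 ∧ p.c = 2 ∧ GaussRot.sz (GaussRot.Rs true 0 4) p = 6) ∨
      (p.i = 2 ∧ p.c = 3 ∧ GaussRot.sz (GaussRot.Rs true 0 4) p = 9) ∨
      (p.i = 3 ∧ p.c = 3 ∧ GaussRot.sz (GaussRot.Rs true 0 4) p = 10) := by
    intro p hp hpC
    have h3 := GaussRot.sz_stair 0 4 hp
    rw [GaussRot.mem_Rs, GaussRot.reg_true] at hp
    rw [mem_Cl] at hpC
    obtain ⟨i, c⟩ := p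
    simp only at hp hpC h3 ⊢
    have h4 : 4 ≤ i + c := by
      by_contra hcon
      exact hpC ⟨hp, by omega⟩
    have h5 : (i = 1 ∧ c = 3) ∨ (i = 2 ∧ c = 2) ∨ (i = 2 ∧ c = 3) ∨ (i = 3 ∧ c = 3) := by omega
    rcases h5 with ⟨rfl, rfl⟩ | ⟨rfl, rfl⟩ | ⟨rfl, rfl⟩ | ⟨rfl, rfl⟩
    · left
      exact ⟨rfl, rfl, by omega⟩
    · right; left
      exact ⟨rfl, rfl, by omega⟩
    · right; right; left
      exact ⟨rfl, rfl, by omega⟩
    · right; right; right
      exact ⟨rfl, rfl, by omega⟩
  have hcmp := (GaussRot.comparison H.gauss true 0 4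
    (univ.filter (fun z : P => lev z ≤ 3)) (Cl 4 3)
    (top_mem_J 3) (Cl_mem_J 4 3) (h.AF_top (by omega)) 6 (by omega) hge ?_).2
  · have e1 : (univ : Finset P).filter (fun x => lev x + 1 = 6) =
        (univ : Finset P).filter (fun x => lev x + 1 = 5 + 1) := rfl
    rw [e1, GaussRot.card_lev_succ 5] at hcmp
    have e2 : (GaussRot.Rs true 0 4).filter (fun p => p.i + p.c + 1 = 6) = {⟨2, 3⟩} := by
      ext ⟨i, c⟩
      rw [mem_filter, GaussRot.mem_Rs, GaussRot.reg_true, mem_singleton]
      simp only [GaussRot.Cell.mk.injEq]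
      omega
    have e3 : ((univ \ univ.filter (fun z : P => lev z ≤ 3)).filter
        (fun z => GaussRot.sz (univ : Finset P) z = 6)) = {w1} := by
      ext z
      rw [mem_filter, mem_sdiff, mem_singleton]
      constructor
      · rintro ⟨⟨_, hz⟩, hz6⟩
        apply h2
        have hlt := hout z hz
        have hlz : 4 ≤ lev z := by
          by_contra hcon
          exact hz (mem_filter.2 ⟨mem_univ _, by omega⟩)
        have hl4 : lev z = 4 := by
          by_contra hcon
          obtain ⟨w, hzw, hw⟩ := exists_above' (x := z) (j := 4) hlz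
          have hne : z ≠ w := by
            rintro rfl
            exact hcon hw
          have h3 := GaussRot.sz_lt (lt_of_le_of_ne hzw hne)
          have h4 := hge w (by
            rw [mem_filter]
            omega)
          omega
        refine ⟨hl4, fun i hi => ?_⟩
        interval_cases i
        · show z < e 0 3 ↔ _
          refine ⟨fun h3 => ?_, fun h3 => absurd h3 (by decide)⟩
          exfalso
          have h4 : ¬ e 1 2 ≤ e 0 3 := by
            rw [h.le_iff 1 2 0 3 (show 1 ≤ 2 by omega) (by omega) (Nat.zero_le 3) (by omega)]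
            omega
          have h5 : insert z (insert (e 0 3) (GaussRot.upF (univ : Finset P) (e 1 2))) ⊆
              GaussRot.upF (univ : Finset P) z := by
            intro y hy
            rw [mem_insert, mem_insert] at hy
            rw [GaussRot.mem_upF]
            refine ⟨mem_univ _, ?_⟩
            rcases hy with rfl | rfl | hy
            · exact le_rfl
            · exact h3.le
            · exact hlt.le.trans (GaussRot.mem_upF.1 hy).2
          have h6 := Finset.card_le_card h5
          rw [Finset.card_insert_of_notMem, Finset.card_insert_of_notMem] at h6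
          · unfold GaussRot.sz at hsz hz6
            omega
          · intro h7
            exact h4 (GaussRot.mem_upF.1 h7).2
          · intro h7
            rw [mem_insert] at h7
            rcases h7 with h7 | h7
            · exact absurd h7 (ne_of_lt h3)
            · exact absurd (GaussRot.mem_upF.1 h7).2 (not_le_of_gt hlt)
        · show z < e 1 2 ↔ _
          exact ⟨fun _ => by decide, fun _ => hlt⟩
      · rintro rfl
        refine ⟨⟨mem_univ _, ?_⟩, ?_⟩
        · rw [mem_filter]
          have h3 : lev z = 3 + 1 := h1.1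
          omega
        · have h3 := sz_pend_last H hR h1
          have h4 : GaussRot.sz (univ : Finset P) z =
            GaussRot.sz (univ : Finset P) (e 1 2) + 1 := h3
          omega
    have e4 : ((GaussRot.Rs true 0 4 \ Cl 4 3).filter
        (fun p => GaussRot.sz (GaussRot.Rs true 0 4) p = 6)) = {⟨2, 2⟩} := by
      ext p
      rw [mem_filter, mem_sdiff, mem_singleton]
      constructor
      · rintro ⟨⟨hp, hpC⟩, hp6⟩
        obtain ⟨i, c⟩ := p
        rcases hcell _ hp hpC with h3 | h3 | h3 | h3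
        · omega
        · simp only at h3
          rw [h3.1, h3.2.1]
        · omega
        · omega
      · rintro rfl
        have hp : (⟨2, 2⟩ : GaussRot.Cell) ∈ GaussRot.Rs true 0 4 := by
          rw [GaussRot.mem_Rs, GaussRot.reg_true]
          exact ⟨le_rfl, by norm_num⟩
        have hpC : (⟨2, 2⟩ : GaussRot.Cell) ∉ Cl 4 3 := by
          rw [mem_Cl]
          simp
        refine ⟨⟨hp, hpC⟩, ?_⟩
        rcases hcell _ hp hpC with h3 | h3 | h3 | h3
        · simp at h3
        · exact h3.2.2
        · simp at h3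
        · simp at h3
    rw [e2, e3, e4, Finset.card_singleton, Finset.card_singleton, Finset.card_singleton] at hcmp
    omega
  · intro p hp hpC
    rcases hcell p hp hpC with h3 | h3 | h3 | h3 <;> omega

end Pool.Agent.GaussPoset.Win
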