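import Pool.Agent.W_448win_h16.ShpF
import Pool.Agent.W_448win_h16.ShpG
import Pool.Agent.W_448win_h16.ShpH
import Pool.Agent.W_448win_h16.E2Final
import Pool.Agent.W_448rot_h96.UnimodB

/-! From level two to level three in the case b_2 = 2. -/

namespace Pool.Agent.GaussPoset.Win

set_option linter.unusedSectionVars false

open Finset

universe u

variable {P : Type u} [Fintype P] [PartialOrder P] [DecidableEq P] {r : ℕ}

/-- levels with three elements are good: `tri_mod` -/
theorem good_three (H : Gr P r) {i : ℕ} (hi : i ≤ r) (h : (lv P i).card = 3) : Good P i := by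
  classical
  intro v v' hv hv' hne
  obtain ⟨c, hc, hcv, hcv'⟩ : ∃ c, lev c = i ∧ c ≠ v ∧ c ≠ v' := by
    by_contra hcon
    push Not at hcon
    have h1 : lv P i ⊆ {v, v'} := by
      intro x hx
      rw [mem_lv] at hx
      rw [mem_insert, mem_singleton]
      by_cases hxv : x = v
      · exact Or.inl hxv
      · exact Or.inr (hcon x hx hxv)
    have h2 := (Finset.card_le_card h1).trans Finset.card_le_two
    omega
  have T : Tri i v v' c := by
    refine ⟨hv, hv', hc, hne, hcv.symm, hcv'.symm, fun s hs => ?_⟩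
    have h4 : ({v, v', c} : Finset P) = lv P i := by
      apply Finset.eq_of_subset_of_card_le
      · intro x hx
        simp only [mem_insert, mem_singleton] at hx
        rw [mem_lv]
        rcases hx with rfl | rfl | rfl
        · exact hv
        · exact hv'
        · exact hc
      · rw [Finset.card_eq_three.mpr ⟨v, v', c, hne, hcv.symm, hcv'.symm, rfl⟩]
        exact h.le
    rw [← mem_lv, ← h4] at hs
    simpa using hs
  exact (tri_mod H T hi).1

lemma ShpN_row (H : Gr P r) {e : ℕ → ℕ → P} (h : Crd none 2 e) : Row 2 1 e := by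
  have h1 := Crd.row H (t := none) (show Rg none 0 0 from Nat.le_refl 0) (by norm_num : 1 ≤ 2) h
  have h2 : mm none 2 = 1 := rfl
  rwa [h2] at h1

/-- the upper covers of an element of type `T` -/
lemma ShpN_uc (H : Gr P r) {l m : ℕ} {e : ℕ → ℕ → P} (hR : Row l m e) {w : P} {T : Finset ℕ}
    (hw : Ty l m e w T) (hT : ∀ i ∈ T, i ≤ m) : uc w = T.image (fun i => e i (l - i)) := by
  ext v
  rw [Ty.uc_iff H hR hw, mem_image]
  constructor
  · rintro ⟨i, _, h2, h3⟩
    exact ⟨i, h2, h3.symm⟩
  · rintro ⟨i, h2, h3⟩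
    exact ⟨i, hT i h2, h2, h3.symm⟩

lemma ShpN_card (H : Gr P r) {l m : ℕ} {e : ℕ → ℕ → P} (hR : Row l m e) {w : P} {T : Finset ℕ}
    (hw : Ty l m e w T) (hT : ∀ i ∈ T, i ≤ m) : (uc w).card = T.card := by
  rw [ShpN_uc H hR hw hT]
  exact Finset.card_image_of_injOn fun i hi j hj hij => hR.inj i (hT i hi) j (hT j hj) hij

lemma ShpN_ucv (H : Gr P r) {l m : ℕ} {e : ℕ → ℕ → P} (hR : Row l m e) {w w' : P}
    {T T' : Finset ℕ} (hw : Ty l m e w T) (hT : ∀ i ∈ T, i ≤ m) (hw' : Ty l m e w' T')
    (hT' : ∀ i ∈ T', i ≤ m) : ucv w w' = (T ∩ T').card := by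
  classical
  have h1 : (univ.filter (fun y : P => w ⋖ y ∧ w' ⋖ y)) =
      (T ∩ T').image (fun i => e i (l - i)) := by
    ext v
    rw [mem_filter, ← mem_uc, ← mem_uc, Ty.uc_iff H hR hw, Ty.uc_iff H hR hw', mem_image]
    constructor
    · rintro ⟨_, ⟨i, h1, h2, h3⟩, j, h4, h5, h6⟩
      have h7 : i = j := hR.inj i h1 j h4 (h3.symm.trans h6)
      subst h7
      exact ⟨i, mem_inter.2 ⟨h2, h5⟩, h3.symm⟩
    · rintro ⟨i, h1, h2⟩
      have h3 := mem_inter.1 h1
      exact ⟨mem_univ _, ⟨i, hT i h3.1, h3.1, h2.symm⟩, ⟨i, hT i h3.1, h3.2, h2.symm⟩⟩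
  unfold ucv
  have h2 : ((T ∩ T').image (fun i => e i (l - i))).card = (T ∩ T').card :=
    Finset.card_image_of_injOn fun i hi j hj hij => by
      have hi' := (mem_inter.1 (Finset.mem_coe.1 hi)).1
      have hj' := (mem_inter.1 (Finset.mem_coe.1 hj)).1
      exact hR.inj i (hT i hi') j (hT j hj') hij
  rw [← h2, ← h1]

/-- Not both pendants: otherwise level `3` consists of `p` (type `{0}`), `y` (type `{0,1}`), `p'`
(type `{1}`) (`row_cases`, `row_nat`, uniqueness), it has three elements (`row_count`), so it is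
good (`good_three`), and it is a row: with `f 0 3 = p`, `f 1 2 = y`, `f 2 1 = p'` we have
`Row 3 2 f` (the upper covers of `p`, `y`, `p'` are `{x_0}`, `{x_0, x_1}`, `{x_1}`, `Ty.uc_iff`).
By `row_cases` for this row an element of level `4` with one upper cover is only below `p` or only
below `p'`, and these have one upper cover, so `PD P 2 = ∅`; but `PU P 2` has one element
(`PU_none` with `m = 1`), contradiction to `good_card`. -/
theorem not_both (H : Gr P r) {e : ℕ → ℕ → P} (h : Crd none 2 e) (hG : Good P 2) (hr : 4 ≤ r)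
    {p p' : P} (hp : Ty 2 1 e p {0}) (hp' : Ty 2 1 e p' {1}) : False := by
  classical
  have hR := ShpN_row H h
  obtain ⟨y, hy, hyu⟩ := row_nat H hR hG (i := 1) le_rfl le_rfl
  have hy : Ty 2 1 e y {0, 1} := hy
  have hc3 := row_count H hR hG le_rfl
  rw [if_pos ⟨p, hp⟩, if_pos ⟨p', hp'⟩] at hc3
  have hG3 : Good P 3 := good_three H (by omega) hc3
  have s0 : ∀ i ∈ ({0} : Finset ℕ), i ≤ 1 := by decide
  have s1 : ∀ i ∈ ({1} : Finset ℕ), i ≤ 1 := by decide
  have s01 : ∀ i ∈ ({0, 1} : Finset ℕ), i ≤ 1 := by decide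
  have cp : (uc p).card = 1 := ShpN_card H hR hp s0
  have cp' : (uc p').card = 1 := ShpN_card H hR hp' s1
  have cy : (uc y).card = 2 := ShpN_card H hR hy s01
  have hpy : p ≠ y := by
    rintro rfl
    omega
  have hp'y : p' ≠ y := by
    rintro rfl
    omega
  have hpp' : p ≠ p' := by
    rintro rfl
    have h1 := (hp.2 0 (by omega)).2 (by decide)
    have h2 := (hp'.2 0 (by omega)).1 h1
    exact absurd h2 (by decide)
  have upy : ucv p y = 1 := ShpN_ucv H hR hp s0 hy s01
  have uyp : ucv y p = 1 := ShpN_ucv H hR hy s01 hp s0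
  have uyp' : ucv y p' = 1 := ShpN_ucv H hR hy s01 hp' s1
  have up'y : ucv p' y = 1 := ShpN_ucv H hR hp' s1 hy s01
  have upp' : ucv p p' = 0 := ShpN_ucv H hR hp s0 hp' s1
  have up'p : ucv p' p = 0 := ShpN_ucv H hR hp' s1 hp s0
  obtain ⟨f, hf0, hf1, hf2⟩ : ∃ f : ℕ → ℕ → P, f 0 3 = p ∧ f 1 2 = y ∧ f 2 1 = p' :=
    ⟨fun i _ => if i = 0 then p else if i = 1 then y else p', rfl, rfl, rfl⟩
  have hR3 : Row 3 2 f := by
    refine ⟨?_, ?_, ?_, ?_⟩
    · intro i hi
      interval_cases i
      · show lev (f 0 3) = 3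
        rw [hf0]; exact hp.1
      · show lev (f 1 2) = 3
        rw [hf1]; exact hy.1
      · show lev (f 2 1) = 3
        rw [hf2]; exact hp'.1
    · intro i hi i' hi' heq
      interval_cases i <;> interval_cases i'
      · rfl
      · exact absurd (show p = y by rw [← hf0, ← hf1]; exact heq) hpy
      · exact absurd (show p = p' by rw [← hf0, ← hf2]; exact heq) hpp'
      · exact absurd (show p = y by rw [← hf0, ← hf1]; exact heq.symm) hpy
      · rfl
      · exact absurd (show p' = y by rw [← hf1, ← hf2]; exact heq.symm) hp'y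
      · exact absurd (show p = p' by rw [← hf0, ← hf2]; exact heq.symm) hpp'
      · exact absurd (show p' = y by rw [← hf1, ← hf2]; exact heq) hp'y
      · rfl
    · intro v hv
      rcases row_cases H hR hG le_rfl (w := v) hv with h1 | h1 | ⟨i, h1, h2, h3⟩
      · exact ⟨0, by omega, by rw [row_zero_uniq H hR hG le_rfl h1 hp]; exact hf0⟩
      · exact ⟨2, by omega, by rw [row_last_uniq H hR hG le_rfl h1 hp']; exact hf2⟩
      · obtain rfl : i = 1 := by omega
        exact ⟨1, by omega, by rw [hyu v h3]; exact hf1⟩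
    · intro i hi i' hi' hne
      interval_cases i <;> interval_cases i'
      · exact absurd rfl hne
      · show ucv (f 0 3) (f 1 2) = 1
        rw [hf0, hf1]; exact upy
      · show ucv (f 0 3) (f 2 1) = 0
        rw [hf0, hf2]; exact upp'
      · show ucv (f 1 2) (f 0 3) = 1
        rw [hf0, hf1]; exact uyp
      · exact absurd rfl hne
      · show ucv (f 1 2) (f 2 1) = 1
        rw [hf1, hf2]; exact uyp'
      · show ucv (f 2 1) (f 0 3) = 0
        rw [hf0, hf2]; exact up'p
      · show ucv (f 2 1) (f 1 2) = 1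
        rw [hf1, hf2]; exact up'y
      · exact absurd rfl hne
  have hPD : PD P 2 = ∅ := by
    rw [Finset.eq_empty_iff_forall_notMem]
    intro z hz
    unfold PD at hz
    rw [mem_filter] at hz
    obtain ⟨_, hz1, hz2, w, hw1, hw2⟩ := hz
    have hwz : w ∈ uc z := mem_uc.2 hw1
    rcases row_cases H hR3 hG3 (by omega) (w := z) hz1 with h1 | h1 | ⟨i, h1, h2, h3⟩
    · rw [ShpN_uc H hR3 h1 (by decide), mem_image] at hwz
      obtain ⟨i, hi, h4⟩ := hwz
      rw [mem_singleton] at hi
      subst hi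
      have h5 : w = p := by rw [← h4]; exact hf0
      rw [h5] at hw2
      omega
    · rw [ShpN_uc H hR3 h1 (by decide), mem_image] at hwz
      obtain ⟨i, hi, h4⟩ := hwz
      rw [mem_singleton] at hi
      subst hi
      have h5 : w = p' := by rw [← h4]; exact hf2
      rw [h5] at hw2
      omega
    · have h4 := ShpN_card H hR3 h3 (by
        intro j hj
        rw [mem_insert, mem_singleton] at hj
        omega)
      rw [Finset.card_pair (by omega)] at h4
      omega
  have h5 := good_card H (i := 2) (by omega) (by omega) hG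
  have h6 : PU P 2 = {e 0 0} := PU_none H (m := 1) (l := 2) le_rfl le_rfl h
  rw [hPD, h6] at h5
  simp at h5

/-- the two elements of level `2` can be exchanged -/
theorem Crd.swap_two {e : ℕ → ℕ → P} (h : Crd none 2 e) :
    Crd none 2 (fun i c => if i = 0 ∧ c = 2 then e 1 1 else if i = 1 ∧ c = 1 then e 0 2 else
      e i c) := by
  have hcell : ∀ i c : ℕ, Rg none i c → i + c ≤ 2 →
      (i = 0 ∧ c = 0) ∨ (i = 0 ∧ c = 1) ∨ (i = 0 ∧ c = 2) ∨ (i = 1 ∧ c = 1) := by
    intro i c h1 h2
    have h3 : i ≤ c := h1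
    omega
  have r00 : Rg none 0 0 := Nat.le_refl 0
  have r01 : Rg none 0 1 := Nat.zero_le 1
  have r02 : Rg none 0 2 := Nat.zero_le 2
  have r11 : Rg none 1 1 := Nat.le_refl 1
  have l00 := h.lev_e 0 0 r00 (by omega)
  have l01 := h.lev_e 0 1 r01 (by omega)
  have l02 := h.lev_e 0 2 r02 (by omega)
  have l11 := h.lev_e 1 1 r11 (by omega)
  refine ⟨fun i c h1 h2 => ?_, fun i c i' c' h1 h2 h3 h4 => ?_, fun z hz => ?_⟩
  · rcases hcell i c h1 h2 with ⟨rfl, rfl⟩ | ⟨rfl, rfl⟩ | ⟨rfl, rfl⟩ | ⟨rfl, rfl⟩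
    · exact l00
    · exact l01
    · exact l11
    · exact l02
  · have key : ∀ {a b a' b' : ℕ}, Rg none a b → a + b ≤ 2 → Rg none a' b' → a' + b' ≤ 2 →
        (e a b ≤ e a' b' ↔ a' ≤ a ∧ b' ≤ b) := fun h1 h2 h3 h4 => h.le_iff _ _ _ _ h1 h2 h3 h4
    rcases hcell i c h1 h2 with ⟨rfl, rfl⟩ | ⟨rfl, rfl⟩ | ⟨rfl, rfl⟩ | ⟨rfl, rfl⟩ <;>
      rcases hcell i' c' h3 h4 with ⟨rfl, rfl⟩ | ⟨rfl, rfl⟩ | ⟨rfl, rfl⟩ | ⟨rfl, rfl⟩
    · exact key r00 (by omega) r00 (by omega)
    · exact key r00 (by omega) r01 (by omega)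
    · refine (key r00 (by omega) r11 (by omega)).trans ?_
      omega
    · refine (key r00 (by omega) r02 (by omega)).trans ?_
      omega
    · exact key r01 (by omega) r00 (by omega)
    · exact key r01 (by omega) r01 (by omega)
    · refine (key r01 (by omega) r11 (by omega)).trans ?_
      omega
    · refine (key r01 (by omega) r02 (by omega)).trans ?_
      omega
    · refine (key r11 (by omega) r00 (by omega)).trans ?_
      omega
    · refine (key r11 (by omega) r01 (by omega)).trans ?_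
      omega
    · refine (key r11 (by omega) r11 (by omega)).trans ?_
      omega
    · refine (key r11 (by omega) r02 (by omega)).trans ?_
      omega
    · refine (key r02 (by omega) r00 (by omega)).trans ?_
      omega
    · refine (key r02 (by omega) r01 (by omega)).trans ?_
      omega
    · refine (key r02 (by omega) r11 (by omega)).trans ?_
      omega
    · refine (key r02 (by omega) r02 (by omega)).trans ?_
      omega
  · obtain ⟨i, c, h1, h2, h3⟩ := h.surj z hz
    rcases hcell i c h1 h2 with ⟨rfl, rfl⟩ | ⟨rfl, rfl⟩ | ⟨rfl, rfl⟩ | ⟨rfl, rfl⟩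
    · exact ⟨0, 0, r00, by omega, h3⟩
    · exact ⟨0, 1, r01, by omega, h3⟩
    · exact ⟨1, 1, r11, by omega, h3⟩
    · exact ⟨0, 2, r02, by omega, h3⟩

/-- Step from level `2` to level `3`: `row_count` and `unimod` (`b_3 ≥ b_2 = 2`): there is a
pendant; only one by `not_both`; exchange the two elements of level `2` if its type is `{1}`
(`Crd.swap_two`); `mk_next` with `t' = none`, `M = 1`. -/
theorem step_two (H : Gr P r) {e : ℕ → ℕ → P} (h : Crd none 2 e) (hG : Good P 2) (hr : 5 ≤ r) :
    ∃ e' : ℕ → ℕ → P, Crd none 3 e' := by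
  classical
  have hR := ShpN_row H h
  have h0 : Rg none 0 0 := Nat.le_refl 0
  have hc1 := hR.card
  have hc2 := row_count H hR hG le_rfl
  have hun := GaussRot.unimod H (l := 2) (by omega)
  have hmk : ∀ f : ℕ → ℕ → P, Crd none 2 f → (∃ w, Ty 2 1 f w {0}) → (∀ w, ¬ Ty 2 1 f w {1}) →
      ∃ e' : ℕ → ℕ → P, Crd none 3 e' := by
    intro f hf hw0 hw1
    exact mk_next H (t' := none) (M := 1) hf h0 (by omega) (show mm none 2 = 1 from rfl) le_rfl hG
      (fun i c hic => Iff.rfl)
      (fun i c hic => by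
        show i ≤ c ↔ i ≤ 1
        omega) hw0 (Or.inl ⟨rfl, hw1⟩)
  by_cases hw0 : ∃ w, Ty 2 1 e w {0}
  · by_cases hw1 : ∃ w, Ty 2 1 e w {1}
    · obtain ⟨p, hp⟩ := hw0
      obtain ⟨p', hp'⟩ := hw1
      exact (not_both H h hG (by omega) hp hp').elim
    · exact hmk e h hw0 (fun w hw => hw1 ⟨w, hw⟩)
  · by_cases hw1 : ∃ w, Ty 2 1 e w {1}
    · obtain ⟨w, hw⟩ := hw1
      refine hmk _ (Crd.swap_two h) ⟨w, hw.1, ?_⟩ ?_
      · intro i hi
        interval_cases i
        · show w < e 1 1 ↔ _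
          have h1 := hw.2 1 le_rfl
          have h2 : w < e 1 1 := h1.2 (by decide)
          exact ⟨fun _ => by decide, fun _ => h2⟩
        · show w < e 0 2 ↔ _
          have h1 := hw.2 0 (by omega)
          have h2 : ¬ w < e 0 2 := fun h3 => absurd (h1.1 h3) (by decide)
          exact ⟨fun h3 => absurd h3 h2, fun h3 => absurd h3 (by decide)⟩
      · intro w' hw'
        apply hw0
        refine ⟨w', hw'.1, ?_⟩
        have h3 := hw'.2 0 (by omega)
        have h4 := hw'.2 1 le_rfl
        have h3' : w' < e 1 1 ↔ (0 : ℕ) ∈ ({1} : Finset ℕ) := h3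
        have h4' : w' < e 0 2 ↔ (1 : ℕ) ∈ ({1} : Finset ℕ) := h4
        intro i hi
        interval_cases i
        · show w' < e 0 2 ↔ _
          exact ⟨fun _ => by decide, fun _ => h4'.2 (by decide)⟩
        · show w' < e 1 1 ↔ _
          exact ⟨fun h5 => absurd (h3'.1 h5) (by decide), fun h5 => absurd h5 (by decide)⟩
    · rw [if_neg hw0, if_neg hw1] at hc2
      omega

end Pool.Agent.GaussPoset.Win
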