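import Pool.Agent.W_448win_h16.ShpL
import Pool.Agent.W_448win_h16.ShpM
import Pool.Agent.W_448win_h16.ShpN
import Pool.Agent.W_448rot_h96.LevelsT2

/-! The steps in the case b_1 = 1, b_2 = 2. -/

namespace Pool.Agent.GaussPoset.Win

set_option linter.unusedSectionVars false

open Finset

universe u

variable {P : Type u} [Fintype P] [PartialOrder P] [DecidableEq P] {r : ℕ}

/-- Step from an even level, `m ≥ 2`: `row_count` and `even_count`: no element of type `{m}`;
`unimod` (`b_(2m+1) ≥ b_(2m) = m + 1`, `Row.card`): there is one of type `{0}`; `mk_next` with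
`t' = none`, `M = m`. For `m = 1` this is `step_two`. -/
theorem step_even (H : Gr P r) {m : ℕ} {e : ℕ → ℕ → P} (hm : 1 ≤ m) (h : Crd none (2 * m) e)
    (hG : Good P (2 * m)) (hr : 4 * m + 1 ≤ r) : ∃ e' : ℕ → ℕ → P, Crd none (2 * m + 1) e' := by
  classical
  rcases Nat.lt_or_ge m 2 with hm2 | hm2
  · have h1 : m = 1 := by omega
    subst h1
    exact step_two H h hG hr
  · have h0 : Rg none 0 0 := Nat.le_refl 0
    have hmm : mm none (2 * m) = m := by
      show 2 * m / 2 = m
      omega
    have hR : Row (2 * m) m e := by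
      have := h.row H h0 (by omega)
      rwa [hmm] at this
    have h1 := row_count H hR hG hm
    have h2 := even_count H hm2 h hG
    have h3 := GaussRot.unimod H (l := 2 * m) (by omega)
    have h4 := hR.card
    have h5 : ¬ ∃ w, Ty (2 * m) m e w {m} := by
      intro h6
      rw [if_pos h6] at h1
      rw [h1] at h2
      omega
    have h6 : ∃ w, Ty (2 * m) m e w {0} := by
      by_contra h7
      rw [if_neg h7] at h2
      omega
    refine mk_next H (t' := none) (M := m) h h0 (by omega) hmm hm hG (fun i c _ => Iff.rfl)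
      (fun i c h7 => ?_) h6 (Or.inl ⟨rfl, fun w hw => h5 ⟨w, hw⟩⟩)
    show i ≤ c ↔ i ≤ m
    omega

/-- Step from an odd level: `PU P (2m)` has one element (`PU_none`), so `PD P (2m)` has one element
(`good_card`), of type `{m}` (`PD_none`). There is an element of type `{0}`: otherwise
`b_(2m+3) = m` (`odd_count`, for `m = 1` `odd_count_one` with `row_last_uniq`), but
`b_(2m+3) ≥ b_(2m+1) = m + 1` (`GaussRot.lv_le`, `Row.card`). `mk_next` with `t' = none`,
`M = m + 1`. -/
theorem step_odd (H : Gr P r) {m : ℕ} {e : ℕ → ℕ → P} (hm : 1 ≤ m) (h : Crd none (2 * m + 1) e)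
    (hG : Good P (2 * m + 1)) (hG' : Good P (2 * m)) (hr : 4 * m + 4 ≤ r) :
    ∃ e' : ℕ → ℕ → P, Crd none (2 * m + 2) e' := by
  classical
  have h0 : Rg none 0 0 := Nat.le_refl 0
  have hmm : mm none (2 * m + 1) = m := by
    show (2 * m + 1) / 2 = m
    omega
  have hR : Row (2 * m + 1) m e := by
    have := h.row H h0 (by omega)
    rwa [hmm] at this
  have h1 := good_card H (i := 2 * m) (by omega) (by omega) hG'
  rw [PU_none H hm (by omega) h, card_singleton, card_eq_one] at h1
  obtain ⟨z, hz⟩ := h1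
  have hz' : z ∈ PD P (2 * m) := by rw [hz]; exact mem_singleton_self z
  have hzT := PD_none H hm h hG hz'
  have h2 := hR.card
  have h3 := GaussRot.lv_le H (l := 2 * m + 1) (i := 2 * m + 3) (by omega) (by omega)
  have h6 : ∃ w, Ty (2 * m + 1) m e w {0} := by
    by_contra h7
    have h8 : ∀ w, ¬ Ty (2 * m + 1) m e w {0} := fun w hw => h7 ⟨w, hw⟩
    rcases Nat.lt_or_ge m 2 with hm2 | hm2
    · have h9 : m = 1 := by omega
      subst h9
      have h10 := odd_count_one H h h8 hzT (fun w hw => row_last_uniq H hR hG hm hw hzT)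
      rw [h2] at h3
      have h11 : (lv P (2 * 1 + 3)).card = 1 := h10
      omega
    · have h10 := odd_count H hm2 h h8
      omega
  refine mk_next H (t' := none) (M := m + 1) h h0 (by omega) hmm hm hG (fun i c _ => Iff.rfl)
    (fun i c h7 => ?_) h6 (Or.inr ⟨rfl, by omega, z, hzT⟩)
  show i ≤ c ↔ i ≤ m + 1
  omega

end Pool.Agent.GaussPoset.Win
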